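import Pool.Agent.H14.DtN.Defs

/-!
Smoothness of pulled back forms (finite dimensional spaces), auxiliary file for MODULE A5.
-/

open scoped ContDiff Topology ComplexConjugate
open Set

set_option linter.unusedSectionVars false

noncomputable section

namespace DtN

namespace AC

variable {E : Type*} [NormedAddCommGroup E] [NormedSpace ℝ E]
  {E' : Type*} [NormedAddCommGroup E'] [NormedSpace ℝ E'] [FiniteDimensional ℝ E']
  {F : Type*} [NormedAddCommGroup F] [NormedSpace ℝ F] {q : ℕ}

/-- There are finitely many vectors on which the evaluation determines a form. -/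
theorem exists_leftInv : ∃ (ι : Type) (_ : Fintype ι) (v : ι → Fin q → E')
    (g : (ι → ℂ) →L[ℝ] Alt E' q), ∀ u : Alt E' q, g (fun i => u (v i)) = u := by
  let b := Module.finBasis ℝ E'
  let L : Alt E' q →ₗ[ℝ] ((Fin q → Fin (Module.finrank ℝ E')) → ℂ) :=
    { toFun := fun u K => u (fun l => b (K l))
      map_add' := fun _ _ => rfl
      map_smul' := fun _ _ => rfl }
  have hL : Function.Injective L := by
    intro u u' h
    apply ContinuousAlternatingMap.toAlternatingMap_injective
    refine b.ext_alternating fun K _ => ?_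
    exact congrFun h K
  obtain ⟨g, hg⟩ := LinearMap.exists_leftInverse_of_injective L (LinearMap.ker_eq_bot.mpr hL)
  exact ⟨Fin q → Fin (Module.finrank ℝ E'), inferInstance, fun K l => b (K l),
    LinearMap.toContinuousLinearMap g, fun u => LinearMap.congr_fun hg u⟩

theorem contDiffWithinAt_of_apply {h : F → Alt E' q} {s : Set F} {x : F} {r : WithTop ℕ∞}
    (hh : ∀ v : Fin q → E', ContDiffWithinAt ℝ r (fun y => h y v) s x) :
    ContDiffWithinAt ℝ r h s x := by
  obtain ⟨ι, hι, v, g, hg⟩ := exists_leftInv (E' := E') (q := q)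
  have h1 : h = fun y => g (fun i => h y (v i)) := by
    funext y
    exact (hg _).symm
  rw [h1]
  exact g.contDiff.contDiffAt.comp_contDiffWithinAt x (contDiffWithinAt_pi.2 fun i => hh (v i))

theorem contDiffWithinAt_comp {f : F → Alt E q} {L : F → E' →L[ℝ] E} {s : Set F} {x : F}
    (hf : ContDiffWithinAt ℝ ∞ f s x) (hL : ContDiffWithinAt ℝ ∞ L s x) :
    ContDiffWithinAt ℝ ∞ (fun y => (f y).compContinuousLinearMap (L y)) s x := by
  refine contDiffWithinAt_of_apply fun v => ?_
  have h1 : ContDiffWithinAt ℝ ∞ (fun y => (f y).toContinuousMultilinearMap) s x :=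
    (ContinuousAlternatingMap.toContinuousMultilinearMapCLM ℝ :
      Alt E q →L[ℝ] _).contDiff.contDiffAt.comp_contDiffWithinAt x hf
  have h2 : ContDiffWithinAt ℝ ∞ (fun y => ((fun _ : Fin q => L y),
      (f y).toContinuousMultilinearMap)) s x :=
    (contDiffWithinAt_pi.2 fun _ => hL).prodMk h1
  have h3 := (ContinuousMultilinearMap.analyticAt_uncurry_compContinuousLinearMap (𝕜 := ℝ)
    (Fm := fun _ : Fin q => E') (Em := fun _ : Fin q => E) (G := ℂ)
    (q := ((fun _ : Fin q => L x), (f x).toContinuousMultilinearMap))).contDiffAt (n := ∞)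
  have h4 := h3.comp_contDiffWithinAt x h2
  exact (ContinuousMultilinearMap.apply ℝ (fun _ : Fin q => E') ℂ v
    ).contDiff.contDiffAt.comp_contDiffWithinAt x h4

end AC

end DtN
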