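import Pool.Agent.H14.DtN.Defs

/-!
Smoothness of functions with values in alternating forms (auxiliary file for MODULE D).
-/

open scoped ContDiff Topology ComplexConjugate
open Set

set_option linter.unusedSectionVars false

noncomputable section

namespace DtN

namespace AS

variable {n q : ℕ}
variable {F : Type*} [NormedAddCommGroup F] [NormedSpace ℝ F] {s : Set F} {r : WithTop ℕ∞}

/-- basis vector (same as `ev`) -/
abbrev bv (i : Fin n) : Eu n := EuclideanSpace.single i 1

/-- evaluation of a form -/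
def evalL (m : Fin q → Eu n) : Alt (Eu n) q →L[ℝ] ℂ := ContinuousAlternatingMap.apply ℝ (Eu n) ℂ m

@[simp] theorem evalL_apply (m : Fin q → Eu n) (u : Alt (Eu n) q) : evalL m u = u m := rfl

theorem vec_expand (v : Eu n) : v = ∑ i, v i • bv i := by
  ext j
  simp [Finset.sum_apply, Pi.single_apply]

/-- expansion of a form in a basis -/
theorem expand (u : Alt (Eu n) q) (m : Fin q → Eu n) :
    u m = ∑ K : Fin q → Fin n, (∏ l, (m l) (K l) : ℝ) • u (fun l => bv (K l)) := by
  classical
  have h1 : u m = u.toMultilinearMap (fun l => ∑ i, (m l) i • bv i) := by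
    have h2 : m = fun l => ∑ i, (m l) i • bv i := funext fun l => vec_expand (m l)
    exact congrArg u h2
  rw [h1, MultilinearMap.map_sum]
  apply Finset.sum_congr rfl
  intro K _
  rw [MultilinearMap.map_smul_univ]
  rfl

/-- all coordinates of a form -/
def coordL : Alt (Eu n) q →L[ℝ] ((Fin q → Fin n) → ℂ) :=
  ContinuousLinearMap.pi fun K => evalL (fun l => bv (K l))

theorem coordL_apply (u : Alt (Eu n) q) (K : Fin q → Fin n) :
    coordL u K = u (fun l => bv (K l)) := rfl

theorem ext_basis {u v : Alt (Eu n) q}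
    (h : ∀ K : Fin q → Fin n, u (fun l => bv (K l)) = v (fun l => bv (K l))) : u = v := by
  ext m
  rw [expand u m, expand v m]
  exact Finset.sum_congr rfl fun K _ => by rw [h]

theorem coordL_injective : Function.Injective (coordL : Alt (Eu n) q →L[ℝ] _) := by
  intro u v h
  exact ext_basis fun K => congrFun h K

instance finiteDimAlt : FiniteDimensional ℝ (Alt (Eu n) q) :=
  FiniteDimensional.of_injective (coordL : Alt (Eu n) q →L[ℝ] _).toLinearMap coordL_injective

theorem exists_leftInv : ∃ g : ((Fin q → Fin n) → ℂ) →L[ℝ] Alt (Eu n) q,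
    ∀ u, g (coordL u) = u := by
  obtain ⟨g, hg⟩ := LinearMap.exists_leftInverse_of_injective
    (coordL : Alt (Eu n) q →L[ℝ] _).toLinearMap (LinearMap.ker_eq_bot.mpr coordL_injective)
  refine ⟨LinearMap.toContinuousLinearMap g, fun u => ?_⟩
  exact LinearMap.congr_fun hg u

/-- The norm is controlled by the coordinates. -/
theorem norm_le_coords : ∃ C : ℝ, 0 < C ∧ ∀ u : Alt (Eu n) q, ∀ B : ℝ, 0 ≤ B →
    (∀ K : Fin q → Fin n, ‖u (fun l => bv (K l))‖ ≤ B) → ‖u‖ ≤ C * B := by
  obtain ⟨g, hg⟩ := exists_leftInv (n := n) (q := q)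
  refine ⟨‖g‖ + 1, by positivity, fun u B hB h => ?_⟩
  have h1 : ‖coordL u‖ ≤ B := (pi_norm_le_iff_of_nonneg hB).mpr h
  calc ‖u‖ = ‖g (coordL u)‖ := by rw [hg]
    _ ≤ ‖g‖ * ‖coordL u‖ := g.le_opNorm _
    _ ≤ ‖g‖ * B := mul_le_mul_of_nonneg_left h1 (norm_nonneg g)
    _ ≤ (‖g‖ + 1) * B := mul_le_mul_of_nonneg_right (by linarith) hB

theorem contDiffOn_iff {f : F → Alt (Eu n) q} :
    ContDiffOn ℝ r f s ↔ ∀ K : Fin q → Fin n, ContDiffOn ℝ r (fun y => f y (fun l => bv (K l))) s := by
  constructor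
  · intro h K
    exact (evalL (fun l => bv (K l))).contDiff.comp_contDiffOn h
  · intro h
    obtain ⟨g, hg⟩ := exists_leftInv (n := n) (q := q)
    have h1 : f = g ∘ (fun y => coordL (f y)) := by
      funext y
      exact (hg (f y)).symm
    rw [h1]
    apply g.contDiff.comp_contDiffOn
    rw [contDiffOn_pi]
    exact h

theorem contDiffOn_apply {f : F → Alt (Eu n) q} {m : F → Fin q → Eu n}
    (hf : ContDiffOn ℝ r f s) (hm : ∀ l, ContDiffOn ℝ r (fun y => m y l) s) :
    ContDiffOn ℝ r (fun y => f y (m y)) s := by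
  have h1 : (fun y => f y (m y)) = fun y =>
      ∑ K : Fin q → Fin n, (∏ l, (m y l) (K l) : ℝ) • f y (fun l => bv (K l)) := by
    funext y
    exact expand _ _
  rw [h1]
  apply ContDiffOn.sum
  intro K _
  have h2 : ContDiffOn ℝ r (fun y => ∏ l, (m y l) (K l)) s := by
    apply contDiffOn_prod
    intro l _
    exact (EuclideanSpace.proj (K l) : Eu n →L[ℝ] ℝ).contDiff.comp_contDiffOn (hm l)
  exact h2.smul (contDiffOn_iff.mp hf K)

theorem contDiffOn_comp {f : F → Alt (Eu n) q} {L : F → Eu n →L[ℝ] Eu n}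
    (hf : ContDiffOn ℝ r f s) (hL : ContDiffOn ℝ r L s) :
    ContDiffOn ℝ r (fun y => (f y).compContinuousLinearMap (L y)) s := by
  rw [contDiffOn_iff]
  intro K
  exact contDiffOn_apply (m := fun y l => L y (bv (K l))) hf fun l => hL.clm_apply contDiffOn_const

/-- determinants -/
theorem contDiffOn_det {G : F → Matrix (Fin n) (Fin n) ℝ}
    (hG : ∀ i j, ContDiffOn ℝ r (fun y => G y i j) s) : ContDiffOn ℝ r (fun y => (G y).det) s := by
  simp only [Matrix.det_apply]
  apply ContDiffOn.sum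
  intro σ _
  have h : (fun y => Equiv.Perm.sign σ • ∏ i, G y (σ i) i) =
      fun y => ((Equiv.Perm.sign σ : ℤ) : ℝ) * ∏ i, G y (σ i) i := by
    funext y
    rw [Units.smul_def, zsmul_eq_mul]
  rw [h]
  exact contDiffOn_const.mul (contDiffOn_prod fun i _ => hG _ _)

theorem contDiffOn_inv {G : F → Matrix (Fin n) (Fin n) ℝ}
    (hG : ∀ i j, ContDiffOn ℝ r (fun y => G y i j) s) (hdet : ∀ y ∈ s, (G y).det ≠ 0) (i j : Fin n) :
    ContDiffOn ℝ r (fun y => (G y)⁻¹ i j) s := by
  have h : (fun y => (G y)⁻¹ i j) = fun y => ((G y).det)⁻¹ * (G y).adjugate i j := by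
    funext y
    rw [Matrix.inv_def, Matrix.smul_apply, Ring.inverse_eq_inv', smul_eq_mul]
  rw [h]
  refine ((contDiffOn_det hG).inv hdet).mul ?_
  simp only [Matrix.adjugate_apply]
  apply contDiffOn_det
  intro a b
  by_cases h : a = j
  · subst h
    simp only [Matrix.updateRow_self]
    exact contDiffOn_const
  · simp only [Matrix.updateRow_ne h]
    exact hG a b

theorem contDiffOn_sqrt_det {G : F → Matrix (Fin n) (Fin n) ℝ}
    (hG : ∀ i j, ContDiffOn ℝ r (fun y => G y i j) s) (hpos : ∀ y ∈ s, (G y).PosDef) :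
    ContDiffOn ℝ r (fun y => Real.sqrt (G y).det) s :=
  (contDiffOn_det hG).sqrt fun y hy => (hpos y hy).det_pos.ne'

end AS

end DtN
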