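import Pool.Agent.H14.DtN.TestI

/-!
MODULE M3, part 1 : localisation in a chart of the boundary.
-/

open scoped Manifold ContDiff Topology ComplexConjugate
open Set MeasureTheory

set_option linter.unusedSectionVars false

noncomputable section

namespace DtN

section Zext

variable {d : ℕ} {S : Type*} [TopologicalSpace S] [ChartedSpace (Eu d) S] [IsManifold (𝓡 d) ∞ S]
    [CompactSpace S] [T2Space S] {F : Type*} [NormedAddCommGroup F] [NormedSpace ℝ F]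

open Classical in
/-- extension by zero of `a ∘ κ` -/
def zext (κ : OpenPartialHomeomorph S (Eu d)) (a : Eu d → F) (s : S) : F :=
  if s ∈ κ.source then a (κ s) else 0

theorem zext_of_mem {κ : OpenPartialHomeomorph S (Eu d)} {a : Eu d → F} {s : S}
    (hs : s ∈ κ.source) : zext κ a s = a (κ s) := if_pos hs

theorem zext_symm {κ : OpenPartialHomeomorph S (Eu d)} {a : Eu d → F} {x : Eu d}
    (hx : x ∈ κ.target) : zext κ a (κ.symm x) = a x := by
  rw [zext_of_mem (κ.map_target hx), κ.right_inv hx]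

theorem isClosed_symm_image {κ : OpenPartialHomeomorph S (Eu d)} {K : Set (Eu d)}
    (hK : IsCompact K) (ht : K ⊆ κ.target) : IsClosed (κ.symm '' K) :=
  (hK.image_of_continuousOn (κ.continuousOn_symm.mono ht)).isClosed

theorem zext_smooth {κ : OpenPartialHomeomorph S (Eu d)}
    (hκ : κ ∈ IsManifold.maximalAtlas (𝓡 d) ∞ S) {a : Eu d → F} (ha : ContDiff ℝ ∞ a)
    (hc : HasCompactSupport a) (ht : tsupport a ⊆ κ.target) :
    ContMDiff (𝓡 d) 𝓘(ℝ, F) ∞ (zext κ a) := by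
  intro s
  by_cases hs : s ∈ κ.source
  · have h1 : zext κ a =ᶠ[𝓝 s] a ∘ κ := by
      filter_upwards [κ.open_source.mem_nhds hs] with s' hs'
      exact zext_of_mem hs'
    refine ContMDiffAt.congr_of_eventuallyEq ?_ h1
    have h2 : ContMDiffAt (𝓡 d) (𝓡 d) ∞ κ s :=
      (contMDiffOn_of_mem_maximalAtlas hκ).contMDiffAt (κ.open_source.mem_nhds hs)
    exact ha.contMDiff.contMDiffAt.comp s h2
  · have hcl := isClosed_symm_image hc.isCompact ht
    have hsD : s ∉ κ.symm '' (tsupport a) := by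
      rintro ⟨x, hx, rfl⟩
      exact hs (κ.map_target (ht hx))
    have h1 : zext κ a =ᶠ[𝓝 s] fun _ => 0 := by
      filter_upwards [hcl.isOpen_compl.mem_nhds hsD] with s' hs'
      unfold zext
      split_ifs with h
      · by_contra h0
        exact hs' ⟨κ s', subset_tsupport _ h0, κ.left_inv h⟩
      · rfl
    exact contMDiffAt_const.congr_of_eventuallyEq h1

end Zext

section Loc

variable {d : ℕ} {Ω : Type*} [TopologicalSpace Ω] [ChartedSpace (EuclideanHalfSpace (d + 1)) Ω]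
  [IsManifold (𝓡∂ (d + 1)) ∞ Ω] [CompactSpace Ω] [T2Space Ω]
  {S : Type*} [TopologicalSpace S] [ChartedSpace (Eu d) S] [IsManifold (𝓡 d) ∞ S]
  [CompactSpace S] [T2Space S]

/-- Data for the localisation near the compact set `K0` in the chart `κ` of `S`. -/
structure LocData (f : S → Ω) (κ : OpenPartialHomeomorph S (Eu d)) (K0 : Set (Eu d))
    (ψ : Eu d → ℂ) where
  bm : Ω → Eu d
  hbm : ContMDiff (𝓡∂ (d + 1)) 𝓘(ℝ, Eu d) ∞ bm
  O : Set (Eu d)
  hO : IsOpen O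
  hKO : K0 ⊆ O
  hOt : O ⊆ κ.target
  hb : ∀ x ∈ O, bm (f (κ.symm x)) = x
  ψh : SFun (𝓡∂ (d + 1)) Ω
  hψh : ∀ s, ψh.val (f s) = zext κ ψ s
  V : Fin d → {V : VF (𝓡∂ (d + 1)) Ω // TangVF V}
  hV : ∀ x ∈ O, ∀ j l, (der (V j).1 (bS hbm l)).val (f (κ.symm x)) = if j = l then 1 else 0

variable {f : S → Ω}
    (hf : ContMDiff (𝓡 d) (𝓡∂ (d + 1)) ∞ f) (hinj : Function.Injective f)
    (himm : ∀ s, Function.Injective (mfderiv (𝓡 d) (𝓡∂ (d + 1)) f s))
    (hrange : range f = (𝓡∂ (d + 1)).boundary Ω)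

theorem mdifferentiableAt_symm {κ : OpenPartialHomeomorph S (Eu d)}
    (hκ : κ ∈ IsManifold.maximalAtlas (𝓡 d) ∞ S) {x : Eu d} (hx : x ∈ κ.target) :
    MDifferentiableAt 𝓘(ℝ, Eu d) (𝓡 d) κ.symm x :=
  ((contMDiffOn_symm_of_mem_maximalAtlas hκ).contMDiffAt
    (κ.open_target.mem_nhds hx)).mdifferentiableAt (by simp)

theorem mdifferentiableAt_chart {κ : OpenPartialHomeomorph S (Eu d)}
    (hκ : κ ∈ IsManifold.maximalAtlas (𝓡 d) ∞ S) {s : S} (hs : s ∈ κ.source) :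
    MDifferentiableAt (𝓡 d) 𝓘(ℝ, Eu d) κ s :=
  ((contMDiffOn_of_mem_maximalAtlas hκ).contMDiffAt
    (κ.open_source.mem_nhds hs)).mdifferentiableAt (by simp)

/-- `dκ ∘ dκ⁻¹ = id`. -/
theorem mfderiv_chart_comp_symm {κ : OpenPartialHomeomorph S (Eu d)}
    (hκ : κ ∈ IsManifold.maximalAtlas (𝓡 d) ∞ S) {x : Eu d} (hx : x ∈ κ.target) (v : Eu d) :
    mfderiv (𝓡 d) 𝓘(ℝ, Eu d) κ (κ.symm x) (mfderiv 𝓘(ℝ, Eu d) (𝓡 d) κ.symm x v) = v := by
  have h1 := mfderiv_comp x (mdifferentiableAt_chart hκ (κ.map_target hx))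
    (mdifferentiableAt_symm hκ hx)
  have h2 : (κ ∘ κ.symm) =ᶠ[𝓝 x] id := by
    filter_upwards [κ.open_target.mem_nhds hx] with y hy
    exact κ.right_inv hy
  rw [h2.mfderiv_eq, mfderiv_id] at h1
  exact (congrArg (fun L => L v) h1).symm

/-- `dκ⁻¹ ∘ dκ = id`. -/
theorem mfderiv_symm_comp_chart {κ : OpenPartialHomeomorph S (Eu d)}
    (hκ : κ ∈ IsManifold.maximalAtlas (𝓡 d) ∞ S) {s : S} (hs : s ∈ κ.source) (v : Eu d) :
    mfderiv 𝓘(ℝ, Eu d) (𝓡 d) κ.symm (κ s) (mfderiv (𝓡 d) 𝓘(ℝ, Eu d) κ s v) = v := by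
  have h1 := mfderiv_comp s (mdifferentiableAt_symm hκ (κ.map_source hs))
    (mdifferentiableAt_chart hκ hs)
  have h2 : (κ.symm ∘ κ) =ᶠ[𝓝 s] id := by
    filter_upwards [κ.open_source.mem_nhds hs] with y hy
    exact κ.left_inv hy
  rw [h2.mfderiv_eq, mfderiv_id] at h1
  exact (congrArg (fun L => L v) h1).symm

include hf hinj himm hrange

theorem exists_locData {κ : OpenPartialHomeomorph S (Eu d)}
    (hκ : κ ∈ IsManifold.maximalAtlas (𝓡 d) ∞ S) {φ ψ : Eu d → ℂ} (hφ : IsCutoff κ.target φ)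
    (hψ : IsCutoff κ.target ψ) :
    Nonempty (LocData f κ (tsupport φ ∪ tsupport ψ) ψ) := by
  set K0 := tsupport φ ∪ tsupport ψ with hK0
  have hK0c : IsCompact K0 := hφ.2.1.isCompact.union hψ.2.1.isCompact
  have hK0t : K0 ⊆ κ.target := union_subset hφ.2.2 hψ.2.2
  obtain ⟨K1, hK1c, hK1, hK1t⟩ := exists_compact_between hK0c κ.open_target hK0t
  obtain ⟨χ, hχ1, hχ0, -⟩ := exists_contMDiffMap_one_nhds_of_subset_interior (I := 𝓘(ℝ, Eu d))
    (n := ⊤) hK0c.isClosed hK1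
  have hχs : ContDiff ℝ ∞ (χ : Eu d → ℝ) := by
    have := χ.contMDiff
    exact (contMDiff_iff_contDiff.mp this).of_le (by simp)
  have hsupp : tsupport (χ : Eu d → ℝ) ⊆ K1 := by
    refine closure_minimal (fun x hx => ?_) hK1c.isClosed
    by_contra h
    exact hx (hχ0 x h)
  obtain ⟨O1, hO1a, hO1b, hO1c⟩ : ∃ O1 : Set (Eu d), (∀ x ∈ O1, χ x = 1) ∧ IsOpen O1 ∧ K0 ⊆ O1 := by
    obtain ⟨O1, h1, h2, h3⟩ := mem_nhdsSet_iff_exists.mp hχ1
    exact ⟨O1, fun x hx => h3 hx, h1, h2⟩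
  -- the map `bm`
  have ha : ContDiff ℝ ∞ (fun x : Eu d => χ x • x) := hχs.smul contDiff_id
  have hac : HasCompactSupport (fun x : Eu d => χ x • x) := by
    refine HasCompactSupport.intro hK1c fun x hx => ?_
    rw [hχ0 x hx, zero_smul]
  have hat : tsupport (fun x : Eu d => χ x • x) ⊆ κ.target := by
    refine (closure_mono ?_).trans (hsupp.trans hK1t)
    intro x hx h0
    exact hx (by simp [h0])
  obtain ⟨bm, hbm, hbmf⟩ := exists_extension hf hinj himm hrange _ (zext_smooth hκ ha hac hat)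
  obtain ⟨ψh, hψh, hψhf⟩ := exists_extension hf hinj himm hrange _
    (zext_smooth hκ hψ.1 hψ.2.1 hψ.2.2)
  have hb1 : ∀ x ∈ O1 ∩ κ.target, bm (f (κ.symm x)) = x := by
    intro x hx
    rw [hbmf, zext_symm hx.2, hO1a x hx.1, one_smul]
  -- independence
  have hind : ∀ s ∈ κ.symm '' K0, ∀ u : Eu d, (∀ j, (bS hbm j).dF (f s)
      (mfderiv (𝓡 d) (𝓡∂ (d + 1)) f s u) = 0) → u = 0 := by
    rintro _ ⟨x, hx, rfl⟩ u hu
    have hxt := hK0t hx
    have h1 : mfderiv (𝓡∂ (d + 1)) 𝓘(ℝ, Eu d) bm (f (κ.symm x))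
        (mfderiv (𝓡 d) (𝓡∂ (d + 1)) f (κ.symm x) u) = (0 : Eu d) := by
      refine PiLp.ext fun j => ?_
      have h := hu j
      rw [bS_dF] at h
      exact Complex.ofReal_eq_zero.mp h
    have h2 : (bm ∘ f) =ᶠ[𝓝 (κ.symm x)] κ := by
      have h3 : κ ⁻¹' (O1 ∩ κ.target) ∩ κ.source ∈ 𝓝 (κ.symm x) := by
        have h4 := κ.continuousAt (κ.map_target hxt)
        refine Filter.inter_mem (h4.preimage_mem_nhds ?_) (κ.open_source.mem_nhds (κ.map_target hxt))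
        rw [κ.right_inv hxt]
        exact (hO1b.inter κ.open_target).mem_nhds ⟨hO1c hx, hxt⟩
      filter_upwards [h3] with s hs
      have h5 := hb1 (κ s) hs.1
      rw [κ.left_inv hs.2] at h5
      exact h5
    have h6 := mfderiv_comp (κ.symm x) (hbm.mdifferentiableAt (by simp))
      (hf.mdifferentiableAt (by simp)) (g := bm) (f := f) (I := 𝓡 d) (I' := 𝓡∂ (d + 1))
      (I'' := 𝓘(ℝ, Eu d))
    rw [h2.mfderiv_eq] at h6
    have h7 : mfderiv (𝓡 d) 𝓘(ℝ, Eu d) κ (κ.symm x) u = (0 : Eu d) := by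
      rw [h6]; exact h1
    have h8 := mfderiv_symm_comp_chart hκ (κ.map_target hxt) u
    rw [h7] at h8
    rw [← h8]
    exact map_zero (mfderiv 𝓘(ℝ, Eu d) (𝓡 d) κ.symm (κ (κ.symm x)))
  obtain ⟨V, hVt, U, hU, hKU, hVU⟩ := exists_dual_fields hf hinj himm hrange (bS hbm)
    (fun j z => by rw [bS_val, Complex.conj_ofReal]) (κ.symm '' K0)
    (hK0c.image_of_continuousOn (κ.continuousOn_symm.mono hK0t)) hind
  -- the open set
  have hcont : ContinuousOn (f ∘ κ.symm) κ.target :=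
    hf.continuous.comp_continuousOn κ.continuousOn_symm
  let O : Set (Eu d) := O1 ∩ (κ.target ∩ (f ∘ κ.symm) ⁻¹' U)
  have hO : IsOpen O := hO1b.inter (hcont.isOpen_inter_preimage κ.open_target hU)
  refine ⟨⟨bm, hbm, O, hO, ?_, ?_, ?_, ⟨ψh, hψh⟩, hψhf, fun j => ⟨V j, hVt j⟩, ?_⟩⟩
  · intro x hx
    exact ⟨hO1c hx, hK0t hx, hKU ⟨_, ⟨x, hx, rfl⟩, rfl⟩⟩
  · exact fun x hx => hx.2.1
  · exact fun x hx => hb1 x ⟨hx.1, hx.2.1⟩
  · exact fun x hx j l => hVU _ hx.2.2 j l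

end Loc

end DtN
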