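import Pool.Agent.H14.DtN.Asm9

/-!
MODULE M3, part 10 : the main theorem.
-/

open scoped Manifold ContDiff Topology ComplexConjugate FourierTransform
open Set MeasureTheory

set_option linter.unusedSectionVars false

noncomputable section

namespace DtN

variable {d : ℕ} {Ω : Type*} [TopologicalSpace Ω] [ChartedSpace (EuclideanHalfSpace (d + 1)) Ω]
  [IsManifold (𝓡∂ (d + 1)) ∞ Ω] [CompactSpace Ω] [T2Space Ω]
  (g : Metric (𝓡∂ (d + 1)) Ω)
  {S : Type*} [TopologicalSpace S] [ChartedSpace (Eu d) S] [IsManifold (𝓡 d) ∞ S]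
  [CompactSpace S] [T2Space S]

/-- Karpukhin's Dirichlet-to-Neumann operator is a pseudo-differential operator. -/
theorem main_theorem {f : S → Ω} {ν : S → Eu (d + 1)} {k : ℕ}
    {T : (S → Alt (Eu d) (k + 1)) → (S → Alt (Eu d) (k + 1))}
    (hf : ContMDiff (𝓡 d) (𝓡∂ (d + 1)) ∞ f) (hinj : Function.Injective f)
    (himm : ∀ s, Function.Injective (mfderiv (𝓡 d) (𝓡∂ (d + 1)) f s))
    (hrange : range f = (𝓡∂ (d + 1)).boundary Ω)
    (hν : IsUnitNormal g f ν) (hT : IsDtN g f ν T) : IsPsiDO T := by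
  obtain ⟨C⟩ := exists_cover (I := 𝓡∂ (d + 1)) (M := Ω)
  obtain ⟨sp⟩ := exists_Spanning d Ω
  obtain ⟨N, hN⟩ := exists_normal_field g hf hinj himm hrange hν
  obtain ⟨F, hF, hFT⟩ := exists_F g C hf hinj himm hrange hN hT sp
  obtain ⟨B⟩ := exists_supB g C (k + 1)
  refine ⟨DtN_smooth g C hf hinj himm hrange hN hT, DtN_linear g C hf hinj himm hrange hN hT,
    (B.M0 : ℝ), fun κ hκ φ ψ hφ hψ => ?_⟩
  obtain ⟨L⟩ := exists_locData hf hinj himm hrange hκ hφ hψ
  have hfd : FiniteDimensional ℂ (Alt (Eu d) (k + 1)) := FiniteDimensional.right ℝ ℂ _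
  let θ := Module.finBasis ℂ (Alt (Eu d) (k + 1))
  let c : Fin (Module.finrank ℂ (Alt (Eu d) (k + 1))) → Alt (Eu d) (k + 1) →L[ℂ] ℂ :=
    fun l => LinearMap.toContinuousLinearMap (θ.coord l)
  have hc : ∀ l w, c l w = θ.coord l w := fun l w => rfl
  refine ⟨asym g C hf hinj himm hrange sp L N θ c F,
    asym_isSymbol g C hf hinj himm hrange sp hκ hφ hψ L hF B N θ c, fun u x => ?_⟩
  have hu : ContDiff ℝ ∞ (u : Eu d → Alt (Eu d) (k + 1)) := u.smooth ⊤
  have h1 : T (chartPull κ ψ u) = (pullS f hf (iotaS N (F (uOf L θ c u hu)))).val := by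
    rw [← uOf_pull hf hκ L θ c hc u hu]
    exact hFT _
  have h2 := lfun_fourier g C hf hinj himm hrange sp hκ hφ hψ L hF B N θ c u x
  rw [lfun_eq L N θ c x hu] at h2
  refine Eq.trans ?_ h2
  rw [h1]
  unfold chartPush
  have h3 : ∀ A A' : Alt (Eu d) (k + 1), (φ x = 0 ∨ A = A') → φ x • A = φ x • A' := by
    rintro A A' (h | h)
    · rw [h, alt_zero_smul, alt_zero_smul]
    · rw [h]
  refine h3 _ _ ?_
  by_cases hx : φ x = 0
  · exact Or.inl hx
  · have hxt : x ∈ κ.target := hφ.2.2 (subset_tsupport _ hx)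
    exact Or.inr (pull_symm hf hκ (iotaS N (F (uOf L θ c u hu))) hxt)

end DtN
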