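import Pool.Agent.H14.DtN.Asm1

/-!
MODULE M3, part 2 : pullback by `Φ = f ∘ κ⁻¹`.
-/

open scoped Manifold ContDiff Topology ComplexConjugate
open Set MeasureTheory

set_option linter.unusedSectionVars false

noncomputable section

namespace DtN

section Flat

variable {E : Type*} [NormedAddCommGroup E] [NormedSpace ℝ E]

/-- contraction with a fixed vector, as a continuous linear map -/
def curryAt (q : ℕ) (e : E) : Alt E (q + 1) →L[ℝ] Alt E q :=
  (ContinuousLinearMap.apply ℝ (Alt E q) e).comp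
    (ContinuousAlternatingMap.curryLeftLI (𝕜 := ℝ) (E := E) (F := ℂ)).toContinuousLinearMap

theorem curryAt_apply {q : ℕ} (e : E) (w : Alt E (q + 1)) : curryAt q e w = w.curryLeft e := rfl

theorem curryLeft_alternatize {q : ℕ} (h : E →L[ℝ] Alt E (q + 1)) (e : E) :
    (ContinuousAlternatingMap.alternatizeUncurryFin h).curryLeft e +
      ContinuousAlternatingMap.alternatizeUncurryFin ((curryAt q e).comp h) = h e := by
  ext v
  rw [ContinuousAlternatingMap.add_apply, ContinuousAlternatingMap.curryLeft_apply_apply,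
    ContinuousAlternatingMap.alternatizeUncurryFin_apply,
    ContinuousAlternatingMap.alternatizeUncurryFin_apply, Fin.sum_univ_succ]
  simp only [Fin.val_zero, pow_zero, one_smul, Matrix.vecCons, Fin.cons_zero, Fin.removeNth_zero,
    Fin.tail_cons, add_assoc]
  rw [← Finset.sum_add_distrib]
  simp only [Fin.val_succ, Fin.cons_succ, ContinuousLinearMap.comp_apply, curryAt_apply,
    ContinuousAlternatingMap.curryLeft_apply_apply, pow_succ]
  refine add_eq_left.mpr (Finset.sum_eq_zero fun i _ => ?_)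
  have h1 : (Fin.removeNth i.succ (Fin.cons e v : Fin (q+2) → E)) =
      (Fin.cons e (Fin.removeNth i v) : Fin (q+1) → E) := by
    refine funext fun j => ?_
    refine Fin.cases ?_ (fun j => ?_) j
    · simp [Fin.removeNth]
    · simp [Fin.removeNth]
  rw [h1]
  simp [Matrix.vecCons]

/-- Cartan's formula for a constant field in a normed space. -/
theorem extDeriv_curry_add {q : ℕ} {w : E → Alt E (q + 1)} {x : E}
    (hw : DifferentiableAt ℝ w x) (e : E) :
    extDeriv (fun x' => (w x').curryLeft e) x + (extDeriv w x).curryLeft e = fderiv ℝ w x e := by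
  have h1 : fderiv ℝ (fun x' => (w x').curryLeft e) x = (curryAt q e).comp (fderiv ℝ w x) :=
    (curryAt q e).hasFDerivAt.comp x hw.hasFDerivAt |>.fderiv
  have h2 := curryLeft_alternatize (fderiv ℝ w x) e
  unfold extDeriv
  rw [h1]
  rw [← h2]
  exact add_comm (ContinuousAlternatingMap.alternatizeUncurryFin ((curryAt q e).comp (fderiv ℝ w x)))
    _

end Flat

section Loc

variable {d : ℕ} {Ω : Type*} [TopologicalSpace Ω] [ChartedSpace (EuclideanHalfSpace (d + 1)) Ω]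
  [IsManifold (𝓡∂ (d + 1)) ∞ Ω] [CompactSpace Ω] [T2Space Ω]
  {S : Type*} [TopologicalSpace S] [ChartedSpace (Eu d) S] [IsManifold (𝓡 d) ∞ S]
  [CompactSpace S] [T2Space S]
  {f : S → Ω}
    (hf : ContMDiff (𝓡 d) (𝓡∂ (d + 1)) ∞ f) (hinj : Function.Injective f)
    (himm : ∀ s, Function.Injective (mfderiv (𝓡 d) (𝓡∂ (d + 1)) f s))
    (hrange : range f = (𝓡∂ (d + 1)).boundary Ω)
  {κ : OpenPartialHomeomorph S (Eu d)} (hκ : κ ∈ IsManifold.maximalAtlas (𝓡 d) ∞ S)

/-- pullback of a form on `Ω` by `f ∘ κ⁻¹` -/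
def pullP (f : S → Ω) (κ : OpenPartialHomeomorph S (Eu d)) {q : ℕ}
    (w : SForm (𝓡∂ (d + 1)) Ω q) : Eu d → Alt (Eu d) q :=
  pull (𝓡∂ (d + 1)) 𝓘(ℝ, Eu d) (f ∘ κ.symm) w.val

theorem pullP_apply {q : ℕ} (w : SForm (𝓡∂ (d + 1)) Ω q) (x : Eu d) (v : Fin q → Eu d) :
    pullP f κ w x v = w.val (f (κ.symm x))
      (fun l => mfderiv 𝓘(ℝ, Eu d) (𝓡∂ (d + 1)) (f ∘ κ.symm) x (v l)) := rfl

theorem pullP_add {q : ℕ} (w w' : SForm (𝓡∂ (d + 1)) Ω q) (x : Eu d) :
    pullP f κ (w + w') x = pullP f κ w x + pullP f κ w' x := rfl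

theorem pullP_sub {q : ℕ} (w w' : SForm (𝓡∂ (d + 1)) Ω q) (x : Eu d) :
    pullP f κ (w - w') x = pullP f κ w x - pullP f κ w' x := rfl

theorem pullP_smul {q : ℕ} (b : SFun (𝓡∂ (d + 1)) Ω) (w : SForm (𝓡∂ (d + 1)) Ω q) (x : Eu d) :
    pullP f κ (b • w) x = b.val (f (κ.symm x)) • pullP f κ w x := rfl

theorem pullP_csmul {q : ℕ} (c : ℂ) (w : SForm (𝓡∂ (d + 1)) Ω q) (x : Eu d) :
    pullP f κ (c • w) x = c • pullP f κ w x := rfl

/-- pullP as an additive map -/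
def pullHom (f : S → Ω) (κ : OpenPartialHomeomorph S (Eu d)) {q : ℕ} (x : Eu d) :
    SForm (𝓡∂ (d + 1)) Ω q →+ Alt (Eu d) q where
  toFun w := pullP f κ w x
  map_zero' := rfl
  map_add' _ _ := rfl

theorem pullP_sum {q : ℕ} {ι : Type*} (s : Finset ι) (w : ι → SForm (𝓡∂ (d + 1)) Ω q) (x : Eu d) :
    pullP f κ (∑ i ∈ s, w i) x = ∑ i ∈ s, pullP f κ (w i) x :=
  map_sum (pullHom f κ x) w s

include hf hκ

theorem contMDiffOn_Phi : ContMDiffOn 𝓘(ℝ, Eu d) (𝓡∂ (d + 1)) ∞ (f ∘ κ.symm) κ.target :=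
  hf.comp_contMDiffOn (contMDiffOn_symm_of_mem_maximalAtlas hκ)

theorem pullP_contDiffOn {q : ℕ} (w : SForm (𝓡∂ (d + 1)) Ω q) :
    ContDiffOn ℝ ∞ (pullP f κ w) κ.target := by
  intro x hx
  have h := pull_smooth (I' := 𝓘(ℝ, Eu d)) κ.open_target (contMDiffOn_Phi hf hκ) w hx
  rw [rep_model] at h
  simp only [mfld_simps, modelWithCornersSelf_coe, range_id] at h
  exact h.mono (subset_univ _)

theorem pullP_differentiableAt {q : ℕ} (w : SForm (𝓡∂ (d + 1)) Ω q) {x : Eu d}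
    (hx : x ∈ κ.target) : DifferentiableAt ℝ (pullP f κ w) x :=
  ((pullP_contDiffOn hf hκ w).contDiffAt (κ.open_target.mem_nhds hx)).differentiableAt (by simp)

theorem pullP_dS {q : ℕ} (w : SForm (𝓡∂ (d + 1)) Ω q) {x : Eu d} (hx : x ∈ κ.target) :
    extDeriv (pullP f κ w) x = pullP f κ (dS w) x := by
  have h := pull_extD (I' := 𝓘(ℝ, Eu d)) κ.open_target (contMDiffOn_Phi hf hκ) w hx
  rw [extD_model] at h
  exact h

theorem mfderiv_Phi {x : Eu d} (hx : x ∈ κ.target) (v : Eu d) :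
    mfderiv 𝓘(ℝ, Eu d) (𝓡∂ (d + 1)) (f ∘ κ.symm) x v =
      mfderiv (𝓡 d) (𝓡∂ (d + 1)) f (κ.symm x) (mfderiv 𝓘(ℝ, Eu d) (𝓡 d) κ.symm x v) := by
  have h := mfderiv_comp x (hf.mdifferentiableAt (by simp)) (mdifferentiableAt_symm hκ hx)
  exact congrArg (fun L => L v) h

/-- Chain rule for pullbacks. -/
theorem pull_symm {q : ℕ} (w : SForm (𝓡∂ (d + 1)) Ω q) {x : Eu d} (hx : x ∈ κ.target) :
    (pull (𝓡∂ (d + 1)) (𝓡 d) f w.val (κ.symm x)).compContinuousLinearMap
      (mfderiv 𝓘(ℝ, Eu d) (𝓡 d) κ.symm x) = pullP f κ w x := by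
  refine ContinuousAlternatingMap.ext fun (v : Fin q → Eu d) => ?_
  show w.val (f (κ.symm x)) (fun l => mfderiv (𝓡 d) (𝓡∂ (d + 1)) f (κ.symm x)
    (mfderiv 𝓘(ℝ, Eu d) (𝓡 d) κ.symm x (v l))) = w.val (f (κ.symm x))
      (fun l => mfderiv 𝓘(ℝ, Eu d) (𝓡∂ (d + 1)) (f ∘ κ.symm) x (v l))
  congr 1
  funext l
  exact (mfderiv_Phi hf hκ hx (v l)).symm

include hinj himm hrange

variable {K0 : Set (Eu d)} {ψ : Eu d → ℂ} (L : LocData f κ K0 ψ)

theorem V_eq {x : Eu d} (hx : x ∈ L.O) (j : Fin d) :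
    (L.V j).1.val (f (κ.symm x)) =
      mfderiv 𝓘(ℝ, Eu d) (𝓡∂ (d + 1)) (f ∘ κ.symm) x (ev j) := by
  have hxt := L.hOt hx
  set s := κ.symm x with hs
  have hbd : f s ∈ (𝓡∂ (d + 1)).boundary Ω := by rw [← hrange]; exact ⟨s, rfl⟩
  obtain ⟨u, hu⟩ := (range_mfderiv hf hinj himm hrange s _).mpr ((L.V j).2 (f s) hbd)
  rw [mfderiv_Phi hf hκ hxt, ← hs, ← hu]
  congr 1
  -- compare after applying the derivative of `bm ∘ f`
  have hsr : s ∈ κ.source := κ.map_target hxt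
  have h2 : (L.bm ∘ f) =ᶠ[𝓝 s] κ := by
    have h3 : κ ⁻¹' L.O ∩ κ.source ∈ 𝓝 s := by
      refine Filter.inter_mem ((κ.continuousAt hsr).preimage_mem_nhds ?_)
        (κ.open_source.mem_nhds hsr)
      rw [hs, κ.right_inv hxt]
      exact L.hO.mem_nhds hx
    filter_upwards [h3] with s' hs'
    have h5 := L.hb (κ s') hs'.1
    rw [κ.left_inv hs'.2] at h5
    exact h5
  have h6 := mfderiv_comp s (L.hbm.mdifferentiableAt (by simp))
      (hf.mdifferentiableAt (by simp)) (g := L.bm) (f := f) (I := 𝓡 d) (I' := 𝓡∂ (d + 1))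
      (I'' := 𝓘(ℝ, Eu d))
  rw [h2.mfderiv_eq] at h6
  have h7 : mfderiv (𝓡 d) 𝓘(ℝ, Eu d) κ s u = (ev j : Eu d) := by
    rw [h6]
    refine PiLp.ext fun l => ?_
    have h8 := L.hV x hx j l
    rw [der_apply, ← hs, ← hu, bS_dF] at h8
    have h9 : ((ev j : Eu d) l : ℂ) = if j = l then 1 else 0 := by
      by_cases h : j = l
      · subst h; simp
      · rw [if_neg h]
        have : (ev j : Eu d) l = 0 := by simp [Ne.symm h]
        rw [this, Complex.ofReal_zero]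
    rw [← h9] at h8
    exact Complex.ofReal_injective h8
  have h10 := mfderiv_symm_comp_chart hκ hsr u
  rw [h7, hs, κ.right_inv hxt] at h10
  exact h10.symm

theorem pullP_iota {q : ℕ} (w : SForm (𝓡∂ (d + 1)) Ω (q + 1)) {x : Eu d} (hx : x ∈ L.O)
    (j : Fin d) : pullP f κ (iotaS (L.V j).1 w) x = (pullP f κ w x).curryLeft (ev j) := by
  ext v
  rw [pullP_apply, iotaS_apply, ContinuousAlternatingMap.curryLeft_apply_apply,
    ContinuousAlternatingMap.curryLeft_apply_apply, pullP_apply]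
  congr 1
  funext l
  refine Fin.cases ?_ (fun l => ?_) l
  · exact V_eq hf hinj himm hrange hκ L hx j
  · rfl

/-- The Lie derivative along `V_j` becomes the partial derivative. -/
theorem fderiv_pullP {q : ℕ} (w : SForm (𝓡∂ (d + 1)) Ω (q + 1)) {x : Eu d} (hx : x ∈ L.O)
    (j : Fin d) : fderiv ℝ (pullP f κ w) x (ev j) = pullP f κ (Lie (L.V j).1 w) x := by
  have hxt := L.hOt hx
  have h : (fun x' => (pullP f κ w x').curryLeft (ev j)) =ᶠ[𝓝 x]
      pullP f κ (iotaS (L.V j).1 w) := by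
    filter_upwards [L.hO.mem_nhds hx] with y hy
    exact (pullP_iota hf hinj himm hrange hκ L w hy j).symm
  have h1 := extDeriv_curry_add (w := pullP f κ w) (pullP_differentiableAt hf hκ w hxt) (ev j)
  rw [h.extDeriv_eq, pullP_dS hf hκ _ hxt, pullP_dS hf hκ w hxt] at h1
  rw [← h1, Lie_def, pullP_add, pullP_iota hf hinj himm hrange hκ L _ hx]

end Loc

end DtN
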