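import Pool.Agent.H14.DtN.Asm2

/-!
MODULE M3, part 3 : estimates for localised operators.
-/

open scoped Manifold ContDiff Topology ComplexConjugate
open Set MeasureTheory

set_option linter.unusedSectionVars false

noncomputable section

namespace DtN

section General

variable {E : Type*} [NormedAddCommGroup E] [NormedSpace ℝ E]
  {H : Type*} [TopologicalSpace H] {I : ModelWithCorners ℝ E H}
  {M : Type*} [TopologicalSpace M] [ChartedSpace H M]

theorem extD_eq_zero {q : ℕ} {w : M → Alt E q} {s : M} (h : ∀ᶠ s' in 𝓝 s, w s' = 0) :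
    extD I w s = 0 := by
  have h1 : rep I s w =ᶠ[𝓝 (extChartAt I s s)] fun _ => 0 := by
    have h2 : ContinuousAt (extChartAt I s).symm (extChartAt I s s) :=
      continuousAt_extChartAt_symm s
    have h3 := h2.eventually (p := fun s' => w s' = 0) (by
      rw [extChartAt_to_inv]; exact h)
    filter_upwards [h3] with y hy
    unfold rep
    rw [hy]
    rfl
  unfold extD
  rw [(h1.filter_mono nhdsWithin_le_nhds).extDerivWithin_eq h1.self_of_nhds]
  unfold extDerivWithin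
  have : fderivWithin ℝ (fun _ : E => (0 : Alt E q)) (range I) (extChartAt I s s) = 0 := by
    simp
  rw [this]
  exact map_zero (ContinuousAlternatingMap.alternatizeUncurryFinCLM ℝ E ℂ)

end General

section Loc

variable {d : ℕ} {Ω : Type*} [TopologicalSpace Ω] [ChartedSpace (EuclideanHalfSpace (d + 1)) Ω]
  [IsManifold (𝓡∂ (d + 1)) ∞ Ω] [CompactSpace Ω] [T2Space Ω]
  (g : Metric (𝓡∂ (d + 1)) Ω) (C : Cover (𝓡∂ (d + 1)) Ω)
  {S : Type*} [TopologicalSpace S] [ChartedSpace (Eu d) S] [IsManifold (𝓡 d) ∞ S]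
  [CompactSpace S] [T2Space S]
  {f : S → Ω}
    (hf : ContMDiff (𝓡 d) (𝓡∂ (d + 1)) ∞ f) (hinj : Function.Injective f)
    (himm : ∀ s, Function.Injective (mfderiv (𝓡 d) (𝓡∂ (d + 1)) f s))
    (hrange : range f = (𝓡∂ (d + 1)).boundary Ω)
  {κ : OpenPartialHomeomorph S (Eu d)} (hκ : κ ∈ IsManifold.maximalAtlas (𝓡 d) ∞ S)

/-- Forms whose restriction to the boundary is supported in `κ⁻¹ K0`. -/
def goodU (f : S → Ω) (κ : OpenPartialHomeomorph S (Eu d)) (K0 : Set (Eu d)) (q : ℕ) :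
    Submodule (SFun (𝓡∂ (d + 1)) Ω) (SForm (𝓡∂ (d + 1)) Ω q) where
  carrier := {U | ∀ s, s ∉ κ.symm '' K0 → pull (𝓡∂ (d + 1)) (𝓡 d) f U.val s = 0}
  add_mem' {a b} ha hb s hs := by
    show pull (𝓡∂ (d + 1)) (𝓡 d) f a.val s + pull (𝓡∂ (d + 1)) (𝓡 d) f b.val s = 0
    rw [ha s hs, hb s hs, add_zero]
  zero_mem' s hs := rfl
  smul_mem' c a ha s hs := by
    show c.val (f s) • pull (𝓡∂ (d + 1)) (𝓡 d) f a.val s = 0
    rw [ha s hs]
    exact smul_zero (A := Alt (Eu d) q) (c.val (f s))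

include hf hinj himm hrange

theorem pull_iota_zero {q : ℕ} {V : VF (𝓡∂ (d + 1)) Ω} (hV : TangVF V)
    {w : SForm (𝓡∂ (d + 1)) Ω (q + 1)} {s : S}
    (h : pull (𝓡∂ (d + 1)) (𝓡 d) f w.val s = 0) :
    pull (𝓡∂ (d + 1)) (𝓡 d) f (iotaS V w).val s = 0 := by
  have hbd : f s ∈ (𝓡∂ (d + 1)).boundary Ω := by rw [← hrange]; exact ⟨s, rfl⟩
  obtain ⟨u, hu⟩ := (range_mfderiv hf hinj himm hrange s _).mpr (hV (f s) hbd)
  refine ContinuousAlternatingMap.ext fun (v : Fin q → Eu d) => ?_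
  have h1 := congrArg (fun a : Alt (Eu d) (q + 1) => a (Fin.cons u v : Fin (q + 1) → Eu d)) h
  have h2 : w.val (f s) (fun l => mfderiv (𝓡 d) (𝓡∂ (d + 1)) f s
    ((Fin.cons u v : Fin (q + 1) → Eu d) l)) = 0 := h1
  show w.val (f s) (Matrix.vecCons (V.val (f s)) (fun l => mfderiv (𝓡 d) (𝓡∂ (d + 1)) f s (v l))) = 0
  rw [← h2]
  congr 1
  funext l
  refine Fin.cases ?_ (fun l => ?_) l
  · exact hu.symm
  · rfl

theorem goodU_Lie {q : ℕ} {K0 : Set (Eu d)} (hcl : IsClosed (κ.symm '' K0))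
    {V : VF (𝓡∂ (d + 1)) Ω} (hV : TangVF V)
    {U : SForm (𝓡∂ (d + 1)) Ω (q + 1)} (hU : U ∈ goodU f κ K0 (q + 1)) :
    Lie V U ∈ goodU f κ K0 (q + 1) := by
  intro s hs
  have hnear : ∀ᶠ s' in 𝓝 s, s' ∉ κ.symm '' K0 := hcl.isOpen_compl.mem_nhds hs
  have h1 : pull (𝓡∂ (d + 1)) (𝓡 d) f (dS (iotaS V U)).val s = 0 := by
    have h := congrFun (congrArg SForm.val (pullS_dS f hf (iotaS V U))) s
    refine h.trans ?_
    refine extD_eq_zero ?_
    filter_upwards [hnear] with s' hs'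
    exact pull_iota_zero hf hinj himm hrange hV (hU s' hs')
  have h2 : pull (𝓡∂ (d + 1)) (𝓡 d) f (iotaS V (dS U)).val s = 0 := by
    refine pull_iota_zero hf hinj himm hrange hV ?_
    have h := congrFun (congrArg SForm.val (pullS_dS f hf U)) s
    refine h.trans ?_
    refine extD_eq_zero ?_
    filter_upwards [hnear] with s' hs'
    exact hU s' hs'
  show pull (𝓡∂ (d + 1)) (𝓡 d) f (dS (iotaS V U)).val s +
    pull (𝓡∂ (d + 1)) (𝓡 d) f (iotaS V (dS U)).val s = 0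
  rw [h1, h2, add_zero]

theorem goodU_dual {q : ℕ} {K0 : Set (Eu d)} {ψ : Eu d → ℂ} (L : LocData f κ K0 ψ)
    (j l : Fin d) {U : SForm (𝓡∂ (d + 1)) Ω q} (hU : U ∈ goodU f κ K0 q) :
    (der (L.V j).1 (bS L.hbm l) - if j = l then 1 else 0) • U ∈ dirS Ω q := by
  rw [mem_dirS_iff hf hinj himm hrange]
  funext s
  show (der (L.V j).1 (bS L.hbm l) - if j = l then 1 else 0 : SFun (𝓡∂ (d + 1)) Ω).val (f s) •
    pull (𝓡∂ (d + 1)) (𝓡 d) f U.val s = 0
  by_cases hs : s ∈ κ.symm '' K0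
  · obtain ⟨x, hx, rfl⟩ := hs
    have h := L.hV x (L.hKO hx) j l
    rw [SFun.sub_apply, h]
    split_ifs with hjl
    · rw [SFun.one_apply, sub_self]
      exact zero_smul ℂ (pull (𝓡∂ (d + 1)) (𝓡 d) f U.val (κ.symm x) : Alt (Eu d) q)
    · rw [SFun.zero_apply, sub_self]
      exact zero_smul ℂ (pull (𝓡∂ (d + 1)) (𝓡 d) f U.val (κ.symm x) : Alt (Eu d) q)
  · rw [hU s hs]
    exact smul_zero (M := ℂ) (A := Alt (Eu d) q) _

include hκ

/-- A module homomorphism followed by pullback is pointwise bounded. -/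
theorem pullP_hom_bound {q q' : ℕ} {K0 : Set (Eu d)} (hK0 : IsCompact K0) (hKt : K0 ⊆ κ.target)
    (Q : SForm (𝓡∂ (d + 1)) Ω q →ₗ[SFun (𝓡∂ (d + 1)) Ω] SForm (𝓡∂ (d + 1)) Ω q') :
    ∃ A : ℝ, 0 ≤ A ∧ ∀ w, ∀ x ∈ K0,
      ‖pullP f κ (Q w) x‖ ≤ A * pn g w.val (f (κ.symm x)) := by
  obtain ⟨m, θ, c, K, h1, h2⟩ := exists_frame g q
  have hb : ∀ j, ∃ B, ∀ x ∈ K0, ‖pullP f κ (Q (θ j)) x‖ ≤ B := fun j =>
    hK0.exists_bound_of_continuousOn ((pullP_contDiffOn hf hκ (Q (θ j))).continuousOn.mono hKt)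
  choose B hB using hb
  refine ⟨∑ j, |K| * |B j|, Finset.sum_nonneg fun j _ => by positivity, fun w x hx => ?_⟩
  have h3 : Q w = ∑ j, c j w • Q (θ j) := by
    conv_lhs => rw [h1 w]
    rw [map_sum]
    exact Finset.sum_congr rfl fun j _ => LinearMap.map_smul _ _ _
  rw [h3, pullP_sum, Finset.sum_mul]
  refine (norm_sum_le _ _).trans (Finset.sum_le_sum fun j _ => ?_)
  rw [pullP_smul, norm_smul]
  have hp : 0 ≤ pn g w.val (f (κ.symm x)) := Real.sqrt_nonneg _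
  calc ‖(c j w).val (f (κ.symm x))‖ * ‖pullP f κ (Q (θ j)) x‖
      ≤ (|K| * pn g w.val (f (κ.symm x))) * |B j| := by
        refine mul_le_mul ((h2 j w _).trans ?_) ((hB j x hx).trans (le_abs_self _)) (norm_nonneg _)
          (by positivity)
        exact mul_le_mul_of_nonneg_right (le_abs_self _) hp
    _ = |K| * |B j| * pn g w.val (f (κ.symm x)) := by ring

end Loc

end DtN
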