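import Pool.Agent.H14.DtN.Asm3

/-!
MODULE M3, part 4 : crude and sharp bounds for localised operators.
-/

open scoped Manifold ContDiff Topology ComplexConjugate
open Set MeasureTheory

set_option linter.unusedSectionVars false

noncomputable section

namespace DtN

section Loc

variable {d : ℕ} {Ω : Type*} [TopologicalSpace Ω] [ChartedSpace (EuclideanHalfSpace (d + 1)) Ω]
  [IsManifold (𝓡∂ (d + 1)) ∞ Ω] [CompactSpace Ω] [T2Space Ω]
  (g : Metric (𝓡∂ (d + 1)) Ω) (C : Cover (𝓡∂ (d + 1)) Ω)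
  {S : Type*} [TopologicalSpace S] [ChartedSpace (Eu d) S] [IsManifold (𝓡 d) ∞ S]
  [CompactSpace S] [T2Space S]
  {f : S → Ω}
    (hf : ContMDiff (𝓡 d) (𝓡∂ (d + 1)) ∞ f) (hinj : Function.Injective f)
    (himm : ∀ s, Function.Injective (mfderiv (𝓡 d) (𝓡∂ (d + 1)) f s))
    (hrange : range f = (𝓡∂ (d + 1)).boundary Ω) (sp : Spanning d Ω)

theorem FO_Lie (P : VF (𝓡∂ (d + 1)) Ω) (i : ℕ) :
    (coreData g C hf hinj himm hrange sp).FO (i := i) (j := i) (Lie P) := by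
  refine ⟨fun a => LinearMap.lsmul (SFun (𝓡∂ (d + 1)) Ω) (SForm (𝓡∂ (d + 1)) Ω (i + 1))
    (der P (sp.h a)), fun b w => ?_⟩
  rw [Lie_smul, add_sub_cancel_right, der_spanning sp P b, Finset.sum_smul]
  refine Finset.sum_congr rfl fun a _ => ?_
  show (der P (sp.h a) * der (sp.X a) b) • w = der (sp.X a) b • (der P (sp.h a) • w)
  rw [mul_comm, mul_smul]

theorem wact_eq {q : ℕ} (W : List (SFun (𝓡∂ (d + 1)) Ω ⊕ {V : VF (𝓡∂ (d + 1)) Ω // TangVF V}))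
    (w : SForm (𝓡∂ (d + 1)) Ω (q + 1)) :
    (coreData g C hf hinj himm hrange sp).wact q W w = wact W w := by
  induction W with
  | nil => rfl
  | cons l W ih =>
    cases l with
    | inl b =>
      show b • ((coreData g C hf hinj himm hrange sp).wact q W w) = b • wact W w
      rw [ih]
    | inr V =>
      show Lie V.1 ((coreData g C hf hinj himm hrange sp).wact q W w) = Lie V.1 (wact W w)
      rw [ih]

/-- Output of the sup bound. -/
structure SupB (k : ℕ) where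
  m : ℕ
  P : Fin m → VF (𝓡∂ (d + 1)) Ω
  W : Fin m → List (SFun (𝓡∂ (d + 1)) Ω ⊕ {V : VF (𝓡∂ (d + 1)) Ω // TangVF V})
  K : ℝ
  bound : ∀ (w : SForm (𝓡∂ (d + 1)) Ω (k + 1)) (z : Ω),
      pn g w.val z ≤ K * ∑ i, NM g C (k + 1) (Lie (P i) (wact (W i) w))

theorem exists_supB (k : ℕ) : Nonempty (SupB g C k) := by
  obtain ⟨m, P, W, K, h⟩ := sup_bound g C k
  exact ⟨⟨m, P, W, K, h⟩⟩

variable {g C}

/-- the order -/
def SupB.M0 {k : ℕ} (B : SupB g C k) : ℕ := ∑ i, (B.W i).length + 2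

theorem SupB.le_M0 {k : ℕ} (B : SupB g C k) (i : Fin B.m) : (B.W i).length + 2 ≤ B.M0 := by
  unfold SupB.M0
  have := Finset.single_le_sum (f := fun i => (B.W i).length) (fun _ _ => Nat.zero_le _)
    (Finset.mem_univ i)
  omega

theorem SupB.bound_abs {k : ℕ} (B : SupB g C k) (w : SForm (𝓡∂ (d + 1)) Ω (k + 1)) (z : Ω) :
    pn g w.val z ≤ |B.K| * ∑ i, NM g C (k + 1) (Lie (B.P i) (wact (B.W i) w)) := by
  refine (B.bound w z).trans (mul_le_mul_of_nonneg_right (le_abs_self _) ?_)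
  exact Finset.sum_nonneg fun i _ => apply_nonneg _ _

theorem csup_mono' {X : Type*} [TopologicalSpace X] [CompactSpace X] (bm : X → Eu d) {r r' : ℕ} (h : r ≤ r') (s : Sm d) :
    csup bm r s ≤ csup bm r' s := by
  induction h with
  | refl => exact le_rfl
  | step _ ih => exact ih.trans (csup_mono _ s)

variable {κ : OpenPartialHomeomorph S (Eu d)} (hκ : κ ∈ IsManifold.maximalAtlas (𝓡 d) ∞ S)
  {K0 : Set (Eu d)} (hK0 : IsCompact K0) (hKt : K0 ⊆ κ.target)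
  {k : ℕ} (B : SupB g C (k + 1))
  {F : SForm (𝓡∂ (d + 1)) Ω (k + 1) →ₗ[ℂ] SForm (𝓡∂ (d + 1)) Ω (k + 1 + 1)}
  (hF : (coreData g C hf hinj himm hrange sp).IsF k F)
  {bm : Ω → Eu d} (hbm : ContMDiff (𝓡∂ (d + 1)) 𝓘(ℝ, Eu d) ∞ bm)

include hκ hK0 hKt hF

theorem loc_crude {q' : ℕ}
    (Q : SForm (𝓡∂ (d + 1)) Ω (k + 1 + 1) →ₗ[SFun (𝓡∂ (d + 1)) Ω] SForm (𝓡∂ (d + 1)) Ω q')
    (Kl : List (SFun (𝓡∂ (d + 1)) Ω ⊕ {V : VF (𝓡∂ (d + 1)) Ω // TangVF V}))
    (U : SForm (𝓡∂ (d + 1)) Ω (k + 1)) :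
    ∃ A : ℝ, 0 ≤ A ∧ ∀ (s : Sm d), ∀ x ∈ K0, ‖pullP f κ (Q ((coreData g C hf hinj himm hrange sp).ad
      (i := k) (j := k + 1) F Kl (compS hbm s • U))) x‖ ≤ A * csup bm B.M0 s := by
  obtain ⟨A, hA, hA'⟩ := pullP_hom_bound g hf hinj himm hrange hκ hK0 hKt Q
  have h1 : ∀ i : Fin B.m, ∃ D : ℝ, ∀ s : Sm d, NM g C (k + 1 + 1) (Lie (B.P i) (wact (B.W i)
      ((coreData g C hf hinj himm hrange sp).ad (i := k) (j := k + 1) F Kl
        (compS hbm s • U)))) ≤ D * csup bm ((B.W i).length + 2) s := by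
    intro i
    obtain ⟨D, hD⟩ := CoreData.crude_bound (coreData g C hf hinj himm hrange sp) hF
      (testI g C hbm hf hinj himm hrange sp) Kl (B.W i)
      (FO_Lie g C hf hinj himm hrange sp (B.P i) (k + 1)) U
    refine ⟨D, fun s => ?_⟩
    have h := hD s
    rw [wact_eq] at h
    exact h
  choose D hD using h1
  refine ⟨A * (|B.K| * ∑ i, |D i|), by positivity, fun s x hx => ?_⟩
  refine (hA' _ x hx).trans ?_
  rw [mul_assoc]
  refine mul_le_mul_of_nonneg_left ((B.bound_abs _ _).trans ?_) hA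
  rw [mul_assoc]
  refine mul_le_mul_of_nonneg_left ?_ (abs_nonneg _)
  rw [Finset.sum_mul]
  refine Finset.sum_le_sum fun i _ => (hD i s).trans ?_
  calc D i * csup bm ((B.W i).length + 2) s ≤ |D i| * csup bm ((B.W i).length + 2) s :=
        mul_le_mul_of_nonneg_right (le_abs_self _) (csup_nonneg _ _)
    _ ≤ |D i| * csup bm B.M0 s :=
        mul_le_mul_of_nonneg_left (csup_mono' bm (B.le_M0 i) s) (abs_nonneg _)

theorem loc_sharp {q' : ℕ} {ψ : Eu d → ℂ} (L : LocData f κ K0 ψ)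
    (Q : SForm (𝓡∂ (d + 1)) Ω (k + 1 + 1) →ₗ[SFun (𝓡∂ (d + 1)) Ω] SForm (𝓡∂ (d + 1)) Ω q')
    (Kl : List (SFun (𝓡∂ (d + 1)) Ω ⊕ {V : VF (𝓡∂ (d + 1)) Ω // TangVF V}))
    {U : SForm (𝓡∂ (d + 1)) Ω (k + 1)} (hU : U ∈ goodU f κ K0 (k + 1)) :
    ∃ A : ℝ, 0 ≤ A ∧ ∀ (ξ : Fin d → ℝ), ∀ x ∈ K0, (1 + ‖ξ‖) ^ CoreData.beta Kl *
      ‖pullP f κ (Q ((coreData g C hf hinj himm hrange sp).ad
      (i := k) (j := k + 1) F Kl (compS L.hbm (eS' ξ) • U))) x‖ ≤ A * (1 + ‖ξ‖) ^ B.M0 := by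
  obtain ⟨A, hA, hA'⟩ := pullP_hom_bound g hf hinj himm hrange hκ hK0 hKt Q
  have hcl : IsClosed (κ.symm '' K0) := isClosed_symm_image hK0 hKt
  have h1 : ∀ i : Fin B.m, ∃ D : ℝ, ∀ ξ : Fin d → ℝ, (1 + ‖ξ‖) ^ CoreData.beta Kl *
      NM g C (k + 1 + 1) (Lie (B.P i) (wact (B.W i)
      ((coreData g C hf hinj himm hrange sp).ad (i := k) (j := k + 1) F Kl
        (compS L.hbm (eS' ξ) • U)))) ≤ D * (1 + ‖ξ‖) ^ ((B.W i).length + 2) := by
    intro i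
    obtain ⟨D, hD⟩ := CoreData.sharp_bound (coreData g C hf hinj himm hrange sp) hF
      (testI g C L.hbm hf hinj himm hrange sp) L.V (goodU f κ K0 (k + 1))
      (fun V U hU => goodU_Lie hf hinj himm hrange hcl V.2 hU)
      (fun j l U hU => goodU_dual hf hinj himm hrange L j l hU) Kl (B.W i)
      (FO_Lie g C hf hinj himm hrange sp (B.P i) (k + 1)) hU
    refine ⟨D, fun ξ => ?_⟩
    have h := hD ξ
    rw [wact_eq] at h
    exact h
  choose D hD using h1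
  refine ⟨A * (|B.K| * ∑ i, |D i|), by positivity, fun ξ x hx => ?_⟩
  have hξ : (1 : ℝ) ≤ 1 + ‖ξ‖ := le_add_of_nonneg_right (norm_nonneg _)
  have hp : (0 : ℝ) ≤ (1 + ‖ξ‖) ^ CoreData.beta Kl := by positivity
  refine (mul_le_mul_of_nonneg_left ((hA' _ x hx).trans
    (mul_le_mul_of_nonneg_left (B.bound_abs _ _) hA)) hp).trans ?_
  have h2 : ∑ i, (1 + ‖ξ‖) ^ CoreData.beta Kl * NM g C (k + 1 + 1) (Lie (B.P i) (wact (B.W i)
      ((coreData g C hf hinj himm hrange sp).ad (i := k) (j := k + 1) F Kl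
        (compS L.hbm (eS' ξ) • U)))) ≤ (∑ i, |D i|) * (1 + ‖ξ‖) ^ B.M0 := by
    rw [Finset.sum_mul]
    refine Finset.sum_le_sum fun i _ => (hD i ξ).trans ?_
    exact mul_le_mul (le_abs_self _) (pow_le_pow_right₀ hξ (B.le_M0 i)) (by positivity)
      (abs_nonneg _)
  calc _ = A * |B.K| * ∑ i, (1 + ‖ξ‖) ^ CoreData.beta Kl *
        NM g C (k + 1 + 1) (Lie (B.P i) (wact (B.W i)
      ((coreData g C hf hinj himm hrange sp).ad (i := k) (j := k + 1) F Kl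
        (compS L.hbm (eS' ξ) • U)))) := by
        rw [← Finset.mul_sum]; ring
    _ ≤ A * |B.K| * ((∑ i, |D i|) * (1 + ‖ξ‖) ^ B.M0) :=
        mul_le_mul_of_nonneg_left h2 (by positivity)
    _ = _ := by ring

end Loc

end DtN
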