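import Pool.Agent.H14.DtN.Asm4

/-!
MODULE M3, part 5 : the family of localised symbols.
-/

open scoped Manifold ContDiff Topology ComplexConjugate
open Set MeasureTheory

set_option linter.unusedSectionVars false

noncomputable section

namespace DtN

namespace CoreData

variable {R : Type*} [CommRing R] [Algebra ℂ R] {M : ℕ → Type*}
    [∀ i, AddCommGroup (M i)] [∀ i, Module ℂ (M i)] [∀ i, Module R (M i)]
    [∀ i, IsScalarTower ℂ R (M i)] {T : Type*} {m : ℕ} (D : CoreData R M T m)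

theorem ad_Z {k : ℕ} {F : M k →ₗ[ℂ] M (k + 1)} (hF : D.IsF k F) (K : List (R ⊕ T)) :
    ∀ u ∈ D.Z k, D.ad F K u = 0 := by
  induction K with
  | nil => exact hF.F_Z
  | cons l K ih =>
    intro u hu
    have h1 : D.act k l u ∈ D.Z k := by
      cases l with
      | inl b => exact (D.Z k).smul_mem b hu
      | inr V => exact D.LT_Z V k u hu
    show D.act (k + 1) l (D.ad F K u) - D.ad F K (D.act k l u) = 0
    rw [ih u hu, ih _ h1, map_zero, sub_zero]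

end CoreData

section Euclid
variable {d : ℕ}

theorem eexp_neg_mul (ξ x : Eu d) : eexp ξ x * eexp (-ξ) x = 1 := by
  unfold eexp
  rw [← Complex.exp_add, inner_neg_right]
  have : (2 * Real.pi * (inner ℝ x ξ : ℝ) * Complex.I +
    2 * Real.pi * ((-inner ℝ x ξ : ℝ) : ℂ) * Complex.I : ℂ) = 0 := by push_cast; ring
  rw [this, Complex.exp_zero]

theorem phase_ev (ξ : Eu d) (j : Fin d) :
    phase ξ (ev j) = 2 * Real.pi * (ξ j : ℝ) * Complex.I := by
  rw [phase_apply, real_inner_comm, EuclideanSpace.inner_single_right]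
  simp

/-- derivative of `eexp (-ξ)` along `e_j` -/
theorem hasDerivAt_eexp_x (ξ x : Eu d) (j : Fin d) :
    HasDerivAt (fun t : ℝ => eexp (-ξ) (x + t • EuclideanSpace.single j 1))
      (-(2 * Real.pi * (ξ j : ℝ) * Complex.I) * eexp (-ξ) x) 0 := by
  have h1 : HasDerivAt (fun t : ℝ => x + t • (EuclideanSpace.single j 1 : Eu d))
      (EuclideanSpace.single j 1) 0 := by
    simpa using ((hasDerivAt_id (0 : ℝ)).smul_const (EuclideanSpace.single j 1 : Eu d)).const_add x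
  have h2 : HasFDerivAt (eexp (-ξ)) (eexp (-ξ) x • phase (-ξ))
      (x + (0 : ℝ) • (EuclideanSpace.single j 1 : Eu d)) := by
    rw [zero_smul, add_zero]; exact eexp_hasFDerivAt (-ξ) x
  have h3 := h2.comp_hasDerivAt (0 : ℝ) h1
  refine h3.congr_deriv ?_
  show eexp (-ξ) x * phase (-ξ) (ev j) = _
  rw [phase_ev]
  simp only [PiLp.neg_apply, Complex.ofReal_neg]
  ring

theorem hasDerivAt_eexp_ξ (ξ x : Eu d) (j : Fin d) :
    HasDerivAt (fun t : ℝ => eexp (-(ξ + t • EuclideanSpace.single j 1)) x)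
      (-(2 * Real.pi * (x j : ℝ) * Complex.I) * eexp (-ξ) x) 0 := by
  have h0 : (fun t : ℝ => eexp (-(ξ + t • EuclideanSpace.single j 1)) x) =
      fun t : ℝ => eexp (-x) (ξ + t • EuclideanSpace.single j 1) := by
    funext t
    unfold eexp
    rw [inner_neg_right, inner_neg_right, real_inner_comm]
  have h1 : eexp (-ξ) x = eexp (-x) ξ := by
    unfold eexp
    rw [inner_neg_right, inner_neg_right, real_inner_comm]
  rw [h0, h1]
  exact hasDerivAt_eexp_x x ξ j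

end Euclid

section Loc

variable {d : ℕ} {Ω : Type*} [TopologicalSpace Ω] [ChartedSpace (EuclideanHalfSpace (d + 1)) Ω]
  [IsManifold (𝓡∂ (d + 1)) ∞ Ω] [CompactSpace Ω] [T2Space Ω]
  (g : Metric (𝓡∂ (d + 1)) Ω) (C : Cover (𝓡∂ (d + 1)) Ω)
  {S : Type*} [TopologicalSpace S] [ChartedSpace (Eu d) S] [IsManifold (𝓡 d) ∞ S]
  [CompactSpace S] [T2Space S]
  {f : S → Ω}
    (hf : ContMDiff (𝓡 d) (𝓡∂ (d + 1)) ∞ f) (hinj : Function.Injective f)
    (himm : ∀ s, Function.Injective (mfderiv (𝓡 d) (𝓡∂ (d + 1)) f s))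
    (hrange : range f = (𝓡∂ (d + 1)).boundary Ω) (sp : Spanning d Ω)

/-- Commutator of a Lie derivative with a module homomorphism. -/
def commQ {q q' : ℕ} (V : VF (𝓡∂ (d + 1)) Ω)
    (Q : SForm (𝓡∂ (d + 1)) Ω (q + 1) →ₗ[SFun (𝓡∂ (d + 1)) Ω] SForm (𝓡∂ (d + 1)) Ω (q' + 1)) :
    SForm (𝓡∂ (d + 1)) Ω (q + 1) →ₗ[SFun (𝓡∂ (d + 1)) Ω] SForm (𝓡∂ (d + 1)) Ω (q' + 1) where
  toFun w := Lie V (Q w) - Q (Lie V w)
  map_add' a b := by
    rw [map_add, map_add, map_add, map_add]; abel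
  map_smul' b w := by
    rw [RingHom.id_apply, LinearMap.map_smul, Lie_smul, Lie_smul, map_add, LinearMap.map_smul,
      LinearMap.map_smul, smul_sub]
    abel

theorem commQ_apply {q q' : ℕ} (V : VF (𝓡∂ (d + 1)) Ω)
    (Q : SForm (𝓡∂ (d + 1)) Ω (q + 1) →ₗ[SFun (𝓡∂ (d + 1)) Ω] SForm (𝓡∂ (d + 1)) Ω (q' + 1))
    (w : SForm (𝓡∂ (d + 1)) Ω (q + 1)) : commQ V Q w = Lie V (Q w) - Q (Lie V w) := rfl

variable {κ : OpenPartialHomeomorph S (Eu d)} (hκ : κ ∈ IsManifold.maximalAtlas (𝓡 d) ∞ S)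
  {K0 : Set (Eu d)} (hK0 : IsCompact K0) (hKt : K0 ⊆ κ.target) {ψ : Eu d → ℂ}
  (L : LocData f κ K0 ψ) {k : ℕ}
  (F : SForm (𝓡∂ (d + 1)) Ω (k + 1) →ₗ[ℂ] SForm (𝓡∂ (d + 1)) Ω (k + 1 + 1))

/-- The test form `e^{2 π i ξ . b} U`. -/
def eU (ξ : Eu d) (U : SForm (𝓡∂ (d + 1)) Ω (k + 1)) : SForm (𝓡∂ (d + 1)) Ω (k + 1) :=
  compS L.hbm (eS' ξ.ofLp) • U

/-- iterated commutators of `F` -/
def adF (Kl : List (SFun (𝓡∂ (d + 1)) Ω ⊕ {V : VF (𝓡∂ (d + 1)) Ω // TangVF V})) :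
    SForm (𝓡∂ (d + 1)) Ω (k + 1) →ₗ[ℂ] SForm (𝓡∂ (d + 1)) Ω (k + 1 + 1) :=
  (coreData g C hf hinj himm hrange sp).ad (i := k) (j := k + 1) F Kl

theorem adF_fun (Kl : List (SFun (𝓡∂ (d + 1)) Ω ⊕ {V : VF (𝓡∂ (d + 1)) Ω // TangVF V}))
    (b : SFun (𝓡∂ (d + 1)) Ω) (u : SForm (𝓡∂ (d + 1)) Ω (k + 1)) :
    adF g C hf hinj himm hrange sp F (Sum.inl b :: Kl) u =
      b • adF g C hf hinj himm hrange sp F Kl u - adF g C hf hinj himm hrange sp F Kl (b • u) := rfl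

theorem adF_vf (Kl : List (SFun (𝓡∂ (d + 1)) Ω ⊕ {V : VF (𝓡∂ (d + 1)) Ω // TangVF V}))
    (V : {V : VF (𝓡∂ (d + 1)) Ω // TangVF V}) (u : SForm (𝓡∂ (d + 1)) Ω (k + 1)) :
    adF g C hf hinj himm hrange sp F (Sum.inr V :: Kl) u =
      Lie V.1 (adF g C hf hinj himm hrange sp F Kl u) -
        adF g C hf hinj himm hrange sp F Kl (Lie V.1 u) := rfl

/-- The generators of the family of symbols. -/
def gen (φ : Eu d → ℂ)
    (Q : SForm (𝓡∂ (d + 1)) Ω (k + 1 + 1) →ₗ[SFun (𝓡∂ (d + 1)) Ω] SForm (𝓡∂ (d + 1)) Ω (k + 1))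
    (Kl : List (SFun (𝓡∂ (d + 1)) Ω ⊕ {V : VF (𝓡∂ (d + 1)) Ω // TangVF V}))
    (U : SForm (𝓡∂ (d + 1)) Ω (k + 1)) (x ξ : Eu d) : Alt (Eu d) (k + 1) :=
  (eexp (-ξ) x * φ x) • pullP f κ (Q (adF g C hf hinj himm hrange sp F Kl (eU L ξ U))) x

variable {F}
  (hF : (coreData g C hf hinj himm hrange sp).IsF k F)

include hF hκ in
theorem pullP_Lie_adF
    (Q : SForm (𝓡∂ (d + 1)) Ω (k + 1 + 1) →ₗ[SFun (𝓡∂ (d + 1)) Ω] SForm (𝓡∂ (d + 1)) Ω (k + 1))
    (Kl : List (SFun (𝓡∂ (d + 1)) Ω ⊕ {V : VF (𝓡∂ (d + 1)) Ω // TangVF V}))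
    {U : SForm (𝓡∂ (d + 1)) Ω (k + 1)} (hU : U ∈ goodU f κ K0 (k + 1)) (j : Fin d) (ξ : Eu d) :
    Lie (L.V j).1 (Q (adF g C hf hinj himm hrange sp F Kl (eU L ξ U))) =
      commQ (L.V j).1 Q (adF g C hf hinj himm hrange sp F Kl (eU L ξ U)) +
      Q (adF g C hf hinj himm hrange sp F (Sum.inr (L.V j) :: Kl) (eU L ξ U)) +
      Q (adF g C hf hinj himm hrange sp F Kl (eU L ξ (Lie (L.V j).1 U))) +
      (2 * Real.pi * (ξ j : ℝ) * Complex.I : ℂ) •
        Q (adF g C hf hinj himm hrange sp F Kl (eU L ξ U)) := by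
  set A := adF g C hf hinj himm hrange sp F Kl with hA
  set E := compS L.hbm (eS' ξ.ofLp) with hE
  have h1 : Lie (L.V j).1 (eU L ξ U) = der (L.V j).1 E • U + E • Lie (L.V j).1 U :=
    Lie_smul _ _ _
  have h2 : der (L.V j).1 E = ∑ l, (2 * Real.pi * (ξ l : ℝ) * Complex.I : ℂ) •
      (der (L.V j).1 (bS L.hbm l) * E) := by
    rw [hE, der_compS]
    refine Finset.sum_congr rfl fun l _ => ?_
    have h3 := (testI g C L.hbm hf hinj himm hrange sp).E_par_e l ξ.ofLp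
    have h4 : compS L.hbm ((eS' ξ.ofLp).par l) =
      (2 * Real.pi * ξ.ofLp l * Complex.I : ℂ) • compS L.hbm (eS' ξ.ofLp) := h3
    rw [h4, mul_smul_comm]
  have h5 : A (der (L.V j).1 E • U) = (2 * Real.pi * (ξ j : ℝ) * Complex.I : ℂ) • A (E • U) := by
    rw [← sub_eq_zero, ← map_smul, ← map_sub]
    refine CoreData.ad_Z _ hF Kl _ ?_
    have h6 : der (L.V j).1 E • U - (2 * Real.pi * (ξ j : ℝ) * Complex.I : ℂ) • E • U =
        ∑ l, (2 * Real.pi * (ξ l : ℝ) * Complex.I : ℂ) • (E •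
          ((der (L.V j).1 (bS L.hbm l) - if j = l then 1 else 0) • U)) := by
      have h7 : ∀ l, (2 * Real.pi * (ξ l : ℝ) * Complex.I : ℂ) • (E •
          ((der (L.V j).1 (bS L.hbm l) - if j = l then 1 else 0) • U)) =
          ((2 * Real.pi * (ξ l : ℝ) * Complex.I : ℂ) •
            (der (L.V j).1 (bS L.hbm l) * E)) • U -
          (if j = l then (2 * Real.pi * (ξ l : ℝ) * Complex.I : ℂ) • E • U else 0) := by
        intro l
        rw [sub_smul, smul_sub, smul_sub, smul_assoc, ← mul_smul, mul_comm E]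
        congr 1
        split_ifs with h
        · rw [one_smul]
        · rw [zero_smul, smul_zero, smul_zero]
      rw [Finset.sum_congr rfl fun l _ => h7 l, Finset.sum_sub_distrib, ← Finset.sum_smul, ← h2,
        Finset.sum_ite_eq Finset.univ j, if_pos (Finset.mem_univ j)]
    rw [h6]
    refine (dirS Ω (k + 1)).sum_mem fun l _ => ?_
    have h8 := goodU_dual hf hinj himm hrange L j l hU
    have h9 := (dirS Ω (k + 1)).smul_mem E h8
    have h10 := (dirS Ω (k + 1)).smul_mem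
      (algebraMap ℂ (SFun (𝓡∂ (d + 1)) Ω) (2 * Real.pi * (ξ l : ℝ) * Complex.I : ℂ)) h9
    rwa [algebraMap_smul] at h10
  rw [commQ_apply, adF_vf, map_sub, h1, map_add, map_add]
  have h11 : A (E • Lie (L.V j).1 U) = A (eU L ξ (Lie (L.V j).1 U)) := rfl
  have h12 : Q ((2 * Real.pi * (ξ j : ℝ) * Complex.I : ℂ) • A (E • U)) =
      (2 * Real.pi * (ξ j : ℝ) * Complex.I : ℂ) • Q (A (E • U)) :=
    LinearMap.map_smul_of_tower _ _ _
  rw [← hA, h5, h11, h12]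
  have h13 : eU L ξ U = E • U := rfl
  rw [h13]
  abel

end Loc

end DtN
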