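import Pool.Agent.H14.DtN.Asm5

/-!
MODULE M3, part 6 : derivatives of the generators.
-/

open scoped Manifold ContDiff Topology ComplexConjugate
open Set MeasureTheory

set_option linter.unusedSectionVars false

noncomputable section

namespace DtN

theorem alt_zero_smul {E : Type*} [NormedAddCommGroup E] [NormedSpace ℝ E] {q : ℕ} (w : Alt E q) :
    (0 : ℂ) • w = 0 := zero_smul ℂ w

theorem alt_smul_zero {E : Type*} [NormedAddCommGroup E] [NormedSpace ℝ E] {q : ℕ} (c : ℂ) :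
    c • (0 : Alt E q) = 0 := smul_zero (A := Alt E q) c

section Loc

variable {d : ℕ} {Ω : Type*} [TopologicalSpace Ω] [ChartedSpace (EuclideanHalfSpace (d + 1)) Ω]
  [IsManifold (𝓡∂ (d + 1)) ∞ Ω] [CompactSpace Ω] [T2Space Ω]
  (g : Metric (𝓡∂ (d + 1)) Ω) (C : Cover (𝓡∂ (d + 1)) Ω)
  {S : Type*} [TopologicalSpace S] [ChartedSpace (Eu d) S] [IsManifold (𝓡 d) ∞ S]
  [CompactSpace S] [T2Space S]
  {f : S → Ω}
    (hf : ContMDiff (𝓡 d) (𝓡∂ (d + 1)) ∞ f) (hinj : Function.Injective f)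
    (himm : ∀ s, Function.Injective (mfderiv (𝓡 d) (𝓡∂ (d + 1)) f s))
    (hrange : range f = (𝓡∂ (d + 1)).boundary Ω) (sp : Spanning d Ω)
  {κ : OpenPartialHomeomorph S (Eu d)} (hκ : κ ∈ IsManifold.maximalAtlas (𝓡 d) ∞ S)
  {K0 : Set (Eu d)} (hK0 : IsCompact K0) (hKt : K0 ⊆ κ.target) {ψ : Eu d → ℂ}
  (L : LocData f κ K0 ψ) {k : ℕ}
  {F : SForm (𝓡∂ (d + 1)) Ω (k + 1) →ₗ[ℂ] SForm (𝓡∂ (d + 1)) Ω (k + 1 + 1)}
  (hF : (coreData g C hf hinj himm hrange sp).IsF k F)

include hF hκ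

theorem hasDerivAt_gen_x {φ : Eu d → ℂ} (hφ : ContDiff ℝ ∞ φ) (hφs : tsupport φ ⊆ K0)
    (Q : SForm (𝓡∂ (d + 1)) Ω (k + 1 + 1) →ₗ[SFun (𝓡∂ (d + 1)) Ω] SForm (𝓡∂ (d + 1)) Ω (k + 1))
    (Kl : List (SFun (𝓡∂ (d + 1)) Ω ⊕ {V : VF (𝓡∂ (d + 1)) Ω // TangVF V}))
    {U : SForm (𝓡∂ (d + 1)) Ω (k + 1)} (hU : U ∈ goodU f κ K0 (k + 1)) (j : Fin d) (x ξ : Eu d) :
    HasDerivAt (fun t : ℝ => gen g C hf hinj himm hrange sp L F φ Q Kl U
        (x + t • EuclideanSpace.single j 1) ξ)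
      (gen g C hf hinj himm hrange sp L F (fun y => fderiv ℝ φ y (ev j)) Q Kl U x ξ +
        gen g C hf hinj himm hrange sp L F φ (commQ (L.V j).1 Q) Kl U x ξ +
        gen g C hf hinj himm hrange sp L F φ Q (Sum.inr (L.V j) :: Kl) U x ξ +
        gen g C hf hinj himm hrange sp L F φ Q Kl (Lie (L.V j).1 U) x ξ) 0 := by
  by_cases hx : x ∈ L.O
  · have hxt := L.hOt hx
    set w := Q (adF g C hf hinj himm hrange sp F Kl (eU L ξ U)) with hw
    have hline : HasDerivAt (fun t : ℝ => x + t • (EuclideanSpace.single j 1 : Eu d))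
        (EuclideanSpace.single j 1) 0 := by
      simpa using ((hasDerivAt_id (0 : ℝ)).smul_const
        (EuclideanSpace.single j 1 : Eu d)).const_add x
    have h1 : HasDerivAt (fun t : ℝ => pullP f κ w (x + t • EuclideanSpace.single j 1))
        (pullP f κ (Lie (L.V j).1 w) x) 0 := by
      have h2 : HasFDerivAt (pullP f κ w) (fderiv ℝ (pullP f κ w) x)
          (x + (0 : ℝ) • (EuclideanSpace.single j 1 : Eu d)) := by
        rw [zero_smul, add_zero]
        exact (pullP_differentiableAt hf hκ w hxt).hasFDerivAt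
      have h3 := h2.comp_hasDerivAt (0 : ℝ) hline
      exact h3.congr_deriv (fderiv_pullP hf hinj himm hrange hκ L w hx j)
    have h4 : HasDerivAt (fun t : ℝ => φ (x + t • EuclideanSpace.single j 1))
        (fderiv ℝ φ x (ev j)) 0 := by
      have h2 : HasFDerivAt φ (fderiv ℝ φ x) (x + (0 : ℝ) • (EuclideanSpace.single j 1 : Eu d)) := by
        rw [zero_smul, add_zero]
        exact (hφ.differentiable (by simp) x).hasFDerivAt
      exact h2.comp_hasDerivAt (0 : ℝ) hline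
    have h5 := ((hasDerivAt_eexp_x ξ x j).mul h4).smul h1
    refine h5.congr_deriv ?_
    rw [hw, pullP_Lie_adF g C hf hinj himm hrange sp hκ L hF Q Kl hU j ξ, pullP_add, pullP_add,
      pullP_add, pullP_csmul]
    simp only [gen, Pi.mul_apply, zero_smul, add_zero]
    module
  · have hφ0 : φ =ᶠ[𝓝 x] 0 := by
      have : x ∉ tsupport φ := fun h => hx (L.hKO (hφs h))
      exact notMem_tsupport_iff_eventuallyEq.mp this
    have h1 : (fun t : ℝ => gen g C hf hinj himm hrange sp L F φ Q Kl U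
        (x + t • EuclideanSpace.single j 1) ξ) =ᶠ[𝓝 0] fun _ => 0 := by
      have hc : ContinuousAt (fun t : ℝ => x + t • (EuclideanSpace.single j 1 : Eu d)) 0 := by
        fun_prop
      have h2 := hc.eventually (p := fun y => φ y = 0) (by
        show ∀ᶠ y in 𝓝 (x + (0 : ℝ) • (EuclideanSpace.single j 1 : Eu d)), φ y = 0
        rw [zero_smul, add_zero]; exact hφ0)
      filter_upwards [h2] with t ht
      simp only [gen, ht, mul_zero, alt_zero_smul]
    have hx0 : φ x = 0 := hφ0.self_of_nhds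
    have hd0 : fderiv ℝ φ x = 0 := by
      rw [hφ0.fderiv_eq]; simp
    refine (hasDerivAt_const (0 : ℝ) (0 : Alt (Eu d) (k + 1))).congr_of_eventuallyEq h1
      |>.congr_deriv ?_
    simp only [gen, hx0, hd0, mul_zero, alt_zero_smul, ContinuousLinearMap.zero_apply, add_zero]

include hK0 hKt

theorem hasDerivAt_gen_ξ (B : SupB g C (k + 1)) {φ : Eu d → ℂ} (hφs : tsupport φ ⊆ K0)
    (Q : SForm (𝓡∂ (d + 1)) Ω (k + 1 + 1) →ₗ[SFun (𝓡∂ (d + 1)) Ω] SForm (𝓡∂ (d + 1)) Ω (k + 1))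
    (Kl : List (SFun (𝓡∂ (d + 1)) Ω ⊕ {V : VF (𝓡∂ (d + 1)) Ω // TangVF V}))
    (U : SForm (𝓡∂ (d + 1)) Ω (k + 1)) (j : Fin d) (x ξ : Eu d) :
    HasDerivAt (fun t : ℝ => gen g C hf hinj himm hrange sp L F φ Q Kl U
        x (ξ + t • EuclideanSpace.single j 1))
      ((-(2 * Real.pi * Complex.I) : ℂ) •
        gen g C hf hinj himm hrange sp L F φ Q (Sum.inl (bS L.hbm j) :: Kl) U x ξ) 0 := by
  by_cases hφx : φ x = 0
  · have h1 : (fun t : ℝ => gen g C hf hinj himm hrange sp L F φ Q Kl U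
        x (ξ + t • EuclideanSpace.single j 1)) = fun _ => 0 := by
      funext t; simp only [gen, hφx, mul_zero, alt_zero_smul]
    rw [h1]
    refine (hasDerivAt_const (0 : ℝ) (0 : Alt (Eu d) (k + 1))).congr_deriv ?_
    simp only [gen, hφx, mul_zero, alt_zero_smul, alt_smul_zero]
  · have hxK : x ∈ K0 := hφs (subset_tsupport _ hφx)
    have hxO := L.hKO hxK
    classical
    let l : (Eu d → ℂ) → Alt (Eu d) (k + 1) := fun h =>
      if hh : ContDiff ℝ ∞ h then
        pullP f κ (Q (adF g C hf hinj himm hrange sp F Kl (compS L.hbm ⟨h, hh⟩ • U))) x else 0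
    have hl : ∀ (h : Eu d → ℂ) (hh : ContDiff ℝ ∞ h), l h =
        pullP f κ (Q (adF g C hf hinj himm hrange sp F Kl (compS L.hbm ⟨h, hh⟩ • U))) x :=
      fun h hh => dif_pos hh
    obtain ⟨A, hA, hA'⟩ := loc_crude hf hinj himm hrange sp hκ hK0 hKt B hF L.hbm Q Kl U
    have hne : (range L.bm).Nonempty := ⟨_, ⟨f (κ.symm x), rfl⟩⟩
    have hder := hasDerivAt_functional_eexp (V := ℂ) l
      (fun a b ha hb => by
        have hab : ContDiff ℝ ∞ (a + b) := ha.add hb
        rw [hl _ hab, hl _ ha, hl _ hb, ← pullP_add, ← map_add, ← map_add, ← add_smul]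
        rfl)
      (fun c a ha => by
        have hca : ContDiff ℝ ∞ (c • a) := contDiff_const.smul ha
        have e1 : compS L.hbm ⟨c • a, hca⟩ • U = c • (compS L.hbm ⟨a, ha⟩ • U) := by
          rw [← smul_assoc]; rfl
        rw [hl _ hca, hl _ ha, e1, map_smul, LinearMap.map_smul_of_tower, pullP_csmul])
      (range L.bm) (isCompact_range L.hbm.continuous) B.M0 (A * (B.M0 + 1))
      (fun h hh b hb => by
        rw [hl _ hh]
        have hb0 : 0 ≤ b := by
          obtain ⟨y, hy⟩ := hne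
          exact (norm_nonneg _).trans (hb 0 (Nat.zero_le _) y hy)
        refine (hA' ⟨h, hh⟩ x hxK).trans ?_
        rw [mul_assoc]
        exact mul_le_mul_of_nonneg_left (csup_le hb0 fun j hj z => hb j hj _ ⟨z, rfl⟩) hA)
      1 ξ j
    have h2 := ((hasDerivAt_eexp_ξ ξ x j).mul_const (φ x)).smul hder
    have e0 : (fun t : ℝ => gen g C hf hinj himm hrange sp L F φ Q Kl U
        x (ξ + t • EuclideanSpace.single j 1)) = fun t : ℝ =>
        (eexp (-(ξ + t • EuclideanSpace.single j 1)) x * φ x) •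
        l (fun x => eexp (ξ + t • EuclideanSpace.single j 1) x • (1 : ℂ)) := by
      funext t
      have e1 : (fun x => eexp (ξ + t • EuclideanSpace.single j 1) x • (1 : ℂ)) =
          eexp (ξ + t • EuclideanSpace.single j 1) := by
        funext y; simp
      rw [e1, hl _ (eexp_contDiff _)]
      rfl
    rw [e0]
    refine h2.congr_deriv ?_
    have e1 : (fun x => eexp (ξ + (0 : ℝ) • EuclideanSpace.single j 1) x • (1 : ℂ)) = eexp ξ := by
      funext y; simp
    have e2 : (fun y : Eu d => (2 * Real.pi * (y j : ℝ) * Complex.I * eexp ξ y : ℂ) • (1 : ℂ)) =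
        fun y : Eu d => (2 * Real.pi * (y j : ℝ) * Complex.I * eexp ξ y : ℂ) := by
      funext y; simp
    have hs : ContDiff ℝ ∞ (fun y : Eu d => (2 * Real.pi * (y j : ℝ) * Complex.I * eexp ξ y : ℂ)) := by
      have h3 : ContDiff ℝ ∞ (fun y : Eu d => ((y j : ℝ) : ℂ)) :=
        (Complex.ofRealCLM.comp (EuclideanSpace.proj j : Eu d →L[ℝ] ℝ)).contDiff
      exact ((contDiff_const.mul h3).mul contDiff_const).mul (eexp_contDiff ξ)
    rw [e2, hl _ hs, e1, hl _ (eexp_contDiff _)]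
    have e3 : compS L.hbm ⟨_, hs⟩ • U = (2 * Real.pi * Complex.I : ℂ) •
        (bS L.hbm j • eU L ξ U) := by
      have : compS L.hbm ⟨_, hs⟩ = (2 * Real.pi * Complex.I : ℂ) •
          (bS L.hbm j * compS L.hbm (eS' ξ.ofLp)) := by
        ext z
        rw [SFun.smul_apply, SFun.mul_apply, compS_val, compS_val, bS_val]
        show 2 * Real.pi * ((L.bm z j : ℝ) : ℂ) * Complex.I * eexp ξ (L.bm z) =
          2 * Real.pi * Complex.I * (((L.bm z j : ℝ) : ℂ) * eexp ξ (L.bm z))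
        ring
      rw [this, smul_assoc, mul_smul (bS L.hbm j)]
      rfl
    rw [e3, map_smul, LinearMap.map_smul_of_tower, pullP_csmul]
    have e4 : compS L.hbm ⟨_, eexp_contDiff ξ⟩ • U = eU L ξ U := rfl
    rw [e4]
    simp only [gen, Pi.mul_apply, zero_smul, add_zero]
    rw [adF_fun, map_sub, LinearMap.map_smul, pullP_sub, pullP_smul, bS_val, L.hb x hxO]
    module

end Loc

end DtN
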