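import Pool.Agent.H14.DtN.Asm6

/-!
MODULE M3, part 7 : the family of symbols.
-/

open scoped Manifold ContDiff Topology ComplexConjugate
open Set MeasureTheory

set_option linter.unusedSectionVars false

noncomputable section

namespace DtN

section Loc

variable {d : ℕ} {Ω : Type*} [TopologicalSpace Ω] [ChartedSpace (EuclideanHalfSpace (d + 1)) Ω]
  [IsManifold (𝓡∂ (d + 1)) ∞ Ω] [CompactSpace Ω] [T2Space Ω]
  (g : Metric (𝓡∂ (d + 1)) Ω) (C : Cover (𝓡∂ (d + 1)) Ω)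
  {S : Type*} [TopologicalSpace S] [ChartedSpace (Eu d) S] [IsManifold (𝓡 d) ∞ S]
  [CompactSpace S] [T2Space S]
  {f : S → Ω}
    (hf : ContMDiff (𝓡 d) (𝓡∂ (d + 1)) ∞ f) (hinj : Function.Injective f)
    (himm : ∀ s, Function.Injective (mfderiv (𝓡 d) (𝓡∂ (d + 1)) f s))
    (hrange : range f = (𝓡∂ (d + 1)).boundary Ω) (sp : Spanning d Ω)
  {κ : OpenPartialHomeomorph S (Eu d)} (hκ : κ ∈ IsManifold.maximalAtlas (𝓡 d) ∞ S)
  {K0 : Set (Eu d)} (hK0 : IsCompact K0) (hKt : K0 ⊆ κ.target) {ψ : Eu d → ℂ}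
  (L : LocData f κ K0 ψ) {k : ℕ}
  {F : SForm (𝓡∂ (d + 1)) Ω (k + 1) →ₗ[ℂ] SForm (𝓡∂ (d + 1)) Ω (k + 1 + 1)}
  (hF : (coreData g C hf hinj himm hrange sp).IsF k F) (B : SupB g C (k + 1))
  (W : Type*) [NormedAddCommGroup W] [NormedSpace ℝ W]

variable (F) in
/-- The generators of order at most `m`. -/
def genSet (m : ℤ) : Set (Eu d → Eu d → W) :=
  {a | ∃ (A : Alt (Eu d) (k + 1) →L[ℝ] W) (φ : Eu d → ℂ)
    (Q : SForm (𝓡∂ (d + 1)) Ω (k + 1 + 1) →ₗ[SFun (𝓡∂ (d + 1)) Ω] SForm (𝓡∂ (d + 1)) Ω (k + 1))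
    (Kl : List (SFun (𝓡∂ (d + 1)) Ω ⊕ {V : VF (𝓡∂ (d + 1)) Ω // TangVF V}))
    (U : SForm (𝓡∂ (d + 1)) Ω (k + 1)), ContDiff ℝ ∞ φ ∧ tsupport φ ⊆ K0 ∧
    U ∈ goodU f κ K0 (k + 1) ∧ (B.M0 : ℤ) - CoreData.beta Kl ≤ m ∧
    a = fun x ξ => A (gen g C hf hinj himm hrange sp L F φ Q Kl U x ξ)}

variable (F) in
/-- The family. -/
def symS (m : ℤ) : AddSubgroup (Eu d → Eu d → W) :=
  AddSubgroup.closure (genSet g C hf hinj himm hrange sp L F B W m)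

theorem beta_inr (V : {V : VF (𝓡∂ (d + 1)) Ω // TangVF V})
    (Kl : List (SFun (𝓡∂ (d + 1)) Ω ⊕ {V : VF (𝓡∂ (d + 1)) Ω // TangVF V})) :
    CoreData.beta (Sum.inr V :: Kl) = CoreData.beta Kl := by
  simp [CoreData.beta]

theorem beta_inl (b : SFun (𝓡∂ (d + 1)) Ω)
    (Kl : List (SFun (𝓡∂ (d + 1)) Ω ⊕ {V : VF (𝓡∂ (d + 1)) Ω // TangVF V})) :
    CoreData.beta (Sum.inl b :: Kl) = CoreData.beta Kl + 1 := by
  simp [CoreData.beta]

include hF hκ hK0 hKt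

theorem gen_bound {φ : Eu d → ℂ} (hφ : ContDiff ℝ ∞ φ) (hφs : tsupport φ ⊆ K0)
    (Q : SForm (𝓡∂ (d + 1)) Ω (k + 1 + 1) →ₗ[SFun (𝓡∂ (d + 1)) Ω] SForm (𝓡∂ (d + 1)) Ω (k + 1))
    (Kl : List (SFun (𝓡∂ (d + 1)) Ω ⊕ {V : VF (𝓡∂ (d + 1)) Ω // TangVF V}))
    {U : SForm (𝓡∂ (d + 1)) Ω (k + 1)} (hU : U ∈ goodU f κ K0 (k + 1)) {m : ℤ}
    (hm : (B.M0 : ℤ) - CoreData.beta Kl ≤ m) :
    ∃ A : ℝ, 0 ≤ A ∧ ∀ x ξ, ‖gen g C hf hinj himm hrange sp L F φ Q Kl U x ξ‖ ≤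
      A * (1 + ‖ξ‖) ^ m := by
  obtain ⟨A, hA, hA'⟩ := loc_sharp hf hinj himm hrange sp hκ hK0 hKt B hF L Q Kl hU
  have hcs : HasCompactSupport φ := hK0.of_isClosed_subset (isClosed_tsupport φ) hφs
  obtain ⟨c, hc⟩ := hφ.continuous.bounded_above_of_compact_support hcs
  refine ⟨|c| * (A * (d + 1) ^ CoreData.beta Kl), by positivity, fun x ξ => ?_⟩
  by_cases hx : x ∈ K0
  · have h1 := hA' ξ.ofLp x hx
    have ha1 : (1 : ℝ) ≤ 1 + ‖ξ.ofLp‖ := le_add_of_nonneg_right (norm_nonneg _)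
    have hb1 : (1 : ℝ) ≤ 1 + ‖ξ‖ := le_add_of_nonneg_right (norm_nonneg _)
    have hab : 1 + ‖ξ.ofLp‖ ≤ 1 + ‖ξ‖ := by
      have : ‖ξ.ofLp‖ ≤ ‖ξ‖ := by
        rw [pi_norm_le_iff_of_nonneg (norm_nonneg _)]
        exact fun i => PiLp.norm_apply_le ξ i
      linarith
    have hba : 1 + ‖ξ‖ ≤ (d + 1) * (1 + ‖ξ.ofLp‖) := by
      have h2 := norm_toLp_le (d := d) ξ.ofLp
      have h3 : (WithLp.toLp 2 ξ.ofLp : Eu d) = ξ := rfl
      rw [h3] at h2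
      have h4 : (0 : ℝ) ≤ d := Nat.cast_nonneg d
      nlinarith
    set P := ‖pullP f κ (Q (adF g C hf hinj himm hrange sp F Kl (eU L ξ U))) x‖ with hP
    have hP0 : 0 ≤ P := norm_nonneg _
    have h1' : (1 + ‖ξ.ofLp‖) ^ CoreData.beta Kl * P ≤ A * (1 + ‖ξ.ofLp‖) ^ B.M0 := h1
    have h5 : (1 + ‖ξ‖) ^ CoreData.beta Kl * P ≤
        (A * (d + 1) ^ CoreData.beta Kl) * (1 + ‖ξ‖) ^ B.M0 := by
      calc (1 + ‖ξ‖) ^ CoreData.beta Kl * P
          ≤ ((d + 1) * (1 + ‖ξ.ofLp‖)) ^ CoreData.beta Kl * P :=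
            mul_le_mul_of_nonneg_right (pow_le_pow_left₀ (by linarith) hba _) hP0
        _ = (d + 1) ^ CoreData.beta Kl * ((1 + ‖ξ.ofLp‖) ^ CoreData.beta Kl * P) := by
            rw [mul_pow]; ring
        _ ≤ (d + 1) ^ CoreData.beta Kl * (A * (1 + ‖ξ.ofLp‖) ^ B.M0) :=
            mul_le_mul_of_nonneg_left h1' (by positivity)
        _ ≤ (d + 1) ^ CoreData.beta Kl * (A * (1 + ‖ξ‖) ^ B.M0) := by
            refine mul_le_mul_of_nonneg_left ?_ (by positivity)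
            exact mul_le_mul_of_nonneg_left (pow_le_pow_left₀ (by linarith) hab _) hA
        _ = _ := by ring
    have hb0 : (0 : ℝ) < 1 + ‖ξ‖ := by linarith
    have h6 : P ≤ (A * (d + 1) ^ CoreData.beta Kl) * (1 + ‖ξ‖) ^ m := by
      have h7 : (1 + ‖ξ‖) ^ ((B.M0 : ℤ) - CoreData.beta Kl) ≤ (1 + ‖ξ‖) ^ m :=
        zpow_le_zpow_right₀ hb1 hm
      have h8 : P ≤ (A * (d + 1) ^ CoreData.beta Kl) *
          (1 + ‖ξ‖) ^ ((B.M0 : ℤ) - CoreData.beta Kl) := by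
        rw [zpow_sub₀ hb0.ne', zpow_natCast, zpow_natCast, ← mul_div_assoc,
          le_div_iff₀ (by positivity), mul_comm P]
        exact h5
      exact h8.trans (mul_le_mul_of_nonneg_left h7 (by positivity))
    have h9 : ‖gen g C hf hinj himm hrange sp L F φ Q Kl U x ξ‖ = ‖φ x‖ * P := by
      unfold gen
      rw [norm_smul, norm_mul, norm_eexp, one_mul]
    rw [h9, mul_assoc]
    exact mul_le_mul ((hc x).trans (le_abs_self c)) h6 hP0 (abs_nonneg _)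
  · have hx0 : φ x = 0 := by
      by_contra h
      exact hx (hφs (subset_tsupport _ h))
    have : gen g C hf hinj himm hrange sp L F φ Q Kl U x ξ = 0 := by
      simp only [gen, hx0, mul_zero, alt_zero_smul]
    rw [this, norm_zero]
    positivity

theorem symS_isSymbol {m : ℤ} {a : Eu d → Eu d → W}
    (ha : a ∈ symS g C hf hinj himm hrange sp L F B W m) : IsSymbol (m : ℝ) a := by
  have hcl : IsClosed (κ.symm '' K0) := isClosed_symm_image hK0 hKt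
  refine isSymbol_of_family (symS g C hf hinj himm hrange sp L F B W) ?_ ?_ ?_ ha
  · intro m a ha
    refine AddSubgroup.closure_induction
      (p := fun a _ => ∃ c : ℝ, ∀ x ξ, ‖a x ξ‖ ≤ c * (1 + ‖ξ‖) ^ m) ?_ ?_ ?_ ?_ ha
    · rintro _ ⟨A, φ, Q, Kl, U, h1, h2, h3, h4, rfl⟩
      obtain ⟨c, -, hc⟩ := gen_bound g C hf hinj himm hrange sp hκ hK0 hKt L hF B h1 h2 Q Kl h3 h4
      refine ⟨‖A‖ * c, fun x ξ => (A.le_opNorm _).trans ?_⟩
      rw [mul_assoc]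
      exact mul_le_mul_of_nonneg_left (hc x ξ) (norm_nonneg _)
    · exact ⟨0, fun x ξ => by simp⟩
    · rintro a b - - ⟨c, hc⟩ ⟨c', hc'⟩
      refine ⟨c + c', fun x ξ => (norm_add_le _ _).trans ?_⟩
      rw [add_mul]
      exact add_le_add (hc x ξ) (hc' x ξ)
    · rintro a - ⟨c, hc⟩
      exact ⟨c, fun x ξ => by
        show ‖-(a x ξ)‖ ≤ _
        rw [norm_neg]; exact hc x ξ⟩
  · intro m a ha j
    refine AddSubgroup.closure_induction
      (p := fun a _ => ∃ a' ∈ symS g C hf hinj himm hrange sp L F B W m, ∀ x ξ,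
        HasDerivAt (fun t : ℝ => a (x + t • EuclideanSpace.single j 1) ξ) (a' x ξ) 0)
      ?_ ?_ ?_ ?_ ha
    · rintro _ ⟨A, φ, Q, Kl, U, h1, h2, h3, h4, rfl⟩
      have hφ' : ContDiff ℝ ∞ (fun y => fderiv ℝ φ y (ev j)) :=
        (h1.fderiv_right (m := ∞) (by simp)).clm_apply contDiff_const
      have hφs' : tsupport (fun y => fderiv ℝ φ y (ev j)) ⊆ K0 := by
        refine (closure_minimal ?_ (isClosed_tsupport φ)).trans h2
        intro y hy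
        refine support_fderiv_subset ℝ (f := φ) ?_
        intro h0
        exact hy (by simp only [h0, ContinuousLinearMap.zero_apply])
      refine ⟨fun x ξ => A (gen g C hf hinj himm hrange sp L F
          (fun y => fderiv ℝ φ y (ev j)) Q Kl U x ξ) +
        A (gen g C hf hinj himm hrange sp L F φ (commQ (L.V j).1 Q) Kl U x ξ) +
        A (gen g C hf hinj himm hrange sp L F φ Q (Sum.inr (L.V j) :: Kl) U x ξ) +
        A (gen g C hf hinj himm hrange sp L F φ Q Kl (Lie (L.V j).1 U) x ξ), ?_, fun x ξ => ?_⟩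
      · refine AddSubgroup.add_mem _ (AddSubgroup.add_mem _ (AddSubgroup.add_mem _ ?_ ?_) ?_) ?_
        · exact AddSubgroup.subset_closure ⟨A, _, Q, Kl, U, hφ', hφs', h3, h4, rfl⟩
        · exact AddSubgroup.subset_closure ⟨A, φ, _, Kl, U, h1, h2, h3, h4, rfl⟩
        · refine AddSubgroup.subset_closure ⟨A, φ, Q, _, U, h1, h2, h3, ?_, rfl⟩
          rw [beta_inr]; exact h4
        · exact AddSubgroup.subset_closure ⟨A, φ, Q, Kl, _, h1, h2,
            goodU_Lie hf hinj himm hrange hcl (L.V j).2 h3, h4, rfl⟩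
      · have h5 := hasDerivAt_gen_x g C hf hinj himm hrange sp hκ L hF h1 h2 Q Kl h3 j x ξ
        have h6 := A.hasFDerivAt.comp_hasDerivAt (0 : ℝ) h5
        refine h6.congr_deriv ?_
        rw [map_add, map_add, map_add]
    · exact ⟨0, AddSubgroup.zero_mem _, fun x ξ => hasDerivAt_const _ _⟩
    · rintro a b - - ⟨a', ha', h1⟩ ⟨b', hb', h2⟩
      exact ⟨a' + b', AddSubgroup.add_mem _ ha' hb', fun x ξ => (h1 x ξ).add (h2 x ξ)⟩
    · rintro a - ⟨a', ha', h1⟩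
      exact ⟨-a', AddSubgroup.neg_mem _ ha', fun x ξ => (h1 x ξ).neg⟩
  · intro m a ha j
    refine AddSubgroup.closure_induction
      (p := fun a _ => ∃ a' ∈ symS g C hf hinj himm hrange sp L F B W (m - 1), ∀ x ξ,
        HasDerivAt (fun t : ℝ => a x (ξ + t • EuclideanSpace.single j 1)) (a' x ξ) 0)
      ?_ ?_ ?_ ?_ ha
    · rintro _ ⟨A, φ, Q, Kl, U, h1, h2, h3, h4, rfl⟩
      let c : ℂ := -(2 * Real.pi * Complex.I)
      let A' : Alt (Eu d) (k + 1) →L[ℝ] W := A.comp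
        ((c • ContinuousLinearMap.id ℂ (Alt (Eu d) (k + 1))).restrictScalars ℝ)
      refine ⟨fun x ξ => A' (gen g C hf hinj himm hrange sp L F φ Q
        (Sum.inl (bS L.hbm j) :: Kl) U x ξ), ?_, fun x ξ => ?_⟩
      · refine AddSubgroup.subset_closure ⟨A', φ, Q, _, U, h1, h2, h3, ?_, rfl⟩
        rw [beta_inl]; push_cast; linarith
      · have h5 := hasDerivAt_gen_ξ g C hf hinj himm hrange sp hκ hK0 hKt L hF B h2 Q Kl U j x ξ
        exact A.hasFDerivAt.comp_hasDerivAt (0 : ℝ) h5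
    · exact ⟨0, AddSubgroup.zero_mem _, fun x ξ => hasDerivAt_const _ _⟩
    · rintro a b - - ⟨a', ha', h1⟩ ⟨b', hb', h2⟩
      exact ⟨a' + b', AddSubgroup.add_mem _ ha' hb', fun x ξ => (h1 x ξ).add (h2 x ξ)⟩
    · rintro a - ⟨a', ha', h1⟩
      exact ⟨-a', AddSubgroup.neg_mem _ ha', fun x ξ => (h1 x ξ).neg⟩

end Loc

end DtN
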