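import Pool.Agent.H14.DtN.Asm7

/-!
MODULE M3, part 8 : the final theorem.
-/

open scoped Manifold ContDiff Topology ComplexConjugate FourierTransform
open Set MeasureTheory

set_option linter.unusedSectionVars false

noncomputable section

namespace DtN

section Loc

variable {d : ℕ} {Ω : Type*} [TopologicalSpace Ω] [ChartedSpace (EuclideanHalfSpace (d + 1)) Ω]
  [IsManifold (𝓡∂ (d + 1)) ∞ Ω] [CompactSpace Ω] [T2Space Ω]
  {S : Type*} [TopologicalSpace S] [ChartedSpace (Eu d) S] [IsManifold (𝓡 d) ∞ S]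
  [CompactSpace S] [T2Space S]
  {f : S → Ω}
    (hf : ContMDiff (𝓡 d) (𝓡∂ (d + 1)) ∞ f) (hinj : Function.Injective f)
    (himm : ∀ s, Function.Injective (mfderiv (𝓡 d) (𝓡∂ (d + 1)) f s))
    (hrange : range f = (𝓡∂ (d + 1)).boundary Ω)
  {κ : OpenPartialHomeomorph S (Eu d)} (hκ : κ ∈ IsManifold.maximalAtlas (𝓡 d) ∞ S)
  {φ ψ : Eu d → ℂ} (L : LocData f κ (tsupport φ ∪ tsupport ψ) ψ) {k : ℕ}

/-- the constant form `θ` on `ℝ ^ d` -/
def constForm {q : ℕ} (θ : Alt (Eu d) q) : SForm 𝓘(ℝ, Eu d) (Eu d) q :=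
  ⟨fun _ => θ, fun x₀ => by rw [rep_model]; exact contDiffOn_const⟩

/-- extension to `Ω` of `κ^*(ψ θ)` -/
def extU {q : ℕ} (θ : Alt (Eu d) q) : SForm (𝓡∂ (d + 1)) Ω q :=
  L.ψh • pullS L.bm L.hbm (constForm θ)

theorem extU_pull_apply {q : ℕ} (θ : Alt (Eu d) q) (s : S) (v : Fin q → Eu d) :
    pull (𝓡∂ (d + 1)) (𝓡 d) f (extU L θ).val s v = zext κ ψ s *
      θ (fun l => mfderiv (𝓡∂ (d + 1)) 𝓘(ℝ, Eu d) L.bm (f s)
        (mfderiv (𝓡 d) (𝓡∂ (d + 1)) f s (v l))) := by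
  rw [← L.hψh]
  rfl

theorem chartPull_of_notMem {q : ℕ} (u : Eu d → Alt (Eu d) q) {s : S} (hs : s ∉ κ.source) :
    chartPull κ ψ u s = 0 := by
  unfold chartPull
  exact if_neg hs

theorem chartPull_of_mem {q : ℕ} (u : Eu d → Alt (Eu d) q) {s : S} (hs : s ∈ κ.source) :
    chartPull κ ψ u s =
      (ψ (κ s) • u (κ s)).compContinuousLinearMap (mfderiv (𝓡 d) 𝓘(ℝ, Eu d) κ s) := by
  unfold chartPull
  exact if_pos hs

theorem chartPull_eq_zero {q : ℕ} (u : Eu d → Alt (Eu d) q) {s : S}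
    (hs : s ∉ κ.symm '' (tsupport φ ∪ tsupport ψ)) : chartPull κ ψ u s = 0 := by
  by_cases hsr : s ∈ κ.source
  · rw [chartPull_of_mem u hsr]
    have h0 : ψ (κ s) = 0 := by
      by_contra h
      exact hs ⟨κ s, Or.inr (subset_tsupport _ h), κ.left_inv hsr⟩
    rw [h0, alt_zero_smul]
    rfl
  · exact chartPull_of_notMem u hsr

include hf hκ

theorem extU_pull {q : ℕ} (θ : Alt (Eu d) q) (s : S) :
    pull (𝓡∂ (d + 1)) (𝓡 d) f (extU L θ).val s = chartPull κ ψ (fun _ => θ) s := by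
  by_cases hsr : s ∈ κ.source
  · rw [chartPull_of_mem _ hsr]
    refine ContinuousAlternatingMap.ext fun (v : Fin q → Eu d) => ?_
    rw [extU_pull_apply, zext_of_mem hsr]
    show ψ (κ s) * _ = ψ (κ s) * θ (fun l => mfderiv (𝓡 d) 𝓘(ℝ, Eu d) κ s (v l))
    by_cases h0 : ψ (κ s) = 0
    · rw [h0, zero_mul, zero_mul]
    · have hO : κ s ∈ L.O := L.hKO (Or.inr (subset_tsupport _ h0))
      have h2 : (L.bm ∘ f) =ᶠ[𝓝 s] κ := by
        have h3 : κ ⁻¹' L.O ∩ κ.source ∈ 𝓝 s :=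
          Filter.inter_mem ((κ.continuousAt hsr).preimage_mem_nhds (L.hO.mem_nhds hO))
            (κ.open_source.mem_nhds hsr)
        filter_upwards [h3] with s' hs'
        have h5 := L.hb (κ s') hs'.1
        rw [κ.left_inv hs'.2] at h5
        exact h5
      have h6 := mfderiv_comp s (L.hbm.mdifferentiableAt (by simp))
          (hf.mdifferentiableAt (by simp)) (g := L.bm) (f := f) (I := 𝓡 d) (I' := 𝓡∂ (d + 1))
          (I'' := 𝓘(ℝ, Eu d))
      rw [h2.mfderiv_eq] at h6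
      congr 2
      funext l
      exact (congrArg (fun A => A (v l)) h6).symm
  · rw [chartPull_of_notMem _ hsr]
    refine ContinuousAlternatingMap.ext fun (v : Fin q → Eu d) => ?_
    rw [extU_pull_apply]
    unfold zext
    rw [if_neg hsr, zero_mul]
    rfl

theorem extU_mem {q : ℕ} (θ : Alt (Eu d) q) :
    extU L θ ∈ goodU f κ (tsupport φ ∪ tsupport ψ) q := by
  intro s hs
  rw [extU_pull hf hκ L θ s]
  exact chartPull_eq_zero _ hs

/-- a form on `Ω` extending `κ^*(ψ h)` -/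
def uOf {q n : ℕ} (θ : Module.Basis (Fin n) ℂ (Alt (Eu d) q)) (c : Fin n → Alt (Eu d) q →L[ℂ] ℂ)
    (h : Eu d → Alt (Eu d) q) (hh : ContDiff ℝ ∞ h) : SForm (𝓡∂ (d + 1)) Ω q :=
  ∑ l, compS L.hbm ⟨fun y => c l (h y), ((c l).restrictScalars ℝ).contDiff.comp hh⟩ • extU L (θ l)

omit hκ hf in
theorem pull_sum {q : ℕ} {ι : Type*} (t : Finset ι) (w : ι → SForm (𝓡∂ (d + 1)) Ω q) (s : S) :
    pull (𝓡∂ (d + 1)) (𝓡 d) f (∑ i ∈ t, w i).val s =
      ∑ i ∈ t, pull (𝓡∂ (d + 1)) (𝓡 d) f (w i).val s := by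
  let P : SForm (𝓡∂ (d + 1)) Ω q →+ Alt (Eu d) q :=
    { toFun := fun w => pull (𝓡∂ (d + 1)) (𝓡 d) f w.val s
      map_zero' := rfl
      map_add' := fun _ _ => rfl }
  exact map_sum P w t

theorem uOf_pull {q n : ℕ} (θ : Module.Basis (Fin n) ℂ (Alt (Eu d) q))
    (c : Fin n → Alt (Eu d) q →L[ℂ] ℂ) (hc : ∀ l w, c l w = θ.coord l w)
    (h : Eu d → Alt (Eu d) q) (hh : ContDiff ℝ ∞ h) :
    pull (𝓡∂ (d + 1)) (𝓡 d) f (uOf L θ c h hh).val = chartPull κ ψ h := by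
  funext s
  rw [uOf, pull_sum]
  have h1 : ∀ l, pull (𝓡∂ (d + 1)) (𝓡 d) f (compS L.hbm ⟨fun y => c l (h y),
      ((c l).restrictScalars ℝ).contDiff.comp hh⟩ • extU L (θ l)).val s =
      c l (h (L.bm (f s))) • chartPull κ ψ (fun _ => θ l) s := fun l => by
    rw [← extU_pull hf hκ L (θ l) s]
    rfl
  rw [Finset.sum_congr rfl fun l _ => h1 l]
  by_cases hsr : s ∈ κ.source
  · rw [chartPull_of_mem h hsr]
    by_cases h0 : ψ (κ s) = 0
    · rw [h0, alt_zero_smul]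
      refine (Finset.sum_eq_zero fun l _ => ?_).trans rfl
      rw [chartPull_of_mem _ hsr, h0, alt_zero_smul]
      exact alt_smul_zero _
    · have hb : L.bm (f s) = κ s := by
        have h5 := L.hb (κ s) (L.hKO (Or.inr (subset_tsupport _ h0)))
        rwa [κ.left_inv hsr] at h5
      rw [hb]
      have h5 : (∑ l, c l (h (κ s)) • θ l) = h (κ s) := by
        simp only [hc]
        exact θ.sum_repr _
      conv_rhs => rw [← h5]
      rw [Finset.smul_sum]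
      have h6 : ∀ l, c l (h (κ s)) • chartPull κ ψ (fun _ => θ l) s =
          (ψ (κ s) • c l (h (κ s)) • θ l).compContinuousLinearMap
            (mfderiv (𝓡 d) 𝓘(ℝ, Eu d) κ s) := fun l => by
        rw [chartPull_of_mem _ hsr, smul_comm]
        rfl
      rw [Finset.sum_congr rfl fun l _ => h6 l]
      let P : Alt (Eu d) q →+ Alt (Eu d) q :=
        { toFun := fun w => w.compContinuousLinearMap (mfderiv (𝓡 d) 𝓘(ℝ, Eu d) κ s)
          map_zero' := rfl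
          map_add' := fun _ _ => rfl }
      exact (map_sum P (fun l => ψ (κ s) • c l (h (κ s)) • θ l) Finset.univ).symm
  · rw [chartPull_of_notMem _ hsr]
    refine Finset.sum_eq_zero fun l _ => ?_
    rw [chartPull_of_notMem _ hsr]
    exact alt_smul_zero _

omit hκ hf in
theorem uOf_add {q n : ℕ} (θ : Module.Basis (Fin n) ℂ (Alt (Eu d) q))
    (c : Fin n → Alt (Eu d) q →L[ℂ] ℂ) (a b : Eu d → Alt (Eu d) q) (ha : ContDiff ℝ ∞ a)
    (hb : ContDiff ℝ ∞ b) (hab : ContDiff ℝ ∞ (a + b)) :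
    uOf L θ c (a + b) hab = uOf L θ c a ha + uOf L θ c b hb := by
  unfold uOf
  rw [← Finset.sum_add_distrib]
  refine Finset.sum_congr rfl fun l _ => ?_
  rw [← add_smul]
  congr 1
  ext z
  exact map_add (c l) _ _

omit hκ hf in
theorem uOf_smul {q n : ℕ} (θ : Module.Basis (Fin n) ℂ (Alt (Eu d) q))
    (c : Fin n → Alt (Eu d) q →L[ℂ] ℂ) (r : ℂ) (a : Eu d → Alt (Eu d) q) (ha : ContDiff ℝ ∞ a)
    (hab : ContDiff ℝ ∞ (r • a)) :
    uOf L θ c (r • a) hab = r • uOf L θ c a ha := by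
  unfold uOf
  rw [Finset.smul_sum]
  refine Finset.sum_congr rfl fun l _ => ?_
  rw [← smul_assoc]
  congr 1
  ext z
  exact map_smul (c l) _ _

omit hκ hf in
theorem uOf_eexp {q n : ℕ} (θ : Module.Basis (Fin n) ℂ (Alt (Eu d) q))
    (c : Fin n → Alt (Eu d) q →L[ℂ] ℂ) (ξ : Eu d) (v : Alt (Eu d) q)
    (h : ContDiff ℝ ∞ (fun y => eexp ξ y • v)) :
    uOf L θ c (fun y => eexp ξ y • v) h =
      ∑ l, c l v • (compS L.hbm (eS' ξ.ofLp) • extU L (θ l)) := by
  unfold uOf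
  refine Finset.sum_congr rfl fun l _ => ?_
  rw [← smul_assoc]
  congr 1
  ext z
  exact (map_smul (c l) (eexp ξ (L.bm z)) v).trans (mul_comm _ _)

end Loc

end DtN
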