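import Pool.Agent.H14.DtN.Asm8

/-!
MODULE M3, part 9 : the symbol of the operator.
-/

open scoped Manifold ContDiff Topology ComplexConjugate FourierTransform
open Set MeasureTheory

set_option linter.unusedSectionVars false

noncomputable section

namespace DtN

section Loc

variable {d : ℕ} {Ω : Type*} [TopologicalSpace Ω] [ChartedSpace (EuclideanHalfSpace (d + 1)) Ω]
  [IsManifold (𝓡∂ (d + 1)) ∞ Ω] [CompactSpace Ω] [T2Space Ω]
  (g : Metric (𝓡∂ (d + 1)) Ω) (C : Cover (𝓡∂ (d + 1)) Ω)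
  {S : Type*} [TopologicalSpace S] [ChartedSpace (Eu d) S] [IsManifold (𝓡 d) ∞ S]
  [CompactSpace S] [T2Space S]
  {f : S → Ω}
    (hf : ContMDiff (𝓡 d) (𝓡∂ (d + 1)) ∞ f) (hinj : Function.Injective f)
    (himm : ∀ s, Function.Injective (mfderiv (𝓡 d) (𝓡∂ (d + 1)) f s))
    (hrange : range f = (𝓡∂ (d + 1)).boundary Ω) (sp : Spanning d Ω)
  {κ : OpenPartialHomeomorph S (Eu d)} (hκ : κ ∈ IsManifold.maximalAtlas (𝓡 d) ∞ S)
  {φ ψ : Eu d → ℂ} (hφ : IsCutoff κ.target φ) (hψ : IsCutoff κ.target ψ)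
  (L : LocData f κ (tsupport φ ∪ tsupport ψ) ψ) {k : ℕ}
  {F : SForm (𝓡∂ (d + 1)) Ω (k + 1) →ₗ[ℂ] SForm (𝓡∂ (d + 1)) Ω (k + 1 + 1)}
  (hF : (coreData g C hf hinj himm hrange sp).IsF k F) (B : SupB g C (k + 1))
  (N : VF (𝓡∂ (d + 1)) Ω)

variable (F) in
open Classical in
/-- The functional `h ↦ φ(x) (T κ^*(ψ h))(x)`. -/
def lfun {n : ℕ} (θ : Module.Basis (Fin n) ℂ (Alt (Eu d) (k + 1)))
    (c : Fin n → Alt (Eu d) (k + 1) →L[ℂ] ℂ) (x : Eu d) (h : Eu d → Alt (Eu d) (k + 1)) :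
    Alt (Eu d) (k + 1) :=
  if hh : ContDiff ℝ ∞ h then φ x • pullP f κ (iotaS N (F (uOf L θ c h hh))) x else 0

theorem lfun_eq {n : ℕ} (θ : Module.Basis (Fin n) ℂ (Alt (Eu d) (k + 1)))
    (c : Fin n → Alt (Eu d) (k + 1) →L[ℂ] ℂ) (x : Eu d) {h : Eu d → Alt (Eu d) (k + 1)}
    (hh : ContDiff ℝ ∞ h) :
    lfun L F N θ c x h = φ x • pullP f κ (iotaS N (F (uOf L θ c h hh))) x := by
  unfold lfun
  exact dif_pos hh

theorem lfun_add {n : ℕ} (θ : Module.Basis (Fin n) ℂ (Alt (Eu d) (k + 1)))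
    (c : Fin n → Alt (Eu d) (k + 1) →L[ℂ] ℂ) (x : Eu d) (a b : Eu d → Alt (Eu d) (k + 1))
    (ha : ContDiff ℝ ∞ a) (hb : ContDiff ℝ ∞ b) :
    lfun L F N θ c x (a + b) = lfun L F N θ c x a + lfun L F N θ c x b := by
  have hab : ContDiff ℝ ∞ (a + b) := ha.add hb
  rw [lfun_eq L N θ c x hab, lfun_eq L N θ c x ha, lfun_eq L N θ c x hb,
    uOf_add L θ c a b ha hb, map_add, map_add, pullP_add]
  exact smul_add (A := Alt (Eu d) (k + 1)) _ _ _

theorem lfun_smul {n : ℕ} (θ : Module.Basis (Fin n) ℂ (Alt (Eu d) (k + 1)))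
    (c : Fin n → Alt (Eu d) (k + 1) →L[ℂ] ℂ) (x : Eu d) (r : ℂ) (a : Eu d → Alt (Eu d) (k + 1))
    (ha : ContDiff ℝ ∞ a) :
    lfun L F N θ c x (r • a) = r • lfun L F N θ c x a := by
  have h1 : ContDiff ℝ ∞ (r • a) := contDiff_const.smul ha
  rw [lfun_eq L N θ c x h1, lfun_eq L N θ c x ha,
    uOf_smul L θ c r a ha, map_smul, LinearMap.map_smul_of_tower, pullP_csmul, smul_comm]

/-- The symbol. -/
def asym {n : ℕ} (θ : Module.Basis (Fin n) ℂ (Alt (Eu d) (k + 1)))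
    (c : Fin n → Alt (Eu d) (k + 1) →L[ℂ] ℂ) (F : SForm (𝓡∂ (d + 1)) Ω (k + 1) →ₗ[ℂ]
      SForm (𝓡∂ (d + 1)) Ω (k + 1 + 1)) (x ξ : Eu d) :
    Alt (Eu d) (k + 1) →L[ℂ] Alt (Eu d) (k + 1) :=
  ∑ l, (c l).smulRight (gen g C hf hinj himm hrange sp L F φ (iotaS N) [] (extU L (θ l)) x ξ)

theorem asym_apply {n : ℕ} (θ : Module.Basis (Fin n) ℂ (Alt (Eu d) (k + 1)))
    (c : Fin n → Alt (Eu d) (k + 1) →L[ℂ] ℂ) (x ξ : Eu d) (v : Alt (Eu d) (k + 1)) :
    asym g C hf hinj himm hrange sp L N θ c F x ξ v =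
      ∑ l, c l v • gen g C hf hinj himm hrange sp L F φ (iotaS N) [] (extU L (θ l)) x ξ := by
  unfold asym
  rw [_root_.sum_apply]
  rfl

theorem lfun_eexp {n : ℕ} (θ : Module.Basis (Fin n) ℂ (Alt (Eu d) (k + 1)))
    (c : Fin n → Alt (Eu d) (k + 1) →L[ℂ] ℂ) (x ξ : Eu d) (v : Alt (Eu d) (k + 1)) :
    lfun L F N θ c x (fun y => eexp ξ y • v) =
      eexp ξ x • asym g C hf hinj himm hrange sp L N θ c F x ξ v := by
  have hs : ContDiff ℝ ∞ (fun y => eexp ξ y • v) := (eexp_contDiff ξ).smul contDiff_const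
  rw [lfun_eq L N θ c x hs, uOf_eexp L θ c ξ v hs, asym_apply, map_sum, map_sum, pullP_sum,
    Finset.smul_sum, Finset.smul_sum]
  refine Finset.sum_congr rfl fun l _ => ?_
  rw [map_smul, LinearMap.map_smul_of_tower, pullP_csmul]
  unfold gen
  have h1 : adF g C hf hinj himm hrange sp F [] (eU L ξ (extU L (θ l))) =
      F (compS L.hbm (eS' ξ.ofLp) • extU L (θ l)) := rfl
  rw [h1, smul_comm (eexp ξ x) (c l v), smul_smul (eexp ξ x), ← mul_assoc, eexp_neg_mul, one_mul,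
    smul_comm]

theorem sum_mem_symS {K0 : Set (Eu d)} {ψ : Eu d → ℂ} (L : LocData f κ K0 ψ)
    (B : SupB g C (k + 1)) (W : Type*) [NormedAddCommGroup W] [NormedSpace ℝ W]
    {n : ℕ} {a : Fin n → Eu d → Eu d → W} {m : ℤ}
    (h : ∀ l, a l ∈ symS g C hf hinj himm hrange sp L F B W m) :
    (fun x ξ => ∑ l, a l x ξ) ∈ symS g C hf hinj himm hrange sp L F B W m := by
  have h1 : (fun x ξ => ∑ l, a l x ξ) = ∑ l, a l := by
    funext x ξ
    rw [Finset.sum_apply, Finset.sum_apply]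
  rw [h1]
  exact AddSubgroup.sum_mem _ fun l _ => h l

include hκ hφ hψ hF

theorem lfun_bound {n : ℕ} (θ : Module.Basis (Fin n) ℂ (Alt (Eu d) (k + 1)))
    (c : Fin n → Alt (Eu d) (k + 1) →L[ℂ] ℂ) (x : Eu d) :
    ∃ A : ℝ, ∀ h : Eu d → Alt (Eu d) (k + 1), ContDiff ℝ ∞ h → ∀ b : ℝ,
      (∀ j ≤ B.M0, ∀ y ∈ range L.bm, ‖iteratedFDeriv ℝ j h y‖ ≤ b) →
      ‖lfun L F N θ c x h‖ ≤ A * b := by
  have hK0 : IsCompact (tsupport φ ∪ tsupport ψ) := hφ.2.1.isCompact.union hψ.2.1.isCompact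
  have hKt : tsupport φ ∪ tsupport ψ ⊆ κ.target := union_subset hφ.2.2 hψ.2.2
  by_cases hx : φ x = 0
  · refine ⟨0, fun h hh b _ => ?_⟩
    rw [lfun_eq L N θ c x hh, hx, alt_zero_smul, norm_zero, zero_mul]
  · have hxK : x ∈ tsupport φ ∪ tsupport ψ := Or.inl (subset_tsupport _ hx)
    have hne : (range L.bm).Nonempty := ⟨_, ⟨f (κ.symm x), rfl⟩⟩
    choose A hA hA' using fun l => loc_crude hf hinj himm hrange sp hκ hK0 hKt B hF L.hbm
      (iotaS N) [] (extU L (θ l))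
    refine ⟨‖φ x‖ * ∑ l, A l * ((B.M0 + 1) * ‖c l‖), fun h hh b hb => ?_⟩
    have hb0 : 0 ≤ b := by
      obtain ⟨y, hy⟩ := hne
      exact (norm_nonneg _).trans (hb 0 (Nat.zero_le _) y hy)
    rw [lfun_eq L N θ c x hh, norm_smul, mul_assoc]
    refine mul_le_mul_of_nonneg_left ?_ (norm_nonneg _)
    rw [uOf, map_sum, map_sum, pullP_sum, Finset.sum_mul]
    refine (norm_sum_le _ _).trans (Finset.sum_le_sum fun l _ => ?_)
    have hs : ContDiff ℝ ∞ (fun y => c l (h y)) := ((c l).restrictScalars ℝ).contDiff.comp hh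
    have h1 := hA' l ⟨fun y => c l (h y), hs⟩ x hxK
    refine le_trans h1 ?_
    rw [mul_assoc]
    refine mul_le_mul_of_nonneg_left ?_ (hA l)
    rw [mul_assoc]
    refine csup_le (by positivity) fun j hj z => ?_
    have h2 := ContinuousLinearMap.norm_iteratedFDeriv_comp_left ((c l).restrictScalars ℝ)
      (f := h) (x := L.bm z) (n := j) hh.contDiffAt (by exact_mod_cast le_top)
    have h3 : ‖(c l).restrictScalars ℝ‖ = ‖c l‖ := ContinuousLinearMap.norm_restrictScalars _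
    rw [h3] at h2
    exact h2.trans (mul_le_mul_of_nonneg_left (hb j hj _ ⟨z, rfl⟩) (c l).opNorm_nonneg)

theorem asym_isSymbol {n : ℕ} (θ : Module.Basis (Fin n) ℂ (Alt (Eu d) (k + 1)))
    (c : Fin n → Alt (Eu d) (k + 1) →L[ℂ] ℂ) :
    IsSymbol (B.M0 : ℝ) (asym g C hf hinj himm hrange sp L N θ c F) := by
  have hK0 : IsCompact (tsupport φ ∪ tsupport ψ) := hφ.2.1.isCompact.union hψ.2.1.isCompact
  have hKt : tsupport φ ∪ tsupport ψ ⊆ κ.target := union_subset hφ.2.2 hψ.2.2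
  have hmem : asym g C hf hinj himm hrange sp L N θ c F ∈ symS g C hf hinj himm hrange sp L F B
      (Alt (Eu d) (k + 1) →L[ℂ] Alt (Eu d) (k + 1)) (B.M0 : ℤ) := by
    have h2 : ∀ l, (fun x ξ => (c l).smulRight
        (gen g C hf hinj himm hrange sp L F φ (iotaS N) [] (extU L (θ l)) x ξ)) ∈
        symS g C hf hinj himm hrange sp L F B
          (Alt (Eu d) (k + 1) →L[ℂ] Alt (Eu d) (k + 1)) (B.M0 : ℤ) := by
      intro l
      have hbeta : (B.M0 : ℤ) - CoreData.beta ([] : List (SFun (𝓡∂ (d + 1)) Ω ⊕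
          {V : VF (𝓡∂ (d + 1)) Ω // TangVF V})) ≤ B.M0 := by
        simp [CoreData.beta]
      let A : Alt (Eu d) (k + 1) →L[ℝ] (Alt (Eu d) (k + 1) →L[ℂ] Alt (Eu d) (k + 1)) :=
        (ContinuousLinearMap.smulRightL ℂ (Alt (Eu d) (k + 1)) (Alt (Eu d) (k + 1))
          (c l)).restrictScalars ℝ
      exact AddSubgroup.subset_closure ⟨A, φ, iotaS N, [], extU L (θ l), hφ.1, subset_union_left,
        extU_mem hf hκ L (θ l), hbeta, rfl⟩
    exact sum_mem_symS g C hf hinj himm hrange sp L B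
      (Alt (Eu d) (k + 1) →L[ℂ] Alt (Eu d) (k + 1)) h2
  have h2 := symS_isSymbol g C hf hinj himm hrange sp hκ hK0 hKt L hF B _ hmem
  rwa [Int.cast_natCast] at h2

include B in
theorem lfun_fourier {n : ℕ} (θ : Module.Basis (Fin n) ℂ (Alt (Eu d) (k + 1)))
    (c : Fin n → Alt (Eu d) (k + 1) →L[ℂ] ℂ) (u : SchwartzMap (Eu d) (Alt (Eu d) (k + 1)))
    (x : Eu d) :
    lfun L F N θ c x u = ∫ ξ, eexp ξ x • asym g C hf hinj himm hrange sp L N θ c F x ξ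
      (𝓕 (u : Eu d → Alt (Eu d) (k + 1)) ξ) := by
  obtain ⟨A, hA⟩ := lfun_bound g C hf hinj himm hrange sp hκ hφ hψ L hF B N θ c x
  have : FiniteDimensional ℂ (Alt (Eu d) (k + 1)) := FiniteDimensional.right ℝ ℂ _
  rw [fourier_rep (lfun L F N θ c x) (lfun_add L N θ c x) (lfun_smul L N θ c x) (range L.bm)
    (isCompact_range L.hbm.continuous) B.M0 A hA u]
  refine integral_congr_ae (Filter.Eventually.of_forall fun ξ => ?_)
  exact lfun_eexp g C hf hinj himm hrange sp L N θ c x ξ _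

end Loc

end DtN
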