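import Pool.Agent.H14.DtN.Defs

/-!
MODULE A0 : bundled smooth functions, forms and vector fields.
-/

open scoped Manifold ContDiff Topology ComplexConjugate
open Set MeasureTheory

set_option linter.unusedSectionVars false

noncomputable section

namespace DtN

section Mfd

variable {E : Type*} [NormedAddCommGroup E] [NormedSpace ℝ E]
  {H : Type*} [TopologicalSpace H] (I : ModelWithCorners ℝ E H)
  (M : Type*) [TopologicalSpace M] [ChartedSpace H M]

/-- Smooth complex valued functions. -/
@[ext] structure SFun where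
  val : M → ℂ
  smooth : ContMDiff I 𝓘(ℝ, ℂ) ∞ val

namespace SFun
variable {I M}
theorem val_injective : Function.Injective (SFun.val : SFun I M → M → ℂ) := fun _ _ h => SFun.ext h

theorem smooth_mul {a b : M → ℂ} (ha : ContMDiff I 𝓘(ℝ, ℂ) ∞ a) (hb : ContMDiff I 𝓘(ℝ, ℂ) ∞ b) :
    ContMDiff I 𝓘(ℝ, ℂ) ∞ (a * b) :=
  (show ContDiff ℝ ∞ (fun p : ℂ × ℂ => p.1 * p.2) from
    contDiff_fst.mul contDiff_snd).contMDiff.comp (ha.prodMk_space hb)

instance : Add (SFun I M) := ⟨fun a b => ⟨a.val + b.val, a.smooth.add b.smooth⟩⟩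
instance : Mul (SFun I M) := ⟨fun a b => ⟨a.val * b.val, smooth_mul a.smooth b.smooth⟩⟩
instance : Zero (SFun I M) := ⟨⟨0, contMDiff_const⟩⟩
instance : One (SFun I M) := ⟨⟨1, contMDiff_const⟩⟩
instance : Neg (SFun I M) := ⟨fun a => ⟨-a.val, a.smooth.neg⟩⟩
instance : Sub (SFun I M) := ⟨fun a b => ⟨a.val - b.val, a.smooth.sub b.smooth⟩⟩
instance : SMul ℂ (SFun I M) := ⟨fun c b => ⟨c • b.val,
  smooth_mul (a := fun _ => c) contMDiff_const b.smooth⟩⟩
instance : SMul ℕ (SFun I M) := ⟨fun c b => ⟨c • b.val, by
  have h := smooth_mul (I := I) (a := fun _ => (c : ℂ)) contMDiff_const b.smooth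
  convert h using 1
  ext z; simp⟩⟩
instance : SMul ℤ (SFun I M) := ⟨fun c b => ⟨c • b.val, by
  have h := smooth_mul (I := I) (a := fun _ => (c : ℂ)) contMDiff_const b.smooth
  convert h using 1
  ext z; simp⟩⟩
instance : Pow (SFun I M) ℕ := ⟨fun b c => ⟨b.val ^ c, by
  induction c with
  | zero => rw [pow_zero]; exact contMDiff_const
  | succ n ih => rw [pow_succ]; exact smooth_mul ih b.smooth⟩⟩
instance : NatCast (SFun I M) := ⟨fun c => ⟨(c : M → ℂ), contMDiff_const⟩⟩
instance : IntCast (SFun I M) := ⟨fun c => ⟨(c : M → ℂ), contMDiff_const⟩⟩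

instance : CommRing (SFun I M) :=
  val_injective.commRing _ rfl rfl (fun _ _ => rfl) (fun _ _ => rfl) (fun _ => rfl)
    (fun _ _ => rfl) (fun _ _ => rfl) (fun _ _ => rfl) (fun _ _ => rfl) (fun _ => rfl) (fun _ => rfl)

instance : Algebra ℂ (SFun I M) where
  algebraMap :=
    { toFun := fun c => ⟨fun _ => c, contMDiff_const⟩
      map_one' := rfl
      map_mul' := fun _ _ => rfl
      map_zero' := rfl
      map_add' := fun _ _ => rfl }
  commutes' := fun c b => by ext z; exact mul_comm _ _
  smul_def' := fun c b => rfl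

@[simp] theorem add_apply (a b : SFun I M) (z : M) : (a + b).val z = a.val z + b.val z := rfl
@[simp] theorem mul_apply (a b : SFun I M) (z : M) : (a * b).val z = a.val z * b.val z := rfl
@[simp] theorem neg_apply (a : SFun I M) (z : M) : (-a).val z = - a.val z := rfl
@[simp] theorem sub_apply (a b : SFun I M) (z : M) : (a - b).val z = a.val z - b.val z := rfl
@[simp] theorem zero_apply (z : M) : (0 : SFun I M).val z = 0 := rfl
@[simp] theorem one_apply (z : M) : (1 : SFun I M).val z = 1 := rfl
@[simp] theorem smul_apply (c : ℂ) (a : SFun I M) (z : M) : (c • a).val z = c * a.val z := rfl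
@[simp] theorem algebraMap_apply (c : ℂ) (z : M) : (algebraMap ℂ (SFun I M) c).val z = c := rfl

/-- The differential of a smooth function at `z`, as a map on `T_z M = E`. -/
def dF (b : SFun I M) (z : M) : E →L[ℝ] ℂ := mfderiv I 𝓘(ℝ, ℂ) b.val z

end SFun

variable {I M}

theorem rep_smul {q : ℕ} (b : M → ℂ) (w : M → Alt E q) (x₀ : M) (y : E) :
    rep I x₀ (b • w) y = b ((extChartAt I x₀).symm y) • rep I x₀ w y := by
  ext v; rfl

theorem rep_add {q : ℕ} (v w : M → Alt E q) (x₀ : M) :
    rep I x₀ (v + w) = rep I x₀ v + rep I x₀ w := by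
  funext y; ext v; rfl

theorem contDiffOn_symm {F : Type*} [NormedAddCommGroup F] [NormedSpace ℝ F] [IsManifold I ∞ M]
    {b : M → F} (hb : ContMDiff I 𝓘(ℝ, F) ∞ b) (x₀ : M) :
    ContDiffOn ℝ ∞ (b ∘ (extChartAt I x₀).symm) (extChartAt I x₀).target := by
  rw [← contMDiffOn_iff_contDiffOn]
  exact (hb.contMDiffOn (s := univ)).comp (contMDiffOn_extChartAt_symm x₀) (fun _ _ => mem_univ _)

theorem smoothForm_smul [IsManifold I ∞ M] {q : ℕ} {b : M → ℂ} {w : M → Alt E q}
    (hb : ContMDiff I 𝓘(ℝ, ℂ) ∞ b) (hw : SmoothForm I w) : SmoothForm I (b • w) := by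
  intro x₀
  have h := (contDiffOn_symm hb x₀).smul (hw x₀)
  refine h.congr fun y _ => ?_
  exact rep_smul b w x₀ y

theorem smoothForm_add {q : ℕ} {v w : M → Alt E q}
    (hv : SmoothForm I v) (hw : SmoothForm I w) : SmoothForm I (v + w) := by
  intro x₀
  rw [rep_add]
  exact (hv x₀).add (hw x₀)

theorem smoothForm_zero {q : ℕ} : SmoothForm I (0 : M → Alt E q) := by
  intro x₀
  have h : rep I x₀ (0 : M → Alt E q) = fun _ => 0 := by
    funext y; ext v; rfl
  rw [h]
  exact contDiffOn_const

variable (I M) in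
/-- Smooth complex valued forms. -/
@[ext] structure SForm (q : ℕ) where
  val : M → Alt E q
  smooth : SmoothForm I val

namespace SForm
variable {q : ℕ}
theorem val_injective : Function.Injective (SForm.val : SForm I M q → M → Alt E q) :=
  fun _ _ h => SForm.ext h

variable [IsManifold I ∞ M]

instance : Add (SForm I M q) := ⟨fun a b => ⟨a.val + b.val, smoothForm_add a.smooth b.smooth⟩⟩
instance : Zero (SForm I M q) := ⟨⟨0, smoothForm_zero⟩⟩
instance : SMul (SFun I M) (SForm I M q) := ⟨fun b w => ⟨b.val • w.val,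
  smoothForm_smul b.smooth w.smooth⟩⟩
instance : SMul ℂ (SForm I M q) := ⟨fun c w => ⟨c • w.val,
  smoothForm_smul (b := fun _ => c) contMDiff_const w.smooth⟩⟩
instance : SMul ℕ (SForm I M q) := ⟨fun c w => ⟨c • w.val, by
  have h := smoothForm_smul (I := I) (b := fun _ => (c : ℂ)) contMDiff_const w.smooth
  convert h using 1
  ext z; simp⟩⟩
instance : SMul ℤ (SForm I M q) := ⟨fun c w => ⟨c • w.val, by
  have h := smoothForm_smul (I := I) (b := fun _ => (c : ℂ)) contMDiff_const w.smooth
  convert h using 1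
  ext z; simp⟩⟩
instance : Neg (SForm I M q) := ⟨fun w => ⟨-w.val, by
  have h := smoothForm_smul (I := I) (b := fun _ => (-1 : ℂ)) contMDiff_const w.smooth
  convert h using 1
  ext z; simp⟩⟩
instance : Sub (SForm I M q) := ⟨fun v w => ⟨v.val - w.val, by
  have h := smoothForm_add v.smooth (-w).smooth
  convert h using 1
  exact sub_eq_add_neg _ _⟩⟩

instance : AddCommGroup (SForm I M q) :=
  val_injective.addCommGroup _ rfl (fun _ _ => rfl) (fun _ => rfl) (fun _ _ => rfl) (fun _ _ => rfl)
    (fun _ _ => rfl)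

instance : Module ℂ (SForm I M q) :=
  val_injective.module ℂ ⟨⟨_, rfl⟩, fun _ _ => rfl⟩ (fun _ _ => rfl)

instance : Module (SFun I M) (SForm I M q) where
  one_smul w := by apply val_injective; funext z; exact one_smul ℂ (w.val z)
  mul_smul a b w := by apply val_injective; funext z; exact mul_smul (a.val z) (b.val z) (w.val z)
  smul_zero a := by
    apply val_injective; funext z; exact smul_zero (A := Alt E q) (a.val z)
  smul_add a v w := by apply val_injective; funext z; exact smul_add (a.val z) (v.val z) (w.val z)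
  add_smul a b w := by apply val_injective; funext z; exact add_smul (a.val z) (b.val z) (w.val z)
  zero_smul w := by apply val_injective; funext z; exact zero_smul ℂ (w.val z)

instance : IsScalarTower ℂ (SFun I M) (SForm I M q) :=
  ⟨fun c b w => by apply val_injective; funext z; exact mul_smul c (b.val z) (w.val z)⟩

@[simp] theorem add_apply (a b : SForm I M q) (z : M) : (a + b).val z = a.val z + b.val z := rfl
@[simp] theorem neg_apply (a : SForm I M q) (z : M) : (-a).val z = - a.val z := rfl
@[simp] theorem sub_apply (a b : SForm I M q) (z : M) : (a - b).val z = a.val z - b.val z := rfl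
@[simp] theorem zero_apply (z : M) : (0 : SForm I M q).val z = 0 := rfl
@[simp] theorem smul_apply (b : SFun I M) (a : SForm I M q) (z : M) :
    (b • a).val z = b.val z • a.val z := rfl
@[simp] theorem csmul_apply (c : ℂ) (a : SForm I M q) (z : M) : (c • a).val z = c • a.val z := rfl

end SForm

variable (I) in
/-- Derivative of the preferred chart at `x₀` at the point `z`. -/
def dchart (x₀ : M) (z : M) : E →L[ℝ] E := mfderiv I 𝓘(ℝ, E) (extChartAt I x₀) z

variable (I) in
/-- Expression of a vector field in the preferred chart at `x₀`. -/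
def repV (x₀ : M) (V : M → E) (y : E) : E :=
  dchart I x₀ ((extChartAt I x₀).symm y) (V ((extChartAt I x₀).symm y))

variable (I) in
/-- Smooth (real) vector fields. -/
def SmoothVF (V : M → E) : Prop :=
  ∀ x₀ : M, ContDiffOn ℝ ∞ (repV I x₀ V) (extChartAt I x₀).target

variable (I M) in
/-- Smooth (real) vector fields. -/
@[ext] structure VF where
  val : M → E
  smooth : SmoothVF I val

end Mfd

end DtN
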