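import Pool.Agent.H14.DtN.CalcA1

/-!
Boundary points and vectors tangent to the boundary, in charts.
-/

open scoped Manifold ContDiff Topology ComplexConjugate
open Set MeasureTheory

set_option linter.unusedSectionVars false

noncomputable section

namespace DtN

variable {d : ℕ} {Ω : Type*} [TopologicalSpace Ω] [ChartedSpace (EuclideanHalfSpace (d + 1)) Ω]
  [IsManifold (𝓡∂ (d + 1)) ∞ Ω]

/-- A point is a boundary point iff its coordinate `0` in some (any) chart vanishes. -/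
theorem mem_bdry_iff_pt {x₀ z : Ω} (hz : z ∈ (extChartAt (𝓡∂ (d + 1)) x₀).source) :
    z ∈ (𝓡∂ (d + 1)).boundary Ω ↔ (extChartAt (𝓡∂ (d + 1)) x₀ z) 0 = 0 := by
  have hz' : z ∈ (chartAt (EuclideanHalfSpace (d + 1)) x₀).source := by
    rwa [extChartAt_source] at hz
  have h1 := ModelWithCorners.isInteriorPoint_iff_of_mem_atlas (I := 𝓡∂ (d + 1)) (M := Ω)
    (n := ∞) (by simp) (chart_mem_atlas _ x₀) hz'
  have h2 : (extChartAt (𝓡∂ (d + 1)) x₀) z ∈ (extChartAt (𝓡∂ (d + 1)) x₀).target :=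
    (extChartAt (𝓡∂ (d + 1)) x₀).map_source hz
  have h3 : interior ((chartAt (EuclideanHalfSpace (d + 1)) x₀).extend (𝓡∂ (d + 1))).target =
      (𝓡∂ (d + 1)).symm ⁻¹' (chartAt (EuclideanHalfSpace (d + 1)) x₀).target ∩
        {y | 0 < y 0} := by
    rw [OpenPartialHomeomorph.extend_target, interior_inter,
      interior_range_modelWithCornersEuclideanHalfSpace,
      ((chartAt (EuclideanHalfSpace (d + 1)) x₀).open_target.preimage
        (𝓡∂ (d + 1)).continuous_symm).interior_eq]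
  rw [h3] at h1
  have h4 : 0 ≤ (extChartAt (𝓡∂ (d + 1)) x₀ z) 0 := by
    have := extChartAt_target_subset_range x₀ h2
    rwa [range_modelWithCornersEuclideanHalfSpace] at this
  have h5 : (extChartAt (𝓡∂ (d + 1)) x₀) z ∈
      (𝓡∂ (d + 1)).symm ⁻¹' (chartAt (EuclideanHalfSpace (d + 1)) x₀).target := by
    rw [extChartAt_target] at h2
    exact h2.1
  have h6 : z ∈ (𝓡∂ (d + 1)).boundary Ω ↔ ¬ (𝓡∂ (d + 1)).IsInteriorPoint z :=
    ModelWithCorners.isBoundaryPoint_iff_not_isInteriorPoint z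
  rw [h6, h1]
  constructor
  · intro h
    by_contra h7
    exact h ⟨h5, lt_of_le_of_ne h4 (Ne.symm h7)⟩
  · intro h h7
    exact absurd h7.2 (by
      show ¬ (0 < (extChartAt (𝓡∂ (d + 1)) x₀ z) 0)
      rw [h]
      exact lt_irrefl 0)

theorem symm_bdry_iff_pt {x₀ : Ω} {y : Eu (d + 1)}
    (hy : y ∈ (extChartAt (𝓡∂ (d + 1)) x₀).target) :
    (extChartAt (𝓡∂ (d + 1)) x₀).symm y ∈ (𝓡∂ (d + 1)).boundary Ω ↔ y 0 = 0 := by
  rw [mem_bdry_iff_pt ((extChartAt (𝓡∂ (d + 1)) x₀).map_target hy),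
    (extChartAt (𝓡∂ (d + 1)) x₀).right_inv hy]

/-- A map of half spaces which preserves the boundary has a derivative preserving the tangent
space of the boundary. -/
theorem deriv_tangential {F : Eu (d + 1) → Eu (d + 1)} {y : Eu (d + 1)} (hy : y 0 = 0)
    (hF : DifferentiableWithinAt ℝ F (range (𝓡∂ (d + 1))) y)
    (h0 : ∀ᶠ y' in 𝓝[range (𝓡∂ (d + 1))] y, y' 0 = 0 → (F y') 0 = 0) {v : Eu (d + 1)}
    (hv : v 0 = 0) : (fderivWithin ℝ F (range (𝓡∂ (d + 1))) y v) 0 = 0 := by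
  have h1 := hF.hasFDerivWithinAt
  set F' := fderivWithin ℝ F (range (𝓡∂ (d + 1))) y
  have hcurve : HasDerivAt (fun t : ℝ => y + t • v) v 0 := by
    simpa using ((hasDerivAt_id (0 : ℝ)).smul_const v).const_add y
  have hmem : ∀ t : ℝ, (y + t • v) ∈ range (𝓡∂ (d + 1)) := by
    intro t
    rw [range_modelWithCornersEuclideanHalfSpace]
    show 0 ≤ (y + t • v) 0
    simp [hy, hv]
  have h2 : HasDerivWithinAt (F ∘ fun t : ℝ => y + t • v) (F' v) univ 0 := by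
    have h3 : HasFDerivWithinAt F F' (range (𝓡∂ (d + 1))) ((fun t : ℝ => y + t • v) 0) := by
      simpa using h1
    exact h3.comp_hasDerivWithinAt (0 : ℝ) hcurve.hasDerivWithinAt (fun t _ => hmem t)
  rw [hasDerivWithinAt_univ] at h2
  have h4 : HasDerivAt (fun t : ℝ => (F (y + t • v)) 0) ((F' v) 0) 0 :=
    ((EuclideanSpace.proj (𝕜 := ℝ) (0 : Fin (d + 1))).hasFDerivAt.comp_hasDerivAt (0 : ℝ) h2)
  have h5 : (fun t : ℝ => (F (y + t • v)) 0) =ᶠ[𝓝 0] fun _ => 0 := by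
    have h6 : Filter.Tendsto (fun t : ℝ => y + t • v) (𝓝 0) (𝓝[range (𝓡∂ (d + 1))] y) := by
      rw [tendsto_nhdsWithin_iff]
      refine ⟨?_, Filter.Eventually.of_forall hmem⟩
      have := hcurve.continuousAt.tendsto
      simpa using this
    filter_upwards [h6.eventually h0] with t ht
    exact ht (by simp [hy, hv])
  exact h4.unique ((hasDerivAt_const (0 : ℝ) (0 : ℝ)).congr_of_eventuallyEq h5)

theorem theta_boundary {x₀ x₁ : Ω} {y : Eu (d + 1)}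
    (hy : y ∈ (extChartAt (𝓡∂ (d + 1)) x₁).target)
    (hz : (extChartAt (𝓡∂ (d + 1)) x₁).symm y ∈ (extChartAt (𝓡∂ (d + 1)) x₀).source) :
    ∀ᶠ y' in 𝓝[range (𝓡∂ (d + 1))] y, y' 0 = 0 → (theta (𝓡∂ (d + 1)) x₀ x₁ y') 0 = 0 := by
  have h1 : ∀ᶠ y' in 𝓝[range (𝓡∂ (d + 1))] y, y' ∈ (extChartAt (𝓡∂ (d + 1)) x₁).target :=
    extChartAt_target_mem_nhdsWithin_of_mem hy
  have h2 : ∀ᶠ y' in 𝓝[range (𝓡∂ (d + 1))] y,
      (extChartAt (𝓡∂ (d + 1)) x₁).symm y' ∈ (extChartAt (𝓡∂ (d + 1)) x₀).source := by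
    have h3 : ContinuousWithinAt (extChartAt (𝓡∂ (d + 1)) x₁).symm (range (𝓡∂ (d + 1))) y :=
      (continuousOn_extChartAt_symm x₁ y hy).mono_of_mem_nhdsWithin h1
    exact h3.eventually ((isOpen_extChartAt_source x₀).mem_nhds hz)
  filter_upwards [h1, h2] with y' h3 h4 h5
  exact (mem_bdry_iff_pt h4).1 ((symm_bdry_iff_pt h3).2 h5)

/-- `d(ext⁻¹)` preserves the tangent spaces of the boundary. -/
theorem dsymm_tangential {x₀ : Ω} {y : Eu (d + 1)}
    (hy : y ∈ (extChartAt (𝓡∂ (d + 1)) x₀).target) (h0 : y 0 = 0) {v : Eu (d + 1)}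
    (hv : v 0 = 0) : (dsymm (𝓡∂ (d + 1)) x₀ y v) 0 = 0 := by
  set z := (extChartAt (𝓡∂ (d + 1)) x₀).symm y with hzdef
  have hz : (extChartAt (𝓡∂ (d + 1)) x₀).symm y ∈ (extChartAt (𝓡∂ (d + 1)) z).source :=
    mem_extChartAt_source z
  have h1 := dsymm_change (𝓡∂ (d + 1)) (x₀ := z) (x₁ := x₀) hy hz
  have h2 : theta (𝓡∂ (d + 1)) z x₀ y = extChartAt (𝓡∂ (d + 1)) z z := rfl
  rw [h1, h2, dsymm_self]
  exact deriv_tangential h0
    ((theta_contDiffWithinAt (𝓡∂ (d + 1)) hy hz).differentiableWithinAt (by simp))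
    (theta_boundary hy hz) hv

/-- `d(ext)` preserves the tangent spaces of the boundary. -/
theorem dchart_tangential {x₀ z : Ω} (hz : z ∈ (extChartAt (𝓡∂ (d + 1)) x₀).source)
    (hb : z ∈ (𝓡∂ (d + 1)).boundary Ω) {v : Eu (d + 1)}
    (hv : v 0 = 0) : (dchart (𝓡∂ (d + 1)) x₀ z v) 0 = 0 := by
  have hy : extChartAt (𝓡∂ (d + 1)) z z ∈ (extChartAt (𝓡∂ (d + 1)) z).target :=
    mem_extChartAt_target z
  have hz' : (extChartAt (𝓡∂ (d + 1)) z).symm (extChartAt (𝓡∂ (d + 1)) z z) ∈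
      (extChartAt (𝓡∂ (d + 1)) x₀).source := by rwa [extChartAt_to_inv]
  have h1 := repV_change (𝓡∂ (d + 1)) (fun _ => v) (x₀ := x₀) (x₁ := z) hy hz'
  have h3 : theta (𝓡∂ (d + 1)) x₀ z (extChartAt (𝓡∂ (d + 1)) z z) =
      extChartAt (𝓡∂ (d + 1)) x₀ z := by
    simp only [theta, Function.comp, extChartAt_to_inv]
  rw [repV_self, h3] at h1
  have h4 : repV (𝓡∂ (d + 1)) x₀ (fun _ => v) (extChartAt (𝓡∂ (d + 1)) x₀ z) =
      dchart (𝓡∂ (d + 1)) x₀ z v := by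
    simp only [repV, (extChartAt (𝓡∂ (d + 1)) x₀).left_inv hz]
  rw [← h4, h1]
  exact deriv_tangential ((mem_bdry_iff_pt (mem_extChartAt_source z)).1 hb)
    ((theta_contDiffWithinAt (𝓡∂ (d + 1)) hy hz').differentiableWithinAt (by simp))
    (theta_boundary hy hz') hv

/-- The chart expression of a field tangent to the boundary is tangent to `y 0 = 0`. -/
theorem repV_tangential {V : Ω → Eu (d + 1)}
    (hV : ∀ z ∈ (𝓡∂ (d + 1)).boundary Ω, (V z) 0 = 0) {x₀ : Ω} {y : Eu (d + 1)}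
    (hy : y ∈ (extChartAt (𝓡∂ (d + 1)) x₀).target) (h0 : y 0 = 0) :
    (repV (𝓡∂ (d + 1)) x₀ V y) 0 = 0 := by
  have hb := (symm_bdry_iff_pt hy).2 h0
  exact dchart_tangential ((extChartAt (𝓡∂ (d + 1)) x₀).map_target hy) hb (hV _ hb)

end DtN
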