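import Pool.Agent.H14.DtN.HalfIBP
import Pool.Agent.H14.DtN.AltSmooth

/-!
Local divergence theorem in the half space for tangential fields.
-/

open scoped ContDiff Topology ComplexConjugate
open Set MeasureTheory

set_option linter.unusedSectionVars false

noncomputable section

namespace DtN

variable {d : ℕ}

namespace DL

theorem isClosed_HS : IsClosed (HS d) :=
  isClosed_le continuous_const (EuclideanSpace.proj (𝕜 := ℝ) (0 : Fin (d + 1))).continuous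

theorem measurableSet_HSO {O : Set (Eu (d + 1))} (hO : IsOpen O) : MeasurableSet (HS d ∩ O) :=
  isClosed_HS.measurableSet.inter hO.measurableSet

theorem integrableOn_of_supp {O K : Set (Eu (d + 1))} (hO : IsOpen O) (hK : IsCompact K)
    (hKO : K ⊆ O) {F : Eu (d + 1) → ℂ} (hF : ContinuousOn F (HS d ∩ O))
    (h0 : ∀ y ∈ HS d ∩ O, y ∉ K → F y = 0) : IntegrableOn F (HS d ∩ O) := by
  have h1 : IntegrableOn F (HS d ∩ K) :=
    (hF.mono (inter_subset_inter_right _ hKO)).integrableOn_compact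
      (hK.inter_left isClosed_HS)
  refine h1.of_forall_sdiff_eq_zero (measurableSet_HSO hO) ?_
  rintro y ⟨hy, hy'⟩
  exact h0 y hy fun hyK => hy' ⟨hy.1, hyK⟩

theorem contDiffOn_fderivWithin {F : Type*} [NormedAddCommGroup F] [NormedSpace ℝ F]
    {O : Set (Eu (d + 1))} (hO : IsOpen O) {h : Eu (d + 1) → F}
    (hh : ContDiffOn ℝ ∞ h (HS d ∩ O)) :
    ContDiffOn ℝ ∞ (fun y => fderivWithin ℝ h (HS d) y) (HS d ∩ O) := by
  have h1 := hh.fderivWithin (m := ∞) (uniqueDiffOn_HS.inter hO) (by simp)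
  refine h1.congr fun y hy => ?_
  exact (fderivWithin_inter (hO.mem_nhds hy.2)).symm

theorem fderivWithin_eq_zero {F : Type*} [NormedAddCommGroup F] [NormedSpace ℝ F]
    {O K : Set (Eu (d + 1))} (hO : IsOpen O) (hK : IsCompact K)
    {h : Eu (d + 1) → F} (h0 : ∀ y ∈ HS d ∩ O, y ∉ K → h y = 0) {y : Eu (d + 1)}
    (hy : y ∈ HS d ∩ O) (hyK : y ∉ K) : fderivWithin ℝ h (HS d) y = 0 := by
  have h1 : h =ᶠ[𝓝[HS d] y] fun _ => (0 : F) := by
    have h2 : O ∩ Kᶜ ∈ 𝓝 y := (hO.inter hK.isClosed.isOpen_compl).mem_nhds ⟨hy.2, hyK⟩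
    filter_upwards [mem_nhdsWithin_of_mem_nhds h2, self_mem_nhdsWithin] with y' h3 h4
    exact h0 y' ⟨h4, h3.1⟩ h3.2
  rw [h1.fderivWithin_eq (h0 y hy hyK)]
  simp

/-- `- ρ⁻¹ ∑_k ∂_k (ρ v_k)` -/
def divLoc (ρ : Eu (d + 1) → ℝ) (v : Eu (d + 1) → Eu (d + 1)) (y : Eu (d + 1)) : ℂ :=
  -((ρ y : ℂ))⁻¹ * ∑ k, fderivWithin ℝ (fun y' => ((ρ y' * v y' k : ℝ) : ℂ)) (HS d) y (ev k)

theorem contDiffOn_P {O : Set (Eu (d + 1))}
    {ρ : Eu (d + 1) → ℝ} (hρ : ContDiffOn ℝ ∞ ρ (HS d ∩ O))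
    {v : Eu (d + 1) → Eu (d + 1)} (hv : ContDiffOn ℝ ∞ v (HS d ∩ O)) (k : Fin (d + 1)) :
    ContDiffOn ℝ ∞ (fun y' => ((ρ y' * v y' k : ℝ) : ℂ)) (HS d ∩ O) := by
  have h1 : ContDiffOn ℝ ∞ (fun y' => v y' k) (HS d ∩ O) :=
    (EuclideanSpace.proj (𝕜 := ℝ) k : Eu (d + 1) →L[ℝ] ℝ).contDiff.comp_contDiffOn hv
  exact Complex.ofRealCLM.contDiff.comp_contDiffOn (hρ.mul h1)

theorem divLoc_contDiffOn {O : Set (Eu (d + 1))} (hO : IsOpen O)
    {ρ : Eu (d + 1) → ℝ} (hρ : ContDiffOn ℝ ∞ ρ (HS d ∩ O)) (hpos : ∀ y ∈ HS d ∩ O, 0 < ρ y)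
    {v : Eu (d + 1) → Eu (d + 1)} (hv : ContDiffOn ℝ ∞ v (HS d ∩ O)) :
    ContDiffOn ℝ ∞ (divLoc ρ v) (HS d ∩ O) := by
  have h1 : ContDiffOn ℝ ∞ (fun y => (ρ y : ℂ)) (HS d ∩ O) :=
    Complex.ofRealCLM.contDiff.comp_contDiffOn hρ
  have h2 : ContDiffOn ℝ ∞ (fun y => ((ρ y : ℂ))⁻¹) (HS d ∩ O) :=
    h1.inv fun y hy => by exact_mod_cast (hpos y hy).ne'
  refine h2.neg.mul (ContDiffOn.sum fun k _ => ?_)
  exact (contDiffOn_fderivWithin hO (contDiffOn_P hρ hv k)).clm_apply contDiffOn_const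

theorem local_div {O K : Set (Eu (d + 1))} (hO : IsOpen O) (hK : IsCompact K) (hKO : K ⊆ O)
    {ρ : Eu (d + 1) → ℝ} (hρ : ContDiffOn ℝ ∞ ρ (HS d ∩ O)) (hpos : ∀ y ∈ HS d ∩ O, 0 < ρ y)
    {v : Eu (d + 1) → Eu (d + 1)} (hv : ContDiffOn ℝ ∞ v (HS d ∩ O))
    (hv0 : ∀ y ∈ HS d ∩ O, y 0 = 0 → (v y) 0 = 0)
    {χ H : Eu (d + 1) → ℂ} (hχ : ContDiffOn ℝ ∞ χ (HS d ∩ O))
    (hH : ContDiffOn ℝ ∞ H (HS d ∩ O))
    (hc : ∀ y ∈ HS d ∩ O, y ∉ K → χ y = 0) :
    ∫ y in HS d ∩ O, (ρ y : ℂ) * (χ y * fderivWithin ℝ H (HS d) y (v y)) =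
    ∫ y in HS d ∩ O, (ρ y : ℂ) * ((χ y * divLoc ρ v y - fderivWithin ℝ χ (HS d) y (v y)) * H y)
    := by
  have hρC : ContinuousOn (fun y => (ρ y : ℂ)) (HS d ∩ O) :=
    Complex.continuous_ofReal.comp_continuousOn hρ.continuousOn
  have hP := contDiffOn_P hρ hv
  have hdH := contDiffOn_fderivWithin hO hH
  have hdχ := contDiffOn_fderivWithin hO hχ
  have hdiv := divLoc_contDiffOn hO hρ hpos hv
  set G : Fin (d + 1) → Eu (d + 1) → ℂ := fun k y => ((ρ y * v y k : ℝ) : ℂ) * (χ y * H y)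
    with hG
  have hGs : ∀ k, ContDiffOn ℝ ∞ (G k) (HS d ∩ O) := fun k => (hP k).mul (hχ.mul hH)
  have hG0 : ∀ k, ∀ y ∈ HS d ∩ O, y ∉ K → G k y = 0 := by
    intro k y hy hyK
    simp only [hG, hc y hy hyK, zero_mul, mul_zero]
  have hint : ∀ k, ∫ y in HS d ∩ O, fderivWithin ℝ (G k) (HS d) y (ev k) = 0 := by
    intro k
    refine integral_fderivWithin_HS_open hO hK hKO ((hGs k).of_le (by simp)) (hG0 k) k ?_
    intro hk y hy hy0
    subst hk
    simp only [hG, hv0 y hy hy0, mul_zero, Complex.ofReal_zero, zero_mul]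
  have hintg : ∀ k, IntegrableOn (fun y => fderivWithin ℝ (G k) (HS d) y (ev k)) (HS d ∩ O) := by
    intro k
    refine integrableOn_of_supp hO hK hKO
      ((contDiffOn_fderivWithin hO (hGs k)).clm_apply contDiffOn_const).continuousOn ?_
    intro y hy hyK
    rw [fderivWithin_eq_zero hO hK (hG0 k) hy hyK]
    rfl
  have hA : IntegrableOn (fun y => (ρ y : ℂ) * (χ y * fderivWithin ℝ H (HS d) y (v y)))
      (HS d ∩ O) := by
    refine integrableOn_of_supp hO hK hKO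
      (hρC.mul (hχ.continuousOn.mul (hdH.clm_apply hv).continuousOn)) ?_
    intro y hy hyK
    rw [hc y hy hyK]; ring
  have hB : IntegrableOn (fun y => (ρ y : ℂ) *
      ((χ y * divLoc ρ v y - fderivWithin ℝ χ (HS d) y (v y)) * H y)) (HS d ∩ O) := by
    refine integrableOn_of_supp hO hK hKO
      (hρC.mul (((hχ.continuousOn.mul hdiv.continuousOn).sub
        (hdχ.clm_apply hv).continuousOn).mul hH.continuousOn)) ?_
    intro y hy hyK
    rw [hc y hy hyK, fderivWithin_eq_zero hO hK hc hy hyK]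
    simp
  have key : ∀ y ∈ HS d ∩ O, (ρ y : ℂ) * (χ y * fderivWithin ℝ H (HS d) y (v y)) -
      (ρ y : ℂ) * ((χ y * divLoc ρ v y - fderivWithin ℝ χ (HS d) y (v y)) * H y) =
      ∑ k, fderivWithin ℝ (G k) (HS d) y (ev k) := by
    intro y hy
    have hu : UniqueDiffWithinAt ℝ (HS d) y := uniqueDiffOn_HS y hy.1
    have hnb : HS d ∩ O ∈ 𝓝[HS d] y := inter_mem_nhdsWithin _ (hO.mem_nhds hy.2)
    have hdiff : ∀ {F : Eu (d + 1) → ℂ}, ContDiffOn ℝ ∞ F (HS d ∩ O) →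
        DifferentiableWithinAt ℝ F (HS d) y := fun hF =>
      ((hF.differentiableOn (by simp)) y hy).mono_of_mem_nhdsWithin hnb
    have hv' : v y = ∑ k, (v y k) • ev k := AS.vec_expand (v y)
    have hlin : ∀ L : Eu (d + 1) →L[ℝ] ℂ, L (v y) = ∑ k, ((v y k : ℝ) : ℂ) * L (ev k) := by
      intro L
      conv_lhs => rw [hv']
      rw [map_sum]
      refine Finset.sum_congr rfl fun k _ => ?_
      rw [map_smul, Complex.real_smul]
    have hk : ∀ k, fderivWithin ℝ (G k) (HS d) y (ev k) =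
        ((ρ y * v y k : ℝ) : ℂ) * (χ y * fderivWithin ℝ H (HS d) y (ev k) +
          H y * fderivWithin ℝ χ (HS d) y (ev k)) + (χ y * H y) *
          fderivWithin ℝ (fun y' => ((ρ y' * v y' k : ℝ) : ℂ)) (HS d) y (ev k) := by
      intro k
      have h1 := fderivWithin_fun_mul hu (hdiff (hP k)) (hdiff (hχ.mul hH))
      have h2 := fderivWithin_fun_mul hu (hdiff hχ) (hdiff hH)
      simp only [hG]
      rw [h1]
      have h3 : fderivWithin ℝ (χ * H) (HS d) y = fderivWithin ℝ (fun y => χ y * H y) (HS d) y :=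
        rfl
      rw [h2]
      simp only [ContinuousLinearMap.add_apply, ContinuousLinearMap.smul_apply, smul_eq_mul]
    rw [Finset.sum_congr rfl fun k _ => hk k, hlin, hlin, divLoc]
    have hρ0 : (ρ y : ℂ) ≠ 0 := by exact_mod_cast (hpos y hy).ne'
    rw [Finset.sum_add_distrib, ← Finset.mul_sum]
    have e1 : ∀ k : Fin (d + 1), ((ρ y * v y k : ℝ) : ℂ) *
        (χ y * fderivWithin ℝ H (HS d) y (ev k) + H y * fderivWithin ℝ χ (HS d) y (ev k)) =
        (ρ y : ℂ) * χ y * (((v y k : ℝ) : ℂ) * fderivWithin ℝ H (HS d) y (ev k)) +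
        (ρ y : ℂ) * H y * (((v y k : ℝ) : ℂ) * fderivWithin ℝ χ (HS d) y (ev k)) := by
      intro k
      push_cast
      ring
    rw [Finset.sum_congr rfl fun k _ => e1 k, Finset.sum_add_distrib, ← Finset.mul_sum,
      ← Finset.mul_sum]
    field_simp
    ring
  have h1 : ∫ y in HS d ∩ O, ((ρ y : ℂ) * (χ y * fderivWithin ℝ H (HS d) y (v y)) -
      (ρ y : ℂ) * ((χ y * divLoc ρ v y - fderivWithin ℝ χ (HS d) y (v y)) * H y)) = 0 := by
    rw [setIntegral_congr_fun (measurableSet_HSO hO) key, integral_finsetSum _ fun k _ => hintg k]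
    exact Finset.sum_eq_zero fun k _ => hint k
  rw [integral_sub hA hB] at h1
  exact sub_eq_zero.1 h1

end DL

end DtN
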