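import Pool.Agent.H14.DtN.Gaff
import Pool.Agent.H14.DtN.BdryPt
import Pool.Agent.H14.DtN.DivLoc

/-!
MODULE J1 : divergence theorem for tangential fields, range of the differential of the boundary
inclusion, Dirichlet forms.
-/

open scoped Manifold ContDiff Topology ComplexConjugate
open Set MeasureTheory

set_option linter.unusedSectionVars false

noncomputable section

namespace DtN

variable {d : ℕ} {Ω : Type*} [TopologicalSpace Ω] [ChartedSpace (EuclideanHalfSpace (d + 1)) Ω]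
  [IsManifold (𝓡∂ (d + 1)) ∞ Ω] [CompactSpace Ω] [T2Space Ω]
  (g : Metric (𝓡∂ (d + 1)) Ω) (C : Cover (𝓡∂ (d + 1)) Ω)


/-! ### Divergence theorem -/

theorem IntM_sum_SFun {ι : Type*} (s : Finset ι) (F : ι → SFun (𝓡∂ (d + 1)) Ω) :
    IntM g C (∑ i ∈ s, F i).val = ∑ i ∈ s, IntM g C (F i).val := by
  classical
  induction s using Finset.induction_on with
  | empty =>
    have h := IntM_smul g C 0 (fun _ : Ω => (0 : ℂ))
    rw [zero_mul] at h
    rw [Finset.sum_empty, Finset.sum_empty, ← h]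
    congr 1
    funext z
    simp
  | insert i s hi ih =>
    rw [Finset.sum_insert hi, Finset.sum_insert hi, ← ih]
    exact IntM_add g C (F i).smooth.continuous (∑ i ∈ s, F i).smooth.continuous

/-- A smooth real function as a complex one. -/
def ofRealF {χ : Ω → ℝ} (h : ContMDiff (𝓡∂ (d + 1)) 𝓘(ℝ, ℝ) ∞ χ) : SFun (𝓡∂ (d + 1)) Ω :=
  ⟨fun z => (χ z : ℂ), Complex.ofRealCLM.contDiff.contMDiff.comp h⟩

/-- Local coefficient of the divergence theorem. -/
def divF (V : VF (𝓡∂ (d + 1)) Ω) (i : Fin C.N) : SFun (𝓡∂ (d + 1)) Ω :=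
  ⟨ofChartF (I := 𝓡∂ (d + 1)) (C.c i) (C.χ i)
    (DL.divLoc (fun y => Real.sqrt (g.gram (C.c i) y).det) (repV (𝓡∂ (d + 1)) (C.c i) V.val)),
    by
      obtain ⟨O, hO, hT⟩ := exists_open_target (d := d) (C.c i)
      refine ofChartF_smooth (C.χ_smooth i) (C.χ_supp i) ?_
      rw [hT]
      refine DL.divLoc_contDiffOn hO (AS.contDiffOn_sqrt_det (fun a b => ?_) fun y hy => ?_)
        (fun y hy => ?_) ?_
      · rw [← hT]; exact gram_contDiffOn g _ a b
      · rw [← hT] at hy; exact gram_posDef g _ hy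
      · rw [← hT] at hy; exact Real.sqrt_pos.2 (gram_posDef g _ hy).det_pos
      · rw [← hT]; exact V.smooth (C.c i)⟩ - der V (ofRealF (C.χ_smooth i))

theorem divF_apply (V : VF (𝓡∂ (d + 1)) Ω) (i : Fin C.N) {y : Eu (d + 1)}
    (hy : y ∈ (extChartAt (𝓡∂ (d + 1)) (C.c i)).target) :
    (divF g C V i).val ((extChartAt (𝓡∂ (d + 1)) (C.c i)).symm y) =
      (C.χ i ((extChartAt (𝓡∂ (d + 1)) (C.c i)).symm y) : ℂ) *
        DL.divLoc (fun y => Real.sqrt (g.gram (C.c i) y).det)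
          (repV (𝓡∂ (d + 1)) (C.c i) V.val) y -
      fderivWithin ℝ (fun y => (C.χ i ((extChartAt (𝓡∂ (d + 1)) (C.c i)).symm y) : ℂ))
        (HS d) y (repV (𝓡∂ (d + 1)) (C.c i) V.val y) := by
  have h1 := der_rep V (ofRealF (C.χ_smooth i)) hy
  rw [range_eq_HS] at h1
  show ofChartF (I := 𝓡∂ (d + 1)) (C.c i) (C.χ i)
    (DL.divLoc (fun y => Real.sqrt (g.gram (C.c i) y).det) (repV (𝓡∂ (d + 1)) (C.c i) V.val))
      ((extChartAt (𝓡∂ (d + 1)) (C.c i)).symm y) -
      (der V (ofRealF (C.χ_smooth i))).val ((extChartAt (𝓡∂ (d + 1)) (C.c i)).symm y) = _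
  rw [h1, ofChartF, if_pos ((extChartAt (𝓡∂ (d + 1)) (C.c i)).map_target hy),
    (extChartAt (𝓡∂ (d + 1)) (C.c i)).right_inv hy, Complex.real_smul]
  rfl

theorem divF_supp (V : VF (𝓡∂ (d + 1)) Ω) (i : Fin C.N) {z : Ω} (hz : z ∉ tsupport (C.χ i)) :
    (divF g C V i).val z = 0 := by
  have h1 : ofChartF (I := 𝓡∂ (d + 1)) (C.c i) (C.χ i)
    (DL.divLoc (fun y => Real.sqrt (g.gram (C.c i) y).det) (repV (𝓡∂ (d + 1)) (C.c i) V.val))
      z = 0 := by
    unfold ofChartF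
    split_ifs
    · rw [image_eq_zero_of_notMem_tsupport hz, zero_smul]
    · rfl
  have h2 : (ofRealF (C.χ_smooth i)).val =ᶠ[𝓝 z] fun _ => (0 : ℂ) := by
    filter_upwards [(isClosed_tsupport (C.χ i)).isOpen_compl.mem_nhds hz] with z' hz'
    show (C.χ i z' : ℂ) = 0
    rw [image_eq_zero_of_notMem_tsupport hz', Complex.ofReal_zero]
  have h3 : (der V (ofRealF (C.χ_smooth i))).val z = 0 := by
    rw [der_apply]
    unfold SFun.dF
    rw [h2.mfderiv_eq, mfderiv_const]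
    rfl
  show ofChartF (I := 𝓡∂ (d + 1)) (C.c i) (C.χ i)
    (DL.divLoc (fun y => Real.sqrt (g.gram (C.c i) y).det) (repV (𝓡∂ (d + 1)) (C.c i) V.val))
      z - (der V (ofRealF (C.χ_smooth i))).val z = 0
  rw [h1, h3, sub_zero]

/-- Divergence theorem for tangential fields. -/
theorem exists_div {V : VF (𝓡∂ (d + 1)) Ω} (hV : TangVF V) : ∃ c : SFun (𝓡∂ (d + 1)) Ω,
    ∀ h : SFun (𝓡∂ (d + 1)) Ω, IntM g C (der V h).val = IntM g C (c * h).val := by
  refine ⟨∑ i, divF g C V i, fun h => ?_⟩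
  rw [Finset.sum_mul, IntM_sum_SFun, IntM]
  refine Finset.sum_congr rfl fun i _ => ?_
  obtain ⟨O, hO, hT⟩ := exists_open_target (d := d) (C.c i)
  have hsupp : tsupport (divF g C V i * h).val ⊆ (extChartAt (𝓡∂ (d + 1)) (C.c i)).source := by
    refine subset_trans (closure_minimal ?_ (isClosed_tsupport (C.χ i))) (C.χ_supp i)
    intro z hz
    by_contra hz'
    apply hz
    rw [SFun.mul_apply, divF_supp g C V i hz', zero_mul]
  rw [IntM_chart g C (divF g C V i * h).smooth.continuous hsupp]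
  set σ := (extChartAt (𝓡∂ (d + 1)) (C.c i)).symm with hσ
  set K := extChartAt (𝓡∂ (d + 1)) (C.c i) '' tsupport (C.χ i) with hKdef
  have hKc : IsCompact K := (isClosed_tsupport (C.χ i)).isCompact.image_of_continuousOn
    ((continuousOn_extChartAt (C.c i)).mono (C.χ_supp i))
  have hKT : K ⊆ (extChartAt (𝓡∂ (d + 1)) (C.c i)).target := by
    rintro _ ⟨z, hz, rfl⟩
    exact (extChartAt (𝓡∂ (d + 1)) (C.c i)).map_source (C.χ_supp i hz)
  have hmeas : MeasurableSet (extChartAt (𝓡∂ (d + 1)) (C.c i)).target := by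
    rw [hT]; exact DL.measurableSet_HSO hO
  have h1 := DL.local_div (d := d) (O := O) (K := K) hO hKc
    (fun y hy => by
      have := hKT hy
      rw [hT] at this
      exact this.2)
    (ρ := fun y => Real.sqrt (g.gram (C.c i) y).det)
    (AS.contDiffOn_sqrt_det (fun a b => by rw [← hT]; exact gram_contDiffOn g _ a b)
      fun y hy => by rw [← hT] at hy; exact gram_posDef g _ hy)
    (fun y hy => by rw [← hT] at hy; exact Real.sqrt_pos.2 (gram_posDef g _ hy).det_pos)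
    (v := repV (𝓡∂ (d + 1)) (C.c i) V.val) (by rw [← hT]; exact V.smooth (C.c i))
    (fun y hy h0 => by rw [← hT] at hy; exact repV_tangential hV hy h0)
    (χ := fun y => (C.χ i (σ y) : ℂ)) (H := h.val ∘ σ)
    (by rw [← hT]; exact contDiffOn_symm (ofRealF (C.χ_smooth i)).smooth (C.c i))
    (by rw [← hT]; exact contDiffOn_symm h.smooth (C.c i))
    (fun y hy hyK => by
      rw [← hT] at hy
      have h2 : σ y ∉ tsupport (C.χ i) := fun h3 =>
        hyK ⟨σ y, h3, (extChartAt (𝓡∂ (d + 1)) (C.c i)).right_inv hy⟩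
      show (C.χ i (σ y) : ℂ) = 0
      rw [image_eq_zero_of_notMem_tsupport h2, Complex.ofReal_zero])
  rw [← hT] at h1
  have e1 : ∀ y ∈ (extChartAt (𝓡∂ (d + 1)) (C.c i)).target,
      ((Real.sqrt (g.gram (C.c i) y).det * C.χ i (σ y) : ℝ) : ℂ) * (der V h).val (σ y) =
      ((Real.sqrt (g.gram (C.c i) y).det : ℝ) : ℂ) * ((C.χ i (σ y) : ℂ) *
        fderivWithin ℝ (h.val ∘ σ) (HS d) y (repV (𝓡∂ (d + 1)) (C.c i) V.val y)) := by
    intro y hy
    have h2 := der_rep V h hy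
    rw [range_eq_HS] at h2
    rw [h2]
    push_cast
    ring
  have e2 : ∀ y ∈ (extChartAt (𝓡∂ (d + 1)) (C.c i)).target,
      ((Real.sqrt (g.gram (C.c i) y).det : ℝ) : ℂ) * (divF g C V i * h).val (σ y) =
      ((Real.sqrt (g.gram (C.c i) y).det : ℝ) : ℂ) *
        (((C.χ i (σ y) : ℂ) * DL.divLoc (fun y => Real.sqrt (g.gram (C.c i) y).det)
          (repV (𝓡∂ (d + 1)) (C.c i) V.val) y -
        fderivWithin ℝ (fun y => (C.χ i (σ y) : ℂ)) (HS d) y
          (repV (𝓡∂ (d + 1)) (C.c i) V.val y)) * (h.val ∘ σ) y) := by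
    intro y hy
    rw [SFun.mul_apply, divF_apply g C V i hy]
    rfl
  rw [setIntegral_congr_fun hmeas e1, setIntegral_congr_fun hmeas e2]
  exact h1

variable {S : Type*} [TopologicalSpace S] [ChartedSpace (Eu d) S] [IsManifold (𝓡 d) ∞ S]
    [CompactSpace S] [T2Space S] {f : S → Ω}
    (hf : ContMDiff (𝓡 d) (𝓡∂ (d + 1)) ∞ f) (hinj : Function.Injective f)
    (himm : ∀ s, Function.Injective (mfderiv (𝓡 d) (𝓡∂ (d + 1)) f s))
    (hrange : range f = (𝓡∂ (d + 1)).boundary Ω)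

omit [IsManifold (𝓡∂ (d + 1)) ∞ Ω] [CompactSpace Ω] [T2Space Ω] in
theorem deriv_coord_zero {d : ℕ} {F : Eu d → Eu (d + 1)} {L : Eu d →L[ℝ] Eu (d + 1)}
    {s : Set (Eu d)} {y : Eu d} (h : HasFDerivWithinAt F L s y) (hs : s = univ)
    (h3 : (fun y => (F y) 0) =ᶠ[𝓝 y] fun _ => (0 : ℝ)) (u : Eu d) : (L u) 0 = 0 := by
  subst hs
  rw [hasFDerivWithinAt_univ] at h
  have h2 : HasFDerivAt (fun y => (F y) 0)
      ((EuclideanSpace.proj (𝕜 := ℝ) (0 : Fin (d + 1)) : Eu (d + 1) →L[ℝ] ℝ).comp L) y :=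
    (EuclideanSpace.proj (𝕜 := ℝ) (0 : Fin (d + 1)) : Eu (d + 1) →L[ℝ] ℝ).hasFDerivAt.comp _ h
  have h6 := h2.unique ((hasFDerivAt_const (0 : ℝ) _).congr_of_eventuallyEq h3)
  exact DFunLike.congr_fun h6 u

include hf hinj himm hrange

theorem mfderiv_tangential (s : S) (u : Eu d) (v : Eu (d + 1))
    (hv : mfderiv (𝓡 d) (𝓡∂ (d + 1)) f s u = v) : v 0 = 0 := by
  have hd : MDifferentiableAt (𝓡 d) (𝓡∂ (d + 1)) f s := (hf s).mdifferentiableAt (by simp)
  have h1 := hd.hasMFDerivAt.2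
  have h3 : (fun y => ((writtenInExtChartAt (𝓡 d) (𝓡∂ (d + 1)) s f y : Eu (d + 1))) 0)
      =ᶠ[𝓝 (extChartAt (𝓡 d) s s)] fun _ => (0 : ℝ) := by
    have hc : ContinuousAt (f ∘ (extChartAt (𝓡 d) s).symm) (extChartAt (𝓡 d) s s) := by
      refine ContinuousAt.comp ?_ (continuousAt_extChartAt_symm (I := 𝓡 d) s)
      exact hf.continuous.continuousAt
    have h4 : ∀ᶠ y in 𝓝 (extChartAt (𝓡 d) s s),
        f ((extChartAt (𝓡 d) s).symm y) ∈ (extChartAt (𝓡∂ (d + 1)) (f s)).source := by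
      refine hc.eventually_mem ?_
      show (extChartAt (𝓡∂ (d + 1)) (f s)).source ∈
        𝓝 (f ((extChartAt (𝓡 d) s).symm (extChartAt (𝓡 d) s s)))
      rw [extChartAt_to_inv]
      exact extChartAt_source_mem_nhds (f s)
    filter_upwards [h4] with y hy
    have h5 : f ((extChartAt (𝓡 d) s).symm y) ∈ (𝓡∂ (d + 1)).boundary Ω := by
      rw [← hrange]; exact mem_range_self _
    exact (mem_bdry_iff_pt hy).1 h5
  rw [← hv]
  exact deriv_coord_zero h1 (by simp) h3 u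

/-- The range of `df` is the tangent space of the boundary. -/
theorem range_mfderiv (s : S) (v : Eu (d + 1)) :
    (∃ u : Eu d, mfderiv (𝓡 d) (𝓡∂ (d + 1)) f s u = v) ↔ v 0 = 0 := by
  constructor
  · rintro ⟨u, hu⟩
    exact mfderiv_tangential hf hinj himm hrange s u v hu
  · intro hv
    let L : Eu d →ₗ[ℝ] Eu (d + 1) :=
      (mfderiv (𝓡 d) (𝓡∂ (d + 1)) f s : Eu d →L[ℝ] Eu (d + 1)).toLinearMap
    have hLinj : Function.Injective L := himm s
    let W : Submodule ℝ (Eu (d + 1)) :=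
      LinearMap.ker (EuclideanSpace.proj (𝕜 := ℝ) (0 : Fin (d + 1)) : Eu (d + 1) →L[ℝ] ℝ).toLinearMap
    have hle : LinearMap.range L ≤ W := by
      rintro v' ⟨u, hu⟩
      exact mfderiv_tangential hf hinj himm hrange s u v' hu
    have hW : Module.finrank ℝ W = d := by
      have h1 := LinearMap.finrank_range_add_finrank_ker
        (EuclideanSpace.proj (𝕜 := ℝ) (0 : Fin (d + 1)) : Eu (d + 1) →L[ℝ] ℝ).toLinearMap
      have h2 : LinearMap.range
          (EuclideanSpace.proj (𝕜 := ℝ) (0 : Fin (d + 1)) : Eu (d + 1) →L[ℝ] ℝ).toLinearMap = ⊤ := by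
        rw [LinearMap.range_eq_top]
        intro c
        exact ⟨EuclideanSpace.single 0 c, by simp⟩
      rw [h2, finrank_top, finrank_euclideanSpace_fin, Module.finrank_self] at h1
      show Module.finrank ℝ (LinearMap.ker
        (EuclideanSpace.proj (𝕜 := ℝ) (0 : Fin (d + 1)) : Eu (d + 1) →L[ℝ] ℝ).toLinearMap) = d
      omega
    have hR : Module.finrank ℝ (LinearMap.range L) = d := by
      rw [LinearMap.finrank_range_of_inj hLinj, finrank_euclideanSpace_fin]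
    have heq : LinearMap.range L = W :=
      Submodule.eq_of_le_of_finrank_eq hle (hR.trans hW.symm)
    have hvW : v ∈ W := hv
    rw [← heq] at hvW
    exact hvW

theorem mem_dirS_iff {q : ℕ} (w : SForm (𝓡∂ (d + 1)) Ω q) :
    w ∈ dirS Ω q ↔ pull (𝓡∂ (d + 1)) (𝓡 d) f w.val = 0 := by
  constructor
  · intro hw
    funext s
    ext u
    have hb : f s ∈ (𝓡∂ (d + 1)).boundary Ω := by rw [← hrange]; exact mem_range_self _
    exact hw (f s) hb (fun l => mfderiv (𝓡 d) (𝓡∂ (d + 1)) f s (u l))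
      (fun l => mfderiv_tangential hf hinj himm hrange s (u l) _ rfl)
  · intro hw z hz v hv
    rw [← hrange] at hz
    obtain ⟨s, rfl⟩ := hz
    choose u hu using fun l => (range_mfderiv hf hinj himm hrange s (v l)).2 (hv l)
    have h1 := DFunLike.congr_fun (congrFun hw s) u
    have h2 : v = fun l => mfderiv (𝓡 d) (𝓡∂ (d + 1)) f s (u l) := funext fun l => (hu l).symm
    rw [h2]
    exact h1

end DtN
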