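import Pool.Agent.H14.DtN.BdryX0

/-!
MODULE J : the boundary immersion, extension of functions.
-/

open scoped Manifold ContDiff Topology ComplexConjugate
open Set MeasureTheory

set_option linter.unusedSectionVars false

noncomputable section

namespace DtN.J2

variable {d : ℕ} {Ω : Type*} [TopologicalSpace Ω] [ChartedSpace (EuclideanHalfSpace (d + 1)) Ω]
  [IsManifold (𝓡∂ (d + 1)) ∞ Ω]
variable {S : Type*} [TopologicalSpace S] [ChartedSpace (Eu d) S] [IsManifold (𝓡 d) ∞ S]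
  {f : S → Ω}

/-- The expression of `f` in the preferred charts at `s` and `f s`. -/
def locExp (f : S → Ω) (s : S) : Eu d → Eu (d + 1) :=
  extChartAt (𝓡∂ (d + 1)) (f s) ∘ f ∘ (extChartAt (𝓡 d) s).symm

/-- The differential of `f` as a map of Euclidean spaces. -/
def dfS (f : S → Ω) (s : S) : Eu d →L[ℝ] Eu (d + 1) := mfderiv (𝓡 d) (𝓡∂ (d + 1)) f s

theorem locExp_hasFDerivAt (hf : ContMDiff (𝓡 d) (𝓡∂ (d + 1)) ∞ f) (s : S) :
    HasFDerivAt (locExp f s) (dfS f s) (extChartAt (𝓡 d) s s) := by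
  have h1 : MDifferentiableAt (𝓡 d) (𝓡∂ (d + 1)) f s :=
    (hf s).mdifferentiableAt (by simp)
  have h2 : HasFDerivWithinAt (locExp f s) (dfS f s) (range (𝓡 d)) (extChartAt (𝓡 d) s s) :=
    h1.hasMFDerivAt.2
  have h3 : range (𝓡 d) = univ := ModelWithCorners.range_eq_univ _
  rw [h3, hasFDerivWithinAt_univ] at h2
  exact h2

theorem mfderiv_coord_zero (hf : ContMDiff (𝓡 d) (𝓡∂ (d + 1)) ∞ f)
    (hb : ∀ s, f s ∈ (𝓡∂ (d + 1)).boundary Ω) (s : S) (u : Eu d) :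
    (dfS f s u) 0 = 0 := by
  have h1 := locExp_hasFDerivAt hf s
  have h2 : HasFDerivAt (fun y => (locExp f s y) 0)
      ((EuclideanSpace.proj (0 : Fin (d + 1)) : Eu (d + 1) →L[ℝ] ℝ).comp
        (dfS f s)) (extChartAt (𝓡 d) s s) :=
    (EuclideanSpace.proj (0 : Fin (d + 1)) :
      Eu (d + 1) →L[ℝ] ℝ).hasFDerivAt.comp (extChartAt (𝓡 d) s s) h1
  have hmin : IsLocalMin (fun y => (locExp f s y) 0) (extChartAt (𝓡 d) s s) := by
    refine Filter.Eventually.of_forall fun y => ?_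
    show (extChartAt (𝓡∂ (d + 1)) (f s) (f ((extChartAt (𝓡 d) s).symm
      (extChartAt (𝓡 d) s s)))) 0 ≤ _
    rw [extChartAt_to_inv, (boundary_iff (mem_extChartAt_source (f s))).mp (hb s)]
    exact chart_nonneg _ _
  have h3 := hmin.hasFDerivAt_eq_zero h2
  exact congrArg (fun L : Eu d →L[ℝ] ℝ => L u) h3

/-- The range of `df` is the tangent space of the boundary. -/
theorem range_mfderiv_aux (hf : ContMDiff (𝓡 d) (𝓡∂ (d + 1)) ∞ f)
    (himm : ∀ s, Function.Injective (mfderiv (𝓡 d) (𝓡∂ (d + 1)) f s))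
    (hb : ∀ s, f s ∈ (𝓡∂ (d + 1)).boundary Ω) (s : S) (v : Eu (d + 1)) :
    (∃ u : Eu d, mfderiv (𝓡 d) (𝓡∂ (d + 1)) f s u = v) ↔ v 0 = 0 := by
  constructor
  · rintro ⟨u, rfl⟩
    exact mfderiv_coord_zero hf hb s u
  · intro hv
    set L : Eu d →ₗ[ℝ] Eu (d + 1) := (dfS (d := d) f s).toLinearMap with hL
    have h1 : Module.finrank ℝ (LinearMap.range L) = d := by
      have hLinj : Function.Injective L := himm s
      rw [LinearMap.finrank_range_of_inj hLinj]; simp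
    set P : Eu (d + 1) →ₗ[ℝ] ℝ :=
      ((EuclideanSpace.proj (0 : Fin (d + 1)) : Eu (d + 1) →L[ℝ] ℝ) : Eu (d + 1) →ₗ[ℝ] ℝ) with hP
    have h2 : LinearMap.range L ≤ LinearMap.ker P := by
      rintro _ ⟨u, rfl⟩
      exact mfderiv_coord_zero hf hb s u
    have h3 : Module.finrank ℝ (LinearMap.ker P) = d := by
      have h4 := LinearMap.finrank_range_add_finrank_ker P
      have h5 : LinearMap.range P = ⊤ := by
        rw [LinearMap.range_eq_top]
        intro a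
        exact ⟨EuclideanSpace.single 0 a, by simp [hP]⟩
      rw [h5, finrank_top] at h4
      simp at h4
      omega
    have h4 : LinearMap.range L = LinearMap.ker P :=
      Submodule.eq_of_le_of_finrank_eq h2 (by rw [h1, h3])
    have h5 : v ∈ LinearMap.ker P := hv
    rw [← h4] at h5
    exact h5

/-- Inverse function theorem, smooth version on a neighbourhood. -/
theorem exists_smooth_inverse {E : Type*} [NormedAddCommGroup E] [NormedSpace ℝ E]
    [FiniteDimensional ℝ E] {G : E → E} {O : Set E} (hO : IsOpen O) (hG : ContDiffOn ℝ ∞ G O)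
    {y₀ : E} (hy₀ : y₀ ∈ O) {L : E →L[ℝ] E} (hL : HasFDerivAt G L y₀)
    (hinj : Function.Injective L) :
    ∃ (Ψ : E → E) (A B : Set E), IsOpen A ∧ IsOpen B ∧ y₀ ∈ A ∧ A ⊆ O ∧
      ContDiffOn ℝ ∞ Ψ B ∧ (∀ y ∈ A, G y ∈ B ∧ Ψ (G y) = y) ∧ ∀ x ∈ B, Ψ x ∈ A := by
  have : CompleteSpace E := FiniteDimensional.complete ℝ E
  set e0 : E ≃L[ℝ] E := (LinearEquiv.ofInjectiveEndo (L : E →ₗ[ℝ] E) hinj).toContinuousLinearEquiv
  have he0 : (e0 : E →L[ℝ] E) = L := by ext v; rfl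
  have hGat : ContDiffAt ℝ ∞ G y₀ := hG.contDiffAt (hO.mem_nhds hy₀)
  have hf' : HasFDerivAt G (e0 : E →L[ℝ] E) y₀ := by rw [he0]; exact hL
  set e := hGat.toOpenPartialHomeomorph G hf' (by simp) with he
  have hec : (e : E → E) = G := ContDiffAt.toOpenPartialHomeomorph_coe hGat hf' (by simp)
  have hys : y₀ ∈ e.source := ContDiffAt.mem_toOpenPartialHomeomorph_source hGat hf' (by simp)
  have hcont : ContinuousOn (fderiv ℝ G) O := hG.continuousOn_fderiv_of_isOpen hO (by simp)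
  set A0 : Set E := O ∩ fderiv ℝ G ⁻¹' (range ((↑) : (E ≃L[ℝ] E) → E →L[ℝ] E)) with hA0
  have hA0o : IsOpen A0 := hcont.isOpen_inter_preimage hO ContinuousLinearEquiv.isOpen
  refine ⟨e.symm, e.source ∩ A0, e.target ∩ e.symm ⁻¹' A0, e.open_source.inter hA0o,
    e.isOpen_inter_preimage_symm hA0o, ⟨hys, hy₀, ?_⟩, fun y hy => hy.2.1, ?_, ?_, ?_⟩
  · rw [mem_preimage, hf'.fderiv]; exact mem_range_self _
  · intro x hx
    obtain ⟨hx1, hx2, E', hE'⟩ := hx
    refine (e.contDiffAt_symm (f₀' := E') hx1 ?_ ?_).contDiffWithinAt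
    · rw [hE', hec]
      exact ((hG.contDiffAt (hO.mem_nhds hx2)).differentiableAt (by simp)).hasFDerivAt
    · rw [hec]; exact hG.contDiffAt (hO.mem_nhds hx2)
  · intro y hy
    have h1 : e.symm (G y) = y := by rw [← hec]; exact e.left_inv hy.1
    refine ⟨⟨?_, ?_⟩, h1⟩
    · rw [← hec]; exact e.map_source hy.1
    · rw [mem_preimage, h1]; exact hy.2
  · intro x hx
    exact ⟨e.map_target hx.1, hx.2⟩

/-- Forget the first coordinate. -/
def tail (d : ℕ) : Eu (d + 1) →L[ℝ] Eu d :=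
  LinearMap.toContinuousLinearMap
    { toFun := fun y => WithLp.toLp 2 fun i => y i.succ
      map_add' := fun x y => by ext i; rfl
      map_smul' := fun c x => by ext i; rfl }

theorem tail_apply (y : Eu (d + 1)) (i : Fin d) : tail d y i = y i.succ := rfl

theorem eq_zero_of_tail {y : Eu (d + 1)} (h0 : y 0 = 0) (h : tail d y = 0) : y = 0 := by
  ext i
  refine Fin.cases h0 (fun j => ?_) i
  have := congrArg (fun w : Eu d => w j) h
  exact this

/-- Local extension at a boundary point. -/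
theorem exists_local_extension [CompactSpace S] [T2Space Ω]
    (hf : ContMDiff (𝓡 d) (𝓡∂ (d + 1)) ∞ f) (hinj : Function.Injective f)
    (himm : ∀ s, Function.Injective (mfderiv (𝓡 d) (𝓡∂ (d + 1)) f s))
    (hb : ∀ s, f s ∈ (𝓡∂ (d + 1)).boundary Ω) {F : Type*} [NormedAddCommGroup F]
    [NormedSpace ℝ F] (h : S → F) (hh : ContMDiff (𝓡 d) 𝓘(ℝ, F) ∞ h) (s₀ : S) :
    ∃ W ∈ 𝓝 (f s₀), ∃ b : Ω → F, ContMDiffOn (𝓡∂ (d + 1)) 𝓘(ℝ, F) ∞ b W ∧
      ∀ z ∈ W, ∀ s, f s = z → b z = h s := by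
  set φ := extChartAt (𝓡∂ (d + 1)) (f s₀) with hφ
  set κ := extChartAt (𝓡 d) s₀ with hκ
  have hκto : IsOpen κ.target := isOpen_extChartAt_target s₀
  have hκso : IsOpen κ.source := isOpen_extChartAt_source s₀
  have hφso : IsOpen φ.source := isOpen_extChartAt_source (f s₀)
  have hκs : ContMDiffOn 𝓘(ℝ, Eu d) (𝓡 d) ∞ κ.symm κ.target := contMDiffOn_extChartAt_symm s₀
  have hφs : ContMDiffOn (𝓡∂ (d + 1)) 𝓘(ℝ, Eu (d + 1)) ∞ φ φ.source := by
    rw [hφ, extChartAt_source]; exact contMDiffOn_extChartAt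
  have hκc : ContinuousOn κ.symm κ.target := hκs.continuousOn
  set O : Set (Eu d) := κ.target ∩ κ.symm ⁻¹' (f ⁻¹' φ.source) with hO
  have hOo : IsOpen O := hκc.isOpen_inter_preimage hκto (hφso.preimage hf.continuous)
  have hF0 : ContDiffOn ℝ ∞ (locExp f s₀) O := by
    rw [← contMDiffOn_iff_contDiffOn]
    have h1 : ContMDiffOn 𝓘(ℝ, Eu d) (𝓡∂ (d + 1)) ∞ (f ∘ κ.symm) O :=
      hf.comp_contMDiffOn (hκs.mono inter_subset_left)
    exact hφs.comp h1 fun y hy => hy.2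
  have hG : ContDiffOn ℝ ∞ (fun y => tail d (locExp f s₀ y)) O :=
    (tail d).contDiff.comp_contDiffOn hF0
  have hy₀ : κ s₀ ∈ O := by
    refine ⟨mem_extChartAt_target s₀, ?_⟩
    show f (κ.symm (κ s₀)) ∈ φ.source
    rw [hκ, extChartAt_to_inv]
    exact mem_extChartAt_source (f s₀)
  have hL : HasFDerivAt (fun y => tail d (locExp f s₀ y)) ((tail d).comp (dfS f s₀)) (κ s₀) :=
    (tail d).hasFDerivAt.comp (κ s₀) (locExp_hasFDerivAt hf s₀)
  have hLinj : Function.Injective ((tail d).comp (dfS f s₀)) := by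
    rw [injective_iff_map_eq_zero]
    intro u hu
    have h1 : dfS f s₀ u = 0 := eq_zero_of_tail (mfderiv_coord_zero hf hb s₀ u) hu
    have h2 : Function.Injective (dfS f s₀) := himm s₀
    exact h2 (by rw [h1, map_zero])
  obtain ⟨Ψ, A, B, hA, hB, hyA, hAO, hΨ, hAB, hBA⟩ :=
    exists_smooth_inverse hOo hG hy₀ hL hLinj
  have hemb : Topology.IsClosedEmbedding f := hf.continuous.isClosedEmbedding hinj
  have hV : κ.source ∩ κ ⁻¹' A ∈ 𝓝 s₀ := by
    have h1 : IsOpen (κ.source ∩ κ ⁻¹' A) :=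
      (continuousOn_extChartAt s₀).isOpen_inter_preimage hκso hA
    exact h1.mem_nhds ⟨mem_extChartAt_source s₀, hyA⟩
  rw [hemb.isInducing.nhds_eq_comap, Filter.mem_comap] at hV
  obtain ⟨U1, hU1, hU1V⟩ := hV
  have hW2 : φ.source ∩ φ ⁻¹' (tail d ⁻¹' B) ∈ 𝓝 (f s₀) := by
    have h1 : IsOpen (φ.source ∩ φ ⁻¹' (tail d ⁻¹' B)) :=
      (continuousOn_extChartAt (f s₀)).isOpen_inter_preimage hφso
        (hB.preimage (tail d).continuous)
    refine h1.mem_nhds ⟨mem_extChartAt_source (f s₀), ?_⟩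
    show tail d (φ (f s₀)) ∈ B
    have h2 := (hAB _ hyA).1
    have h3 : locExp f s₀ (κ s₀) = φ (f s₀) := by
      show φ (f (κ.symm (κ s₀))) = _
      rw [hκ, extChartAt_to_inv]
    rw [h3] at h2
    exact h2
  refine ⟨_, Filter.inter_mem hW2 hU1, fun z => h (κ.symm (Ψ (tail d (φ z)))), ?_, ?_⟩
  · have h1 : ContMDiffOn (𝓡∂ (d + 1)) 𝓘(ℝ, Eu d) ∞ (fun z => tail d (φ z))
        (φ.source ∩ φ ⁻¹' (tail d ⁻¹' B)) :=
      (tail d).contMDiff.comp_contMDiffOn (hφs.mono inter_subset_left)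
    have h2 : ContMDiffOn (𝓡∂ (d + 1)) 𝓘(ℝ, Eu d) ∞ (fun z => Ψ (tail d (φ z)))
        (φ.source ∩ φ ⁻¹' (tail d ⁻¹' B)) :=
      (contMDiffOn_iff_contDiffOn.mpr hΨ).comp h1 fun z hz => hz.2
    have h3 : ContMDiffOn (𝓡∂ (d + 1)) (𝓡 d) ∞ (fun z => κ.symm (Ψ (tail d (φ z))))
        (φ.source ∩ φ ⁻¹' (tail d ⁻¹' B)) :=
      hκs.comp h2 fun z hz => (hAO (hBA _ hz.2)).1
    exact (hh.comp_contMDiffOn h3).mono inter_subset_left
  · rintro z ⟨hz1, hz2⟩ s rfl
    have hs : s ∈ κ.source ∩ κ ⁻¹' A := hU1V hz2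
    have h1 := (hAB _ hs.2).2
    have h2 : locExp f s₀ (κ s) = φ (f s) := by
      show φ (f (κ.symm (κ s))) = _
      rw [κ.left_inv hs.1]
    rw [h2] at h1
    show h (κ.symm (Ψ (tail d (φ (f s))))) = h s
    rw [h1, κ.left_inv hs.1]

/-- Smooth functions on the boundary extend. -/
theorem exists_extension_aux [CompactSpace Ω] [T2Space Ω] [CompactSpace S]
    (hf : ContMDiff (𝓡 d) (𝓡∂ (d + 1)) ∞ f) (hinj : Function.Injective f)
    (himm : ∀ s, Function.Injective (mfderiv (𝓡 d) (𝓡∂ (d + 1)) f s))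
    (hrange : range f = (𝓡∂ (d + 1)).boundary Ω) {F : Type*} [NormedAddCommGroup F]
    [NormedSpace ℝ F] (h : S → F) (hh : ContMDiff (𝓡 d) 𝓘(ℝ, F) ∞ h) :
    ∃ b : Ω → F, ContMDiff (𝓡∂ (d + 1)) 𝓘(ℝ, F) ∞ b ∧ ∀ s, b (f s) = h s := by
  have hb : ∀ s, f s ∈ (𝓡∂ (d + 1)).boundary Ω := fun s => hrange ▸ mem_range_self s
  obtain ⟨b, hb'⟩ := exists_contMDiffMap_forall_mem_convex_of_local (n := (⊤ : ℕ∞))
    (𝓡∂ (d + 1)) (t := fun z : Ω => {c : F | ∀ s, f s = z → c = h s}) (by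
      intro z a ha b hb α β _ _ hab s hs
      rw [ha s hs, hb s hs, ← add_smul, hab, one_smul]) (by
      intro z
      by_cases hz : z ∈ (𝓡∂ (d + 1)).boundary Ω
      · rw [← hrange] at hz
        obtain ⟨s₀, rfl⟩ := hz
        exact exists_local_extension hf hinj himm hb h hh s₀
      · refine ⟨((𝓡∂ (d + 1)).boundary Ω)ᶜ, ?_, fun _ => 0, contMDiffOn_const, ?_⟩
        · exact (((𝓡∂ (d + 1)).isClosed_boundary (n := ∞) (by simp)).isOpen_compl).mem_nhds hz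
        · intro z' hz' s hs
          exact absurd (hs ▸ hb s) hz')
  exact ⟨b, b.contMDiff, fun s => hb' (f s) s rfl⟩

end DtN.J2
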