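import Pool.Agent.H14.DtN.Gaff
import Pool.Agent.H14.DtN.AltSmooth
import Pool.Agent.H14.DtN.BdryX1

/-!
MODULE J2 : the normal field, dual tangential fields.
-/

open scoped Manifold ContDiff Topology ComplexConjugate
open Set MeasureTheory

set_option linter.unusedSectionVars false

noncomputable section

namespace DtN.J2

variable {d : ℕ} {Ω : Type*} [TopologicalSpace Ω] [ChartedSpace (EuclideanHalfSpace (d + 1)) Ω]
  [IsManifold (𝓡∂ (d + 1)) ∞ Ω] [CompactSpace Ω] [T2Space Ω]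

section normal

variable (g : Metric (𝓡∂ (d + 1)) Ω)

/-- the metric in a chart -/
theorem metric_chart (x₀ : Ω) (y : Eu (d + 1)) (a b : Eu (d + 1)) :
    g.val ((extChartAt (𝓡∂ (d + 1)) x₀).symm y) (dsymm (𝓡∂ (d + 1)) x₀ y a)
      (dsymm (𝓡∂ (d + 1)) x₀ y b) = ∑ j, (∑ i, a i * g.gram x₀ y i j) * b j := by
  conv_lhs => rw [AS.vec_expand a, AS.vec_expand b]
  simp only [map_sum, map_smul, sum_apply, smul_apply, smul_eq_mul]
  refine Finset.sum_congr rfl fun j _ => ?_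
  rw [mul_comm]
  rfl

/-- the coordinates of the outward normal in a chart -/
def nrm (x₀ : Ω) (y : Eu (d + 1)) : Eu (d + 1) :=
  WithLp.toLp 2 fun i => -((g.gram x₀ y)⁻¹ i 0) / Real.sqrt ((g.gram x₀ y)⁻¹ 0 0)

theorem nrm_apply (x₀ : Ω) (y : Eu (d + 1)) (i : Fin (d + 1)) :
    nrm g x₀ y i = -((g.gram x₀ y)⁻¹ i 0) / Real.sqrt ((g.gram x₀ y)⁻¹ 0 0) := rfl

theorem inv_pos00 {x₀ : Ω} {y : Eu (d + 1)} (hy : y ∈ (extChartAt (𝓡∂ (d + 1)) x₀).target) :
    0 < (g.gram x₀ y)⁻¹ 0 0 := (gram_posDef g x₀ hy).inv.diag_pos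

theorem nrm_contDiffOn (x₀ : Ω) :
    ContDiffOn ℝ ∞ (nrm g x₀) (extChartAt (𝓡∂ (d + 1)) x₀).target := by
  rw [contDiffOn_euclidean]
  intro i
  have h1 := fun i j => AS.contDiffOn_inv (fun i j => gram_contDiffOn g x₀ i j)
    (fun y hy => (gram_posDef g x₀ hy).det_pos.ne') i j
  refine ((h1 i 0).neg).div ((h1 0 0).sqrt fun y hy => (inv_pos00 g hy).ne') fun y hy => ?_
  exact (Real.sqrt_pos.mpr (inv_pos00 g hy)).ne'

theorem nrm_inner {x₀ : Ω} {y : Eu (d + 1)} (hy : y ∈ (extChartAt (𝓡∂ (d + 1)) x₀).target)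
    (b : Eu (d + 1)) :
    g.val ((extChartAt (𝓡∂ (d + 1)) x₀).symm y) (dsymm (𝓡∂ (d + 1)) x₀ y (nrm g x₀ y))
      (dsymm (𝓡∂ (d + 1)) x₀ y b) = - b 0 / Real.sqrt ((g.gram x₀ y)⁻¹ 0 0) := by
  rw [metric_chart]
  set G := g.gram x₀ y with hG
  have hpos : G.PosDef := gram_posDef g x₀ hy
  have hdet : IsUnit G.det := hpos.det_pos.ne'.isUnit
  have hsymm : ∀ i, (G⁻¹) i 0 = (G⁻¹) 0 i := by
    intro i
    have h := hpos.inv.isHermitian.apply 0 i
    simpa using h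
  have h1 : ∀ j, ∑ i, nrm g x₀ y i * G i j
      = (if j = 0 then -1 else 0) / Real.sqrt (G⁻¹ 0 0) := by
    intro j
    have h2 : ∑ i, (G⁻¹) 0 i * G i j = (1 : Matrix (Fin (d + 1)) (Fin (d + 1)) ℝ) 0 j := by
      rw [← Matrix.nonsing_inv_mul G hdet, Matrix.mul_apply]
    have h3 : ∑ i, nrm g x₀ y i * G i j
        = - (∑ i, (G⁻¹) 0 i * G i j) / Real.sqrt (G⁻¹ 0 0) := by
      rw [← Finset.sum_neg_distrib, Finset.sum_div]
      refine Finset.sum_congr rfl fun i _ => ?_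
      rw [nrm_apply, ← hG, hsymm i]; ring
    rw [h3, h2, Matrix.one_apply]
    by_cases hj : j = 0
    · subst hj; simp
    · rw [if_neg (Ne.symm hj), if_neg hj]; simp
  rw [Finset.sum_congr rfl fun j _ => by rw [h1 j], Finset.sum_eq_single 0]
  · simp; ring
  · intro j _ hj; simp [hj]
  · simp

variable {S : Type*} [TopologicalSpace S] [ChartedSpace (Eu d) S] [IsManifold (𝓡 d) ∞ S]
  {f : S → Ω}

theorem normal_unique (hf : ContMDiff (𝓡 d) (𝓡∂ (d + 1)) ∞ f)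
    (himm : ∀ s, Function.Injective (mfderiv (𝓡 d) (𝓡∂ (d + 1)) f s))
    (hb : ∀ s, f s ∈ (𝓡∂ (d + 1)).boundary Ω) {ν : S → Eu (d + 1)} (hν : IsUnitNormal g f ν)
    {x₀ : Ω} (s : S) (hz : f s ∈ (extChartAt (𝓡∂ (d + 1)) x₀).source) :
    dsymm (𝓡∂ (d + 1)) x₀ (extChartAt (𝓡∂ (d + 1)) x₀ (f s))
      (nrm g x₀ (extChartAt (𝓡∂ (d + 1)) x₀ (f s))) = ν s := by
  set y := extChartAt (𝓡∂ (d + 1)) x₀ (f s) with hy
  have hyt : y ∈ (extChartAt (𝓡∂ (d + 1)) x₀).target := (extChartAt (𝓡∂ (d + 1)) x₀).map_source hz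
  have hsy : (extChartAt (𝓡∂ (d + 1)) x₀).symm y = f s := (extChartAt (𝓡∂ (d + 1)) x₀).left_inv hz
  set n := nrm g x₀ y with hn
  set w := dsymm (𝓡∂ (d + 1)) x₀ y n with hw
  obtain ⟨h1, h2, h3⟩ := hν s
  obtain ⟨c, hc, hcd⟩ := dchart_bdry hz (hb s)
  obtain ⟨c', hc', hcs⟩ := dsymm_bdry hz (hb s)
  have hq := inv_pos00 g hyt
  have hsq : 0 < Real.sqrt ((g.gram x₀ y)⁻¹ 0 0) := Real.sqrt_pos.mpr hq
  have hin := fun b => nrm_inner g hyt b
  rw [hsy] at hin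
  -- the vector w
  have hww : g.val (f s) w w = 1 := by
    have h4 := hin n
    have h5 : ∀ X r : ℝ, -(-X / r) / r = X / (r * r) := fun X r => by
      rw [neg_div, neg_div, neg_div, neg_neg, div_div]
    rw [h4, hn, nrm_apply, h5, Real.mul_self_sqrt hq.le, div_self hq.ne']
  have hw0 : w 0 < 0 := by
    have h4 := hcs n
    rw [← hy] at h4
    rw [hw, h4, hn, nrm_apply, neg_div]
    have : 0 < c' * ((g.gram x₀ y)⁻¹ 0 0 / Real.sqrt ((g.gram x₀ y)⁻¹ 0 0)) :=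
      mul_pos hc' (div_pos hq hsq)
    linarith
  have hwv : ∀ v : Eu (d + 1), v 0 = 0 → g.val (f s) w v = 0 := by
    intro v hv
    have h4 := hin (dchart (𝓡∂ (d + 1)) x₀ (f s) v)
    rw [hcd v, hv, mul_zero, neg_zero, zero_div] at h4
    have h5 : dsymm (𝓡∂ (d + 1)) x₀ y (dchart (𝓡∂ (d + 1)) x₀ (f s) v) = v :=
      congrArg (fun L : Eu (d + 1) →L[ℝ] Eu (d + 1) => L v)
        (mfderivWithin_extChartAt_symm_comp_mfderiv_extChartAt' (I := 𝓡∂ (d + 1)) hz)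
    rw [h5] at h4
    exact h4
  have hav : ∀ v : Eu (d + 1), v 0 = 0 → g.val (f s) (ν s) v = 0 := by
    intro v hv
    obtain ⟨u, rfl⟩ := (range_mfderiv_aux hf himm hb s v).mpr hv
    exact h2 u
  set r := w 0 / ν s 0 with hr
  have hrpos : 0 < r := div_pos_of_neg_of_neg hw0 h3
  have h0 : (w - r • ν s) 0 = 0 := by
    have : (w - r • ν s) 0 = w 0 - r * ν s 0 := rfl
    rw [this, hr, div_mul_cancel₀ _ h3.ne, sub_self]
  have h5 : g.val (f s) (w - r • ν s) (w - r • ν s) = 0 := by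
    have h6 : g.val (f s) (w - r • ν s) = g.val (f s) w - r • g.val (f s) (ν s) := by
      rw [map_sub, map_smul]
    rw [h6, sub_apply, smul_apply, hwv _ h0, hav _ h0]
    simp
  have h6 : w - r • ν s = 0 := by
    by_contra h7
    exact absurd h5 (g.pos' (f s) _ h7).ne'
  have h7 : w = r • ν s := sub_eq_zero.mp h6
  have h8 : r * r = 1 := by
    have h9 := hww
    have h10 : g.val (f s) (r • ν s) = r • g.val (f s) (ν s) := map_smul _ _ _
    rw [h7, h10, smul_apply, map_smul, h1] at h9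
    simpa using h9
  have h9 : r = 1 := by nlinarith
  rw [h7, h9, one_smul]

/-- The unit normal extends to a smooth vector field on `Ω`. -/
theorem exists_normal_field_aux (hf : ContMDiff (𝓡 d) (𝓡∂ (d + 1)) ∞ f)
    (himm : ∀ s, Function.Injective (mfderiv (𝓡 d) (𝓡∂ (d + 1)) f s))
    (hrange : range f = (𝓡∂ (d + 1)).boundary Ω) {ν : S → Eu (d + 1)}
    (hν : IsUnitNormal g f ν) :
    ∃ N : VF (𝓡∂ (d + 1)) Ω, ∀ s, N.val (f s) = ν s := by
  have hb : ∀ s, f s ∈ (𝓡∂ (d + 1)).boundary Ω := fun s => hrange ▸ mem_range_self s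
  obtain ⟨N, hN⟩ := exists_VF_of_local (I := 𝓡∂ (d + 1)) (M := Ω)
    (fun z => {v : Eu (d + 1) | ∀ s, f s = z → v = ν s}) (by
      intro z a ha b hb α β _ _ hab s hs
      rw [ha s hs, hb s hs, ← add_smul, hab, one_smul]) (by
      intro z₀
      refine ⟨z₀, (extChartAt (𝓡∂ (d + 1)) z₀).source, extChartAt_source_mem_nhds z₀, subset_rfl,
        fun z => nrm g z₀ (extChartAt (𝓡∂ (d + 1)) z₀ z), ?_, ?_⟩
      · have h1 : ContMDiffOn (𝓡∂ (d + 1)) 𝓘(ℝ, Eu (d + 1)) ∞ (extChartAt (𝓡∂ (d + 1)) z₀)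
            (extChartAt (𝓡∂ (d + 1)) z₀).source := by
          rw [extChartAt_source]; exact contMDiffOn_extChartAt
        exact (contMDiffOn_iff_contDiffOn.mpr (nrm_contDiffOn g z₀)).comp h1
          fun z hz => (extChartAt (𝓡∂ (d + 1)) z₀).map_source hz
      · rintro z hz s rfl
        exact normal_unique g hf himm hb hν s hz)
  exact ⟨N, fun s => hN (f s) s rfl⟩

end normal

section dual

variable {S : Type*} [TopologicalSpace S] [ChartedSpace (Eu d) S] [IsManifold (𝓡 d) ∞ S]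
  {f : S → Ω}

/-- a function in a chart -/
def inCh (x₀ : Ω) (b : SFun (𝓡∂ (d + 1)) Ω) : Eu (d + 1) → ℂ :=
  b.val ∘ (extChartAt (𝓡∂ (d + 1)) x₀).symm

/-- tangential derivatives of real functions in a chart -/
def jac (x₀ : Ω) (b : Fin d → SFun (𝓡∂ (d + 1)) Ω) (y : Eu (d + 1)) :
    Matrix (Fin d) (Fin d) ℝ :=
  Matrix.of fun l k => (fderivWithin ℝ (inCh x₀ (b l)) (range (𝓡∂ (d + 1))) y
    (EuclideanSpace.single k.succ 1)).re

theorem jac_contDiffOn (x₀ : Ω) (b : Fin d → SFun (𝓡∂ (d + 1)) Ω) (l k : Fin d) :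
    ContDiffOn ℝ ∞ (fun y => jac x₀ b y l k) (extChartAt (𝓡∂ (d + 1)) x₀).target := by
  have h1 : ContDiffOn ℝ ∞ (inCh x₀ (b l)) (extChartAt (𝓡∂ (d + 1)) x₀).target :=
    contDiffOn_symm (b l).smooth x₀
  have h2 : ContDiffOn ℝ ∞ (fderivWithin ℝ (inCh x₀ (b l)) (extChartAt (𝓡∂ (d + 1)) x₀).target)
      (extChartAt (𝓡∂ (d + 1)) x₀).target :=
    h1.fderivWithin (uniqueDiffOn_extChartAt_target x₀) (by norm_cast)
  have h3 : ContDiffOn ℝ ∞ (fun y => (fderivWithin ℝ (inCh x₀ (b l))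
      (extChartAt (𝓡∂ (d + 1)) x₀).target y (EuclideanSpace.single k.succ 1)).re)
      (extChartAt (𝓡∂ (d + 1)) x₀).target :=
    Complex.reCLM.contDiff.comp_contDiffOn (h2.clm_apply contDiffOn_const)
  refine h3.congr fun y hy => ?_
  have h4 : fderivWithin ℝ (inCh x₀ (b l)) (range (𝓡∂ (d + 1))) y =
      fderivWithin ℝ (inCh x₀ (b l)) (extChartAt (𝓡∂ (d + 1)) x₀).target y :=
    fderivWithin_of_mem_nhdsWithin (extChartAt_target_mem_nhdsWithin_of_mem hy)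
      ((𝓡∂ (d + 1)).uniqueDiffOn.uniqueDiffWithinAt (extChartAt_target_subset_range x₀ hy))
      ((h1.differentiableOn (by simp)) y hy)
  show (fderivWithin ℝ (inCh x₀ (b l)) (range (𝓡∂ (d + 1))) y _).re = _
  rw [h4]

theorem fderiv_real (x₀ : Ω) {b : SFun (𝓡∂ (d + 1)) Ω} (hb : ∀ z, conj (b.val z) = b.val z)
    {y : Eu (d + 1)} (hy : y ∈ (extChartAt (𝓡∂ (d + 1)) x₀).target) (v : Eu (d + 1)) :
    (((fderivWithin ℝ (inCh x₀ b) (range (𝓡∂ (d + 1))) y v).re : ℝ) : ℂ) =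
      fderivWithin ℝ (inCh x₀ b) (range (𝓡∂ (d + 1))) y v := by
  rw [← Complex.conj_eq_iff_re]
  have h1 := Complex.conjCLE.comp_fderivWithin (f := inCh x₀ b) (s := range (𝓡∂ (d + 1))) (x := y)
    ((𝓡∂ (d + 1)).uniqueDiffOn.uniqueDiffWithinAt (extChartAt_target_subset_range x₀ hy))
  have h2 : (Complex.conjCLE : ℂ → ℂ) ∘ inCh x₀ b = inCh x₀ b := by
    funext y'
    exact hb _
  rw [h2] at h1
  exact (congrArg (fun L : Eu (d + 1) →L[ℝ] ℂ => L v) h1).symm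

/-- The local dual fields in coordinates. -/
def dualV (x₀ : Ω) (b : Fin d → SFun (𝓡∂ (d + 1)) Ω) (j : Fin d) (y : Eu (d + 1)) : Eu (d + 1) :=
  WithLp.toLp 2 (Fin.cons 0 fun k => (jac x₀ b y)⁻¹ k j)

theorem dualV_zero (x₀ : Ω) (b : Fin d → SFun (𝓡∂ (d + 1)) Ω) (j : Fin d) (y : Eu (d + 1)) :
    dualV x₀ b j y 0 = 0 := rfl

theorem dualV_succ (x₀ : Ω) (b : Fin d → SFun (𝓡∂ (d + 1)) Ω) (j : Fin d) (y : Eu (d + 1))
    (k : Fin d) : dualV x₀ b j y k.succ = (jac x₀ b y)⁻¹ k j := rfl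

theorem vec_expand_succ {v : Eu (d + 1)} (hv : v 0 = 0) :
    v = ∑ k : Fin d, v k.succ • (EuclideanSpace.single k.succ 1 : Eu (d + 1)) := by
  conv_lhs => rw [AS.vec_expand v, Fin.sum_univ_succ, hv, zero_smul, zero_add]

theorem dual_fderiv (x₀ : Ω) {b : Fin d → SFun (𝓡∂ (d + 1)) Ω}
    (hb : ∀ j z, conj ((b j).val z) = (b j).val z) {y : Eu (d + 1)}
    (hy : y ∈ (extChartAt (𝓡∂ (d + 1)) x₀).target) {v : Eu (d + 1)} (hv : v 0 = 0) (l : Fin d) :
    fderivWithin ℝ (inCh x₀ (b l)) (range (𝓡∂ (d + 1))) y v =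
      ((∑ k, jac x₀ b y l k * v k.succ : ℝ) : ℂ) := by
  conv_lhs => rw [vec_expand_succ hv]
  rw [map_sum, Complex.ofReal_sum]
  refine Finset.sum_congr rfl fun k _ => ?_
  rw [map_smul, ← fderiv_real x₀ (hb l) hy, Complex.ofReal_mul, mul_comm, Complex.real_smul]
  rfl

theorem exists_local_dual (hf : ContMDiff (𝓡 d) (𝓡∂ (d + 1)) ∞ f)
    (himm : ∀ s, Function.Injective (mfderiv (𝓡 d) (𝓡∂ (d + 1)) f s))
    (hbd : ∀ s, f s ∈ (𝓡∂ (d + 1)).boundary Ω) (b : Fin d → SFun (𝓡∂ (d + 1)) Ω)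
    (hb : ∀ j z, conj ((b j).val z) = (b j).val z) (s : S)
    (hind : ∀ u : Eu d, (∀ j, (b j).dF (f s) (mfderiv (𝓡 d) (𝓡∂ (d + 1)) f s u) = 0) → u = 0) :
    ∃ W : Set Ω, IsOpen W ∧ f s ∈ W ∧ W ⊆ (extChartAt (𝓡∂ (d + 1)) (f s)).source ∧
      ∀ j, ∃ v : Ω → Eu (d + 1), ContMDiffOn (𝓡∂ (d + 1)) 𝓘(ℝ, Eu (d + 1)) ∞ v W ∧
        ∀ z ∈ W, (z ∈ (𝓡∂ (d + 1)).boundary Ω →
          (dsymm (𝓡∂ (d + 1)) (f s) (extChartAt (𝓡∂ (d + 1)) (f s) z) (v z)) 0 = 0) ∧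
          ∀ l, (b l).dF z (dsymm (𝓡∂ (d + 1)) (f s) (extChartAt (𝓡∂ (d + 1)) (f s) z) (v z)) =
            if j = l then 1 else 0 := by
  set φ := extChartAt (𝓡∂ (d + 1)) (f s) with hφ
  have hφs : ContMDiffOn (𝓡∂ (d + 1)) 𝓘(ℝ, Eu (d + 1)) ∞ φ φ.source := by
    rw [hφ, extChartAt_source]; exact contMDiffOn_extChartAt
  have hφso : IsOpen φ.source := isOpen_extChartAt_source (f s)
  have hdet : ContDiffOn ℝ ∞ (fun y => (jac (f s) b y).det) φ.target :=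
    AS.contDiffOn_det fun l k => jac_contDiffOn (f s) b l k
  have hdet0 : (jac (f s) b (φ (f s))).det ≠ 0 := by
    intro h0
    obtain ⟨a, ha, hMa⟩ := Matrix.exists_mulVec_eq_zero_iff.mpr h0
    apply ha
    have hv0 : (WithLp.toLp 2 (Fin.cons 0 a) : Eu (d + 1)) 0 = 0 := rfl
    obtain ⟨u, hu⟩ := (range_mfderiv_aux hf himm hbd s _).mpr hv0
    have hy : φ (f s) ∈ φ.target := mem_extChartAt_target (f s)
    have h1 : u = 0 := by
      refine hind u fun l => ?_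
      rw [hu]
      have h2 := dF_rep (b l) hy (WithLp.toLp 2 (Fin.cons 0 a) : Eu (d + 1))
      rw [hφ, extChartAt_to_inv, dsymm_self] at h2
      have h3 := dual_fderiv (f s) hb hy hv0 l
      rw [hφ] at h3
      refine (h2.trans h3).trans ?_
      have h4 := congrFun hMa l
      have h5 : ∑ k, jac (f s) b (φ (f s)) l k * (WithLp.toLp 2 (Fin.cons 0 a) : Eu (d + 1)) k.succ
          = 0 := h4
      rw [hφ] at h5
      rw [h5]; simp
    subst h1
    have h6 : (WithLp.toLp 2 (Fin.cons 0 a) : Eu (d + 1)) = 0 := by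
      rw [← hu]; exact map_zero _
    funext k
    have := congrArg (fun w : Eu (d + 1) => w k.succ) h6
    exact this
  have hcont : ContinuousOn (fun z => (jac (f s) b (φ z)).det) φ.source :=
    hdet.continuousOn.comp hφs.continuousOn fun z hz => φ.map_source hz
  refine ⟨φ.source ∩ (fun z => (jac (f s) b (φ z)).det) ⁻¹' {0}ᶜ,
    hcont.isOpen_inter_preimage hφso isOpen_compl_singleton,
    ⟨mem_extChartAt_source (f s), hdet0⟩, inter_subset_left, fun j => ?_⟩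
  refine ⟨fun z => dualV (f s) b j (φ z), ?_, ?_⟩
  · have h1 : ContDiffOn ℝ ∞ (dualV (f s) b j)
        (φ.target ∩ (fun y => (jac (f s) b y).det) ⁻¹' {0}ᶜ) := by
      rw [contDiffOn_euclidean]
      intro i
      refine Fin.cases ?_ (fun k => ?_) i
      · exact contDiffOn_const
      · exact AS.contDiffOn_inv (fun l k => (jac_contDiffOn (f s) b l k).mono inter_subset_left)
          (fun y hy => hy.2) k j
    exact (contMDiffOn_iff_contDiffOn.mpr h1).comp (hφs.mono inter_subset_left)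
      fun z hz => ⟨φ.map_source hz.1, hz.2⟩
  · intro z hz
    have hy : φ z ∈ φ.target := φ.map_source hz.1
    refine ⟨fun hzb => ?_, fun l => ?_⟩
    · obtain ⟨c, _, hc⟩ := dsymm_bdry hz.1 hzb
      have := hc (dualV (f s) b j (φ z))
      rw [dualV_zero, mul_zero] at this
      exact this
    · have h2 := dF_rep (b l) hy (dualV (f s) b j (φ z))
      rw [φ.left_inv hz.1] at h2
      refine h2.trans ((dual_fderiv (f s) hb hy (dualV_zero _ _ _ _) l).trans ?_)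
      have hu : IsUnit (jac (f s) b (φ z)).det := isUnit_iff_ne_zero.mpr hz.2
      have h3 : ∑ k, jac (f s) b (φ z) l k * dualV (f s) b j (φ z) k.succ
          = (1 : Matrix (Fin d) (Fin d) ℝ) l j := by
        rw [← Matrix.mul_nonsing_inv _ hu, Matrix.mul_apply]
        rfl
      rw [h3, Matrix.one_apply]
      by_cases hjl : j = l
      · subst hjl; simp
      · rw [if_neg hjl, if_neg (Ne.symm hjl)]; simp

/-- Tangential fields dual to given functions. -/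
theorem exists_dual_fields_aux (hf : ContMDiff (𝓡 d) (𝓡∂ (d + 1)) ∞ f)
    (himm : ∀ s, Function.Injective (mfderiv (𝓡 d) (𝓡∂ (d + 1)) f s))
    (hrange : range f = (𝓡∂ (d + 1)).boundary Ω) (b : Fin d → SFun (𝓡∂ (d + 1)) Ω)
    (hb : ∀ j z, conj ((b j).val z) = (b j).val z) (K : Set S) (hK : IsCompact K)
    (hind : ∀ s ∈ K, ∀ u : Eu d, (∀ j, (b j).dF (f s)
      (mfderiv (𝓡 d) (𝓡∂ (d + 1)) f s u) = 0) → u = 0) :
    ∃ V : Fin d → VF (𝓡∂ (d + 1)) Ω, (∀ j, TangVF (V j)) ∧ ∃ U : Set Ω, IsOpen U ∧ f '' K ⊆ U ∧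
      ∀ z ∈ U, ∀ j l, (der (V j) (b l)).val z = if j = l then 1 else 0 := by
  have hbd : ∀ s, f s ∈ (𝓡∂ (d + 1)).boundary Ω := fun s => hrange ▸ mem_range_self s
  choose! W hWo hWm hWs hWv using fun s (hs : s ∈ K) =>
    exists_local_dual hf himm hbd b hb s (hind s hs)
  have hT : IsOpen (⋃ s ∈ K, W s) := isOpen_biUnion fun s hs => hWo s hs
  have hKc : IsClosed (f '' K) := (hK.image hf.continuous).isClosed
  have hKT : f '' K ⊆ ⋃ s ∈ K, W s := by
    rintro _ ⟨s, hs, rfl⟩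
    exact mem_biUnion hs (hWm s hs)
  obtain ⟨U, hUo, hKU, hUT⟩ := normal_exists_closure_subset hKc hT hKT
  have key : ∀ j : Fin d, ∃ V : VF (𝓡∂ (d + 1)) Ω, ∀ z,
      V.val z ∈ {v : Eu (d + 1) | (z ∈ (𝓡∂ (d + 1)).boundary Ω → v 0 = 0) ∧
        (z ∈ closure U → ∀ l, (b l).dF z v = if j = l then 1 else 0)} := by
    intro j
    refine exists_VF_of_local (I := 𝓡∂ (d + 1)) (M := Ω) _ ?_ ?_
    · intro z v hv w hw α β hα hβ hab
      refine ⟨fun hz => ?_, fun hz l => ?_⟩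
      · show α * v 0 + β * w 0 = 0
        rw [hv.1 hz, hw.1 hz]; simp
      · rw [map_add, map_smul, map_smul, hv.2 hz l, hw.2 hz l, ← add_smul, hab, one_smul]
    · intro z₀
      by_cases hz₀ : z₀ ∈ closure U
      · obtain ⟨s, hs, hzs⟩ := mem_iUnion₂.mp (hUT hz₀)
        obtain ⟨v, hv1, hv2⟩ := hWv s hs j
        exact ⟨f s, W s, (hWo s hs).mem_nhds hzs, hWs s hs, v, hv1,
          fun z hz => ⟨(hv2 z hz).1, fun _ => (hv2 z hz).2⟩⟩
      · refine ⟨z₀, (closure U)ᶜ ∩ (extChartAt (𝓡∂ (d + 1)) z₀).source,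
          Filter.inter_mem (isClosed_closure.isOpen_compl.mem_nhds hz₀)
            (extChartAt_source_mem_nhds z₀), inter_subset_right, fun _ => 0, contMDiffOn_const,
          fun z hz => ⟨fun _ => ?_, fun hz' => absurd hz' hz.1⟩⟩
        rw [map_zero]; rfl
  choose V hV using key
  refine ⟨V, fun j z hz => (hV j z).1 hz, U, hUo, hKU, fun z hz j l => ?_⟩
  rw [der_apply]
  exact (hV j z).2 (subset_closure hz) l

end dual

end DtN.J2
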