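import Pool.Agent.H14.DtN.CalcA2
import Pool.Agent.H14.DtN.AltComp

/-!
MODULE A5 : pullback of forms by smooth maps.
-/

open scoped Manifold ContDiff Topology ComplexConjugate
open Set MeasureTheory

set_option linter.unusedSectionVars false

noncomputable section

namespace DtN

/-! ### A5: pullback -/

section Pull

variable {E : Type*} [NormedAddCommGroup E] [NormedSpace ℝ E] [FiniteDimensional ℝ E]
  {H : Type*} [TopologicalSpace H] {I : ModelWithCorners ℝ E H}
  {M : Type*} [TopologicalSpace M] [ChartedSpace H M] [IsManifold I ∞ M]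
  {E' : Type*} [NormedAddCommGroup E'] [NormedSpace ℝ E'] [FiniteDimensional ℝ E']
  {H' : Type*} [TopologicalSpace H'] {I' : ModelWithCorners ℝ E' H'}
  {N : Type*} [TopologicalSpace N] [ChartedSpace H' N] [IsManifold I' ∞ N]

/-- The expression of `f` in two charts. -/
def wr (I : ModelWithCorners ℝ E H) (I' : ModelWithCorners ℝ E' H') (s₀ : N) (x₀ : M)
    (f : N → M) (y : E') : E :=
  extChartAt I x₀ (f ((extChartAt I' s₀).symm y))

theorem mapsTo_wr (s₀ : N) (x₀ : M) (f : N → M) :
    MapsTo (wr I I' s₀ x₀ f) (range I') (range I) := by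
  intro y _
  exact mem_range_self _

/-- Chain rule for the expression of `f` in two charts. -/
theorem hasFDerivWithinAt_wr {f : N → M} {s₀ : N} {x₀ : M} {y : E'}
    (hy : y ∈ (extChartAt I' s₀).target)
    (hf : MDifferentiableAt I' I f ((extChartAt I' s₀).symm y))
    (hz : f ((extChartAt I' s₀).symm y) ∈ (extChartAt I x₀).source) :
    HasFDerivWithinAt (wr I I' s₀ x₀ f)
      ((dchart I x₀ (f ((extChartAt I' s₀).symm y))).comp
        ((mfderiv I' I f ((extChartAt I' s₀).symm y)).comp (dsymm I' s₀ y))) (range I') y := by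
  have h1 := (mdifferentiableWithinAt_extChartAt_symm (I := I') hy).hasMFDerivWithinAt
  have h2 := (mdifferentiableAt_extChartAt (I := I) (x := x₀)
    (y := f ((extChartAt I' s₀).symm y)) (by rwa [extChartAt_source] at hz)).hasMFDerivAt
  have h3 := h2.comp_hasMFDerivWithinAt y (hf.hasMFDerivAt.comp_hasMFDerivWithinAt y h1)
  exact h3.hasFDerivWithinAt

theorem uniqueDiff_of_target {s₀ : N} {y : E'} (hy : y ∈ (extChartAt I' s₀).target) :
    UniqueDiffWithinAt ℝ (range I') y :=
  I'.uniqueDiffOn y (extChartAt_target_subset_range s₀ hy)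

/-- Expression of the pullback in charts. -/
theorem rep_pull {q : ℕ} (w : M → Alt E q) {f : N → M} {s₀ : N} {x₀ : M} {y : E'}
    (hy : y ∈ (extChartAt I' s₀).target)
    (hf : MDifferentiableAt I' I f ((extChartAt I' s₀).symm y))
    (hz : f ((extChartAt I' s₀).symm y) ∈ (extChartAt I x₀).source) :
    rep I' s₀ (pull I I' f w) y = (rep I x₀ w (wr I I' s₀ x₀ f y)).compContinuousLinearMap
      (fderivWithin ℝ (wr I I' s₀ x₀ f) (range I') y) := by
  rw [(hasFDerivWithinAt_wr hy hf hz).fderivWithin (uniqueDiff_of_target hy)]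
  have h1 : (extChartAt I x₀).symm (wr I I' s₀ x₀ f y) = f ((extChartAt I' s₀).symm y) :=
    (extChartAt I x₀).left_inv hz
  have h2 := dsymm_comp_dchart I ((extChartAt I x₀).map_source hz)
  rw [(extChartAt I x₀).left_inv hz] at h2
  ext v
  change (w (f ((extChartAt I' s₀).symm y))) (fun l => mfderiv I' I f ((extChartAt I' s₀).symm y)
      (dsymm I' s₀ y (v l))) = (w ((extChartAt I x₀).symm (wr I I' s₀ x₀ f y)))
        (fun l => dsymm I x₀ (wr I I' s₀ x₀ f y) (dchart I x₀ (f ((extChartAt I' s₀).symm y))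
          (mfderiv I' I f ((extChartAt I' s₀).symm y) (dsymm I' s₀ y (v l)))))
  rw [h1]
  exact congrArg _ (funext fun l => (DFunLike.congr_fun h2 _).symm)

theorem wr_eventually {f : N → M} {U : Set N} (hU : IsOpen U) (hf : ContMDiffOn I' I ∞ f U)
    {s : N} (hs : s ∈ U) : ∀ᶠ y in 𝓝[range I'] (extChartAt I' s s),
      y ∈ (extChartAt I' s).target ∧ (extChartAt I' s).symm y ∈ U ∧
        f ((extChartAt I' s).symm y) ∈ (extChartAt I (f s)).source := by
  have h1 : ContinuousAt (extChartAt I' s).symm (extChartAt I' s s) :=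
    continuousAt_extChartAt_symm s
  have h2 : (extChartAt I' s).symm (extChartAt I' s s) = s := extChartAt_to_inv s
  have h3 : ContinuousAt f s := (hf.contMDiffAt (hU.mem_nhds hs)).continuousAt
  have h4 : ∀ᶠ y in 𝓝 (extChartAt I' s s), (extChartAt I' s).symm y ∈ U := by
    refine h1.eventually_mem (hU.mem_nhds ?_)
    rwa [h2]
  have h5 : ∀ᶠ y in 𝓝 (extChartAt I' s s),
      f ((extChartAt I' s).symm y) ∈ (extChartAt I (f s)).source := by
    have h6 : ContinuousAt (fun y => f ((extChartAt I' s).symm y)) (extChartAt I' s s) := by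
      refine ContinuousAt.comp (g := f) ?_ h1
      rwa [h2]
    refine h6.eventually_mem ((isOpen_extChartAt_source (I := I) (f s)).mem_nhds ?_)
    rw [h2]
    exact mem_extChartAt_source _
  filter_upwards [extChartAt_target_mem_nhdsWithin (I := I') s, nhdsWithin_le_nhds h4,
    nhdsWithin_le_nhds h5] with y hy1 hy2 hy3 using ⟨hy1, hy2, hy3⟩

theorem wr_contDiffWithinAt {f : N → M} {U : Set N} (hU : IsOpen U) (hf : ContMDiffOn I' I ∞ f U)
    {s : N} (hs : s ∈ U) :
    ContDiffWithinAt ℝ ∞ (wr I I' s (f s) f) (range I') (extChartAt I' s s) := by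
  have h := hf.contMDiffAt (hU.mem_nhds hs)
  rw [contMDiffAt_iff] at h
  exact h.2

theorem rep_pull_eventually {q : ℕ} (w : M → Alt E q) {f : N → M} {U : Set N} (hU : IsOpen U)
    (hf : ContMDiffOn I' I ∞ f U) {s : N} (hs : s ∈ U) :
    rep I' s (pull I I' f w) =ᶠ[𝓝[range I'] (extChartAt I' s s)]
      fun y => (rep I (f s) w (wr I I' s (f s) f y)).compContinuousLinearMap
        (fderivWithin ℝ (wr I I' s (f s) f) (range I') y) := by
  filter_upwards [wr_eventually hU hf hs] with y hy
  exact rep_pull w hy.1 ((hf.contMDiffAt (hU.mem_nhds hy.2.1)).mdifferentiableAt (by simp)) hy.2.2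

theorem wr_self (f : N → M) (s : N) :
    wr I I' s (f s) f (extChartAt I' s s) = extChartAt I (f s) (f s) := by
  simp only [wr, extChartAt_to_inv]

theorem fderivWithin_wr_self {f : N → M} {s : N} (hf : MDifferentiableAt I' I f s) :
    fderivWithin ℝ (wr I I' s (f s) f) (range I') (extChartAt I' s s) = mfderiv I' I f s := by
  exact hf.mfderiv.symm

theorem rep_contDiffWithinAt {q : ℕ} (w : SForm I M q) (x : M) :
    ContDiffWithinAt ℝ ∞ (rep I x w.val) (range I) (extChartAt I x x) :=
  (w.smooth x _ (mem_extChartAt_target x)).mono_of_mem_nhdsWithin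
    (extChartAt_target_mem_nhdsWithin x)

/-- Pullback commutes with `d`, locally. -/
theorem pull_extD {q : ℕ} {f : N → M} {U : Set N} (hU : IsOpen U) (hf : ContMDiffOn I' I ∞ f U)
    (w : SForm I M q) {s : N} (hs : s ∈ U) :
    extD I' (pull I I' f w.val) s = pull I I' f (extD I w.val) s := by
  have hs0 : extChartAt I' s s ∈ range I' := mem_range_self _
  have h1 : extD I' (pull I I' f w.val) s = extDerivWithin
      (fun y => (rep I (f s) w.val (wr I I' s (f s) f y)).compContinuousLinearMap
        (fderivWithin ℝ (wr I I' s (f s) f) (range I') y)) (range I') (extChartAt I' s s) :=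
    (rep_pull_eventually w.val hU hf hs).extDerivWithin_eq_of_mem hs0
  have h2 : DifferentiableWithinAt ℝ (rep I (f s) w.val) (range I)
      (wr I I' s (f s) f (extChartAt I' s s)) := by
    rw [wr_self]
    exact (rep_contDiffWithinAt w (f s)).differentiableWithinAt (by simp)
  have h3 := extDerivWithin_pullback h2 (wr_contDiffWithinAt hU hf hs)
    (by rw [minSmoothness_of_isRCLikeNormedField]; exact WithTop.coe_le_coe.2 le_top)
    I'.uniqueDiffOn (I'.range_subset_closure_interior hs0) hs0 (mapsTo_wr s (f s) f)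
  have h4 : MDifferentiableAt I' I f s :=
    (hf.contMDiffAt (hU.mem_nhds hs)).mdifferentiableAt (by simp)
  rw [h1, h3, wr_self, fderivWithin_wr_self h4]
  rfl

/-- Pullback of a smooth form is smooth, locally. -/
theorem pull_smooth {q : ℕ} {f : N → M} {U : Set N} (hU : IsOpen U) (hf : ContMDiffOn I' I ∞ f U)
    (w : SForm I M q) {s : N} (hs : s ∈ U) :
    ContDiffWithinAt ℝ ∞ (rep I' s (pull I I' f w.val)) (range I') (extChartAt I' s s) := by
  have hs0 : extChartAt I' s s ∈ range I' := mem_range_self _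
  have h1 := rep_pull_eventually w.val hU hf hs
  refine ContDiffWithinAt.congr_of_eventuallyEq ?_ h1 (h1.self_of_nhdsWithin hs0)
  refine AC.contDiffWithinAt_comp ?_ ?_
  · have h2 := rep_contDiffWithinAt w (f s)
    rw [← wr_self (I' := I') f s] at h2
    exact h2.comp _ (wr_contDiffWithinAt hU hf hs) (mapsTo_wr s (f s) f)
  · exact (wr_contDiffWithinAt hU hf hs).fderivWithin_right I'.uniqueDiffOn (by simp) hs0

/-- Pullback of smooth forms by a smooth map. -/
def pullS {q : ℕ} (f : N → M) (hf : ContMDiff I' I ∞ f) : SForm I M q →ₗ[ℂ] SForm I' N q where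
  toFun w := ⟨pull I I' f w.val, smoothForm_of_local I' fun z => ⟨z, mem_extChartAt_source z,
    pull_smooth isOpen_univ hf.contMDiffOn w (mem_univ z)⟩⟩
  map_add' v w := by
    apply SForm.val_injective
    funext z
    ext u
    rfl
  map_smul' c w := by
    apply SForm.val_injective
    funext z
    ext u
    rfl

theorem pullS_val {q : ℕ} (f : N → M) (hf : ContMDiff I' I ∞ f) (w : SForm I M q) :
    (pullS f hf w).val = pull I I' f w.val := rfl

theorem pullS_dS {q : ℕ} (f : N → M) (hf : ContMDiff I' I ∞ f) (w : SForm I M q) :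
    pullS f hf (dS w) = dS (pullS f hf w) := by
  apply SForm.val_injective
  funext z
  rw [pullS_val, dS_val, dS_val, pullS_val]
  exact (pull_extD isOpen_univ hf.contMDiffOn w (mem_univ z)).symm

end Pull

end DtN
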