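import Pool.Agent.H14.DtN.Gaff
import Pool.Agent.H14.DtN.BdryJ1
import Pool.Agent.H14.DtN.BdryX2
import Pool.Agent.H14.DtN.CalcA5

/-!
MODULE J : the boundary.
-/

open scoped Manifold ContDiff Topology ComplexConjugate
open Set MeasureTheory

set_option linter.unusedSectionVars false

noncomputable section

namespace DtN

variable {d : ℕ} {Ω : Type*} [TopologicalSpace Ω] [ChartedSpace (EuclideanHalfSpace (d + 1)) Ω]
  [IsManifold (𝓡∂ (d + 1)) ∞ Ω] [CompactSpace Ω] [T2Space Ω]
  (g : Metric (𝓡∂ (d + 1)) Ω) (C : Cover (𝓡∂ (d + 1)) Ω)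

variable {S : Type*} [TopologicalSpace S] [ChartedSpace (Eu d) S] [IsManifold (𝓡 d) ∞ S]
    [CompactSpace S] [T2Space S] {f : S → Ω}
    (hf : ContMDiff (𝓡 d) (𝓡∂ (d + 1)) ∞ f) (hinj : Function.Injective f)
    (himm : ∀ s, Function.Injective (mfderiv (𝓡 d) (𝓡∂ (d + 1)) f s))
    (hrange : range f = (𝓡∂ (d + 1)).boundary Ω)

include hf hinj himm hrange

/-- Smooth functions on the boundary extend. -/
theorem exists_extension {F : Type*} [NormedAddCommGroup F] [NormedSpace ℝ F]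
    [FiniteDimensional ℝ F] (h : S → F) (hh : ContMDiff (𝓡 d) 𝓘(ℝ, F) ∞ h) :
    ∃ b : Ω → F, ContMDiff (𝓡∂ (d + 1)) 𝓘(ℝ, F) ∞ b ∧ ∀ s, b (f s) = h s :=
  J2.exists_extension_aux hf hinj himm hrange h hh

/-- The unit normal extends to a smooth vector field on `Ω`. -/
theorem exists_normal_field {ν : S → Eu (d + 1)} (hν : IsUnitNormal g f ν) :
    ∃ N : VF (𝓡∂ (d + 1)) Ω, ∀ s, N.val (f s) = ν s :=
  J2.exists_normal_field_aux g hf himm hrange hν

/-- Tangential fields dual to given functions. `b` are smooth real functions on `Ω` which are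
coordinates along the boundary near the compact set `K` (their differentials composed with `df` are
independent); then there are tangential fields `V_j` with `V_j(b_l) = δ_{jl}` near `f(K)`. -/
theorem exists_dual_fields (b : Fin d → SFun (𝓡∂ (d + 1)) Ω)
    (hb : ∀ j z, conj ((b j).val z) = (b j).val z) (K : Set S) (hK : IsCompact K)
    (hind : ∀ s ∈ K, ∀ u : Eu d, (∀ j, (b j).dF (f s)
      (mfderiv (𝓡 d) (𝓡∂ (d + 1)) f s u) = 0) → u = 0) :
    ∃ V : Fin d → VF (𝓡∂ (d + 1)) Ω, (∀ j, TangVF (V j)) ∧ ∃ U : Set Ω, IsOpen U ∧ f '' K ⊆ U ∧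
      ∀ z ∈ U, ∀ j l, (der (V j) (b l)).val z = if j = l then 1 else 0 :=
  J2.exists_dual_fields_aux hf himm hrange b hb K hK hind

end DtN
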