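import Pool.Agent.H14.DtN.Fib
import Pool.Agent.H14.DtN.AltSmooth

/-!
MODULE D1 : integration by parts on the half space; MODULE D2 : local Green formula.
-/

open scoped ContDiff Topology ComplexConjugate
open Set MeasureTheory

set_option linter.unusedSectionVars false

noncomputable section

namespace DtN

variable {d q : ℕ}

/-- The closed half space `{y | 0 ≤ y 0}` in dimension `d + 1`. -/
def HS (d : ℕ) : Set (Eu (d + 1)) := {y | 0 ≤ y 0}

theorem continuous_coord {n : ℕ} (i : Fin n) : Continuous (fun y : Eu n => y i) :=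
  (EuclideanSpace.proj i : Eu n →L[ℝ] ℝ).continuous

theorem isOpen_pos : IsOpen {y : Eu (d + 1) | 0 < y 0} :=
  isOpen_lt continuous_const (continuous_coord 0)

theorem isClosed_HS : IsClosed (HS d) := isClosed_le continuous_const (continuous_coord 0)

theorem convex_HS : Convex ℝ (HS d) := by
  have h : HS d = (EuclideanSpace.proj 0 : Eu (d + 1) →L[ℝ] ℝ) ⁻¹' (Ici 0) := rfl
  rw [h]
  exact (convex_Ici (0 : ℝ)).linear_preimage (EuclideanSpace.proj 0 : Eu (d + 1) →L[ℝ] ℝ).toLinearMap

theorem pos_subset_interior : {y : Eu (d + 1) | 0 < y 0} ⊆ interior (HS d) :=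
  interior_maximal (fun y hy => (show 0 < y 0 from hy).le) isOpen_pos

theorem uniqueDiffOn_HS : UniqueDiffOn ℝ (HS d) := by
  apply uniqueDiffOn_convex convex_HS
  refine ⟨ev 0, pos_subset_interior ?_⟩
  simp

theorem HS_mem_nhds {y : Eu (d + 1)} (hy : 0 < y 0) : HS d ∈ 𝓝 y :=
  mem_interior_iff_mem_nhds.mp (pos_subset_interior hy)

/-- fderivWithin vanishes where the function vanishes nearby. -/
theorem fderivWithin_eq_zero_of {F G : Type*} [NormedAddCommGroup F] [NormedSpace ℝ F]
    [NormedAddCommGroup G] [NormedSpace ℝ G] {h : F → G} {s : Set F} {y : F} (hy : y ∉ tsupport h) :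
    fderivWithin ℝ h s y = 0 := by
  have h1 : h =ᶠ[𝓝 y] fun _ => 0 := by
    rw [notMem_tsupport_iff_eventuallyEq] at hy
    exact hy
  rw [(h1.filter_mono nhdsWithin_le_nhds).fderivWithin_eq h1.self_of_nhds]
  simp

/-- D1. -/
theorem integral_fderivWithin_HS {h : Eu (d + 1) → ℂ} (hh : ContDiffOn ℝ 1 h (HS d))
    (hc : HasCompactSupport h) (k : Fin (d + 1))
    (h0 : k = 0 → ∀ y : Eu (d + 1), y 0 = 0 → h y = 0) :
    ∫ y in HS d, fderivWithin ℝ h (HS d) y (ev k) = 0 := by
  classical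
  -- a box
  obtain ⟨R, hR0, hR⟩ : ∃ R : ℝ, 0 < R ∧ ∀ y ∈ tsupport h, ∀ i, |y i| < R := by
    obtain ⟨R, hR⟩ := hc.isCompact.isBounded.exists_norm_le
    refine ⟨max R 0 + 1, by positivity, fun y hy i => ?_⟩
    have h1 : ‖y i‖ ≤ ‖y‖ := PiLp.norm_apply_le y i
    rw [Real.norm_eq_abs] at h1
    have h2 := hR y hy
    have h3 := le_max_left R 0
    linarith
  set L : (Fin (d + 1) → ℝ) ≃L[ℝ] Eu (d + 1) :=
    (EuclideanSpace.equiv (Fin (d + 1)) ℝ).symm with hL
  have hLi : ∀ z i, (L z) i = z i := fun z i => rfl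
  set F : Eu (d + 1) → ℂ := fun y => fderivWithin ℝ h (HS d) y (ev k) with hF
  set a : Fin (d + 1) → ℝ := fun i => if i = 0 then 0 else -R with ha
  set b : Fin (d + 1) → ℝ := fun _ => R with hb
  have hab : a ≤ b := by
    intro i
    simp only [ha, hb]
    split_ifs <;> linarith
  have hbox : ∀ z, z ∈ Icc a b → L z ∈ HS d := by
    intro z hz
    have := hz.1 0
    simp only [ha, if_true] at this
    exact this
  have hout : ∀ z, L z ∈ HS d → z ∉ Icc a b → L z ∉ tsupport h := by
    intro z hz hzn hmem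
    apply hzn
    constructor
    · intro i
      simp only [ha]
      split_ifs with hi
      · subst hi; exact hz
      · have := hR _ hmem i
        rw [abs_lt] at this
        exact this.1.le
    · intro i
      have := hR _ hmem i
      rw [abs_lt] at this
      exact this.2.le
  have hFcont : ContinuousOn F (HS d) :=
    (hh.continuousOn_fderivWithin uniqueDiffOn_HS le_rfl).clm_apply continuousOn_const
  have hmp : MeasurePreserving L volume volume :=
    (EuclideanSpace.volume_preserving_symm_measurableEquiv_toLp (Fin (d + 1))).symm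
  have hemb : MeasurableEmbedding L := L.toHomeomorph.measurableEmbedding
  -- transfer
  have h1 : ∫ y in HS d, F y = ∫ z in L ⁻¹' (HS d), F (L z) :=
    (hmp.setIntegral_preimage_emb hemb F (HS d)).symm
  have h2 : ∫ z in L ⁻¹' (HS d), F (L z) = ∫ z in Icc a b, F (L z) := by
    apply setIntegral_eq_of_subset_of_forall_sdiff_eq_zero
    · exact L.continuous.measurable isClosed_HS.measurableSet
    · exact hbox
    · intro z hz
      have := hout z hz.1 hz.2
      simp only [hF, fderivWithin_eq_zero_of this]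
      rfl
  rw [h1, h2]
  -- the divergence theorem
  have hIoo : ∀ z ∈ (pi univ fun i => Ioo (a i) (b i)), 0 < (L z) 0 := by
    intro z hz
    have := (hz 0 (mem_univ _)).1
    simp only [ha, if_true] at this
    exact this
  have hdiv := integral_divergence_of_hasFDerivAt_off_countable' a b hab
    (fun i z => if i = k then h (L z) else 0)
    (fun i z => if i = k then (fderivWithin ℝ h (HS d) (L z)).comp (L : (Fin (d + 1) → ℝ) →L[ℝ] Eu (d + 1)) else 0)
    ∅ countable_empty ?_ ?_ ?_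
  · have hsum : ∀ z : Fin (d + 1) → ℝ, (∑ i, (if i = k then (fderivWithin ℝ h (HS d) (L z)).comp
        (L : (Fin (d + 1) → ℝ) →L[ℝ] Eu (d + 1)) else 0) (Pi.single i 1)) = F (L z) := by
      intro z
      rw [Finset.sum_eq_single k]
      · simp only [if_true, hF]
        rfl
      · intro i _ hi
        simp [hi]
      · simp
    simp only [hsum] at hdiv
    rw [hdiv]
    apply Finset.sum_eq_zero
    intro i _
    by_cases hi : i = k
    · subst hi
      simp only [if_true]
      have hfront : ∀ x : Fin d → ℝ, h (L (i.insertNth (b i) x)) = 0 := by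
        intro x
        apply image_eq_zero_of_notMem_tsupport
        intro hmem
        have := hR _ hmem i
        rw [hLi, Fin.insertNth_apply_same, hb, abs_of_pos hR0] at this
        exact lt_irrefl _ this
      have hback : ∀ x : Fin d → ℝ, h (L (i.insertNth (a i) x)) = 0 := by
        intro x
        by_cases hi0 : i = 0
        · apply h0 hi0
          rw [hLi, hi0, Fin.insertNth_apply_same]
          simp [ha]
        · apply image_eq_zero_of_notMem_tsupport
          intro hmem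
          have := hR _ hmem i
          rw [hLi, Fin.insertNth_apply_same] at this
          simp only [ha, hi0, if_false, abs_neg, abs_of_pos hR0] at this
          exact lt_irrefl _ this
      simp only [hfront, hback, integral_zero, sub_zero]
    · simp only [hi, if_false, integral_zero, sub_zero]
  · intro i
    by_cases hi : i = k
    · simp only [hi, if_true]
      exact hh.continuousOn.comp L.continuous.continuousOn hbox
    · simp only [hi, if_false]
      exact continuousOn_const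
  · intro z hz i
    have hz0 := hIoo z hz.1
    by_cases hi : i = k
    · simp only [hi, if_true]
      have h3 : DifferentiableAt ℝ h (L z) :=
        ((hh.differentiableOn one_ne_zero).differentiableAt (HS_mem_nhds hz0))
      have h4 := h3.hasFDerivAt
      rw [← fderivWithin_of_mem_nhds (HS_mem_nhds hz0)] at h4
      exact h4.comp z L.hasFDerivAt
    · simp only [hi, if_false]
      exact hasFDerivAt_const _ _
  · have hsum : ∀ z : Fin (d + 1) → ℝ, (∑ i, (if i = k then (fderivWithin ℝ h (HS d) (L z)).comp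
        (L : (Fin (d + 1) → ℝ) →L[ℝ] Eu (d + 1)) else 0) (Pi.single i 1)) = F (L z) := by
      intro z
      rw [Finset.sum_eq_single k]
      · simp only [if_true, hF]
        rfl
      · intro i _ hi
        simp [hi]
      · simp
    simp only [hsum]
    exact (hFcont.comp L.continuous.continuousOn hbox).integrableOn_compact isCompact_Icc

/-- D1 for functions defined on a relatively open subset `HS d ∩ O` of the half space and vanishing
outside a compact subset `K` of `O`. -/
theorem integral_fderivWithin_HS_open {O K : Set (Eu (d + 1))} (hO : IsOpen O) (hK : IsCompact K)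
    (hKO : K ⊆ O) {h : Eu (d + 1) → ℂ} (hh : ContDiffOn ℝ 1 h (HS d ∩ O))
    (hc : ∀ y ∈ HS d ∩ O, y ∉ K → h y = 0) (k : Fin (d + 1))
    (h0 : k = 0 → ∀ y ∈ HS d ∩ O, y 0 = 0 → h y = 0) :
    ∫ y in HS d ∩ O, fderivWithin ℝ h (HS d) y (ev k) = 0 := by
  classical
  set h' : Eu (d + 1) → ℂ := K.indicator h with hh'
  have hKc : IsOpen Kᶜ := hK.isClosed.isOpen_compl
  have heqO : ∀ y ∈ HS d ∩ O, h' y = h y := by
    intro y hy
    by_cases hyK : y ∈ K
    · rw [hh', indicator_of_mem hyK]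
    · rw [hh', indicator_of_notMem hyK, hc y hy hyK]
  have heq0 : ∀ y ∉ K, h' y = 0 := fun y hy => by rw [hh', indicator_of_notMem hy]
  have hsupp : tsupport h' ⊆ K := by
    apply closure_minimal _ hK.isClosed
    intro y hy
    by_contra hyK
    exact hy (heq0 y hyK)
  have hcd : ContDiffOn ℝ 1 h' (HS d) := by
    intro y hy
    by_cases hyO : y ∈ O
    · have h1 : ContDiffWithinAt ℝ 1 h (HS d ∩ O) y := hh y ⟨hy, hyO⟩
      have h2 : ContDiffWithinAt ℝ 1 h' (HS d ∩ O) y :=
        h1.congr (fun z hz => heqO z hz) (heqO y ⟨hy, hyO⟩)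
      exact (contDiffWithinAt_inter (hO.mem_nhds hyO)).mp h2
    · have hyK : y ∉ K := fun h => hyO (hKO h)
      have h1 : h' =ᶠ[𝓝 y] fun _ => 0 :=
        Filter.eventually_of_mem (hKc.mem_nhds hyK) (fun z hz => heq0 z hz)
      exact (contDiffAt_const.congr_of_eventuallyEq h1).contDiffWithinAt
  have h1 := integral_fderivWithin_HS hcd
    (HasCompactSupport.intro hK (fun y hy => heq0 y hy)) k (by
      intro hk y hy
      by_cases hyK : y ∈ K
      · have hyH : y ∈ HS d := le_of_eq hy.symm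
        rw [heqO y ⟨hyH, hKO hyK⟩]
        exact h0 hk y ⟨hyH, hKO hyK⟩ hy
      · exact heq0 y hyK)
  have h2 : ∫ y in HS d ∩ O, fderivWithin ℝ h (HS d) y (ev k) =
      ∫ y in HS d ∩ O, fderivWithin ℝ h' (HS d) y (ev k) := by
    apply setIntegral_congr_fun (isClosed_HS.measurableSet.inter hO.measurableSet)
    intro y hy
    have h3 : h =ᶠ[𝓝[HS d] y] h' := by
      filter_upwards [self_mem_nhdsWithin, mem_nhdsWithin_of_mem_nhds (hO.mem_nhds hy.2)]
        with z hz1 hz2
      exact (heqO z ⟨hz1, hz2⟩).symm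
    show fderivWithin ℝ h (HS d) y (ev k) = fderivWithin ℝ h' (HS d) y (ev k)
    rw [h3.fderivWithin_eq (heqO y hy).symm]
  rw [h2, ← h1]
  symm
  apply setIntegral_eq_of_subset_of_forall_sdiff_eq_zero isClosed_HS.measurableSet
    inter_subset_left
  intro y hy
  have hyO : y ∉ O := fun h => hy.2 ⟨hy.1, h⟩
  have : y ∉ tsupport h' := fun h => hyO (hKO (hsupp h))
  rw [fderivWithin_eq_zero_of this]
  rfl

/-! smoothness on `HS d ∩ O` -/

theorem fderivWithin_inter_open {F : Type*} [NormedAddCommGroup F] [NormedSpace ℝ F]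
    {O : Set (Eu (d + 1))} (hO : IsOpen O) (f : Eu (d + 1) → F) {y : Eu (d + 1)} (hy : y ∈ O) :
    fderivWithin ℝ f (HS d ∩ O) y = fderivWithin ℝ f (HS d) y :=
  fderivWithin_inter (hO.mem_nhds hy)

theorem contDiffOn_fderivWithin_HS {F : Type*} [NormedAddCommGroup F] [NormedSpace ℝ F]
    {O : Set (Eu (d + 1))} (hO : IsOpen O) {f : Eu (d + 1) → F}
    (hf : ContDiffOn ℝ ∞ f (HS d ∩ O)) : ContDiffOn ℝ ∞ (fderivWithin ℝ f (HS d)) (HS d ∩ O) := by
  have h := hf.fderivWithin (m := ∞) (uniqueDiffOn_HS.inter hO) le_rfl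
  exact h.congr fun y hy => (fderivWithin_inter_open hO f hy.2).symm

theorem differentiableWithinAt_HS {F : Type*} [NormedAddCommGroup F] [NormedSpace ℝ F]
    {O : Set (Eu (d + 1))} (hO : IsOpen O) {f : Eu (d + 1) → F}
    (hf : ContDiffOn ℝ ∞ f (HS d ∩ O)) {y : Eu (d + 1)} (hy : y ∈ HS d ∩ O) :
    DifferentiableWithinAt ℝ f (HS d) y := by
  have h := (hf.differentiableOn (by simp)) y hy
  exact (differentiableWithinAt_inter (hO.mem_nhds hy.2)).mp h

theorem contDiffOn_matL {F : Type*} [NormedAddCommGroup F] [NormedSpace ℝ F] {n : ℕ} {s : Set F}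
    {r : WithTop ℕ∞} {G : F → Matrix (Fin n) (Fin n) ℝ}
    (hG : ∀ i j, ContDiffOn ℝ r (fun y => G y i j) s) : ContDiffOn ℝ r (fun y => matL (G y)) s := by
  unfold matL
  apply ContDiffOn.sum
  intro i _
  apply ContDiffOn.sum
  intro j _
  exact (hG i j).smul contDiffOn_const

/-- `curryLeft` in a fixed direction, as a continuous linear map -/
def curryL {n : ℕ} (e : Eu n) : Alt (Eu n) (q + 1) →L[ℝ] Alt (Eu n) q :=
  (ContinuousAlternatingMap.curryLeftLI (𝕜 := ℝ) (E := Eu n) (F := ℂ)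
    (n := q)).toContinuousLinearMap.flip e

@[simp] theorem curryL_apply {n : ℕ} (e : Eu n) (u : Alt (Eu n) (q + 1)) :
    curryL e u = u.curryLeft e := rfl

/-- the flat pairing as a continuous bilinear map -/
def flatB {n : ℕ} : Alt (Eu n) q →L[ℝ] Alt (Eu n) q →L[ℝ] ℂ :=
  ((Nat.factorial q : ℝ)⁻¹ : ℝ) • ∑ J : Fin q → Fin n,
    (ContinuousLinearMap.mul ℝ ℂ).bilinearComp (AS.evalL fun l => ev (J l))
      ((Complex.conjCLE : ℂ →L[ℝ] ℂ) ∘L (AS.evalL fun l => ev (J l)))

theorem flatB_apply {n : ℕ} (u v : Alt (Eu n) q) : flatB u v = flatInner u v := by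
  simp only [flatB, flatInner, smul_apply, sum_apply,
    ContinuousLinearMap.bilinearComp_apply, ContinuousLinearMap.mul_apply', Complex.real_smul]
  rfl

theorem flatInner_contDiffOn {F : Type*} [NormedAddCommGroup F] [NormedSpace ℝ F] {s : Set F}
    {r : WithTop ℕ∞} {n : ℕ} {u v : F → Alt (Eu n) q}
    (hu : ContDiffOn ℝ r u s) (hv : ContDiffOn ℝ r v s) :
    ContDiffOn ℝ r (fun y => flatInner (u y) (v y)) s := by
  unfold flatInner
  refine contDiffOn_const.mul ?_
  refine ContDiffOn.sum fun J _ => ContDiffOn.mul ?_ ?_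
  · exact AS.contDiffOn_iff.mp hu J
  · exact Complex.conjCLE.contDiff.comp_contDiffOn (AS.contDiffOn_iff.mp hv J)

theorem formInner_smul_right_real {n : ℕ} {G : Matrix (Fin n) (Fin n) ℝ} (hG : G.PosDef) (c : ℝ)
    (u v : Alt (Eu n) q) : formInner G u (c • v) = c * formInner G u v := by
  rw [formInner_eq_flat G hG, formInner_eq_flat G hG, ← flatB_apply, ← flatB_apply]
  have h : (c • v).compContinuousLinearMap (matL G⁻¹) =
      c • v.compContinuousLinearMap (matL G⁻¹) := rfl
  rw [h, map_smul, Complex.real_smul]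

/-- integrability of continuous functions with compact support -/
theorem integrableOn_HS_of {F : Type*} [NormedAddCommGroup F] {O K : Set (Eu (d + 1))}
    (hO : IsOpen O) (hK : IsCompact K)
    (hKO : K ⊆ O) {f : Eu (d + 1) → F} (hf : ContinuousOn f (HS d ∩ O))
    (h0 : ∀ y ∈ HS d ∩ O, y ∉ K → f y = 0) : IntegrableOn f (HS d ∩ O) := by
  have h1 : IntegrableOn f (HS d ∩ K) :=
    (hf.mono (inter_subset_inter_right _ hKO)).integrableOn_compact (hK.inter_left isClosed_HS)
  apply h1.of_forall_sdiff_eq_zero (isClosed_HS.measurableSet.inter hO.measurableSet)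
  intro y hy
  exact h0 y hy.1 fun h => hy.2 ⟨hy.1.1, h⟩

theorem contDiffOn_sqrt_smul {O : Set (Eu (d + 1))}
    {G : Eu (d + 1) → Matrix (Fin (d + 1)) (Fin (d + 1)) ℝ}
    (hG : ∀ i j, ContDiffOn ℝ ∞ (fun y => G y i j) (HS d ∩ O))
    (hpos : ∀ y ∈ HS d ∩ O, (G y).PosDef) {v : Eu (d + 1) → Alt (Eu (d + 1)) q}
    (hv : ContDiffOn ℝ ∞ v (HS d ∩ O)) :
    ContDiffOn ℝ ∞ (fun y => Real.sqrt (G y).det •
      (v y).compContinuousLinearMap (matL (G y)⁻¹)) (HS d ∩ O) :=
  (AS.contDiffOn_sqrt_det hG hpos).smul (AS.contDiffOn_comp hv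
    (contDiffOn_matL (AS.contDiffOn_inv hG fun y hy => (hpos y hy).det_pos.ne')))

theorem fderivWithin_eq_zero_of_inter {F : Type*} [NormedAddCommGroup F] [NormedSpace ℝ F]
    {O K : Set (Eu (d + 1))} (hO : IsOpen O) (hK : IsClosed K) {f : Eu (d + 1) → F}
    (h0 : ∀ y ∈ HS d ∩ O, y ∉ K → f y = 0) {y : Eu (d + 1)} (hy : y ∈ HS d ∩ O) (hyK : y ∉ K) :
    fderivWithin ℝ f (HS d) y = 0 := by
  have h1 : f =ᶠ[𝓝[HS d] y] fun _ => 0 := by
    filter_upwards [self_mem_nhdsWithin, mem_nhdsWithin_of_mem_nhds (hO.mem_nhds hy.2),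
      mem_nhdsWithin_of_mem_nhds (hK.isOpen_compl.mem_nhds hyK)] with z hz1 hz2 hz3
    exact h0 z ⟨hz1, hz2⟩ hz3
  rw [h1.fderivWithin_eq (h0 y hy hyK)]
  simp

/-- `δ` in a chart: `δ v = - ρ⁻¹ (∑_k ι_{e_k} ∂_k (ρ v ∘ G⁻¹)) ∘ G`, `ρ = √det G`. -/
def codLoc (G : Eu (d + 1) → Matrix (Fin (d + 1)) (Fin (d + 1)) ℝ)
    (v : Eu (d + 1) → Alt (Eu (d + 1)) (q + 1)) (y : Eu (d + 1)) : Alt (Eu (d + 1)) q :=
  -(Real.sqrt (G y).det)⁻¹ • (∑ k, (fderivWithin ℝ (fun y' => Real.sqrt (G y').det •
    (v y').compContinuousLinearMap (matL (G y')⁻¹)) (HS d) y (ev k)).curryLeft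
      (ev k)).compContinuousLinearMap (matL (G y))

theorem codLoc_contDiffOn {O : Set (Eu (d + 1))} (hO : IsOpen O)
    {G : Eu (d + 1) → Matrix (Fin (d + 1)) (Fin (d + 1)) ℝ}
    (hG : ∀ i j, ContDiffOn ℝ ∞ (fun y => G y i j) (HS d ∩ O))
    (hpos : ∀ y ∈ HS d ∩ O, (G y).PosDef) {v : Eu (d + 1) → Alt (Eu (d + 1)) (q + 1)}
    (hv : ContDiffOn ℝ ∞ v (HS d ∩ O)) : ContDiffOn ℝ ∞ (codLoc G v) (HS d ∩ O) := by
  have h1 := contDiffOn_sqrt_smul hG hpos hv
  have h2 := contDiffOn_fderivWithin_HS hO h1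
  unfold codLoc
  have h3 : ContDiffOn ℝ ∞ (fun y => -(Real.sqrt (G y).det)⁻¹) (HS d ∩ O) :=
    ((AS.contDiffOn_sqrt_det hG hpos).inv
      fun y hy => (Real.sqrt_pos.mpr (hpos y hy).det_pos).ne').neg
  have h4 : ContDiffOn ℝ ∞ (fun y => ∑ k, (fderivWithin ℝ (fun y' => Real.sqrt (G y').det •
      (v y').compContinuousLinearMap (matL (G y')⁻¹)) (HS d) y (ev k)).curryLeft (ev k))
      (HS d ∩ O) := by
    apply ContDiffOn.sum
    intro k _
    exact (curryL (ev k)).contDiff.comp_contDiffOn (h2.clm_apply contDiffOn_const)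
  have h5 := AS.contDiffOn_comp h4 (contDiffOn_matL hG)
  exact h3.smul h5

/-- pointwise form of the local Green formula -/
theorem local_green_pointwise {O : Set (Eu (d + 1))} (hO : IsOpen O)
    {G : Eu (d + 1) → Matrix (Fin (d + 1)) (Fin (d + 1)) ℝ}
    (hG : ∀ i j, ContDiffOn ℝ ∞ (fun y => G y i j) (HS d ∩ O))
    (hpos : ∀ y ∈ HS d ∩ O, (G y).PosDef)
    {w : Eu (d + 1) → Alt (Eu (d + 1)) q} {v : Eu (d + 1) → Alt (Eu (d + 1)) (q + 1)}
    (hw : ContDiffOn ℝ ∞ w (HS d ∩ O)) (hv : ContDiffOn ℝ ∞ v (HS d ∩ O))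
    {y : Eu (d + 1)} (hy : y ∈ HS d ∩ O) :
    ∑ k, fderivWithin ℝ (fun y => flatB (w y) (curryL (ev k) (Real.sqrt (G y).det •
      (v y).compContinuousLinearMap (matL (G y)⁻¹)))) (HS d) y (ev k) =
    (Real.sqrt (G y).det : ℂ) * formInner (G y) (extDerivWithin w (HS d) y) (v y) -
    (Real.sqrt (G y).det : ℂ) * formInner (G y) (w y) (codLoc G v y) := by
  set ρ : ℝ := Real.sqrt (G y).det with hρ
  have hρ0 : ρ ≠ 0 := (Real.sqrt_pos.mpr (hpos y hy).det_pos).ne'
  set vt : Eu (d + 1) → Alt (Eu (d + 1)) (q + 1) := fun y => Real.sqrt (G y).det •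
      (v y).compContinuousLinearMap (matL (G y)⁻¹) with hvt
  have hvtd : DifferentiableWithinAt ℝ vt (HS d) y :=
    differentiableWithinAt_HS hO (contDiffOn_sqrt_smul hG hpos hv) hy
  have hwd : DifferentiableWithinAt ℝ w (HS d) y := differentiableWithinAt_HS hO hw hy
  have hu : UniqueDiffWithinAt ℝ (HS d) y := uniqueDiffOn_HS y hy.1
  have hG' := hpos y hy
  have h1 : ∀ k : Fin (d + 1), fderivWithin ℝ (fun y => flatB (w y) (curryL (ev k) (vt y)))
      (HS d) y (ev k) = flatInner (fderivWithin ℝ w (HS d) y (ev k)) ((vt y).curryLeft (ev k)) +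
        flatInner (w y) ((fderivWithin ℝ vt (HS d) y (ev k)).curryLeft (ev k)) := by
    intro k
    have h2 : HasFDerivWithinAt (fun y => curryL (ev k) (vt y))
        ((curryL (ev k)).comp (fderivWithin ℝ vt (HS d) y)) (HS d) y :=
      (curryL (ev k)).hasFDerivAt.comp_hasFDerivWithinAt y hvtd.hasFDerivWithinAt
    have h3 := (flatB (n := d + 1) (q := q)).hasFDerivWithinAt_of_bilinear
      hwd.hasFDerivWithinAt h2
    rw [h3.fderivWithin hu, ← flatB_apply, ← flatB_apply]
    exact add_comm (flatB (w y) (curryL (ev k) (fderivWithin ℝ vt (HS d) y (ev k))))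
      (flatB (fderivWithin ℝ w (HS d) y (ev k)) (curryL (ev k) (vt y)))
  rw [Finset.sum_congr rfl fun k _ => h1 k, Finset.sum_add_distrib, sub_eq_add_neg]
  congr 1
  · have h2 := flatInner_alt (fderivWithin ℝ w (HS d) y) (vt y)
    rw [← h2]
    rw [extDerivWithin, formInner_eq_flat _ hG', ← flatB_apply, ← flatB_apply]
    have h3 : vt y = ρ • (v y).compContinuousLinearMap (matL (G y)⁻¹) := rfl
    rw [h3, map_smul, Complex.real_smul]
  · have h2 : codLoc G v y = -ρ⁻¹ • (∑ k, (fderivWithin ℝ vt (HS d) y (ev k)).curryLeft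
        (ev k)).compContinuousLinearMap (matL (G y)) := rfl
    rw [h2, formInner_smul_right_real hG', ← flat_eq_formInner _ hG', ← flatB_apply]
    rw [map_sum]
    simp only [flatB_apply]
    have hρc : (ρ : ℂ) ≠ 0 := by exact_mod_cast hρ0
    push_cast
    field_simp

/-- D2: local Green formula. One of the two forms is supported in a compact set, and `w` has
vanishing tangential part (`dx_0 ∧ w = 0`) on the boundary `y 0 = 0`. -/
theorem local_green {O K : Set (Eu (d + 1))} (hO : IsOpen O) (hK : IsCompact K) (hKO : K ⊆ O)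
    {G : Eu (d + 1) → Matrix (Fin (d + 1)) (Fin (d + 1)) ℝ}
    (hG : ∀ i j, ContDiffOn ℝ ∞ (fun y => G y i j) (HS d ∩ O))
    (hpos : ∀ y ∈ HS d ∩ O, (G y).PosDef)
    {w : Eu (d + 1) → Alt (Eu (d + 1)) q} {v : Eu (d + 1) → Alt (Eu (d + 1)) (q + 1)}
    (hw : ContDiffOn ℝ ∞ w (HS d ∩ O)) (hv : ContDiffOn ℝ ∞ v (HS d ∩ O))
    (hc : (∀ y ∈ HS d ∩ O, y ∉ K → w y = 0) ∨ (∀ y ∈ HS d ∩ O, y ∉ K → v y = 0))
    (h0 : ∀ y ∈ HS d ∩ O, y 0 = 0 → wedge1 (dx 0) (w y) = 0) :
    ∫ y in HS d ∩ O, (Real.sqrt (G y).det : ℂ) *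
      formInner (G y) (extDerivWithin w (HS d) y) (v y) =
    ∫ y in HS d ∩ O, (Real.sqrt (G y).det : ℂ) * formInner (G y) (w y) (codLoc G v y) := by
  have hms : MeasurableSet (HS d ∩ O) := isClosed_HS.measurableSet.inter hO.measurableSet
  set hk : Fin (d + 1) → Eu (d + 1) → ℂ := fun k y => flatB (w y) (curryL (ev k)
    (Real.sqrt (G y).det • (v y).compContinuousLinearMap (matL (G y)⁻¹))) with hhk
  have hvt := contDiffOn_sqrt_smul hG hpos hv
  have hsm : ∀ k, ContDiffOn ℝ ∞ (hk k) (HS d ∩ O) := by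
    intro k
    have h1 : ContDiffOn ℝ ∞ (fun y => curryL (ev k) (Real.sqrt (G y).det •
        (v y).compContinuousLinearMap (matL (G y)⁻¹))) (HS d ∩ O) :=
      (curryL (ev k)).contDiff.comp_contDiffOn hvt
    exact (flatInner_contDiffOn hw h1).congr fun y _ => flatB_apply _ _
  -- vanishing outside `K`
  have hcomp0 : ∀ y, v y = 0 → Real.sqrt (G y).det •
      (v y).compContinuousLinearMap (matL (G y)⁻¹) = 0 := by
    intro y hy
    rw [hy]
    have : (0 : Alt (Eu (d + 1)) (q + 1)).compContinuousLinearMap (matL (G y)⁻¹) = 0 := rfl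
    rw [this]
    exact smul_zero (M := ℝ) (A := Alt (Eu (d + 1)) (q + 1)) _
  have hk0 : ∀ k, ∀ y ∈ HS d ∩ O, y ∉ K → hk k y = 0 := by
    intro k y hy hyK
    rcases hc with hc | hc
    · simp only [hhk, hc y hy hyK, map_zero, zero_apply]
    · simp only [hhk, hcomp0 y (hc y hy hyK), map_zero]
  have hint : ∀ k, ∫ y in HS d ∩ O, fderivWithin ℝ (hk k) (HS d) y (ev k) = 0 := by
    intro k
    have hb : k = 0 → ∀ y ∈ HS d ∩ O, y 0 = 0 → hk k y = 0 := by
     intro hk0' y hy hy0
     have h1 := h0 y hy hy0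
     have h2 := flatInner_alt ((dx 0).smulRight (w y)) (Real.sqrt (G y).det •
       (v y).compContinuousLinearMap (matL (G y)⁻¹))
     have h3 : alt ((dx 0).smulRight (w y)) = 0 := h1
     rw [h3, ← flatB_apply, map_zero, zero_apply] at h2
     rw [Finset.sum_eq_single 0] at h2
     · simp only [hhk, hk0', curryL_apply, flatB_apply]
       rw [h2]
       congr 1
       simp [dx]
     · intro j _ hj
       have h4 : (dx 0 : Eu (d + 1) →L[ℝ] ℂ) (ev j) = 0 := by
         simp [dx, hj]
       rw [ContinuousLinearMap.smulRight_apply, h4, zero_smul, ← flatB_apply, map_zero]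
       rfl
     · simp
    have hC1 : ContDiffOn ℝ 1 (hk k) (HS d ∩ O) := (hsm k).of_le (by simp)
    exact integral_fderivWithin_HS_open (h := hk k) hO hK hKO hC1 (hk0 k) k hb
  have hsum : ∫ y in HS d ∩ O, ∑ k, fderivWithin ℝ (hk k) (HS d) y (ev k) = 0 := by
    rw [integral_finsetSum]
    · exact Finset.sum_eq_zero fun k _ => hint k
    · intro k _
      apply integrableOn_HS_of hO hK hKO
      · exact ((contDiffOn_fderivWithin_HS hO (hsm k)).clm_apply contDiffOn_const).continuousOn
      · intro y hy hyK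
        rw [fderivWithin_eq_zero_of_inter hO hK.isClosed (hk0 k) hy hyK]
        rfl
  have hI1 : IntegrableOn (fun y => (Real.sqrt (G y).det : ℂ) *
      formInner (G y) (extDerivWithin w (HS d) y) (v y)) (HS d ∩ O) := by
    apply integrableOn_HS_of hO hK hKO
    · have h1 : ContDiffOn ℝ ∞ (extDerivWithin w (HS d)) (HS d ∩ O) := by
        have h2 := (ContinuousAlternatingMap.alternatizeUncurryFinCLM ℝ (Eu (d + 1)) ℂ
          (n := q)).contDiff.comp_contDiffOn (contDiffOn_fderivWithin_HS hO hw)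
        have h3 : ∀ y ∈ HS d ∩ O, extDerivWithin w (HS d) y =
            (ContinuousAlternatingMap.alternatizeUncurryFinCLM ℝ (Eu (d + 1)) ℂ (n := q) ∘
              fderivWithin ℝ w (HS d)) y := by
          intro y _
          rw [Function.comp_apply, ContinuousAlternatingMap.alternatizeUncurryFinCLM_apply,
            extDerivWithin]
        exact h2.congr h3
      have h2 := formInner_contDiffOn hG hpos h1 hv
      exact ((Complex.ofRealCLM.contDiff.comp_contDiffOn
        (AS.contDiffOn_sqrt_det hG hpos)).mul h2).continuousOn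
    · intro y hy hyK
      rcases hc with hc | hc
      · have h1 : extDerivWithin w (HS d) y = 0 := by
          rw [extDerivWithin, fderivWithin_eq_zero_of_inter hO hK.isClosed hc hy hyK,
            ← ContinuousAlternatingMap.alternatizeUncurryFinCLM_apply, map_zero]
        rw [h1, formInner_eq_flat _ (hpos y hy), ← flatB_apply, map_zero]
        simp
      · rw [formInner_eq_flat _ (hpos y hy), ← flatB_apply, hc y hy hyK]
        have : (0 : Alt (Eu (d + 1)) (q + 1)).compContinuousLinearMap (matL (G y)⁻¹) = 0 := rfl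
        rw [this, map_zero, mul_zero]
  have hI2 : IntegrableOn (fun y => (Real.sqrt (G y).det : ℂ) *
      formInner (G y) (w y) (codLoc G v y)) (HS d ∩ O) := by
    apply integrableOn_HS_of hO hK hKO
    · have h2 := formInner_contDiffOn hG hpos hw (codLoc_contDiffOn hO hG hpos hv)
      exact ((Complex.ofRealCLM.contDiff.comp_contDiffOn
        (AS.contDiffOn_sqrt_det hG hpos)).mul h2).continuousOn
    · intro y hy hyK
      rcases hc with hc | hc
      · rw [formInner_eq_flat _ (hpos y hy), ← flatB_apply, hc y hy hyK, map_zero]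
        simp
      · have h1 : codLoc G v y = 0 := by
          unfold codLoc
          rw [fderivWithin_eq_zero_of_inter hO hK.isClosed
            (f := fun y' => Real.sqrt (G y').det • (v y').compContinuousLinearMap (matL (G y')⁻¹))
            (fun z hz hzK => hcomp0 z (hc z hz hzK)) hy hyK]
          have h2 : ∑ k : Fin (d + 1), ((0 : Eu (d + 1) →L[ℝ] Alt (Eu (d + 1)) (q + 1))
            (ev k)).curryLeft (ev k) = 0 := Finset.sum_eq_zero fun k _ => rfl
          rw [h2]
          have h3 : (0 : Alt (Eu (d + 1)) q).compContinuousLinearMap (matL (G y)) = 0 := rfl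
          rw [h3]
          exact smul_zero (M := ℝ) (A := Alt (Eu (d + 1)) q) _
        rw [h1, formInner_eq_flat _ (hpos y hy), ← flatB_apply]
        have : (0 : Alt (Eu (d + 1)) q).compContinuousLinearMap (matL (G y)⁻¹) = 0 := rfl
        rw [this, map_zero, mul_zero]
  rw [← sub_eq_zero, ← integral_sub hI1 hI2, ← hsum]
  apply setIntegral_congr_fun hms
  intro y hy
  exact (local_green_pointwise hO hG hpos hw hv hy).symm

/-- linear part of `codLoc` -/
def CL (ρ : ℝ) (G : Matrix (Fin (d + 1)) (Fin (d + 1)) ℝ)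
    (L : Eu (d + 1) →L[ℝ] Alt (Eu (d + 1)) (q + 1)) : Alt (Eu (d + 1)) q :=
  -ρ⁻¹ • (∑ k, (L (ev k)).curryLeft (ev k)).compContinuousLinearMap (matL G)

theorem CL_add (ρ : ℝ) (G : Matrix (Fin (d + 1)) (Fin (d + 1)) ℝ)
    (L L' : Eu (d + 1) →L[ℝ] Alt (Eu (d + 1)) (q + 1)) : CL ρ G (L + L') = CL ρ G L + CL ρ G L' := by
  unfold CL
  have h1 : ∑ k, ((L + L') (ev k)).curryLeft (ev k) =
      ∑ k, (L (ev k)).curryLeft (ev k) + ∑ k, (L' (ev k)).curryLeft (ev k) := by
    rw [← Finset.sum_add_distrib]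
    exact Finset.sum_congr rfl fun k _ => rfl
  rw [h1]
  ext m
  simp only [ContinuousAlternatingMap.smul_apply, ContinuousAlternatingMap.add_apply,
    ContinuousAlternatingMap.compContinuousLinearMap_apply, smul_add]

theorem matL_inv_ev (G : Matrix (Fin (d + 1)) (Fin (d + 1)) ℝ) (k : Fin (d + 1)) :
    matL G⁻¹ (ev k) = gv G k := matL_ev _ _

theorem CL_principal {ρ : ℝ} (hρ : ρ ≠ 0) {G : Matrix (Fin (d + 1)) (Fin (d + 1)) ℝ}
    (hG : G.PosDef) (L : Eu (d + 1) →L[ℝ] Alt (Eu (d + 1)) (q + 1)) :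
    CL ρ G (ρ • (ContinuousAlternatingMap.compContinuousLinearMapCLM (matL G⁻¹) ∘L L)) =
      -∑ k, (L (ev k)).curryLeft (gv G k) := by
  have hid : (matL G⁻¹).comp (matL G) = ContinuousLinearMap.id ℝ _ := by
    rw [matL_mul, Matrix.nonsing_inv_mul _ ((Matrix.isUnit_iff_isUnit_det _).1 hG.isUnit), matL_one]
  unfold CL
  have h1 : ∑ k, ((ρ • (ContinuousAlternatingMap.compContinuousLinearMapCLM (matL G⁻¹) ∘L L))
      (ev k)).curryLeft (ev k) = ρ • ∑ k, ((L (ev k)).curryLeft (gv G k)).compContinuousLinearMap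
        (matL G⁻¹) := by
    rw [Finset.smul_sum]
    refine Finset.sum_congr rfl fun k _ => ?_
    have h2 := ContinuousAlternatingMap.curryLeft_compContinuousLinearMap (L (ev k))
      (matL G⁻¹) (ev k)
    rw [matL_inv_ev] at h2
    rw [← h2]
    rfl
  rw [h1]
  ext m
  have h3 : ∀ u : Alt (Eu (d + 1)) q,
      (u.compContinuousLinearMap (matL G⁻¹)) (⇑(matL G) ∘ m) = u m := by
    intro u
    rw [ContinuousAlternatingMap.compContinuousLinearMap_apply]
    congr 1
    funext l
    have := congrArg (fun T : Eu (d + 1) →L[ℝ] Eu (d + 1) => T (m l)) hid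
    exact this
  simp only [ContinuousAlternatingMap.smul_apply, ContinuousAlternatingMap.sum_apply,
    ContinuousAlternatingMap.neg_apply,
    ContinuousAlternatingMap.compContinuousLinearMap_apply (_) (matL G), h3]
  rw [smul_smul, neg_mul, inv_mul_cancel₀ hρ]
  simp

theorem codLoc_eq_CL (G : Eu (d + 1) → Matrix (Fin (d + 1)) (Fin (d + 1)) ℝ)
    (v : Eu (d + 1) → Alt (Eu (d + 1)) (q + 1)) (y : Eu (d + 1)) :
    codLoc G v y = CL (Real.sqrt (G y).det) (G y) (fderivWithin ℝ (fun y' => Real.sqrt (G y').det •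
    (v y').compContinuousLinearMap (matL (G y')⁻¹)) (HS d) y) := rfl

/-- product rule for the codifferential -/
theorem codLoc_const_add {O : Set (Eu (d + 1))} (hO : IsOpen O)
    {G : Eu (d + 1) → Matrix (Fin (d + 1)) (Fin (d + 1)) ℝ}
    (hG : ∀ i j, ContDiffOn ℝ ∞ (fun y => G y i j) (HS d ∩ O))
    (hpos : ∀ y ∈ HS d ∩ O, (G y).PosDef) {v : Eu (d + 1) → Alt (Eu (d + 1)) (q + 1)}
    (hv : ContDiffOn ℝ ∞ v (HS d ∩ O)) {y : Eu (d + 1)} (hy : y ∈ HS d ∩ O) :
    codLoc G v y + ∑ k, (fderivWithin ℝ v (HS d) y (ev k)).curryLeft (gv (G y) k) =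
      codLoc G (fun _ => v y) y := by
  have hu : UniqueDiffWithinAt ℝ (HS d) y := uniqueDiffOn_HS y hy.1
  have hρ0 : Real.sqrt (G y).det ≠ 0 := (Real.sqrt_pos.mpr (hpos y hy).det_pos).ne'
  have hρd : DifferentiableWithinAt ℝ (fun y' => Real.sqrt (G y').det) (HS d) y :=
    differentiableWithinAt_HS hO (AS.contDiffOn_sqrt_det hG hpos) hy
  have hMd : DifferentiableWithinAt ℝ (fun y' => matL (G y')⁻¹) (HS d) y :=
    differentiableWithinAt_HS hO
      (contDiffOn_matL (AS.contDiffOn_inv hG fun y hy => (hpos y hy).det_pos.ne')) hy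
  have hvd : DifferentiableWithinAt ℝ v (HS d) y := differentiableWithinAt_HS hO hv hy
  have key : ∀ f : Eu (d + 1) → Alt (Eu (d + 1)) (q + 1), ∀ f' : Eu (d + 1) →L[ℝ]
      Alt (Eu (d + 1)) (q + 1), HasFDerivWithinAt f f' (HS d) y →
      fderivWithin ℝ (fun y' => Real.sqrt (G y').det •
        (f y').compContinuousLinearMap (matL (G y')⁻¹)) (HS d) y =
      Real.sqrt (G y).det • (ContinuousAlternatingMap.compContinuousLinearMapCLM
        (matL (G y)⁻¹) ∘L f' + (f y).fderivCompContinuousLinearMap (matL (G y)⁻¹) ∘L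
          fderivWithin ℝ (fun y' => matL (G y')⁻¹) (HS d) y) +
      (fderivWithin ℝ (fun y' => Real.sqrt (G y').det) (HS d) y).smulRight
        ((f y).compContinuousLinearMap (matL (G y)⁻¹)) := by
    intro f f' hf
    have h1 := hf.continuousAlternatingMapCompContinuousLinearMap hMd.hasFDerivWithinAt
    exact (hρd.hasFDerivWithinAt.smul h1).fderivWithin hu
  have h1 := key v _ hvd.hasFDerivWithinAt
  have h2 := key (fun _ => v y) 0 (hasFDerivWithinAt_const _ _ _)
  have h3 : fderivWithin ℝ (fun y' => Real.sqrt (G y').det •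
        (v y').compContinuousLinearMap (matL (G y')⁻¹)) (HS d) y =
      fderivWithin ℝ (fun y' => Real.sqrt (G y').det •
        ((fun _ => v y) y').compContinuousLinearMap (matL (G y')⁻¹)) (HS d) y +
      Real.sqrt (G y).det • (ContinuousAlternatingMap.compContinuousLinearMapCLM
        (matL (G y)⁻¹) ∘L fderivWithin ℝ v (HS d) y) := by
    rw [h1, h2]
    ext e m
    simp only [_root_.add_apply, _root_.smul_apply, ContinuousLinearMap.comp_apply,
      _root_.zero_apply, map_zero, ContinuousAlternatingMap.add_apply,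
      ContinuousAlternatingMap.smul_apply, ContinuousAlternatingMap.coe_zero, Pi.zero_apply,
      ContinuousLinearMap.smulRight_apply, smul_add, smul_zero]
    abel
  rw [codLoc_eq_CL, h3, CL_add, CL_principal hρ0 (hpos y hy), ← codLoc_eq_CL, neg_add_cancel_right]

/-- `δ v = - ∑_k ι_{gv k} ∂_k v + (order zero)`, with locally bounded order zero term. -/
theorem codLoc_principal {O K : Set (Eu (d + 1))} (hO : IsOpen O) (hK : IsCompact K) (hKO : K ⊆ O)
    {G : Eu (d + 1) → Matrix (Fin (d + 1)) (Fin (d + 1)) ℝ}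
    (hG : ∀ i j, ContDiffOn ℝ ∞ (fun y => G y i j) (HS d ∩ O))
    (hpos : ∀ y ∈ HS d ∩ O, (G y).PosDef) :
    ∃ C : ℝ, 0 < C ∧ ∀ v : Eu (d + 1) → Alt (Eu (d + 1)) (q + 1), ContDiffOn ℝ ∞ v (HS d ∩ O) →
      ∀ y ∈ HS d ∩ K, ‖codLoc G v y + ∑ k, (fderivWithin ℝ v (HS d) y (ev k)).curryLeft
        (gv (G y) k)‖ ≤ C * ‖v y‖ := by
  classical
  -- constants
  have hadd : ∀ (u u' : Alt (Eu (d + 1)) (q + 1)), ∀ y ∈ HS d ∩ O,
      codLoc G (fun _ => u + u') y = codLoc G (fun _ => u) y + codLoc G (fun _ => u') y := by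
    intro u u' y hy
    have hd : ∀ u : Alt (Eu (d + 1)) (q + 1), DifferentiableWithinAt ℝ (fun y' =>
        Real.sqrt (G y').det • u.compContinuousLinearMap (matL (G y')⁻¹)) (HS d) y := fun u =>
      differentiableWithinAt_HS hO (contDiffOn_sqrt_smul hG hpos contDiffOn_const) hy
    rw [codLoc_eq_CL, codLoc_eq_CL, codLoc_eq_CL, ← CL_add,
      ← fderivWithin_add (uniqueDiffOn_HS y hy.1) (hd u) (hd u')]
    congr 2
    funext y'
    show _ = Real.sqrt (G y').det • u.compContinuousLinearMap (matL (G y')⁻¹) +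
      Real.sqrt (G y').det • u'.compContinuousLinearMap (matL (G y')⁻¹)
    ext m
    simp only [ContinuousAlternatingMap.smul_apply, ContinuousAlternatingMap.add_apply,
      ContinuousAlternatingMap.compContinuousLinearMap_apply, smul_add]
  have hsmul : ∀ (c : ℝ) (u : Alt (Eu (d + 1)) (q + 1)), ∀ y ∈ HS d ∩ O,
      codLoc G (fun _ => c • u) y = c • codLoc G (fun _ => u) y := by
    intro c u y hy
    have hd : DifferentiableWithinAt ℝ (fun y' =>
        Real.sqrt (G y').det • u.compContinuousLinearMap (matL (G y')⁻¹)) (HS d) y :=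
      differentiableWithinAt_HS hO (contDiffOn_sqrt_smul hG hpos contDiffOn_const) hy
    have h1 : (fun y' => Real.sqrt (G y').det • (c • u).compContinuousLinearMap (matL (G y')⁻¹)) =
        fun y' => c • (Real.sqrt (G y').det • u.compContinuousLinearMap (matL (G y')⁻¹)) := by
      funext y'
      rw [smul_comm]
      rfl
    rw [codLoc_eq_CL, codLoc_eq_CL, h1, fderivWithin_fun_const_smul (uniqueDiffOn_HS y hy.1) hd]
    unfold CL
    ext m
    simp only [ContinuousAlternatingMap.smul_apply, ContinuousAlternatingMap.sum_apply,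
      ContinuousAlternatingMap.compContinuousLinearMap_apply, smul_apply,
      ContinuousAlternatingMap.curryLeft_apply_apply, ← Finset.smul_sum]
    rw [smul_comm]
  -- bound for a constant form
  have hb1 : ∀ u : Alt (Eu (d + 1)) (q + 1), ∃ C : ℝ, ∀ y ∈ HS d ∩ K,
      ‖codLoc G (fun _ => u) y‖ ≤ C := by
    intro u
    have h1 : ContinuousOn (codLoc G (fun _ => u)) (HS d ∩ K) :=
      (codLoc_contDiffOn hO hG hpos contDiffOn_const).continuousOn.mono
        (inter_subset_inter_right _ hKO)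
    exact (hK.inter_left isClosed_HS).exists_bound_of_continuousOn h1
  set B := Module.finBasis ℝ (Alt (Eu (d + 1)) (q + 1)) with hB
  choose C hC using fun i => hb1 (B i)
  obtain ⟨R, hR0, hR⟩ : ∃ R : ℝ, 0 ≤ R ∧ ∀ i, ∀ u, ‖B.repr u i‖ ≤ R * ‖u‖ := by
    refine ⟨∑ i, ‖LinearMap.toContinuousLinearMap (B.coord i)‖,
      Finset.sum_nonneg fun i _ => by positivity, fun i u => ?_⟩
    calc ‖B.repr u i‖ = ‖LinearMap.toContinuousLinearMap (B.coord i) u‖ := rfl
      _ ≤ ‖LinearMap.toContinuousLinearMap (B.coord i)‖ * ‖u‖ := ContinuousLinearMap.le_opNorm _ _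
      _ ≤ _ := mul_le_mul_of_nonneg_right (Finset.single_le_sum
        (f := fun i => ‖LinearMap.toContinuousLinearMap (B.coord i)‖)
        (fun i _ => by positivity) (Finset.mem_univ i)) (norm_nonneg u)
  refine ⟨R * ∑ i, |C i| + 1, by positivity, ?_⟩
  intro v hv y hy
  have hyO : y ∈ HS d ∩ O := ⟨hy.1, hKO hy.2⟩
  rw [codLoc_const_add hO hG hpos hv hyO]
  -- linear map
  let Z : Alt (Eu (d + 1)) (q + 1) →ₗ[ℝ] Alt (Eu (d + 1)) q :=
    { toFun := fun u => codLoc G (fun _ => u) y
      map_add' := fun u u' => hadd u u' y hyO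
      map_smul' := fun c u => hsmul c u y hyO }
  have h1 : codLoc G (fun _ => v y) y = ∑ i, (B.repr (v y) i) • Z (B i) := by
    have h2 : Z (v y) = Z (∑ i, B.repr (v y) i • B i) := by rw [B.sum_repr]
    rw [map_sum] at h2
    simp only [map_smul] at h2
    exact h2
  rw [h1]
  calc ‖∑ i, (B.repr (v y) i) • Z (B i)‖ ≤ ∑ i, ‖(B.repr (v y) i) • Z (B i)‖ := norm_sum_le _ _
    _ ≤ ∑ i, (R * ‖v y‖) * |C i| := by
        refine Finset.sum_le_sum fun i _ => ?_
        rw [norm_smul]
        exact mul_le_mul (hR i (v y)) ((hC i y hy).trans (le_abs_self _)) (norm_nonneg _)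
          (by positivity)
    _ = (R * ∑ i, |C i|) * ‖v y‖ := by
        rw [← Finset.mul_sum]; ring
    _ ≤ (R * ∑ i, |C i| + 1) * ‖v y‖ :=
        mul_le_mul_of_nonneg_right (by linarith) (norm_nonneg _)

end DtN
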