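import Pool.Agent.H14.DtN.Basic
import Pool.Agent.H14.DtN.HalfIBP

/-!
MODULE J0 : boundary points in charts, chart changes at boundary points, and the bridge from
smooth sections of the tangent bundle to smooth vector fields.
-/

open scoped Manifold ContDiff Topology ComplexConjugate
open Set MeasureTheory

set_option linter.unusedSectionVars false

noncomputable section

namespace DtN.J2

section VFbridge

variable {E : Type*} [NormedAddCommGroup E] [NormedSpace ℝ E] [FiniteDimensional ℝ E]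
  {H : Type*} [TopologicalSpace H] {I : ModelWithCorners ℝ E H}
  {M : Type*} [TopologicalSpace M] [ChartedSpace H M] [IsManifold I ∞ M]

/-- A smooth section of the tangent bundle is a smooth vector field. -/
theorem smoothVF_of_section (s : (z : M) → TangentSpace I z)
    (hs : ContMDiff I (I.prod 𝓘(ℝ, E)) ∞ (fun z => Bundle.TotalSpace.mk' E z (s z))) :
    SmoothVF I (fun z => (s z : E)) := by
  intro x₀
  have h1 : ContMDiffOn I 𝓘(ℝ, E) ∞
      (fun z => (trivializationAt E (TangentSpace I) x₀ ⟨z, s z⟩).2) (chartAt H x₀).source := by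
    have := (Bundle.Trivialization.contMDiffOn_section_baseSet_iff (IB := I) (n := ∞)
      (s := s) (trivializationAt E (TangentSpace I : M → Type _) x₀)).mp hs.contMDiffOn
    exact this
  have h2 : ContMDiffOn 𝓘(ℝ, E) I ∞ (extChartAt I x₀).symm (extChartAt I x₀).target :=
    contMDiffOn_extChartAt_symm x₀
  have h3 := h1.comp h2 (fun y hy => by
    have := (extChartAt I x₀).map_target hy
    rwa [extChartAt_source] at this)
  rw [contMDiffOn_iff_contDiffOn] at h3
  refine h3.congr fun y hy => ?_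
  have hz : (extChartAt I x₀).symm y ∈ (chartAt H x₀).source := by
    have := (extChartAt I x₀).map_target hy
    rwa [extChartAt_source] at this
  show dchart I x₀ ((extChartAt I x₀).symm y) (s ((extChartAt I x₀).symm y)) = _
  have h4 := TangentBundle.continuousLinearMapAt_trivializationAt (I := I) hz
  have h5 : (trivializationAt E (TangentSpace I) x₀).continuousLinearMapAt ℝ
      ((extChartAt I x₀).symm y) (s ((extChartAt I x₀).symm y)) =
      (trivializationAt E (TangentSpace I) x₀ ⟨(extChartAt I x₀).symm y, s _⟩).2 := by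
    rw [Bundle.Trivialization.continuousLinearMapAt_apply,
      Bundle.Trivialization.linearMapAt_def_of_mem _ hz]
    rfl
  show _ = (trivializationAt E (TangentSpace I) x₀ ⟨(extChartAt I x₀).symm y, s _⟩).2
  rw [← h5, h4]
  rfl

/-- The coordinate expression of a local field in the trivialization. -/
theorem triv_dsymm {z₀ z : M} (hz : z ∈ (extChartAt I z₀).source) (v : E) :
    (trivializationAt E (TangentSpace I) z₀
      ⟨z, (dsymm I z₀ (extChartAt I z₀ z) v : TangentSpace I z)⟩).2 = v := by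
  have hz1 : z ∈ (chartAt H z₀).source := by rwa [extChartAt_source] at hz
  have h4 := TangentBundle.continuousLinearMapAt_trivializationAt (I := I) hz1
  have h5 : (trivializationAt E (TangentSpace I) z₀).continuousLinearMapAt ℝ z
      (dsymm I z₀ (extChartAt I z₀ z) v : TangentSpace I z) =
      (trivializationAt E (TangentSpace I) z₀
        ⟨z, (dsymm I z₀ (extChartAt I z₀ z) v : TangentSpace I z)⟩).2 := by
    rw [Bundle.Trivialization.continuousLinearMapAt_apply,
      Bundle.Trivialization.linearMapAt_def_of_mem _ hz1]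
    rfl
  rw [← h5, h4]
  have h6 := mfderiv_extChartAt_comp_mfderivWithin_extChartAt_symm' (I := I) hz
  exact congrArg (fun L : E →L[ℝ] E => L v) h6

/-- a local field given by its coordinates `v` in the chart at `z₀` -/
def locF (I : ModelWithCorners ℝ E H) (z₀ : M) (v : M → E) (z : M) : TangentSpace I z :=
  dsymm I z₀ (extChartAt I z₀ z) (v z)

theorem section_of_local {z₀ : M} {W : Set M} (hWs : W ⊆ (extChartAt I z₀).source) {v : M → E}
    (hv : ContMDiffOn I 𝓘(ℝ, E) ∞ v W) :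
    ContMDiffOn I (I.prod 𝓘(ℝ, E)) ∞ (fun z => Bundle.TotalSpace.mk' E z (locF I z₀ v z)) W := by
  intro z hz
  have hz' : z ∈ (chartAt H z₀).source := by
    have := hWs hz
    rwa [extChartAt_source] at this
  refine (Bundle.Trivialization.contMDiffWithinAt_section (s := locF I z₀ v)
    (e := trivializationAt E (TangentSpace I : M → Type _) z₀) W hz').mpr ?_
  exact (hv z hz).congr (fun z' hz1 => triv_dsymm (hWs hz1) (v z'))
    (triv_dsymm (hWs hz) (v z))

/-- Local existence of vector fields with values in convex sets implies global existence. -/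
theorem exists_VF_of_local [CompactSpace M] [T2Space M] (t : M → Set E)
    (ht : ∀ z, Convex ℝ (t z))
    (hloc : ∀ z₀ : M, ∃ x₀ : M, ∃ W ∈ 𝓝 z₀, W ⊆ (extChartAt I x₀).source ∧ ∃ v : M → E,
      ContMDiffOn I 𝓘(ℝ, E) ∞ v W ∧ ∀ z ∈ W, dsymm I x₀ (extChartAt I x₀ z) (v z) ∈ t z) :
    ∃ N : VF I M, ∀ z, N.val z ∈ t z := by
  obtain ⟨s, hs⟩ := exists_contMDiffSection_forall_mem_convex_of_local (n := (⊤ : ℕ∞)) I
    (F_fiber := E) (TangentSpace I : M → Type _) (fun z => (t z : Set E)) ht (by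
      intro z₀
      obtain ⟨x₀, W, hW, hWs, v, hv, hvt⟩ := hloc z₀
      exact ⟨W, hW, locF I x₀ v, section_of_local hWs hv, hvt⟩)
  exact ⟨⟨fun z => s z, smoothVF_of_section (fun z => s z) s.contMDiff⟩, hs⟩

end VFbridge

section Boundary

variable {d : ℕ} {Ω : Type*} [TopologicalSpace Ω] [ChartedSpace (EuclideanHalfSpace (d + 1)) Ω]

theorem range_HS : range (𝓡∂ (d + 1)) = HS d := range_modelWithCornersEuclideanHalfSpace (d + 1)

theorem chart_nonneg (x₀ z : Ω) : 0 ≤ (extChartAt (𝓡∂ (d + 1)) x₀ z) 0 := by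
  have h : extChartAt (𝓡∂ (d + 1)) x₀ z ∈ range (𝓡∂ (d + 1)) := by
    rw [extChartAt_coe]; exact mem_range_self _
  rw [range_HS] at h
  exact h

variable [IsManifold (𝓡∂ (d + 1)) ∞ Ω]

/-- Boundary points in charts. -/
theorem boundary_iff {x₀ z : Ω} (hz : z ∈ (extChartAt (𝓡∂ (d + 1)) x₀).source) :
    z ∈ (𝓡∂ (d + 1)).boundary Ω ↔ (extChartAt (𝓡∂ (d + 1)) x₀ z) 0 = 0 := by
  have hz' : z ∈ (chartAt (EuclideanHalfSpace (d + 1)) x₀).source := by
    rwa [extChartAt_source] at hz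
  have h1 := ModelWithCorners.isInteriorPoint_iff_of_mem_atlas (I := 𝓡∂ (d + 1)) (n := ∞)
    (by simp) (chart_mem_atlas (EuclideanHalfSpace (d + 1)) x₀) hz'
  have h2 : z ∈ (𝓡∂ (d + 1)).boundary Ω ↔ ¬ (𝓡∂ (d + 1)).IsInteriorPoint z :=
    (𝓡∂ (d + 1)).isBoundaryPoint_iff_not_isInteriorPoint z
  rw [h2, h1]
  have h3 := chart_nonneg (d := d) x₀ z
  constructor
  · intro h
    by_contra h4
    apply h
    have h5 : 0 < (extChartAt (𝓡∂ (d + 1)) x₀ z) 0 := lt_of_le_of_ne h3 (Ne.symm h4)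
    refine (chartAt (EuclideanHalfSpace (d + 1)) x₀).mem_interior_extend_target
      ((chartAt (EuclideanHalfSpace (d + 1)) x₀).map_source hz') ?_
    rw [interior_range_modelWithCornersEuclideanHalfSpace]
    exact h5
  · intro h h4
    have h5 : extChartAt (𝓡∂ (d + 1)) x₀ z ∈ interior (range (𝓡∂ (d + 1))) :=
      interior_mono (extChartAt_target_subset_range x₀) h4
    rw [interior_range_modelWithCornersEuclideanHalfSpace] at h5
    have h6 : 0 < (extChartAt (𝓡∂ (d + 1)) x₀ z) 0 := h5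
    exact absurd h h6.ne'

theorem mem_posTangentConeAt_HS {y v : Eu (d + 1)} (hy : y 0 = 0) (hv : 0 ≤ v 0) :
    v ∈ posTangentConeAt (HS d) y := by
  apply mem_posTangentConeAt_of_segment_subset
  rw [segment_eq_image']
  rintro _ ⟨t, ht, rfl⟩
  show 0 ≤ (y + t • (y + v - y)) 0
  have : (y + t • (y + v - y)) 0 = y 0 + t * (y 0 + v 0 - y 0) := rfl
  rw [this, hy]
  have := mul_nonneg ht.1 hv
  linarith

/-- A linear functional which is nonnegative on the half space is a multiple of the first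
coordinate. -/
theorem functional_eq {L : Eu (d + 1) →L[ℝ] ℝ} (h : ∀ v : Eu (d + 1), 0 ≤ v 0 → 0 ≤ L v) :
    0 ≤ L (EuclideanSpace.single 0 1) ∧ ∀ v, L v = L (EuclideanSpace.single 0 1) * v 0 := by
  refine ⟨h _ (by simp), fun v => ?_⟩
  have h1 : ∀ w : Eu (d + 1), w 0 = 0 → L w = 0 := by
    intro w hw
    have h2 := h w hw.ge
    have h3 := h (-w) (by simp [hw])
    rw [map_neg] at h3
    linarith
  have h4 := h1 (v - v 0 • EuclideanSpace.single 0 1) (by simp)
  rw [map_sub, map_smul, smul_eq_mul] at h4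
  linarith

/-- Chart changes at boundary points preserve the tangent space of the boundary and the inner
side. -/
theorem dchart_bdry {x₀ z : Ω} (hz : z ∈ (extChartAt (𝓡∂ (d + 1)) x₀).source)
    (hb : z ∈ (𝓡∂ (d + 1)).boundary Ω) :
    ∃ c : ℝ, 0 < c ∧ ∀ v, (dchart (𝓡∂ (d + 1)) x₀ z v) 0 = c * v 0 := by
  have hz' : z ∈ (chartAt (EuclideanHalfSpace (d + 1)) x₀).source := by
    rwa [extChartAt_source] at hz
  have h1 : HasFDerivWithinAt (writtenInExtChartAt (𝓡∂ (d + 1)) 𝓘(ℝ, Eu (d + 1)) z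
      (extChartAt (𝓡∂ (d + 1)) x₀)) (dchart (𝓡∂ (d + 1)) x₀ z) (range (𝓡∂ (d + 1)))
      (extChartAt (𝓡∂ (d + 1)) z z) :=
    (mdifferentiableAt_extChartAt hz').hasMFDerivAt.2
  rw [range_HS] at h1
  have h2 : HasFDerivWithinAt (fun y => (extChartAt (𝓡∂ (d + 1)) x₀
      ((extChartAt (𝓡∂ (d + 1)) z).symm y)) 0)
      ((EuclideanSpace.proj (0 : Fin (d + 1)) : Eu (d + 1) →L[ℝ] ℝ).comp
        (dchart (𝓡∂ (d + 1)) x₀ z)) (HS d) (extChartAt (𝓡∂ (d + 1)) z z) := by
    exact (EuclideanSpace.proj (0 : Fin (d + 1)) :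
      Eu (d + 1) →L[ℝ] ℝ).hasFDerivAt.comp_hasFDerivWithinAt (extChartAt (𝓡∂ (d + 1)) z z) h1
  have hy0 : (extChartAt (𝓡∂ (d + 1)) z z) 0 = 0 :=
    (boundary_iff (mem_extChartAt_source z)).mp hb
  have hmin : IsLocalMinOn (fun y => (extChartAt (𝓡∂ (d + 1)) x₀
      ((extChartAt (𝓡∂ (d + 1)) z).symm y)) 0) (HS d) (extChartAt (𝓡∂ (d + 1)) z z) := by
    refine Filter.Eventually.of_forall fun y => ?_
    show (extChartAt (𝓡∂ (d + 1)) x₀ ((extChartAt (𝓡∂ (d + 1)) z).symm
      (extChartAt (𝓡∂ (d + 1)) z z))) 0 ≤ _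
    rw [extChartAt_to_inv, (boundary_iff hz).mp hb]
    exact chart_nonneg _ _
  obtain ⟨h4, h5⟩ := functional_eq (L := (EuclideanSpace.proj (0 : Fin (d + 1)) :
      Eu (d + 1) →L[ℝ] ℝ).comp (dchart (𝓡∂ (d + 1)) x₀ z)) (fun v hv =>
    hmin.hasFDerivWithinAt_nonneg h2 (mem_posTangentConeAt_HS hy0 hv))
  refine ⟨_, lt_of_le_of_ne h4 ?_, h5⟩
  intro h6
  have h7 : ∀ v, (dchart (𝓡∂ (d + 1)) x₀ z v) 0 = 0 := by
    intro v
    have := h5 v
    rw [← h6, zero_mul] at this
    exact this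
  have h8 : (dchart (𝓡∂ (d + 1)) x₀ z) (dsymm (𝓡∂ (d + 1)) x₀
      (extChartAt (𝓡∂ (d + 1)) x₀ z) (EuclideanSpace.single 0 1)) = EuclideanSpace.single 0 1 :=
    congrArg (fun L : Eu (d + 1) →L[ℝ] Eu (d + 1) => L (EuclideanSpace.single 0 1))
      (mfderiv_extChartAt_comp_mfderivWithin_extChartAt_symm' (I := 𝓡∂ (d + 1)) hz)
  have h9 := h7 (dsymm (𝓡∂ (d + 1)) x₀
      (extChartAt (𝓡∂ (d + 1)) x₀ z) (EuclideanSpace.single 0 1))
  rw [h8] at h9
  simp at h9

/-- The same for the inverse chart. -/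
theorem dsymm_bdry {x₀ z : Ω} (hz : z ∈ (extChartAt (𝓡∂ (d + 1)) x₀).source)
    (hb : z ∈ (𝓡∂ (d + 1)).boundary Ω) :
    ∃ c : ℝ, 0 < c ∧ ∀ v, (dsymm (𝓡∂ (d + 1)) x₀ (extChartAt (𝓡∂ (d + 1)) x₀ z) v) 0 = c * v 0 := by
  obtain ⟨c, hc, h⟩ := dchart_bdry hz hb
  refine ⟨c⁻¹, inv_pos.mpr hc, fun v => ?_⟩
  have h8 : (dchart (𝓡∂ (d + 1)) x₀ z) (dsymm (𝓡∂ (d + 1)) x₀
      (extChartAt (𝓡∂ (d + 1)) x₀ z) v) = v :=
    congrArg (fun L : Eu (d + 1) →L[ℝ] Eu (d + 1) => L v)
      (mfderiv_extChartAt_comp_mfderivWithin_extChartAt_symm' (I := 𝓡∂ (d + 1)) hz)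
  have h9 := h (dsymm (𝓡∂ (d + 1)) x₀ (extChartAt (𝓡∂ (d + 1)) x₀ z) v)
  rw [h8] at h9
  rw [h9, inv_mul_cancel_left₀ hc.ne']

end Boundary

end DtN.J2
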