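import Pool.Agent.H14.DtN.Form

/-!
Definitions for the statement, part 2 : the codifferential, Karpukhin's operator,
pseudo-differential operators.
-/

open scoped Manifold ContDiff Topology ComplexConjugate FourierTransform
open Set MeasureTheory DtN

noncomputable section

namespace Karp

section HalfSpace

variable {E : Type*} [NormedAddCommGroup E] [NormedSpace ℝ E] {n : ℕ}
  (b : Module.Basis (Fin n) ℝ E)
  {H : Type*} [TopologicalSpace H] {I : ModelWithCorners ℝ E H}
  {M : Type*} [TopologicalSpace M] [ChartedSpace H M]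

/-- Inner product of complex valued alternating forms on `E` with respect to the inner
product on `E` with Gram matrix `G` in the basis `b`:
`(1 / q!) ∑_{J, K} (∏_l G⁻¹ (J l) (K l)) u (b_J) conj (v (b_K))`. -/
def formInner {q : ℕ} (G : Matrix (Fin n) (Fin n) ℝ) (u v : Alt E q) : ℂ :=
  ((Nat.factorial q : ℝ)⁻¹ : ℝ) * ∑ J : Fin q → Fin n, ∑ K : Fin q → Fin n,
    ((∏ l, G⁻¹ (J l) (K l) : ℝ) : ℂ) * (u (fun l => b (J l)) * conj (v (fun l => b (K l))))

/-- Gram matrix, in the basis `b`, of the metric in the preferred chart at `x₀`. -/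
def gram (g : Metric I M) (x₀ : M) (y : E) : Matrix (Fin n) (Fin n) ℝ :=
  Matrix.of fun i j => g.val ((extChartAt I x₀).symm y)
    (dsymm I x₀ y (b i)) (dsymm I x₀ y (b j))

/-- The integral, over the preferred chart at `x₀` and for the Riemannian volume, of the inner
product of the forms `u` and `v` (given in the chart). -/
def chartInner [MeasurableSpace E] [BorelSpace E] (g : Metric I M) (x₀ : M) {q : ℕ}
    (u v : E → Alt E q) : ℂ :=
  ∫ y, (Real.sqrt (gram b g x₀ y).det : ℂ) * formInner b (gram b g x₀ y) (u y) (v y) ∂b.addHaar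

/-- `τ = δ w`: `τ` is the image of `w` under the formal adjoint of the exterior derivative:
`(d φ, w) = (φ, τ)` for all smooth forms `φ` with compact support in the interior of a chart. -/
def IsCodiff [MeasurableSpace E] [BorelSpace E] (g : Metric I M) {q : ℕ}
    (w : M → Alt E (q + 1)) (τ : M → Alt E q) : Prop :=
  ∀ (x₀ : M) (φ : E → Alt E q), ContDiff ℝ ∞ φ → HasCompactSupport φ →
    tsupport φ ⊆ interior (extChartAt I x₀).target →
    chartInner b g x₀ (extDeriv φ) (rep I x₀ w) = chartInner b g x₀ φ (rep I x₀ τ)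

/-- `w` is a smooth solution of `Δ w = 0`, `δ w = 0` (where `Δ = d δ + δ d`). -/
def Solves [MeasurableSpace E] [BorelSpace E] (g : Metric I M) {k : ℕ}
    (w : M → Alt E (k + 1)) : Prop :=
  SmoothForm I w ∧ IsCodiff b g w 0 ∧
  ∃ (τ : M → Alt E k) (σ : M → Alt E (k + 1)), SmoothForm I τ ∧ SmoothForm I σ ∧
    IsCodiff b g w τ ∧ IsCodiff b g (extD I w) σ ∧ ∀ z, extD I τ z + σ z = 0

end HalfSpace

section Bdry

variable {E : Type*} [NormedAddCommGroup E] [NormedSpace ℝ E] {d : ℕ}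
  (b : Module.Basis (Fin (d + 1)) ℝ E)
  {H : Type*} [TopologicalSpace H] {I : ModelWithCorners ℝ E H}
  {M : Type*} [TopologicalSpace M] [ChartedSpace H M]
  {E' : Type*} [NormedAddCommGroup E'] [NormedSpace ℝ E']
  {H' : Type*} [TopologicalSpace H'] (J : ModelWithCorners ℝ E' H')
  {S : Type*} [TopologicalSpace S] [ChartedSpace H' S]

variable (I) in
/-- `f` is an injective immersion of `S` onto the boundary of `M`. -/
def IsBdry (f : S → M) : Prop :=
  ContMDiff J I ∞ f ∧ Function.Injective f ∧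
  (∀ s, Function.Injective (mfderiv J I f s)) ∧ range f = I.boundary M

/-- `ν` is the outward unit normal along `f : S → M`; the half space being
`{x | 0 ≤ x 0}`, the first coordinate of an outward vector is negative. -/
def IsUnitNormal (g : Metric I M) (f : S → M) (ν : S → E) : Prop :=
  ∀ s, g.val (f s) (ν s) (ν s) = 1 ∧
    (∀ v : E', g.val (f s) (ν s) (mfderiv J I f s v) = 0) ∧ b.repr (ν s) 0 < 0

/-- `T` is Karpukhin's Dirichlet-to-Neumann operator on `(k+1)`-forms: for every smooth form `η`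
on `S` there is a solution `w` of `Δ w = 0`, `δ w = 0`, `f^* w = η`, with `T η = ν ⌟ d w`. -/
def IsDtN [MeasurableSpace E] [BorelSpace E] (g : Metric I M) (f : S → M) (ν : S → E) {k : ℕ}
    (T : (S → Alt E' (k + 1)) → (S → Alt E' (k + 1))) : Prop :=
  ∀ η : S → Alt E' (k + 1), SmoothForm J η →
    ∃ w : M → Alt E (k + 1), Solves b g w ∧ pull I J f w = η ∧
      T η = fun s => ((extD I w (f s)).curryLeft (ν s)).compContinuousLinearMap (mfderiv J I f s)

end Bdry

section PsiDO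

variable {E' : Type*} [NormedAddCommGroup E']

/-- Symbols of order `m`. -/
def IsSymbol [NormedSpace ℝ E'] {W : Type*} [NormedAddCommGroup W] [NormedSpace ℝ W] (m : ℝ)
    (a : E' → E' → W) : Prop :=
  ContDiff ℝ ∞ (fun p : E' × E' => a p.1 p.2) ∧
  ∀ j k : ℕ, ∃ C : ℝ, ∀ x ξ : E',
    ‖iteratedFDeriv ℝ k (fun x' => iteratedFDeriv ℝ j (a x') ξ) x‖ ≤ C * (1 + ‖ξ‖) ^ (m - j)

/-- A smooth function with compact support in `U`. -/
def IsCutoff [NormedSpace ℝ E'] (U : Set E') (φ : E' → ℂ) : Prop :=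
  ContDiff ℝ ∞ φ ∧ HasCompactSupport φ ∧ tsupport φ ⊆ U

/-- `κ^* (ψ u)` extended by zero, for a chart `κ` of `S`. -/
def chartPull [NormedSpace ℝ E'] {S : Type*} [TopologicalSpace S] [ChartedSpace E' S] {q : ℕ}
    (κ : OpenPartialHomeomorph S E') (ψ : E' → ℂ) (u : E' → Alt E' q) : S → Alt E' q := by
  classical
  exact fun s => if s ∈ κ.source then
    (ψ (κ s) • u (κ s)).compContinuousLinearMap (mfderiv 𝓘(ℝ, E') 𝓘(ℝ, E') κ s) else 0

/-- `φ (κ⁻¹)^* η`, for a chart `κ` of `S`. -/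
def chartPush [NormedSpace ℝ E'] {S : Type*} [TopologicalSpace S] [ChartedSpace E' S] {q : ℕ}
    (κ : OpenPartialHomeomorph S E') (φ : E' → ℂ) (η : S → Alt E' q) : E' → Alt E' q :=
  fun x => φ x • (η (κ.symm x)).compContinuousLinearMap
    (mfderiv 𝓘(ℝ, E') 𝓘(ℝ, E') κ.symm x)

/-- The pseudo-differential operator on `E'` with symbol `a`. -/
def OpSymbol [InnerProductSpace ℝ E'] [FiniteDimensional ℝ E'] [MeasurableSpace E']
    [BorelSpace E'] {q : ℕ} (a : E' → E' → (Alt E' q →L[ℂ] Alt E' q))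
    (u : SchwartzMap E' (Alt E' q)) (x : E') : Alt E' q :=
  ∫ ξ, Complex.exp (2 * Real.pi * (inner ℝ x ξ : ℝ) * Complex.I) •
    a x ξ (𝓕 (u : E' → Alt E' q) ξ)

/-- `T` is a pseudo-differential operator (of some order) on smooth `q`-forms on `S`. -/
def IsPsiDO [InnerProductSpace ℝ E'] [FiniteDimensional ℝ E'] [MeasurableSpace E']
    [BorelSpace E'] {S : Type*} [TopologicalSpace S] [ChartedSpace E' S] {q : ℕ}
    (T : (S → Alt E' q) → (S → Alt E' q)) : Prop :=
  (∀ η, SmoothForm 𝓘(ℝ, E') η → SmoothForm 𝓘(ℝ, E') (T η)) ∧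
  (∀ (c : ℂ) (η θ), SmoothForm 𝓘(ℝ, E') η → SmoothForm 𝓘(ℝ, E') θ →
    T (c • η + θ) = c • T η + T θ) ∧
  ∃ m : ℝ, ∀ κ ∈ IsManifold.maximalAtlas 𝓘(ℝ, E') ∞ S, ∀ φ ψ : E' → ℂ,
    IsCutoff κ.target φ → IsCutoff κ.target ψ →
    ∃ a : E' → E' → (Alt E' q →L[ℂ] Alt E' q), IsSymbol m a ∧
      ∀ (u : SchwartzMap E' (Alt E' q)) (x : E'),
        chartPush κ φ (T (chartPull κ ψ u)) x = OpSymbol a u x

end PsiDO

/-- The standard basis of `ℝⁿ`. -/
def stdB (n : ℕ) : Module.Basis (Fin n) ℝ (EuclideanSpace ℝ (Fin n)) :=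
  (EuclideanSpace.basisFun (Fin n) ℝ).toBasis

end Karp
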