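import Pool.Agent.H14.DtN.Defs
import Pool.Agent.H14.DtN.Karp

/-!
The definitions of the statement agree with those used in the proofs.
-/

open scoped Manifold ContDiff Topology ComplexConjugate FourierTransform
open Set MeasureTheory

noncomputable section

namespace DtN

theorem stdB_apply (n : ℕ) (i : Fin n) : Karp.stdB n i = EuclideanSpace.single i 1 := by
  simp [Karp.stdB]

theorem stdB_repr (n : ℕ) (v : Eu n) (i : Fin n) : (Karp.stdB n).repr v i = v i := by
  simp [Karp.stdB]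

theorem stdB_addHaar (n : ℕ) : (Karp.stdB n).addHaar = volume :=
  OrthonormalBasis.addHaar_eq_volume (EuclideanSpace.basisFun (Fin n) ℝ)

theorem formInner_std {n q : ℕ} (G : Matrix (Fin n) (Fin n) ℝ) (u v : Alt (Eu n) q) :
    Karp.formInner (Karp.stdB n) G u v = formInner G u v := by
  unfold Karp.formInner formInner
  simp only [stdB_apply]

variable {n : ℕ} {H : Type*} [TopologicalSpace H] {I : ModelWithCorners ℝ (Eu n) H}
  {M : Type*} [TopologicalSpace M] [ChartedSpace H M]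

theorem gram_std (g : Metric I M) (x₀ : M) (y : Eu n) :
    Karp.gram (Karp.stdB n) g x₀ y = g.gram x₀ y := by
  unfold Karp.gram Metric.gram
  simp only [stdB_apply]

theorem isCodiff_std (g : Metric I M) {q : ℕ} (w : M → Alt (Eu n) (q + 1))
    (τ : M → Alt (Eu n) q) : Karp.IsCodiff (Karp.stdB n) g w τ ↔ IsCodiff g w τ := by
  unfold Karp.IsCodiff IsCodiff Karp.chartInner
  simp only [stdB_addHaar, gram_std, formInner_std]

section
variable {d : ℕ} {Ω : Type*} [TopologicalSpace Ω] [ChartedSpace (EuclideanHalfSpace (d + 1)) Ω]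
  {S : Type*} [TopologicalSpace S] [ChartedSpace (Eu d) S]

theorem solves_std (g : Metric (𝓡∂ (d + 1)) Ω) {k : ℕ} (w : Ω → Alt (Eu (d + 1)) (k + 1)) :
    Karp.Solves (Karp.stdB (d + 1)) g w ↔ Solves g w := by
  unfold Karp.Solves Solves
  simp only [isCodiff_std]

theorem isUnitNormal_std (g : Metric (𝓡∂ (d + 1)) Ω) (f : S → Ω) (ν : S → Eu (d + 1)) :
    Karp.IsUnitNormal (Karp.stdB (d + 1)) (𝓡 d) g f ν ↔ IsUnitNormal g f ν := by
  unfold Karp.IsUnitNormal IsUnitNormal
  simp only [stdB_repr]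

theorem isDtN_std (g : Metric (𝓡∂ (d + 1)) Ω) (f : S → Ω) (ν : S → Eu (d + 1)) {k : ℕ}
    (T : (S → Alt (Eu d) (k + 1)) → (S → Alt (Eu d) (k + 1))) :
    Karp.IsDtN (Karp.stdB (d + 1)) (𝓡 d) g f ν T ↔ IsDtN g f ν T := by
  unfold Karp.IsDtN IsDtN
  simp only [solves_std]

theorem isPsiDO_std {q : ℕ} (T : (S → Alt (Eu d) q) → (S → Alt (Eu d) q)) :
    Karp.IsPsiDO T ↔ IsPsiDO T := Iff.rfl

end

end DtN
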