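import Pool.Agent.H14.DtN.Basic
import Pool.Agent.H14.DtN.AltComp

/-!
MODULE A1 : chart changes; the model space as a manifold.
-/

open scoped Manifold ContDiff Topology ComplexConjugate
open Set MeasureTheory

set_option linter.unusedSectionVars false

noncomputable section

namespace DtN

section Mfd

variable {E : Type*} [NormedAddCommGroup E] [NormedSpace ℝ E]
  {H : Type*} [TopologicalSpace H] (I : ModelWithCorners ℝ E H)
  {M : Type*} [TopologicalSpace M] [ChartedSpace H M]

section A1
variable [IsManifold I ∞ M]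

/-! ### A1: chart changes -/

theorem dchart_comp_dsymm {x₀ : M} {y : E} (hy : y ∈ (extChartAt I x₀).target) :
    (dchart I x₀ ((extChartAt I x₀).symm y)).comp (dsymm I x₀ y) = ContinuousLinearMap.id ℝ E := by
  exact mfderiv_extChartAt_comp_mfderivWithin_extChartAt_symm (I := I) hy

theorem dsymm_comp_dchart {x₀ : M} {y : E} (hy : y ∈ (extChartAt I x₀).target) :
    (dsymm I x₀ y).comp (dchart I x₀ ((extChartAt I x₀).symm y)) = ContinuousLinearMap.id ℝ E := by
  exact mfderivWithin_extChartAt_symm_comp_mfderiv_extChartAt (I := I) hy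

theorem dsymm_self (z : M) : dsymm I z (extChartAt I z z) = ContinuousLinearMap.id ℝ E := by
  exact mfderivWithin_range_extChartAt_symm (I := I) (x := z)

theorem dchart_self (z : M) : dchart I z z = ContinuousLinearMap.id ℝ E := by
  exact mfderiv_extChartAt_self (I := I) (x := z)

theorem rep_self {q : ℕ} (w : M → Alt E q) (z : M) : rep I z w (extChartAt I z z) = w z := by
  unfold rep
  rw [extChartAt_to_inv, dsymm_self]
  ext v
  rfl

theorem repV_self (V : M → E) (z : M) : repV I z V (extChartAt I z z) = V z := by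
  unfold repV
  rw [extChartAt_to_inv, dchart_self]
  rfl

/-- the coordinate change `θ = ext_{x₀} ∘ ext_{x₁}⁻¹` -/
def theta (x₀ x₁ : M) : E → E := extChartAt I x₀ ∘ (extChartAt I x₁).symm

theorem theta_contDiffWithinAt {x₀ x₁ : M} {y : E} (hy : y ∈ (extChartAt I x₁).target)
    (hz : (extChartAt I x₁).symm y ∈ (extChartAt I x₀).source) :
    ContDiffWithinAt ℝ ∞ (theta I x₀ x₁) (range I) y := by
  have h := contDiffWithinAt_ext_coord_change (I := I) (n := ∞) x₀ x₁ (y := y) (by
    rw [PartialEquiv.trans_source]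
    exact ⟨hy, hz⟩)
  exact h

theorem theta_mapsTo (x₀ x₁ : M) (s : Set E) : MapsTo (theta I x₀ x₁) s (range I) := by
  intro y _
  exact mem_range_self _

theorem fderivWithin_theta {x₀ x₁ : M} {y : E} (hy : y ∈ (extChartAt I x₁).target)
    (hz : (extChartAt I x₁).symm y ∈ (extChartAt I x₀).source) :
    fderivWithin ℝ (theta I x₀ x₁) (range I) y =
      (dchart I x₀ ((extChartAt I x₁).symm y)).comp (dsymm I x₁ y) := by
  have h1 := (mdifferentiableWithinAt_extChartAt_symm (I := I) hy).hasMFDerivWithinAt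
  have h2 := (mdifferentiableAt_extChartAt (I := I) (x := x₀)
    (y := (extChartAt I x₁).symm y) (by rwa [extChartAt_source] at hz)).hasMFDerivAt
  have h3 : HasFDerivWithinAt (theta I x₀ x₁)
      ((dchart I x₀ ((extChartAt I x₁).symm y)).comp (dsymm I x₁ y)) (range I) y :=
    (h2.comp_hasMFDerivWithinAt y h1).hasFDerivWithinAt
  exact h3.fderivWithin (I.uniqueDiffOn y (extChartAt_target_subset_range x₁ hy))

/-- `d(ext_{x₁}⁻¹) = d(ext_{x₀}⁻¹) ∘ dθ`. -/
theorem dsymm_change {x₀ x₁ : M} {y : E} (hy : y ∈ (extChartAt I x₁).target)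
    (hz : (extChartAt I x₁).symm y ∈ (extChartAt I x₀).source) :
    dsymm I x₁ y = (dsymm I x₀ (theta I x₀ x₁ y)).comp
      (fderivWithin ℝ (theta I x₀ x₁) (range I) y) := by
  rw [fderivWithin_theta I hy hz]
  have h1 := dsymm_comp_dchart I ((extChartAt I x₀).map_source hz)
  rw [(extChartAt I x₀).left_inv hz] at h1
  have h2 : theta I x₀ x₁ y = extChartAt I x₀ ((extChartAt I x₁).symm y) := rfl
  rw [h2, ← ContinuousLinearMap.comp_assoc, h1, ContinuousLinearMap.id_comp]

theorem rep_change {q : ℕ} (w : M → Alt E q) {x₀ x₁ : M} {y : E}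
    (hy : y ∈ (extChartAt I x₁).target)
    (hz : (extChartAt I x₁).symm y ∈ (extChartAt I x₀).source) :
    rep I x₁ w y = (rep I x₀ w (theta I x₀ x₁ y)).compContinuousLinearMap
      (fderivWithin ℝ (theta I x₀ x₁) (range I) y) := by
  have h1 : (extChartAt I x₀).symm (theta I x₀ x₁ y) = (extChartAt I x₁).symm y :=
    (extChartAt I x₀).left_inv hz
  unfold rep
  rw [h1, dsymm_change I hy hz]
  ext v
  rfl

theorem repV_change (V : M → E) {x₀ x₁ : M} {y : E}
    (hy : y ∈ (extChartAt I x₁).target)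
    (hz : (extChartAt I x₁).symm y ∈ (extChartAt I x₀).source) :
    repV I x₀ V (theta I x₀ x₁ y) = fderivWithin ℝ (theta I x₀ x₁) (range I) y (repV I x₁ V y) := by
  have h1 : (extChartAt I x₀).symm (theta I x₀ x₁ y) = (extChartAt I x₁).symm y :=
    (extChartAt I x₀).left_inv hz
  unfold repV
  rw [h1, fderivWithin_theta I hy hz]
  have h2 := DFunLike.congr_fun (dsymm_comp_dchart I hy) (V ((extChartAt I x₁).symm y))
  change dchart I x₀ ((extChartAt I x₁).symm y) (V ((extChartAt I x₁).symm y)) =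
    dchart I x₀ ((extChartAt I x₁).symm y) (dsymm I x₁ y
      (dchart I x₁ ((extChartAt I x₁).symm y) (V ((extChartAt I x₁).symm y))))
  exact congrArg _ h2.symm

/-- The coordinate change is defined near a point of the overlap. -/
theorem eventually_overlap {x₀ x₁ : M} {y : E} (hy : y ∈ (extChartAt I x₁).target)
    (hz : (extChartAt I x₁).symm y ∈ (extChartAt I x₀).source) :
    ∀ᶠ y' in 𝓝[range I] y, y' ∈ (extChartAt I x₁).target ∧
      (extChartAt I x₁).symm y' ∈ (extChartAt I x₀).source := by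
  have h1 : ContinuousWithinAt (extChartAt I x₁).symm (range I) y :=
    (continuousOn_extChartAt_symm (I := I) x₁ y hy).mono_of_mem_nhdsWithin
      (extChartAt_target_mem_nhdsWithin_of_mem hy)
  have h2 : ∀ᶠ y' in 𝓝[range I] y, (extChartAt I x₁).symm y' ∈ (extChartAt I x₀).source :=
    h1.eventually ((isOpen_extChartAt_source (I := I) x₀).mem_nhds hz)
  filter_upwards [extChartAt_target_mem_nhdsWithin_of_mem hy, h2] with y' h3 h4
  exact ⟨h3, h4⟩

/-- Smoothness of a form may be checked near each point in one chart. -/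
theorem smoothForm_of_local [FiniteDimensional ℝ E] {q : ℕ} {w : M → Alt E q}
    (h : ∀ z : M, ∃ x₀ : M, z ∈ (extChartAt I x₀).source ∧
      ContDiffWithinAt ℝ ∞ (rep I x₀ w) (range I) (extChartAt I x₀ z)) : SmoothForm I w := by
  intro x₁ y hy
  obtain ⟨x₀, hz, hw⟩ := h ((extChartAt I x₁).symm y)
  have hyr : y ∈ range I := extChartAt_target_subset_range x₁ hy
  have hθ := theta_contDiffWithinAt I hy hz
  have h1 : ContDiffWithinAt ℝ ∞ (fun y' => rep I x₀ w (theta I x₀ x₁ y')) (range I) y :=
    ContDiffWithinAt.comp (g := rep I x₀ w) y hw hθ (theta_mapsTo I x₀ x₁ _)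
  have h2 : ContDiffWithinAt ℝ ∞ (fderivWithin ℝ (theta I x₀ x₁) (range I)) (range I) y :=
    hθ.fderivWithin_right I.uniqueDiffOn (by simp) hyr
  have h3 := AC.contDiffWithinAt_comp h1 h2
  have h4 : rep I x₁ w =ᶠ[𝓝[range I] y] fun y' => (rep I x₀ w (theta I x₀ x₁ y')
      ).compContinuousLinearMap (fderivWithin ℝ (theta I x₀ x₁) (range I) y') := by
    filter_upwards [eventually_overlap I hy hz] with y' hy'
    exact rep_change I w hy'.1 hy'.2
  exact (h3.congr_of_eventuallyEq h4 (h4.self_of_nhdsWithin hyr)).mono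
    (extChartAt_target_subset_range x₁)

theorem smoothVF_of_local [FiniteDimensional ℝ E] {V : M → E}
    (h : ∀ z : M, ∃ x₀ : M, z ∈ (extChartAt I x₀).source ∧
      ContDiffWithinAt ℝ ∞ (repV I x₀ V) (range I) (extChartAt I x₀ z)) : SmoothVF I V := by
  intro x₁ y hy
  obtain ⟨x₀, hz, hw⟩ := h ((extChartAt I x₁).symm y)
  have hyr : y ∈ range I := extChartAt_target_subset_range x₁ hy
  have hθ := theta_contDiffWithinAt I hy hz
  have h1 : ContDiffWithinAt ℝ ∞ (fun y' => repV I x₀ V (theta I x₀ x₁ y')) (range I) y :=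
    ContDiffWithinAt.comp (g := repV I x₀ V) y hw hθ (theta_mapsTo I x₀ x₁ _)
  have hθy : theta I x₀ x₁ y ∈ (extChartAt I x₀).target := (extChartAt I x₀).map_source hz
  have hback : (extChartAt I x₀).symm (theta I x₀ x₁ y) ∈ (extChartAt I x₁).source := by
    have : (extChartAt I x₀).symm (theta I x₀ x₁ y) = (extChartAt I x₁).symm y :=
      (extChartAt I x₀).left_inv hz
    rw [this]
    exact (extChartAt I x₁).map_target hy
  have h2 : ContDiffWithinAt ℝ ∞ (fderivWithin ℝ (theta I x₁ x₀) (range I)) (range I)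
      (theta I x₀ x₁ y) :=
    (theta_contDiffWithinAt I hθy hback).fderivWithin_right I.uniqueDiffOn (by simp)
      (theta_mapsTo I x₀ x₁ univ (mem_univ y))
  have h3 : ContDiffWithinAt ℝ ∞ (fun y' => fderivWithin ℝ (theta I x₁ x₀) (range I)
      (theta I x₀ x₁ y')) (range I) y :=
    ContDiffWithinAt.comp (g := fderivWithin ℝ (theta I x₁ x₀) (range I)) y h2 hθ
      (theta_mapsTo I x₀ x₁ _)
  have h4 := h3.clm_apply h1
  have h5 : repV I x₁ V =ᶠ[𝓝[range I] y] fun y' => fderivWithin ℝ (theta I x₁ x₀) (range I)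
      (theta I x₀ x₁ y') (repV I x₀ V (theta I x₀ x₁ y')) := by
    filter_upwards [eventually_overlap I hy hz] with y' hy'
    have e1 : (extChartAt I x₀).symm (theta I x₀ x₁ y') = (extChartAt I x₁).symm y' :=
      (extChartAt I x₀).left_inv hy'.2
    have e2 : theta I x₁ x₀ (theta I x₀ x₁ y') = y' := by
      change extChartAt I x₁ ((extChartAt I x₀).symm (theta I x₀ x₁ y')) = y'
      rw [e1, (extChartAt I x₁).right_inv hy'.1]
    have e3 := repV_change I V (x₀ := x₁) (x₁ := x₀) (y := theta I x₀ x₁ y')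
      ((extChartAt I x₀).map_source hy'.2) (by
        rw [e1]
        exact (extChartAt I x₁).map_target hy'.1)
    rw [e2] at e3
    exact e3
  exact (h4.congr_of_eventuallyEq h5 (h5.self_of_nhdsWithin hyr)).mono
    (extChartAt_target_subset_range x₁)

/-- Smoothness of a function in charts. -/
theorem contMDiff_iff_rep {F : Type*} [NormedAddCommGroup F] [NormedSpace ℝ F] {b : M → F} :
    ContMDiff I 𝓘(ℝ, F) ∞ b ↔
      ∀ x₀ : M, ContDiffOn ℝ ∞ (b ∘ (extChartAt I x₀).symm) (extChartAt I x₀).target := by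
  constructor
  · intro hb x₀
    exact contDiffOn_symm hb x₀
  · intro h z
    rw [contMDiffAt_iff_source, contMDiffWithinAt_iff_contDiffWithinAt]
    exact (h z _ (mem_extChartAt_target z)).mono_of_mem_nhdsWithin
      (extChartAt_target_mem_nhdsWithin z)

end A1

end Mfd

/-! ### A6: the model space as a manifold -/

section Model

variable {E : Type*} [NormedAddCommGroup E] [NormedSpace ℝ E]

theorem rep_model {q : ℕ} (x₀ : E) (w : E → Alt E q) : rep 𝓘(ℝ, E) x₀ w = w := by
  funext y
  have h1 : dsymm 𝓘(ℝ, E) x₀ y = ContinuousLinearMap.id ℝ E := by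
    unfold dsymm
    have h2 : ((extChartAt 𝓘(ℝ, E) x₀).symm : E → E) = id := by
      simp
    rw [h2]
    exact mfderivWithin_id (I := 𝓘(ℝ, E)) (by
      apply uniqueMDiffWithinAt_iff_uniqueDiffWithinAt.2
      exact 𝓘(ℝ, E).uniqueDiffOn y (by simp))
  unfold rep
  rw [h1]
  have h2 : (extChartAt 𝓘(ℝ, E) x₀).symm y = y := by simp
  rw [h2]
  ext v
  rfl

theorem extD_model {q : ℕ} (w : E → Alt E q) : extD 𝓘(ℝ, E) w = extDeriv w := by
  funext z
  unfold extD
  rw [rep_model]
  have h1 : range (𝓘(ℝ, E) : E → E) = univ := by simp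
  have h2 : extChartAt 𝓘(ℝ, E) z z = z := by simp
  rw [h1, h2, extDerivWithin_univ]

end Model

end DtN
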