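import Pool.Agent.H14.DtN.Defs

/-!
Local calculus of exterior derivatives and contractions: the local Cartan formula.
-/

open scoped Manifold ContDiff Topology ComplexConjugate
open Set MeasureTheory
set_option linter.unusedSectionVars false
noncomputable section
namespace DtN.LC
variable {E : Type*} [NormedAddCommGroup E] [NormedSpace ℝ E] {q : ℕ}

theorem map_update_eq (u : Alt E (q + 1)) (v : Fin (q + 1) → E) (l : Fin (q + 1)) (x : E) :
    u (Function.update v l x) = (-1) ^ (l : ℕ) • u (Matrix.vecCons x (l.removeNth v)) := by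
  rw [← u.map_insertNth]
  congr 1
  rw [← Fin.insertNth_removeNth]

theorem curryLeft_alt_apply (f : E →L[ℝ] Alt E (q + 1)) (X : E) (v : Fin (q + 1) → E) :
    (ContinuousAlternatingMap.alternatizeUncurryFin f).curryLeft X v =
      f X v - ∑ l : Fin (q + 1), (-1) ^ (l : ℕ) • f (v l) (Matrix.vecCons X (l.removeNth v)) := by
  rw [ContinuousAlternatingMap.curryLeft_apply_apply,
    ContinuousAlternatingMap.alternatizeUncurryFin_apply, Fin.sum_univ_succ]
  have h1 : (-1 : ℤ) ^ ((0 : Fin (q + 2)) : ℕ) • (f (Matrix.vecCons X v 0))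
      ((0 : Fin (q + 2)).removeNth (Matrix.vecCons X v)) = f X v := by
    have h : (0 : Fin (q + 2)).removeNth (Matrix.vecCons X v) = v := by
      ext j; rfl
    rw [h]
    simp
  rw [h1, sub_eq_add_neg, ← Finset.sum_neg_distrib]
  congr 1
  refine Finset.sum_congr rfl fun l _ => ?_
  have h2 : (Fin.succ l).removeNth (Matrix.vecCons X v) = Matrix.vecCons X (l.removeNth v) := by
    funext j
    refine Fin.cases ?_ (fun j => ?_) j
    · simp [Fin.removeNth]
    · simp [Fin.removeNth, Matrix.vecCons]
  rw [h2]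
  simp [pow_succ]

/-- `curryLeft` as a continuous linear map -/
def cL : Alt E (q + 1) →L[ℝ] (E →L[ℝ] Alt E q) :=
  (ContinuousAlternatingMap.curryLeftLI (𝕜 := ℝ) (E := E) (F := ℂ) (n := q)).toContinuousLinearMap

theorem cL_apply (u : Alt E (q + 1)) : cL u = u.curryLeft := rfl

theorem fderivWithin_curry {s : Set E} {y : E} (hs : UniqueDiffWithinAt ℝ s y)
    {u : E → Alt E (q + 1)} {V : E → E} (hu : DifferentiableWithinAt ℝ u s y)
    (hV : DifferentiableWithinAt ℝ V s y) (x : E) :
    fderivWithin ℝ (fun y => (u y).curryLeft (V y)) s y x =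
      (fderivWithin ℝ u s y x).curryLeft (V y) + (u y).curryLeft (fderivWithin ℝ V s y x) := by
  have h := (cL (E := E) (q := q)).hasFDerivWithinAt_of_bilinear hu.hasFDerivWithinAt
    hV.hasFDerivWithinAt
  have h1 : fderivWithin ℝ (fun y => (u y).curryLeft (V y)) s y = _ := h.fderivWithin hs
  rw [h1]
  exact add_comm (G := Alt E q) _ _

theorem cartan {s : Set E} {y : E} (hs : UniqueDiffWithinAt ℝ s y) {u : E → Alt E (q + 1)}
    {V : E → E} (hu : DifferentiableWithinAt ℝ u s y) (hV : DifferentiableWithinAt ℝ V s y)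
    (v : Fin (q + 1) → E) :
    extDerivWithin (fun y => (u y).curryLeft (V y)) s y v +
      (extDerivWithin u s y).curryLeft (V y) v = fderivWithin ℝ u s y (V y) v +
      ∑ l, u y (Function.update v l (fderivWithin ℝ V s y (v l))) := by
  rw [extDerivWithin, extDerivWithin, curryLeft_alt_apply,
    ContinuousAlternatingMap.alternatizeUncurryFin_apply]
  have h5 : ∀ l : Fin (q + 1), (-1 : ℤ) ^ (l : ℕ) •
      (fderivWithin ℝ (fun y => (u y).curryLeft (V y)) s y (v l)) (l.removeNth v) =
      u y (Function.update v l (fderivWithin ℝ V s y (v l))) +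
        (-1 : ℤ) ^ (l : ℕ) • fderivWithin ℝ u s y (v l) (Matrix.vecCons (V y) (l.removeNth v)) := by
    intro l
    rw [map_update_eq, ← smul_add, fderivWithin_curry hs hu hV]
    congr 1
    exact add_comm _ _
  rw [Finset.sum_congr rfl fun l _ => h5 l, Finset.sum_add_distrib]
  ring

theorem extDerivWithin_bsmul {s : Set E} {y : E} (hs : UniqueDiffWithinAt ℝ s y) {b : E → ℂ}
    {u : E → Alt E q} (hb : DifferentiableWithinAt ℝ b s y) (hu : DifferentiableWithinAt ℝ u s y) :
    extDerivWithin (fun y => b y • u y) s y =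
      ContinuousAlternatingMap.alternatizeUncurryFin ((fderivWithin ℝ b s y).smulRight (u y)) +
      b y • extDerivWithin u s y := by
  unfold extDerivWithin
  rw [fderivWithin_fun_smul hs hb hu, ContinuousAlternatingMap.alternatizeUncurryFin_add,
    ContinuousAlternatingMap.alternatizeUncurryFin_smul]
  exact add_comm (G := Alt E (q + 1)) _ _

end DtN.LC
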