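import Pool.Agent.H14.DtN.CalcA1
import Pool.Agent.H14.DtN.CalcLoc

/-!
MODULE A2 : exterior derivative, derivations, contraction, Lie derivative.
-/

open scoped Manifold ContDiff Topology ComplexConjugate
open Set MeasureTheory

set_option linter.unusedSectionVars false

noncomputable section

namespace DtN

section Mfd

variable {E : Type*} [NormedAddCommGroup E] [NormedSpace ℝ E]
  {H : Type*} [TopologicalSpace H] (I : ModelWithCorners ℝ E H)
  {M : Type*} [TopologicalSpace M] [ChartedSpace H M]

section A3
variable {I} [IsManifold I ∞ M] [FiniteDimensional ℝ E]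

/-! ### preparations -/

namespace A2

theorem symm_ext (z : M) : (extChartAt I z).symm (extChartAt I z z) = z := extChartAt_to_inv z

theorem theta_mem_range (x₀ x₁ : M) (y : E) : theta I x₀ x₁ y ∈ range I := mem_range_self _

theorem target_nhds {x₀ : M} {y : E} (hy : y ∈ (extChartAt I x₀).target) :
    (extChartAt I x₀).target ∈ 𝓝[range I] y := extChartAt_target_mem_nhdsWithin_of_mem hy

theorem mem_range_of_target {x₀ : M} {y : E} (hy : y ∈ (extChartAt I x₀).target) :
    y ∈ range I := extChartAt_target_subset_range x₀ hy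

/-- smoothness within `range I` from smoothness on the target -/
theorem contDiffWithinAt_range {F : Type*} [NormedAddCommGroup F] [NormedSpace ℝ F] {f : E → F}
    {n : WithTop ℕ∞} {x₀ : M} (hf : ContDiffOn ℝ n f (extChartAt I x₀).target) {y : E}
    (hy : y ∈ (extChartAt I x₀).target) : ContDiffWithinAt ℝ n f (range I) y :=
  (hf y hy).mono_of_mem_nhdsWithin (target_nhds hy)

theorem diffWithinAt_range {F : Type*} [NormedAddCommGroup F] [NormedSpace ℝ F] {f : E → F}
    {x₀ : M} (hf : ContDiffOn ℝ ∞ f (extChartAt I x₀).target) {y : E}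
    (hy : y ∈ (extChartAt I x₀).target) : DifferentiableWithinAt ℝ f (range I) y :=
  (contDiffWithinAt_range hf hy).differentiableWithinAt (by simp)

theorem uniqueDiff_range {y : E} (hy : y ∈ range I) : UniqueDiffWithinAt ℝ (range I) y :=
  I.uniqueDiffOn y hy

/-- derivatives within `range I` are smooth on the target -/
theorem contDiffOn_fderivWithin_range {F : Type*} [NormedAddCommGroup F] [NormedSpace ℝ F]
    {f : E → F} {x₀ : M} (hf : ContDiffOn ℝ ∞ f (extChartAt I x₀).target) :
    ContDiffOn ℝ ∞ (fderivWithin ℝ f (range I)) (extChartAt I x₀).target := by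
  have h := hf.fderivWithin (m := ∞) (uniqueDiffOn_extChartAt_target x₀) (by simp)
  refine h.congr fun y hy => ?_
  exact (fderivWithin_congr_set (extChartAt_target_eventuallyEq_of_mem hy)).symm

theorem contDiffOn_extDerivWithin_range {q : ℕ} {f : E → Alt E q} {x₀ : M}
    (hf : ContDiffOn ℝ ∞ f (extChartAt I x₀).target) :
    ContDiffOn ℝ ∞ (extDerivWithin f (range I)) (extChartAt I x₀).target := by
  have h1 : ContDiffOn ℝ ∞ (fderivWithin ℝ f (range I)) (extChartAt I x₀).target :=
    contDiffOn_fderivWithin_range hf
  have h2 : ContDiff ℝ ∞ (fun f : E →L[ℝ] Alt E q =>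
      (ContinuousAlternatingMap.alternatizeUncurryFinCLM ℝ E ℂ f : Alt E (q + 1))) :=
    ContinuousLinearMap.contDiff (E := E →L[ℝ] Alt E q) _
  exact h2.comp_contDiffOn h1

theorem two_le : minSmoothness ℝ 2 ≤ (∞ : WithTop ℕ∞) := by
  rw [minSmoothness_of_isRCLikeNormedField]
  exact WithTop.coe_le_coe.mpr (le_top : (2 : ℕ∞) ≤ ⊤)

end A2

open A2

/-! ### A2: d, derivations, contraction, Lie derivative -/

/-- Exterior derivative in charts. -/
theorem rep_extD {q : ℕ} (w : SForm I M q) {x₀ : M} {y : E} (hy : y ∈ (extChartAt I x₀).target) :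
    rep I x₀ (extD I w.val) y = extDerivWithin (rep I x₀ w.val) (range I) y := by
  obtain ⟨z, hz⟩ : ∃ z, z = (extChartAt I x₀).symm y := ⟨_, rfl⟩
  have hzs : (extChartAt I x₀).symm y ∈ (extChartAt I z).source := by
    rw [← hz]; exact mem_extChartAt_source z
  have hth : theta I z x₀ y = extChartAt I z z := by
    unfold theta
    rw [Function.comp_apply, ← hz]
  have hds : dsymm I x₀ y = fderivWithin ℝ (theta I z x₀) (range I) y := by
    rw [dsymm_change I hy hzs, hth, dsymm_self, ContinuousLinearMap.id_comp]
  have hyr := mem_range_of_target hy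
  have h1 : rep I x₀ w.val =ᶠ[𝓝[range I] y] fun y' => (rep I z w.val (theta I z x₀ y')).compContinuousLinearMap
      (fderivWithin ℝ (theta I z x₀) (range I) y') := by
    have h2 : (extChartAt I x₀).symm ⁻¹' (extChartAt I z).source ∈ 𝓝 y :=
      (continuousAt_extChartAt_symm'' hy).preimage_mem_nhds
        ((isOpen_extChartAt_source z).mem_nhds hzs)
    filter_upwards [target_nhds hy, nhdsWithin_le_nhds h2] with y' h3 h4
    exact rep_change I w.val h3 h4
  rw [h1.extDerivWithin_eq_of_mem hyr]
  have hω : DifferentiableWithinAt ℝ (rep I z w.val) (range I) (theta I z x₀ y) := by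
    rw [hth]
    exact diffWithinAt_range (w.smooth z) (mem_extChartAt_target z)
  rw [extDerivWithin_pullback hω (theta_contDiffWithinAt I hy hzs) two_le
    I.uniqueDiffOn (I.range_subset_closure_interior hyr) hyr (fun y' _ => theta_mem_range z x₀ y'),
    hth, ← hds]
  have h5 : extD I w.val ((extChartAt I x₀).symm y) =
      extDerivWithin (rep I z w.val) (range I) (extChartAt I z z) := by
    rw [← hz]; rfl
  unfold rep at h5 ⊢
  rw [h5]

/-- The exterior derivative. -/
def dS {q : ℕ} : SForm I M q →ₗ[ℂ] SForm I M (q + 1) where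
  toFun w := ⟨extD I w.val, fun x₀ =>
    (contDiffOn_extDerivWithin_range (w.smooth x₀)).congr fun _ hy => rep_extD w hy⟩
  map_add' v w := by
    apply SForm.val_injective
    funext z
    show extD I (v.val + w.val) z = extD I v.val z + extD I w.val z
    unfold extD
    rw [rep_add]
    exact extDerivWithin_add (uniqueDiff_range (mem_range_of_target (mem_extChartAt_target z)))
      (diffWithinAt_range (v.smooth z) (mem_extChartAt_target z))
      (diffWithinAt_range (w.smooth z) (mem_extChartAt_target z))
  map_smul' c w := by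
    apply SForm.val_injective
    funext z
    show extD I (c • w.val) z = c • extD I w.val z
    unfold extD
    have h1 : rep I z (c • w.val) = fun y => c • rep I z w.val y := by
      funext y; ext v; rfl
    rw [h1, LC.extDerivWithin_bsmul (uniqueDiff_range (mem_range_of_target (mem_extChartAt_target z)))
      (differentiableWithinAt_const c) (diffWithinAt_range (w.smooth z) (mem_extChartAt_target z)),
      fderivWithin_const_apply]
    have h2 : (0 : E →L[ℝ] ℂ).smulRight (rep I z w.val (extChartAt I z z)) = 0 := by
      ext v; simp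
    rw [h2]
    have h3 : ContinuousAlternatingMap.alternatizeUncurryFin (0 : E →L[ℝ] Alt E q) = 0 :=
      map_zero (ContinuousAlternatingMap.alternatizeUncurryFinCLM ℝ E ℂ)
    rw [h3]
    exact zero_add (M := Alt E (q + 1)) _

theorem dS_val {q : ℕ} (w : SForm I M q) : (dS w).val = extD I w.val := rfl

theorem dS_dS {q : ℕ} (w : SForm I M q) : dS (dS w) = 0 := by
  apply SForm.val_injective
  funext z
  show extD I (extD I w.val) z = 0
  have hz := mem_extChartAt_target (I := I) z
  unfold extD
  have h1 : rep I z (fun z => extDerivWithin (rep I z w.val) (range I) (extChartAt I z z))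
      =ᶠ[𝓝[range I] (extChartAt I z z)] extDerivWithin (rep I z w.val) (range I) := by
    filter_upwards [target_nhds hz] with y hy using rep_extD w hy
  rw [h1.extDerivWithin_eq_of_mem (mem_range_of_target hz)]
  exact extDerivWithin_extDerivWithin_apply (contDiffWithinAt_range (w.smooth z) hz)
    two_le I.uniqueDiffOn
    (I.range_subset_closure_interior (mem_range_of_target hz)) (mem_range_of_target hz)

/-- The differential in charts. -/
theorem dF_rep (b : SFun I M) {x₀ : M} {y : E} (hy : y ∈ (extChartAt I x₀).target) (v : E) :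
    b.dF ((extChartAt I x₀).symm y) (dsymm I x₀ y v) =
      fderivWithin ℝ (b.val ∘ (extChartAt I x₀).symm) (range I) y v := by
  have hyr := mem_range_of_target hy
  have h1 : MDifferentiableAt I 𝓘(ℝ, ℂ) b.val ((extChartAt I x₀).symm y) :=
    b.smooth.mdifferentiable (by simp) _
  have h2 := mdifferentiableWithinAt_extChartAt_symm hy
  have h3 := mfderiv_comp_mfderivWithin y h1 h2 (uniqueDiff_range hyr).uniqueMDiffWithinAt
  rw [mfderivWithin_eq_fderivWithin] at h3
  rw [h3]
  rfl

theorem dF_eq (b : SFun I M) (z : M) :
    b.dF z = fderivWithin ℝ (b.val ∘ (extChartAt I z).symm) (range I) (extChartAt I z z) := by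
  ext v
  have h := dF_rep b (mem_extChartAt_target z) v
  rw [dsymm_self, symm_ext] at h
  exact h

theorem derf_rep (V : VF I M) (b : SFun I M) {x₀ : M} {y : E}
    (hy : y ∈ (extChartAt I x₀).target) :
    b.dF ((extChartAt I x₀).symm y) (V.val ((extChartAt I x₀).symm y)) =
      fderivWithin ℝ (b.val ∘ (extChartAt I x₀).symm) (range I) y (repV I x₀ V.val y) := by
  rw [← dF_rep b hy]
  congr 1
  have h := dsymm_comp_dchart I hy
  have h2 := DFunLike.congr_fun h (V.val ((extChartAt I x₀).symm y))
  exact h2.symm

theorem SFun.contDiffOn_symm' (b : SFun I M) (x₀ : M) :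
    ContDiffOn ℝ ∞ (b.val ∘ (extChartAt I x₀).symm) (extChartAt I x₀).target :=
  contDiffOn_symm b.smooth x₀

theorem SFun.diffWithinAt (b : SFun I M) (z : M) :
    DifferentiableWithinAt ℝ (b.val ∘ (extChartAt I z).symm) (range I) (extChartAt I z z) :=
  diffWithinAt_range (b.contDiffOn_symm' z) (mem_extChartAt_target z)

/-- The derivation of smooth functions given by a vector field. -/
def der (V : VF I M) : SFun I M →ₗ[ℂ] SFun I M where
  toFun b := ⟨fun z => b.dF z (V.val z), by
    rw [contMDiff_iff_rep]
    intro x₀
    refine ((contDiffOn_fderivWithin_range (b.contDiffOn_symm' x₀)).clm_apply (V.smooth x₀)).congr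
      fun y hy => ?_
    exact derf_rep V b hy⟩
  map_add' b c := by
    ext z
    show (b + c).dF z (V.val z) = b.dF z (V.val z) + c.dF z (V.val z)
    rw [dF_eq, dF_eq, dF_eq]
    have h : fderivWithin ℝ (b.val ∘ (extChartAt I z).symm + c.val ∘ (extChartAt I z).symm)
        (range I) (extChartAt I z z) = _ := fderivWithin_add
      (uniqueDiff_range (mem_range_of_target (mem_extChartAt_target z)))
      (b.diffWithinAt z) (c.diffWithinAt z)
    exact DFunLike.congr_fun h (V.val z)
  map_smul' c b := by
    ext z
    show (c • b).dF z (V.val z) = c * b.dF z (V.val z)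
    rw [dF_eq, dF_eq]
    have h : fderivWithin ℝ (c • (b.val ∘ (extChartAt I z).symm))
        (range I) (extChartAt I z z) = _ := fderivWithin_const_smul
      (uniqueDiff_range (mem_range_of_target (mem_extChartAt_target z)))
      (b.diffWithinAt z) c
    exact DFunLike.congr_fun h (V.val z)

theorem der_apply (V : VF I M) (b : SFun I M) (z : M) :
    (der V b).val z = b.dF z (V.val z) := rfl

/-- The derivation in charts. -/
theorem der_rep (V : VF I M) (b : SFun I M) {x₀ : M} {y : E}
    (hy : y ∈ (extChartAt I x₀).target) :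
    (der V b).val ((extChartAt I x₀).symm y) =
      fderivWithin ℝ (b.val ∘ (extChartAt I x₀).symm) (range I) y (repV I x₀ V.val y) :=
  derf_rep V b hy

theorem der_mul (V : VF I M) (b c : SFun I M) :
    der V (b * c) = der V b * c + b * der V c := by
  ext z
  rw [SFun.add_apply, SFun.mul_apply, SFun.mul_apply, der_apply, der_apply, der_apply,
    dF_eq, dF_eq, dF_eq]
  have h : fderivWithin ℝ (fun y => (b.val ∘ (extChartAt I z).symm) y *
      (c.val ∘ (extChartAt I z).symm) y) (range I) (extChartAt I z z) = _ := fderivWithin_fun_mul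
    (uniqueDiff_range (mem_range_of_target (mem_extChartAt_target z)))
    (b.diffWithinAt z) (c.diffWithinAt z)
  have h2 := DFunLike.congr_fun h (V.val z)
  refine h2.trans ?_
  simp only [add_apply, smul_apply, Function.comp_apply, symm_ext, smul_eq_mul]
  ring

theorem fderivWithin_der (V X : VF I M) (b : SFun I M) (z : M) :
    (der V (der X b)).val z = fderivWithin ℝ (fderivWithin ℝ (b.val ∘ (extChartAt I z).symm)
      (range I)) (range I) (extChartAt I z z) (V.val z) (X.val z) +
      b.dF z (fderivWithin ℝ (repV I z X.val) (range I) (extChartAt I z z) (V.val z)) := by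
  have hz := mem_extChartAt_target (I := I) z
  have hu := uniqueDiff_range (mem_range_of_target hz)
  rw [der_apply, dF_eq (der X b)]
  have h1 : (der X b).val ∘ (extChartAt I z).symm =ᶠ[𝓝[range I] (extChartAt I z z)] fun y =>
      fderivWithin ℝ (b.val ∘ (extChartAt I z).symm) (range I) y (repV I z X.val y) := by
    filter_upwards [target_nhds hz] with y hy using der_rep X b hy
  rw [h1.fderivWithin_eq (h1.self_of_nhdsWithin (mem_range_of_target hz))]
  have h2 : DifferentiableWithinAt ℝ (fderivWithin ℝ (b.val ∘ (extChartAt I z).symm) (range I))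
      (range I) (extChartAt I z z) :=
    diffWithinAt_range (contDiffOn_fderivWithin_range (b.contDiffOn_symm' z)) hz
  have h3 : DifferentiableWithinAt ℝ (repV I z X.val) (range I) (extChartAt I z z) :=
    diffWithinAt_range (X.smooth z) hz
  rw [fderivWithin_clm_apply hu h2 h3]
  rw [add_apply, ContinuousLinearMap.comp_apply, ContinuousLinearMap.flip_apply, repV_self,
    dF_eq, add_comm]

/-- The commutator of two vector fields is, pointwise, given by a tangent vector. -/
theorem der_comm (V X : VF I M) (z : M) : ∃ Z : E, ∀ b : SFun I M,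
    (der V (der X b)).val z - (der X (der V b)).val z = b.dF z Z := by
  have hz := mem_extChartAt_target (I := I) z
  refine ⟨fderivWithin ℝ (repV I z X.val) (range I) (extChartAt I z z) (V.val z) -
    fderivWithin ℝ (repV I z V.val) (range I) (extChartAt I z z) (X.val z), fun b => ?_⟩
  rw [fderivWithin_der, fderivWithin_der, map_sub]
  have h : IsSymmSndFDerivWithinAt ℝ (b.val ∘ (extChartAt I z).symm) (range I)
      (extChartAt I z z) :=
    (contDiffWithinAt_range (b.contDiffOn_symm' z) hz).isSymmSndFDerivWithinAt two_le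
      I.uniqueDiffOn (I.range_subset_closure_interior (mem_range_of_target hz))
      (mem_range_of_target hz)
  rw [h.eq]
  ring

/-! ### contraction -/

theorem rep_curry (V : VF I M) {q : ℕ} (w : M → Alt E (q + 1)) {x₀ : M} {y : E}
    (hy : y ∈ (extChartAt I x₀).target) :
    rep I x₀ (fun z => (w z).curryLeft (V.val z)) y =
      (rep I x₀ w y).curryLeft (repV I x₀ V.val y) := by
  ext v
  unfold rep
  rw [ContinuousAlternatingMap.compContinuousLinearMap_apply,
    ContinuousAlternatingMap.curryLeft_apply_apply, ContinuousAlternatingMap.curryLeft_apply_apply,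
    ContinuousAlternatingMap.compContinuousLinearMap_apply]
  congr 1
  funext j
  refine Fin.cases ?_ (fun j => ?_) j
  · exact (DFunLike.congr_fun (dsymm_comp_dchart I hy) (V.val ((extChartAt I x₀).symm y))).symm
  · rfl

/-- Contraction with a vector field. -/
def iotaS (V : VF I M) {q : ℕ} : SForm I M (q + 1) →ₗ[SFun I M] SForm I M q where
  toFun w := ⟨fun z => (w.val z).curryLeft (V.val z), fun x₀ => by
    have h0 : ContDiff ℝ ∞ (fun u : Alt E (q + 1) => (LC.cL u : E →L[ℝ] Alt E q)) :=
      ContinuousLinearMap.contDiff (F := E →L[ℝ] Alt E q) _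
    have h : ContDiffOn ℝ ∞ (fun y => LC.cL (rep I x₀ w.val y)) (extChartAt I x₀).target :=
      h0.comp_contDiffOn (w.smooth x₀)
    refine (h.clm_apply (V.smooth x₀)).congr fun y hy => ?_
    exact rep_curry V w.val hy⟩
  map_add' v w := by
    apply SForm.val_injective
    funext z
    ext m
    rfl
  map_smul' b w := by
    apply SForm.val_injective
    funext z
    ext m
    rfl

theorem iotaS_apply (V : VF I M) {q : ℕ} (w : SForm I M (q + 1)) (z : M) :
    (iotaS V w).val z = (w.val z).curryLeft (V.val z) := rfl

/-- Contraction in charts. -/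
theorem rep_iotaS (V : VF I M) {q : ℕ} (w : SForm I M (q + 1)) {x₀ : M} {y : E}
    (hy : y ∈ (extChartAt I x₀).target) :
    rep I x₀ (iotaS V w).val y = (rep I x₀ w.val y).curryLeft (repV I x₀ V.val y) :=
  rep_curry V w.val hy

theorem eS_formula (b : SFun I M) {q : ℕ} (w : SForm I M q) (z : M) :
    (dS (b • w) - b • dS w).val z = ContinuousAlternatingMap.alternatizeUncurryFin
      ((b.dF z).smulRight (w.val z)) := by
  have hz := mem_extChartAt_target (I := I) z
  rw [SForm.sub_apply, SForm.smul_apply, dS_val, dS_val]
  have h1 : extD I (b • w).val z = ContinuousAlternatingMap.alternatizeUncurryFin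
      ((b.dF z).smulRight (w.val z)) + b.val z • extD I w.val z := by
    unfold extD
    have h2 : rep I z (b • w).val = fun y => (b.val ∘ (extChartAt I z).symm) y •
        rep I z w.val y := by
      funext y
      exact rep_smul b.val w.val z y
    rw [h2, LC.extDerivWithin_bsmul (uniqueDiff_range (mem_range_of_target hz))
      (b.diffWithinAt z) (diffWithinAt_range (w.smooth z) hz), ← dF_eq, rep_self,
      Function.comp_apply, symm_ext]
  rw [h1]
  exact add_sub_cancel_right (G := Alt E (q + 1)) _ _

/-- `e_b = [d, b]`, i.e. the wedge product with `d b`, as a module homomorphism. -/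
def eS (b : SFun I M) {q : ℕ} : SForm I M q →ₗ[SFun I M] SForm I M (q + 1) where
  toFun w := dS (b • w) - b • dS w
  map_add' v w := by
    rw [smul_add, map_add, map_add, smul_add]; abel
  map_smul' c w := by
    apply SForm.val_injective
    funext z
    rw [eS_formula, RingHom.id_apply, SForm.smul_apply]
    show _ = c.val z • (dS (b • w) - b • dS w).val z
    rw [eS_formula, ← ContinuousAlternatingMap.alternatizeUncurryFin_smul]
    congr 1
    ext x m
    show b.dF z x * (c.val z * w.val z m) = c.val z * (b.dF z x * w.val z m)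
    ring

theorem eS_def (b : SFun I M) {q : ℕ} (w : SForm I M q) :
    eS b w = dS (b • w) - b • dS w := rfl

/-- Pointwise formula `e_b w = d b ∧ w`. -/
theorem eS_apply (b : SFun I M) {q : ℕ} (w : SForm I M q) (z : M) :
    (eS b w).val z = ContinuousAlternatingMap.alternatizeUncurryFin
      ((b.dF z).smulRight (w.val z)) := eS_formula b w z

theorem iotaS_eS (V : VF I M) (b : SFun I M) {q : ℕ} (w : SForm I M (q + 1)) :
    iotaS V (eS b w) + eS b (iotaS V w) = der V b • w := by
  apply SForm.val_injective
  funext z
  rw [SForm.add_apply, iotaS_apply, eS_apply, eS_apply, iotaS_apply, SForm.smul_apply]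
  ext v
  rw [ContinuousAlternatingMap.add_apply, LC.curryLeft_alt_apply,
    ContinuousAlternatingMap.alternatizeUncurryFin_apply]
  exact sub_add_cancel _ _

/-- Lie derivative of forms of positive degree (Cartan's formula). -/
def Lie (V : VF I M) {q : ℕ} : SForm I M (q + 1) →ₗ[ℂ] SForm I M (q + 1) :=
  dS ∘ₗ (iotaS V).restrictScalars ℂ + (iotaS V).restrictScalars ℂ ∘ₗ dS

theorem Lie_def (V : VF I M) {q : ℕ} (w : SForm I M (q + 1)) :
    Lie V w = dS (iotaS V w) + iotaS V (dS w) := rfl

theorem dS_smul (b : SFun I M) {q : ℕ} (w : SForm I M q) :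
    dS (b • w) = b • dS w + eS b w := by
  rw [eS_def]; abel

theorem Lie_smul (V : VF I M) {q : ℕ} (b : SFun I M) (w : SForm I M (q + 1)) :
    Lie V (b • w) = der V b • w + b • Lie V w := by
  rw [Lie_def, Lie_def, LinearMap.map_smul (iotaS V), dS_smul, dS_smul, map_add,
    LinearMap.map_smul (iotaS V), ← iotaS_eS, smul_add]
  abel

theorem Lie_dS (V : VF I M) {q : ℕ} (w : SForm I M (q + 1)) :
    Lie V (dS w) = dS (Lie V w) := by
  rw [Lie_def, Lie_def, dS_dS, map_zero, map_add, dS_dS, add_zero, zero_add]

/-- In a chart, the Lie derivative is the directional derivative of the coefficients plus a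
term of order zero. -/
theorem rep_Lie_apply (V : VF I M) {q : ℕ} (w : SForm I M (q + 1)) {x₀ : M} {y : E}
    (hy : y ∈ (extChartAt I x₀).target) (v : Fin (q + 1) → E) :
    rep I x₀ (Lie V w).val y v = fderivWithin ℝ (rep I x₀ w.val) (range I) y (repV I x₀ V.val y) v +
      ∑ l, rep I x₀ w.val y (Function.update v l
        (fderivWithin ℝ (repV I x₀ V.val) (range I) y (v l))) := by
  have hyr := mem_range_of_target hy
  have h1 : (Lie V w).val = (dS (iotaS V w)).val + (iotaS V (dS w)).val := rfl
  rw [h1, rep_add, Pi.add_apply, ContinuousAlternatingMap.add_apply, rep_iotaS V (dS w) hy,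
    dS_val, dS_val, rep_extD w hy, rep_extD (iotaS V w) hy]
  have h2 : rep I x₀ (iotaS V w).val =ᶠ[𝓝[range I] y] fun y =>
      (rep I x₀ w.val y).curryLeft (repV I x₀ V.val y) := by
    filter_upwards [target_nhds hy] with y' hy' using rep_iotaS V w hy'
  rw [h2.extDerivWithin_eq_of_mem hyr]
  exact LC.cartan (uniqueDiff_range hyr) (diffWithinAt_range (w.smooth x₀) hy)
    (diffWithinAt_range (V.smooth x₀) hy) v

/-- In a chart where the field is constant near `y`, the Lie derivative is the directional
derivative of the coefficients. -/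
theorem rep_Lie_of_const (V : VF I M) {q : ℕ} (w : SForm I M (q + 1)) {x₀ : M} {y : E} {e : E}
    (hy : y ∈ (extChartAt I x₀).target)
    (hV : ∀ᶠ y' in 𝓝[range I] y, repV I x₀ V.val y' = e) :
    rep I x₀ (Lie V w).val y = fderivWithin ℝ (rep I x₀ w.val) (range I) y e := by
  have hyr := mem_range_of_target hy
  ext v
  rw [rep_Lie_apply V w hy v]
  have h1 : fderivWithin ℝ (repV I x₀ V.val) (range I) y = 0 := by
    have h2 : repV I x₀ V.val =ᶠ[𝓝[range I] y] fun _ => e := hV
    rw [h2.fderivWithin_eq (h2.self_of_nhdsWithin hyr)]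
    exact fderivWithin_const_apply _
  have h3 : repV I x₀ V.val y = e := hV.self_of_nhdsWithin hyr
  rw [h1, h3]
  have h4 : ∀ l ∈ (Finset.univ : Finset (Fin (q + 1))), rep I x₀ w.val y (Function.update v l
      ((0 : E →L[ℝ] E) (v l))) = 0 := by
    intro l _
    exact (rep I x₀ w.val y).map_coord_zero l (by simp)
  rw [Finset.sum_eq_zero h4, add_zero]

end A3

end Mfd

end DtN
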