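import Pool.Agent.H14.DtN.CalcA2

/-!
MODULE A3 : forms supported in a chart; finite covers by charts.
-/

open scoped Manifold ContDiff Topology ComplexConjugate
open Set MeasureTheory

set_option linter.unusedSectionVars false

noncomputable section

namespace DtN

section Mfd

variable {E : Type*} [NormedAddCommGroup E] [NormedSpace ℝ E]
  {H : Type*} [TopologicalSpace H] (I : ModelWithCorners ℝ E H)
  {M : Type*} [TopologicalSpace M] [ChartedSpace H M]

section A3
variable {I} [IsManifold I ∞ M] [FiniteDimensional ℝ E]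

/-! ### A3: forms, functions and vector fields supported in a chart -/

open Classical in
/-- The form `χ · (ext_{x₀})^* u`, extended by zero. -/
def ofChart (x₀ : M) (χ : M → ℝ) {q : ℕ} (u : E → Alt E q) (z : M) : Alt E q :=
  if z ∈ (extChartAt I x₀).source then
    (χ z) • (u (extChartAt I x₀ z)).compContinuousLinearMap (dchart I x₀ z) else 0

theorem rep_ofChart_aux {x₀ : M} {χ : M → ℝ} {q : ℕ} {u : E → Alt E q} {y : E}
    (hy : y ∈ (extChartAt I x₀).target) :
    rep I x₀ (ofChart (I := I) x₀ χ u) y = χ ((extChartAt I x₀).symm y) • u y := by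
  have h1 := dchart_comp_dsymm I hy
  unfold rep ofChart
  rw [if_pos ((extChartAt I x₀).map_target hy), (extChartAt I x₀).right_inv hy]
  ext v
  simp only [ContinuousAlternatingMap.compContinuousLinearMap_apply,
    ContinuousAlternatingMap.smul_apply]
  congr 2
  funext i
  exact DFunLike.congr_fun h1 (v i)

theorem ofChart_smooth {x₀ : M} {χ : M → ℝ} (hχ : ContMDiff I 𝓘(ℝ, ℝ) ∞ χ)
    (hs : tsupport χ ⊆ (extChartAt I x₀).source) {q : ℕ} {u : E → Alt E q}
    (hu : ContDiffOn ℝ ∞ u (extChartAt I x₀).target) :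
    SmoothForm I (ofChart (I := I) x₀ χ u) := by
  refine smoothForm_of_local I fun z => ?_
  by_cases hz : z ∈ (extChartAt I x₀).source
  · refine ⟨x₀, hz, ?_⟩
    have h1 : ContDiffOn ℝ ∞ (fun y => χ ((extChartAt I x₀).symm y) • u y)
        (extChartAt I x₀).target := (contDiffOn_symm hχ x₀).smul hu
    have h2 : ContDiffOn ℝ ∞ (rep I x₀ (ofChart (I := I) x₀ χ u)) (extChartAt I x₀).target :=
      h1.congr fun y hy => rep_ofChart_aux hy
    exact (h2 _ ((extChartAt I x₀).map_source hz)).mono_of_mem_nhdsWithin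
      (extChartAt_target_mem_nhdsWithin_of_mem ((extChartAt I x₀).map_source hz))
  · refine ⟨z, mem_extChartAt_source z, ?_⟩
    have h1 : ∀ᶠ y in 𝓝 (extChartAt I z z), (extChartAt I z).symm y ∈ (tsupport χ)ᶜ :=
      (continuousAt_extChartAt_symm (I := I) z).eventually_mem
        (by
          rw [extChartAt_to_inv]
          exact (isClosed_tsupport χ).isOpen_compl.mem_nhds fun h => hz (hs h))
    have h2 : rep I z (ofChart (I := I) x₀ χ u) =ᶠ[𝓝[range I] (extChartAt I z z)]
        fun _ => (0 : Alt E q) := by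
      filter_upwards [mem_nhdsWithin_of_mem_nhds h1] with y hy
      have h3 : ofChart (I := I) x₀ χ u ((extChartAt I z).symm y) = 0 := by
        unfold ofChart
        split_ifs
        · rw [image_eq_zero_of_notMem_tsupport hy]
          ext v
          exact zero_smul ℝ _
        · rfl
      simp only [rep, h3]
      ext v; rfl
    exact contDiffWithinAt_const.congr_of_eventuallyEq h2
      (h2.self_of_nhdsWithin (mem_range_self _))

theorem rep_ofChart {x₀ : M} {χ : M → ℝ} {q : ℕ} {u : E → Alt E q} {y : E}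
    (hy : y ∈ (extChartAt I x₀).target) :
    rep I x₀ (ofChart (I := I) x₀ χ u) y = χ ((extChartAt I x₀).symm y) • u y :=
  rep_ofChart_aux hy

open Classical in
/-- The vector field `χ · v` (with `v` given in the chart at `x₀`), extended by zero. -/
def ofChartV (x₀ : M) (χ : M → ℝ) (v : E → E) (z : M) : E :=
  if z ∈ (extChartAt I x₀).source then
    (χ z) • dsymm I x₀ (extChartAt I x₀ z) (v (extChartAt I x₀ z)) else 0

theorem repV_ofChartV_aux {x₀ : M} {χ : M → ℝ} {v : E → E} {y : E}
    (hy : y ∈ (extChartAt I x₀).target) :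
    repV I x₀ (ofChartV (I := I) x₀ χ v) y = χ ((extChartAt I x₀).symm y) • v y := by
  have h1 := dchart_comp_dsymm I hy
  unfold repV ofChartV
  rw [if_pos ((extChartAt I x₀).map_target hy), (extChartAt I x₀).right_inv hy, map_smul]
  congr 1
  exact DFunLike.congr_fun h1 (v y)

theorem ofChartV_smooth {x₀ : M} {χ : M → ℝ} (hχ : ContMDiff I 𝓘(ℝ, ℝ) ∞ χ)
    (hs : tsupport χ ⊆ (extChartAt I x₀).source) {v : E → E}
    (hv : ContDiffOn ℝ ∞ v (extChartAt I x₀).target) :
    SmoothVF I (ofChartV (I := I) x₀ χ v) := by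
  refine smoothVF_of_local I fun z => ?_
  by_cases hz : z ∈ (extChartAt I x₀).source
  · refine ⟨x₀, hz, ?_⟩
    have h1 : ContDiffOn ℝ ∞ (fun y => χ ((extChartAt I x₀).symm y) • v y)
        (extChartAt I x₀).target := (contDiffOn_symm hχ x₀).smul hv
    have h2 : ContDiffOn ℝ ∞ (repV I x₀ (ofChartV (I := I) x₀ χ v)) (extChartAt I x₀).target :=
      h1.congr fun y hy => repV_ofChartV_aux hy
    exact (h2 _ ((extChartAt I x₀).map_source hz)).mono_of_mem_nhdsWithin
      (extChartAt_target_mem_nhdsWithin_of_mem ((extChartAt I x₀).map_source hz))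
  · refine ⟨z, mem_extChartAt_source z, ?_⟩
    have h1 : ∀ᶠ y in 𝓝 (extChartAt I z z), (extChartAt I z).symm y ∈ (tsupport χ)ᶜ :=
      (continuousAt_extChartAt_symm (I := I) z).eventually_mem
        (by
          rw [extChartAt_to_inv]
          exact (isClosed_tsupport χ).isOpen_compl.mem_nhds fun h => hz (hs h))
    have h2 : repV I z (ofChartV (I := I) x₀ χ v) =ᶠ[𝓝[range I] (extChartAt I z z)]
        fun _ => (0 : E) := by
      filter_upwards [mem_nhdsWithin_of_mem_nhds h1] with y hy
      have h3 : ofChartV (I := I) x₀ χ v ((extChartAt I z).symm y) = 0 := by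
        unfold ofChartV
        split_ifs
        · rw [image_eq_zero_of_notMem_tsupport hy, zero_smul]
        · rfl
      simp only [repV, h3]
      exact map_zero _
    exact contDiffWithinAt_const.congr_of_eventuallyEq h2
      (h2.self_of_nhdsWithin (mem_range_self _))

theorem repV_ofChartV {x₀ : M} {χ : M → ℝ} {v : E → E} {y : E}
    (hy : y ∈ (extChartAt I x₀).target) :
    repV I x₀ (ofChartV (I := I) x₀ χ v) y = χ ((extChartAt I x₀).symm y) • v y :=
  repV_ofChartV_aux hy

open Classical in
/-- The function `χ · (b ∘ ext_{x₀})`, extended by zero. -/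
def ofChartF {F : Type*} [NormedAddCommGroup F] [NormedSpace ℝ F]
    (x₀ : M) (χ : M → ℝ) (b : E → F) (z : M) : F :=
  if z ∈ (extChartAt I x₀).source then (χ z) • b (extChartAt I x₀ z) else 0

theorem ofChartF_smooth {F : Type*} [NormedAddCommGroup F] [NormedSpace ℝ F]
    {x₀ : M} {χ : M → ℝ} (hχ : ContMDiff I 𝓘(ℝ, ℝ) ∞ χ)
    (hs : tsupport χ ⊆ (extChartAt I x₀).source) {b : E → F}
    (hb : ContDiffOn ℝ ∞ b (extChartAt I x₀).target) :
    ContMDiff I 𝓘(ℝ, F) ∞ (ofChartF (I := I) x₀ χ b) := by
  intro z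
  by_cases hz : z ∈ (extChartAt I x₀).source
  · have h1 : ContMDiffOn I 𝓘(ℝ, F) ∞ (b ∘ extChartAt I x₀) (chartAt H x₀).source :=
      (contMDiffOn_iff_contDiffOn.2 hb).comp contMDiffOn_extChartAt
        (fun y hy => (extChartAt I x₀).map_source (by rwa [extChartAt_source]))
    have h2 : ContMDiffAt I 𝓘(ℝ, F) ∞ (b ∘ extChartAt I x₀) z :=
      h1.contMDiffAt ((chartAt H x₀).open_source.mem_nhds (by rwa [extChartAt_source] at hz))
    have h3 : ContMDiffAt I 𝓘(ℝ, F) ∞ (fun z => χ z • (b ∘ extChartAt I x₀) z) z :=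
      (hχ z).smul h2
    refine h3.congr_of_eventuallyEq ?_
    filter_upwards [extChartAt_source_mem_nhds' (I := I) hz] with z' hz'
    simp only [ofChartF, if_pos hz', Function.comp]
  · have h2 : ofChartF (I := I) x₀ χ b =ᶠ[𝓝 z] fun _ => (0 : F) := by
      filter_upwards [(isClosed_tsupport χ).isOpen_compl.mem_nhds fun h => hz (hs h)] with z' hz'
      unfold ofChartF
      split_ifs
      · rw [image_eq_zero_of_notMem_tsupport hz', zero_smul]
      · rfl
    exact contMDiffAt_const.congr_of_eventuallyEq h2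

/-- A smooth form with support in the source of a chart, seen in the half space, is smooth and
compactly supported there (`indicator` because `rep` has junk values outside the target). -/
theorem indicator_rep [CompactSpace M] {x₀ : M} {q : ℕ} (w : SForm I M q)
    (hs : tsupport w.val ⊆ (extChartAt I x₀).source) :
    ContDiffOn ℝ ∞ ((extChartAt I x₀).target.indicator (rep I x₀ w.val)) (range I) ∧
    HasCompactSupport ((extChartAt I x₀).target.indicator (rep I x₀ w.val)) := by
  have hKc : IsCompact (extChartAt I x₀ '' tsupport w.val) :=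
    (isClosed_tsupport w.val).isCompact.image_of_continuousOn
      ((continuousOn_extChartAt x₀).mono hs)
  have hKt : extChartAt I x₀ '' tsupport w.val ⊆ (extChartAt I x₀).target := by
    rintro _ ⟨z, hz, rfl⟩
    exact (extChartAt I x₀).map_source (hs hz)
  have h0 : ∀ y, y ∉ extChartAt I x₀ '' tsupport w.val →
      (extChartAt I x₀).target.indicator (rep I x₀ w.val) y = 0 := by
    intro y hy
    by_cases hyt : y ∈ (extChartAt I x₀).target
    · rw [indicator_of_mem hyt]
      have h1 : w.val ((extChartAt I x₀).symm y) = 0 := by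
        apply image_eq_zero_of_notMem_tsupport
        intro h
        exact hy ⟨_, h, (extChartAt I x₀).right_inv hyt⟩
      simp only [rep, h1]
      ext v; rfl
    · exact indicator_of_notMem hyt _
  refine ⟨?_, HasCompactSupport.intro hKc h0⟩
  intro y _
  by_cases hy : y ∈ extChartAt I x₀ '' tsupport w.val
  · have hyt := hKt hy
    have h1 : ContDiffWithinAt ℝ ∞ ((extChartAt I x₀).target.indicator (rep I x₀ w.val))
        (extChartAt I x₀).target y :=
      (w.smooth x₀ y hyt).congr (fun y' hy' => indicator_of_mem hy' _) (indicator_of_mem hyt _)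
    exact h1.mono_of_mem_nhdsWithin (extChartAt_target_mem_nhdsWithin_of_mem hyt)
  · have h1 : (extChartAt I x₀).target.indicator (rep I x₀ w.val) =ᶠ[𝓝[range I] y]
        fun _ => (0 : Alt E q) := by
      filter_upwards [mem_nhdsWithin_of_mem_nhds (hKc.isClosed.isOpen_compl.mem_nhds hy)]
        with y' hy'
      exact h0 y' hy'
    exact contDiffWithinAt_const.congr_of_eventuallyEq h1 (h0 y hy)

/-! ### A4: finite covers by charts -/

variable (I M) in
/-- A finite smooth partition of unity subordinate to preferred charts, with cutoffs. -/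
structure Cover where
  N : ℕ
  c : Fin N → M
  χ : Fin N → M → ℝ
  χ' : Fin N → M → ℝ
  χ_smooth : ∀ i, ContMDiff I 𝓘(ℝ, ℝ) ∞ (χ i)
  χ'_smooth : ∀ i, ContMDiff I 𝓘(ℝ, ℝ) ∞ (χ' i)
  χ_nonneg : ∀ i z, 0 ≤ χ i z
  χ_sum : ∀ z, ∑ i, χ i z = 1
  χ_supp : ∀ i, tsupport (χ i) ⊆ (extChartAt I (c i)).source
  χ'_supp : ∀ i, tsupport (χ' i) ⊆ (extChartAt I (c i)).source
  χ'_one : ∀ i, ∀ z ∈ tsupport (χ i), ∀ᶠ z' in 𝓝 z, χ' i z' = 1

theorem exists_cover [CompactSpace M] [T2Space M] : Nonempty (Cover I M) := by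
  obtain ⟨t, ht⟩ := isCompact_univ.elim_finite_subcover
    (fun x : M => (extChartAt I x).source) (fun x => isOpen_extChartAt_source x)
    (fun z _ => mem_iUnion.2 ⟨z, mem_extChartAt_source z⟩)
  obtain ⟨f, hf⟩ := SmoothPartitionOfUnity.exists_isSubordinate I (isClosed_univ (X := M))
    (fun i : Fin t.card => (extChartAt I (t.equivFin.symm i : M)).source)
    (fun i => isOpen_extChartAt_source _) (by
      intro z hz
      obtain ⟨x, hx⟩ := mem_iUnion.1 (ht hz)
      obtain ⟨hxt, hx⟩ := mem_iUnion.1 hx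
      refine mem_iUnion.2 ⟨t.equivFin ⟨x, hxt⟩, ?_⟩
      rw [Equiv.symm_apply_apply]
      exact hx)
  have h1 : ∀ i : Fin t.card, ∃ g : C^∞⟮I, M; 𝓘(ℝ, ℝ), ℝ⟯,
      tsupport g ⊆ (extChartAt I (t.equivFin.symm i : M)).source ∧
      ∀ z ∈ tsupport (f i), ∀ᶠ z' in 𝓝 z, g z' = 1 := by
    intro i
    obtain ⟨u, hu, hsu, huc⟩ := normal_exists_closure_subset (isClosed_tsupport (f i))
      (isOpen_extChartAt_source (I := I) (t.equivFin.symm i : M)) (hf i)
    obtain ⟨g, hg1, hg0, -⟩ := exists_contMDiffMap_one_nhds_of_subset_interior I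
      (isClosed_tsupport (f i)) (t := closure u)
      (hsu.trans (hu.subset_interior_iff.2 subset_closure))
    refine ⟨g, ?_, fun z hz => (eventually_nhdsSet_iff_forall.1 hg1) z hz⟩
    refine subset_trans (closure_minimal ?_ isClosed_closure) huc
    intro x hx
    by_contra hxu
    exact hx (hg0 x hxu)
  choose g hg1 hg2 using h1
  exact ⟨{
    N := t.card
    c := fun i => (t.equivFin.symm i : M)
    χ := fun i => f i
    χ' := fun i => g i
    χ_smooth := fun i => (f i).contMDiff
    χ'_smooth := fun i => (g i).contMDiff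
    χ_nonneg := fun i z => f.nonneg i z
    χ_sum := fun z => by
      have := f.sum_eq_one (mem_univ z)
      rwa [finsum_eq_sum_of_fintype] at this
    χ_supp := fun i => hf i
    χ'_supp := hg1
    χ'_one := hg2 }⟩

end A3

end Mfd

end DtN
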