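import Pool.Agent.H14.DtN.IntM

/-!
MODULE E : Dirichlet forms, codifferential, Green's formula.
-/

open scoped Manifold ContDiff Topology ComplexConjugate
open Set MeasureTheory

set_option linter.unusedSectionVars false

noncomputable section

namespace DtN

variable {d : ℕ} {Ω : Type*} [TopologicalSpace Ω] [ChartedSpace (EuclideanHalfSpace (d + 1)) Ω]
  [IsManifold (𝓡∂ (d + 1)) ∞ Ω] [CompactSpace Ω] [T2Space Ω]

/-- Linear algebra of the Dirichlet condition. -/
theorem wedge1_dx_eq_zero_iff {n q : ℕ} (k : Fin n) (u : Alt (Eu n) q) :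
    wedge1 (dx k) u = 0 ↔ ∀ v : Fin q → Eu n, (∀ l, (v l) k = 0) → u v = 0 := by
  constructor
  · intro h v hv
    have h1 := DFunLike.congr_fun h (Matrix.vecCons (ev k) v)
    unfold wedge1 at h1
    rw [ContinuousAlternatingMap.alternatizeUncurryFin_apply, Fin.sum_univ_succ] at h1
    have h0 : Fin.removeNth 0 (Matrix.vecCons (ev k) v) = v := by
      funext l
      simp [Fin.removeNth]
    rw [h0] at h1
    have h2 : ∀ i : Fin q, ((-1 : ℤ) ^ (i.succ : ℕ)) •
        ((dx k).smulRight u (Matrix.vecCons (ev k) v i.succ))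
          (Fin.removeNth i.succ (Matrix.vecCons (ev k) v)) = 0 := by
      intro i
      have : (dx k).smulRight u (Matrix.vecCons (ev k) v i.succ) = 0 := by
        simp [dx, hv i]
      rw [this]
      simp
    simp only [h2, Finset.sum_const_zero, add_zero] at h1
    simpa [dx] using h1
  · intro h
    refine alt_ext fun J => ?_
    by_cases hJ : Function.Injective J
    · unfold wedge1
      rw [ContinuousAlternatingMap.alternatizeUncurryFin_apply]
      refine Finset.sum_eq_zero fun i _ => ?_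
      by_cases hi : J i = k
      · have h3 : ((dx k).smulRight u (ev (J i)))
            (Fin.removeNth i (fun l => (ev (J l) : Eu n))) = 0 := by
          have h4 : u (Fin.removeNth i (fun l => (ev (J l) : Eu n))) = 0 := by
            refine h _ fun l => ?_
            have h5 : J (i.succAbove l) ≠ k := by
              intro h6
              exact Fin.succAbove_ne i l (hJ (h6.trans hi.symm))
            simp [Fin.removeNth, h5.symm]
          simp [h4]
        rw [h3, smul_zero]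
      · have h3 : (dx k).smulRight u (ev (J i)) = 0 := by
          simp [dx, Ne.symm hi]
        rw [h3]
        simp
    · rw [Function.Injective] at hJ
      push Not at hJ
      obtain ⟨a, b, hab, hne⟩ := hJ
      exact (wedge1 (dx k) u).map_eq_zero_of_eq _ (by simp [hab]) hne

/-- Forms with vanishing tangential part at the boundary: `w z (v) = 0` for boundary points `z` and
vectors `v` tangent to the boundary. -/
def dirS (Ω : Type*) [TopologicalSpace Ω] [ChartedSpace (EuclideanHalfSpace (d + 1)) Ω]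
    [IsManifold (𝓡∂ (d + 1)) ∞ Ω] (q : ℕ) :
    Submodule (SFun (𝓡∂ (d + 1)) Ω) (SForm (𝓡∂ (d + 1)) Ω q) where
  carrier := {w | ∀ z ∈ (𝓡∂ (d + 1)).boundary Ω, ∀ v : Fin q → Eu (d + 1),
    (∀ l, (v l) 0 = 0) → w.val z v = 0}
  add_mem' := by
    intro a b ha hb z hz v hv
    rw [SForm.add_apply, ContinuousAlternatingMap.add_apply, ha z hz v hv, hb z hz v hv, add_zero]
  zero_mem' := by
    intro z hz v hv
    rfl
  smul_mem' := by
    intro c w hw z hz v hv
    rw [SForm.smul_apply, ContinuousAlternatingMap.smul_apply, hw z hz v hv, smul_zero]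

theorem mem_dirS {q : ℕ} {w : SForm (𝓡∂ (d + 1)) Ω q} :
    w ∈ dirS Ω q ↔ ∀ z ∈ (𝓡∂ (d + 1)).boundary Ω, ∀ v : Fin q → Eu (d + 1),
    (∀ l, (v l) 0 = 0) → w.val z v = 0 := Iff.rfl

theorem interior_HS : interior (HS d) = {y : Eu (d + 1) | 0 < y 0} :=
  interior_halfSpace 2 0 0

theorem mem_HS_of_target {x₀ : Ω} {y : Eu (d + 1)}
    (hy : y ∈ (extChartAt (𝓡∂ (d + 1)) x₀).target) : 0 ≤ y 0 := by
  obtain ⟨O, hO, h⟩ := exists_open_target (d := d) x₀
  rw [h] at hy
  exact hy.1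

/-- Boundary points in charts. -/
theorem mem_boundary_iff {x₀ z : Ω} (hz : z ∈ (extChartAt (𝓡∂ (d + 1)) x₀).source) :
    z ∈ (𝓡∂ (d + 1)).boundary Ω ↔ (extChartAt (𝓡∂ (d + 1)) x₀ z) 0 = 0 := by
  have h1 : z ∈ (𝓡∂ (d + 1)).boundary Ω ↔
      extChartAt (𝓡∂ (d + 1)) x₀ z ∈ frontier (extChartAt (𝓡∂ (d + 1)) x₀).target :=
    (𝓡∂ (d + 1)).isBoundaryPoint_iff_of_mem_atlas (n := ∞) (M := Ω) (by simp)
      (chart_mem_atlas _ x₀) (by rwa [extChartAt_source] at hz)
  have hy := (extChartAt (𝓡∂ (d + 1)) x₀).map_source hz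
  have h2 : extChartAt (𝓡∂ (d + 1)) x₀ z ∈ frontier (extChartAt (𝓡∂ (d + 1)) x₀).target ↔
      ¬ extChartAt (𝓡∂ (d + 1)) x₀ z ∈ interior (extChartAt (𝓡∂ (d + 1)) x₀).target := by
    rw [mem_interior_iff_notMem_frontier hy, not_not]
  rw [h1, h2]
  obtain ⟨O, hO, h⟩ := exists_open_target (d := d) x₀
  rw [h] at hy ⊢
  rw [interior_inter, hO.interior_eq, interior_HS]
  constructor
  · intro h3
    by_contra h4
    exact h3 ⟨lt_of_le_of_ne hy.1 (Ne.symm h4), hy.2⟩
  · intro h3 h4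
    have := h4.1
    simp only [mem_ofPred_eq] at this
    linarith

/-- The derivative of the inverse chart preserves vectors tangent to the boundary. -/
theorem dsymm_tangent {x₀ : Ω} {y : Eu (d + 1)} (hy : y ∈ (extChartAt (𝓡∂ (d + 1)) x₀).target)
    (h0 : y 0 = 0) {v : Eu (d + 1)} (hv : v 0 = 0) : (dsymm (𝓡∂ (d + 1)) x₀ y v) 0 = 0 := by
  set z := (extChartAt (𝓡∂ (d + 1)) x₀).symm y with hz
  have hzs : z ∈ (extChartAt (𝓡∂ (d + 1)) x₀).source := (extChartAt (𝓡∂ (d + 1)) x₀).map_target hy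
  have hzb : z ∈ (𝓡∂ (d + 1)).boundary Ω := by
    rw [mem_boundary_iff hzs, hz, (extChartAt (𝓡∂ (d + 1)) x₀).right_inv hy, h0]
  have h1 : (extChartAt (𝓡∂ (d + 1)) z z) 0 = 0 :=
    (mem_boundary_iff (mem_extChartAt_source z)).1 hzb
  have h2 := dsymm_change (𝓡∂ (d + 1)) hy (x₀ := z) (x₁ := x₀) (mem_extChartAt_source z)
  have h3 : theta (𝓡∂ (d + 1)) z x₀ y = extChartAt (𝓡∂ (d + 1)) z z := rfl
  rw [h3, dsymm_self, ContinuousLinearMap.id_comp, range_eq_HS] at h2
  rw [h2]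
  have h4 := theta_contDiffWithinAt (𝓡∂ (d + 1)) (x₀ := z) hy (mem_extChartAt_source z)
  rw [range_eq_HS] at h4
  have h5 : HasFDerivWithinAt (theta (𝓡∂ (d + 1)) z x₀)
      (fderivWithin ℝ (theta (𝓡∂ (d + 1)) z x₀) (HS d) y) (HS d) y :=
    (h4.differentiableWithinAt (by simp)).hasFDerivWithinAt
  have h6 : HasDerivAt (fun t : ℝ => y + t • v) v 0 := by
    simpa using ((hasDerivAt_id (0 : ℝ)).smul_const v).const_add y
  have h7 : HasDerivWithinAt (fun t : ℝ => theta (𝓡∂ (d + 1)) z x₀ (y + t • v))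
      (fderivWithin ℝ (theta (𝓡∂ (d + 1)) z x₀) (HS d) y v) univ 0 := by
    refine HasFDerivWithinAt.comp_hasDerivWithinAt (t := HS d) (0 : ℝ) (by simpa using h5)
      h6.hasDerivWithinAt ?_
    intro t _
    simp [HS, h0, hv]
  have h8 : HasDerivAt (fun t : ℝ => (theta (𝓡∂ (d + 1)) z x₀ (y + t • v)) 0)
      ((fderivWithin ℝ (theta (𝓡∂ (d + 1)) z x₀) (HS d) y v) 0) 0 := by
    have h9 : HasFDerivAt (fun x : Eu (d + 1) => x 0) (EuclideanSpace.proj 0 : Eu (d + 1) →L[ℝ] ℝ)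
      (theta (𝓡∂ (d + 1)) z x₀ (y + (0 : ℝ) • v)) :=
      (EuclideanSpace.proj 0 : Eu (d + 1) →L[ℝ] ℝ).hasFDerivAt
    exact h9.comp_hasDerivAt (0 : ℝ) (hasDerivWithinAt_univ.1 h7)
  refine IsLocalMin.hasDerivAt_eq_zero (f := fun t : ℝ =>
    (theta (𝓡∂ (d + 1)) z x₀ (y + t • v)) 0) ?_ h8
  refine Filter.Eventually.of_forall fun t => ?_
  have h10 : theta (𝓡∂ (d + 1)) z x₀ (y + (0 : ℝ) • v) = extChartAt (𝓡∂ (d + 1)) z z := by
    simp [h3]
  show (theta (𝓡∂ (d + 1)) z x₀ (y + (0 : ℝ) • v)) 0 ≤ (theta (𝓡∂ (d + 1)) z x₀ (y + t • v)) 0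
  rw [h10, h1]
  have h11 : ∀ p : Ω, 0 ≤ (extChartAt (𝓡∂ (d + 1)) z p) 0 := by
    intro p
    have : extChartAt (𝓡∂ (d + 1)) z p ∈ range (𝓡∂ (d + 1)) := by
      rw [extChartAt_coe]
      exact mem_range_self _
    rw [range_eq_HS] at this
    exact this
  exact h11 _

/-- The Dirichlet condition in charts. -/
theorem dirS_chart {q : ℕ} {w : SForm (𝓡∂ (d + 1)) Ω q} :
    w ∈ dirS Ω q ↔ ∀ x₀ : Ω, ∀ y ∈ (extChartAt (𝓡∂ (d + 1)) x₀).target, y 0 = 0 →
      wedge1 (dx 0) (rep (𝓡∂ (d + 1)) x₀ w.val y) = 0 := by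
  rw [mem_dirS]
  constructor
  · intro h x₀ y hy h0
    rw [wedge1_dx_eq_zero_iff]
    intro v hv
    have hzs := (extChartAt (𝓡∂ (d + 1)) x₀).map_target hy
    refine h _ ?_ _ fun l => dsymm_tangent hy h0 (hv l)
    rw [mem_boundary_iff hzs, (extChartAt (𝓡∂ (d + 1)) x₀).right_inv hy, h0]
  · intro h z hz v hv
    have h1 := h z (extChartAt (𝓡∂ (d + 1)) z z) (mem_extChartAt_target z)
      ((mem_boundary_iff (mem_extChartAt_source z)).1 hz)
    rw [rep_self, wedge1_dx_eq_zero_iff] at h1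
    exact h1 v hv

/-! ### Locality -/

theorem rep_eventually_zero {q : ℕ} {u : Ω → Alt (Eu (d + 1)) q} {x₀ : Ω} {y : Eu (d + 1)}
    (hy : y ∈ (extChartAt (𝓡∂ (d + 1)) x₀).target)
    (h : ∀ᶠ z in 𝓝 ((extChartAt (𝓡∂ (d + 1)) x₀).symm y), u z = 0) :
    rep (𝓡∂ (d + 1)) x₀ u =ᶠ[𝓝[HS d] y] fun _ => (0 : Alt (Eu (d + 1)) q) := by
  have h1 : ContinuousWithinAt (extChartAt (𝓡∂ (d + 1)) x₀).symm (HS d) y := by
    have := (continuousOn_extChartAt_symm (I := 𝓡∂ (d + 1)) x₀ y hy)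
    rw [← range_eq_HS]
    exact this.mono_of_mem_nhdsWithin (extChartAt_target_mem_nhdsWithin_of_mem hy)
  filter_upwards [h1.eventually h] with y' hy'
  unfold rep
  rw [hy']
  ext v
  rfl

theorem extD_zero_of_eventually {q : ℕ} {u : Ω → Alt (Eu (d + 1)) q} {z : Ω}
    (h : ∀ᶠ z' in 𝓝 z, u z' = 0) : extD (𝓡∂ (d + 1)) u z = 0 := by
  unfold extD
  have h1 := rep_eventually_zero (u := u) (mem_extChartAt_target (I := 𝓡∂ (d + 1)) z)
    (by rwa [extChartAt_to_inv])
  have h2 : (extChartAt (𝓡∂ (d + 1)) z z) ∈ HS d := by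
    rw [← range_eq_HS, extChartAt_coe]
    exact mem_range_self _
  rw [range_eq_HS, h1.extDerivWithin_eq_of_mem h2]
  ext v
  simp [extDerivWithin, ContinuousAlternatingMap.alternatizeUncurryFin_apply]

theorem dS_zero_of_notMem {q : ℕ} {u : SForm (𝓡∂ (d + 1)) Ω q} {z : Ω}
    (h : z ∉ tsupport u.val) : (dS u).val z = 0 := by
  rw [dS_val]
  apply extD_zero_of_eventually
  filter_upwards [(isClosed_tsupport u.val).isOpen_compl.mem_nhds h] with z' hz'
  exact image_eq_zero_of_notMem_tsupport hz'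

theorem codLoc_congr {q : ℕ} {G : Eu (d + 1) → Matrix (Fin (d + 1)) (Fin (d + 1)) ℝ}
    {v v' : Eu (d + 1) → Alt (Eu (d + 1)) (q + 1)} {y : Eu (d + 1)}
    (h : v =ᶠ[𝓝[HS d] y] v') (hy : y ∈ HS d) : codLoc G v y = codLoc G v' y := by
  unfold codLoc
  have h1 : (fun y' => Real.sqrt (G y').det •
      (v y').compContinuousLinearMap (matL (G y')⁻¹)) =ᶠ[𝓝[HS d] y]
      (fun y' => Real.sqrt (G y').det • (v' y').compContinuousLinearMap (matL (G y')⁻¹)) := by
    filter_upwards [h] with y' hy'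
    rw [hy']
  rw [h1.fderivWithin_eq (h1.eq_of_nhdsWithin hy)]

theorem codLoc_zero {q : ℕ} (G : Eu (d + 1) → Matrix (Fin (d + 1)) (Fin (d + 1)) ℝ)
    (y : Eu (d + 1)) : codLoc G (fun _ => (0 : Alt (Eu (d + 1)) (q + 1))) y = 0 := by
  unfold codLoc
  have h1 : (fun y' => Real.sqrt (G y').det •
      (0 : Alt (Eu (d + 1)) (q + 1)).compContinuousLinearMap (matL (G y')⁻¹)) =
      fun _ => (0 : Alt (Eu (d + 1)) (q + 1)) := by
    funext y'
    ext v
    simp
  rw [h1]
  ext v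
  simp

/-- Smooth cutoffs. -/
theorem exists_cutoff {K U : Set Ω} (hK : IsClosed K) (hU : IsOpen U) (hKU : K ⊆ U) :
    ∃ χ : Ω → ℝ, ContMDiff (𝓡∂ (d + 1)) 𝓘(ℝ, ℝ) ∞ χ ∧ tsupport χ ⊆ U ∧
      ∀ z ∈ K, ∀ᶠ z' in 𝓝 z, χ z' = 1 := by
  obtain ⟨u, hu, hsu, huc⟩ := normal_exists_closure_subset hK hU hKU
  obtain ⟨g, hg1, hg0, -⟩ := exists_contMDiffMap_one_nhds_of_subset_interior (𝓡∂ (d + 1))
    hK (t := closure u) (hsu.trans (hu.subset_interior_iff.2 subset_closure))
  refine ⟨g, g.contMDiff, ?_, fun z hz => (eventually_nhdsSet_iff_forall.1 hg1) z hz⟩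
  refine subset_trans (closure_minimal ?_ isClosed_closure) huc
  intro x hx
  by_contra hxu
  exact hx (hg0 x hxu)

/-- A real function as a complex valued smooth function. -/
def realS (χ : Ω → ℝ) (hχ : ContMDiff (𝓡∂ (d + 1)) 𝓘(ℝ, ℝ) ∞ χ) : SFun (𝓡∂ (d + 1)) Ω :=
  ⟨fun z => (χ z : ℂ), (Complex.ofRealCLM.contDiff.contMDiff (n := ∞)).comp hχ⟩

theorem czs {n q : ℕ} (w : Alt (Eu n) q) : (0 : ℂ) • w = 0 := zero_smul ℂ w

theorem rzs {n q : ℕ} (w : Alt (Eu n) q) : (0 : ℝ) • w = 0 := by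
  ext v
  simp [ContinuousAlternatingMap.smul_apply]

theorem rsz {n q : ℕ} (c : ℝ) : c • (0 : Alt (Eu n) q) = 0 := by
  ext v
  simp [ContinuousAlternatingMap.smul_apply]

theorem smul_val_zero {q : ℕ} {b : SFun (𝓡∂ (d + 1)) Ω} {w : SForm (𝓡∂ (d + 1)) Ω q} {z : Ω}
    (h : b.val z = 0) : (b • w).val z = 0 := by
  rw [SForm.smul_apply, h]
  exact czs _

theorem realS_val (χ : Ω → ℝ) (hχ : ContMDiff (𝓡∂ (d + 1)) 𝓘(ℝ, ℝ) ∞ χ) (z : Ω) :
    (realS (d := d) χ hχ).val z = (χ z : ℂ) := rfl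

section
variable (g : Metric (𝓡∂ (d + 1)) Ω) (C : Cover (𝓡∂ (d + 1)) Ω)

theorem ipM_zero_left {q : ℕ} (w : SForm (𝓡∂ (d + 1)) Ω q) : ipM g C 0 w = 0 := by
  have h1 := ipM_smul_left g C 0 (0 : SForm (𝓡∂ (d + 1)) Ω q) w
  rwa [zero_smul, zero_mul] at h1

theorem ipM_zero_right {q : ℕ} (w : SForm (𝓡∂ (d + 1)) Ω q) : ipM g C w 0 = 0 := by
  rw [← ipM_conj, ipM_zero_left, map_zero]

theorem ipM_neg_right {q : ℕ} (v w : SForm (𝓡∂ (d + 1)) Ω q) :
    ipM g C v (-w) = -ipM g C v w := by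
  have h : -w = (-1 : ℂ) • w := by rw [neg_one_smul]
  rw [h, ipM_smul_right]
  simp

theorem ipM_sub_right {q : ℕ} (v w w' : SForm (𝓡∂ (d + 1)) Ω q) :
    ipM g C v (w - w') = ipM g C v w - ipM g C v w' := by
  rw [sub_eq_add_neg, ipM_add_right, ipM_neg_right, sub_eq_add_neg]

theorem ipM_sum_right {q : ℕ} {ι : Type*} (s : Finset ι) (v : SForm (𝓡∂ (d + 1)) Ω q)
    (w : ι → SForm (𝓡∂ (d + 1)) Ω q) :
    ipM g C v (∑ i ∈ s, w i) = ∑ i ∈ s, ipM g C v (w i) := by
  classical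
  induction s using Finset.induction_on with
  | empty => simp [ipM_zero_right]
  | insert a s ha ih => rw [Finset.sum_insert ha, Finset.sum_insert ha, ipM_add_right, ih]

theorem fip_zero_left {q : ℕ} {v w : Ω → Alt (Eu (d + 1)) q} {z : Ω} (h : v z = 0) :
    fip g v w z = 0 := by
  unfold fip
  rw [h, formInner_zero_left]

theorem formInner_zero_right {n q : ℕ} (G : Matrix (Fin n) (Fin n) ℝ) (v : Alt (Eu n) q) :
    formInner G v 0 = 0 := by
  simp [formInner]

theorem fip_zero_right {q : ℕ} {v w : Ω → Alt (Eu (d + 1)) q} {z : Ω} (h : w z = 0) :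
    fip g v w z = 0 := by
  unfold fip
  rw [h, formInner_zero_right]

theorem IntM_zero : IntM g C (0 : Ω → ℂ) = 0 := by
  have := IntM_smul g C 0 (0 : Ω → ℂ)
  rwa [zero_smul, zero_mul] at this

/-- Local nondegeneracy of the `L²` product against Dirichlet forms. -/
theorem eq_zero_of_ipM_dir_local {q : ℕ} {t : SForm (𝓡∂ (d + 1)) Ω q} {U : Set Ω}
    (hU : IsOpen U) (h : ∀ u ∈ dirS Ω q, tsupport u.val ⊆ U → ipM g C u t = 0) :
    ∀ z ∈ U, t.val z = 0 := by
  intro z₀ hz₀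
  have hnb : U ∩ (extChartAt (𝓡∂ (d + 1)) z₀).source ∈ 𝓝 z₀ :=
    (hU.inter (isOpen_extChartAt_source z₀)).mem_nhds ⟨hz₀, mem_extChartAt_source z₀⟩
  obtain ⟨f, -, hf⟩ := (SmoothBumpFunction.nhds_basis_tsupport (I := 𝓡∂ (d + 1)) z₀).mem_iff.1 hnb
  have hfs : tsupport f ⊆ (extChartAt (𝓡∂ (d + 1)) z₀).source := hf.trans inter_subset_right
  have hfc : ContMDiff (𝓡∂ (d + 1)) 𝓘(ℝ, ℝ) ∞ f := f.contMDiff
  set r : Ω → ℝ := ofChartF (I := 𝓡∂ (d + 1)) z₀ f (fun y => y 0) with hr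
  have hrc : ContMDiff (𝓡∂ (d + 1)) 𝓘(ℝ, ℝ) ∞ r := by
    refine ofChartF_smooth hfc hfs ?_
    exact (EuclideanSpace.proj 0 : Eu (d + 1) →L[ℝ] ℝ).contDiff.contDiffOn
  have hr1 : ∀ z ∈ (extChartAt (𝓡∂ (d + 1)) z₀).source,
      r z = f z * (extChartAt (𝓡∂ (d + 1)) z₀ z) 0 := by
    intro z hz
    rw [hr, ofChartF, if_pos hz, smul_eq_mul]
  have hr2 : ∀ z ∉ (extChartAt (𝓡∂ (d + 1)) z₀).source, r z = 0 := by
    intro z hz
    rw [hr, ofChartF, if_neg hz]
  have hr0 : ∀ z, 0 ≤ r z := by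
    intro z
    by_cases hz : z ∈ (extChartAt (𝓡∂ (d + 1)) z₀).source
    · rw [hr1 z hz]
      exact mul_nonneg f.nonneg (mem_HS_of_target ((extChartAt (𝓡∂ (d + 1)) z₀).map_source hz))
    · rw [hr2 z hz]
  set u : SForm (𝓡∂ (d + 1)) Ω q := realS r hrc • t with hu
  have hu1 : ∀ z, u.val z = (r z : ℂ) • t.val z := fun z => rfl
  have hud : u ∈ dirS Ω q := by
    rw [mem_dirS]
    intro z hz v hv
    have : r z = 0 := by
      by_cases hzs : z ∈ (extChartAt (𝓡∂ (d + 1)) z₀).source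
      · rw [hr1 z hzs, (mem_boundary_iff hzs).1 hz, mul_zero]
      · exact hr2 z hzs
    rw [hu1, this]
    simp
  have hus : tsupport u.val ⊆ U := by
    refine subset_trans (closure_mono ?_) (hf.trans inter_subset_left)
    intro z hz hfz
    have : r z = 0 := by
      by_cases hzs : z ∈ (extChartAt (𝓡∂ (d + 1)) z₀).source
      · rw [hr1 z hzs, hfz, zero_mul]
      · exact hr2 z hzs
    exact hz (smul_val_zero (by rw [realS_val, this, Complex.ofReal_zero]))
  have h1 := h u hud hus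
  have h2 : fip g u.val t.val = fun z => ((r z * (fip g t.val t.val z).re : ℝ) : ℂ) := by
    funext z
    have h3 : fip g u.val t.val z = (r z : ℂ) * fip g t.val t.val z :=
      formInner_smul_left _ _ _ _
    rw [h3, fip_self_eq]
    push_cast
    simp
  unfold ipM at h1
  rw [h2] at h1
  have h4 := IntM_definite g C (hrc.continuous.mul
    (Complex.continuous_re.comp (fip_continuous g t t)))
    (fun z => mul_nonneg (hr0 z) (fip_self_nonneg g _ z)) h1
  have h5 : ∀ z, r z ≠ 0 → t.val z = 0 := by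
    intro z hz
    have h6 : r z * (fip g t.val t.val z).re = 0 := congrFun h4 z
    have h7 : (fip g t.val t.val z).re = 0 := (mul_eq_zero.1 h6).resolve_left hz
    have h8 : fip g t.val t.val z = 0 := by
      rw [fip_self_eq]
      simp [h7]
    exact formInner_definite _ (gram_self_posDef g z) _ h8
  -- go to the chart
  set y₀ := extChartAt (𝓡∂ (d + 1)) z₀ z₀ with hy₀
  have hyt : y₀ ∈ (extChartAt (𝓡∂ (d + 1)) z₀).target := mem_extChartAt_target z₀
  have hcont : ContinuousWithinAt (rep (𝓡∂ (d + 1)) z₀ t.val) (HS d) y₀ := by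
    have h9 := (t.smooth z₀).continuousOn y₀ hyt
    rw [← range_eq_HS]
    exact h9.mono_of_mem_nhdsWithin (extChartAt_target_mem_nhdsWithin_of_mem hyt)
  have hsymm : ContinuousWithinAt (extChartAt (𝓡∂ (d + 1)) z₀).symm (HS d) y₀ :=
    (continuousAt_extChartAt_symm (I := 𝓡∂ (d + 1)) z₀).continuousWithinAt
  have hf1 : ∀ᶠ z in 𝓝 ((extChartAt (𝓡∂ (d + 1)) z₀).symm y₀), f z ≠ 0 := by
    rw [hy₀, extChartAt_to_inv]
    exact f.eventuallyEq_one.mono fun z hz => by
      rw [hz]; exact one_ne_zero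
  have hev : ∀ᶠ y in 𝓝[interior (HS d)] y₀, rep (𝓡∂ (d + 1)) z₀ t.val y = 0 := by
    have h10 : ∀ᶠ y in 𝓝[interior (HS d)] y₀, f ((extChartAt (𝓡∂ (d + 1)) z₀).symm y) ≠ 0 :=
      (hsymm.mono interior_subset).eventually hf1
    have h11 : ∀ᶠ y in 𝓝[interior (HS d)] y₀, y ∈ (extChartAt (𝓡∂ (d + 1)) z₀).target := by
      have := extChartAt_target_mem_nhdsWithin_of_mem (I := 𝓡∂ (d + 1)) hyt
      rw [range_eq_HS] at this
      exact nhdsWithin_mono _ interior_subset this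
    filter_upwards [h10, h11, self_mem_nhdsWithin] with y hy1 hy2 hy3
    have hz := (extChartAt (𝓡∂ (d + 1)) z₀).map_target hy2
    rw [interior_HS] at hy3
    have h12 : t.val ((extChartAt (𝓡∂ (d + 1)) z₀).symm y) = 0 := by
      apply h5
      rw [hr1 _ hz, (extChartAt (𝓡∂ (d + 1)) z₀).right_inv hy2]
      exact mul_ne_zero hy1 (ne_of_gt hy3)
    unfold rep
    rw [h12]
    ext v
    rfl
  have hne : (𝓝[interior (HS d)] y₀).NeBot := by
    rw [← mem_closure_iff_nhdsWithin_neBot]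
    exact HS_subset_closure_interior (mem_HS_of_target hyt)
  have h13 : Filter.Tendsto (rep (𝓡∂ (d + 1)) z₀ t.val) (𝓝[interior (HS d)] y₀)
      (𝓝 (rep (𝓡∂ (d + 1)) z₀ t.val y₀)) := hcont.mono interior_subset
  have h14 : Filter.Tendsto (rep (𝓡∂ (d + 1)) z₀ t.val) (𝓝[interior (HS d)] y₀) (𝓝 0) :=
    tendsto_const_nhds.congr' (hev.mono fun y hy => hy.symm)
  have h15 := tendsto_nhds_unique h13 h14
  rwa [hy₀, rep_self] at h15

/-- Nondegeneracy of the `L²` product against Dirichlet forms. -/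
theorem eq_zero_of_ipM_dir {q : ℕ} {v : SForm (𝓡∂ (d + 1)) Ω q}
    (h : ∀ u ∈ dirS Ω q, ipM g C u v = 0) : v = 0 := by
  apply SForm.val_injective
  funext z
  exact eq_zero_of_ipM_dir_local g C isOpen_univ (fun u hu _ => h u hu) z (mem_univ z)

end

section
variable (g : Metric (𝓡∂ (d + 1)) Ω) (C : Cover (𝓡∂ (d + 1)) Ω)

/-- Existence of the codifferential for forms supported in a chart. -/
theorem exists_cod_chart {q : ℕ} (x₀ : Ω) (v : SForm (𝓡∂ (d + 1)) Ω (q + 1))
    (hs : tsupport v.val ⊆ (extChartAt (𝓡∂ (d + 1)) x₀).source) :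
    ∃ t : SForm (𝓡∂ (d + 1)) Ω q, (∀ w ∈ dirS Ω q, ipM g C (dS w) v = ipM g C w t) ∧
      ∀ y ∈ (extChartAt (𝓡∂ (d + 1)) x₀).target,
        rep (𝓡∂ (d + 1)) x₀ t.val y = codLoc (g.gram x₀) (rep (𝓡∂ (d + 1)) x₀ v.val) y := by
  obtain ⟨χ, hχ, hχs, hχ1⟩ := exists_cutoff (d := d) (isClosed_tsupport v.val)
    (isOpen_extChartAt_source (I := 𝓡∂ (d + 1)) x₀) hs
  obtain ⟨O, hO, hT⟩ := exists_open_target (d := d) x₀
  have hG : ∀ i j, ContDiffOn ℝ ∞ (fun y => g.gram x₀ y i j) (HS d ∩ O) := by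
    intro i j
    rw [← hT]
    exact gram_contDiffOn g x₀ i j
  have hpos : ∀ y ∈ HS d ∩ O, (g.gram x₀ y).PosDef := by
    intro y hy
    rw [← hT] at hy
    exact gram_posDef g x₀ hy
  have hv : ContDiffOn ℝ ∞ (rep (𝓡∂ (d + 1)) x₀ v.val) (HS d ∩ O) := by
    rw [← hT]
    exact v.smooth x₀
  have hcod : ContDiffOn ℝ ∞ (codLoc (g.gram x₀) (rep (𝓡∂ (d + 1)) x₀ v.val))
      (extChartAt (𝓡∂ (d + 1)) x₀).target := by
    rw [hT]
    exact codLoc_contDiffOn hO hG hpos hv
  set t : SForm (𝓡∂ (d + 1)) Ω q := ⟨ofChart (I := 𝓡∂ (d + 1)) x₀ χ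
    (codLoc (g.gram x₀) (rep (𝓡∂ (d + 1)) x₀ v.val)), ofChart_smooth hχ hχs hcod⟩ with ht
  have ht1 : ∀ y ∈ (extChartAt (𝓡∂ (d + 1)) x₀).target,
      rep (𝓡∂ (d + 1)) x₀ t.val y = codLoc (g.gram x₀) (rep (𝓡∂ (d + 1)) x₀ v.val) y := by
    intro y hy
    rw [ht]
    simp only
    rw [rep_ofChart hy]
    by_cases hy2 : (extChartAt (𝓡∂ (d + 1)) x₀).symm y ∈ tsupport v.val
    · rw [(hχ1 _ hy2).self_of_nhds, one_smul]
    · have h1 := rep_eventually_zero (u := v.val) hy (by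
        filter_upwards [(isClosed_tsupport v.val).isOpen_compl.mem_nhds hy2] with z' hz'
        exact image_eq_zero_of_notMem_tsupport hz')
      rw [codLoc_congr h1 (mem_HS_of_target hy), codLoc_zero]
      exact rsz _
  refine ⟨t, fun w hw => ?_, ht1⟩
  have hts : tsupport t.val ⊆ (extChartAt (𝓡∂ (d + 1)) x₀).source := by
    refine subset_trans (closure_mono ?_) hχs
    intro z hz hχz
    apply hz
    rw [ht]
    simp only [ofChart]
    split_ifs with h
    · rw [hχz]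
      exact rzs _
    · rfl
  have h1 : tsupport (fip g (dS w).val v.val) ⊆ (extChartAt (𝓡∂ (d + 1)) x₀).source := by
    refine subset_trans (closure_mono ?_) hs
    intro z hz hvz
    exact hz (fip_zero_right g hvz)
  have h2 : tsupport (fip g w.val t.val) ⊆ (extChartAt (𝓡∂ (d + 1)) x₀).source := by
    refine subset_trans (closure_mono ?_) hts
    intro z hz hvz
    exact hz (fip_zero_right g hvz)
  unfold ipM
  rw [IntM_chart g C (fip_continuous g _ _) h1, IntM_chart g C (fip_continuous g _ _) h2]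
  have hK := isCompact_image_ext (d := d) x₀ (isClosed_tsupport v.val) hs
  have hKO : extChartAt (𝓡∂ (d + 1)) x₀ '' tsupport v.val ⊆ O := by
    refine (image_ext_subset x₀ hs).trans ?_
    rw [hT]
    exact inter_subset_right
  have hc : ∀ y ∈ HS d ∩ O, y ∉ extChartAt (𝓡∂ (d + 1)) x₀ '' tsupport v.val →
      rep (𝓡∂ (d + 1)) x₀ v.val y = 0 := by
    intro y hy hyK
    rw [← hT] at hy
    have h3 : v.val ((extChartAt (𝓡∂ (d + 1)) x₀).symm y) = 0 := by
      apply image_eq_zero_of_notMem_tsupport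
      intro h
      exact hyK ⟨_, h, (extChartAt (𝓡∂ (d + 1)) x₀).right_inv hy⟩
    unfold rep
    rw [h3]
    ext v
    rfl
  have hw1 : ContDiffOn ℝ ∞ (rep (𝓡∂ (d + 1)) x₀ w.val) (HS d ∩ O) := by
    rw [← hT]
    exact w.smooth x₀
  have hw0 : ∀ y ∈ HS d ∩ O, y 0 = 0 → wedge1 (dx 0) (rep (𝓡∂ (d + 1)) x₀ w.val y) = 0 := by
    intro y hy h0
    rw [← hT] at hy
    exact dirS_chart.1 hw x₀ y hy h0
  have h4 := local_green hO hK hKO hG hpos hw1 hv (Or.inr hc) hw0
  rw [← hT] at h4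
  have h5 : ∫ y in (extChartAt (𝓡∂ (d + 1)) x₀).target, (Real.sqrt (g.gram x₀ y).det : ℂ) *
      fip g (dS w).val v.val ((extChartAt (𝓡∂ (d + 1)) x₀).symm y) =
      ∫ y in (extChartAt (𝓡∂ (d + 1)) x₀).target, (Real.sqrt (g.gram x₀ y).det : ℂ) *
      formInner (g.gram x₀ y) (extDerivWithin (rep (𝓡∂ (d + 1)) x₀ w.val) (HS d) y)
        (rep (𝓡∂ (d + 1)) x₀ v.val y) := by
    refine setIntegral_congr_fun (measurableSet_target x₀) fun y hy => ?_
    rw [fip_rep g _ _ hy, dS_val, rep_extD w hy, range_eq_HS]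
  have h6 : ∫ y in (extChartAt (𝓡∂ (d + 1)) x₀).target, (Real.sqrt (g.gram x₀ y).det : ℂ) *
      fip g w.val t.val ((extChartAt (𝓡∂ (d + 1)) x₀).symm y) =
      ∫ y in (extChartAt (𝓡∂ (d + 1)) x₀).target, (Real.sqrt (g.gram x₀ y).det : ℂ) *
      formInner (g.gram x₀ y) (rep (𝓡∂ (d + 1)) x₀ w.val y)
        (codLoc (g.gram x₀) (rep (𝓡∂ (d + 1)) x₀ v.val) y) := by
    refine setIntegral_congr_fun (measurableSet_target x₀) fun y hy => ?_
    rw [fip_rep g _ _ hy, ht1 y hy]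
  rw [h5, h6]
  exact h4

theorem exists_cod_form {q : ℕ} (v : SForm (𝓡∂ (d + 1)) Ω (q + 1)) :
    ∃ t : SForm (𝓡∂ (d + 1)) Ω q, ∀ w ∈ dirS Ω q, ipM g C (dS w) v = ipM g C w t := by
  have h1 : ∀ i, ∃ t : SForm (𝓡∂ (d + 1)) Ω q, ∀ w ∈ dirS Ω q,
      ipM g C (dS w) (realS (C.χ i) (C.χ_smooth i) • v) = ipM g C w t := by
    intro i
    obtain ⟨t, ht, -⟩ := exists_cod_chart g C (C.c i) (realS (C.χ i) (C.χ_smooth i) • v) (by
      refine subset_trans (closure_mono ?_) (C.χ_supp i)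
      intro z hz hχ
      exact hz (smul_val_zero (by rw [realS_val, hχ, Complex.ofReal_zero])))
    exact ⟨t, ht⟩
  choose t ht using h1
  refine ⟨∑ i, t i, fun w hw => ?_⟩
  have h2 : v = ∑ i, realS (C.χ i) (C.χ_smooth i) • v := by
    rw [← Finset.sum_smul]
    have h3 : ∑ i, realS (C.χ i) (C.χ_smooth i) = (1 : SFun (𝓡∂ (d + 1)) Ω) := by
      apply SFun.val_injective
      funext z
      have h4 : ∀ s : Finset (Fin C.N), (∑ i ∈ s, realS (C.χ i) (C.χ_smooth i)).val z =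
          ∑ i ∈ s, (C.χ i z : ℂ) := by
        intro s
        classical
        induction s using Finset.induction_on with
        | empty => simp
        | insert a s ha ih =>
          rw [Finset.sum_insert ha, Finset.sum_insert ha, SFun.add_apply, ih, realS_val]
      rw [h4, ← Complex.ofReal_sum, C.χ_sum z]
      rfl
    rw [h3, one_smul]
  conv_lhs => rw [h2]
  rw [ipM_sum_right, ipM_sum_right]
  exact Finset.sum_congr rfl fun i _ => ht i w hw

/-- Uniqueness of the codifferential. -/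
theorem cod_unique {q : ℕ} {v : SForm (𝓡∂ (d + 1)) Ω (q + 1)} {t t' : SForm (𝓡∂ (d + 1)) Ω q}
    (h : ∀ w ∈ dirS Ω q, ipM g C (dS w) v = ipM g C w t)
    (h' : ∀ w ∈ dirS Ω q, ipM g C (dS w) v = ipM g C w t') : t = t' := by
  rw [← sub_eq_zero]
  refine eq_zero_of_ipM_dir g C fun u hu => ?_
  rw [ipM_sub_right, ← h u hu, ← h' u hu, sub_self]

/-- Existence of the codifferential with Green's formula. -/
theorem exists_cod (q : ℕ) : ∃ D : SForm (𝓡∂ (d + 1)) Ω (q + 1) →ₗ[ℂ] SForm (𝓡∂ (d + 1)) Ω q,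
    ∀ w ∈ dirS Ω q, ∀ v, ipM g C (dS w) v = ipM g C w (D v) := by
  choose D hD using fun v : SForm (𝓡∂ (d + 1)) Ω (q + 1) => exists_cod_form g C v
  refine ⟨⟨⟨D, fun v v' => ?_⟩, fun c v => ?_⟩, fun w hw v => hD v w hw⟩
  · refine cod_unique g C (hD (v + v')) fun w hw => ?_
    rw [ipM_add_right, ipM_add_right, hD v w hw, hD v' w hw]
  · refine cod_unique g C (hD (c • v)) fun w hw => ?_
    rw [RingHom.id_apply, ipM_smul_right, ipM_smul_right, hD v w hw]

/-- The codifferential. -/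
def cod {q : ℕ} : SForm (𝓡∂ (d + 1)) Ω (q + 1) →ₗ[ℂ] SForm (𝓡∂ (d + 1)) Ω q :=
  (exists_cod g C q).choose

theorem green {q : ℕ} {w : SForm (𝓡∂ (d + 1)) Ω q} (hw : w ∈ dirS Ω q)
    (v : SForm (𝓡∂ (d + 1)) Ω (q + 1)) : ipM g C (dS w) v = ipM g C w (cod g C v) :=
  (exists_cod g C q).choose_spec w hw v

theorem cod_val_add {q : ℕ} (v v' : SForm (𝓡∂ (d + 1)) Ω (q + 1)) (z : Ω) :
    (cod g C (v + v')).val z = (cod g C v).val z + (cod g C v').val z := by
  rw [map_add]
  rfl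

/-- The codifferential is local. -/
theorem cod_local {q : ℕ} (v : SForm (𝓡∂ (d + 1)) Ω (q + 1)) {U : Set Ω} (hU : IsOpen U)
    (h : ∀ z ∈ U, v.val z = 0) : ∀ z ∈ U, (cod g C v).val z = 0 := by
  refine eq_zero_of_ipM_dir_local g C hU fun u hu hus => ?_
  rw [← green g C hu]
  unfold ipM
  have : fip g (dS u).val v.val = 0 := by
    funext z
    by_cases hz : z ∈ U
    · exact fip_zero_right g (h z hz)
    · exact fip_zero_left g (dS_zero_of_notMem fun h' => hz (hus h'))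
  rw [this, IntM_zero]

/-- The codifferential in charts. -/
theorem rep_cod {q : ℕ} (v : SForm (𝓡∂ (d + 1)) Ω (q + 1)) (x₀ : Ω) {y : Eu (d + 1)}
    (hy : y ∈ (extChartAt (𝓡∂ (d + 1)) x₀).target) :
    rep (𝓡∂ (d + 1)) x₀ (cod g C v).val y = codLoc (g.gram x₀) (rep (𝓡∂ (d + 1)) x₀ v.val) y := by
  have hzs := (extChartAt (𝓡∂ (d + 1)) x₀).map_target hy
  obtain ⟨χ, hχ, hχs, hχ1⟩ := exists_cutoff (d := d) (isClosed_singleton (x :=
    (extChartAt (𝓡∂ (d + 1)) x₀).symm y)) (isOpen_extChartAt_source (I := 𝓡∂ (d + 1)) x₀)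
    (singleton_subset_iff.2 hzs)
  set v₁ := realS χ hχ • v with hv₁
  have hs1 : tsupport v₁.val ⊆ (extChartAt (𝓡∂ (d + 1)) x₀).source := by
    refine subset_trans (closure_mono ?_) hχs
    intro z hz hχz
    exact hz (smul_val_zero (by rw [realS_val, hχz, Complex.ofReal_zero]))
  obtain ⟨t, ht, ht1⟩ := exists_cod_chart g C x₀ v₁ hs1
  have h1 : cod g C v₁ = t := cod_unique g C (fun w hw => green g C hw v₁) ht
  have h2 : ∀ᶠ z in 𝓝 ((extChartAt (𝓡∂ (d + 1)) x₀).symm y), (v - v₁).val z = 0 := by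
    filter_upwards [hχ1 _ (mem_singleton _)] with z hz
    rw [SForm.sub_apply, hv₁, SForm.smul_apply, realS_val, hz, Complex.ofReal_one]
    rw [sub_eq_zero]
    exact (one_smul ℂ _).symm
  obtain ⟨U, hUsub, hU, hyU⟩ := mem_nhds_iff.1 h2
  have h3 := cod_local g C (v - v₁) hU (fun z hz => hUsub hz) _ hyU
  have h4 : v = v₁ + (v - v₁) := by abel
  have h5 : (cod g C v).val ((extChartAt (𝓡∂ (d + 1)) x₀).symm y) =
      t.val ((extChartAt (𝓡∂ (d + 1)) x₀).symm y) := by
    rw [h4, cod_val_add, h3, add_zero, h1]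
  have h6 : rep (𝓡∂ (d + 1)) x₀ (cod g C v).val y = rep (𝓡∂ (d + 1)) x₀ t.val y := by
    unfold rep
    rw [h5]
  rw [h6, ht1 y hy]
  refine codLoc_congr ?_ (mem_HS_of_target hy)
  have h7 := rep_eventually_zero (u := (v - v₁).val) hy h2
  filter_upwards [h7] with y' hy'
  have h8 : rep (𝓡∂ (d + 1)) x₀ v.val y' = rep (𝓡∂ (d + 1)) x₀ v₁.val y' +
      rep (𝓡∂ (d + 1)) x₀ (v - v₁).val y' := by
    conv_lhs => rw [h4]
    rfl
  rw [h8, hy', add_zero]

end

section
variable (g : Metric (𝓡∂ (d + 1)) Ω) (C : Cover (𝓡∂ (d + 1)) Ω)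

theorem interior_target_subset_pos {x₀ : Ω} {y : Eu (d + 1)}
    (hy : y ∈ interior (extChartAt (𝓡∂ (d + 1)) x₀).target) : 0 < y 0 := by
  obtain ⟨O, hO, hT⟩ := exists_open_target (d := d) x₀
  rw [hT, interior_inter, interior_HS] at hy
  exact hy.1

theorem wedge1_zero {n q : ℕ} (α : Eu n →L[ℝ] ℂ) : wedge1 α (0 : Alt (Eu n) q) = 0 := by
  unfold wedge1
  ext v
  simp [ContinuousAlternatingMap.alternatizeUncurryFin_apply]

/-- Green's formula against test forms in a chart. -/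
theorem green_test {q : ℕ} (v : SForm (𝓡∂ (d + 1)) Ω (q + 1)) (x₀ : Ω)
    {φ : Eu (d + 1) → Alt (Eu (d + 1)) q} (hφ : ContDiff ℝ ∞ φ) (hc : HasCompactSupport φ)
    (hs : tsupport φ ⊆ interior (extChartAt (𝓡∂ (d + 1)) x₀).target) :
    ∫ y, (Real.sqrt (g.gram x₀ y).det : ℂ) * formInner (g.gram x₀ y) (extDeriv φ y)
      (rep (𝓡∂ (d + 1)) x₀ v.val y) =
    ∫ y, (Real.sqrt (g.gram x₀ y).det : ℂ) * formInner (g.gram x₀ y) (φ y)
      (rep (𝓡∂ (d + 1)) x₀ (cod g C v).val y) := by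
  obtain ⟨O, hO, hT⟩ := exists_open_target (d := d) x₀
  have hG : ∀ i j, ContDiffOn ℝ ∞ (fun y => g.gram x₀ y i j) (HS d ∩ O) := by
    intro i j
    rw [← hT]
    exact gram_contDiffOn g x₀ i j
  have hpos : ∀ y ∈ HS d ∩ O, (g.gram x₀ y).PosDef := by
    intro y hy
    rw [← hT] at hy
    exact gram_posDef g x₀ hy
  have hv : ContDiffOn ℝ ∞ (rep (𝓡∂ (d + 1)) x₀ v.val) (HS d ∩ O) := by
    rw [← hT]
    exact v.smooth x₀
  have hst : tsupport φ ⊆ (extChartAt (𝓡∂ (d + 1)) x₀).target := hs.trans interior_subset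
  have hKO : tsupport φ ⊆ O := by
    refine hst.trans ?_
    rw [hT]
    exact inter_subset_right
  have h1 := local_green hO hc hKO hG hpos hφ.contDiffOn hv
    (Or.inl fun y _ hy => image_eq_zero_of_notMem_tsupport hy) (by
      intro y hy h0
      have : φ y = 0 := by
        apply image_eq_zero_of_notMem_tsupport
        intro h
        have := interior_target_subset_pos (hs h)
        linarith
      rw [this, wedge1_zero])
  rw [← hT] at h1
  have h2 : ∫ y, (Real.sqrt (g.gram x₀ y).det : ℂ) * formInner (g.gram x₀ y) (extDeriv φ y)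
      (rep (𝓡∂ (d + 1)) x₀ v.val y) = ∫ y in (extChartAt (𝓡∂ (d + 1)) x₀).target,
      (Real.sqrt (g.gram x₀ y).det : ℂ) *
      formInner (g.gram x₀ y) (extDerivWithin φ (HS d) y) (rep (𝓡∂ (d + 1)) x₀ v.val y) := by
    rw [← setIntegral_eq_integral_of_forall_compl_eq_zero
      (s := (extChartAt (𝓡∂ (d + 1)) x₀).target)]
    · refine setIntegral_congr_fun (measurableSet_target x₀) fun y hy => ?_
      have h3 : extDerivWithin φ (HS d) y = extDeriv φ y := by
        unfold extDerivWithin extDeriv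
        rw [(hφ.differentiable (by simp) y).fderivWithin
          (uniqueDiffOn_HS y (mem_HS_of_target hy))]
      rw [h3]
    · intro y hy
      have h3 : extDeriv φ y = 0 := by
        have h4 : φ =ᶠ[𝓝 y] fun _ => (0 : Alt (Eu (d + 1)) q) := by
          filter_upwards [(isClosed_tsupport φ).isOpen_compl.mem_nhds fun h => hy (hst h)]
            with y' hy'
          exact image_eq_zero_of_notMem_tsupport hy'
        unfold extDeriv
        rw [h4.fderiv_eq]
        ext v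
        simp [ContinuousAlternatingMap.alternatizeUncurryFin_apply]
      rw [h3, formInner_zero_left, mul_zero]
  have h3 : ∫ y, (Real.sqrt (g.gram x₀ y).det : ℂ) * formInner (g.gram x₀ y) (φ y)
      (rep (𝓡∂ (d + 1)) x₀ (cod g C v).val y) = ∫ y in (extChartAt (𝓡∂ (d + 1)) x₀).target,
      (Real.sqrt (g.gram x₀ y).det : ℂ) * formInner (g.gram x₀ y) (φ y)
        (codLoc (g.gram x₀) (rep (𝓡∂ (d + 1)) x₀ v.val) y) := by
    rw [← setIntegral_eq_integral_of_forall_compl_eq_zero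
      (s := (extChartAt (𝓡∂ (d + 1)) x₀).target)]
    · refine setIntegral_congr_fun (measurableSet_target x₀) fun y hy => ?_
      rw [rep_cod g C v x₀ hy]
    · intro y hy
      have h4 : φ y = 0 := image_eq_zero_of_notMem_tsupport fun h => hy (hst h)
      rw [h4, formInner_zero_left, mul_zero]
  rw [h2, h3]
  exact h1

/-! ### The fundamental lemma of the calculus of variations -/

section
variable {n : ℕ} {U : Set (Eu n)} {G : Eu n → Matrix (Fin n) (Fin n) ℝ}

theorem contDiff_of_tsupp {q : ℕ} {φ : Eu n → Alt (Eu n) q}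
    (h : ∀ y ∈ tsupport φ, ContDiffAt ℝ ∞ φ y) : ContDiff ℝ ∞ φ := by
  rw [contDiff_iff_contDiffAt]
  intro y
  by_cases hy : y ∈ tsupport φ
  · exact h y hy
  · have h4 : φ =ᶠ[𝓝 y] fun _ => (0 : Alt (Eu n) q) := by
      filter_upwards [(isClosed_tsupport φ).isOpen_compl.mem_nhds hy] with y' hy'
      exact image_eq_zero_of_notMem_tsupport hy'
    exact contDiffAt_const.congr_of_eventuallyEq h4

theorem test_continuous {q : ℕ} (hU : IsOpen U)
    (hG : ∀ i j, ContDiffOn ℝ ∞ (fun y => G y i j) U) (hpos : ∀ y ∈ U, (G y).PosDef)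
    {φ w : Eu n → Alt (Eu n) q} (hφ : ContDiff ℝ ∞ φ) (hs : tsupport φ ⊆ U)
    (hw : ContDiffOn ℝ ∞ w U) : Continuous fun y =>
      (Real.sqrt (G y).det : ℂ) * formInner (G y) (φ y) (w y) := by
  refine ContinuousOn.continuous_of_tsupport_subset (s := U) ?_ hU ?_
  · refine ContinuousOn.mul ?_ ?_
    · refine Complex.continuous_ofReal.comp_continuousOn
        (Real.continuous_sqrt.comp_continuousOn ?_)
      simp only [Matrix.det_apply]
      refine continuousOn_finsetSum _ fun σ _ => ContinuousOn.const_smul ?_ _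
      exact continuousOn_finsetProd _ fun k _ => (hG _ _).continuousOn
    · exact ContDiffOn.continuousOn (𝕜 := ℝ) (n := ∞)
        (formInner_contDiffOn hG hpos hφ.contDiffOn hw)
  · refine subset_trans (closure_mono ?_) hs
    intro y hy hφy
    apply hy
    beta_reduce
    rw [hφy, formInner_zero_left, mul_zero]

theorem test_integrable {q : ℕ} (hU : IsOpen U)
    (hG : ∀ i j, ContDiffOn ℝ ∞ (fun y => G y i j) U) (hpos : ∀ y ∈ U, (G y).PosDef)
    {φ w : Eu n → Alt (Eu n) q} (hφ : ContDiff ℝ ∞ φ) (hc : HasCompactSupport φ)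
    (hs : tsupport φ ⊆ U) (hw : ContDiffOn ℝ ∞ w U) : Integrable fun y =>
      (Real.sqrt (G y).det : ℂ) * formInner (G y) (φ y) (w y) := by
  refine (test_continuous hU hG hpos hφ hs hw).integrable_of_hasCompactSupport ?_
  refine hc.mono ?_
  intro y hy hφy
  apply hy
  beta_reduce
  rw [hφy, formInner_zero_left, mul_zero]

theorem fund_lemma {q : ℕ} (hU : IsOpen U)
    (hG : ∀ i j, ContDiffOn ℝ ∞ (fun y => G y i j) U) (hpos : ∀ y ∈ U, (G y).PosDef)
    {s : Eu n → Alt (Eu n) q} (hs : ContDiffOn ℝ ∞ s U)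
    (h : ∀ φ : Eu n → Alt (Eu n) q, ContDiff ℝ ∞ φ → HasCompactSupport φ → tsupport φ ⊆ U →
      ∫ y, (Real.sqrt (G y).det : ℂ) * formInner (G y) (φ y) (s y) = 0) :
    ∀ y ∈ U, s y = 0 := by
  intro y₁ hy₁
  obtain ⟨ε, hε, hball⟩ := Metric.isOpen_iff.1 hU y₁ hy₁
  let f : ContDiffBump y₁ := ⟨ε / 4, ε / 2, by linarith, by linarith⟩
  have hfs : tsupport f ⊆ U := by
    rw [f.tsupport_eq]
    refine (Metric.closedBall_subset_ball ?_).trans hball
    show ε / 2 < ε
    linarith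
  have hf0 : ∀ y, y ∉ U → f y = 0 := by
    intro y hy
    by_contra hne
    exact hy (hfs (subset_tsupport _ hne))
  set φ : Eu n → Alt (Eu n) q := fun y => f y • s y with hφ
  have hφ0 : ∀ y, f y = 0 → φ y = 0 := by
    intro y hy
    rw [hφ]
    beta_reduce
    rw [hy]
    exact rzs _
  have hφs : tsupport φ ⊆ tsupport f := closure_mono fun y hy hf => hy (hφ0 y hf)
  have hφc : HasCompactSupport φ := f.hasCompactSupport.mono fun y hy hf => hy (hφ0 y hf)
  have hφd : ContDiff ℝ ∞ φ := by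
    refine contDiff_of_tsupp fun y hy => ?_
    have hy2 := hfs (hφs hy)
    exact (f.contDiff.contDiffAt).smul (hs.contDiffAt (hU.mem_nhds hy2))
  have h2 := h φ hφd hφc (hφs.trans hfs)
  have hcont := test_continuous hU hG hpos hφd (hφs.trans hfs) hs
  have hint := test_integrable hU hG hpos hφd hφc (hφs.trans hfs) hs
  set r : Eu n → ℝ := fun y => Real.sqrt (G y).det * (f y *
    (formInner (G y) (s y) (s y)).re) with hr
  have hr1 : ∀ y, (Real.sqrt (G y).det : ℂ) * formInner (G y) (φ y) (s y) = ((r y : ℝ) : ℂ) := by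
    intro y
    by_cases hy : y ∈ U
    · have h5 := formInner_self_im (G y) (hpos y hy) (s y)
      have h6 : formInner (G y) (φ y) (s y) = (f y : ℂ) * formInner (G y) (s y) (s y) := by
        have h7 : φ y = (f y : ℂ) • s y := by
          ext v
          rfl
        rw [h7, formInner_smul_left]
      rw [h6, hr]
      apply Complex.ext
      · simp
      · simp [h5]
    · rw [hφ0 y (hf0 y hy), formInner_zero_left, hr]
      simp [hf0 y hy]
  have hr0 : ∀ y, 0 ≤ r y := by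
    intro y
    by_cases hy : y ∈ U
    · exact mul_nonneg (Real.sqrt_nonneg _) (mul_nonneg f.nonneg
        (formInner_self_nonneg _ (hpos y hy) _))
    · rw [hr]
      simp [hf0 y hy]
  have hrc : Continuous r := by
    have h8 := Complex.continuous_re.comp hcont
    refine h8.congr fun y => ?_
    simp only [Function.comp]
    rw [hr1, Complex.ofReal_re]
  have hri : ∫ y, r y = 0 := by
    rw [integral_congr_ae (Filter.Eventually.of_forall hr1), integral_complex_ofReal] at h2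
    exact_mod_cast h2
  have hrint : Integrable r := by
    have := hint.re
    refine this.congr (Filter.Eventually.of_forall fun y => ?_)
    simp only
    rw [hr1]
    simp
  have hr2 : r = 0 := by
    have h9 := (integral_eq_zero_iff_of_nonneg hr0 hrint).1 hri
    exact (Continuous.ae_eq_iff_eq volume hrc continuous_const).1 h9
  have hr3 : r y₁ = 0 := congrFun hr2 y₁
  have hf1 : f y₁ = 1 := f.one_of_mem_closedBall (Metric.mem_closedBall_self f.rIn_pos.le)
  rw [hr] at hr3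
  beta_reduce at hr3
  rw [hf1, one_mul] at hr3
  have hρ : Real.sqrt (G y₁).det ≠ 0 := (Real.sqrt_pos.2 (hpos y₁ hy₁).det_pos).ne'
  have h10 := (mul_eq_zero.1 hr3).resolve_left hρ
  have h11 : formInner (G y₁) (s y₁) (s y₁) = 0 :=
    Complex.ext h10 (formInner_self_im _ (hpos y₁ hy₁) _)
  exact formInner_definite _ (hpos y₁ hy₁) _ h11

end

/-- Comparison with the definition by duality in charts. -/
theorem isCodiff_iff {q : ℕ} (v : SForm (𝓡∂ (d + 1)) Ω (q + 1)) (t : SForm (𝓡∂ (d + 1)) Ω q) :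
    IsCodiff g v.val t.val ↔ t = cod g C v := by
  constructor
  · intro h
    apply SForm.val_injective
    funext x₀
    have hG : ∀ i j, ContDiffOn ℝ ∞ (fun y => g.gram x₀ y i j)
        (interior (extChartAt (𝓡∂ (d + 1)) x₀).target) := fun i j =>
      (gram_contDiffOn g x₀ i j).mono interior_subset
    have hpos : ∀ y ∈ interior (extChartAt (𝓡∂ (d + 1)) x₀).target, (g.gram x₀ y).PosDef :=
      fun y hy => gram_posDef g x₀ (interior_subset hy)
    have hw : ∀ w : SForm (𝓡∂ (d + 1)) Ω q, ContDiffOn ℝ ∞ (rep (𝓡∂ (d + 1)) x₀ w.val)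
        (interior (extChartAt (𝓡∂ (d + 1)) x₀).target) := fun w =>
      (w.smooth x₀).mono interior_subset
    have hEq : EqOn (rep (𝓡∂ (d + 1)) x₀ t.val) (rep (𝓡∂ (d + 1)) x₀ (cod g C v).val)
        (interior (extChartAt (𝓡∂ (d + 1)) x₀).target) := by
      have h0 := fund_lemma isOpen_interior hG hpos
        (hw (t - cod g C v)) (by
          intro φ hφ hφc hφs
          have h1 := h x₀ φ hφ hφc hφs
          rw [green_test g C v x₀ hφ hφc hφs] at h1
          have h3 : ∀ y, (Real.sqrt (g.gram x₀ y).det : ℂ) * formInner (g.gram x₀ y) (φ y)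
              (rep (𝓡∂ (d + 1)) x₀ t.val y) = (Real.sqrt (g.gram x₀ y).det : ℂ) *
              formInner (g.gram x₀ y) (φ y) (rep (𝓡∂ (d + 1)) x₀ (t - cod g C v).val y) +
              (Real.sqrt (g.gram x₀ y).det : ℂ) *
              formInner (g.gram x₀ y) (φ y) (rep (𝓡∂ (d + 1)) x₀ (cod g C v).val y) := by
            intro y
            rw [← mul_add, ← formInner_add_right']
            congr 2
            have h4 : t = (t - cod g C v) + cod g C v := by abel
            conv_lhs => rw [h4]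
            rfl
          rw [integral_congr_ae (Filter.Eventually.of_forall h3),
            integral_add (test_integrable isOpen_interior hG hpos hφ hφc hφs (hw _))
            (test_integrable isOpen_interior hG hpos hφ hφc hφs (hw _))] at h1
          exact right_eq_add.1 h1)
      intro y hy
      have h13 : rep (𝓡∂ (d + 1)) x₀ (t - cod g C v).val y = rep (𝓡∂ (d + 1)) x₀ t.val y -
          rep (𝓡∂ (d + 1)) x₀ (cod g C v).val y := rfl
      have h12 := h0 y hy
      rw [h13, sub_eq_zero] at h12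
      exact h12
    have h14 := hEq.of_subset_closure (t.smooth x₀).continuousOn
      ((cod g C v).smooth x₀).continuousOn interior_subset (target_subset_closure_interior x₀)
    have h15 := h14 (mem_extChartAt_target x₀)
    rwa [rep_self, rep_self] at h15
  · rintro rfl x₀ φ hφ hc hs
    exact green_test g C v x₀ hφ hc hs

end

end DtN
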