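import Mathlib
import Pool.Agent.H56.DtN.Words

/-!
MODULE K : the abstract core. Everything here is algebra with seminorms.
-/

set_option linter.unusedSectionVars false

noncomputable section

namespace DtN

/-- Abstract data: graded modules `M i` over the commutative `ℂ`-algebra `R`, a type `T` of
tangential fields, a finite family `X` of fields. -/
structure CoreData (R : Type*) [CommRing R] [Algebra ℂ R] (M : ℕ → Type*)
    [∀ i, AddCommGroup (M i)] [∀ i, Module ℂ (M i)] [∀ i, Module R (M i)]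
    [∀ i, IsScalarTower ℂ R (M i)] (T : Type*) (m : ℕ) where
  /-- `L²` norms -/
  N : ∀ i, Seminorm ℂ (M i)
  derT : T → R →ₗ[ℂ] R
  derX : Fin m → R →ₗ[ℂ] R
  LT : T → ∀ i, M i →ₗ[ℂ] M i
  LX : Fin m → ∀ i, M i →ₗ[ℂ] M i
  d : ∀ i, M i →ₗ[ℂ] M (i + 1)
  δ : ∀ i, M (i + 1) →ₗ[ℂ] M i
  /-- Dirichlet forms -/
  Z : ∀ i, Submodule R (M i)
  bounded : ∀ i j (Q : M i →ₗ[R] M j), ∃ C : ℝ, ∀ w, N j (Q w) ≤ C * N i w
  LT_smul : ∀ V i (b : R) (w : M i), LT V i (b • w) = derT V b • w + b • LT V i w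
  LX_smul : ∀ a i (b : R) (w : M i), LX a i (b • w) = derX a b • w + b • LX a i w
  LT_d : ∀ V i (w : M i), LT V (i + 1) (d i w) = d i (LT V i w)
  dd : ∀ i (w : M i), d (i + 1) (d i w) = 0
  LT_Z : ∀ V i, ∀ w ∈ Z i, LT V i w ∈ Z i
  d_Z : ∀ i, ∀ w ∈ Z i, d i w ∈ Z (i + 1)
  span_T : ∀ V, ∃ v : Fin m → R, ∀ b, derT V b = ∑ a, v a * derX a b
  comm : ∀ V a, ∃ c : Fin m → R, ∀ b,
    derT V (derX a b) - derX a (derT V b) = ∑ a', c a' * derX a' b
  d_FO : ∀ i, ∃ Q : Fin m → (M i →ₗ[R] M (i + 1)), ∀ (b : R) (w : M i),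
    d i (b • w) - b • d i w = ∑ a, derX a b • Q a w
  δ_FO : ∀ i, ∃ Q : Fin m → (M (i + 1) →ₗ[R] M i), ∀ (b : R) (w : M (i + 1)),
    δ i (b • w) - b • δ i w = ∑ a, derX a b • Q a w
  gaffney : ∀ i a, ∃ C : ℝ, ∀ w ∈ Z (i + 1),
    N (i + 1) (LX a (i + 1) w) ≤ C * (N (i + 2) (d (i + 1) w) + N i (δ i w) + N (i + 1) w)
  /-- the class of bounded pairings -/
  P : ∀ i, Set (M i →+ M i →+ ℂ)
  ip : ∀ i, M i →+ M i →+ ℂ
  ip_mem : ∀ i, ip i ∈ P i
  ip_self : ∀ i (w : M i), ip i w w = ((N i w ^ 2 : ℝ) : ℂ)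
  P_neg : ∀ i, ∀ β ∈ P i, -β ∈ P i
  P_bdd : ∀ i, ∀ β ∈ P i, ∃ C : ℝ, ∀ v w, ‖β v w‖ ≤ C * N i v * N i w
  P_der : ∀ i V, ∀ β ∈ P i, ∃ β' ∈ P i, ∀ v w, β' v w = β (LT V i v) w + β v (LT V i w)

namespace CoreData

variable {R : Type*} [CommRing R] [Algebra ℂ R] {M : ℕ → Type*}
    [∀ i, AddCommGroup (M i)] [∀ i, Module ℂ (M i)] [∀ i, Module R (M i)]
    [∀ i, IsScalarTower ℂ R (M i)] {T : Type*} {m : ℕ} (D : CoreData R M T m)

/-- Action of a letter. -/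
def act (i : ℕ) : R ⊕ T → (M i →ₗ[ℂ] M i)
  | Sum.inl b => LinearMap.lsmul R (M i) b |>.restrictScalars ℂ
  | Sum.inr V => D.LT V i

/-- Action of a word. -/
def wact (i : ℕ) : List (R ⊕ T) → (M i →ₗ[ℂ] M i)
  | [] => LinearMap.id
  | l :: W => D.act i l ∘ₗ wact i W

/-- Iterated commutators. -/
def ad {i j : ℕ} (F : M i →ₗ[ℂ] M j) : List (R ⊕ T) → (M i →ₗ[ℂ] M j)
  | [] => F
  | l :: K => D.act j l ∘ₗ ad F K - ad F K ∘ₗ D.act i l

/-- Number of function letters. -/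
def beta (K : List (R ⊕ T)) : ℕ := K.countP Sum.isLeft

/-- First order operators. -/
def FO {i j : ℕ} (P : M i →ₗ[ℂ] M j) : Prop :=
  ∃ Q : Fin m → (M i →ₗ[R] M j), ∀ (b : R) (w : M i),
    P (b • w) - b • P w = ∑ a, D.derX a b • Q a w

/-- Properties of the map `F u = d (solution with boundary values of u)`. -/
structure IsF (k : ℕ) (F : M k →ₗ[ℂ] M (k + 1)) : Prop where
  F_Z : ∀ u ∈ D.Z k, F u = 0
  F_sub : ∀ u, ∃ φ ∈ D.Z k, F u = D.d k (u + φ)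
  F_perp : ∀ u, ∀ φ ∈ D.Z k, D.ip (k + 1) (F u) (D.d k φ) = 0
  F_closed : ∀ u, D.d (k + 1) (F u) = 0
  F_coclosed : ∀ u, D.δ k (F u) = 0

/-- Test functions: `St` plays the role of smooth functions on `ℝ ^ n`, `E s` is their
composition with the map `b = (b_1, .., b_n)`, `p r` is the `C^r` norm. -/
structure Test (St : Type*) (n : ℕ) where
  E : St → R
  par : Fin n → St → St
  b : Fin n → R
  p : ℕ → St → ℝ
  derT_E : ∀ V s, D.derT V (E s) = ∑ j, D.derT V (b j) * E (par j s)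
  derX_E : ∀ a s, D.derX a (E s) = ∑ j, D.derX a (b j) * E (par j s)
  N_E : ∀ i s (w : M i), D.N i (E s • w) ≤ p 0 s * D.N i w
  p_par : ∀ r j s, p r (par j s) ≤ p (r + 1) s
  p_mono : ∀ r s, p r s ≤ p (r + 1) s
  p_nonneg : ∀ r s, 0 ≤ p r s
  /-- exponentials -/
  e : (Fin n → ℝ) → St
  E_par_e : ∀ j ξ, E (par j (e ξ)) = (2 * Real.pi * ξ j * Complex.I : ℂ) • E (e ξ)
  p_e : ∀ r, ∃ C : ℝ, ∀ ξ, p r (e ξ) ≤ C * (1 + ‖ξ‖) ^ r

/-! ### Translation to the engine in `Pool.Agent.H56.DtN` -/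

/-- the calculus of the engine -/
def toCalc : Pool.Agent.H56.DtN.Calc R T (Fin m) M where
  dT V b := D.derT V b
  L := D.LT
  L_smul := D.LT_smul
  X a b := D.derX a b
  spanT V := by
    obtain ⟨v, hv⟩ := D.span_T V
    exact ⟨v, fun b => by rw [hv]; exact Finset.sum_congr rfl fun a _ => mul_comm _ _⟩
  spanC V a := by
    obtain ⟨v, hv⟩ := D.comm V a
    exact ⟨v, fun b => by rw [hv]; exact Finset.sum_congr rfl fun a _ => mul_comm _ _⟩

/-- letters of the engine -/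
def cv : R ⊕ T → Pool.Agent.H56.DtN.Letter R T
  | Sum.inl b => Pool.Agent.H56.DtN.Letter.fn b
  | Sum.inr V => Pool.Agent.H56.DtN.Letter.vf V

lemma act_cv (i : ℕ) (l : R ⊕ T) : D.toCalc.act (cv l) i = D.act i l := by
  cases l <;> rfl

lemma ad_cv {i j : ℕ} (F : M i →ₗ[ℂ] M j) (K : List (R ⊕ T)) :
    D.toCalc.adK F (K.map cv) = D.ad F K := by
  induction K with
  | nil => rfl
  | cons l K ih =>
    rw [List.map_cons, Pool.Agent.H56.DtN.Calc.adK_cons, ih]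
    show D.toCalc.act (cv l) j ∘ₗ _ - _ ∘ₗ D.toCalc.act (cv l) i = _
    rw [act_cv, act_cv]; rfl

lemma wact_cv (i : ℕ) (W : List (R ⊕ T)) : D.toCalc.wa i (W.map cv) = D.wact i W := by
  induction W with
  | nil => rfl
  | cons l W ih =>
    show D.toCalc.act (cv l) i ∘ₗ D.toCalc.wa i (W.map cv) = _
    rw [act_cv, ih]; rfl

lemma cnt_cv (K : List (R ⊕ T)) : Pool.Agent.H56.DtN.cnt (K.map cv) = beta K := by
  induction K with
  | nil => rfl
  | cons l K ih =>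
    cases l with
    | inl b =>
      show Pool.Agent.H56.DtN.cnt (K.map cv) + 1 = _
      rw [ih]; simp [beta, List.countP_cons]
    | inr V =>
      show Pool.Agent.H56.DtN.cnt (K.map cv) = _
      rw [ih]; simp [beta, List.countP_cons]

lemma FO_cv {i j : ℕ} {P : M i →ₗ[ℂ] M j}
    (hP : ∃ Q : Fin m → (M i →ₗ[R] M j), ∀ (b : R) (w : M i),
      P (b • w) - b • P w = ∑ a, D.derX a b • Q a w) : D.toCalc.FO P := by
  obtain ⟨Q, hQ⟩ := hP
  refine ⟨fun a => (Q a).restrictScalars ℂ, fun a b w => ?_, fun b w => ?_⟩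
  · exact (Q a).map_smul b w
  · have := hQ b w
    rw [sub_eq_iff_eq_add'] at this
    exact this

/-- an R-linear map from the property -/
def ofRL {i j : ℕ} (P : M i →ₗ[ℂ] M j) (h : Pool.Agent.H56.DtN.RL R P) : M i →ₗ[R] M j where
  toFun := P
  map_add' := P.map_add
  map_smul' b w := h b w

lemma bounded_RL {i j : ℕ} (P : M i →ₗ[ℂ] M j) (h : Pool.Agent.H56.DtN.RL R P) :
    ∃ C : ℝ, ∀ w, D.N j (P w) ≤ C * D.N i w := D.bounded i j (ofRL P h)

lemma bounded_RL' {i j : ℕ} (P : M i →ₗ[ℂ] M j) (h : Pool.Agent.H56.DtN.RL R P) :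
    ∃ C : ℝ, 0 ≤ C ∧ ∀ w, D.N j (P w) ≤ C * D.N i w := by
  obtain ⟨C, hC⟩ := D.bounded_RL P h
  refine ⟨|C|, abs_nonneg _, fun w => (hC w).trans ?_⟩
  exact mul_le_mul_of_nonneg_right (le_abs_self _) (apply_nonneg _ _)

lemma gaffney_FO (k : ℕ) {q' : ℕ} (P : M (k + 1) →ₗ[ℂ] M q') (hP : D.toCalc.FO P) :
    ∃ C : ℝ, ∀ w ∈ D.Z (k + 1),
      D.N q' (P w) ≤ C * (D.N (k + 2) (D.d (k + 1) w) + D.N k (D.δ k w) + D.N (k + 1) w) := by
  obtain ⟨Q, hQ, hP⟩ := hP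
  have h1 : ∀ a, ∃ C : ℝ, 0 ≤ C ∧ ∀ w ∈ D.Z (k + 1), D.N q' (Q a (D.LX a (k + 1) w))
      ≤ C * (D.N (k + 2) (D.d (k + 1) w) + D.N k (D.δ k w) + D.N (k + 1) w) := by
    intro a
    obtain ⟨C, hC0, hC⟩ := D.bounded_RL' (Q a) (hQ a)
    obtain ⟨C', hC'⟩ := D.gaffney k a
    refine ⟨C * |C'|, by positivity, fun w hw => ?_⟩
    have h0 : 0 ≤ D.N (k + 2) (D.d (k + 1) w) + D.N k (D.δ k w) + D.N (k + 1) w := by
      have := apply_nonneg (D.N (k + 2)) (D.d (k + 1) w)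
      have := apply_nonneg (D.N k) (D.δ k w)
      have := apply_nonneg (D.N (k + 1)) w
      positivity
    calc D.N q' (Q a (D.LX a (k + 1) w)) ≤ C * D.N (k + 1) (D.LX a (k + 1) w) := hC _
      _ ≤ C * (C' * _) := mul_le_mul_of_nonneg_left (hC' w hw) hC0
      _ ≤ C * (|C'| * _) := mul_le_mul_of_nonneg_left
          (mul_le_mul_of_nonneg_right (le_abs_self _) h0) hC0
      _ = _ := by ring
  choose C hC0 hC using h1
  have hRL : Pool.Agent.H56.DtN.RL R (P - ∑ a, Q a ∘ₗ D.LX a (k + 1)) := by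
    intro b w
    simp only [LinearMap.sub_apply, LinearMap.sum_apply, LinearMap.comp_apply, D.LX_smul,
      map_add, Finset.sum_add_distrib, hP b w]
    have h2 : ∑ a, Q a (D.derX a b • w) = ∑ a, D.toCalc.X a b • Q a w :=
      Finset.sum_congr rfl fun a _ => hQ a _ _
    have h3 : ∑ a, Q a (b • D.LX a (k + 1) w) = b • ∑ a, Q a (D.LX a (k + 1) w) := by
      rw [Finset.smul_sum]
      exact Finset.sum_congr rfl fun a _ => hQ a _ _
    rw [h2, h3, smul_sub]; abel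
  obtain ⟨C', hC'0, hC'⟩ := D.bounded_RL' _ hRL
  refine ⟨C' + ∑ a, C a, fun w hw => ?_⟩
  have h4 : P w = (P - ∑ a, Q a ∘ₗ D.LX a (k + 1)) w + ∑ a, Q a (D.LX a (k + 1) w) := by
    simp only [LinearMap.sub_apply, LinearMap.sum_apply, LinearMap.comp_apply, sub_add_cancel]
  have hd := apply_nonneg (D.N (k + 2)) (D.d (k + 1) w)
  have hδ := apply_nonneg (D.N k) (D.δ k w)
  have hw0 := apply_nonneg (D.N (k + 1)) w
  have hsum : D.N q' (∑ a, Q a (D.LX a (k + 1) w))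
      ≤ ∑ a, D.N q' (Q a (D.LX a (k + 1) w)) := by
    exact Finset.le_sum_of_subadditive (D.N q')
      (map_zero _).le (fun x y => map_add_le_add _ x y) _ (fun a => Q a (D.LX a (k + 1) w))
  rw [h4]
  calc D.N q' (_ + _) ≤ _ + _ := map_add_le_add _ _ _
    _ ≤ C' * D.N (k + 1) w + ∑ a, C a *
        (D.N (k + 2) (D.d (k + 1) w) + D.N k (D.δ k w) + D.N (k + 1) w) :=
        add_le_add (hC' w) (hsum.trans (Finset.sum_le_sum fun a _ => hC a w hw))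
    _ ≤ _ := by
        rw [← Finset.sum_mul, add_mul]
        refine add_le_add (mul_le_mul_of_nonneg_left ?_ hC'0) le_rfl
        linarith

/-- the system of the engine -/
def toSys {k : ℕ} {F : M k →ₗ[ℂ] M (k + 1)} (hF : D.IsF k F) :
    Pool.Agent.H56.DtN.Sys D.toCalc k where
  N := D.N
  Nlin P h := D.bounded_RL P h
  A0 q := (D.Z q).restrictScalars ℂ
  A0_smul q b w hw := (D.Z q).smul_mem b hw
  A0_L q V w hw := D.LT_Z V q w hw
  d := D.d k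
  d' := D.d (k + 1)
  δ := D.δ k
  d_FO := D.FO_cv (D.d_FO k)
  d'_FO := D.FO_cv (D.d_FO (k + 1))
  δ_FO := D.FO_cv (D.δ_FO k)
  d_L V w := D.LT_d V k w
  d_A0 w hw := D.d_Z k w hw
  F := F
  F_A0 := hF.F_Z
  F_d := hF.F_sub
  d'_F := hF.F_closed
  δ_F := hF.F_coclosed
  B := {β | ∃ β' ∈ D.P (k + 1), β = fun v w => β' v w}
  B_sub := by
    rintro β ⟨β', hβ', rfl⟩ w w' v
    show β' (w - w') v = _
    rw [map_sub]; rfl
  B_der := by
    rintro β ⟨β', hβ', rfl⟩ V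
    obtain ⟨β'', hβ'', h⟩ := D.P_der (k + 1) V β' hβ'
    exact ⟨β'', hβ'', by ext v w; exact (h v w).symm⟩
  B_bd := by
    rintro β ⟨β', hβ', rfl⟩
    exact D.P_bdd (k + 1) β' hβ'
  ip := fun v w => D.ip (k + 1) v w
  ip_mem := ⟨_, D.ip_mem (k + 1), rfl⟩
  ip_add w v v' := map_add _ _ _
  ip_self w := by
    rw [D.ip_self, Complex.norm_real, Real.norm_eq_abs, abs_of_nonneg (sq_nonneg _)]
  F_orth := hF.F_perp
  gaffney P hP := D.gaffney_FO k P hP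

/-- the test functions of the engine -/
def toTst {k : ℕ} {F : M k →ₗ[ℂ] M (k + 1)} (hF : D.IsF k F) {St : Type*} {n : ℕ}
    (t : D.Test St n) : Pool.Agent.H56.DtN.Tst (D.toSys hF) St (Fin n) where
  E := t.E
  par := t.par
  b := t.b
  pp := t.p
  E_X := t.derX_E
  E_T := t.derT_E
  N_E := t.N_E
  pp_par := t.p_par
  pp_mono := t.p_mono
  pp0 := t.p_nonneg

/-- Crude bound, for all test functions. -/
theorem crude_bound {k j : ℕ} {F : M k →ₗ[ℂ] M (k + 1)} (hF : D.IsF k F) {St : Type*} {n : ℕ}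
    (t : D.Test St n) (K W : List (R ⊕ T)) {P : M (k + 1) →ₗ[ℂ] M j} (hP : D.FO P) (U : M k) :
    ∃ C : ℝ, ∀ s : St, D.N j (P (D.wact (k + 1) W (D.ad F K (t.E s • U)))) ≤
      C * t.p (W.length + 2) s := by
  obtain ⟨C, _, hC⟩ := (D.toTst hF t).words (K.map cv) (W.map cv) P (D.FO_cv hP) U
  refine ⟨C, fun s => ?_⟩
  have h := hC s
  rw [wact_cv, List.length_map] at h
  have h2 : (D.toSys hF).FK (K.map cv) = D.ad F K := D.ad_cv F K
  rw [h2] at h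
  exact h

/-- the frequencies of the engine -/
def toFreq {k : ℕ} {F : M k →ₗ[ℂ] M (k + 1)} (hF : D.IsF k F) {St : Type*} {n : ℕ}
    (t : D.Test St n) (V : Fin n → T) (UU : Submodule R (M k))
    (hUT : ∀ V, ∀ U ∈ UU, D.LT V k U ∈ UU)
    (hdual : ∀ j l, ∀ U ∈ UU, (D.derT (V j) (t.b l) - if j = l then 1 else 0) • U ∈ D.Z k) :
    Pool.Agent.H56.DtN.Freq (D.toSys hF) (Fin n → ℝ) (Fin n) where
  co ξ j := ξ j
  nn ξ := ‖ξ‖
  nn0 ξ := norm_nonneg _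
  co_le ξ j := norm_le_pi_norm ξ j
  nn_le ξ := by
    refine (pi_norm_le_iff_of_nonneg (Finset.sum_nonneg fun j _ => abs_nonneg _)).mpr fun j => ?_
    exact Finset.single_le_sum (f := fun j => |ξ j|) (fun j _ => abs_nonneg _) (Finset.mem_univ j)
  b := t.b
  E ξ := t.E (t.e ξ)
  CE := |(t.p_e 0).choose|
  CE0 := abs_nonneg _
  E_bd q ξ w := by
    refine (t.N_E q (t.e ξ) w).trans ?_
    have h := (t.p_e 0).choose_spec ξ
    rw [pow_zero, mul_one] at h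
    exact mul_le_mul_of_nonneg_right (h.trans (le_abs_self _)) (apply_nonneg _ _)
  E_X ξ a := by
    show D.derX a (t.E (t.e ξ)) = _
    rw [t.derX_E]
    refine Finset.sum_congr rfl fun j _ => ?_
    rw [t.E_par_e, mul_smul_comm]
    congr 1
    push_cast; ring
  V := V
  UU := UU
  UU_L := hUT
  UU_A0 := hdual

/-- Sharp bound, for exponentials. `V j` are tangential fields dual to the functions `b j` on the
class `UU` of forms. -/
theorem sharp_bound {k j : ℕ} {F : M k →ₗ[ℂ] M (k + 1)} (hF : D.IsF k F) {St : Type*} {n : ℕ}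
    (t : D.Test St n) (V : Fin n → T) (UU : Submodule R (M k))
    (hUT : ∀ V, ∀ U ∈ UU, D.LT V k U ∈ UU)
    (hdual : ∀ j l, ∀ U ∈ UU, (D.derT (V j) (t.b l) - if j = l then 1 else 0) • U ∈ D.Z k)
    (K W : List (R ⊕ T)) {P : M (k + 1) →ₗ[ℂ] M j} (hP : D.FO P) {U : M k} (hU : U ∈ UU) :
    ∃ C : ℝ, ∀ ξ : Fin n → ℝ, (1 + ‖ξ‖) ^ beta K *
      D.N j (P (D.wact (k + 1) W (D.ad F K (t.E (t.e ξ) • U)))) ≤
      C * (1 + ‖ξ‖) ^ (W.length + 2) := by
  obtain ⟨C, _, hC⟩ := (D.toFreq hF t V UU hUT hdual).words (K.map cv) (W.map cv) P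
    (D.FO_cv hP) U hU
  refine ⟨C, fun ξ => ?_⟩
  have h := hC ξ
  have hpos : (0 : ℝ) < 1 + ‖ξ‖ := by positivity
  rw [wact_cv, List.length_map, cnt_cv] at h
  have h2 : (D.toSys hF).FK (K.map cv) = D.ad F K := D.ad_cv F K
  rw [h2] at h
  have h3 : (D.toFreq hF t V UU hUT hdual).br ξ = 1 + ‖ξ‖ := rfl
  rw [h3] at h
  have h4 := mul_le_mul_of_nonneg_left h (pow_nonneg hpos.le (beta K))
  refine h4.trans (le_of_eq ?_)
  rw [mul_left_comm]
  congr 1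
  rw [← zpow_natCast, ← zpow_natCast, ← zpow_add₀ hpos.ne']
  congr 1
  push_cast; ring

end CoreData

end DtN
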