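import Pool.Agent.H14.DtN.Form

/-!
Definitions for the Karpukhin Dirichlet-to-Neumann map on differential forms.
-/

open scoped Manifold ContDiff Topology ComplexConjugate FourierTransform
open Set MeasureTheory

noncomputable section

namespace DtN

/-- The Euclidean space of dimension `n`. -/
abbrev Eu (n : ℕ) := EuclideanSpace ℝ (Fin n)

section Euclid

/-- Inner product of complex valued alternating forms on `ℝ ^ n` with respect to the inner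
product with Gram matrix `G` in the standard basis:
`(1 / q!) ∑_{J, K} (∏_l G⁻¹ (J l) (K l)) u (e_J) conj (v (e_K))`. -/
def formInner {n q : ℕ} (G : Matrix (Fin n) (Fin n) ℝ) (u v : Alt (Eu n) q) : ℂ :=
  ((Nat.factorial q : ℝ)⁻¹ : ℝ) * ∑ J : Fin q → Fin n, ∑ K : Fin q → Fin n,
    ((∏ l, G⁻¹ (J l) (K l) : ℝ) : ℂ) * (u (fun l => EuclideanSpace.single (J l) 1) *
      conj (v (fun l => EuclideanSpace.single (K l) 1)))

end Euclid

section HalfSpace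

variable {n : ℕ} {H : Type*} [TopologicalSpace H] {I : ModelWithCorners ℝ (Eu n) H}
  {M : Type*} [TopologicalSpace M] [ChartedSpace H M]

/-- Gram matrix of the metric in the preferred chart at `x₀`. -/
def Metric.gram (g : Metric I M) (x₀ : M) (y : Eu n) : Matrix (Fin n) (Fin n) ℝ :=
  Matrix.of fun i j => g.val ((extChartAt I x₀).symm y)
    (dsymm I x₀ y (EuclideanSpace.single i 1)) (dsymm I x₀ y (EuclideanSpace.single j 1))

/-- `τ = δ w`: `τ` is the image of `w` under the formal adjoint of the exterior derivative: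
`(d φ, w) = (φ, τ)` for all smooth forms `φ` with compact support in the interior of a chart. -/
def IsCodiff (g : Metric I M) {q : ℕ} (w : M → Alt (Eu n) (q + 1)) (τ : M → Alt (Eu n) q) :
    Prop :=
  ∀ (x₀ : M) (φ : Eu n → Alt (Eu n) q), ContDiff ℝ ∞ φ → HasCompactSupport φ →
    tsupport φ ⊆ interior (extChartAt I x₀).target →
    ∫ y, (Real.sqrt (g.gram x₀ y).det : ℂ) * formInner (g.gram x₀ y) (extDeriv φ y)
      (rep I x₀ w y) =
    ∫ y, (Real.sqrt (g.gram x₀ y).det : ℂ) * formInner (g.gram x₀ y) (φ y) (rep I x₀ τ y)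

end HalfSpace

section DtNDef

variable {d : ℕ} {Ω : Type*} [TopologicalSpace Ω] [ChartedSpace (EuclideanHalfSpace (d + 1)) Ω]
  {S : Type*} [TopologicalSpace S] [ChartedSpace (Eu d) S]

/-- `w` is a smooth solution of `Δ w = 0`, `δ w = 0` (where `Δ = d δ + δ d`). -/
def Solves (g : Metric (𝓡∂ (d + 1)) Ω) {k : ℕ} (w : Ω → Alt (Eu (d + 1)) (k + 1)) : Prop :=
  SmoothForm (𝓡∂ (d + 1)) w ∧ IsCodiff g w 0 ∧
  ∃ (τ : Ω → Alt (Eu (d + 1)) k) (σ : Ω → Alt (Eu (d + 1)) (k + 1)),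
    SmoothForm (𝓡∂ (d + 1)) τ ∧ SmoothForm (𝓡∂ (d + 1)) σ ∧
    IsCodiff g w τ ∧ IsCodiff g (extD (𝓡∂ (d + 1)) w) σ ∧
    ∀ z, extD (𝓡∂ (d + 1)) τ z + σ z = 0

/-- `ν` is the outward unit normal along `f : S → Ω`. -/
def IsUnitNormal (g : Metric (𝓡∂ (d + 1)) Ω) (f : S → Ω) (ν : S → Eu (d + 1)) : Prop :=
  ∀ s, g.val (f s) (ν s) (ν s) = 1 ∧
    (∀ v : Eu d, g.val (f s) (ν s) (mfderiv (𝓡 d) (𝓡∂ (d + 1)) f s v) = 0) ∧ (ν s) 0 < 0

/-- `T` is Karpukhin's Dirichlet-to-Neumann operator on `(k+1)`-forms: for every smooth form `η`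
on `S` there is a solution `w` of `Δ w = 0`, `δ w = 0`, `f^* w = η`, with `T η = ν ⌟ d w`. -/
def IsDtN (g : Metric (𝓡∂ (d + 1)) Ω) (f : S → Ω) (ν : S → Eu (d + 1)) {k : ℕ}
    (T : (S → Alt (Eu d) (k + 1)) → (S → Alt (Eu d) (k + 1))) : Prop :=
  ∀ η : S → Alt (Eu d) (k + 1), SmoothForm (𝓡 d) η →
    ∃ w : Ω → Alt (Eu (d + 1)) (k + 1), Solves g w ∧ pull (𝓡∂ (d + 1)) (𝓡 d) f w = η ∧
      T η = fun s => ((extD (𝓡∂ (d + 1)) w (f s)).curryLeft (ν s)).compContinuousLinearMap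
        (mfderiv (𝓡 d) (𝓡∂ (d + 1)) f s)

end DtNDef

section PsiDO

variable {d : ℕ} {S : Type*} [TopologicalSpace S] [ChartedSpace (Eu d) S]

/-- Symbols of order `m`. -/
def IsSymbol {W : Type*} [NormedAddCommGroup W] [NormedSpace ℝ W] (m : ℝ)
    (a : Eu d → Eu d → W) : Prop :=
  ContDiff ℝ ∞ (fun p : Eu d × Eu d => a p.1 p.2) ∧
  ∀ j k : ℕ, ∃ C : ℝ, ∀ x ξ : Eu d,
    ‖iteratedFDeriv ℝ k (fun x' => iteratedFDeriv ℝ j (a x') ξ) x‖ ≤ C * (1 + ‖ξ‖) ^ (m - j)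

/-- A smooth function with compact support in `U`. -/
def IsCutoff (U : Set (Eu d)) (φ : Eu d → ℂ) : Prop :=
  ContDiff ℝ ∞ φ ∧ HasCompactSupport φ ∧ tsupport φ ⊆ U

/-- `κ^* (ψ u)` extended by zero, for a chart `κ` of `S`. -/
def chartPull {q : ℕ} (κ : OpenPartialHomeomorph S (Eu d)) (ψ : Eu d → ℂ)
    (u : Eu d → Alt (Eu d) q) : S → Alt (Eu d) q := by
  classical
  exact fun s => if s ∈ κ.source then
    (ψ (κ s) • u (κ s)).compContinuousLinearMap (mfderiv (𝓡 d) 𝓘(ℝ, Eu d) κ s) else 0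

/-- `φ (κ⁻¹)^* η`, for a chart `κ` of `S`. -/
def chartPush {q : ℕ} (κ : OpenPartialHomeomorph S (Eu d)) (φ : Eu d → ℂ)
    (η : S → Alt (Eu d) q) : Eu d → Alt (Eu d) q :=
  fun x => φ x • (η (κ.symm x)).compContinuousLinearMap (mfderiv 𝓘(ℝ, Eu d) (𝓡 d) κ.symm x)

/-- `T` is a pseudo-differential operator (of some order) on smooth `q`-forms on `S`. -/
def IsPsiDO {q : ℕ} (T : (S → Alt (Eu d) q) → (S → Alt (Eu d) q)) : Prop :=
  (∀ η, SmoothForm (𝓡 d) η → SmoothForm (𝓡 d) (T η)) ∧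
  (∀ (c : ℂ) (η θ), SmoothForm (𝓡 d) η → SmoothForm (𝓡 d) θ → T (c • η + θ) = c • T η + T θ) ∧
  ∃ m : ℝ, ∀ κ ∈ IsManifold.maximalAtlas (𝓡 d) ∞ S, ∀ φ ψ : Eu d → ℂ,
    IsCutoff κ.target φ → IsCutoff κ.target ψ →
    ∃ a : Eu d → Eu d → (Alt (Eu d) q →L[ℂ] Alt (Eu d) q), IsSymbol m a ∧
      ∀ (u : SchwartzMap (Eu d) (Alt (Eu d) q)) (x : Eu d),
        chartPush κ φ (T (chartPull κ ψ u)) x =
          ∫ ξ, Complex.exp (2 * Real.pi * (inner ℝ x ξ : ℝ) * Complex.I) •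
            a x ξ (𝓕 (u : Eu d → Alt (Eu d) q) ξ)

end PsiDO

/-- The main statement. -/
def MainStatement : Prop :=
  ∀ (d k : ℕ) (Ω : Type) [TopologicalSpace Ω] [ChartedSpace (EuclideanHalfSpace (d + 1)) Ω]
    [IsManifold (𝓡∂ (d + 1)) ∞ Ω] [CompactSpace Ω] [T2Space Ω]
    (S : Type) [TopologicalSpace S] [ChartedSpace (Eu d) S] [IsManifold (𝓡 d) ∞ S]
    [CompactSpace S] [T2Space S]
    (g : Metric (𝓡∂ (d + 1)) Ω) (f : S → Ω) (ν : S → Eu (d + 1))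
    (T : (S → Alt (Eu d) (k + 1)) → (S → Alt (Eu d) (k + 1))),
    ContMDiff (𝓡 d) (𝓡∂ (d + 1)) ∞ f → Function.Injective f →
    (∀ s, Function.Injective (mfderiv (𝓡 d) (𝓡∂ (d + 1)) f s)) →
    range f = (𝓡∂ (d + 1)).boundary Ω →
    IsUnitNormal g f ν → IsDtN g f ν T → IsPsiDO T

end DtN
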