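import Pool.Agent.H14.DtN.Inst

/-!
MODULE M1 : the map `F` attached to a Dirichlet-to-Neumann operator.
-/

open scoped Manifold ContDiff Topology ComplexConjugate
open Set MeasureTheory

set_option linter.unusedSectionVars false

noncomputable section

namespace DtN

section

variable {d : ℕ} {Ω : Type*} [TopologicalSpace Ω] [ChartedSpace (EuclideanHalfSpace (d + 1)) Ω]
  [IsManifold (𝓡∂ (d + 1)) ∞ Ω] [CompactSpace Ω] [T2Space Ω]
  (g : Metric (𝓡∂ (d + 1)) Ω) (C : Cover (𝓡∂ (d + 1)) Ω)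

theorem dS_eq_zero_of_dir {q : ℕ} {θ : SForm (𝓡∂ (d + 1)) Ω q} (h : θ ∈ dirS Ω q)
    (h2 : cod g C (dS θ) = 0) : dS θ = 0 := by
  have h1 := green g C h (dS θ)
  have h0 : ipM g C θ (0 : SForm (𝓡∂ (d + 1)) Ω q) = 0 := by
    have := ipM_add_right g C θ 0 0
    rw [add_zero] at this
    exact left_eq_add.mp this
  rw [h2, h0, ipM_self] at h1
  have h3 : NM g C (q + 1) (dS θ) ^ 2 = 0 := by exact_mod_cast h1
  exact NM_eq_zero g C (pow_eq_zero_iff two_ne_zero |>.mp h3)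

theorem Solves.props {k : ℕ} {w : Ω → Alt (Eu (d + 1)) (k + 1)} (hw : Solves g w) :
    ∃ ws : SForm (𝓡∂ (d + 1)) Ω (k + 1), ws.val = w ∧ cod g C ws = 0 ∧ cod g C (dS ws) = 0 := by
  obtain ⟨h1, h2, τ, σ, h3, h4, h5, h6, h7⟩ := hw
  refine ⟨⟨w, h1⟩, rfl, ?_, ?_⟩
  · exact ((isCodiff_iff g C ⟨w, h1⟩ 0).mp h2).symm
  · have e0 : (0 : SForm (𝓡∂ (d + 1)) Ω k) = cod g C ⟨w, h1⟩ :=
      (isCodiff_iff g C ⟨w, h1⟩ 0).mp h2
    have e1 : (⟨τ, h3⟩ : SForm (𝓡∂ (d + 1)) Ω k) = cod g C ⟨w, h1⟩ :=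
      (isCodiff_iff g C ⟨w, h1⟩ ⟨τ, h3⟩).mp h5
    have e2 : (⟨σ, h4⟩ : SForm (𝓡∂ (d + 1)) Ω (k + 1)) = cod g C (dS ⟨w, h1⟩) :=
      (isCodiff_iff g C (dS ⟨w, h1⟩) ⟨σ, h4⟩).mp h6
    have e3 : dS (⟨τ, h3⟩ : SForm (𝓡∂ (d + 1)) Ω k) + ⟨σ, h4⟩ = 0 := by
      apply SForm.val_injective
      funext z
      exact h7 z
    rw [← e2]
    rw [e1, ← e0, map_zero, zero_add] at e3
    exact e3

section
variable {S : Type*} [TopologicalSpace S] [ChartedSpace (Eu d) S] [IsManifold (𝓡 d) ∞ S]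
    [CompactSpace S] [T2Space S] {f : S → Ω}
    (hf : ContMDiff (𝓡 d) (𝓡∂ (d + 1)) ∞ f) (hinj : Function.Injective f)
    (himm : ∀ s, Function.Injective (mfderiv (𝓡 d) (𝓡∂ (d + 1)) f s))
    (hrange : range f = (𝓡∂ (d + 1)).boundary Ω) {ν : S → Eu (d + 1)}
    {N : VF (𝓡∂ (d + 1)) Ω} (hN : ∀ s, N.val (f s) = ν s)
    {k : ℕ} {T : (S → Alt (Eu d) (k + 1)) → (S → Alt (Eu d) (k + 1))} (hT : IsDtN g f ν T)

include hf hinj himm hrange hN hT

/-- Solutions with all their properties. -/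
theorem exists_sol (η : SForm (𝓡 d) S (k + 1)) :
    ∃ w : SForm (𝓡∂ (d + 1)) Ω (k + 1), cod g C w = 0 ∧ cod g C (dS w) = 0 ∧
      pullS f hf w = η ∧ T η.val = (pullS f hf (iotaS N (dS w))).val := by
  obtain ⟨w, h1, h2, h3⟩ := hT η.val η.smooth
  obtain ⟨ws, rfl, h4, h5⟩ := h1.props g C
  refine ⟨ws, h4, h5, SForm.val_injective h2, ?_⟩
  rw [h3]
  funext s
  rw [pullS_val]
  unfold pull
  rw [iotaS_apply, hN s]
  rfl

theorem dS_eq_of_pull {w w' : SForm (𝓡∂ (d + 1)) Ω (k + 1)} (h : cod g C (dS w) = 0)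
    (h' : cod g C (dS w') = 0) (hp : pullS f hf w = pullS f hf w') : dS w = dS w' := by
  have h1 : w - w' ∈ dirS Ω (k + 1) := by
    rw [mem_dirS_iff hf hinj himm hrange]
    have : pullS f hf (w - w') = 0 := by rw [map_sub, hp, sub_self]
    exact congrArg SForm.val this
  have h2 := dS_eq_zero_of_dir g C h1 (by rw [map_sub, map_sub, h, h', sub_self])
  rwa [map_sub, sub_eq_zero] at h2

include C in
theorem DtN_smooth (η : S → Alt (Eu d) (k + 1)) (hη : SmoothForm (𝓡 d) η) :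
    SmoothForm (𝓡 d) (T η) := by
  obtain ⟨w, -, -, -, h⟩ := exists_sol g C hf hinj himm hrange hN hT ⟨η, hη⟩
  rw [h]
  exact SForm.smooth _

include C in
theorem DtN_linear (c : ℂ) (η θ : S → Alt (Eu d) (k + 1)) (hη : SmoothForm (𝓡 d) η)
    (hθ : SmoothForm (𝓡 d) θ) : T (c • η + θ) = c • T η + T θ := by
  obtain ⟨w, h1, h2, h3, h4⟩ := exists_sol g C hf hinj himm hrange hN hT ⟨η, hη⟩
  obtain ⟨w', h1', h2', h3', h4'⟩ := exists_sol g C hf hinj himm hrange hN hT ⟨θ, hθ⟩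
  let ζ : SForm (𝓡 d) S (k + 1) := c • ⟨η, hη⟩ + ⟨θ, hθ⟩
  obtain ⟨w'', h1'', h2'', h3'', h4''⟩ := exists_sol g C hf hinj himm hrange hN hT ζ
  have e : dS w'' = dS (c • w + w') := by
    refine dS_eq_of_pull g C hf hinj himm hrange hN hT h2'' ?_ ?_
    · rw [map_add, map_add, map_smul, map_smul, h2, h2', smul_zero, add_zero]
    · rw [h3'', map_add, map_smul, h3, h3']
  have e2 : T (c • η + θ) = T ζ.val := rfl
  have h4a : T η = (pullS f hf (iotaS N (dS w))).val := h4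
  have h4b : T θ = (pullS f hf (iotaS N (dS w'))).val := h4'
  rw [e2, h4'', e, h4a, h4b, map_add, map_smul, map_add, map_add]
  have e3 : iotaS N (c • dS w) = c • iotaS N (dS w) := LinearMap.map_smul_of_tower _ _ _
  rw [e3, map_smul]
  rfl

/-- The map `F`. -/
theorem exists_F (sp : Spanning d Ω) : ∃ F : SForm (𝓡∂ (d + 1)) Ω (k + 1) →ₗ[ℂ]
    SForm (𝓡∂ (d + 1)) Ω (k + 1 + 1),
    (coreData g C hf hinj himm hrange sp).IsF k F ∧
    ∀ u, T (pullS f hf u).val = (pullS f hf (iotaS N (F u))).val := by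
  choose sol h1 h2 h3 h4 using fun u : SForm (𝓡∂ (d + 1)) Ω (k + 1) =>
    exists_sol g C hf hinj himm hrange hN hT (pullS f hf u)
  have key : ∀ u w, cod g C (dS w) = 0 → pullS f hf w = pullS f hf u → dS (sol u) = dS w := by
    intro u w hw hp
    exact dS_eq_of_pull g C hf hinj himm hrange hN hT (h2 u) hw (by rw [h3, hp])
  let F : SForm (𝓡∂ (d + 1)) Ω (k + 1) →ₗ[ℂ] SForm (𝓡∂ (d + 1)) Ω (k + 1 + 1) :=
    { toFun := fun u => dS (sol u)
      map_add' := fun u v => by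
        rw [← map_add]
        refine key _ _ ?_ ?_
        · rw [map_add, map_add, h2, h2, add_zero]
        · rw [map_add, map_add, h3, h3]
      map_smul' := fun c u => by
        rw [RingHom.id_apply, ← map_smul]
        refine key _ _ ?_ ?_
        · rw [map_smul, map_smul, h2, smul_zero]
        · rw [map_smul, map_smul, h3] }
  refine ⟨F, ⟨?_, ?_, ?_, ?_, ?_⟩, fun u => h4 u⟩
  · intro u hu
    have h5 := (mem_dirS_iff hf hinj himm hrange u).mp hu
    have : pullS f hf u = 0 := SForm.val_injective h5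
    refine (key u 0 ?_ ?_).trans ?_
    · rw [map_zero, map_zero]
    · rw [this, map_zero]
    · rw [map_zero]
  · intro u
    refine ⟨sol u - u, ?_, ?_⟩
    · refine (mem_dirS_iff hf hinj himm hrange _).mpr ?_
      have : pullS f hf (sol u - u) = 0 := by rw [map_sub, h3, sub_self]
      exact congrArg SForm.val this
    · show dS (sol u) = dS (u + (sol u - u))
      rw [add_sub_cancel]
  · intro u φ hφ
    show ipM g C (dS (sol u)) (dS φ) = 0
    rw [← ipM_conj, green g C hφ, h2]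
    have h0 : ipM g C φ (0 : SForm (𝓡∂ (d + 1)) Ω (k + 1)) = 0 := by
      have := ipM_add_right g C φ 0 0
      rw [add_zero] at this
      exact left_eq_add.mp this
    rw [h0, map_zero]
  · intro u
    exact dS_dS _
  · intro u
    exact h2 u

end

end

end DtN
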