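import Pool.Agent.H14.DtN.Defs

/-!
MODULE B : fibre algebra. Pure (multi)linear algebra of `formInner` on `Alt (Eu n) q`.
-/

open scoped ContDiff Topology ComplexConjugate
open Set

set_option linter.unusedSectionVars false

noncomputable section

namespace DtN

variable {n q : ℕ}

/-- Standard basis vector. -/
abbrev ev (i : Fin n) : Eu n := EuclideanSpace.single i 1

/-- Alternatization: `alt f = ∑ (-1)^i f(v_i)(v_0, .. , v_i omitted, ..)`. `alt` of
`v ↦ α(v) • w` is `α ∧ w`. -/
abbrev alt (f : Eu n →L[ℝ] Alt (Eu n) q) : Alt (Eu n) (q + 1) :=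
  ContinuousAlternatingMap.alternatizeUncurryFin f

/-- `α ∧ w` for a complex valued covector `α`. -/
def wedge1 (α : Eu n →L[ℝ] ℂ) (w : Alt (Eu n) q) : Alt (Eu n) (q + 1) := alt (α.smulRight w)

/-- The vector `∑_j (G⁻¹)_{jk} e_j`, i.e. the gradient of the `k`-th coordinate. -/
def gv (G : Matrix (Fin n) (Fin n) ℝ) (k : Fin n) : Eu n := ∑ j, G⁻¹ j k • ev j

/-- The linear map with matrix `G` in the standard basis. -/
def matL (G : Matrix (Fin n) (Fin n) ℝ) : Eu n →L[ℝ] Eu n :=
  ∑ i, ∑ j, G i j • ((EuclideanSpace.proj j : Eu n →L[ℝ] ℝ).smulRight (ev i))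

/-- The coordinate covector `dx_0` as a complex valued covector. -/
def dx (k : Fin n) : Eu n →L[ℝ] ℂ := Complex.ofRealCLM.comp (EuclideanSpace.proj k)

/-- The flat pairing. -/
def flatInner (u v : Alt (Eu n) q) : ℂ :=
  ((Nat.factorial q : ℝ)⁻¹ : ℝ) * ∑ J : Fin q → Fin n,
    u (fun l => ev (J l)) * conj (v (fun l => ev (J l)))

/-! ### Bilinear expressions with a coefficient matrix -/

/-- The form with coefficient matrix `P`. -/
def BP (P : Matrix (Fin n) (Fin n) ℝ) (u v : Alt (Eu n) q) : ℂ :=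
  ((Nat.factorial q : ℝ)⁻¹ : ℝ) * ∑ J : Fin q → Fin n, ∑ K : Fin q → Fin n,
    ((∏ l, P (J l) (K l) : ℝ) : ℂ) * (u (fun l => ev (J l)) *
      conj (v (fun l => ev (K l))))

theorem formInner_eq_BP (G : Matrix (Fin n) (Fin n) ℝ) (u v : Alt (Eu n) q) :
    formInner G u v = BP G⁻¹ u v := rfl

theorem matL_ev (A : Matrix (Fin n) (Fin n) ℝ) (j : Fin n) :
    matL A (ev j) = ∑ i, A i j • ev i := by
  simp only [matL, _root_.sum_apply, _root_.smul_apply,
    ContinuousLinearMap.smulRight_apply]
  refine Finset.sum_congr rfl fun i _ => ?_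
  rw [Finset.sum_eq_single j]
  · simp
  · intro b _ hb
    simp [hb]
  · simp

theorem comp_matL_apply (A : Matrix (Fin n) (Fin n) ℝ) (u : Alt (Eu n) q) (J : Fin q → Fin n) :
    (u.compContinuousLinearMap (matL A)) (fun l => ev (J l)) =
      ∑ K : Fin q → Fin n, ((∏ l, A (K l) (J l) : ℝ) : ℂ) * u (fun l => ev (K l)) := by
  rw [ContinuousAlternatingMap.compContinuousLinearMap_apply]
  have h1 : (⇑(matL A) ∘ fun l => ev (J l)) = fun l => ∑ i, A i (J l) • ev i := by
    funext l
    exact matL_ev A (J l)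
  rw [h1, ContinuousAlternatingMap.map_sum]
  refine Finset.sum_congr rfl fun K _ => ?_
  rw [ContinuousAlternatingMap.map_smul_univ]
  rw [Complex.real_smul]

theorem BP_comp_left (P A : Matrix (Fin n) (Fin n) ℝ) (u v : Alt (Eu n) q) :
    BP P (u.compContinuousLinearMap (matL A)) v = BP (A * P) u v := by
  unfold BP
  congr 1
  have h1 : ∀ K J : Fin q → Fin n, (∏ l, (A * P) (J l) (K l)) =
      ∑ L : Fin q → Fin n, ∏ l, (A (J l) (L l) * P (L l) (K l)) := by
    intro K J
    simp only [Matrix.mul_apply]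
    exact Fintype.prod_sum fun l j => A (J l) j * P j (K l)
  simp only [comp_matL_apply, h1]
  rw [Finset.sum_comm]
  conv_rhs => rw [Finset.sum_comm]
  refine Finset.sum_congr rfl fun K _ => ?_
  simp only [Finset.sum_mul, Finset.mul_sum, Complex.ofReal_sum]
  rw [Finset.sum_comm]
  refine Finset.sum_congr rfl fun L _ => Finset.sum_congr rfl fun J _ => ?_
  rw [Finset.prod_mul_distrib]
  push_cast
  ring

theorem BP_comp_right (P C : Matrix (Fin n) (Fin n) ℝ) (u v : Alt (Eu n) q) :
    BP P u (v.compContinuousLinearMap (matL C)) = BP (P * C.transpose) u v := by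
  unfold BP
  congr 1
  have h1 : ∀ K J : Fin q → Fin n, (∏ l, (P * C.transpose) (J l) (K l)) =
      ∑ L : Fin q → Fin n, ∏ l, (P (J l) (L l) * C (K l) (L l)) := by
    intro K J
    simp only [Matrix.mul_apply, Matrix.transpose_apply]
    exact Fintype.prod_sum fun l j => P (J l) j * C (K l) j
  simp only [comp_matL_apply, h1]
  refine Finset.sum_congr rfl fun J _ => ?_
  simp only [map_sum, Finset.sum_mul, Finset.mul_sum, Complex.ofReal_sum, map_mul,
    Complex.conj_ofReal]
  rw [Finset.sum_comm]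
  refine Finset.sum_congr rfl fun L _ => Finset.sum_congr rfl fun K _ => ?_
  rw [Finset.prod_mul_distrib]
  push_cast
  ring

theorem flatInner_eq_BP (u v : Alt (Eu n) q) : flatInner u v = BP 1 u v := by
  unfold BP flatInner
  congr 1
  refine Finset.sum_congr rfl fun J _ => ?_
  rw [Finset.sum_eq_single J]
  · simp
  · intro K _ hK
    have : ∃ l, J l ≠ K l := by
      by_contra h
      push Not at h
      exact hK (funext fun l => (h l).symm)
    obtain ⟨l, hl⟩ := this
    have h0 : (∏ l, (1 : Matrix (Fin n) (Fin n) ℝ) (J l) (K l)) = 0 :=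
      Finset.prod_eq_zero (Finset.mem_univ l) (Matrix.one_apply_ne hl)
    rw [h0]; simp
  · simp


theorem inv_transpose_of_posDef {G : Matrix (Fin n) (Fin n) ℝ} (hG : G.PosDef) :
    G⁻¹.transpose = G⁻¹ := by
  have h := hG.isHermitian.inv
  rwa [Matrix.IsHermitian, Matrix.conjTranspose_eq_transpose_of_trivial] at h

theorem transpose_of_posDef {G : Matrix (Fin n) (Fin n) ℝ} (hG : G.PosDef) :
    G.transpose = G := by
  have h := hG.isHermitian
  rwa [Matrix.IsHermitian, Matrix.conjTranspose_eq_transpose_of_trivial] at h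

theorem formInner_eq_flat (G : Matrix (Fin n) (Fin n) ℝ) (hG : G.PosDef) (u v : Alt (Eu n) q) :
    formInner G u v = flatInner u (v.compContinuousLinearMap (matL G⁻¹)) := by
  rw [flatInner_eq_BP, BP_comp_right, one_mul, inv_transpose_of_posDef hG, formInner_eq_BP]

theorem flat_eq_formInner (G : Matrix (Fin n) (Fin n) ℝ) (hG : G.PosDef) (u v : Alt (Eu n) q) :
    flatInner u v = formInner G u (v.compContinuousLinearMap (matL G)) := by
  rw [formInner_eq_BP, BP_comp_right, transpose_of_posDef hG,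
    Matrix.nonsing_inv_mul _ ((Matrix.isUnit_iff_isUnit_det _).1 hG.isUnit), flatInner_eq_BP]

theorem formInner_add_left (G : Matrix (Fin n) (Fin n) ℝ) (u u' v : Alt (Eu n) q) :
    formInner G (u + u') v = formInner G u v + formInner G u' v := by
  simp only [formInner, ContinuousAlternatingMap.add_apply, ← mul_add, ← Finset.sum_add_distrib,
    add_mul]

theorem formInner_smul_left (G : Matrix (Fin n) (Fin n) ℝ) (c : ℂ) (u v : Alt (Eu n) q) :
    formInner G (c • u) v = c * formInner G u v := by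
  simp only [formInner, ContinuousAlternatingMap.smul_apply, smul_eq_mul, Finset.mul_sum]
  refine Finset.sum_congr rfl fun J _ => Finset.sum_congr rfl fun K _ => ?_
  ring

theorem formInner_conj_symm (G : Matrix (Fin n) (Fin n) ℝ) (hG : G.PosDef) (u v : Alt (Eu n) q) :
    conj (formInner G v u) = formInner G u v := by
  simp only [formInner, map_mul, map_sum, Complex.conj_ofReal, Complex.conj_conj]
  rw [Finset.sum_comm]
  congr 1
  refine Finset.sum_congr rfl fun J _ => Finset.sum_congr rfl fun K _ => ?_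
  have h : ∀ l, G⁻¹ (K l) (J l) = G⁻¹ (J l) (K l) := fun l => by
    conv_lhs => rw [← inv_transpose_of_posDef hG]
    rfl
  simp only [h]
  ring

open scoped MatrixOrder in
theorem exists_factor {G : Matrix (Fin n) (Fin n) ℝ} (hG : G.PosDef) :
    ∃ B : Matrix (Fin n) (Fin n) ℝ, IsUnit B ∧ G⁻¹ = B * B.transpose := by
  have hI := hG.inv
  have h0 : (0 : Matrix (Fin n) (Fin n) ℝ) ≤ G⁻¹ := hI.posSemidef.nonneg
  refine ⟨CFC.sqrt G⁻¹, ?_, ?_⟩
  · have h1 : CFC.sqrt G⁻¹ * CFC.sqrt G⁻¹ = G⁻¹ := CFC.sqrt_mul_sqrt_self _ h0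
    have h2 := hI.isUnit
    rw [← h1] at h2
    exact isUnit_of_mul_isUnit_left h2
  · have h1 : CFC.sqrt G⁻¹ * CFC.sqrt G⁻¹ = G⁻¹ := CFC.sqrt_mul_sqrt_self _ h0
    have h3 : (CFC.sqrt G⁻¹).transpose = CFC.sqrt G⁻¹ := by
      have h := (Matrix.nonneg_iff_posSemidef.1
        (CFC.sqrt_nonneg (G⁻¹ : Matrix (Fin n) (Fin n) ℝ))).isHermitian
      rwa [Matrix.IsHermitian, Matrix.conjTranspose_eq_transpose_of_trivial] at h
    rw [h3, h1]

theorem formInner_eq_factor {G B : Matrix (Fin n) (Fin n) ℝ} (hB : G⁻¹ = B * B.transpose)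
    (u v : Alt (Eu n) q) : formInner G u v =
      flatInner (u.compContinuousLinearMap (matL B)) (v.compContinuousLinearMap (matL B)) := by
  rw [flatInner_eq_BP, BP_comp_right, BP_comp_left, one_mul, ← hB, formInner_eq_BP]

theorem flatInner_self (u : Alt (Eu n) q) : flatInner u u =
    (((Nat.factorial q : ℝ)⁻¹ * ∑ J : Fin q → Fin n, ‖u (fun l => ev (J l))‖ ^ 2 : ℝ) : ℂ) := by
  unfold flatInner
  push_cast
  congr 1
  refine Finset.sum_congr rfl fun J _ => ?_
  rw [Complex.mul_conj]
  rw [Complex.normSq_eq_norm_sq]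
  push_cast
  rfl

theorem flatInner_self_nonneg (u : Alt (Eu n) q) : 0 ≤ (flatInner u u).re := by
  rw [flatInner_self, Complex.ofReal_re]
  positivity

theorem alt_ext {u v : Alt (Eu n) q} (h : ∀ J : Fin q → Fin n,
    u (fun l => ev (J l)) = v (fun l => ev (J l))) : u = v := by
  apply ContinuousAlternatingMap.toAlternatingMap_injective
  apply AlternatingMap.coe_multilinearMap_injective
  refine Module.Basis.ext_multilinear
    (fun _ => (EuclideanSpace.basisFun (Fin n) ℝ).toBasis) fun J => ?_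
  simpa using h J

theorem matL_mul (A B : Matrix (Fin n) (Fin n) ℝ) :
    (matL A).comp (matL B) = matL (A * B) := by
  have h : ∀ j, (matL A).comp (matL B) (ev j) = matL (A * B) (ev j) := by
    intro j
    rw [ContinuousLinearMap.comp_apply, matL_ev, matL_ev, map_sum]
    simp only [map_smul, matL_ev, Finset.smul_sum, smul_smul]
    rw [Finset.sum_comm]
    refine Finset.sum_congr rfl fun i _ => ?_
    rw [← Finset.sum_smul, Matrix.mul_apply]
    congr 1
    exact Finset.sum_congr rfl fun k _ => mul_comm _ _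
  apply ContinuousLinearMap.coe_injective
  refine (EuclideanSpace.basisFun (Fin n) ℝ).toBasis.ext fun j => ?_
  simpa using h j

theorem matL_one : matL (1 : Matrix (Fin n) (Fin n) ℝ) = ContinuousLinearMap.id ℝ (Eu n) := by
  apply ContinuousLinearMap.coe_injective
  refine (EuclideanSpace.basisFun (Fin n) ℝ).toBasis.ext fun j => ?_
  have h := matL_ev (1 : Matrix (Fin n) (Fin n) ℝ) j
  have h2 : ∑ i, (1 : Matrix (Fin n) (Fin n) ℝ) i j • (ev i : Eu n) = ev j := by
    rw [Finset.sum_eq_single j]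
    · simp
    · intro b _ hb
      rw [Matrix.one_apply_ne hb, zero_smul]
    · simp
  rw [h2] at h
  simpa using h

theorem comp_matL_injective {B : Matrix (Fin n) (Fin n) ℝ} (hB : IsUnit B) {u : Alt (Eu n) q}
    (h : u.compContinuousLinearMap (matL B) = 0) : u = 0 := by
  have h1 : (u.compContinuousLinearMap (matL B)).compContinuousLinearMap (matL B⁻¹) = u := by
    rw [show (u.compContinuousLinearMap (matL B)).compContinuousLinearMap (matL B⁻¹) =
      u.compContinuousLinearMap ((matL B).comp (matL B⁻¹)) from rfl, matL_mul,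
      Matrix.mul_nonsing_inv _ ((Matrix.isUnit_iff_isUnit_det _).1 hB), matL_one]
    rfl
  rw [← h1, h]
  rfl

theorem flatInner_definite {u : Alt (Eu n) q} (h : flatInner u u = 0) : u = 0 := by
  rw [flatInner_self] at h
  have h1 : (Nat.factorial q : ℝ)⁻¹ * ∑ J : Fin q → Fin n, ‖u (fun l => ev (J l))‖ ^ 2 = 0 := by
    exact_mod_cast h
  have h2 : (Nat.factorial q : ℝ)⁻¹ ≠ 0 := by positivity
  have h3 := (mul_eq_zero.1 h1).resolve_left h2
  rw [Finset.sum_eq_zero_iff_of_nonneg (fun _ _ => by positivity)] at h3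
  refine alt_ext fun J => ?_
  have h4 := h3 J (Finset.mem_univ _)
  simpa using h4

theorem norm_flatInner_le (u v : Alt (Eu n) q) :
    ‖flatInner u v‖ ≤ Real.sqrt (flatInner u u).re * Real.sqrt (flatInner v v).re := by
  rw [flatInner_self, flatInner_self, Complex.ofReal_re, Complex.ofReal_re]
  have hc : (0 : ℝ) ≤ (Nat.factorial q : ℝ)⁻¹ := by positivity
  rw [Real.sqrt_mul hc, Real.sqrt_mul hc]
  unfold flatInner
  rw [norm_mul, Complex.norm_real, Real.norm_of_nonneg hc]
  have h1 : ‖∑ J : Fin q → Fin n, u (fun l => ev (J l)) * conj (v (fun l => ev (J l)))‖ ≤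
      ∑ J : Fin q → Fin n, ‖u (fun l => ev (J l))‖ * ‖v (fun l => ev (J l))‖ := by
    refine (norm_sum_le _ _).trans (Finset.sum_le_sum fun J _ => ?_)
    rw [norm_mul, RCLike.norm_conj]
  have h2 := Real.sum_mul_le_sqrt_mul_sqrt Finset.univ
    (fun J : Fin q → Fin n => ‖u (fun l => ev (J l))‖) (fun J => ‖v (fun l => ev (J l))‖)
  calc (Nat.factorial q : ℝ)⁻¹ *
        ‖∑ J : Fin q → Fin n, u (fun l => ev (J l)) * conj (v (fun l => ev (J l)))‖
      ≤ (Nat.factorial q : ℝ)⁻¹ * (Real.sqrt (∑ J : Fin q → Fin n, ‖u (fun l => ev (J l))‖ ^ 2) *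
        Real.sqrt (∑ J : Fin q → Fin n, ‖v (fun l => ev (J l))‖ ^ 2)) :=
        mul_le_mul_of_nonneg_left (h1.trans h2) hc
    _ = _ := by
        nth_rewrite 1 [← Real.mul_self_sqrt hc]
        ring

theorem formInner_self_nonneg (G : Matrix (Fin n) (Fin n) ℝ) (hG : G.PosDef) (u : Alt (Eu n) q) :
    0 ≤ (formInner G u u).re := by
  obtain ⟨B, -, hB⟩ := exists_factor hG
  rw [formInner_eq_factor hB]
  exact flatInner_self_nonneg _

theorem formInner_self_im (G : Matrix (Fin n) (Fin n) ℝ) (hG : G.PosDef) (u : Alt (Eu n) q) :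
    (formInner G u u).im = 0 := by
  obtain ⟨B, -, hB⟩ := exists_factor hG
  rw [formInner_eq_factor hB, flatInner_self, Complex.ofReal_im]

theorem formInner_definite (G : Matrix (Fin n) (Fin n) ℝ) (hG : G.PosDef) (u : Alt (Eu n) q)
    (h : formInner G u u = 0) : u = 0 := by
  obtain ⟨B, hu, hB⟩ := exists_factor hG
  rw [formInner_eq_factor hB] at h
  exact comp_matL_injective hu (flatInner_definite h)

/-- Cauchy-Schwarz in the fibre. -/
theorem norm_formInner_le (G : Matrix (Fin n) (Fin n) ℝ) (hG : G.PosDef) (u v : Alt (Eu n) q) :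
    ‖formInner G u v‖ ≤ Real.sqrt (formInner G u u).re * Real.sqrt (formInner G v v).re := by
  obtain ⟨B, hu, hB⟩ := exists_factor hG
  rw [formInner_eq_factor hB, formInner_eq_factor hB, formInner_eq_factor hB]
  exact norm_flatInner_le _ _


theorem flatInner_alt (f : Eu n →L[ℝ] Alt (Eu n) q) (v : Alt (Eu n) (q + 1)) :
    flatInner (alt f) v = ∑ k, flatInner (f (ev k)) (v.curryLeft (ev k)) := by
  unfold flatInner
  have h1 : ∀ J : Fin (q + 1) → Fin n,
      (alt f) (fun l => ev (J l)) * conj (v (fun l => ev (J l))) =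
      ∑ i : Fin (q + 1), f (ev (J i)) (fun l => ev (J (i.succAbove l))) *
        conj (v (Matrix.vecCons (ev (J i)) fun l => ev (J (i.succAbove l)))) := by
    intro J
    rw [ContinuousAlternatingMap.alternatizeUncurryFin_apply, Finset.sum_mul]
    refine Finset.sum_congr rfl fun i _ => ?_
    have h2 := ContinuousAlternatingMap.map_insertNth v i (ev (J i))
      (fun l => ev (J (i.succAbove l)))
    have h3 : (i.insertNth (ev (J i)) (fun l => ev (J (i.succAbove l))) : Fin (q + 1) → Eu n) =
        fun l => ev (J l) := by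
      have := Fin.insertNth_self_removeNth i (fun l => (ev (J l) : Eu n))
      exact this
    rw [h3] at h2
    rw [h2]
    have h4 : Fin.removeNth i (fun l => (ev (J l) : Eu n)) = fun l => ev (J (i.succAbove l)) := rfl
    rw [h4, zsmul_eq_mul, zsmul_eq_mul, map_mul]
    have h5 : ((((-1 : ℤ) ^ (i : ℕ) : ℤ)) : ℂ) * conj ((((-1 : ℤ) ^ (i : ℕ) : ℤ)) : ℂ) = 1 := by
      push_cast
      rw [map_pow, map_neg, map_one, ← mul_pow]
      norm_num
    linear_combination (f (ev (J i)) (fun l => ev (J (i.succAbove l))) *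
        conj (v (Matrix.vecCons (ev (J i)) fun l => ev (J (i.succAbove l))))) * h5
  have h6 : ∀ i : Fin (q + 1), ∑ J : Fin (q + 1) → Fin n,
      f (ev (J i)) (fun l => ev (J (i.succAbove l))) *
        conj (v (Matrix.vecCons (ev (J i)) fun l => ev (J (i.succAbove l)))) =
      ∑ k : Fin n, ∑ J : Fin q → Fin n, f (ev k) (fun l => ev (J l)) *
        conj (v.curryLeft (ev k) (fun l => ev (J l))) := by
    intro i
    rw [← Fintype.sum_prod_type', ← (Fin.insertNthEquiv (fun _ => Fin n) i).sum_comp]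
    refine Finset.sum_congr rfl fun p _ => ?_
    simp [Fin.insertNthEquiv]
  simp only [h1]
  rw [Finset.sum_comm]
  simp only [h6, Finset.sum_const, Finset.card_univ, Fintype.card_fin, nsmul_eq_mul]
  rw [← Finset.mul_sum, ← mul_assoc]
  congr 1
  rw [Nat.factorial_succ]
  push_cast
  have hq : ((q : ℂ) + 1) ≠ 0 := by exact_mod_cast Nat.succ_ne_zero q
  have hf : ((Nat.factorial q : ℕ) : ℂ) ≠ 0 := by exact_mod_cast Nat.factorial_ne_zero q
  field_simp

theorem matL_eq (A : Eu n →L[ℝ] Eu n) :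
    A = matL (Matrix.of fun i j => (A (ev j)) i) := by
  apply ContinuousLinearMap.coe_injective
  refine (EuclideanSpace.basisFun (Fin n) ℝ).toBasis.ext fun j => ?_
  have h := matL_ev (Matrix.of fun i j => (A (ev j)) i) j
  have h2 : ∑ i, (Matrix.of fun i j => (A (ev j)) i) i j • (ev i : Eu n) = A (ev j) := by
    have := (EuclideanSpace.basisFun (Fin n) ℝ).sum_repr (A (ev j))
    simpa using this
  rw [h2] at h
  simpa using h.symm

/-- Naturality under invertible linear maps. -/
theorem formInner_comp (G : Matrix (Fin n) (Fin n) ℝ) (hG : G.PosDef) (A : Eu n ≃L[ℝ] Eu n)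
    (u v : Alt (Eu n) q) :
    formInner (Matrix.of fun i j => ∑ k, ∑ l, (A (ev i)) k * G k l * (A (ev j)) l)
      (u.compContinuousLinearMap (A : Eu n →L[ℝ] Eu n))
      (v.compContinuousLinearMap (A : Eu n →L[ℝ] Eu n)) = formInner G u v := by
  set P : Matrix (Fin n) (Fin n) ℝ := Matrix.of fun i j => (A (ev j)) i with hP
  set Q : Matrix (Fin n) (Fin n) ℝ := Matrix.of fun i j => (A.symm (ev j)) i with hQ
  have hA : (A : Eu n →L[ℝ] Eu n) = matL P := matL_eq (A : Eu n →L[ℝ] Eu n)
  have hA' : (A.symm : Eu n →L[ℝ] Eu n) = matL Q := matL_eq (A.symm : Eu n →L[ℝ] Eu n)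
  have hmat : ∀ B C : Matrix (Fin n) (Fin n) ℝ, matL B = matL C → B = C := by
    intro B C h
    ext i j
    have h1 : matL B (ev j) = matL C (ev j) := by rw [h]
    rw [matL_ev, matL_ev] at h1
    have h2 := congrArg (fun x : Eu n => x i) h1
    simpa [Finset.sum_apply, Pi.single_apply] using h2
  have hPQ : P * Q = 1 := by
    apply hmat
    rw [← matL_mul, ← hA, ← hA', matL_one]
    ext x
    simp
  have hQP : Q * P = 1 := by
    apply hmat
    rw [← matL_mul, ← hA, ← hA', matL_one]
    ext x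
    simp
  have hinv : P⁻¹ = Q := Matrix.inv_eq_right_inv hPQ
  have hG' : (Matrix.of fun i j => ∑ k, ∑ l, (A (ev i)) k * G k l * (A (ev j)) l) =
      P.transpose * G * P := by
    ext i j
    simp only [Matrix.mul_apply, Matrix.of_apply, Matrix.transpose_apply, hP, Finset.sum_mul]
    rw [Finset.sum_comm]
  rw [hG', hA, formInner_eq_BP, BP_comp_left, BP_comp_right, formInner_eq_BP]
  congr 1
  rw [Matrix.mul_inv_rev, Matrix.mul_inv_rev, ← Matrix.transpose_nonsing_inv, hinv]
  have hT : Q.transpose * P.transpose = 1 := by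
    rw [← Matrix.transpose_mul, hPQ, Matrix.transpose_one]
  calc P * (Q * (G⁻¹ * Q.transpose)) * P.transpose
      = (P * Q) * G⁻¹ * (Q.transpose * P.transpose) := by
        simp only [Matrix.mul_assoc]
    _ = G⁻¹ := by rw [hPQ, hT, Matrix.one_mul, Matrix.mul_one]

/-- Adjointness of exterior multiplication and contraction. -/
theorem formInner_alt (G : Matrix (Fin n) (Fin n) ℝ) (hG : G.PosDef)
    (f : Eu n →L[ℝ] Alt (Eu n) q) (v : Alt (Eu n) (q + 1)) :
    formInner G (alt f) v = ∑ k, formInner G (f (ev k)) (v.curryLeft (gv G k)) := by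
  rw [formInner_eq_flat G hG, flatInner_alt]
  refine Finset.sum_congr rfl fun k _ => ?_
  rw [ContinuousAlternatingMap.curryLeft_compContinuousLinearMap, formInner_eq_flat G hG,
    matL_ev]
  rfl

theorem formInner_zero_left (G : Matrix (Fin n) (Fin n) ℝ) (v : Alt (Eu n) q) :
    formInner G 0 v = 0 := by
  simp [formInner]

theorem formInner_wedge1_dx (G : Matrix (Fin n) (Fin n) ℝ) (hG : G.PosDef) (k : Fin n)
    (u : Alt (Eu n) q) (v : Alt (Eu n) (q + 1)) :
    formInner G (wedge1 (dx k) u) v = formInner G u (v.curryLeft (gv G k)) := by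
  unfold wedge1
  rw [formInner_alt G hG, Finset.sum_eq_single k]
  · congr 1
    simp [dx]
  · intro b _ hb
    have : (ContinuousLinearMap.smulRight (dx k) u) (ev b) = 0 := by
      simp [dx, hb.symm]
    rw [this, formInner_zero_left]
  · simp

/-- Clifford relation. -/
theorem curryLeft_alt (f : Eu n →L[ℝ] Alt (Eu n) (q + 1)) (v : Eu n) :
    (alt f).curryLeft v = f v - alt ((ContinuousAlternatingMap.curryLeftLI.toContinuousLinearMap
      |>.flip v).restrictScalars ℝ ∘L f) := by
  ext m
  rw [ContinuousAlternatingMap.curryLeft_apply_apply, ContinuousAlternatingMap.sub_apply,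
    ContinuousAlternatingMap.alternatizeUncurryFin_apply,
    ContinuousAlternatingMap.alternatizeUncurryFin_apply, Fin.sum_univ_succ]
  have h0 : Fin.removeNth 0 (Matrix.vecCons v m) = m := by
    funext l
    simp [Fin.removeNth]
  rw [h0]
  simp only [Fin.val_zero, pow_zero, one_smul, Matrix.cons_val_zero, Matrix.cons_val_succ,
    Fin.val_succ, pow_succ]
  rw [sub_eq_add_neg]
  congr 1
  rw [← Finset.sum_neg_distrib]
  refine Finset.sum_congr rfl fun i _ => ?_
  have h1 : Fin.removeNth i.succ (Matrix.vecCons v m) = Matrix.vecCons v (i.removeNth m) := by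
    funext l
    refine Fin.cases ?_ (fun l => ?_) l
    · simp [Fin.removeNth]
    · simp [Fin.removeNth]
  rw [h1]
  simp

theorem curryLeft_wedge1 (α : Eu n →L[ℝ] ℂ) (w : Alt (Eu n) (q + 1)) (v : Eu n) :
    (wedge1 α w).curryLeft v + wedge1 α (w.curryLeft v) = α v • w := by
  unfold wedge1
  rw [curryLeft_alt]
  have : ((ContinuousAlternatingMap.curryLeftLI.toContinuousLinearMap
      |>.flip v).restrictScalars ℝ ∘L (α.smulRight w)) = α.smulRight (w.curryLeft v) := by
    ext x m
    simp
  rw [this, sub_add_cancel]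
  rfl


/-! ### Parameters -/

theorem contDiffOn_inv_entry {F : Type*} [NormedAddCommGroup F] [NormedSpace ℝ F] {s : Set F}
    {r : WithTop ℕ∞} {G : F → Matrix (Fin n) (Fin n) ℝ}
    (hG : ∀ i j, ContDiffOn ℝ r (fun y => G y i j) s)
    (hpos : ∀ y ∈ s, (G y).det ≠ 0) (i j : Fin n) :
    ContDiffOn ℝ r (fun y => (G y)⁻¹ i j) s := by
  have hdet : ∀ (H : F → Matrix (Fin n) (Fin n) ℝ),
      (∀ i j, ContDiffOn ℝ r (fun y => H y i j) s) → ContDiffOn ℝ r (fun y => (H y).det) s := by
    intro H hH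
    simp only [Matrix.det_apply]
    refine ContDiffOn.sum fun σ _ => ?_
    refine ContDiffOn.const_smul _ ?_
    exact contDiffOn_prod fun k _ => hH _ _
  have h1 : ∀ y, (G y)⁻¹ i j = ((G y).det)⁻¹ * ((G y).updateRow j (Pi.single i 1)).det := by
    intro y
    rw [Matrix.inv_def, Matrix.smul_apply, Matrix.adjugate_apply, Ring.inverse_eq_inv', smul_eq_mul]
  simp only [h1]
  refine (ContDiffOn.inv (hdet G hG) fun y hy => hpos y hy).mul (hdet _ fun k l => ?_)
  by_cases hk : k = j
  · subst hk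
    simp only [Matrix.updateRow_self]
    exact contDiffOn_const
  · simp only [Matrix.updateRow_ne hk]
    exact hG k l

/-- Smoothness in parameters. -/
theorem formInner_contDiffOn {F : Type*} [NormedAddCommGroup F] [NormedSpace ℝ F] {s : Set F}
    {r : WithTop ℕ∞} {G : F → Matrix (Fin n) (Fin n) ℝ} (hG : ∀ i j, ContDiffOn ℝ r (fun y => G y i j) s)
    (hpos : ∀ y ∈ s, (G y).PosDef) {u v : F → Alt (Eu n) q}
    (hu : ContDiffOn ℝ r u s) (hv : ContDiffOn ℝ r v s) :
    ContDiffOn ℝ r (fun y => formInner (G y) (u y) (v y)) s := by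
  unfold formInner
  refine contDiffOn_const.mul ?_
  refine ContDiffOn.sum fun J _ => ContDiffOn.sum fun K _ => ?_
  refine ContDiffOn.mul ?_ (ContDiffOn.mul ?_ ?_)
  · have h : ContDiffOn ℝ r (fun y => ∏ l, (G y)⁻¹ (J l) (K l)) s :=
      contDiffOn_prod fun l _ => contDiffOn_inv_entry hG (fun y hy => (hpos y hy).det_pos.ne') _ _
    exact Complex.ofRealCLM.contDiff.comp_contDiffOn h
  · exact (ContinuousAlternatingMap.apply ℝ (Eu n) ℂ
      (fun l => EuclideanSpace.single (J l) (1 : ℝ))).contDiff.comp_contDiffOn hu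
  · have h := (ContinuousAlternatingMap.apply ℝ (Eu n) ℂ
      (fun l => EuclideanSpace.single (K l) (1 : ℝ))).contDiff.comp_contDiffOn hv
    exact Complex.conjCLE.contDiff.comp_contDiffOn h

theorem continuousOn_inv_entry {X : Type*} [TopologicalSpace X] {K : Set X}
    {G : X → Matrix (Fin n) (Fin n) ℝ} (hG : ContinuousOn G K)
    (hpos : ∀ x ∈ K, (G x).det ≠ 0) (i j : Fin n) :
    ContinuousOn (fun x => (G x)⁻¹ i j) K := by
  have hent : ∀ i j, ContinuousOn (fun x => G x i j) K := fun i j =>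
    (continuous_apply_apply (ρ := fun _ _ => ℝ) i j).comp_continuousOn hG
  have hdet : ∀ (H : X → Matrix (Fin n) (Fin n) ℝ),
      (∀ i j, ContinuousOn (fun y => H y i j) K) → ContinuousOn (fun y => (H y).det) K := by
    intro H hH
    simp only [Matrix.det_apply]
    refine continuousOn_finsetSum _ fun σ _ => ?_
    refine ContinuousOn.const_smul ?_ _
    exact continuousOn_finsetProd _ fun k _ => hH _ _
  have h1 : ∀ y, (G y)⁻¹ i j = ((G y).det)⁻¹ * ((G y).updateRow j (Pi.single i 1)).det := by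
    intro y
    rw [Matrix.inv_def, Matrix.smul_apply, Matrix.adjugate_apply, Ring.inverse_eq_inv', smul_eq_mul]
  simp only [h1]
  refine (ContinuousOn.inv₀ (hdet G hent) fun y hy => hpos y hy).mul (hdet _ fun k l => ?_)
  by_cases hk : k = j
  · subst hk
    simp only [Matrix.updateRow_self]
    exact continuousOn_const
  · simp only [Matrix.updateRow_ne hk]
    exact hent k l

instance finiteDimensional_alt : FiniteDimensional ℝ (Alt (Eu n) q) := by
  have hinj : Function.Injective (fun u : Alt (Eu n) q =>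
      fun J : Fin q → Fin n => u (fun l => ev (J l))) := by
    intro u v h
    exact alt_ext fun J => congrFun h J
  let L : Alt (Eu n) q →ₗ[ℝ] ((Fin q → Fin n) → ℂ) :=
    { toFun := fun u J => u (fun l => ev (J l))
      map_add' := fun _ _ => rfl
      map_smul' := fun _ _ => rfl }
  exact FiniteDimensional.of_injective L hinj

theorem formInner_rsmul (G : Matrix (Fin n) (Fin n) ℝ) (c : ℝ) (u : Alt (Eu n) q) :
    (formInner G (c • u) (c • u)).re = c ^ 2 * (formInner G u u).re := by
  have h : formInner G (c • u) (c • u) = ((c ^ 2 : ℝ) : ℂ) * formInner G u u := by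
    simp only [formInner, ContinuousAlternatingMap.smul_apply, Complex.real_smul, map_mul,
      Complex.conj_ofReal, Finset.mul_sum]
    refine Finset.sum_congr rfl fun J _ => Finset.sum_congr rfl fun K _ => ?_
    push_cast
    ring
  rw [h, Complex.re_ofReal_mul]

/-- The fibre norm is comparable with the operator norm, locally uniformly in the metric. -/
theorem formInner_comparison {X : Type*} [TopologicalSpace X] (K : Set X) (hK : IsCompact K)
    (G : X → Matrix (Fin n) (Fin n) ℝ) (hG : ContinuousOn G K) (hpos : ∀ x ∈ K, (G x).PosDef) :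
    ∃ C : ℝ, 0 < C ∧ ∀ x ∈ K, ∀ u : Alt (Eu n) q,
      ‖u‖ ^ 2 ≤ C * (formInner (G x) u u).re ∧ (formInner (G x) u u).re ≤ C * ‖u‖ ^ 2 := by
  have : ProperSpace (Alt (Eu n) q) := FiniteDimensional.proper_real _
  set S : Set (Alt (Eu n) q) := Metric.sphere 0 1 with hS
  have hScomp : IsCompact S := isCompact_sphere _ _
  have hKS : IsCompact (K ×ˢ S) := hK.prod hScomp
  set F : X × Alt (Eu n) q → ℝ := fun p => (formInner (G p.1) p.2 p.2).re with hF
  have hFc : ContinuousOn F (K ×ˢ S) := by
    rw [hF]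
    refine Complex.continuous_re.comp_continuousOn ?_
    unfold formInner
    refine continuousOn_const.mul ?_
    refine continuousOn_finsetSum _ fun J _ => continuousOn_finsetSum _ fun L _ => ?_
    refine ContinuousOn.mul ?_ (ContinuousOn.mul ?_ ?_)
    · refine Complex.continuous_ofReal.comp_continuousOn ?_
      refine continuousOn_finsetProd _ fun l _ => ?_
      have h := continuousOn_inv_entry hG (fun x hx => (hpos x hx).det_pos.ne') (J l) (L l)
      exact h.comp continuousOn_fst fun p hp => hp.1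
    · exact ((ContinuousAlternatingMap.apply ℝ (Eu n) ℂ
        (fun l => EuclideanSpace.single (J l) (1 : ℝ))).continuous.comp continuous_snd).continuousOn
    · exact (Complex.continuous_conj.comp ((ContinuousAlternatingMap.apply ℝ (Eu n) ℂ
        (fun l => EuclideanSpace.single (L l) (1 : ℝ))).continuous.comp
          continuous_snd)).continuousOn
  have hFpos : ∀ p ∈ K ×ˢ S, 0 < F p := by
    rintro ⟨x, u⟩ ⟨hx, hu⟩
    have h0 := formInner_self_nonneg (G x) (hpos x hx) u
    refine lt_of_le_of_ne h0 fun h1 => ?_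
    have h2 : formInner (G x) u u = 0 :=
      Complex.ext h1.symm (formInner_self_im (G x) (hpos x hx) u)
    have h3 := formInner_definite (G x) (hpos x hx) u h2
    have h4 : ‖u‖ = 1 := by simpa [hS] using hu
    rw [h3] at h4
    simp at h4
  rcases (K ×ˢ S).eq_empty_or_nonempty with hE | hne
  · refine ⟨1, one_pos, fun x hx u => ?_⟩
    have hu : u = 0 := by
      by_contra hu
      have h1 : (x, ‖u‖⁻¹ • u) ∈ K ×ˢ S := by
        refine ⟨hx, ?_⟩
        have : ‖u‖ ≠ 0 := norm_ne_zero_iff.2 hu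
        simp [hS, norm_smul, this]
      rw [hE] at h1
      exact h1
    subst hu
    rw [formInner_zero_left]
    simp
  obtain ⟨p₀, hp₀, hmin⟩ := hKS.exists_isMinOn hne hFc
  obtain ⟨p₁, hp₁, hmax⟩ := hKS.exists_isMaxOn hne hFc
  have hm0 : 0 < F p₀ := hFpos p₀ hp₀
  have hm1 : 0 < F p₁ := hFpos p₁ hp₁
  refine ⟨max (F p₀)⁻¹ (F p₁), lt_max_of_lt_right hm1, fun x hx u => ?_⟩
  by_cases hu : u = 0
  · subst hu
    rw [formInner_zero_left]
    simp
  have hnu : 0 < ‖u‖ := norm_pos_iff.2 hu
  set e : Alt (Eu n) q := ‖u‖⁻¹ • u with he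
  have heS : (x, e) ∈ K ×ˢ S := ⟨hx, by simp [hS, he, norm_smul, hnu.ne']⟩
  have hue : u = ‖u‖ • e := by rw [he, smul_smul, mul_inv_cancel₀ hnu.ne', one_smul]
  have h1 : (formInner (G x) u u).re = ‖u‖ ^ 2 * F (x, e) := by
    conv_lhs => rw [hue]
    rw [formInner_rsmul]
  have h2 : F p₀ ≤ F (x, e) := hmin heS
  have h3 : F (x, e) ≤ F p₁ := hmax heS
  rw [h1]
  constructor
  · have h4 : 1 ≤ max (F p₀)⁻¹ (F p₁) * F (x, e) := by
      calc (1 : ℝ) = (F p₀)⁻¹ * F p₀ := (inv_mul_cancel₀ hm0.ne').symm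
        _ ≤ max (F p₀)⁻¹ (F p₁) * F (x, e) :=
          mul_le_mul (le_max_left _ _) h2 hm0.le (le_max_of_le_right hm1.le)
    nlinarith [sq_nonneg ‖u‖]
  · have h5 : F (x, e) ≤ max (F p₀)⁻¹ (F p₁) := h3.trans (le_max_right _ _)
    nlinarith [sq_nonneg ‖u‖]

end DtN
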