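import Mathlib

/-!
Definitions for the statement on Karpukhin's Dirichlet-to-Neumann map on differential forms.

Everything is stated for a manifold `M` modelled on a real normed space `E` with model `I`
(which is the half space `𝓡∂ n` in the main theorem). Mathlib's tangent space at `z` is `E`
itself, vectors being read in the preferred chart at `z`.
-/

open scoped Manifold ContDiff Topology ComplexConjugate FourierTransform
open Set MeasureTheory

noncomputable section

namespace DtN

/-- Complex valued alternating `q`-linear forms on the real normed space `E`. -/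
abbrev Alt (E : Type*) [NormedAddCommGroup E] [NormedSpace ℝ E] (q : ℕ) := E [⋀^Fin q]→L[ℝ] ℂ

section Mfd

variable {E : Type*} [NormedAddCommGroup E] [NormedSpace ℝ E]
  {H : Type*} [TopologicalSpace H] (I : ModelWithCorners ℝ E H)
  {M : Type*} [TopologicalSpace M] [ChartedSpace H M]

/-- Derivative at `y` of the inverse of the preferred chart at `x₀`. -/
def dsymm (x₀ : M) (y : E) : E →L[ℝ] E :=
  mfderivWithin 𝓘(ℝ, E) I (extChartAt I x₀).symm (range I) y

/-- A `q`-form on `M` is a function `w : M → Alt E q`, the value `w z` being an alternating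
form on `T_z M = E`. `rep I x₀ w` is its expression in the preferred chart at `x₀`, i.e. the
pullback by the inverse of that chart. -/
def rep {q : ℕ} (x₀ : M) (w : M → Alt E q) (y : E) : Alt E q :=
  (w ((extChartAt I x₀).symm y)).compContinuousLinearMap (dsymm I x₀ y)

/-- Smooth forms: smooth in every preferred chart, up to the boundary. -/
def SmoothForm {q : ℕ} (w : M → Alt E q) : Prop :=
  ∀ x₀ : M, ContDiffOn ℝ ∞ (rep I x₀ w) (extChartAt I x₀).target

/-- Exterior derivative (computed at `z` in the preferred chart at `z`). -/
def extD {q : ℕ} (w : M → Alt E q) (z : M) : Alt E (q + 1) :=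
  extDerivWithin (rep I z w) (range I) (extChartAt I z z)

/-- A Riemannian metric: an inner product on every `T_z M = E`, smooth in every preferred
chart. -/
structure Metric (M : Type*) [TopologicalSpace M] [ChartedSpace H M] where
  val : M → E →L[ℝ] E →L[ℝ] ℝ
  symm' : ∀ z v w, val z v w = val z w v
  pos' : ∀ z v, v ≠ 0 → 0 < val z v v
  smooth' : ∀ x₀ : M, ContDiffOn ℝ ∞ (fun y => (val ((extChartAt I x₀).symm y)).bilinearComp
    (dsymm I x₀ y) (dsymm I x₀ y)) (extChartAt I x₀).target

end Mfd

section Pull

variable {E : Type*} [NormedAddCommGroup E] [NormedSpace ℝ E]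
  {H : Type*} [TopologicalSpace H] (I : ModelWithCorners ℝ E H)
  {M : Type*} [TopologicalSpace M] [ChartedSpace H M]
  {E' : Type*} [NormedAddCommGroup E'] [NormedSpace ℝ E']
  {H' : Type*} [TopologicalSpace H'] (I' : ModelWithCorners ℝ E' H')
  {N : Type*} [TopologicalSpace N] [ChartedSpace H' N]

/-- Pullback of the form `w` on `M` by `f : N → M`. -/
def pull {q : ℕ} (f : N → M) (w : M → Alt E q) (s : N) : Alt E' q :=
  (w (f s)).compContinuousLinearMap (mfderiv I' I f s)

end Pull

end DtN
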