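import Pool.Agent.H14.DtN.IntM

/-!
MODULE H : finite spanning families; boundedness of module homomorphisms and pairings.
-/

open scoped Manifold ContDiff Topology ComplexConjugate
open Set MeasureTheory

set_option linter.unusedSectionVars false

noncomputable section

namespace DtN

variable {d : ℕ} {Ω : Type*} [TopologicalSpace Ω] [ChartedSpace (EuclideanHalfSpace (d + 1)) Ω]
  [IsManifold (𝓡∂ (d + 1)) ∞ Ω] [CompactSpace Ω] [T2Space Ω]

/-! ### Pointwise facts -/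

section Pointwise

variable (g : Metric (𝓡∂ (d + 1)) Ω) {q : ℕ}

theorem fip_self_im (w : Ω → Alt (Eu (d + 1)) q) (z : Ω) : (fip g w w z).im = 0 :=
  formInner_self_im _ (gram_self_posDef g z) _

theorem pn_nonneg (w : Ω → Alt (Eu (d + 1)) q) (z : Ω) : 0 ≤ pn g w z := Real.sqrt_nonneg _

theorem pn_sq (w : Ω → Alt (Eu (d + 1)) q) (z : Ω) : pn g w z ^ 2 = (fip g w w z).re :=
  Real.sq_sqrt (fip_self_nonneg g w z)

theorem fip_self_eq_pn (w : Ω → Alt (Eu (d + 1)) q) (z : Ω) :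
    fip g w w z = ((pn g w z ^ 2 : ℝ) : ℂ) := by
  apply Complex.ext
  · rw [Complex.ofReal_re, pn_sq]
  · rw [Complex.ofReal_im, fip_self_im]

theorem norm_fip_le (v w : Ω → Alt (Eu (d + 1)) q) (z : Ω) :
    ‖fip g v w z‖ ≤ pn g v z * pn g w z :=
  norm_formInner_le _ (gram_self_posDef g z) _ _

theorem fip_add_left (v v' w : Ω → Alt (Eu (d + 1)) q) (z : Ω) :
    fip g (v + v') w z = fip g v w z + fip g v' w z :=
  formInner_add_left _ _ _ _

theorem fip_conj_symm (v w : Ω → Alt (Eu (d + 1)) q) (z : Ω) :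
    conj (fip g w v z) = fip g v w z :=
  formInner_conj_symm _ (gram_self_posDef g z) _ _

theorem fip_add_right (v w w' : Ω → Alt (Eu (d + 1)) q) (z : Ω) :
    fip g v (w + w') z = fip g v w z + fip g v w' z := by
  rw [← fip_conj_symm, fip_add_left, map_add, fip_conj_symm, fip_conj_symm]

theorem fip_smul_left (b : Ω → ℂ) (v w : Ω → Alt (Eu (d + 1)) q) (z : Ω) :
    fip g (b • v) w z = b z * fip g v w z :=
  formInner_smul_left _ _ _ _

theorem fip_smul_right (b : Ω → ℂ) (v w : Ω → Alt (Eu (d + 1)) q) (z : Ω) :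
    fip g v (b • w) z = conj (b z) * fip g v w z := by
  rw [← fip_conj_symm, fip_smul_left, map_mul, fip_conj_symm]

theorem pn_congr {v w : Ω → Alt (Eu (d + 1)) q} {z : Ω} (h : v z = w z) :
    pn g v z = pn g w z := by
  simp only [pn, fip, h]

theorem pn_smul (b : Ω → ℂ) (w : Ω → Alt (Eu (d + 1)) q) (z : Ω) :
    pn g (b • w) z = ‖b z‖ * pn g w z := by
  have h : (fip g (b • w) (b • w) z).re = ‖b z‖ ^ 2 * (fip g w w z).re := by
    rw [fip_smul_left, fip_smul_right, ← mul_assoc, Complex.mul_conj, Complex.normSq_eq_norm_sq,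
      Complex.re_ofReal_mul]
  rw [pn, h, Real.sqrt_mul (sq_nonneg _), Real.sqrt_sq (norm_nonneg _), pn]

theorem pn_add_le (v w : Ω → Alt (Eu (d + 1)) q) (z : Ω) :
    pn g (v + w) z ≤ pn g v z + pn g w z := by
  have h0 : 0 ≤ pn g v z + pn g w z := add_nonneg (pn_nonneg g v z) (pn_nonneg g w z)
  refine Real.sqrt_le_iff.2 ⟨h0, ?_⟩
  have h1 : (fip g (v + w) (v + w) z).re =
      pn g v z ^ 2 + pn g w z ^ 2 + 2 * (fip g v w z).re := by
    rw [fip_add_left, fip_add_right, fip_add_right, ← fip_conj_symm g w v, pn_sq, pn_sq]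
    simp only [Complex.add_re, Complex.conj_re]
    ring
  have h2 : (fip g v w z).re ≤ pn g v z * pn g w z :=
    (Complex.re_le_norm _).trans (norm_fip_le g v w z)
  rw [h1]
  nlinarith

theorem pn_zero (z : Ω) : pn g (0 : Ω → Alt (Eu (d + 1)) q) z = 0 := by
  have h := pn_smul g (0 : Ω → ℂ) (0 : Ω → Alt (Eu (d + 1)) q) z
  rw [Pi.zero_apply, norm_zero, zero_mul] at h
  rw [← h]
  refine pn_congr g ?_
  exact (zero_smul ℂ (0 : Alt (Eu (d + 1)) q)).symm

theorem pn_eq_zero {w : Ω → Alt (Eu (d + 1)) q} {z : Ω} (h : pn g w z = 0) : w z = 0 := by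
  refine formInner_definite _ (gram_self_posDef g z) _ ?_
  have h1 := fip_self_eq_pn g w z
  rw [h] at h1
  simpa [fip] using h1

theorem SForm.sum_apply {ι : Type*} (s : Finset ι) (f : ι → SForm (𝓡∂ (d + 1)) Ω q) (z : Ω) :
    (∑ i ∈ s, f i).val z = ∑ i ∈ s, (f i).val z := by
  classical
  induction s using Finset.induction_on with
  | empty => simp
  | insert a s ha ih => rw [Finset.sum_insert ha, Finset.sum_insert ha, SForm.add_apply, ih]

theorem SFun.sum_apply {ι : Type*} (s : Finset ι) (f : ι → SFun (𝓡∂ (d + 1)) Ω) (z : Ω) :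
    (∑ i ∈ s, f i).val z = ∑ i ∈ s, (f i).val z := by
  classical
  induction s using Finset.induction_on with
  | empty => simp
  | insert a s ha ih => rw [Finset.sum_insert ha, Finset.sum_insert ha, SFun.add_apply, ih]

theorem pn_sum_le {ι : Type*} (s : Finset ι) (f : ι → SForm (𝓡∂ (d + 1)) Ω q) (z : Ω) :
    pn g (∑ i ∈ s, f i).val z ≤ ∑ i ∈ s, pn g (f i).val z := by
  classical
  induction s using Finset.induction_on with
  | empty => simp only [Finset.sum_empty]; exact (pn_zero g z).le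
  | insert a s ha ih =>
    rw [Finset.sum_insert ha, Finset.sum_insert ha]
    exact (pn_add_le g _ _ z).trans (by gcongr)

theorem continuous_pn (w : SForm (𝓡∂ (d + 1)) Ω q) : Continuous (pn g w.val) := by
  have h : Continuous (fip g w.val w.val) := (fipS g w w).smooth.continuous
  exact (Complex.continuous_re.comp h).sqrt

theorem continuous_fip (v w : SForm (𝓡∂ (d + 1)) Ω q) : Continuous (fip g v.val w.val) :=
  (fipS g v w).smooth.continuous

theorem bddAbove_of_continuous {r : Ω → ℝ} (hr : Continuous r) : ∃ K : ℝ, 0 ≤ K ∧ ∀ z, r z ≤ K := by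
  obtain ⟨K, hK⟩ := (isCompact_range hr).bddAbove
  exact ⟨max K 0, le_max_right _ _, fun z => (hK (mem_range_self z)).trans (le_max_left _ _)⟩

variable (C : Cover (𝓡∂ (d + 1)) Ω)

theorem NM_sq (w : SForm (𝓡∂ (d + 1)) Ω q) :
    NM g C q w = Real.sqrt (IntM g C (fun z => ((pn g w.val z ^ 2 : ℝ) : ℂ))).re := by
  rw [NM_apply, ipM]
  congr 3
  funext z
  exact fip_self_eq_pn g w.val z

theorem IntM_re_mono {r s : Ω → ℝ} (hr : Continuous r) (hs : Continuous s)
    (h0 : ∀ z, 0 ≤ r z) (h : ∀ z, r z ≤ s z) :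
    (IntM g C (fun z => (r z : ℂ))).re ≤ (IntM g C (fun z => (s z : ℂ))).re := by
  refine (Complex.re_le_norm _).trans
    (norm_IntM_le g C (h := fun z => (r z : ℂ)) (Complex.continuous_ofReal.comp hr) hs fun z => ?_)
  rw [Complex.norm_real, Real.norm_of_nonneg (h0 z)]
  exact h z

/-- Pointwise domination gives `L²` domination. -/
theorem NM_le_of_pn_le {q' : ℕ} {v : SForm (𝓡∂ (d + 1)) Ω q} {w : SForm (𝓡∂ (d + 1)) Ω q'}
    {K : ℝ} (hK : 0 ≤ K) (h : ∀ z, pn g v.val z ≤ K * pn g w.val z) :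
    NM g C q v ≤ K * NM g C q' w := by
  rw [NM_sq, NM_sq, ← Real.sqrt_sq hK, ← Real.sqrt_mul (sq_nonneg _)]
  refine Real.sqrt_le_sqrt ?_
  have h1 : (K ^ 2 * (IntM g C (fun z => ((pn g w.val z ^ 2 : ℝ) : ℂ))).re) =
      (IntM g C (fun z => ((K ^ 2 * pn g w.val z ^ 2 : ℝ) : ℂ))).re := by
    have h2 := IntM_smul g C ((K ^ 2 : ℝ) : ℂ) (fun z => ((pn g w.val z ^ 2 : ℝ) : ℂ))
    have h3 : (((K ^ 2 : ℝ) : ℂ) • fun z => ((pn g w.val z ^ 2 : ℝ) : ℂ)) =
        fun z => ((K ^ 2 * pn g w.val z ^ 2 : ℝ) : ℂ) := by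
      funext z
      simp
    rw [h3] at h2
    rw [h2, Complex.re_ofReal_mul]
  rw [h1]
  refine IntM_re_mono g C ((continuous_pn g v).pow 2) (continuous_const.mul
    ((continuous_pn g w).pow 2)) (fun z => sq_nonneg _) fun z => ?_
  rw [← mul_pow]
  exact pow_le_pow_left₀ (pn_nonneg g _ z) (h z) 2

end Pointwise

/-! ### Spanning families -/

theorem cover_mul (C : Cover (𝓡∂ (d + 1)) Ω) (i : Fin C.N) (z : Ω) :
    C.χ' i z * C.χ i z = C.χ i z := by
  by_cases hz : z ∈ tsupport (C.χ i)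
  · rw [(C.χ'_one i z hz).self_of_nhds, one_mul]
  · rw [image_eq_zero_of_notMem_tsupport hz, mul_zero]

theorem cover_mem {C : Cover (𝓡∂ (d + 1)) Ω} {i : Fin C.N} {z : Ω} (hz : C.χ i z ≠ 0) :
    z ∈ (extChartAt (𝓡∂ (d + 1)) (C.c i)).source :=
  C.χ_supp i (subset_tsupport _ hz)

theorem dsymm_comp_dchart' {x₀ z : Ω} (hz : z ∈ (extChartAt (𝓡∂ (d + 1)) x₀).source) :
    (dsymm (𝓡∂ (d + 1)) x₀ (extChartAt (𝓡∂ (d + 1)) x₀ z)).comp (dchart (𝓡∂ (d + 1)) x₀ z) =
      ContinuousLinearMap.id ℝ (Eu (d + 1)) := by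
  have h := dsymm_comp_dchart (𝓡∂ (d + 1)) ((extChartAt (𝓡∂ (d + 1)) x₀).map_source hz)
  rwa [(extChartAt (𝓡∂ (d + 1)) x₀).left_inv hz] at h

/-- Reindexing a finite family by `Fin m`. -/
theorem exists_spanning_aux (Ω : Type*) [TopologicalSpace Ω]
    [ChartedSpace (EuclideanHalfSpace (d + 1)) Ω]
    [IsManifold (𝓡∂ (d + 1)) ∞ Ω] [CompactSpace Ω] [T2Space Ω] :
    ∃ (ι : Type) (_ : Fintype ι) (h : ι → SFun (𝓡∂ (d + 1)) Ω) (X : ι → VF (𝓡∂ (d + 1)) Ω),
      (∀ a z, conj ((h a).val z) = (h a).val z) ∧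
      ∀ (b : SFun (𝓡∂ (d + 1)) Ω) (z : Ω) (v : Eu (d + 1)),
        b.dF z v = ∑ a, (der (X a) b).val z * (h a).dF z v := by
  obtain ⟨C⟩ := exists_cover (I := 𝓡∂ (d + 1)) (M := Ω)
  have hsm : ∀ (i : Fin C.N) (j : Fin (d + 1)), ContMDiff (𝓡∂ (d + 1)) 𝓘(ℝ, ℂ) ∞
      (ofChartF (I := 𝓡∂ (d + 1)) (C.c i) (C.χ' i) (fun y : Eu (d + 1) => ((y j : ℝ) : ℂ))) := by
    intro i j
    refine ofChartF_smooth (C.χ'_smooth i) (C.χ'_supp i) (ContDiff.contDiffOn ?_)
    exact (dx j).contDiff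
  have hsV : ∀ (i : Fin C.N) (j : Fin (d + 1)), SmoothVF (𝓡∂ (d + 1))
      (ofChartV (I := 𝓡∂ (d + 1)) (C.c i) (C.χ i) (fun _ : Eu (d + 1) => ev j)) := fun i j =>
    ofChartV_smooth (C.χ_smooth i) (C.χ_supp i) contDiffOn_const
  refine ⟨Fin C.N × Fin (d + 1), inferInstance, fun a => ⟨_, hsm a.1 a.2⟩,
    fun a => ⟨_, hsV a.1 a.2⟩, ?_, ?_⟩
  · rintro ⟨i, j⟩ z
    simp only [ofChartF]
    split_ifs
    · rw [Complex.real_smul, map_mul, Complex.conj_ofReal, Complex.conj_ofReal]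
    · exact map_zero _
  · intro b z v
    rw [Fintype.sum_prod_type]
    have key : ∀ i : Fin C.N, ∑ j, (der (⟨_, hsV i j⟩ : VF (𝓡∂ (d + 1)) Ω) b).val z *
        (⟨_, hsm i j⟩ : SFun (𝓡∂ (d + 1)) Ω).dF z v = (C.χ i z : ℂ) * b.dF z v := by
      intro i
      by_cases hi : C.χ i z = 0
      · rw [hi, Complex.ofReal_zero, zero_mul]
        refine Finset.sum_eq_zero fun j _ => ?_
        rw [der_apply]
        have h0 : ofChartV (I := 𝓡∂ (d + 1)) (C.c i) (C.χ i) (fun _ : Eu (d + 1) => ev j) z = 0 := by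
          simp only [ofChartV]
          split_ifs
          · rw [hi, zero_smul]
          · rfl
        simp only [h0, map_zero, zero_mul]
      · have hz := cover_mem hi
        have hts : z ∈ tsupport (C.χ i) := subset_tsupport _ hi
        have h1 : ∀ j, (der (⟨_, hsV i j⟩ : VF (𝓡∂ (d + 1)) Ω) b).val z =
            (C.χ i z : ℂ) * b.dF z (dsymm (𝓡∂ (d + 1)) (C.c i)
              (extChartAt (𝓡∂ (d + 1)) (C.c i) z) (ev j)) := by
          intro j
          rw [der_apply]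
          have h0 : ofChartV (I := 𝓡∂ (d + 1)) (C.c i) (C.χ i)
              (fun _ : Eu (d + 1) => ev j) z = C.χ i z • dsymm (𝓡∂ (d + 1)) (C.c i)
              (extChartAt (𝓡∂ (d + 1)) (C.c i) z) (ev j) := by
            simp only [ofChartV, if_pos hz]
          simp only [h0]
          rw [map_smul, Complex.real_smul]
        have h2 : ∀ j, (⟨_, hsm i j⟩ : SFun (𝓡∂ (d + 1)) Ω).dF z v =
            (((dchart (𝓡∂ (d + 1)) (C.c i) z v) j : ℝ) : ℂ) := by
          intro j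
          have h3 : ofChartF (I := 𝓡∂ (d + 1)) (C.c i) (C.χ' i)
              (fun y : Eu (d + 1) => ((y j : ℝ) : ℂ)) =ᶠ[𝓝 z]
              (fun z' => dx j (extChartAt (𝓡∂ (d + 1)) (C.c i) z')) := by
            filter_upwards [C.χ'_one i z hts,
              (isOpen_extChartAt_source (I := 𝓡∂ (d + 1)) (C.c i)).mem_nhds hz] with z' h4 h5
            simp only [ofChartF, if_pos h5, h4, one_smul]
            rfl
          have h6 : MDifferentiableAt (𝓡∂ (d + 1)) 𝓘(ℝ, Eu (d + 1))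
              (extChartAt (𝓡∂ (d + 1)) (C.c i)) z :=
            mdifferentiableAt_extChartAt (by rwa [extChartAt_source] at hz)
          have h7 : mfderiv (𝓡∂ (d + 1)) 𝓘(ℝ, ℂ)
              (fun z' => dx j (extChartAt (𝓡∂ (d + 1)) (C.c i) z')) z =
              (dx j).comp (dchart (𝓡∂ (d + 1)) (C.c i) z) := by
            have h8 := mfderiv_comp z (I := 𝓡∂ (d + 1)) (I' := 𝓘(ℝ, Eu (d + 1)))
              (I'' := 𝓘(ℝ, ℂ)) (f := extChartAt (𝓡∂ (d + 1)) (C.c i)) (g := dx j)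
              ((dx j).mdifferentiableAt) h6
            rw [ContinuousLinearMap.mfderiv_eq] at h8
            exact h8
          have h9 : (⟨_, hsm i j⟩ : SFun (𝓡∂ (d + 1)) Ω).dF z =
              (dx j).comp (dchart (𝓡∂ (d + 1)) (C.c i) z) := by
            rw [← h7]
            exact h3.mfderiv_eq
          rw [h9]
          rfl
        simp only [h1, h2]
        have h3 : b.dF z v = b.dF z (dsymm (𝓡∂ (d + 1)) (C.c i)
            (extChartAt (𝓡∂ (d + 1)) (C.c i) z) (dchart (𝓡∂ (d + 1)) (C.c i) z v)) := by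
          have := dsymm_comp_dchart' hz
          have h4 := DFunLike.congr_fun this v
          exact congrArg _ h4.symm
        rw [h3]
        have h5 : ∀ u : Eu (d + 1), b.dF z (dsymm (𝓡∂ (d + 1)) (C.c i)
            (extChartAt (𝓡∂ (d + 1)) (C.c i) z) u) =
            ∑ j, ((u j : ℝ) : ℂ) * b.dF z (dsymm (𝓡∂ (d + 1)) (C.c i)
              (extChartAt (𝓡∂ (d + 1)) (C.c i) z) (ev j)) := by
          intro u
          have h6 : u = ∑ j, u j • ev j := by
            ext k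
            simp [Finset.sum_apply, Pi.single_apply]
          conv_lhs => rw [h6]
          rw [map_sum, map_sum]
          refine Finset.sum_congr rfl fun j _ => ?_
          rw [map_smul, map_smul, Complex.real_smul]
        rw [h5, Finset.mul_sum]
        refine Finset.sum_congr rfl fun j _ => ?_
        ring
    simp only [key]
    rw [← Finset.sum_mul]
    have hs : (∑ i, (C.χ i z : ℂ)) = 1 := by
      rw [← Complex.ofReal_sum, C.χ_sum z, Complex.ofReal_one]
    rw [hs, one_mul]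

/-- Finite family of functions and fields with `d b = ∑ X_a(b) d h_a`. -/
theorem exists_spanning (Ω : Type*) [TopologicalSpace Ω]
    [ChartedSpace (EuclideanHalfSpace (d + 1)) Ω]
    [IsManifold (𝓡∂ (d + 1)) ∞ Ω] [CompactSpace Ω] [T2Space Ω] :
    ∃ (m : ℕ) (h : Fin m → SFun (𝓡∂ (d + 1)) Ω) (X : Fin m → VF (𝓡∂ (d + 1)) Ω),
      (∀ a z, conj ((h a).val z) = (h a).val z) ∧
      ∀ (b : SFun (𝓡∂ (d + 1)) Ω) (z : Ω) (v : Eu (d + 1)),
        b.dF z v = ∑ a, (der (X a) b).val z * (h a).dF z v := by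
  obtain ⟨ι, hι, h, X, h1, h2⟩ := exists_spanning_aux (d := d) Ω
  let e := Fintype.equivFin ι
  refine ⟨Fintype.card ι, fun a => h (e.symm a), fun a => X (e.symm a), fun a z => h1 _ z,
    fun b z v => ?_⟩
  rw [h2 b z v]
  exact (Equiv.sum_comp e.symm (fun a => (der (X a) b).val z * (h a).dF z v)).symm

variable (g : Metric (𝓡∂ (d + 1)) Ω) (C : Cover (𝓡∂ (d + 1)) Ω)

/-- The coefficients of a form in a chart, cut off. -/
def coefS (C : Cover (𝓡∂ (d + 1)) Ω) {q : ℕ} (i : Fin C.N) (c : Alt (Eu (d + 1)) q →L[ℂ] ℂ) :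
    SForm (𝓡∂ (d + 1)) Ω q →ₗ[SFun (𝓡∂ (d + 1)) Ω] SFun (𝓡∂ (d + 1)) Ω where
  toFun w := ⟨ofChartF (I := 𝓡∂ (d + 1)) (C.c i) (C.χ i)
    (fun y => c (rep (𝓡∂ (d + 1)) (C.c i) w.val y)), by
      refine ofChartF_smooth (C.χ_smooth i) (C.χ_supp i) ?_
      exact (c.restrictScalars ℝ).contDiff.comp_contDiffOn (w.smooth (C.c i))⟩
  map_add' v w := by
    apply SFun.val_injective
    funext z
    simp only [ofChartF, SFun.add_apply]
    split_ifs with hz
    · have h : rep (𝓡∂ (d + 1)) (C.c i) (v + w).val = rep (𝓡∂ (d + 1)) (C.c i) v.val +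
        rep (𝓡∂ (d + 1)) (C.c i) w.val := rep_add _ _ _
      rw [h, Pi.add_apply, map_add, smul_add]
    · rw [add_zero]
  map_smul' b w := by
    apply SFun.val_injective
    funext z
    simp only [ofChartF, RingHom.id_apply, smul_eq_mul, SFun.mul_apply]
    split_ifs with hz
    · have h : rep (𝓡∂ (d + 1)) (C.c i) (b • w).val (extChartAt (𝓡∂ (d + 1)) (C.c i) z) =
          b.val ((extChartAt (𝓡∂ (d + 1)) (C.c i)).symm (extChartAt (𝓡∂ (d + 1)) (C.c i) z)) •
            rep (𝓡∂ (d + 1)) (C.c i) w.val (extChartAt (𝓡∂ (d + 1)) (C.c i) z) :=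
        rep_smul _ _ _ _
      rw [h, (extChartAt (𝓡∂ (d + 1)) (C.c i)).left_inv hz, map_smul, smul_eq_mul,
        Complex.real_smul, Complex.real_smul]
      ring
    · rw [mul_zero]

theorem coefS_val (C : Cover (𝓡∂ (d + 1)) Ω) {q : ℕ} (i : Fin C.N)
    (c : Alt (Eu (d + 1)) q →L[ℂ] ℂ) (w : SForm (𝓡∂ (d + 1)) Ω q) :
    (coefS C i c w).val = ofChartF (I := 𝓡∂ (d + 1)) (C.c i) (C.χ i)
      (fun y => c (rep (𝓡∂ (d + 1)) (C.c i) w.val y)) := rfl

/-- Finite generation of forms with pointwise bounded coefficients. -/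
theorem exists_frame (q : ℕ) : ∃ (m : ℕ) (θ : Fin m → SForm (𝓡∂ (d + 1)) Ω q)
    (f : Fin m → (SForm (𝓡∂ (d + 1)) Ω q →ₗ[SFun (𝓡∂ (d + 1)) Ω] SFun (𝓡∂ (d + 1)) Ω)) (K : ℝ),
    (∀ w, w = ∑ j, f j w • θ j) ∧ ∀ j w z, ‖(f j w).val z‖ ≤ K * pn g w.val z := by
  obtain ⟨C⟩ := exists_cover (I := 𝓡∂ (d + 1)) (M := Ω)
  have : FiniteDimensional ℂ (Alt (Eu (d + 1)) q) := FiniteDimensional.right ℝ ℂ _
  let B := Module.finBasis ℂ (Alt (Eu (d + 1)) q)
  let r := Module.finrank ℂ (Alt (Eu (d + 1)) q)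
  let cc : Fin r → (Alt (Eu (d + 1)) q →L[ℂ] ℂ) := fun j =>
    LinearMap.toContinuousLinearMap (B.coord j)
  have hB : ∀ u : Alt (Eu (d + 1)) q, ∑ j, cc j u • B j = u := fun u => B.sum_repr u
  let ι := Fin C.N × Fin r
  let e : Fin (Fintype.card ι) ≃ ι := (Fintype.equivFin ι).symm
  have hsθ : ∀ (i : Fin C.N) (j : Fin r), SmoothForm (𝓡∂ (d + 1))
      (ofChart (I := 𝓡∂ (d + 1)) (C.c i) (C.χ' i) (fun _ : Eu (d + 1) => B j)) := fun i j =>
    ofChart_smooth (C.χ'_smooth i) (C.χ'_supp i) contDiffOn_const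
  have hpn : ∀ i : Fin C.N, ∃ K : ℝ, 0 < K ∧ ∀ w : Ω → Alt (Eu (d + 1)) q, ∀ z ∈ tsupport (C.χ i),
      ‖rep (𝓡∂ (d + 1)) (C.c i) w (extChartAt (𝓡∂ (d + 1)) (C.c i) z)‖ ≤ K * pn g w z := by
    intro i
    have hc : IsCompact (tsupport (C.χ i)) := (isClosed_tsupport _).isCompact
    have hc2 : IsCompact (extChartAt (𝓡∂ (d + 1)) (C.c i) '' tsupport (C.χ i)) :=
      hc.image_of_continuousOn ((continuousOn_extChartAt (C.c i)).mono (C.χ_supp i))
    obtain ⟨K, hK, h⟩ := pn_comparison g q (C.c i) hc2 (by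
      rintro _ ⟨z, hz, rfl⟩
      exact (extChartAt (𝓡∂ (d + 1)) (C.c i)).map_source (C.χ_supp i hz))
    refine ⟨K, hK, fun w z hz => ?_⟩
    have h1 := (h _ (mem_image_of_mem _ hz) w).1
    rwa [(extChartAt (𝓡∂ (d + 1)) (C.c i)).left_inv (C.χ_supp i hz)] at h1
  choose K hK0 hK using hpn
  refine ⟨Fintype.card ι, fun a => ⟨_, hsθ (e a).1 (e a).2⟩, fun a => coefS C (e a).1 (cc (e a).2),
    ∑ i, ∑ j, ‖cc j‖ * K i, fun w => ?_, fun a w z => ?_⟩
  · have h1 := Equiv.sum_comp e (fun a : ι => coefS C a.1 (cc a.2) w •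
      (⟨_, hsθ a.1 a.2⟩ : SForm (𝓡∂ (d + 1)) Ω q))
    rw [h1]
    apply SForm.val_injective
    funext z
    rw [SForm.sum_apply]
    change w.val z = ∑ a : Fin C.N × Fin r, _
    rw [Fintype.sum_prod_type]
    have key : ∀ i : Fin C.N, ∑ j, (coefS C i (cc j) w •
        (⟨_, hsθ i j⟩ : SForm (𝓡∂ (d + 1)) Ω q)).val z = (C.χ i z : ℂ) • w.val z := by
      intro i
      simp only [SForm.smul_apply, coefS_val]
      by_cases hi : C.χ i z = 0
      · rw [hi, Complex.ofReal_zero]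
        refine (Finset.sum_eq_zero fun j _ => ?_).trans (zero_smul ℂ (w.val z)).symm
        have h0 : ofChartF (I := 𝓡∂ (d + 1)) (C.c i) (C.χ i)
            (fun y => cc j (rep (𝓡∂ (d + 1)) (C.c i) w.val y)) z = 0 := by
          simp only [ofChartF]
          split_ifs
          · rw [hi, zero_smul]
          · rfl
        rw [h0]
        exact zero_smul ℂ (ofChart (I := 𝓡∂ (d + 1)) (C.c i) (C.χ' i) (fun _ => B j) z)
      · have hz := cover_mem hi
        simp only [ofChartF, ofChart, if_pos hz]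
        have h2 : (rep (𝓡∂ (d + 1)) (C.c i) w.val
            (extChartAt (𝓡∂ (d + 1)) (C.c i) z)).compContinuousLinearMap
            (dchart (𝓡∂ (d + 1)) (C.c i) z) = w.val z := by
          ext v
          have h3 := fun x => DFunLike.congr_fun (dsymm_comp_dchart' (x₀ := C.c i) hz) x
          simp only [rep, ContinuousAlternatingMap.compContinuousLinearMap_apply,
            (extChartAt (𝓡∂ (d + 1)) (C.c i)).left_inv hz]
          congr 1
          funext l
          exact h3 (v l)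
        have h3 : ∀ j, ((C.χ i z) • cc j (rep (𝓡∂ (d + 1)) (C.c i) w.val
            (extChartAt (𝓡∂ (d + 1)) (C.c i) z))) • ((C.χ' i z) •
            (B j).compContinuousLinearMap (dchart (𝓡∂ (d + 1)) (C.c i) z)) =
            (C.χ i z : ℂ) • ((cc j (rep (𝓡∂ (d + 1)) (C.c i) w.val
            (extChartAt (𝓡∂ (d + 1)) (C.c i) z))) • B j).compContinuousLinearMap
              (dchart (𝓡∂ (d + 1)) (C.c i) z) := by
          intro j
          ext v
          have h4 : (C.χ' i z : ℂ) * (C.χ i z : ℂ) = (C.χ i z : ℂ) := by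
            exact_mod_cast cover_mul C i z
          simp only [ContinuousAlternatingMap.smul_apply, Complex.real_smul, smul_eq_mul,
            ContinuousAlternatingMap.compContinuousLinearMap_apply]
          linear_combination (cc j (rep (𝓡∂ (d + 1)) (C.c i) w.val
            (extChartAt (𝓡∂ (d + 1)) (C.c i) z)) * (B j)
              (⇑(dchart (𝓡∂ (d + 1)) (C.c i) z) ∘ v)) * h4
        simp only [h3]
        rw [← Finset.smul_sum]
        congr 1
        conv_rhs => rw [← h2, ← hB (rep (𝓡∂ (d + 1)) (C.c i) w.val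
          (extChartAt (𝓡∂ (d + 1)) (C.c i) z))]
        ext v
        simp only [ContinuousAlternatingMap.sum_apply,
          ContinuousAlternatingMap.compContinuousLinearMap_apply]
    simp only [key]
    rw [← Finset.sum_smul, ← Complex.ofReal_sum, C.χ_sum z, Complex.ofReal_one, one_smul]
  · rw [coefS_val]
    set i := (e a).1
    set j := (e a).2
    have hpos : 0 ≤ (∑ i, ∑ j, ‖cc j‖ * K i) * pn g w.val z :=
      mul_nonneg (Finset.sum_nonneg fun i _ => Finset.sum_nonneg fun j _ =>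
        mul_nonneg (ContinuousLinearMap.opNorm_nonneg _) (hK0 i).le) (pn_nonneg g _ z)
    have hle1 : C.χ i z ≤ 1 := by
      rw [← C.χ_sum z]
      exact Finset.single_le_sum (f := fun i => C.χ i z) (fun i _ => C.χ_nonneg i z)
        (Finset.mem_univ i)
    by_cases hi : C.χ i z = 0
    · have h0 : ofChartF (I := 𝓡∂ (d + 1)) (C.c i) (C.χ i)
          (fun y => cc j (rep (𝓡∂ (d + 1)) (C.c i) w.val y)) z = 0 := by
        simp only [ofChartF]
        split_ifs
        · rw [hi, zero_smul]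
        · rfl
      rw [h0, norm_zero]
      exact hpos
    · have hz := cover_mem hi
      have hts : z ∈ tsupport (C.χ i) := subset_tsupport _ hi
      simp only [ofChartF, if_pos hz]
      rw [norm_smul, Real.norm_of_nonneg (C.χ_nonneg i z)]
      calc C.χ i z * ‖cc j (rep (𝓡∂ (d + 1)) (C.c i) w.val (extChartAt (𝓡∂ (d + 1)) (C.c i) z))‖
          ≤ 1 * (‖cc j‖ * (K i * pn g w.val z)) := by
            refine mul_le_mul hle1 ?_ (norm_nonneg _) zero_le_one
            refine ((cc j).le_opNorm _).trans ?_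
            exact mul_le_mul_of_nonneg_left (hK i w.val z hts)
              (ContinuousLinearMap.opNorm_nonneg _)
        _ = (‖cc j‖ * K i) * pn g w.val z := by ring
        _ ≤ (∑ i, ∑ j, ‖cc j‖ * K i) * pn g w.val z := by
            refine mul_le_mul_of_nonneg_right ?_ (pn_nonneg g _ z)
            refine le_trans ?_ (Finset.single_le_sum (f := fun i => ∑ j, ‖cc j‖ * K i)
              (fun i _ => Finset.sum_nonneg fun j _ => mul_nonneg (ContinuousLinearMap.opNorm_nonneg _) (hK0 i).le)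
              (Finset.mem_univ i))
            exact Finset.single_le_sum (f := fun j => ‖cc j‖ * K i)
              (fun j _ => mul_nonneg (ContinuousLinearMap.opNorm_nonneg _) (hK0 i).le) (Finset.mem_univ j)

/-- Module homomorphisms are pointwise bounded. -/
theorem pn_hom_le {q q' : ℕ}
    (Q : SForm (𝓡∂ (d + 1)) Ω q →ₗ[SFun (𝓡∂ (d + 1)) Ω] SForm (𝓡∂ (d + 1)) Ω q') :
    ∃ K : ℝ, 0 ≤ K ∧ ∀ w z, pn g (Q w).val z ≤ K * pn g w.val z := by
  obtain ⟨m, θ, f, K, hf, hK⟩ := exists_frame g (Ω := Ω) q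
  have hb : ∀ j, ∃ B : ℝ, 0 ≤ B ∧ ∀ z, pn g (Q (θ j)).val z ≤ B := fun j =>
    bddAbove_of_continuous (continuous_pn g (Q (θ j)))
  choose B hB0 hB using hb
  refine ⟨∑ j, |K| * B j, Finset.sum_nonneg fun j _ => mul_nonneg (abs_nonneg _) (hB0 j),
    fun w z => ?_⟩
  have h1 : Q w = ∑ j, f j w • Q (θ j) := by
    conv_lhs => rw [hf w]
    rw [map_sum]
    exact Finset.sum_congr rfl fun j _ => map_smul _ _ _
  rw [h1, Finset.sum_mul]
  refine (pn_sum_le g _ _ z).trans (Finset.sum_le_sum fun j _ => ?_)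
  have h2 : pn g (f j w • Q (θ j)).val z = ‖(f j w).val z‖ * pn g (Q (θ j)).val z :=
    pn_smul g (f j w).val (Q (θ j)).val z
  rw [h2]
  have h3 : ‖(f j w).val z‖ ≤ |K| * pn g w.val z :=
    (hK j w z).trans (mul_le_mul_of_nonneg_right (le_abs_self K) (pn_nonneg g _ z))
  calc ‖(f j w).val z‖ * pn g (Q (θ j)).val z ≤ (|K| * pn g w.val z) * B j :=
        mul_le_mul h3 (hB j z) (pn_nonneg g _ z)
          (mul_nonneg (abs_nonneg _) (pn_nonneg g _ z))
    _ = |K| * B j * pn g w.val z := by ring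

/-- Module homomorphisms are bounded in `L²`. -/
theorem bounded_hom {q q' : ℕ}
    (Q : SForm (𝓡∂ (d + 1)) Ω q →ₗ[SFun (𝓡∂ (d + 1)) Ω] SForm (𝓡∂ (d + 1)) Ω q') :
    ∃ K : ℝ, ∀ w, NM g C q' (Q w) ≤ K * NM g C q w := by
  obtain ⟨K, hK0, hK⟩ := pn_hom_le g Q
  exact ⟨K, fun w => NM_le_of_pn_le g C hK0 (hK w)⟩

/-- Complex conjugation of smooth functions. -/
def SFun.conjS (b : SFun (𝓡∂ (d + 1)) Ω) : SFun (𝓡∂ (d + 1)) Ω :=
  ⟨fun z => conj (b.val z), Complex.conjCLE.contDiff.contMDiff.comp b.smooth⟩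

theorem SFun.conjS_apply (b : SFun (𝓡∂ (d + 1)) Ω) (z : Ω) :
    b.conjS.val z = conj (b.val z) := rfl

/-- Pointwise sesquilinear pairings are pointwise bounded. -/
theorem norm_pairing_le {q : ℕ}
    (β : SForm (𝓡∂ (d + 1)) Ω q →+ SForm (𝓡∂ (d + 1)) Ω q →+ SFun (𝓡∂ (d + 1)) Ω)
    (h1 : ∀ (b : SFun (𝓡∂ (d + 1)) Ω) v w, β (b • v) w = b * β v w)
    (h2 : ∀ (b b' : SFun (𝓡∂ (d + 1)) Ω) v w, (∀ z, b'.val z = conj (b.val z)) →
      β v (b • w) = b' * β v w) :
    ∃ K : ℝ, 0 ≤ K ∧ ∀ v w z, ‖(β v w).val z‖ ≤ K * pn g v.val z * pn g w.val z := by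
  obtain ⟨m, θ, f, K, hf, hK⟩ := exists_frame g (Ω := Ω) q
  have hb : ∀ j k, ∃ B : ℝ, 0 ≤ B ∧ ∀ z, ‖(β (θ j) (θ k)).val z‖ ≤ B := fun j k =>
    bddAbove_of_continuous (β (θ j) (θ k)).smooth.continuous.norm
  choose B hB0 hB using hb
  refine ⟨∑ j, ∑ k, |K| * |K| * B j k, Finset.sum_nonneg fun j _ => Finset.sum_nonneg fun k _ =>
    mul_nonneg (mul_nonneg (abs_nonneg _) (abs_nonneg _)) (hB0 j k), fun v w z => ?_⟩
  have h3 : β v w = ∑ j, ∑ k, f j v * ((f k w).conjS * β (θ j) (θ k)) := by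
    conv_lhs => rw [hf v]
    rw [map_sum, AddMonoidHom.finsetSum_apply]
    refine Finset.sum_congr rfl fun j _ => ?_
    rw [h1]
    conv_lhs => rw [hf w]
    rw [map_sum, Finset.mul_sum]
    refine Finset.sum_congr rfl fun k _ => ?_
    rw [h2 (f k w) (f k w).conjS _ _ fun z => rfl]
  have hb3 : ∀ (u : SForm (𝓡∂ (d + 1)) Ω q) j, ‖(f j u).val z‖ ≤ |K| * pn g u.val z := fun u j =>
    (hK j u z).trans (mul_le_mul_of_nonneg_right (le_abs_self K) (pn_nonneg g _ z))
  rw [h3, SFun.sum_apply, Finset.sum_mul, Finset.sum_mul]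
  refine (norm_sum_le _ _).trans (Finset.sum_le_sum fun j _ => ?_)
  rw [SFun.sum_apply, Finset.sum_mul, Finset.sum_mul]
  refine (norm_sum_le _ _).trans (Finset.sum_le_sum fun k _ => ?_)
  rw [SFun.mul_apply, SFun.mul_apply, SFun.conjS_apply, norm_mul, norm_mul, Complex.norm_conj]
  have e1 := hb3 v j
  have e2 := hb3 w k
  have e3 := hB j k z
  have p1 := pn_nonneg g v.val z
  have p2 := pn_nonneg g w.val z
  calc ‖(f j v).val z‖ * (‖(f k w).val z‖ * ‖(β (θ j) (θ k)).val z‖) ≤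
        (|K| * pn g v.val z) * ((|K| * pn g w.val z) * B j k) := by
          gcongr
    _ = |K| * |K| * B j k * pn g v.val z * pn g w.val z := by ring

/-- Pointwise sesquilinear pairings are bounded in `L²`. -/
theorem bounded_pairing {q : ℕ}
    (β : SForm (𝓡∂ (d + 1)) Ω q →+ SForm (𝓡∂ (d + 1)) Ω q →+ SFun (𝓡∂ (d + 1)) Ω)
    (h1 : ∀ (b : SFun (𝓡∂ (d + 1)) Ω) v w, β (b • v) w = b * β v w)
    (h2 : ∀ (b b' : SFun (𝓡∂ (d + 1)) Ω) v w, (∀ z, b'.val z = conj (b.val z)) →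
      β v (b • w) = b' * β v w) :
    ∃ K : ℝ, ∀ v w, ‖IntM g C (β v w).val‖ ≤ K * NM g C q v * NM g C q w := by
  obtain ⟨K, hK0, hK⟩ := norm_pairing_le g β h1 h2
  refine ⟨K, fun v w => ?_⟩
  have h3 := norm_IntM_mul_le g C (h := (β v w).val) (a := fun z => K * pn g v.val z)
    (b := fun z => pn g w.val z) (β v w).smooth.continuous
    (continuous_const.mul (continuous_pn g v)) (continuous_pn g w)
    (fun z => mul_nonneg hK0 (pn_nonneg g _ z)) (fun z => pn_nonneg g _ z) (hK v w)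
  refine h3.trans (le_of_eq ?_)
  rw [NM_sq g C v, NM_sq g C w]
  congr 1
  have h4 := IntM_smul g C ((K ^ 2 : ℝ) : ℂ) (fun z => ((pn g v.val z ^ 2 : ℝ) : ℂ))
  have h5 : (((K ^ 2 : ℝ) : ℂ) • fun z => ((pn g v.val z ^ 2 : ℝ) : ℂ)) =
      fun z => (((K * pn g v.val z) ^ 2 : ℝ) : ℂ) := by
    funext z
    simp [mul_pow]
  rw [h5] at h4
  rw [h4, Complex.re_ofReal_mul, Real.sqrt_mul (sq_nonneg _), Real.sqrt_sq hK0]

/-- Multiplication by a function bounded by `K`. -/
theorem NM_smul_le {q : ℕ} (b : SFun (𝓡∂ (d + 1)) Ω) (w : SForm (𝓡∂ (d + 1)) Ω q) {K : ℝ}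
    (hb : ∀ z, ‖b.val z‖ ≤ K) : NM g C q (b • w) ≤ K * NM g C q w := by
  rcases isEmpty_or_nonempty Ω with hΩ | ⟨⟨z₀⟩⟩
  · have h0 : b • w = 0 := by
      apply SForm.val_injective
      funext z
      exact hΩ.elim z
    have h1 : w = 0 := by
      apply SForm.val_injective
      funext z
      exact hΩ.elim z
    rw [h0, h1, map_zero, mul_zero]
  · refine NM_le_of_pn_le g C ((norm_nonneg _).trans (hb z₀)) fun z => ?_
    have h2 : pn g (b • w).val z = ‖b.val z‖ * pn g w.val z := pn_smul g b.val w.val z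
    rw [h2]
    exact mul_le_mul_of_nonneg_right (hb z) (pn_nonneg g _ z)

end DtN
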