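import Pool.Agent.H14.DtN.LocGaffAuxD

/-!
MODULE D3 : local Gaffney inequality in the half space.
-/

open scoped ContDiff Topology ComplexConjugate
open Set MeasureTheory

set_option linter.unusedSectionVars false

noncomputable section

namespace DtN

variable {d q : ℕ}

namespace LG

/-- the field of the problem -/
def VF0 (G : Eu (d + 1) → Matrix (Fin (d + 1)) (Fin (d + 1)) ℝ)
    (w : Eu (d + 1) → Alt (Eu (d + 1)) (q + 1)) (j : Fin (d + 1)) (y : Eu (d + 1)) : ℂ :=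
  VV (fun j k θ y => cc (G y) j k θ) LL MM w j y

theorem VF0_bdry {O : Set (Eu (d + 1))} (hO : IsOpen O)
    {G : Eu (d + 1) → Matrix (Fin (d + 1)) (Fin (d + 1)) ℝ}
    (hpos : ∀ y ∈ HS d ∩ O, (G y).PosDef)
    {w : Eu (d + 1) → Alt (Eu (d + 1)) (q + 1)} (hw : ContDiffOn ℝ ∞ w (HS d ∩ O))
    (h0 : ∀ y ∈ HS d ∩ O, y 0 = 0 → wedge1 (dx 0) (w y) = 0)
    {y : Eu (d + 1)} (hy : y ∈ HS d ∩ O) (hy0 : y 0 = 0) : VF0 G w 0 y = 0 := by
  unfold VF0 VV
  refine Finset.sum_eq_zero fun k _ => ?_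
  rw [sum_cc]
  by_cases hk : k = 0
  · subst hk
    rw [sub_self, mul_zero]
  · rw [cross_zero (G y) (hpos y hy) 0 k _ _ (tangential hO hw h0 hy hy0 hk) (h0 y hy hy0),
      mul_zero]

theorem VF0_zero {O K : Set (Eu (d + 1))}
    {G : Eu (d + 1) → Matrix (Fin (d + 1)) (Fin (d + 1)) ℝ}
    {w : Eu (d + 1) → Alt (Eu (d + 1)) (q + 1)}
    (hz : ∀ y ∈ HS d ∩ O, y ∉ K → w y = 0) (j : Fin (d + 1)) :
    ∀ y ∈ HS d ∩ O, y ∉ K → VF0 G w j y = 0 := by
  intro y hy hyK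
  unfold VF0 VV
  refine Finset.sum_eq_zero fun k _ => Finset.sum_eq_zero fun θ _ => ?_
  rw [hz y hy hyK, map_zero, mul_zero, smul_zero]

/-- pointwise identity -/
theorem pointwise {O : Set (Eu (d + 1))} (hO : IsOpen O)
    {G : Eu (d + 1) → Matrix (Fin (d + 1)) (Fin (d + 1)) ℝ}
    (hG : ∀ i j, ContDiffOn ℝ ∞ (fun y => G y i j) (HS d ∩ O))
    (hpos : ∀ y ∈ HS d ∩ O, (G y).PosDef)
    {w : Eu (d + 1) → Alt (Eu (d + 1)) (q + 1)} (hw : ContDiffOn ℝ ∞ w (HS d ∩ O))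
    {y : Eu (d + 1)} (hy : y ∈ HS d ∩ O) :
    (Real.sqrt (G y).det : ℂ) * N1 (G y) (fun k => fderivWithin ℝ w (HS d) y (ev k)) =
      (Real.sqrt (G y).det : ℂ) * formInner (G y) (extDerivWithin w (HS d) y)
        (extDerivWithin w (HS d) y) +
      (Real.sqrt (G y).det : ℂ) * formInner (G y)
        (del (G y) fun k => fderivWithin ℝ w (HS d) y (ev k))
        (del (G y) fun k => fderivWithin ℝ w (HS d) y (ev k)) -
      (∑ j, fderivWithin ℝ (VF0 G w j) (HS d) y (ev j)) +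
      ∑ j, ∑ k, ∑ θ : TH (d + 1) q, (fderivWithin ℝ (fun y => cc (G y) j k θ) (HS d) y (ev j)) •
        (LL θ (fderivWithin ℝ w (HS d) y (ev k)) * MM θ (w y)) := by
  have h1 := identity (G y) (hpos y hy) (fderivWithin ℝ w (HS d) y)
  have h2 := div_field (c := fun j k θ y => cc (G y) j k θ) hO LL MM
    (fun j k θ y => cc_anti (G y) j k θ) (fun j k θ => cc_contDiffOn hG hpos j k θ) hw hy
  have h3 : (∑ j, ∑ k, ∑ θ : TH (d + 1) q, cc (G y) j k θ •
      (LL θ (fderivWithin ℝ w (HS d) y (ev k)) * MM θ (fderivWithin ℝ w (HS d) y (ev j)))) =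
      (Real.sqrt (G y).det : ℂ) * cross (G y) (fun k => fderivWithin ℝ w (HS d) y (ev k)) := by
    unfold cross
    rw [Finset.mul_sum]
    refine Finset.sum_congr rfl fun j _ => ?_
    rw [Finset.mul_sum]
    exact Finset.sum_congr rfl fun k _ => sum_cc _ _ _ _ _
  rw [h3] at h2
  have h4 : ∑ j, fderivWithin ℝ (VF0 G w j) (HS d) y (ev j) =
      ∑ j, fderivWithin ℝ (VV (fun j k θ y => cc (G y) j k θ) LL MM w j) (HS d) y (ev j) := rfl
  rw [h4, h2]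
  have h5 : formInner (G y) (extDerivWithin w (HS d) y) (extDerivWithin w (HS d) y) =
    formInner (G y) (alt (fderivWithin ℝ w (HS d) y)) (alt (fderivWithin ℝ w (HS d) y)) := rfl
  rw [h5]
  linear_combination (-(Real.sqrt (G y).det : ℂ)) * h1

theorem codLoc_zero {O K : Set (Eu (d + 1))} (hO : IsOpen O) (hK : IsCompact K)
    {G : Eu (d + 1) → Matrix (Fin (d + 1)) (Fin (d + 1)) ℝ}
    {w : Eu (d + 1) → Alt (Eu (d + 1)) (q + 1)}
    (hz : ∀ y ∈ HS d ∩ O, y ∉ K → w y = 0) {y : Eu (d + 1)} (hy : y ∈ HS d ∩ O) (hyK : y ∉ K) :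
    codLoc G w y = 0 := by
  have h1 : ∀ y ∈ HS d ∩ O, y ∉ K → Real.sqrt (G y).det •
    (w y).compContinuousLinearMap (matL (G y)⁻¹) = 0 := by
    intro y hy hyK
    rw [hz y hy hyK]
    ext m
    rw [ContinuousAlternatingMap.smul_apply]
    show Real.sqrt (G y).det • (0 : ℂ) = 0
    rw [smul_zero]
  unfold codLoc
  rw [fd_zero hO hK h1 hy hyK]
  ext m
  rw [ContinuousAlternatingMap.smul_apply, ContinuousAlternatingMap.compContinuousLinearMap_apply,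
    ContinuousAlternatingMap.sum_apply]
  have h2 : ∀ m' : Fin q → Eu (d + 1), ∑ k, (((0 : Eu (d + 1) →L[ℝ] Alt (Eu (d + 1)) (q + 1))
      (ev k)).curryLeft (ev k)) m' = 0 := fun m' => Finset.sum_eq_zero fun k _ => rfl
  rw [h2, smul_zero]
  rfl

theorem contOn_mat {s : Set (Eu (d + 1))} {G : Eu (d + 1) → Matrix (Fin (d + 1)) (Fin (d + 1)) ℝ}
    (hG : ∀ i j, ContinuousOn (fun y => G y i j) s) : ContinuousOn G s :=
  continuousOn_pi.2 fun i => continuousOn_pi.2 fun j => hG i j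

/-- arithmetic of the final estimate -/
theorem arith {T1 T2 W Dw Cw De N P Q S Er ρ r R C1 C2 C3 C4 C5 D : ℝ}
    (hr : 0 < r) (hC1 : 0 < C1) (hC2 : 0 < C2) (hC3 : 0 < C3)
    (hD : 0 < D) (hrρ : r ≤ ρ) (hρR : ρ ≤ R)
    (hDe : 0 ≤ De) (hT2 : 0 ≤ T2) (hP0 : 0 ≤ P) (hQ0 : 0 ≤ Q)
    (h1 : T2 ≤ C1 * N) (h2 : P ≤ C2 * Dw ^ 2) (h3 : Q ≤ C3 * De ^ 2) (h4 : De ≤ Cw + C4 * W)
    (h5 : Er ≤ C5 * T1 * W) (h6 : T1 ^ 2 ≤ D * T2) (h7 : ρ * N = ρ * P + ρ * Q - S + Er) :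
    T2 ≤ (2 * C1 / r * (R * C2 + 2 * R * C3 + 2 * R * C3 * C4 ^ 2 + C1 * D * C5 ^ 2 / (2 * r))) *
      (Dw ^ 2 + Cw ^ 2 + W ^ 2) - 2 * C1 / r * S := by
  have hR : 0 < R := lt_of_lt_of_le hr (hrρ.trans hρR)
  have hρ : 0 < ρ := lt_of_lt_of_le hr hrρ
  have hN : 0 ≤ N := by
    by_contra hn
    push Not at hn
    nlinarith
  have e1 : r * N ≤ ρ * N := mul_le_mul_of_nonneg_right hrρ hN
  have e2 : ρ * P ≤ R * (C2 * Dw ^ 2) :=
    (mul_le_mul_of_nonneg_right hρR hP0).trans (mul_le_mul_of_nonneg_left h2 hR.le)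
  have e3 : De ^ 2 ≤ 2 * Cw ^ 2 + 2 * C4 ^ 2 * W ^ 2 := by
    have : De ^ 2 ≤ (Cw + C4 * W) ^ 2 := pow_le_pow_left₀ hDe h4 2
    nlinarith [sq_nonneg (Cw - C4 * W)]
  have e4 : ρ * Q ≤ R * (C3 * (2 * Cw ^ 2 + 2 * C4 ^ 2 * W ^ 2)) :=
    (mul_le_mul_of_nonneg_right hρR hQ0).trans (mul_le_mul_of_nonneg_left
      (h3.trans (mul_le_mul_of_nonneg_left e3 hC3.le)) hR.le)
  -- absorb
  have e5 : C5 * T1 * W ≤ r / (2 * C1) * T2 + C1 * D * C5 ^ 2 / (2 * r) * W ^ 2 := by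
    have a1 : C5 * T1 * W ≤ r / (2 * C1 * D) * T1 ^ 2 + C1 * D * C5 ^ 2 / (2 * r) * W ^ 2 := by
      have key : 0 ≤ (r * T1 - C1 * D * C5 * W) ^ 2 := sq_nonneg _
      have hden : 0 < 2 * C1 * D * r := by positivity
      have : r / (2 * C1 * D) * T1 ^ 2 + C1 * D * C5 ^ 2 / (2 * r) * W ^ 2 - C5 * T1 * W =
        (r * T1 - C1 * D * C5 * W) ^ 2 / (2 * C1 * D * r) := by
        field_simp
        ring
      have h8 : 0 ≤ (r * T1 - C1 * D * C5 * W) ^ 2 / (2 * C1 * D * r) := by positivity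
      linarith
    have a2 : r / (2 * C1 * D) * T1 ^ 2 ≤ r / (2 * C1) * T2 := by
      have : r / (2 * C1) * T2 = r / (2 * C1 * D) * (D * T2) := by field_simp
      rw [this]
      exact mul_le_mul_of_nonneg_left h6 (by positivity)
    linarith
  have e6 : r / C1 * T2 ≤ r * N := by
    have : r * N = r / C1 * (C1 * N) := by field_simp
    rw [this]
    exact mul_le_mul_of_nonneg_left h1 (by positivity)
  have e7 : r / (2 * C1) * T2 ≤ R * (C2 * Dw ^ 2) +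
      R * (C3 * (2 * Cw ^ 2 + 2 * C4 ^ 2 * W ^ 2)) +
      C1 * D * C5 ^ 2 / (2 * r) * W ^ 2 - S := by
    have : r / C1 * T2 = r / (2 * C1) * T2 + r / (2 * C1) * T2 := by field_simp; ring
    linarith
  have e8 : R * (C2 * Dw ^ 2) + R * (C3 * (2 * Cw ^ 2 + 2 * C4 ^ 2 * W ^ 2)) +
      C1 * D * C5 ^ 2 / (2 * r) * W ^ 2 ≤
      (R * C2 + 2 * R * C3 + 2 * R * C3 * C4 ^ 2 + C1 * D * C5 ^ 2 / (2 * r)) *
        (Dw ^ 2 + Cw ^ 2 + W ^ 2) := by
    have b1 : 0 ≤ R * C2 := by positivity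
    have b2 : 0 ≤ 2 * R * C3 := by positivity
    have b3 : 0 ≤ 2 * R * C3 * C4 ^ 2 := by positivity
    have b4 : 0 ≤ C1 * D * C5 ^ 2 / (2 * r) := by positivity
    nlinarith [mul_nonneg b1 (add_nonneg (sq_nonneg Cw) (sq_nonneg W)),
      mul_nonneg b2 (add_nonneg (sq_nonneg Dw) (sq_nonneg W)),
      mul_nonneg b3 (add_nonneg (sq_nonneg Dw) (sq_nonneg Cw)),
      mul_nonneg b4 (add_nonneg (sq_nonneg Dw) (sq_nonneg Cw))]
  have e9 : T2 = 2 * C1 / r * (r / (2 * C1) * T2) := by field_simp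
  rw [e9, mul_assoc, ← mul_sub]
  exact mul_le_mul_of_nonneg_left (e7.trans (sub_le_sub_right e8 S)) (by positivity)

/-- pointwise inequality -/
theorem pw_ineq {O K : Set (Eu (d + 1))} (hO : IsOpen O) (hK : IsCompact K) (hKO : K ⊆ O)
    {G : Eu (d + 1) → Matrix (Fin (d + 1)) (Fin (d + 1)) ℝ}
    (hG : ∀ i j, ContDiffOn ℝ ∞ (fun y => G y i j) (HS d ∩ O))
    (hpos : ∀ y ∈ HS d ∩ O, (G y).PosDef) :
    ∃ C c : ℝ, 0 < C ∧ ∀ w : Eu (d + 1) → Alt (Eu (d + 1)) (q + 1),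
      ContDiffOn ℝ ∞ w (HS d ∩ O) → (∀ y ∈ HS d ∩ O, y ∉ K → w y = 0) →
      ∀ y ∈ HS d ∩ O, ∑ k, ‖fderivWithin ℝ w (HS d) y (ev k)‖ ^ 2 ≤
        C * (‖extDerivWithin w (HS d) y‖ ^ 2 + ‖codLoc G w y‖ ^ 2 + ‖w y‖ ^ 2) -
        c * (∑ j, fderivWithin ℝ (VF0 G w j) (HS d) y (ev j)).re := by
  have hcomp : IsCompact (HS d ∩ K) := hK.inter_left isClosed_HS
  have hsub : HS d ∩ K ⊆ HS d ∩ O := inter_subset_inter_right _ hKO
  have hpos' : ∀ y ∈ HS d ∩ K, (G y).PosDef := fun y hy => hpos y (hsub hy)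
  have hGc : ContinuousOn G (HS d ∩ K) := contOn_mat fun i j => (hG i j).continuousOn.mono hsub
  have hρc : ContinuousOn (fun y => Real.sqrt (G y).det) (HS d ∩ K) :=
    (sqrt_contDiffOn hG hpos).continuousOn.mono hsub
  obtain ⟨C1, hC1, h1⟩ := N1_lower (q := q + 1) hcomp G hGc hpos'
  obtain ⟨r, hr, hr'⟩ := hcomp.exists_forall_le' hρc
    (fun y hy => Real.sqrt_pos.2 (hpos' y hy).det_pos)
  obtain ⟨R, hR'⟩ := hcomp.exists_bound_of_continuousOn hρc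
  obtain ⟨C2, hC2, h2⟩ := formInner_comparison (q := q + 1 + 1) _ hcomp G hGc hpos'
  obtain ⟨C3, hC3, h3⟩ := formInner_comparison (q := q) _ hcomp G hGc hpos'
  obtain ⟨C4, hC4, h4⟩ := codLoc_principal (q := q) hO hK hKO hG hpos
  obtain ⟨C5, hC5, h5⟩ := err_bound (c := fun j k θ y => cc (G y) j k θ) hO hK hKO
    (LL (n := d + 1) (q := q)) MM (fun j k θ => cc_contDiffOn hG hpos j k θ)
  set R' : ℝ := max R r with hR''
  have hR'pos : 0 < R' := lt_max_of_lt_right hr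
  set D : ℝ := ((d + 1 : ℕ) : ℝ) with hD
  have hDpos : 0 < D := by rw [hD]; positivity
  refine ⟨2 * C1 / r * (R' * C2 + 2 * R' * C3 + 2 * R' * C3 * C4 ^ 2 + C1 * D * C5 ^ 2 / (2 * r)),
    2 * C1 / r, by positivity, fun w hw hz y hy => ?_⟩
  by_cases hyK : y ∈ K
  · have hy' : y ∈ HS d ∩ K := ⟨hy.1, hyK⟩
    set f : Fin (d + 1) → Alt (Eu (d + 1)) (q + 1) :=
      fun k => fderivWithin ℝ w (HS d) y (ev k) with hf
    have hpw := congrArg Complex.re (pointwise hO hG hpos hw hy)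
    rw [Complex.add_re, Complex.sub_re, Complex.add_re, Complex.re_ofReal_mul,
      Complex.re_ofReal_mul, Complex.re_ofReal_mul] at hpw
    refine arith (T1 := ∑ k, ‖f k‖) (De := ‖del (G y) f‖) (N := (N1 (G y) f).re)
      (P := (formInner (G y) (extDerivWithin w (HS d) y) (extDerivWithin w (HS d) y)).re)
      (Q := (formInner (G y) (del (G y) f) (del (G y) f)).re) (ρ := Real.sqrt (G y).det)
      (Er := (∑ j, ∑ k, ∑ θ : TH (d + 1) q,
        (fderivWithin ℝ (fun y => cc (G y) j k θ) (HS d) y (ev j)) •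
        (LL θ (f k) * MM θ (w y))).re)
      hr hC1 hC2 hC3 hDpos (hr' y hy')
      ?_ (norm_nonneg _) ?_ ?_ ?_ (h1 y hy' f) (h2 y hy' _).2
      (h3 y hy' _).2 ?_ ?_ ?_ hpw
    · refine le_trans ?_ (le_max_left R r)
      have := hR' y hy'
      rwa [Real.norm_of_nonneg (Real.sqrt_nonneg _)] at this
    · exact Finset.sum_nonneg fun k _ => by positivity
    · exact formInner_self_nonneg _ (hpos y hy) _
    · exact formInner_self_nonneg _ (hpos y hy) _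
    · have h6 := h4 w hw y hy'
      have h7 : del (G y) f = (codLoc G w y + del (G y) f) - codLoc G w y := by abel
      rw [h7]
      refine (norm_sub_le _ _).trans ?_
      rw [add_comm]
      exact add_le_add le_rfl h6
    · refine (Complex.re_le_norm _).trans ?_
      exact h5 y hy' f (w y)
    · have h8 := sq_sum_le_card_mul_sum_sq (s := (Finset.univ : Finset (Fin (d + 1))))
        (f := fun k => ‖f k‖)
      rwa [Finset.card_univ, Fintype.card_fin] at h8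
  · have e1 : fderivWithin ℝ w (HS d) y = 0 := fd_zero hO hK hz hy hyK
    have e2 : ∀ j, fderivWithin ℝ (VF0 G w j) (HS d) y = 0 := fun j =>
      fd_zero hO hK (VF0_zero hz j) hy hyK
    have e3 : ∑ j, fderivWithin ℝ (VF0 G w j) (HS d) y (ev j) = 0 :=
      Finset.sum_eq_zero fun j _ => by rw [e2 j]; rfl
    have e4 : ∑ k, ‖fderivWithin ℝ w (HS d) y (ev k)‖ ^ 2 = 0 := by
      refine Finset.sum_eq_zero fun k _ => ?_
      rw [e1]
      show ‖(0 : Alt (Eu (d + 1)) (q + 1))‖ ^ 2 = 0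
      rw [norm_zero]
      norm_num
    rw [e3, e4, Complex.zero_re, mul_zero, sub_zero]
    positivity

end LG

/-- D3: local Gaffney inequality. `w` is supported in the compact `K`, and `dx_0 ∧ w = 0` on the
boundary. -/
theorem local_gaffney {O K : Set (Eu (d + 1))} (hO : IsOpen O) (hK : IsCompact K) (hKO : K ⊆ O)
    {G : Eu (d + 1) → Matrix (Fin (d + 1)) (Fin (d + 1)) ℝ}
    (hG : ∀ i j, ContDiffOn ℝ ∞ (fun y => G y i j) (HS d ∩ O))
    (hpos : ∀ y ∈ HS d ∩ O, (G y).PosDef) :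
    ∃ C : ℝ, 0 < C ∧ ∀ w : Eu (d + 1) → Alt (Eu (d + 1)) (q + 1), ContDiffOn ℝ ∞ w (HS d ∩ O) →
      (∀ y ∈ HS d ∩ O, y ∉ K → w y = 0) →
      (∀ y ∈ HS d ∩ O, y 0 = 0 → wedge1 (dx 0) (w y) = 0) →
      ∑ k, ∫ y in HS d ∩ O, ‖fderivWithin ℝ w (HS d) y (ev k)‖ ^ 2 ≤
        C * ((∫ y in HS d ∩ O, ‖extDerivWithin w (HS d) y‖ ^ 2) +
          (∫ y in HS d ∩ O, ‖codLoc G w y‖ ^ 2) + ∫ y in HS d ∩ O, ‖w y‖ ^ 2) := by
  obtain ⟨C, c, hC, h⟩ := LG.pw_ineq (q := q) hO hK hKO hG hpos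
  refine ⟨C, hC, fun w hw hz h0 => ?_⟩
  have hm : MeasurableSet (HS d ∩ O) := LG.isClosed_HS.measurableSet.inter hO.measurableSet
  have hwf := LG.cd_fd hO hw
  -- integrability
  have i1 : ∀ k : Fin (d + 1), IntegrableOn
      (fun y => ‖fderivWithin ℝ w (HS d) y (ev k)‖ ^ 2) (HS d ∩ O) := by
    intro k
    refine LG.integrableOn_supp hO hK hKO ?_ ?_
    · exact ((hwf.clm_apply contDiffOn_const).continuousOn.norm).pow 2
    · intro y hy hyK
      rw [LG.fd_zero hO hK hz hy hyK]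
      show ‖(0 : Alt (Eu (d + 1)) (q + 1))‖ ^ 2 = 0
      rw [norm_zero]
      norm_num
  have i2 : IntegrableOn (fun y => ‖extDerivWithin w (HS d) y‖ ^ 2) (HS d ∩ O) := by
    refine LG.integrableOn_supp hO hK hKO ?_ ?_
    · have h1 : ContinuousOn (fun y => ContinuousAlternatingMap.alternatizeUncurryFinCLM ℝ
        (Eu (d + 1)) ℂ (fderivWithin ℝ w (HS d) y)) (HS d ∩ O) :=
        (ContinuousAlternatingMap.alternatizeUncurryFinCLM ℝ
          (Eu (d + 1)) ℂ).continuous.comp_continuousOn hwf.continuousOn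
      exact h1.norm.pow 2
    · intro y hy hyK
      have h1 : extDerivWithin w (HS d) y = alt (fderivWithin ℝ w (HS d) y) := rfl
      have h2 : alt (0 : Eu (d + 1) →L[ℝ] Alt (Eu (d + 1)) (q + 1)) = 0 :=
        map_zero (ContinuousAlternatingMap.alternatizeUncurryFinCLM ℝ (Eu (d + 1)) ℂ)
      rw [h1, LG.fd_zero hO hK hz hy hyK, h2, norm_zero]
      norm_num
  have i3 : IntegrableOn (fun y => ‖codLoc G w y‖ ^ 2) (HS d ∩ O) := by
    refine LG.integrableOn_supp hO hK hKO ?_ ?_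
    · exact (codLoc_contDiffOn hO hG hpos hw).continuousOn.norm.pow 2
    · intro y hy hyK
      rw [LG.codLoc_zero hO hK hz hy hyK, norm_zero]
      norm_num
  have i4 : IntegrableOn (fun y => ‖w y‖ ^ 2) (HS d ∩ O) := by
    refine LG.integrableOn_supp hO hK hKO (hw.continuousOn.norm.pow 2) ?_
    intro y hy hyK
    rw [hz y hy hyK, norm_zero]
    norm_num
  have hVc : ∀ j, ContDiffOn ℝ ∞ (LG.VF0 G w j) (HS d ∩ O) := fun j =>
    LG.VV_contDiffOn hO LG.LL LG.MM (fun j k θ => LG.cc_contDiffOn hG hpos j k θ) hw j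
  have i5 : ∀ j, IntegrableOn (fun y => fderivWithin ℝ (LG.VF0 G w j) (HS d) y (ev j))
      (HS d ∩ O) := by
    intro j
    refine LG.integrableOn_supp hO hK hKO ?_ ?_
    · exact ((LG.cd_fd hO (hVc j)).clm_apply contDiffOn_const).continuousOn
    · intro y hy hyK
      rw [LG.fd_zero hO hK (LG.VF0_zero hz j) hy hyK]
      rfl
  have i6 : IntegrableOn (fun y => ∑ j, fderivWithin ℝ (LG.VF0 G w j) (HS d) y (ev j))
      (HS d ∩ O) := integrable_finsetSum _ fun j _ => i5 j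
  have h1 : ∫ y in HS d ∩ O, ∑ j, fderivWithin ℝ (LG.VF0 G w j) (HS d) y (ev j) = 0 := by
    rw [integral_finsetSum _ fun j _ => i5 j]
    refine Finset.sum_eq_zero fun j _ => ?_
    refine integral_fderivWithin_HS_open hO hK hKO ((hVc j).of_le (by norm_cast))
      (LG.VF0_zero hz j) j ?_
    intro hj y hy hy0
    subst hj
    exact LG.VF0_bdry hO hpos hw h0 hy hy0
  have h2 : ∫ y in HS d ∩ O, (∑ j, fderivWithin ℝ (LG.VF0 G w j) (HS d) y (ev j)).re = 0 := by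
    have h3 := integral_re (𝕜 := ℂ) i6
    have h4 : ∫ y in HS d ∩ O, (∑ j, fderivWithin ℝ (LG.VF0 G w j) (HS d) y (ev j)).re =
      (∫ y in HS d ∩ O, ∑ j, fderivWithin ℝ (LG.VF0 G w j) (HS d) y (ev j)).re := h3
    rw [h4, h1]
    rfl
  rw [← integral_finsetSum _ fun k _ => i1 k]
  have i23 : IntegrableOn (fun y => ‖extDerivWithin w (HS d) y‖ ^ 2 + ‖codLoc G w y‖ ^ 2)
      (HS d ∩ O) := i2.add i3
  have i234 : IntegrableOn (fun y => ‖extDerivWithin w (HS d) y‖ ^ 2 + ‖codLoc G w y‖ ^ 2 +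
      ‖w y‖ ^ 2) (HS d ∩ O) := i23.add i4
  have i7 : IntegrableOn (fun y => (∑ j, fderivWithin ℝ (LG.VF0 G w j) (HS d) y (ev j)).re)
      (HS d ∩ O) := i6.re
  have h5 : ∫ y in HS d ∩ O, ∑ k, ‖fderivWithin ℝ w (HS d) y (ev k)‖ ^ 2 ≤
      ∫ y in HS d ∩ O, (C * (‖extDerivWithin w (HS d) y‖ ^ 2 + ‖codLoc G w y‖ ^ 2 + ‖w y‖ ^ 2) -
        c * (∑ j, fderivWithin ℝ (LG.VF0 G w j) (HS d) y (ev j)).re) := by
    refine setIntegral_mono_on (integrable_finsetSum _ fun k _ => i1 k)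
      ((i234.const_mul C).sub (i7.const_mul c)) hm ?_
    intro y hy
    exact h w hw hz y hy
  refine h5.trans (le_of_eq ?_)
  rw [integral_sub (i234.const_mul C) (i7.const_mul c), integral_const_mul,
    integral_const_mul, h2, mul_zero, sub_zero, integral_add i23 i4, integral_add i2 i3]

end DtN
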