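import Pool.Agent.H14.DtN.HalfIBP

/-!
MODULE D4 : local sup bound in the half space by one mixed derivative.
-/

open scoped ContDiff Topology ComplexConjugate
open Set MeasureTheory

set_option linter.unusedSectionVars false

noncomputable section

namespace DtN

variable {d : ℕ}

/-- Iterated partial derivatives within the half space: `pd [k₁, .., k_r] f = ∂_{k₁} (.. ∂_{k_r} f)`. -/
def pd {W : Type*} [NormedAddCommGroup W] [NormedSpace ℝ W] : List (Fin (d + 1)) →
    (Eu (d + 1) → W) → Eu (d + 1) → W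
  | [], f => f
  | k :: l, f => fun y => fderivWithin ℝ (pd l f) (HS d) y (ev k)

section sob

variable {W : Type*} [NormedAddCommGroup W] [NormedSpace ℝ W]

theorem isClosed_HS' : IsClosed (HS d) := by
  have : HS d = (fun y : Eu (d + 1) => y 0) ⁻¹' Ici 0 := rfl
  rw [this]
  exact isClosed_Ici.preimage (by fun_prop)

theorem contDiffOn_pd {f : Eu (d + 1) → W} (hf : ContDiffOn ℝ ∞ f (HS d)) (l : List (Fin (d + 1))) :
    ContDiffOn ℝ ∞ (pd l f) (HS d) := by
  induction l with
  | nil => exact hf
  | cons k l ih =>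
    have h1 : ContDiffOn ℝ ∞ (fderivWithin ℝ (pd l f) (HS d)) (HS d) :=
      ih.fderivWithin uniqueDiffOn_HS (by norm_cast)
    exact h1.clm_apply contDiffOn_const

theorem pd_eq_zero {f : Eu (d + 1) → W} (l : List (Fin (d + 1))) {x : Eu (d + 1)}
    (hx : x ∉ tsupport f) : pd l f x = 0 := by
  have key : ∀ l : List (Fin (d + 1)), ∀ x ∉ tsupport f, pd l f x = 0 := by
    intro l
    induction l with
    | nil => intro x hx; exact image_eq_zero_of_notMem_tsupport hx
    | cons k l ih =>
      intro x hx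
      have hop : IsOpen (tsupport f)ᶜ := (isClosed_tsupport f).isOpen_compl
      have he : pd l f =ᶠ[𝓝 x] fun _ => (0 : W) := by
        filter_upwards [hop.mem_nhds hx] with z hz using ih z hz
      show fderivWithin ℝ (pd l f) (HS d) x (ev k) = 0
      rw [(he.filter_mono nhdsWithin_le_nhds).fderivWithin_eq (he.self_of_nhds)]
      simp
  exact key l x hx

/-- moving in a coordinate direction -/
def mv (k : Fin (d + 1)) (x : Eu (d + 1)) (s : ℝ) : Eu (d + 1) := x + (s - x k) • ev k

theorem mv_self (k : Fin (d + 1)) (x : Eu (d + 1)) : mv k x (x k) = x := by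
  simp [mv]

theorem mv_mem (k : Fin (d + 1)) {x : Eu (d + 1)} (hx : x ∈ HS d) {s : ℝ} (hs : x k ≤ s) :
    mv k x s ∈ HS d := by
  show 0 ≤ (mv k x s) 0
  have hx' : 0 ≤ x 0 := hx
  unfold mv
  by_cases hk : k = 0
  · subst hk
    simp
    linarith
  · simp [Ne.symm hk]
    exact hx'

theorem hasDerivAt_mv (k : Fin (d + 1)) (x : Eu (d + 1)) (s : ℝ) :
    HasDerivAt (mv k x) (ev k) s := by
  unfold mv
  have h1 : HasDerivAt (fun s : ℝ => s - x k) 1 s := (hasDerivAt_id s).sub_const _
  have h2 := h1.smul_const (ev k : Eu (d + 1))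
  rw [one_smul] at h2
  exact h2.const_add x

theorem one_dim {g : Eu (d + 1) → W} [CompleteSpace W] (hg : ContDiffOn ℝ ∞ g (HS d))
    {K : Set (Eu (d + 1))} (hK : IsCompact K) (hgK : ∀ x ∉ K, g x = 0)
    (k : Fin (d + 1)) {x : Eu (d + 1)} (hx : x ∈ HS d) :
    ‖g x‖ₑ ≤ ∫⁻ s in Ioi (x k), ‖fderivWithin ℝ g (HS d) (mv k x s) (ev k)‖ₑ := by
  have hcont : ContinuousOn (fun s => fderivWithin ℝ g (HS d) (mv k x s) (ev k)) (Ici (x k)) := by
    have h1 : ContinuousOn (fderivWithin ℝ g (HS d)) (HS d) :=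
      hg.continuousOn_fderivWithin uniqueDiffOn_HS (by norm_cast)
    have h2 : ContinuousOn (mv k x) (Ici (x k)) := fun s _ =>
      (hasDerivAt_mv k x s).continuousAt.continuousWithinAt
    exact (h1.comp h2 fun s hs => mv_mem k hx hs).clm_apply continuousOn_const
  obtain ⟨R, hR⟩ := hK.isBounded.exists_norm_le
  -- beyond `R'` everything vanishes
  set R' : ℝ := max (R + 1) (x k) with hR'
  have hout : ∀ s, R' < s → mv k x s ∉ K := by
    intro s hs hmem
    have h1 := hR _ hmem
    have h2 : |(mv k x s) k| ≤ ‖mv k x s‖ := by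
      have := EuclideanSpace.norm_eq (mv k x s)
      have h3 := PiLp.norm_apply_le (mv k x s) k
      rwa [Real.norm_eq_abs] at h3
    have h3 : (mv k x s) k = s := by simp [mv]
    rw [h3] at h2
    have h4 : R + 1 < s := lt_of_le_of_lt (le_max_left _ _) hs
    have h5 := le_abs_self s
    linarith
  have hz : ∀ s, R' < s → g (mv k x s) = 0 := fun s hs => hgK _ (hout s hs)
  have hderiv : ∀ s ∈ Ioi (x k), HasDerivAt (fun s => g (mv k x s))
      (fderivWithin ℝ g (HS d) (mv k x s) (ev k)) s := by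
    intro s hs
    have hs' : x k < s := hs
    have h1 : HasFDerivWithinAt g (fderivWithin ℝ g (HS d) (mv k x s)) (HS d) (mv k x s) :=
      ((hg.differentiableOn (by norm_num)) _ (mv_mem k hx hs'.le)).hasFDerivWithinAt
    have h2 : HasDerivWithinAt (mv k x) (ev k) (Ici (x k)) s :=
      (hasDerivAt_mv k x s).hasDerivWithinAt
    have h3 := h1.comp_hasDerivWithinAt s h2 (fun t ht => mv_mem k hx ht)
    exact h3.hasDerivAt (Ici_mem_nhds hs')
  have hdz : ∀ s, R' < s → fderivWithin ℝ g (HS d) (mv k x s) (ev k) = 0 := by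
    intro s hs
    have hs' : x k < s := lt_of_le_of_lt (le_max_right _ _) hs
    have h1 := hderiv s hs'
    have h2 : (fun s => g (mv k x s)) =ᶠ[𝓝 s] fun _ => (0 : W) := by
      filter_upwards [Ioi_mem_nhds hs] with t ht using hz t ht
    have h3 : HasDerivAt (fun s => g (mv k x s)) 0 s :=
      (hasDerivAt_const s (0 : W)).congr_of_eventuallyEq h2
    exact h1.unique h3
  have hint : IntegrableOn (fun s => fderivWithin ℝ g (HS d) (mv k x s) (ev k)) (Ioi (x k)) := by
    have h1 : IntegrableOn (fun s => fderivWithin ℝ g (HS d) (mv k x s) (ev k))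
        (Icc (x k) R') := (hcont.mono Icc_subset_Ici_self).integrableOn_Icc
    have h2 : IntegrableOn (fun s => fderivWithin ℝ g (HS d) (mv k x s) (ev k)) (Ioi R') := by
      refine (integrableOn_zero (ε' := W)).congr_fun (fun s hs => (hdz s hs).symm)
        measurableSet_Ioi
    refine (h1.union h2).mono_set fun s hs => ?_
    rcases le_or_gt s R' with h | h
    · exact Or.inl ⟨le_of_lt hs, h⟩
    · exact Or.inr h
  have hlim : Filter.Tendsto (fun s => g (mv k x s)) Filter.atTop (𝓝 0) := by
    refine tendsto_const_nhds.congr' ?_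
    filter_upwards [Filter.eventually_gt_atTop R'] with s hs using (hz s hs).symm
  have hc0 : ContinuousWithinAt (fun s => g (mv k x s)) (Ici (x k)) (x k) := by
    have h1 : ContinuousOn g (HS d) := hg.continuousOn
    have h2 : ContinuousOn (mv k x) (Ici (x k)) := fun s _ =>
      (hasDerivAt_mv k x s).continuousAt.continuousWithinAt
    exact (h1.comp h2 fun s hs => mv_mem k hx hs) (x k) self_mem_Ici
  have hftc := integral_Ioi_of_hasDerivAt_of_tendsto hc0 hderiv hint hlim
  rw [mv_self, zero_sub] at hftc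
  have h1 : ‖g x‖ₑ = ‖∫ s in Ioi (x k), fderivWithin ℝ g (HS d) (mv k x s) (ev k)‖ₑ := by
    rw [hftc, enorm_neg]
  rw [h1]
  exact enorm_integral_le_lintegral_enorm _

/-- the norm of `pd l f` on the half space, as a function on the product -/
def Fn' (f : Eu (d + 1) → W) (l : List (Fin (d + 1))) (x : Fin (d + 1) → ℝ) : ENNReal :=
  (HS d).indicator (fun y => ‖pd l f y‖ₑ) (WithLp.toLp 2 x)

theorem measurable_Fn' {f : Eu (d + 1) → W} (hf : ContDiffOn ℝ ∞ f (HS d))
    (l : List (Fin (d + 1))) : Measurable (Fn' f l) := by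
  classical
  have h1 : Measurable ((HS d).indicator fun y => ‖pd l f y‖ₑ) := by
    have h2 : ContinuousOn (fun y => ‖pd l f y‖ₑ) (HS d) :=
      continuous_enorm.comp_continuousOn (contDiffOn_pd hf l).continuousOn
    have hm : MeasurableSet (HS d) := isClosed_HS'.measurableSet
    rw [← piecewise_eq_indicator]
    exact h2.measurable_piecewise continuousOn_const hm
  exact h1.comp (WithLp.measurable_toLp 2 _)

theorem toLp_update (x : Fin (d + 1) → ℝ) (k : Fin (d + 1)) (s : ℝ) :
    WithLp.toLp 2 (Function.update x k s) = mv k (WithLp.toLp 2 x) s := by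
  ext i
  by_cases h : i = k
  · subst h; simp [mv]
  · simp [mv, h]

theorem Fn'_step [CompleteSpace W] {f : Eu (d + 1) → W} (hf : ContDiffOn ℝ ∞ f (HS d))
    (hc : HasCompactSupport f) (l : List (Fin (d + 1))) (k : Fin (d + 1))
    (x : Fin (d + 1) → ℝ) :
    Fn' f l x ≤ ∫⁻ s, Fn' f (k :: l) (Function.update x k s) := by
  by_cases hx : WithLp.toLp 2 x ∈ HS d
  · unfold Fn'
    rw [indicator_of_mem hx]
    refine (one_dim (contDiffOn_pd hf l) hc (fun z hz => pd_eq_zero l hz) k hx).trans ?_
    refine (setLIntegral_mono' measurableSet_Ioi fun s hs => ?_).trans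
      (setLIntegral_le_lintegral _ _)
    have hs' : x k < s := hs
    rw [toLp_update, indicator_of_mem (mv_mem k hx hs'.le)]
    exact le_rfl
  · unfold Fn'
    rw [indicator_of_notMem hx]
    exact zero_le

theorem Fn'_marginal [CompleteSpace W] {f : Eu (d + 1) → W} (hf : ContDiffOn ℝ ∞ f (HS d))
    (hc : HasCompactSupport f) (l : List (Fin (d + 1))) (hl : l.Nodup) :
    Fn' f [] ≤ lmarginal (fun _ => (volume : Measure ℝ)) l.toFinset (Fn' f l) := by
  induction l with
  | nil => simp
  | cons k l ih =>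
    have hk : k ∉ l.toFinset := by
      rw [List.mem_toFinset]
      exact (List.nodup_cons.mp hl).1
    refine (ih (List.nodup_cons.mp hl).2).trans ?_
    rw [List.toFinset_cons, lmarginal_insert' _ (measurable_Fn' hf _) hk]
    exact lmarginal_mono fun x => Fn'_step hf hc l k x

theorem sup_lintegral [CompleteSpace W] {f : Eu (d + 1) → W} (hf : ContDiffOn ℝ ∞ f (HS d))
    (hc : HasCompactSupport f) {y : Eu (d + 1)} (hy : y ∈ HS d) :
    ‖f y‖ₑ ≤ ∫⁻ x in HS d, ‖pd (List.finRange (d + 1)) f x‖ₑ := by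
  have h1 := Fn'_marginal hf hc (List.finRange (d + 1)) (List.nodup_finRange _) (WithLp.ofLp y)
  rw [List.toFinset_finRange, lmarginal_univ] at h1
  have h2 : Fn' f [] (WithLp.ofLp y) = ‖f y‖ₑ := by
    unfold Fn'
    rw [WithLp.toLp_ofLp, indicator_of_mem hy]
    rfl
  rw [h2] at h1
  refine h1.trans (le_of_eq ?_)
  rw [← lintegral_indicator isClosed_HS'.measurableSet]
  have h3 := (PiLp.volume_preserving_toLp (Fin (d + 1))).lintegral_comp_emb
    (MeasurableEquiv.toLp 2 (Fin (d + 1) → ℝ)).measurableEmbedding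
    ((HS d).indicator fun x => ‖pd (List.finRange (d + 1)) f x‖ₑ)
  exact h3

theorem integrableOn_pd [CompleteSpace W] {f : Eu (d + 1) → W} (hf : ContDiffOn ℝ ∞ f (HS d))
    (hc : HasCompactSupport f) (l : List (Fin (d + 1))) :
    IntegrableOn (pd l f) (HS d) := by
  have hK : IsCompact (HS d ∩ tsupport f) := hc.isCompact.inter_left isClosed_HS'
  have h1 : IntegrableOn (pd l f) (HS d ∩ tsupport f) :=
    ((contDiffOn_pd hf l).continuousOn.mono inter_subset_left).integrableOn_compact hK
  have h2 : IntegrableOn (pd l f) (HS d \ tsupport f) := by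
    refine (integrableOn_zero (ε' := W)).congr_fun (fun s hs => (pd_eq_zero l hs.2).symm)
      (isClosed_HS'.measurableSet.diff (isClosed_tsupport f).measurableSet)
  have := h1.union h2
  rwa [inter_union_sdiff] at this

end sob

/-- D4: a smooth compactly supported function on the half space is bounded by the integral of
`∂_0 ∂_1 ... ∂_d f`. -/
theorem local_sobolev {W : Type*} [NormedAddCommGroup W] [NormedSpace ℝ W] [CompleteSpace W]
    {f : Eu (d + 1) → W} (hf : ContDiffOn ℝ ∞ f (HS d)) (hc : HasCompactSupport f)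
    {y : Eu (d + 1)} (hy : y ∈ HS d) :
    ‖f y‖ ≤ ∫ x in HS d, ‖pd (List.finRange (d + 1)) f x‖ := by
  have h1 := sup_lintegral hf hc hy
  have h2 := integrableOn_pd hf hc (List.finRange (d + 1))
  have h3 : ∫ x in HS d, ‖pd (List.finRange (d + 1)) f x‖ =
      (∫⁻ x in HS d, ‖pd (List.finRange (d + 1)) f x‖ₑ).toReal :=
    integral_norm_eq_lintegral_enorm h2.aestronglyMeasurable
  rw [h3]
  have h4 : ‖f y‖ = ‖f y‖ₑ.toReal := (toReal_enorm _).symm
  rw [h4]
  exact ENNReal.toReal_mono h2.2.ne h1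

end DtN
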