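import Pool.Agent.H14.DtN.CalcA1

/-!
Tangential vectors at the boundary in charts.
-/

open scoped Manifold ContDiff Topology ComplexConjugate
open Set MeasureTheory

set_option linter.unusedSectionVars false

noncomputable section

namespace DtN.GA

section Tang

variable {d : ℕ} {Ω : Type*} [TopologicalSpace Ω] [ChartedSpace (EuclideanHalfSpace (d + 1)) Ω]
  [IsManifold (𝓡∂ (d + 1)) ∞ Ω]

theorem mem_range_iff (y : Eu (d + 1)) : y ∈ range (𝓡∂ (d + 1)) ↔ 0 ≤ y 0 := by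
  rw [range_modelWithCornersEuclideanHalfSpace]
  rfl

theorem boundary_zero {z : Ω} (hz : z ∈ (𝓡∂ (d + 1)).boundary Ω) :
    (extChartAt (𝓡∂ (d + 1)) z z) 0 = 0 := by
  have h : extChartAt (𝓡∂ (d + 1)) z z ∈ frontier (range (𝓡∂ (d + 1))) := hz
  rw [frontier_range_modelWithCornersEuclideanHalfSpace] at h
  exact h.symm

/-- The inverse charts map tangential vectors to tangential vectors at the boundary. -/
theorem dsymm_tang {x₀ z : Ω} (hz : z ∈ (𝓡∂ (d + 1)).boundary Ω)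
    (hs : z ∈ (extChartAt (𝓡∂ (d + 1)) x₀).source) {v : Eu (d + 1)} (hv : v 0 = 0) :
    (dsymm (𝓡∂ (d + 1)) x₀ (extChartAt (𝓡∂ (d + 1)) x₀ z) v) 0 = 0 := by
  obtain ⟨y, hydef⟩ : ∃ y, y = extChartAt (𝓡∂ (d + 1)) x₀ z := ⟨_, rfl⟩
  rw [← hydef]
  have hy : y ∈ (extChartAt (𝓡∂ (d + 1)) x₀).target := by
    rw [hydef]; exact (extChartAt (𝓡∂ (d + 1)) x₀).map_source hs
  have hsy : (extChartAt (𝓡∂ (d + 1)) x₀).symm y = z := by
    rw [hydef]; exact (extChartAt (𝓡∂ (d + 1)) x₀).left_inv hs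
  have hz' : (extChartAt (𝓡∂ (d + 1)) x₀).symm y ∈ (extChartAt (𝓡∂ (d + 1)) z).source := by
    rw [hsy]; exact mem_extChartAt_source z
  have h1 := dsymm_change (𝓡∂ (d + 1)) (x₀ := z) (x₁ := x₀) hy hz'
  have hth : theta (𝓡∂ (d + 1)) z x₀ y = extChartAt (𝓡∂ (d + 1)) z z := by
    unfold theta
    rw [Function.comp_apply, hsy]
  rw [hth, dsymm_self, ContinuousLinearMap.id_comp] at h1
  rw [h1]
  have h2 : HasFDerivWithinAt (theta (𝓡∂ (d + 1)) z x₀)
      (fderivWithin ℝ (theta (𝓡∂ (d + 1)) z x₀) (range (𝓡∂ (d + 1))) y)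
      (range (𝓡∂ (d + 1))) y :=
    ((theta_contDiffWithinAt (𝓡∂ (d + 1)) hy hz').differentiableWithinAt (by simp)).hasFDerivWithinAt
  have hL : HasDerivAt (fun t : ℝ => y + t • v) v 0 := by
    have := ((hasDerivAt_id (0 : ℝ)).smul_const v).const_add y
    simpa using this
  have hmem : ∀ t : ℝ, y + t • v ∈ range (𝓡∂ (d + 1)) := by
    intro t
    rw [mem_range_iff]
    have hy0 : 0 ≤ y 0 := (mem_range_iff y).1 (extChartAt_target_subset_range x₀ hy)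
    have : (y + t • v) 0 = y 0 + t * v 0 := rfl
    rw [this, hv, mul_zero, add_zero]
    exact hy0
  have h2' : HasFDerivWithinAt (theta (𝓡∂ (d + 1)) z x₀)
      (fderivWithin ℝ (theta (𝓡∂ (d + 1)) z x₀) (range (𝓡∂ (d + 1))) y)
      (range (𝓡∂ (d + 1))) ((fun t : ℝ => y + t • v) 0) := by
    simpa using h2
  have h3 := h2'.comp_hasDerivAt (0 : ℝ) hL (Filter.Eventually.of_forall hmem)
  have h4 := (EuclideanSpace.proj (0 : Fin (d + 1)) : Eu (d + 1) →L[ℝ] ℝ).hasFDerivAt.comp_hasDerivAt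
    (0 : ℝ) h3
  refine IsLocalMin.hasDerivAt_eq_zero (Filter.Eventually.of_forall fun t => ?_) h4
  have h5 : ∀ t : ℝ, 0 ≤ (theta (𝓡∂ (d + 1)) z x₀ (y + t • v)) 0 := by
    intro t
    rw [← mem_range_iff]
    exact mem_range_self _
  have h6 : (theta (𝓡∂ (d + 1)) z x₀ (y + (0 : ℝ) • v)) 0 = 0 := by
    rw [zero_smul, add_zero, hth]
    exact boundary_zero hz
  show (theta (𝓡∂ (d + 1)) z x₀ (y + (0 : ℝ) • v)) 0 ≤ (theta (𝓡∂ (d + 1)) z x₀ (y + t • v)) 0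
  rw [h6]
  exact h5 t

end Tang

end DtN.GA
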