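import Pool.Agent.H14.DtN.Cod
import Pool.Agent.H14.DtN.LocGaff
import Pool.Agent.H14.DtN.LocSob
import Pool.Agent.H14.DtN.Frame
import Pool.Agent.H14.DtN.AltSmooth
import Pool.Agent.H14.DtN.Tang

/-!
Auxiliary results for the global Gaffney inequality and the global sup bound.
-/

open scoped Manifold ContDiff Topology ComplexConjugate
open Set MeasureTheory

set_option linter.unusedSectionVars false

noncomputable section

namespace DtN.GA

section General

variable {E : Type*} [NormedAddCommGroup E] [NormedSpace ℝ E]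
  {H : Type*} [TopologicalSpace H] {I : ModelWithCorners ℝ E H}
  {M : Type*} [TopologicalSpace M] [ChartedSpace H M]

/-- `w` vanishes outside `T`. -/
def Van {q : ℕ} (T : Set M) (w : M → Alt E q) : Prop := ∀ z ∉ T, w z = 0

theorem rep_zero_of {q : ℕ} {w : M → Alt E q} {x₀ : M} {y : E}
    (h : w ((extChartAt I x₀).symm y) = 0) : rep I x₀ w y = 0 := by
  unfold rep
  rw [h]
  ext v
  rfl

theorem symm_notMem {x₀ : M} {T : Set M} {y : E} (hy : y ∈ (extChartAt I x₀).target)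
    (hyK : y ∉ extChartAt I x₀ '' T) : (extChartAt I x₀).symm y ∉ T :=
  fun h => hyK ⟨_, h, (extChartAt I x₀).right_inv hy⟩

theorem rep_eventually_zero {q : ℕ} {T : Set M} (hT : IsClosed T) {w : M → Alt E q}
    (hw : Van T w) {x₀ : M} {y : E} (hy : y ∈ (extChartAt I x₀).target)
    (hz : (extChartAt I x₀).symm y ∉ T) : rep I x₀ w =ᶠ[𝓝 y] fun _ => 0 := by
  have h := (continuousAt_extChartAt_symm'' hy).preimage_mem_nhds (hT.isOpen_compl.mem_nhds hz)
  filter_upwards [h] with y' hy' using rep_zero_of (hw _ hy')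

theorem extDerivWithin_zero_fun {q : ℕ} (s : Set E) (y : E) :
    extDerivWithin (fun _ : E => (0 : Alt E q)) s y = 0 := by
  unfold extDerivWithin
  rw [fderivWithin_const_apply]
  exact map_zero (ContinuousAlternatingMap.alternatizeUncurryFinCLM ℝ E ℂ)

theorem van_extD {q : ℕ} {T : Set M} (hT : IsClosed T) {w : M → Alt E q}
    (hw : Van T w) : Van T (extD I w) := by
  intro z hz
  have hy : extChartAt I z z ∈ (extChartAt I z).target := mem_extChartAt_target z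
  have hs : (extChartAt I z).symm (extChartAt I z z) = z := extChartAt_to_inv z
  have h := rep_eventually_zero hT hw hy (by rwa [hs])
  unfold extD
  rw [Filter.EventuallyEq.extDerivWithin_eq (h.filter_mono nhdsWithin_le_nhds) h.self_of_nhds,
    extDerivWithin_zero_fun]

theorem contM_ofReal {b : M → ℝ} (hb : ContMDiff I 𝓘(ℝ, ℝ) ∞ b) :
    ContMDiff I 𝓘(ℝ, ℂ) ∞ (fun z => (b z : ℂ)) := by
  have h : ContDiff ℝ ∞ (fun t : ℝ => (t : ℂ)) := Complex.ofRealCLM.contDiff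
  exact h.contMDiff.comp hb

variable [IsManifold I ∞ M] [FiniteDimensional ℝ E]

theorem van_dS {q : ℕ} {T : Set M} (hT : IsClosed T) {w : SForm I M q}
    (hw : Van T w.val) : Van T (dS w).val := van_extD hT hw

theorem van_iotaS {q : ℕ} {T : Set M} (V : VF I M) {w : SForm I M (q + 1)}
    (hw : Van T w.val) : Van T (iotaS V w).val := by
  intro z hz
  rw [iotaS_apply, hw z hz]
  ext v
  rfl

theorem van_Lie {q : ℕ} {T : Set M} (hT : IsClosed T) (V : VF I M) {w : SForm I M (q + 1)}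
    (hw : Van T w.val) : Van T (Lie V w).val := by
  intro z hz
  rw [Lie_def, SForm.add_apply, van_dS hT (van_iotaS V hw) z hz,
    van_iotaS V (van_dS hT hw) z hz, add_zero]

theorem van_smul {q : ℕ} {T : Set M} (b : SFun I M) {w : SForm I M q}
    (hw : Van T w.val) : Van T (b • w).val := by
  intro z hz
  rw [SForm.smul_apply, hw z hz]
  exact smul_zero (A := Alt E q) (b.val z)

theorem van_smul' {q : ℕ} {T : Set M} {b : SFun I M} (hb : ∀ z ∉ T, b.val z = 0)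
    (w : SForm I M q) : Van T (b • w).val := by
  intro z hz
  rw [SForm.smul_apply, hb z hz]
  exact zero_smul ℂ (w.val z)

/-- the cutoff as a complex valued smooth function -/
def chi (C : Cover I M) (i : Fin C.N) : SFun I M :=
  ⟨fun z => (C.χ i z : ℂ), contM_ofReal (C.χ_smooth i)⟩

theorem chi_val (C : Cover I M) (i : Fin C.N) (z : M) : (chi C i).val z = (C.χ i z : ℂ) := rfl

theorem chi_van (C : Cover I M) (i : Fin C.N) : ∀ z ∉ tsupport (C.χ i), (chi C i).val z = 0 := by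
  intro z hz
  rw [chi_val, image_eq_zero_of_notMem_tsupport hz, Complex.ofReal_zero]

/-- evaluation at `z` as an additive map -/
def evF (z : M) : SFun I M →+ ℂ where
  toFun b := b.val z
  map_zero' := rfl
  map_add' _ _ := rfl

theorem sum_chi (C : Cover I M) : ∑ i, chi C i = 1 := by
  ext z
  have h : (∑ i, chi C i).val z = ∑ i, (chi C i).val z := map_sum (evF z) _ _
  rw [h, SFun.one_apply]
  simp only [chi_val]
  rw [← Complex.ofReal_sum, C.χ_sum z, Complex.ofReal_one]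

theorem sum_chi_smul (C : Cover I M) {q : ℕ} (w : SForm I M q) : ∑ i, chi C i • w = w := by
  rw [← Finset.sum_smul, sum_chi, one_smul]

end General


section Om

variable {d : ℕ} {Ω : Type*} [TopologicalSpace Ω] [ChartedSpace (EuclideanHalfSpace (d + 1)) Ω]
  [IsManifold (𝓡∂ (d + 1)) ∞ Ω]

theorem range_eq : range (𝓡∂ (d + 1)) = HS d := by
  ext y
  rw [mem_range_iff]
  rfl


theorem measurableSet_target (x₀ : Ω) : MeasurableSet (extChartAt (𝓡∂ (d + 1)) x₀).target := by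
  have h : IsOpen ((𝓡∂ (d + 1)).symm ⁻¹' (chartAt (EuclideanHalfSpace (d + 1)) x₀).target) :=
    (chartAt (EuclideanHalfSpace (d + 1)) x₀).open_target.preimage (𝓡∂ (d + 1)).continuous_symm
  rw [extChartAt_target]
  exact h.measurableSet.inter (𝓡∂ (d + 1)).isClosed_range.measurableSet

theorem integrableOn_of {n : ℕ} {F : Type*} [NormedAddCommGroup F] {K t : Set (Eu n)}
    (hK : IsCompact K) (hKt : K ⊆ t) (ht : MeasurableSet t) {f : Eu n → F}
    (hf : ContinuousOn f t) (h0 : ∀ y ∈ t, y ∉ K → f y = 0) : IntegrableOn f t := by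
  have h1 : IntegrableOn f K := (hf.mono hKt).integrableOn_compact hK
  have h2 : IntegrableOn f (t \ K) :=
    integrableOn_zero.congr_fun (fun s hs => (h0 s hs.1 hs.2).symm) (ht.diff hK.measurableSet)
  have h3 := h1.union h2
  have h4 : K ∪ t \ K = t := by
    ext y
    constructor
    · rintro (h | h)
      · exact hKt h
      · exact h.1
    · intro h
      by_cases hy : y ∈ K
      · exact Or.inl hy
      · exact Or.inr ⟨h, hy⟩
  rwa [h4] at h3

variable [CompactSpace Ω] [T2Space Ω]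

theorem isCompact_image {x₀ : Ω} {T : Set Ω} (hT : IsClosed T)
    (hs : T ⊆ (extChartAt (𝓡∂ (d + 1)) x₀).source) :
    IsCompact (extChartAt (𝓡∂ (d + 1)) x₀ '' T) :=
  hT.isCompact.image_of_continuousOn ((continuousOn_extChartAt x₀).mono hs)

theorem image_subset_target {x₀ : Ω} {T : Set Ω}
    (hs : T ⊆ (extChartAt (𝓡∂ (d + 1)) x₀).source) :
    extChartAt (𝓡∂ (d + 1)) x₀ '' T ⊆ (extChartAt (𝓡∂ (d + 1)) x₀).target := by
  rintro _ ⟨z, hz, rfl⟩
  exact (extChartAt (𝓡∂ (d + 1)) x₀).map_source (hs hz)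

variable (g : Metric (𝓡∂ (d + 1)) Ω) (C : Cover (𝓡∂ (d + 1)) Ω)

theorem posDef_self (z : Ω) : (g.gram z (extChartAt (𝓡∂ (d + 1)) z z)).PosDef :=
  gram_posDef g z (mem_extChartAt_target z)

theorem fip_self {q : ℕ} (w : Ω → Alt (Eu (d + 1)) q) (z : Ω) :
    fip g w w z = ((pn g w z ^ 2 : ℝ) : ℂ) := by
  have h1 : 0 ≤ (fip g w w z).re := formInner_self_nonneg _ (posDef_self g z) _
  have h2 : (fip g w w z).im = 0 := formInner_self_im _ (posDef_self g z) _
  unfold pn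
  rw [Real.sq_sqrt h1]
  exact Complex.ext rfl h2

theorem pn_nonneg {q : ℕ} (w : Ω → Alt (Eu (d + 1)) q) (z : Ω) : 0 ≤ pn g w z := Real.sqrt_nonneg _

theorem pn_sq {q : ℕ} (w : Ω → Alt (Eu (d + 1)) q) (z : Ω) :
    pn g w z ^ 2 = (fip g w w z).re := by
  rw [fip_self]
  rfl

theorem fip_zero {q : ℕ} {w : Ω → Alt (Eu (d + 1)) q} {z : Ω} (h : w z = 0) :
    fip g w w z = 0 := by
  unfold fip
  rw [h]
  exact formInner_zero_left _ _

theorem pn_zero {q : ℕ} {w : Ω → Alt (Eu (d + 1)) q} {z : Ω} (h : w z = 0) :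
    pn g w z = 0 := by
  unfold pn
  rw [fip_zero g h]
  simp

theorem pn_smul {q : ℕ} (b : SFun (𝓡∂ (d + 1)) Ω) (w : SForm (𝓡∂ (d + 1)) Ω q) (z : Ω) :
    pn g (b • w).val z = ‖b.val z‖ * pn g w.val z := by
  have h1 : fip g (b • w).val (b • w).val z = b.val z * (conj (b.val z) * fip g w.val w.val z) := by
    unfold fip
    rw [SForm.smul_apply, formInner_smul_left, ← formInner_conj_symm _ (posDef_self g z) _ (b.val z • _),
      formInner_smul_left, map_mul, formInner_conj_symm _ (posDef_self g z)]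
  have h2 : pn g (b • w).val z ^ 2 = (‖b.val z‖ * pn g w.val z) ^ 2 := by
    have h3 := fip_self g (b • w).val z
    rw [h1, fip_self, ← mul_assoc, Complex.mul_conj, Complex.normSq_eq_norm_sq] at h3
    have h4 : ((‖b.val z‖ ^ 2 * pn g w.val z ^ 2 : ℝ) : ℂ) = ((pn g (b • w).val z ^ 2 : ℝ) : ℂ) := by
      rw [← h3]
      push_cast
      ring
    have h5 := Complex.ofReal_injective h4
    rw [← h5]
    ring
  exact (pow_left_inj₀ (pn_nonneg g _ z) (mul_nonneg (norm_nonneg _) (pn_nonneg g _ z))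
    (two_ne_zero)).mp h2

theorem pn_sum_chi {q : ℕ} (w : SForm (𝓡∂ (d + 1)) Ω q) (z : Ω) :
    pn g w.val z = ∑ i, pn g (chi C i • w).val z := by
  have h : ∀ i, pn g (chi C i • w).val z = C.χ i z * pn g w.val z := by
    intro i
    rw [pn_smul, chi_val, Complex.norm_real, Real.norm_of_nonneg (C.χ_nonneg i z)]
  simp only [h]
  rw [← Finset.sum_mul, C.χ_sum z, one_mul]

theorem NM_sq_eq {q : ℕ} {x₀ : Ω} {T : Set Ω} (hT : IsClosed T)
    (hs : T ⊆ (extChartAt (𝓡∂ (d + 1)) x₀).source) {w : SForm (𝓡∂ (d + 1)) Ω q}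
    (hw : Van T w.val) :
    NM g C q w ^ 2 = ∫ y in (extChartAt (𝓡∂ (d + 1)) x₀).target,
      Real.sqrt (g.gram x₀ y).det * pn g w.val ((extChartAt (𝓡∂ (d + 1)) x₀).symm y) ^ 2 := by
  have hc : Continuous (fip g w.val w.val) := (fipS g w w).smooth.continuous
  have hsup : tsupport (fip g w.val w.val) ⊆ (extChartAt (𝓡∂ (d + 1)) x₀).source := by
    refine (closure_minimal (fun z hz => ?_) hT).trans hs
    by_contra h
    exact hz (fip_zero g (hw z h))
  have h1 := IntM_chart g C hc hsup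
  have h2 : ipM g C w w = IntM g C (fip g w.val w.val) := rfl
  rw [← h2, ipM_self] at h1
  have h3 : (∫ y in (extChartAt (𝓡∂ (d + 1)) x₀).target,
      (Real.sqrt (g.gram x₀ y).det : ℂ) * fip g w.val w.val ((extChartAt (𝓡∂ (d + 1)) x₀).symm y)) =
      ((∫ y in (extChartAt (𝓡∂ (d + 1)) x₀).target, Real.sqrt (g.gram x₀ y).det *
        pn g w.val ((extChartAt (𝓡∂ (d + 1)) x₀).symm y) ^ 2 : ℝ) : ℂ) := by
    rw [← integral_complex_ofReal]
    refine integral_congr_ae (Filter.Eventually.of_forall fun y => ?_)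
    dsimp only
    rw [fip_self, Complex.ofReal_mul]
  rw [h3] at h1
  exact Complex.ofReal_injective h1

theorem continuousOn_rho (x₀ : Ω) : ContinuousOn (fun y => Real.sqrt (g.gram x₀ y).det)
    (extChartAt (𝓡∂ (d + 1)) x₀).target :=
  (AS.contDiffOn_sqrt_det (gram_contDiffOn g x₀) fun _ hy => gram_posDef g x₀ hy).continuousOn

theorem rho_pos {x₀ : Ω} {y : Eu (d + 1)} (hy : y ∈ (extChartAt (𝓡∂ (d + 1)) x₀).target) :
    0 < Real.sqrt (g.gram x₀ y).det := Real.sqrt_pos.mpr (gram_posDef g x₀ hy).det_pos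

theorem continuousOn_pn_sq {q : ℕ} (w : SForm (𝓡∂ (d + 1)) Ω q) (x₀ : Ω) :
    ContinuousOn (fun y => pn g w.val ((extChartAt (𝓡∂ (d + 1)) x₀).symm y) ^ 2)
      (extChartAt (𝓡∂ (d + 1)) x₀).target := by
  have hc : Continuous (fip g w.val w.val) := (fipS g w w).smooth.continuous
  have h1 : ContinuousOn (fun y => (fip g w.val w.val ((extChartAt (𝓡∂ (d + 1)) x₀).symm y)).re)
      (extChartAt (𝓡∂ (d + 1)) x₀).target :=
    Complex.continuous_re.comp_continuousOn (hc.comp_continuousOn (continuousOn_extChartAt_symm x₀))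
  exact h1.congr fun y _ => pn_sq g w.val _

/-- Comparison of the global `L²` norm with the `L²` norm in a chart. -/
theorem NM_chart (q : ℕ) {x₀ : Ω} {T : Set Ω} (hT : IsClosed T)
    (hs : T ⊆ (extChartAt (𝓡∂ (d + 1)) x₀).source) :
    ∃ c : ℝ, 0 < c ∧ ∀ w : SForm (𝓡∂ (d + 1)) Ω q, Van T w.val →
      NM g C q w ^ 2 ≤ c * (∫ y in (extChartAt (𝓡∂ (d + 1)) x₀).target,
        ‖rep (𝓡∂ (d + 1)) x₀ w.val y‖ ^ 2) ∧
      (∫ y in (extChartAt (𝓡∂ (d + 1)) x₀).target,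
        ‖rep (𝓡∂ (d + 1)) x₀ w.val y‖ ^ 2) ≤ c * NM g C q w ^ 2 := by
  have hK := isCompact_image hT hs
  have hKt := image_subset_target hs
  obtain ⟨C₁, hC₁, hcomp⟩ := pn_comparison g q x₀ hK hKt
  obtain ⟨R, hR⟩ := hK.exists_bound_of_continuousOn ((continuousOn_rho g x₀).mono hKt)
  obtain ⟨R', hR'⟩ := hK.exists_bound_of_continuousOn (((continuousOn_rho g x₀).inv₀
    (fun y hy => (rho_pos g hy).ne')).mono hKt)
  refine ⟨C₁ ^ 2 * (|R| + |R'| + 1), by positivity, fun w hw => ?_⟩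
  rw [NM_sq_eq g C hT hs hw]
  set t := (extChartAt (𝓡∂ (d + 1)) x₀).target with ht
  have hmt : MeasurableSet t := measurableSet_target x₀
  have hBc : ContinuousOn (fun y => ‖rep (𝓡∂ (d + 1)) x₀ w.val y‖ ^ 2) t :=
    ((w.smooth x₀).continuousOn.norm).pow 2
  have hAc : ContinuousOn (fun y => Real.sqrt (g.gram x₀ y).det *
      pn g w.val ((extChartAt (𝓡∂ (d + 1)) x₀).symm y) ^ 2) t :=
    (continuousOn_rho g x₀).mul (continuousOn_pn_sq g w x₀)
  have hB0 : ∀ y ∈ t, y ∉ extChartAt (𝓡∂ (d + 1)) x₀ '' T →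
      ‖rep (𝓡∂ (d + 1)) x₀ w.val y‖ ^ 2 = 0 := by
    intro y hy hyK
    rw [rep_zero_of (hw _ (symm_notMem hy hyK))]
    simp
  have hA0 : ∀ y ∈ t, y ∉ extChartAt (𝓡∂ (d + 1)) x₀ '' T → Real.sqrt (g.gram x₀ y).det *
      pn g w.val ((extChartAt (𝓡∂ (d + 1)) x₀).symm y) ^ 2 = 0 := by
    intro y hy hyK
    rw [pn_zero g (hw _ (symm_notMem hy hyK))]
    simp
  have hBi := integrableOn_of hK hKt hmt hBc hB0
  have hAi := integrableOn_of hK hKt hmt hAc hA0
  constructor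
  · rw [← integral_const_mul]
    refine setIntegral_mono_on hAi (hBi.const_mul _) hmt fun y hy => ?_
    by_cases hyK : y ∈ extChartAt (𝓡∂ (d + 1)) x₀ '' T
    · obtain ⟨h1, h2⟩ := hcomp y hyK w.val
      have h3 : Real.sqrt (g.gram x₀ y).det ≤ |R| :=
        (le_abs_self _).trans ((hR y hyK).trans (le_abs_self _))
      have h4 : pn g w.val ((extChartAt (𝓡∂ (d + 1)) x₀).symm y) ^ 2 ≤
          C₁ ^ 2 * ‖rep (𝓡∂ (d + 1)) x₀ w.val y‖ ^ 2 := by
        rw [← mul_pow]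
        exact pow_le_pow_left₀ (pn_nonneg g _ _) h2 2
      calc _ ≤ |R| * (C₁ ^ 2 * ‖rep (𝓡∂ (d + 1)) x₀ w.val y‖ ^ 2) :=
            mul_le_mul h3 h4 (by positivity) (abs_nonneg _)
        _ = (C₁ ^ 2 * |R|) * ‖rep (𝓡∂ (d + 1)) x₀ w.val y‖ ^ 2 := by ring
        _ ≤ _ := by
          refine mul_le_mul_of_nonneg_right ?_ (by positivity)
          refine mul_le_mul_of_nonneg_left ?_ (by positivity)
          linarith [abs_nonneg R']
    · rw [hA0 y hy hyK, hB0 y hy hyK, mul_zero]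
  · rw [← integral_const_mul]
    refine setIntegral_mono_on hBi (hAi.const_mul _) hmt fun y hy => ?_
    by_cases hyK : y ∈ extChartAt (𝓡∂ (d + 1)) x₀ '' T
    · obtain ⟨h1, h2⟩ := hcomp y hyK w.val
      have hρ := rho_pos g hy
      have h3 : (Real.sqrt (g.gram x₀ y).det)⁻¹ ≤ |R'| :=
        (le_abs_self _).trans ((hR' y hyK).trans (le_abs_self _))
      have h3' : 1 ≤ |R'| * Real.sqrt (g.gram x₀ y).det := by
        have := mul_le_mul_of_nonneg_right h3 hρ.le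
        rwa [inv_mul_cancel₀ hρ.ne'] at this
      have h4 : ‖rep (𝓡∂ (d + 1)) x₀ w.val y‖ ^ 2 ≤
          C₁ ^ 2 * pn g w.val ((extChartAt (𝓡∂ (d + 1)) x₀).symm y) ^ 2 := by
        rw [← mul_pow]
        exact pow_le_pow_left₀ (norm_nonneg _) h1 2
      have hp : 0 ≤ C₁ ^ 2 * pn g w.val ((extChartAt (𝓡∂ (d + 1)) x₀).symm y) ^ 2 := by positivity
      calc _ ≤ C₁ ^ 2 * pn g w.val ((extChartAt (𝓡∂ (d + 1)) x₀).symm y) ^ 2 := h4
        _ ≤ (|R'| * Real.sqrt (g.gram x₀ y).det) *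
            (C₁ ^ 2 * pn g w.val ((extChartAt (𝓡∂ (d + 1)) x₀).symm y) ^ 2) :=
            le_mul_of_one_le_left hp h3'
        _ = (C₁ ^ 2 * |R'|) * (Real.sqrt (g.gram x₀ y).det *
            pn g w.val ((extChartAt (𝓡∂ (d + 1)) x₀).symm y) ^ 2) := by ring
        _ ≤ _ := by
          refine mul_le_mul_of_nonneg_right ?_ (by positivity)
          refine mul_le_mul_of_nonneg_left ?_ (by positivity)
          linarith [abs_nonneg R]
    · rw [hA0 y hy hyK, hB0 y hy hyK, mul_zero]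

/-! ### Fields and forms in a chart -/

/-- the field `χ' e_k` in the `i`-th chart -/
def fld (i : Fin C.N) (k : Fin (d + 1)) : VF (𝓡∂ (d + 1)) Ω :=
  ⟨ofChartV (I := 𝓡∂ (d + 1)) (C.c i) (C.χ' i) (fun _ => ev k),
    ofChartV_smooth (C.χ'_smooth i) (C.χ'_supp i) contDiffOn_const⟩

theorem fld_tang (i : Fin C.N) (k : Fin d) {z : Ω} (hz : z ∈ (𝓡∂ (d + 1)).boundary Ω) :
    ((fld C i k.succ).val z) 0 = 0 := by
  show (ofChartV (I := 𝓡∂ (d + 1)) (C.c i) (C.χ' i) (fun _ => ev k.succ) z) 0 = 0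
  unfold ofChartV
  split_ifs with h
  · have h1 : (ev k.succ : Eu (d + 1)) 0 = 0 := by simp [ev]
    have h2 := dsymm_tang hz h h1
    show C.χ' i z * (dsymm (𝓡∂ (d + 1)) (C.c i) (extChartAt (𝓡∂ (d + 1)) (C.c i) z)
      (ev k.succ)) 0 = 0
    rw [h2, mul_zero]
  · rfl

theorem repV_fld (i : Fin C.N) (k : Fin (d + 1)) {y : Eu (d + 1)}
    (hy : y ∈ extChartAt (𝓡∂ (d + 1)) (C.c i) '' tsupport (C.χ i)) :
    ∀ᶠ y' in 𝓝[range (𝓡∂ (d + 1))] y, repV (𝓡∂ (d + 1)) (C.c i) (fld C i k).val y' = ev k := by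
  obtain ⟨z, hz, rfl⟩ := hy
  have hzs := C.χ_supp i hz
  have ht := (extChartAt (𝓡∂ (d + 1)) (C.c i)).map_source hzs
  have h1 := C.χ'_one i z hz
  have h2 := (continuousAt_extChartAt_symm'' ht).tendsto
  rw [(extChartAt (𝓡∂ (d + 1)) (C.c i)).left_inv hzs] at h2
  have h3 := h2.eventually h1
  filter_upwards [h3.filter_mono nhdsWithin_le_nhds,
    extChartAt_target_mem_nhdsWithin_of_mem ht] with y' h4 h5
  show repV _ _ (ofChartV (I := 𝓡∂ (d + 1)) (C.c i) (C.χ' i) (fun _ => ev k)) y' = _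
  rw [repV_ofChartV h5, h4, one_smul]

/-- the form in the chart, extended by zero -/
def ind {q : ℕ} (x₀ : Ω) (w : Ω → Alt (Eu (d + 1)) q) : Eu (d + 1) → Alt (Eu (d + 1)) q :=
  (extChartAt (𝓡∂ (d + 1)) x₀).target.indicator (rep (𝓡∂ (d + 1)) x₀ w)

theorem ind_eq_zero {q : ℕ} {x₀ : Ω} {T : Set Ω} {w : Ω → Alt (Eu (d + 1)) q} (hw : Van T w)
    {y : Eu (d + 1)} (hy : y ∉ extChartAt (𝓡∂ (d + 1)) x₀ '' T) : ind x₀ w y = 0 := by
  unfold ind
  by_cases h : y ∈ (extChartAt (𝓡∂ (d + 1)) x₀).target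
  · rw [indicator_of_mem h]
    exact rep_zero_of (hw _ (symm_notMem h hy))
  · exact indicator_of_notMem h _

theorem ind_of_mem {q : ℕ} {x₀ : Ω} (w : Ω → Alt (Eu (d + 1)) q) {y : Eu (d + 1)}
    (hy : y ∈ (extChartAt (𝓡∂ (d + 1)) x₀).target) : ind x₀ w y = rep (𝓡∂ (d + 1)) x₀ w y :=
  indicator_of_mem hy _

/-- derivatives of the extended form -/
theorem fderivWithin_ind {q : ℕ} {x₀ : Ω} (w : Ω → Alt (Eu (d + 1)) q) {y : Eu (d + 1)}
    (hy : y ∈ (extChartAt (𝓡∂ (d + 1)) x₀).target) :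
    fderivWithin ℝ (ind x₀ w) (HS d) y = fderivWithin ℝ (rep (𝓡∂ (d + 1)) x₀ w) (HS d) y := by
  have h1 : (extChartAt (𝓡∂ (d + 1)) x₀).target ∈ 𝓝[HS d] y := by
    rw [← range_eq]; exact extChartAt_target_mem_nhdsWithin_of_mem hy
  refine Filter.EventuallyEq.fderivWithin_eq ?_ (ind_of_mem w hy)
  filter_upwards [h1] with y' hy' using ind_of_mem w hy'

theorem fderivWithin_ind_zero {q : ℕ} {x₀ : Ω} {T : Set Ω} (hT : IsClosed T)
    (hs : T ⊆ (extChartAt (𝓡∂ (d + 1)) x₀).source) {w : Ω → Alt (Eu (d + 1)) q}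
    (hw : Van T w) {y : Eu (d + 1)} (hy : y ∉ extChartAt (𝓡∂ (d + 1)) x₀ '' T) :
    fderivWithin ℝ (ind x₀ w) (HS d) y = 0 := by
  have h1 : (extChartAt (𝓡∂ (d + 1)) x₀ '' T)ᶜ ∈ 𝓝 y :=
    (isCompact_image hT hs).isClosed.isOpen_compl.mem_nhds hy
  have h2 : ind x₀ w =ᶠ[𝓝[HS d] y] fun _ => 0 := by
    filter_upwards [nhdsWithin_le_nhds h1] with y' hy' using ind_eq_zero hw hy'
  rw [h2.fderivWithin_eq (ind_eq_zero hw hy)]
  exact fderivWithin_const_apply _

theorem step {q : ℕ} (i : Fin C.N) (k : Fin (d + 1)) {w : SForm (𝓡∂ (d + 1)) Ω (q + 1)}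
    (hw : Van (tsupport (C.χ i)) w.val) (y : Eu (d + 1)) :
    ind (C.c i) (Lie (fld C i k) w).val y =
      fderivWithin ℝ (ind (C.c i) w.val) (HS d) y (ev k) := by
  by_cases hy : y ∈ extChartAt (𝓡∂ (d + 1)) (C.c i) '' tsupport (C.χ i)
  · have ht := image_subset_target (C.χ_supp i) hy
    rw [ind_of_mem _ ht, fderivWithin_ind _ ht,
      rep_Lie_of_const (fld C i k) w ht (repV_fld C i k hy), range_eq]
  · rw [ind_eq_zero (van_Lie (isClosed_tsupport _) _ hw) hy,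
      fderivWithin_ind_zero (isClosed_tsupport _) (C.χ_supp i) hw hy]
    rfl

/-- `χ_i w` differentiated along the tangential coordinate fields of the `i`-th chart. -/
def wd {q : ℕ} (i : Fin C.N) (w : SForm (𝓡∂ (d + 1)) Ω (q + 1)) :
    List (Fin d) → SForm (𝓡∂ (d + 1)) Ω (q + 1)
  | [] => chi C i • w
  | k :: l => Lie (fld C i k.succ) (wd i w l)

theorem wd_van {q : ℕ} (i : Fin C.N) (w : SForm (𝓡∂ (d + 1)) Ω (q + 1)) (l : List (Fin d)) :
    Van (tsupport (C.χ i)) (wd C i w l).val := by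
  induction l with
  | nil => exact van_smul' (chi_van C i) w
  | cons k l ih => exact van_Lie (isClosed_tsupport _) _ ih

theorem pd_wd {q : ℕ} (i : Fin C.N) (w : SForm (𝓡∂ (d + 1)) Ω (q + 1)) (l : List (Fin d)) :
    ∀ y ∈ HS d, pd (l.map Fin.succ) (ind (C.c i) (chi C i • w).val) y =
      ind (C.c i) (wd C i w l).val y := by
  induction l with
  | nil => intro y _; rfl
  | cons k l ih =>
    intro y hy
    have h1 : pd ((k :: l).map Fin.succ) (ind (C.c i) (chi C i • w).val) y =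
        fderivWithin ℝ (pd (l.map Fin.succ) (ind (C.c i) (chi C i • w).val)) (HS d) y
          (ev k.succ) := rfl
    rw [h1, fderivWithin_congr (fun y hy => ih y hy) (ih y hy)]
    exact (step C i k.succ (wd_van C i w l) y).symm

theorem pd_all {q : ℕ} (i : Fin C.N) (w : SForm (𝓡∂ (d + 1)) Ω (q + 1)) {y : Eu (d + 1)}
    (hy : y ∈ HS d) :
    pd (List.finRange (d + 1)) (ind (C.c i) (chi C i • w).val) y =
      ind (C.c i) (Lie (fld C i 0) (wd C i w (List.finRange d))).val y := by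
  rw [List.finRange_succ]
  have h1 : pd (0 :: (List.finRange d).map Fin.succ) (ind (C.c i) (chi C i • w).val) y =
      fderivWithin ℝ (pd ((List.finRange d).map Fin.succ) (ind (C.c i) (chi C i • w).val)) (HS d) y
        (ev 0) := rfl
  rw [h1, fderivWithin_congr (fun y hy => pd_wd C i w _ y hy) (pd_wd C i w _ y hy)]
  exact (step C i 0 (wd_van C i w _) y).symm

theorem ind_smooth {q : ℕ} {x₀ : Ω} {T : Set Ω} (hT : IsClosed T)
    (hs : T ⊆ (extChartAt (𝓡∂ (d + 1)) x₀).source) {w : SForm (𝓡∂ (d + 1)) Ω q}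
    (hw : Van T w.val) :
    ContDiffOn ℝ ∞ (ind x₀ w.val) (HS d) ∧ HasCompactSupport (ind x₀ w.val) := by
  have h1 : tsupport w.val ⊆ (extChartAt (𝓡∂ (d + 1)) x₀).source := by
    refine (closure_minimal (fun z hz => ?_) hT).trans hs
    by_contra h
    exact hz (hw z h)
  have h2 := indicator_rep w h1
  rw [range_eq] at h2
  exact h2

theorem sq_integral_le {n : ℕ} {F : Type*} [NormedAddCommGroup F] {K t : Set (Eu n)}
    (hK : IsCompact K) (hKt : K ⊆ t) (ht : MeasurableSet t) {f : Eu n → F}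
    (hf : ContinuousOn f t) (h0 : ∀ y ∈ t, y ∉ K → f y = 0) :
    (∫ y in t, ‖f y‖) ^ 2 ≤ (volume K).toReal * ∫ y in t, ‖f y‖ ^ 2 := by
  have e1 : ∫ y in t, ‖f y‖ = ∫ y in K, ‖f y‖ :=
    setIntegral_eq_of_subset_of_forall_sdiff_eq_zero ht hKt
      (fun y hy => by rw [h0 y hy.1 hy.2, norm_zero])
  have e2 : ∫ y in t, ‖f y‖ ^ 2 = ∫ y in K, ‖f y‖ ^ 2 :=
    setIntegral_eq_of_subset_of_forall_sdiff_eq_zero ht hKt
      (fun y hy => by rw [h0 y hy.1 hy.2, norm_zero]; norm_num)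
  rw [e1, e2]
  have hfK : ContinuousOn (fun y => ‖f y‖) K := (hf.mono hKt).norm
  have i1 : IntegrableOn (fun y => ‖f y‖) K := hfK.integrableOn_compact hK
  have i2 : IntegrableOn (fun y => ‖f y‖ ^ 2) K := (hfK.pow 2).integrableOn_compact hK
  have key : ∀ s : ℝ, 0 ≤ (volume K).toReal * (s * s) + (-2 * ∫ y in K, ‖f y‖) * s +
      ∫ y in K, ‖f y‖ ^ 2 := by
    intro s
    have i3 : IntegrableOn (fun _ : Eu n => s * s) K := continuousOn_const.integrableOn_compact hK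
    have h1 : 0 ≤ ∫ y in K, (‖f y‖ - s) ^ 2 := integral_nonneg fun y => sq_nonneg _
    have h2 : ∫ y in K, (‖f y‖ - s) ^ 2 = ∫ y in K, ((‖f y‖ ^ 2 - (2 * s) * ‖f y‖) + s * s) := by
      refine integral_congr_ae (Filter.Eventually.of_forall fun y => ?_)
      dsimp only
      ring
    have i4 : IntegrableOn (fun y => ‖f y‖ ^ 2 - (2 * s) * ‖f y‖) K := i2.sub (i1.const_mul _)
    rw [h2, integral_add i4 i3, integral_sub i2 (i1.const_mul _), integral_const_mul, setIntegral_const, smul_eq_mul] at h1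
    have h3 : (volume : Measure (Eu n)).real K = (volume K).toReal := rfl
    rw [h3] at h1
    linarith
  have h4 := discrim_le_zero key
  unfold discrim at h4
  nlinarith

/-- The sup bound for one member of the cover. -/
theorem pn_bound (q : ℕ) (i : Fin C.N) : ∃ K : ℝ, 0 ≤ K ∧
    ∀ (w : SForm (𝓡∂ (d + 1)) Ω (q + 1)) (z : Ω), pn g (chi C i • w).val z ≤
      K * NM g C (q + 1) (Lie (fld C i 0) (wd C i w (List.finRange d))) := by
  have hT := isClosed_tsupport (C.χ i)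
  have hs := C.χ_supp i
  have hK := isCompact_image hT hs
  have hKt := image_subset_target hs
  obtain ⟨C₁, hC₁, hcomp⟩ := pn_comparison g (q + 1) (C.c i) hK hKt
  obtain ⟨c, hc, hNM⟩ := NM_chart g C (q + 1) hT hs
  set V := (volume (extChartAt (𝓡∂ (d + 1)) (C.c i) '' tsupport (C.χ i))).toReal with hV
  have hV0 : 0 ≤ V := ENNReal.toReal_nonneg
  refine ⟨C₁ * Real.sqrt (V * c), by positivity, fun w z => ?_⟩
  set u := Lie (fld C i 0) (wd C i w (List.finRange d)) with hu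
  have hN : 0 ≤ NM g C (q + 1) u := apply_nonneg _ _
  by_cases hz : z ∈ tsupport (C.χ i)
  · have hzs := hs hz
    have hyK : extChartAt (𝓡∂ (d + 1)) (C.c i) z ∈
        extChartAt (𝓡∂ (d + 1)) (C.c i) '' tsupport (C.χ i) := ⟨z, hz, rfl⟩
    obtain ⟨y, hy⟩ : ∃ y, y = extChartAt (𝓡∂ (d + 1)) (C.c i) z := ⟨_, rfl⟩
    rw [← hy] at hyK
    have hyt := hKt hyK
    have hsy : (extChartAt (𝓡∂ (d + 1)) (C.c i)).symm y = z := by
      rw [hy]; exact (extChartAt (𝓡∂ (d + 1)) (C.c i)).left_inv hzs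
    have h1 := (hcomp y hyK (chi C i • w).val).2
    rw [hsy] at h1
    refine h1.trans ?_
    rw [mul_assoc]
    refine mul_le_mul_of_nonneg_left ?_ hC₁.le
    have hvan : Van (tsupport (C.χ i)) (chi C i • w).val := van_smul' (chi_van C i) w
    have huvan : Van (tsupport (C.χ i)) u.val := van_Lie hT _ (wd_van C i w _)
    obtain ⟨hf1, hf2⟩ := ind_smooth hT hs hvan
    have hyHS : y ∈ HS d := by
      rw [← range_eq]; exact extChartAt_target_subset_range _ hyt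
    have h2 := local_sobolev hf1 hf2 hyHS
    rw [ind_of_mem _ hyt] at h2
    refine h2.trans ?_
    have h3 : ∫ x in HS d, ‖pd (List.finRange (d + 1)) (ind (C.c i) (chi C i • w).val) x‖ =
        ∫ x in HS d, ‖ind (C.c i) u.val x‖ := by
      refine setIntegral_congr_fun isClosed_HS'.measurableSet fun x hx => ?_
      rw [pd_all C i w hx]
    have h4 : ∫ x in HS d, ‖ind (C.c i) u.val x‖ =
        ∫ x in (extChartAt (𝓡∂ (d + 1)) (C.c i)).target, ‖rep (𝓡∂ (d + 1)) (C.c i) u.val x‖ := by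
      have h5 : ∀ x, ‖ind (C.c i) u.val x‖ = (extChartAt (𝓡∂ (d + 1)) (C.c i)).target.indicator
          (fun x => ‖rep (𝓡∂ (d + 1)) (C.c i) u.val x‖) x := fun x =>
        norm_indicator_eq_indicator_norm _ _
      simp only [h5]
      rw [setIntegral_indicator (measurableSet_target _)]
      have h6 : HS d ∩ (extChartAt (𝓡∂ (d + 1)) (C.c i)).target =
          (extChartAt (𝓡∂ (d + 1)) (C.c i)).target := by
        rw [inter_eq_right, ← range_eq]
        exact extChartAt_target_subset_range _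
      rw [h6]
    rw [h3, h4]
    have h7 := sq_integral_le hK hKt (measurableSet_target (C.c i))
      (f := rep (𝓡∂ (d + 1)) (C.c i) u.val) (u.smooth (C.c i)).continuousOn
      (fun y hy hyK => rep_zero_of (huvan _ (symm_notMem hy hyK)))
    have h8 := (hNM u huvan).2
    rw [← hV] at h7
    have h9 : (∫ x in (extChartAt (𝓡∂ (d + 1)) (C.c i)).target,
        ‖rep (𝓡∂ (d + 1)) (C.c i) u.val x‖) ^ 2 ≤ V * c * NM g C (q + 1) u ^ 2 := by
      refine h7.trans ?_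
      rw [mul_assoc]
      exact mul_le_mul_of_nonneg_left h8 hV0
    have h10 := Real.abs_le_sqrt h9
    rw [Real.sqrt_mul (by positivity), Real.sqrt_sq hN] at h10
    exact (le_abs_self _).trans h10
  · rw [pn_zero g (van_smul' (chi_van C i) w z hz)]
    positivity

/-! ### The codifferential and functions -/

/-- complex conjugate of a smooth function -/
def cj (b : SFun (𝓡∂ (d + 1)) Ω) : SFun (𝓡∂ (d + 1)) Ω :=
  ⟨fun z => conj (b.val z), by
    have h : ContDiff ℝ ∞ (fun w : ℂ => conj w) := Complex.conjCLE.contDiff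
    exact h.contMDiff.comp b.smooth⟩

theorem cj_val (b : SFun (𝓡∂ (d + 1)) Ω) (z : Ω) : (cj b).val z = conj (b.val z) := rfl

theorem cj_cj (b : SFun (𝓡∂ (d + 1)) Ω) : cj (cj b) = b := by
  ext z; simp [cj_val]

theorem ipM_swap {q : ℕ} (b : SFun (𝓡∂ (d + 1)) Ω) (v w : SForm (𝓡∂ (d + 1)) Ω q) :
    ipM g C (b • v) w = ipM g C v (cj b • w) := by
  have h : fip g (b • v).val w.val = fip g v.val (cj b • w).val := by
    funext z
    unfold fip
    rw [SForm.smul_apply, SForm.smul_apply, formInner_smul_left,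
      ← formInner_conj_symm _ (posDef_self g z) _ ((cj b).val z • _),
      formInner_smul_left, map_mul, formInner_conj_symm _ (posDef_self g z), cj_val,
      Complex.conj_conj]
  unfold ipM
  rw [h]

theorem ipM_neg_left {q : ℕ} (v w : SForm (𝓡∂ (d + 1)) Ω q) :
    ipM g C (-v) w = - ipM g C v w := by
  have h := ipM_add_left g C v (-v) w
  have h0 : ipM g C (0 : SForm (𝓡∂ (d + 1)) Ω q) w = 0 := by
    have := ipM_add_left g C 0 0 w
    rw [add_zero] at this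
    exact left_eq_add.mp this
  rw [add_neg_cancel, h0] at h
  exact (neg_eq_of_add_eq_zero_right h.symm).symm

theorem ipM_sub_left {q : ℕ} (v v' w : SForm (𝓡∂ (d + 1)) Ω q) :
    ipM g C (v - v') w = ipM g C v w - ipM g C v' w := by
  rw [sub_eq_add_neg, ipM_add_left, ipM_neg_left, sub_eq_add_neg]

theorem ipM_sub_right {q : ℕ} (v w w' : SForm (𝓡∂ (d + 1)) Ω q) :
    ipM g C v (w - w') = ipM g C v w - ipM g C v w' := by
  rw [← ipM_conj, ipM_sub_left, map_sub, ipM_conj, ipM_conj]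

theorem ipM_cod_comm {q : ℕ} (b : SFun (𝓡∂ (d + 1)) Ω) {u : SForm (𝓡∂ (d + 1)) Ω q}
    (hu : u ∈ dirS Ω q) (w : SForm (𝓡∂ (d + 1)) Ω (q + 1)) :
    ipM g C u (cod g C (b • w) - b • cod g C w) = - ipM g C (eS (cj b) u) w := by
  have h1 : ipM g C u (cod g C (b • w)) = ipM g C (cj b • dS u) w := by
    rw [← green g C hu, ipM_swap, cj_cj]
  have h2 : ipM g C u (b • cod g C w) = ipM g C (dS (cj b • u)) w := by
    rw [green g C ((dirS Ω q).smul_mem _ hu), ipM_swap, cj_cj]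
  rw [ipM_sub_right, h1, h2, eS_def, ipM_sub_left]
  ring

/-- `[δ, b]` as a module homomorphism. -/
def codQ {q : ℕ} (b : SFun (𝓡∂ (d + 1)) Ω) :
    SForm (𝓡∂ (d + 1)) Ω (q + 1) →ₗ[SFun (𝓡∂ (d + 1)) Ω] SForm (𝓡∂ (d + 1)) Ω q where
  toFun w := cod g C (b • w) - b • cod g C w
  map_add' v w := by
    rw [smul_add, map_add, map_add, smul_add]; abel
  map_smul' c w := by
    rw [RingHom.id_apply, ← sub_eq_zero]
    refine eq_zero_of_ipM_dir g C fun u hu => ?_
    rw [ipM_sub_right, ipM_cod_comm g C b hu]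
    have h1 : ipM g C u (c • (cod g C (b • w) - b • cod g C w)) =
        ipM g C (cj c • u) (cod g C (b • w) - b • cod g C w) := by
      rw [ipM_swap, cj_cj]
    have h2 : ipM g C (eS (cj b) u) (c • w) = ipM g C (cj c • eS (cj b) u) w := by
      rw [ipM_swap, cj_cj]
    rw [h1, ipM_cod_comm g C b ((dirS Ω q).smul_mem _ hu), h2, LinearMap.map_smul]
    ring

theorem codQ_apply {q : ℕ} (b : SFun (𝓡∂ (d + 1)) Ω) (w : SForm (𝓡∂ (d + 1)) Ω (q + 1)) :
    codQ g C b w = cod g C (b • w) - b • cod g C w := rfl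

theorem van_cod {q : ℕ} {T : Set Ω} (hT : IsClosed T) {w : SForm (𝓡∂ (d + 1)) Ω (q + 1)}
    (hw : Van T w.val) : Van T (cod g C w).val := by
  intro z hz
  have hy : extChartAt (𝓡∂ (d + 1)) z z ∈ (extChartAt (𝓡∂ (d + 1)) z).target :=
    mem_extChartAt_target z
  have hs : (extChartAt (𝓡∂ (d + 1)) z).symm (extChartAt (𝓡∂ (d + 1)) z z) = z :=
    extChartAt_to_inv z
  have h := rep_eventually_zero hT hw hy (by rwa [hs])
  rw [← rep_self (𝓡∂ (d + 1)) (cod g C w).val z, rep_cod g C w z hy]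
  have h2 : (fun y' => Real.sqrt (g.gram z y').det •
      (rep (𝓡∂ (d + 1)) z w.val y').compContinuousLinearMap (matL (g.gram z y')⁻¹)) =ᶠ[𝓝
        (extChartAt (𝓡∂ (d + 1)) z z)] fun _ => 0 := by
    filter_upwards [h] with y' hy'
    rw [hy']
    ext v
    simp
  unfold codLoc
  rw [(h2.filter_mono nhdsWithin_le_nhds).fderivWithin_eq h2.self_of_nhds]
  ext v
  simp

/-! ### Lie derivatives in a chart -/

theorem expand_ev {n : ℕ} (v : Eu n) : v = ∑ k, v k • ev k := AS.vec_expand v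

theorem norm_dir_le {n q : ℕ} (D : Eu n →L[ℝ] Alt (Eu n) q) (v : Eu n) :
    ‖D v‖ ≤ ‖v‖ * ∑ k, ‖D (ev k)‖ := by
  have h1 : D v = ∑ k, v k • D (ev k) := by
    conv_lhs => rw [expand_ev v]
    rw [map_sum]
    exact Finset.sum_congr rfl fun k _ => map_smul _ _ _
  rw [h1, Finset.mul_sum]
  refine (norm_sum_le _ _).trans (Finset.sum_le_sum fun k _ => ?_)
  rw [norm_smul]
  exact mul_le_mul_of_nonneg_right (PiLp.norm_apply_le v k) (norm_nonneg _)

theorem norm_update_le {n q : ℕ} (u : Alt (Eu n) (q + 1)) (D : Eu n →L[ℝ] Eu n)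
    (v : Fin (q + 1) → Eu n) (l : Fin (q + 1)) :
    ‖u (Function.update v l (D (v l)))‖ ≤ ‖u‖ * ‖D‖ * ∏ j, ‖v j‖ := by
  refine (u.le_opNorm _).trans ?_
  rw [mul_assoc]
  refine mul_le_mul_of_nonneg_left ?_ (norm_nonneg _)
  have h1 : ∏ j, ‖Function.update v l (D (v l)) j‖ =
      ‖D (v l)‖ * ∏ j ∈ Finset.univ.erase l, ‖v j‖ := by
    rw [← Finset.mul_prod_erase Finset.univ _ (Finset.mem_univ l), Function.update_self]
    congr 1
    refine Finset.prod_congr rfl fun j hj => ?_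
    rw [Function.update_of_ne (Finset.ne_of_mem_erase hj)]
  have h2 : ∏ j, ‖v j‖ = ‖v l‖ * ∏ j ∈ Finset.univ.erase l, ‖v j‖ :=
    (Finset.mul_prod_erase Finset.univ _ (Finset.mem_univ l)).symm
  rw [h1, h2, ← mul_assoc]
  exact mul_le_mul_of_nonneg_right (D.le_opNorm _) (Finset.prod_nonneg fun _ _ => norm_nonneg _)

theorem continuousOn_fderiv_repV (X : VF (𝓡∂ (d + 1)) Ω) (x₀ : Ω) :
    ContinuousOn (fun y => fderivWithin ℝ (repV (𝓡∂ (d + 1)) x₀ X.val)
      (range (𝓡∂ (d + 1))) y) (extChartAt (𝓡∂ (d + 1)) x₀).target := by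
  have h1 := (X.smooth x₀).continuousOn_fderivWithin (uniqueDiffOn_extChartAt_target x₀)
    (by simp)
  refine h1.congr fun y hy => ?_
  exact (fderivWithin_congr_set
    ((extChartAt_target_eventuallyEq_of_mem hy))).symm

/-- Lie derivatives are bounded by partial derivatives in a chart. -/
theorem Lie_bound (q : ℕ) (X : VF (𝓡∂ (d + 1)) Ω) {x₀ : Ω} {T : Set Ω} (hT : IsClosed T)
    (hs : T ⊆ (extChartAt (𝓡∂ (d + 1)) x₀).source) :
    ∃ B : ℝ, 0 ≤ B ∧ ∀ w : SForm (𝓡∂ (d + 1)) Ω (q + 1), Van T w.val →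
      ∀ y ∈ (extChartAt (𝓡∂ (d + 1)) x₀).target, ‖rep (𝓡∂ (d + 1)) x₀ (Lie X w).val y‖ ^ 2 ≤
        B * (∑ k, ‖fderivWithin ℝ (rep (𝓡∂ (d + 1)) x₀ w.val) (HS d) y (ev k)‖ ^ 2 +
          ‖rep (𝓡∂ (d + 1)) x₀ w.val y‖ ^ 2) := by
  have hK := isCompact_image hT hs
  have hKt := image_subset_target hs
  obtain ⟨R, hR⟩ := hK.exists_bound_of_continuousOn (((X.smooth x₀).continuousOn).mono hKt)
  obtain ⟨R', hR'⟩ := hK.exists_bound_of_continuousOn ((continuousOn_fderiv_repV X x₀).mono hKt)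
  set S : ℝ := |R| + (q + 1) * |R'| with hS
  have hS0 : 0 ≤ S := by positivity
  refine ⟨S ^ 2 * (2 * (d + 1)), by positivity, fun w hw y hy => ?_⟩
  by_cases hyK : y ∈ extChartAt (𝓡∂ (d + 1)) x₀ '' T
  · set D := fderivWithin ℝ (rep (𝓡∂ (d + 1)) x₀ w.val) (HS d) y with hD
    have h1 : ‖rep (𝓡∂ (d + 1)) x₀ (Lie X w).val y‖ ≤
        S * (∑ k, ‖D (ev k)‖ + ‖rep (𝓡∂ (d + 1)) x₀ w.val y‖) := by
      have hsum0 : 0 ≤ ∑ k, ‖D (ev k)‖ := Finset.sum_nonneg fun _ _ => norm_nonneg _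
      refine ContinuousAlternatingMap.opNorm_le_bound _ (by positivity) fun v => ?_
      rw [rep_Lie_apply X w hy v]
      refine (norm_add_le _ _).trans ?_
      have e1 : ‖(fderivWithin ℝ (rep (𝓡∂ (d + 1)) x₀ w.val) (range (𝓡∂ (d + 1))) y
          (repV (𝓡∂ (d + 1)) x₀ X.val y)) v‖ ≤ (|R| * ∑ k, ‖D (ev k)‖) * ∏ j, ‖v j‖ := by
        rw [range_eq, ← hD]
        refine (ContinuousAlternatingMap.le_opNorm _ _).trans ?_
        refine mul_le_mul_of_nonneg_right ?_ (Finset.prod_nonneg fun _ _ => norm_nonneg _)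
        refine (norm_dir_le D _).trans ?_
        exact mul_le_mul_of_nonneg_right ((hR y hyK).trans (le_abs_self _)) hsum0
      have e2 : ‖∑ l, rep (𝓡∂ (d + 1)) x₀ w.val y (Function.update v l
          (fderivWithin ℝ (repV (𝓡∂ (d + 1)) x₀ X.val) (range (𝓡∂ (d + 1))) y (v l)))‖ ≤
          ((q + 1) * |R'| * ‖rep (𝓡∂ (d + 1)) x₀ w.val y‖) * ∏ j, ‖v j‖ := by
        refine (norm_sum_le _ _).trans ?_
        have e3 : ∀ l ∈ (Finset.univ : Finset (Fin (q + 1))),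
            ‖rep (𝓡∂ (d + 1)) x₀ w.val y (Function.update v l
            (fderivWithin ℝ (repV (𝓡∂ (d + 1)) x₀ X.val) (range (𝓡∂ (d + 1))) y (v l)))‖ ≤
            |R'| * ‖rep (𝓡∂ (d + 1)) x₀ w.val y‖ * ∏ j, ‖v j‖ := by
          intro l _
          refine (norm_update_le _ _ v l).trans ?_
          refine mul_le_mul_of_nonneg_right ?_ (Finset.prod_nonneg fun _ _ => norm_nonneg _)
          rw [mul_comm]
          exact mul_le_mul_of_nonneg_right ((hR' y hyK).trans (le_abs_self _)) (norm_nonneg _)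
        refine (Finset.sum_le_sum e3).trans ?_
        rw [Finset.sum_const, Finset.card_univ, Fintype.card_fin, nsmul_eq_mul]
        push_cast
        exact le_of_eq (by ring)
      refine (add_le_add e1 e2).trans ?_
      rw [← add_mul]
      refine mul_le_mul_of_nonneg_right ?_ (Finset.prod_nonneg fun _ _ => norm_nonneg _)
      have e4 : 0 ≤ (q + 1 : ℝ) * |R'| * ∑ k, ‖D (ev k)‖ := by positivity
      have e5 : 0 ≤ |R| * ‖rep (𝓡∂ (d + 1)) x₀ w.val y‖ := by positivity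
      rw [hS]
      nlinarith
    have h2 : (∑ k, ‖D (ev k)‖) ^ 2 ≤ (d + 1) * ∑ k, ‖D (ev k)‖ ^ 2 := by
      have := sq_sum_le_card_mul_sum_sq (s := (Finset.univ : Finset (Fin (d + 1))))
        (f := fun k => ‖D (ev k)‖)
      rw [Finset.card_univ, Fintype.card_fin] at this
      push_cast at this
      exact this
    have h3 : ‖rep (𝓡∂ (d + 1)) x₀ (Lie X w).val y‖ ^ 2 ≤
        S ^ 2 * (∑ k, ‖D (ev k)‖ + ‖rep (𝓡∂ (d + 1)) x₀ w.val y‖) ^ 2 := by
      rw [← mul_pow]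
      exact pow_le_pow_left₀ (norm_nonneg _) h1 2
    refine h3.trans ?_
    rw [mul_assoc]
    refine mul_le_mul_of_nonneg_left ?_ (by positivity)
    have h4 : (∑ k, ‖D (ev k)‖ + ‖rep (𝓡∂ (d + 1)) x₀ w.val y‖) ^ 2 ≤
        2 * (∑ k, ‖D (ev k)‖) ^ 2 + 2 * ‖rep (𝓡∂ (d + 1)) x₀ w.val y‖ ^ 2 := by
      nlinarith [sq_nonneg (∑ k, ‖D (ev k)‖ - ‖rep (𝓡∂ (d + 1)) x₀ w.val y‖)]
    refine h4.trans ?_
    have h5 : 0 ≤ (d : ℝ) * ‖rep (𝓡∂ (d + 1)) x₀ w.val y‖ ^ 2 := by positivity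
    nlinarith
  · rw [rep_zero_of (van_Lie hT X hw _ (symm_notMem hy hyK)), norm_zero]
    have : (0 : ℝ) ≤ ∑ k, ‖fderivWithin ℝ (rep (𝓡∂ (d + 1)) x₀ w.val) (HS d) y (ev k)‖ ^ 2 :=
      Finset.sum_nonneg fun _ _ => by positivity
    have h0 : (0 : ℝ) ^ 2 = 0 := by norm_num
    rw [h0]
    positivity

theorem norm_fderivWithin_rep {q : ℕ} (i : Fin C.N) (k : Fin (d + 1))
    {w : SForm (𝓡∂ (d + 1)) Ω (q + 1)} (hw : Van (tsupport (C.χ i)) w.val) {y : Eu (d + 1)}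
    (hy : y ∈ (extChartAt (𝓡∂ (d + 1)) (C.c i)).target) :
    fderivWithin ℝ (rep (𝓡∂ (d + 1)) (C.c i) w.val) (HS d) y (ev k) =
      rep (𝓡∂ (d + 1)) (C.c i) (Lie (fld C i k) w).val y := by
  rw [← ind_of_mem (Lie (fld C i k) w).val hy, step C i k hw y, fderivWithin_ind _ hy]

theorem integrableOn_rep_sq {q : ℕ} (i : Fin C.N) {w : SForm (𝓡∂ (d + 1)) Ω q}
    (hw : Van (tsupport (C.χ i)) w.val) :
    IntegrableOn (fun y => ‖rep (𝓡∂ (d + 1)) (C.c i) w.val y‖ ^ 2)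
      (extChartAt (𝓡∂ (d + 1)) (C.c i)).target := by
  refine integrableOn_of (isCompact_image (isClosed_tsupport (C.χ i)) (C.χ_supp i))
    (image_subset_target (C.χ_supp i)) (measurableSet_target _)
    (((w.smooth (C.c i)).continuousOn.norm).pow 2) fun y hy hyK => ?_
  rw [rep_zero_of (hw _ (symm_notMem hy hyK))]
  simp

/-- Gaffney's inequality for forms supported in one chart. -/
theorem gaffney_chart (q : ℕ) (X : VF (𝓡∂ (d + 1)) Ω) (i : Fin C.N) : ∃ K : ℝ, 0 ≤ K ∧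
    ∀ w ∈ dirS Ω (q + 1), Van (tsupport (C.χ i)) w.val →
      NM g C (q + 1) (Lie X w) ≤ K * (NM g C (q + 2) (dS w) + NM g C q (cod g C w) +
        NM g C (q + 1) w) := by
  have hT := isClosed_tsupport (C.χ i)
  have hs := C.χ_supp i
  have hK := isCompact_image hT hs
  have hKt := image_subset_target hs
  obtain ⟨B, hB, hLie⟩ := Lie_bound q X hT hs
  obtain ⟨c₀, hc₀, hN₀⟩ := NM_chart g C q hT hs
  obtain ⟨c₁, hc₁, hN₁⟩ := NM_chart g C (q + 1) hT hs
  obtain ⟨c₂, hc₂, hN₂⟩ := NM_chart g C (q + 2) hT hs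
  obtain ⟨O, hO, hOt⟩ := exists_open_target (d := d) (C.c i)
  have hpos : ∀ y ∈ HS d ∩ O, (g.gram (C.c i) y).PosDef := by
    intro y hy
    rw [← hOt] at hy
    exact gram_posDef g _ hy
  have hG : ∀ a b, ContDiffOn ℝ ∞ (fun y => g.gram (C.c i) y a b) (HS d ∩ O) := by
    intro a b
    rw [← hOt]
    exact gram_contDiffOn g _ a b
  obtain ⟨c₃, hc₃, hloc⟩ := local_gaffney (q := q) hO hK (hKt.trans (hOt ▸ inter_subset_right))
    hG hpos
  refine ⟨Real.sqrt (c₁ * B * (c₃ * (c₂ + c₀ + c₁) + c₁)), Real.sqrt_nonneg _, fun w hw hv => ?_⟩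
  have hloc' := hloc (rep (𝓡∂ (d + 1)) (C.c i) w.val) (by rw [← hOt]; exact w.smooth _)
    (by
      intro y hy hyK
      rw [← hOt] at hy
      exact rep_zero_of (hv _ (symm_notMem hy hyK)))
    (by
      intro y hy h0
      rw [← hOt] at hy
      exact (dirS_chart (w := w)).mp hw _ y hy h0)
  rw [← hOt] at hloc'
  set t := (extChartAt (𝓡∂ (d + 1)) (C.c i)).target with ht
  have hmt : MeasurableSet t := measurableSet_target _
  have hvd : Van (tsupport (C.χ i)) (dS w).val := van_dS hT hv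
  have hvc : Van (tsupport (C.χ i)) (cod g C w).val := van_cod g C hT hv
  have hvL : Van (tsupport (C.χ i)) (Lie X w).val := van_Lie hT X hv
  have e1 : ∫ y in t, ‖extDerivWithin (rep (𝓡∂ (d + 1)) (C.c i) w.val) (HS d) y‖ ^ 2 =
      ∫ y in t, ‖rep (𝓡∂ (d + 1)) (C.c i) (dS w).val y‖ ^ 2 := by
    refine setIntegral_congr_fun hmt fun y hy => ?_
    rw [dS_val, rep_extD w hy, range_eq]
  have e2 : ∫ y in t, ‖codLoc (g.gram (C.c i)) (rep (𝓡∂ (d + 1)) (C.c i) w.val) y‖ ^ 2 =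
      ∫ y in t, ‖rep (𝓡∂ (d + 1)) (C.c i) (cod g C w).val y‖ ^ 2 := by
    refine setIntegral_congr_fun hmt fun y hy => ?_
    rw [rep_cod g C w (C.c i) hy]
  rw [e1, e2] at hloc'
  have i1 : ∀ k, IntegrableOn (fun y =>
      ‖fderivWithin ℝ (rep (𝓡∂ (d + 1)) (C.c i) w.val) (HS d) y (ev k)‖ ^ 2) t := by
    intro k
    refine (integrableOn_rep_sq C i (van_Lie hT (fld C i k) hv)).congr_fun (fun y hy => ?_) hmt
    dsimp only
    rw [norm_fderivWithin_rep C i k hv hy]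
  have i2 := integrableOn_rep_sq C i hv
  have i3 := integrableOn_rep_sq C i hvL
  have i4 : IntegrableOn (fun y =>
      ∑ k, ‖fderivWithin ℝ (rep (𝓡∂ (d + 1)) (C.c i) w.val) (HS d) y (ev k)‖ ^ 2) t :=
    integrable_finsetSum _ fun k _ => i1 k
  have h1 : ∫ y in t, ‖rep (𝓡∂ (d + 1)) (C.c i) (Lie X w).val y‖ ^ 2 ≤
      B * ((∑ k, ∫ y in t, ‖fderivWithin ℝ (rep (𝓡∂ (d + 1)) (C.c i) w.val) (HS d) y (ev k)‖ ^ 2) +
        ∫ y in t, ‖rep (𝓡∂ (d + 1)) (C.c i) w.val y‖ ^ 2) := by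
    have h2 : (∑ k, ∫ y in t,
        ‖fderivWithin ℝ (rep (𝓡∂ (d + 1)) (C.c i) w.val) (HS d) y (ev k)‖ ^ 2) =
        ∫ y in t, ∑ k, ‖fderivWithin ℝ (rep (𝓡∂ (d + 1)) (C.c i) w.val) (HS d) y (ev k)‖ ^ 2 :=
      (integral_finsetSum _ fun k _ => i1 k).symm
    rw [h2, ← integral_add i4 i2, ← integral_const_mul]
    exact setIntegral_mono_on i3 ((i4.add i2).const_mul _) hmt (hLie w hv)
  have n0 : 0 ≤ NM g C q (cod g C w) := apply_nonneg _ _
  have n1 : 0 ≤ NM g C (q + 1) w := apply_nonneg _ _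
  have n2 : 0 ≤ NM g C (q + 2) (dS w) := apply_nonneg _ _
  have n3 : 0 ≤ NM g C (q + 1) (Lie X w) := apply_nonneg _ _
  set A := NM g C (q + 2) (dS w) with hA
  set D := NM g C q (cod g C w) with hD
  set N := NM g C (q + 1) w with hN
  have h3 := (hN₁ _ hvL).1
  have h4 := (hN₁ _ hv).2
  have h5 := (hN₀ _ hvc).2
  have h6 := (hN₂ _ hvd).2
  rw [← hN] at h4
  rw [← hD] at h5
  rw [← hA] at h6
  have h7 : (∑ k, ∫ y in t,
        ‖fderivWithin ℝ (rep (𝓡∂ (d + 1)) (C.c i) w.val) (HS d) y (ev k)‖ ^ 2) ≤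
      c₃ * (c₂ * A ^ 2 + c₀ * D ^ 2 + c₁ * N ^ 2) :=
    hloc'.trans (mul_le_mul_of_nonneg_left (add_le_add (add_le_add h6 h5) h4) hc₃.le)
  have h8 : NM g C (q + 1) (Lie X w) ^ 2 ≤
      c₁ * (B * (c₃ * (c₂ * A ^ 2 + c₀ * D ^ 2 + c₁ * N ^ 2) + c₁ * N ^ 2)) :=
    h3.trans (mul_le_mul_of_nonneg_left (h1.trans
      (mul_le_mul_of_nonneg_left (add_le_add h7 h4) hB)) hc₁.le)
  have hsq : ∀ x : ℝ, 0 ≤ x → x ≤ A + D + N → x ^ 2 ≤ (A + D + N) ^ 2 :=
    fun x hx h => pow_le_pow_left₀ hx h 2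
  have a1 := hsq A n2 (by linarith)
  have a2 := hsq D n0 (by linarith)
  have a3 := hsq N n1 (by linarith)
  have h9 : NM g C (q + 1) (Lie X w) ^ 2 ≤
      c₁ * B * (c₃ * (c₂ + c₀ + c₁) + c₁) * (A + D + N) ^ 2 := by
    refine h8.trans ?_
    have b1 : c₂ * A ^ 2 + c₀ * D ^ 2 + c₁ * N ^ 2 ≤ (c₂ + c₀ + c₁) * (A + D + N) ^ 2 := by
      have := mul_le_mul_of_nonneg_left a1 hc₂.le
      have := mul_le_mul_of_nonneg_left a2 hc₀.le
      have := mul_le_mul_of_nonneg_left a3 hc₁.le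
      nlinarith
    have b2 : c₁ * N ^ 2 ≤ c₁ * (A + D + N) ^ 2 := mul_le_mul_of_nonneg_left a3 hc₁.le
    have b3 : c₃ * (c₂ * A ^ 2 + c₀ * D ^ 2 + c₁ * N ^ 2) + c₁ * N ^ 2 ≤
        (c₃ * (c₂ + c₀ + c₁) + c₁) * (A + D + N) ^ 2 := by
      have := mul_le_mul_of_nonneg_left b1 hc₃.le
      nlinarith
    calc _ ≤ c₁ * (B * ((c₃ * (c₂ + c₀ + c₁) + c₁) * (A + D + N) ^ 2)) :=
          mul_le_mul_of_nonneg_left (mul_le_mul_of_nonneg_left b3 hB) hc₁.le
      _ = _ := by ring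
  have h10 := Real.abs_le_sqrt h9
  rw [Real.sqrt_mul (by positivity), Real.sqrt_sq (by positivity), abs_of_nonneg n3] at h10
  exact h10

/-- A nonnegative bound for module homomorphisms. -/
theorem bounded_hom' {q q' : ℕ}
    (Q : SForm (𝓡∂ (d + 1)) Ω q →ₗ[SFun (𝓡∂ (d + 1)) Ω] SForm (𝓡∂ (d + 1)) Ω q') :
    ∃ K : ℝ, 0 ≤ K ∧ ∀ w, NM g C q' (Q w) ≤ K * NM g C q w := by
  obtain ⟨K, hK⟩ := bounded_hom g C Q
  exact ⟨|K|, abs_nonneg _, fun w => (hK w).trans
    (mul_le_mul_of_nonneg_right (le_abs_self K) (apply_nonneg _ _))⟩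

/-- Gaffney's inequality for one member of the cover. -/
theorem gaffney_one (q : ℕ) (X : VF (𝓡∂ (d + 1)) Ω) (i : Fin C.N) : ∃ K : ℝ, 0 ≤ K ∧
    ∀ w ∈ dirS Ω (q + 1), NM g C (q + 1) (Lie X (chi C i • w)) ≤
      K * (NM g C (q + 2) (dS w) + NM g C q (cod g C w) + NM g C (q + 1) w) := by
  obtain ⟨K, hK, hg⟩ := gaffney_chart g C q X i
  obtain ⟨a, ha, ha'⟩ := bounded_hom' g C (chi C i • (LinearMap.id :
    SForm (𝓡∂ (d + 1)) Ω (q + 2) →ₗ[SFun (𝓡∂ (d + 1)) Ω] SForm (𝓡∂ (d + 1)) Ω (q + 2)))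
  obtain ⟨b, hb, hb'⟩ := bounded_hom' g C (chi C i • (LinearMap.id :
    SForm (𝓡∂ (d + 1)) Ω q →ₗ[SFun (𝓡∂ (d + 1)) Ω] SForm (𝓡∂ (d + 1)) Ω q))
  obtain ⟨c, hc, hc'⟩ := bounded_hom' g C (chi C i • (LinearMap.id :
    SForm (𝓡∂ (d + 1)) Ω (q + 1) →ₗ[SFun (𝓡∂ (d + 1)) Ω] SForm (𝓡∂ (d + 1)) Ω (q + 1)))
  obtain ⟨e, he, he'⟩ := bounded_hom' g C (eS (q := q + 1) (chi C i))
  obtain ⟨f, hf, hf'⟩ := bounded_hom' g C (codQ (q := q) g C (chi C i))
  refine ⟨K * (a + b + c + e + f), by positivity, fun w hw => ?_⟩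
  have h1 := hg (chi C i • w) ((dirS Ω (q + 1)).smul_mem _ hw) (van_smul' (chi_van C i) w)
  have h2 : dS (chi C i • w) = chi C i • dS w + eS (chi C i) w := by
    rw [eS_def]; abel
  have h3 : cod g C (chi C i • w) = chi C i • cod g C w + codQ g C (chi C i) w := by
    rw [codQ_apply]; abel
  have n0 : 0 ≤ NM g C q (cod g C w) := apply_nonneg _ _
  have n1 : 0 ≤ NM g C (q + 1) w := apply_nonneg _ _
  have n2 : 0 ≤ NM g C (q + 2) (dS w) := apply_nonneg _ _
  have h4 : NM g C (q + 2) (dS (chi C i • w)) ≤ a * NM g C (q + 2) (dS w) +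
      e * NM g C (q + 1) w := by
    rw [h2]
    exact (map_add_le_add _ _ _).trans (add_le_add (ha' (dS w)) (he' w))
  have h5 : NM g C q (cod g C (chi C i • w)) ≤ b * NM g C q (cod g C w) +
      f * NM g C (q + 1) w := by
    rw [h3]
    exact (map_add_le_add _ _ _).trans (add_le_add (hb' (cod g C w)) (hf' w))
  have h6 : NM g C (q + 1) (chi C i • w) ≤ c * NM g C (q + 1) w := hc' w
  refine h1.trans ?_
  rw [mul_assoc]
  refine mul_le_mul_of_nonneg_left ((add_le_add (add_le_add h4 h5) h6).trans ?_) hK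
  set A := NM g C (q + 2) (dS w)
  set D := NM g C q (cod g C w)
  set N := NM g C (q + 1) w
  have p1 : 0 ≤ (b + c + e + f) * A := by positivity
  have p2 : 0 ≤ (a + c + e + f) * D := by positivity
  have p3 : 0 ≤ (a + b) * N := by positivity
  nlinarith

end Om

end DtN.GA
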