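import Pool.Agent.H14.DtN.Cod
import Pool.Agent.H14.DtN.LocGaff
import Pool.Agent.H14.DtN.LocSob
import Pool.Agent.H14.DtN.Frame
import Pool.Agent.H14.DtN.GaffAux

/-!
MODULE F : global Gaffney inequality; MODULE G : global sup bound.
-/

open scoped Manifold ContDiff Topology ComplexConjugate
open Set MeasureTheory

set_option linter.unusedSectionVars false

noncomputable section

namespace DtN

variable {d : ℕ} {Ω : Type*} [TopologicalSpace Ω] [ChartedSpace (EuclideanHalfSpace (d + 1)) Ω]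
  [IsManifold (𝓡∂ (d + 1)) ∞ Ω] [CompactSpace Ω] [T2Space Ω]
  (g : Metric (𝓡∂ (d + 1)) Ω) (C : Cover (𝓡∂ (d + 1)) Ω)

/-- Gaffney's inequality. -/
theorem gaffney (q : ℕ) (X : VF (𝓡∂ (d + 1)) Ω) : ∃ K : ℝ, ∀ w ∈ dirS Ω (q + 1),
    NM g C (q + 1) (Lie X w) ≤ K * (NM g C (q + 2) (dS w) + NM g C q (cod g C w) +
      NM g C (q + 1) w) := by
  choose K hK0 hK using fun i => GA.gaffney_one g C q X i
  refine ⟨∑ i, K i, fun w hw => ?_⟩
  have h1 : Lie X w = ∑ i, Lie X (GA.chi C i • w) := by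
    conv_lhs => rw [← GA.sum_chi_smul C w]
    rw [map_sum]
  rw [h1, Finset.sum_mul]
  exact (Finset.le_sum_of_subadditive (NM g C (q + 1)) (map_zero (NM g C (q + 1))).le
    (fun a b => map_add_le_add _ a b) _ _).trans (Finset.sum_le_sum fun i _ => hK i w hw)

/-- Vector fields tangent to the boundary. -/
def TangVF (V : VF (𝓡∂ (d + 1)) Ω) : Prop :=
  ∀ z ∈ (𝓡∂ (d + 1)).boundary Ω, (V.val z) 0 = 0

/-- Action of a word in functions and tangential fields. -/
def wact {q : ℕ} : List (SFun (𝓡∂ (d + 1)) Ω ⊕ {V : VF (𝓡∂ (d + 1)) Ω // TangVF V}) →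
    SForm (𝓡∂ (d + 1)) Ω (q + 1) → SForm (𝓡∂ (d + 1)) Ω (q + 1)
  | [], w => w
  | Sum.inl b :: l, w => b • wact l w
  | Sum.inr V :: l, w => Lie V.1 (wact l w)

/-- The word of tangential coordinate fields of the `i`-th chart applied after the cutoff. -/
def GA.wordOf (i : Fin C.N) (l : List (Fin d)) :
    List (SFun (𝓡∂ (d + 1)) Ω ⊕ {V : VF (𝓡∂ (d + 1)) Ω // TangVF V}) :=
  l.map (fun k => Sum.inr ⟨GA.fld C i k.succ, fun _ hz => GA.fld_tang C i k hz⟩) ++
    [Sum.inl (GA.chi C i)]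

theorem GA.wact_wordOf {q : ℕ} (i : Fin C.N) (l : List (Fin d))
    (w : SForm (𝓡∂ (d + 1)) Ω (q + 1)) : wact (GA.wordOf C i l) w = GA.wd C i w l := by
  induction l with
  | nil => rfl
  | cons k l ih =>
    show Lie (GA.fld C i k.succ) (wact (GA.wordOf C i l) w) = _
    rw [ih]
    rfl

/-- Sup bound with one arbitrary derivative and several tangential ones. -/
theorem sup_bound (q : ℕ) : ∃ (m : ℕ) (P : Fin m → VF (𝓡∂ (d + 1)) Ω)
    (W : Fin m → List (SFun (𝓡∂ (d + 1)) Ω ⊕ {V : VF (𝓡∂ (d + 1)) Ω // TangVF V})) (K : ℝ),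
    ∀ (w : SForm (𝓡∂ (d + 1)) Ω (q + 1)) (z : Ω),
      pn g w.val z ≤ K * ∑ i, NM g C (q + 1) (Lie (P i) (wact (W i) w)) := by
  choose K hK0 hK using fun i => GA.pn_bound g C q i
  refine ⟨C.N, fun i => GA.fld C i 0, fun i => GA.wordOf C i (List.finRange d), ∑ i, K i,
    fun w z => ?_⟩
  rw [GA.pn_sum_chi g C w z, Finset.mul_sum]
  refine Finset.sum_le_sum fun i _ => (hK i w z).trans ?_
  rw [GA.wact_wordOf]
  exact mul_le_mul_of_nonneg_right
    (Finset.single_le_sum (fun j _ => hK0 j) (Finset.mem_univ i)) (apply_nonneg _ _)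

end DtN
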