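import Pool.Agent.H14.DtN.Bdry
import Pool.Agent.H14.DtN.Core

/-!
MODULE I : the concrete instance of the abstract core.
-/

open scoped Manifold ContDiff Topology ComplexConjugate
open Set MeasureTheory

set_option linter.unusedSectionVars false

noncomputable section

namespace DtN

section General

variable {E : Type*} [NormedAddCommGroup E] [NormedSpace ℝ E]
  {H : Type*} [TopologicalSpace H] {I : ModelWithCorners ℝ E H}
  {M : Type*} [TopologicalSpace M] [ChartedSpace H M]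

/-- complex conjugate of a smooth function -/
def SFun.star (b : SFun I M) : SFun I M :=
  ⟨fun z => conj (b.val z), by
    have h : ContDiff ℝ ∞ (fun w : ℂ => conj w) := Complex.conjCLE.contDiff
    exact h.contMDiff.comp b.smooth⟩

theorem SFun.star_val (b : SFun I M) (z : M) : b.star.val z = conj (b.val z) := rfl

theorem SFun.star_star (b : SFun I M) : b.star.star = b := by
  ext z; simp [SFun.star_val]

/-- evaluation at `z` as an additive map -/
def SFun.evalHom (z : M) : SFun I M →+ ℂ where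
  toFun b := b.val z
  map_zero' := rfl
  map_add' _ _ := rfl

theorem SFun.sum_val {ι : Type*} (s : Finset ι) (f : ι → SFun I M) (z : M) :
    (∑ i ∈ s, f i).val z = ∑ i ∈ s, (f i).val z :=
  map_sum (SFun.evalHom z) f s

variable [IsManifold I ∞ M]

/-- evaluation at `z` as an additive map -/
def SForm.evalHom {q : ℕ} (z : M) : SForm I M q →+ Alt E q where
  toFun b := b.val z
  map_zero' := rfl
  map_add' _ _ := rfl

theorem SForm.sum_val {q : ℕ} {ι : Type*} (s : Finset ι) (f : ι → SForm I M q) (z : M) :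
    (∑ i ∈ s, f i).val z = ∑ i ∈ s, (f i).val z :=
  map_sum (SForm.evalHom z) f s

theorem SFun.dF_star (b : SFun I M) (z : M) (v : E) : b.star.dF z v = conj (b.dF z v) := by
  have h : HasMFDerivAt 𝓘(ℝ, ℂ) 𝓘(ℝ, ℂ) (fun w : ℂ => conj w) (b.val z)
      (Complex.conjCLE : ℂ →L[ℝ] ℂ) := Complex.conjCLE.hasFDerivAt.hasMFDerivAt
  have hb : HasMFDerivAt I 𝓘(ℝ, ℂ) b.val z (mfderiv I 𝓘(ℝ, ℂ) b.val z) :=
    (b.smooth.mdifferentiable (by simp) z).hasMFDerivAt
  have h2 := (h.comp z hb).mfderiv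
  have h3 : b.star.dF z = (Complex.conjCLE : ℂ →L[ℝ] ℂ).comp (b.dF z) := h2
  rw [h3]; rfl

end General

section

variable {d : ℕ} {Ω : Type*} [TopologicalSpace Ω] [ChartedSpace (EuclideanHalfSpace (d + 1)) Ω]
  [IsManifold (𝓡∂ (d + 1)) ∞ Ω] [CompactSpace Ω] [T2Space Ω]

theorem der_star (V : VF (𝓡∂ (d + 1)) Ω) (b : SFun (𝓡∂ (d + 1)) Ω) :
    der V b.star = (der V b).star := by
  ext z
  rw [der_apply, SFun.dF_star, SFun.star_val, der_apply]

/-- A spanning family as in `exists_spanning`. -/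
structure Spanning (d : ℕ) (Ω : Type*) [TopologicalSpace Ω]
    [ChartedSpace (EuclideanHalfSpace (d + 1)) Ω] [IsManifold (𝓡∂ (d + 1)) ∞ Ω] where
  m : ℕ
  h : Fin m → SFun (𝓡∂ (d + 1)) Ω
  X : Fin m → VF (𝓡∂ (d + 1)) Ω
  real : ∀ a z, conj ((h a).val z) = (h a).val z
  span : ∀ (b : SFun (𝓡∂ (d + 1)) Ω) (z : Ω) (v : Eu (d + 1)),
    b.dF z v = ∑ a, (der (X a) b).val z * (h a).dF z v

theorem exists_Spanning (d : ℕ) (Ω : Type*) [TopologicalSpace Ω]
    [ChartedSpace (EuclideanHalfSpace (d + 1)) Ω] [IsManifold (𝓡∂ (d + 1)) ∞ Ω]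
    [CompactSpace Ω] [T2Space Ω] : Nonempty (Spanning d Ω) := by
  obtain ⟨m, h, X, h1, h2⟩ := exists_spanning (d := d) Ω
  exact ⟨⟨m, h, X, h1, h2⟩⟩

theorem der_spanning (sp : Spanning d Ω) (V : VF (𝓡∂ (d + 1)) Ω)
    (b : SFun (𝓡∂ (d + 1)) Ω) : der V b = ∑ a, der V (sp.h a) * der (sp.X a) b := by
  ext z
  rw [SFun.sum_val, der_apply, sp.span b z]
  refine Finset.sum_congr rfl fun a _ => ?_
  rw [SFun.mul_apply, der_apply, der_apply, mul_comm]

theorem comm_spanning (sp : Spanning d Ω) (V X : VF (𝓡∂ (d + 1)) Ω)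
    (b : SFun (𝓡∂ (d + 1)) Ω) : der V (der X b) - der X (der V b) =
      ∑ a, (der V (der X (sp.h a)) - der X (der V (sp.h a))) * der (sp.X a) b := by
  ext z
  obtain ⟨Z, hZ⟩ := der_comm V X z
  rw [SFun.sum_val, SFun.sub_apply, hZ b, sp.span b z]
  refine Finset.sum_congr rfl fun a _ => ?_
  rw [SFun.mul_apply, SFun.sub_apply, hZ (sp.h a), mul_comm]

theorem eS_spanning (sp : Spanning d Ω) (b : SFun (𝓡∂ (d + 1)) Ω) {q : ℕ}
    (w : SForm (𝓡∂ (d + 1)) Ω q) : eS b w = ∑ a, der (sp.X a) b • eS (sp.h a) w := by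
  apply SForm.val_injective
  funext z
  rw [SForm.sum_val, eS_apply]
  have h1 : (b.dF z).smulRight (w.val z) =
      ∑ a, (der (sp.X a) b).val z • ((sp.h a).dF z).smulRight (w.val z) := by
    ext v : 1
    rw [sum_apply]
    simp only [ContinuousLinearMap.smulRight_apply, smul_apply, sp.span b z v,
      Finset.sum_smul, mul_smul]
  rw [h1]
  have h2 : ∀ f : Fin sp.m → (Eu (d + 1) →L[ℝ] Alt (Eu (d + 1)) q),
      ContinuousAlternatingMap.alternatizeUncurryFin (∑ a, f a) =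
      ∑ a, ContinuousAlternatingMap.alternatizeUncurryFin (f a) := fun f =>
    map_sum (ContinuousAlternatingMap.alternatizeUncurryFinCLM ℝ (Eu (d + 1)) ℂ) f Finset.univ
  rw [h2]
  refine Finset.sum_congr rfl fun a _ => ?_
  rw [SForm.smul_apply, eS_apply, ContinuousAlternatingMap.alternatizeUncurryFin_smul]

variable (g : Metric (𝓡∂ (d + 1)) Ω) (C : Cover (𝓡∂ (d + 1)) Ω)

theorem formInner_smul_right {n q : ℕ} (G : Matrix (Fin n) (Fin n) ℝ) (hG : G.PosDef) (c : ℂ)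
    (u v : Alt (Eu n) q) : formInner G u (c • v) = conj c * formInner G u v := by
  rw [← formInner_conj_symm G hG, formInner_smul_left, map_mul, formInner_conj_symm G hG]

theorem formInner_add_right {n q : ℕ} (G : Matrix (Fin n) (Fin n) ℝ) (hG : G.PosDef)
    (u v v' : Alt (Eu n) q) : formInner G u (v + v') = formInner G u v + formInner G u v' := by
  rw [← formInner_conj_symm G hG, formInner_add_left, map_add, formInner_conj_symm G hG,
    formInner_conj_symm G hG]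

theorem posDef_self (z : Ω) : (g.gram z (extChartAt (𝓡∂ (d + 1)) z z)).PosDef :=
  gram_posDef g z (mem_extChartAt_target z)

theorem fipS_smul_left {q : ℕ} (b : SFun (𝓡∂ (d + 1)) Ω) (v w : SForm (𝓡∂ (d + 1)) Ω q) :
    fipS g (b • v) w = b * fipS g v w := by
  ext z
  exact formInner_smul_left _ _ _ _

theorem fipS_smul_right {q : ℕ} (b : SFun (𝓡∂ (d + 1)) Ω) (v w : SForm (𝓡∂ (d + 1)) Ω q) :
    fipS g v (b • w) = b.star * fipS g v w := by
  ext z
  exact formInner_smul_right _ (posDef_self g z) _ _ _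

theorem fipS_add_left {q : ℕ} (v v' w : SForm (𝓡∂ (d + 1)) Ω q) :
    fipS g (v + v') w = fipS g v w + fipS g v' w := by
  ext z
  exact formInner_add_left _ _ _ _

theorem fipS_add_right {q : ℕ} (v w w' : SForm (𝓡∂ (d + 1)) Ω q) :
    fipS g v (w + w') = fipS g v w + fipS g v w' := by
  ext z
  exact formInner_add_right _ (posDef_self g z) _ _ _

theorem ipM_eq_fipS {q : ℕ} (v w : SForm (𝓡∂ (d + 1)) Ω q) :
    ipM g C v w = IntM g C (fipS g v w).val := rfl

theorem ipM_smul_swap {q : ℕ} (b : SFun (𝓡∂ (d + 1)) Ω) (v w : SForm (𝓡∂ (d + 1)) Ω q) :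
    ipM g C (b • v) w = ipM g C v (b.star • w) := by
  rw [ipM_eq_fipS, ipM_eq_fipS, fipS_smul_left, fipS_smul_right, SFun.star_star]

theorem ipM_neg_left {q : ℕ} (v w : SForm (𝓡∂ (d + 1)) Ω q) :
    ipM g C (-v) w = - ipM g C v w := by
  have h := ipM_add_left g C v (-v) w
  have h0 : ipM g C (0 : SForm (𝓡∂ (d + 1)) Ω q) w = 0 := by
    have := ipM_add_left g C 0 0 w
    rw [add_zero] at this
    exact left_eq_add.mp this
  rw [add_neg_cancel, h0] at h
  exact (neg_eq_of_add_eq_zero_right h.symm).symm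

theorem ipM_sub_left {q : ℕ} (v v' w : SForm (𝓡∂ (d + 1)) Ω q) :
    ipM g C (v - v') w = ipM g C v w - ipM g C v' w := by
  rw [sub_eq_add_neg, ipM_add_left, ipM_neg_left, sub_eq_add_neg]

theorem smul_mem_dirS {q : ℕ} (b : SFun (𝓡∂ (d + 1)) Ω) {w : SForm (𝓡∂ (d + 1)) Ω q}
    (hw : w ∈ dirS Ω q) : b • w ∈ dirS Ω q := (dirS Ω q).smul_mem b hw

/-- The commutator of the codifferential with a function, by duality. -/
theorem ipM_cod_comm {q : ℕ} (b : SFun (𝓡∂ (d + 1)) Ω) {u : SForm (𝓡∂ (d + 1)) Ω q}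
    (hu : u ∈ dirS Ω q) (w : SForm (𝓡∂ (d + 1)) Ω (q + 1)) :
    ipM g C u (cod g C (b • w) - b • cod g C w) = - ipM g C (eS b.star u) w := by
  have h1 : ipM g C u (cod g C (b • w)) = ipM g C (b.star • dS u) w := by
    rw [← green g C hu, ipM_smul_swap, SFun.star_star]
  have h2 : ipM g C u (b • cod g C w) = ipM g C (dS (b.star • u)) w := by
    rw [green g C (smul_mem_dirS _ hu), ipM_smul_swap, SFun.star_star]
  rw [ipM_sub_right, h1, h2, eS_def, ipM_sub_left]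
  ring

/-- `[δ, h]` as a module homomorphism. -/
def codComm {q : ℕ} (b : SFun (𝓡∂ (d + 1)) Ω) :
    SForm (𝓡∂ (d + 1)) Ω (q + 1) →ₗ[SFun (𝓡∂ (d + 1)) Ω] SForm (𝓡∂ (d + 1)) Ω q where
  toFun w := cod g C (b • w) - b • cod g C w
  map_add' v w := by
    rw [smul_add, map_add, map_add, smul_add]; abel
  map_smul' c w := by
    rw [RingHom.id_apply, ← sub_eq_zero]
    refine eq_zero_of_ipM_dir g C fun u hu => ?_
    rw [ipM_sub_right, ipM_cod_comm g C b hu]
    have h1 : ipM g C u (c • (cod g C (b • w) - b • cod g C w)) =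
        ipM g C (c.star • u) (cod g C (b • w) - b • cod g C w) := by
      rw [ipM_smul_swap, SFun.star_star]
    have h2 : ipM g C (eS b.star u) (c • w) = ipM g C (c.star • eS b.star u) w := by
      rw [ipM_smul_swap, SFun.star_star]
    rw [h1, ipM_cod_comm g C b (smul_mem_dirS _ hu), h2, LinearMap.map_smul]
    ring

theorem codComm_apply {q : ℕ} (b : SFun (𝓡∂ (d + 1)) Ω) (w : SForm (𝓡∂ (d + 1)) Ω (q + 1)) :
    codComm g C b w = cod g C (b • w) - b • cod g C w := rfl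

theorem ipM_sum_left {q : ℕ} {ι : Type*} (s : Finset ι) (v : ι → SForm (𝓡∂ (d + 1)) Ω q)
    (w : SForm (𝓡∂ (d + 1)) Ω q) :
    ipM g C (∑ i ∈ s, v i) w = ∑ i ∈ s, ipM g C (v i) w := by
  let φ : SForm (𝓡∂ (d + 1)) Ω q →+ ℂ := AddMonoidHom.mk' (fun v => ipM g C v w)
    (fun a b => ipM_add_left g C a b w)
  exact map_sum φ v s

theorem codComm_spanning (sp : Spanning d Ω) {q : ℕ} (b : SFun (𝓡∂ (d + 1)) Ω)
    (w : SForm (𝓡∂ (d + 1)) Ω (q + 1)) :
    codComm g C b w = ∑ a, der (sp.X a) b • codComm g C (sp.h a) w := by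
  have hreal : ∀ a, (sp.h a).star = sp.h a := fun a => by ext z; exact sp.real a z
  rw [← sub_eq_zero]
  refine eq_zero_of_ipM_dir g C fun u hu => ?_
  rw [ipM_sub_right, codComm_apply, ipM_cod_comm g C b hu, ipM_sum_right, eS_spanning sp,
    ipM_sum_left, ← Finset.sum_neg_distrib, sub_eq_zero]
  refine Finset.sum_congr rfl fun a _ => ?_
  have h1 : ipM g C u (der (sp.X a) b • codComm g C (sp.h a) w) =
      ipM g C ((der (sp.X a) b).star • u) (codComm g C (sp.h a) w) := by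
    rw [ipM_smul_swap, SFun.star_star]
  rw [h1, codComm_apply, ipM_cod_comm g C (sp.h a) (smul_mem_dirS _ hu), hreal, LinearMap.map_smul,
    der_star]

/-- the pairing `fip` as a biadditive map -/
def fipHom (q : ℕ) : SForm (𝓡∂ (d + 1)) Ω q →+ SForm (𝓡∂ (d + 1)) Ω q →+ SFun (𝓡∂ (d + 1)) Ω :=
  AddMonoidHom.mk' (fun v => AddMonoidHom.mk' (fun w => fipS g v w)
    (fun a b => fipS_add_right g v a b)) (fun a b => by
      ext w : 1
      exact fipS_add_left g a b w)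

theorem fipHom_apply {q : ℕ} (v w : SForm (𝓡∂ (d + 1)) Ω q) : fipHom g q v w = fipS g v w := rfl

/-- the integral of smooth functions as an additive map -/
def intHom : SFun (𝓡∂ (d + 1)) Ω →+ ℂ :=
  AddMonoidHom.mk' (fun h => IntM g C h.val) (fun a b =>
    IntM_add g C a.smooth.continuous b.smooth.continuous)

theorem intHom_apply (h : SFun (𝓡∂ (d + 1)) Ω) : intHom g C h = IntM g C h.val := rfl

/-- sesquilinear pairings with values in functions -/
def IsSesq {q : ℕ} (β : SForm (𝓡∂ (d + 1)) Ω q →+ SForm (𝓡∂ (d + 1)) Ω q →+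
    SFun (𝓡∂ (d + 1)) Ω) : Prop :=
  (∀ (b : SFun (𝓡∂ (d + 1)) Ω) v w, β (b • v) w = b * β v w) ∧
  ∀ (b : SFun (𝓡∂ (d + 1)) Ω) v w, β v (b • w) = b.star * β v w

/-- integrated pairing -/
def intPair {q : ℕ} (β : SForm (𝓡∂ (d + 1)) Ω q →+ SForm (𝓡∂ (d + 1)) Ω q →+
    SFun (𝓡∂ (d + 1)) Ω) : SForm (𝓡∂ (d + 1)) Ω q →+ SForm (𝓡∂ (d + 1)) Ω q →+ ℂ :=
  (AddMonoidHom.compHom (intHom g C)).comp β

theorem intPair_apply {q : ℕ} (β : SForm (𝓡∂ (d + 1)) Ω q →+ SForm (𝓡∂ (d + 1)) Ω q →+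
    SFun (𝓡∂ (d + 1)) Ω) (v w : SForm (𝓡∂ (d + 1)) Ω q) :
    intPair g C β v w = IntM g C (β v w).val := rfl

/-- the derived pairing -/
def derPair {q : ℕ} (V : VF (𝓡∂ (d + 1)) Ω) (c : SFun (𝓡∂ (d + 1)) Ω)
    (β : SForm (𝓡∂ (d + 1)) Ω (q + 1) →+ SForm (𝓡∂ (d + 1)) Ω (q + 1) →+
    SFun (𝓡∂ (d + 1)) Ω) : SForm (𝓡∂ (d + 1)) Ω (q + 1) →+ SForm (𝓡∂ (d + 1)) Ω (q + 1) →+
    SFun (𝓡∂ (d + 1)) Ω :=
  AddMonoidHom.mk' (fun v => AddMonoidHom.mk'
    (fun w => β (Lie V v) w + β v (Lie V w) - der V (β v w) + c * β v w)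
    (fun a b => by
      simp only [map_add, mul_add]; ring)) (fun a b => by
      ext w : 1
      simp only [map_add, AddMonoidHom.add_apply, AddMonoidHom.mk'_apply, mul_add]; ring)

theorem derPair_apply {q : ℕ} (V : VF (𝓡∂ (d + 1)) Ω) (c : SFun (𝓡∂ (d + 1)) Ω)
    (β : SForm (𝓡∂ (d + 1)) Ω (q + 1) →+ SForm (𝓡∂ (d + 1)) Ω (q + 1) →+
    SFun (𝓡∂ (d + 1)) Ω) (v w : SForm (𝓡∂ (d + 1)) Ω (q + 1)) :
    derPair V c β v w = β (Lie V v) w + β v (Lie V w) - der V (β v w) + c * β v w := rfl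

theorem derPair_sesq {q : ℕ} (V : VF (𝓡∂ (d + 1)) Ω) (c : SFun (𝓡∂ (d + 1)) Ω)
    {β : SForm (𝓡∂ (d + 1)) Ω (q + 1) →+ SForm (𝓡∂ (d + 1)) Ω (q + 1) →+
    SFun (𝓡∂ (d + 1)) Ω} (hβ : IsSesq β) : IsSesq (derPair V c β) := by
  constructor
  · intro b v w
    rw [derPair_apply, derPair_apply, Lie_smul, map_add, AddMonoidHom.add_apply, hβ.1, hβ.1, hβ.1,
      hβ.1, der_mul]
    ring
  · intro b v w
    rw [derPair_apply, derPair_apply, Lie_smul, map_add, hβ.2, hβ.2, hβ.2, hβ.2, der_mul, der_star]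
    ring

section
variable {S : Type*} [TopologicalSpace S] [ChartedSpace (Eu d) S] [IsManifold (𝓡 d) ∞ S]
    [CompactSpace S] [T2Space S] {f : S → Ω}
    (hf : ContMDiff (𝓡 d) (𝓡∂ (d + 1)) ∞ f) (hinj : Function.Injective f)
    (himm : ∀ s, Function.Injective (mfderiv (𝓡 d) (𝓡∂ (d + 1)) f s))
    (hrange : range f = (𝓡∂ (d + 1)).boundary Ω)

include hf hinj himm hrange

theorem dS_mem_dirS {q : ℕ} {w : SForm (𝓡∂ (d + 1)) Ω q} (hw : w ∈ dirS Ω q) :
    dS w ∈ dirS Ω (q + 1) := by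
  rw [mem_dirS_iff hf hinj himm hrange] at hw ⊢
  have h := congrArg SForm.val (pullS_dS f hf w)
  have h0 : pullS f hf w = 0 := SForm.val_injective hw
  rw [h0, map_zero] at h
  exact h

theorem iotaS_mem_dirS {q : ℕ} {V : VF (𝓡∂ (d + 1)) Ω} (hV : TangVF V)
    {w : SForm (𝓡∂ (d + 1)) Ω (q + 1)} (hw : w ∈ dirS Ω (q + 1)) :
    iotaS V w ∈ dirS Ω q := by
  intro z hz v hv
  rw [iotaS_apply, ContinuousAlternatingMap.curryLeft_apply_apply]
  refine hw z hz _ fun l => ?_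
  refine Fin.cases ?_ (fun l => ?_) l
  · exact hV z hz
  · exact hv l

theorem Lie_mem_dirS {q : ℕ} {V : VF (𝓡∂ (d + 1)) Ω} (hV : TangVF V)
    {w : SForm (𝓡∂ (d + 1)) Ω (q + 1)} (hw : w ∈ dirS Ω (q + 1)) :
    Lie V w ∈ dirS Ω (q + 1) := by
  rw [Lie_def]
  refine (dirS Ω (q + 1)).add_mem ?_ ?_
  · exact dS_mem_dirS hf hinj himm hrange (iotaS_mem_dirS hf hinj himm hrange hV hw)
  · exact iotaS_mem_dirS hf hinj himm hrange hV (dS_mem_dirS hf hinj himm hrange hw)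

/-- The concrete instance of the abstract core. -/
def coreData (sp : Spanning d Ω) : CoreData (SFun (𝓡∂ (d + 1)) Ω)
    (fun i => SForm (𝓡∂ (d + 1)) Ω (i + 1)) {V : VF (𝓡∂ (d + 1)) Ω // TangVF V} sp.m where
  N i := NM g C (i + 1)
  derT V := der V.1
  derX a := der (sp.X a)
  LT V i := Lie V.1
  LX a i := Lie (sp.X a)
  d i := dS
  δ i := cod g C
  Z i := dirS Ω (i + 1)
  bounded i j Q := bounded_hom g C Q
  LT_smul V i b w := Lie_smul V.1 b w
  LX_smul a i b w := Lie_smul (sp.X a) b w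
  LT_d V i w := Lie_dS V.1 w
  dd i w := dS_dS w
  LT_Z V i w hw := Lie_mem_dirS hf hinj himm hrange V.2 hw
  d_Z i w hw := dS_mem_dirS hf hinj himm hrange hw
  span_T V := ⟨fun a => der V.1 (sp.h a), fun b => der_spanning sp V.1 b⟩
  comm V a := ⟨_, fun b => comm_spanning sp V.1 (sp.X a) b⟩
  d_FO i := ⟨fun a => eS (sp.h a), fun b w => eS_spanning sp b w⟩
  δ_FO i := ⟨fun a => codComm g C (sp.h a), fun b w => codComm_spanning g C sp b w⟩
  gaffney i a := gaffney g C (i + 1) (sp.X a)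
  P i := {β | ∃ β', IsSesq β' ∧ β = intPair g C β'}
  ip i := intPair g C (fipHom g (i + 1))
  ip_mem i := ⟨_, ⟨fipS_smul_left g, fipS_smul_right g⟩, rfl⟩
  ip_self i w := ipM_self g C w
  P_neg := by
    rintro i _ ⟨β, hβ, rfl⟩
    refine ⟨-β, ⟨fun b v w => ?_, fun b v w => ?_⟩, ?_⟩
    · simp [hβ.1 b v w]
    · simp [hβ.2 b v w]
    · ext v w
      simp only [AddMonoidHom.neg_apply, intPair]
      simp
  P_bdd := by
    rintro i _ ⟨β, hβ, rfl⟩
    exact bounded_pairing g C β hβ.1 (fun b b' v w hb => by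
      rw [hβ.2]
      congr 1
      ext z
      rw [hb z, SFun.star_val])
  P_der := by
    rintro i V _ ⟨β, hβ, rfl⟩
    obtain ⟨c, hc⟩ := exists_div g C V.2
    refine ⟨_, ⟨derPair V.1 c β, derPair_sesq V.1 c hβ, rfl⟩, fun v w => ?_⟩
    rw [intPair_apply, intPair_apply, intPair_apply, ← intHom_apply, ← intHom_apply,
      ← intHom_apply, derPair_apply, map_add, map_sub, map_add]
    have h := hc (β v w)
    rw [← intHom_apply, ← intHom_apply] at h
    rw [h]
    ring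

end

end

end DtN
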