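import Pool.Agent.H14.DtN.CalcA3
import Pool.Agent.H14.DtN.Fib
import Pool.Agent.H14.DtN.HalfIBP

/-!
MODULE C : Riemannian integration functional on a compact manifold with boundary.
-/

open scoped Manifold ContDiff Topology ComplexConjugate
open Set MeasureTheory

set_option linter.unusedSectionVars false

noncomputable section

namespace DtN

variable {d : ℕ} {Ω : Type*} [TopologicalSpace Ω] [ChartedSpace (EuclideanHalfSpace (d + 1)) Ω]
  [IsManifold (𝓡∂ (d + 1)) ∞ Ω] [CompactSpace Ω] [T2Space Ω]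

theorem range_eq_HS : range (𝓡∂ (d + 1)) = HS d := by
  rw [range_modelWithCornersEuclideanHalfSpace]
  rfl

/-- The target of a chart is `HS d ∩ O` with `O` open. -/
theorem exists_open_target (x₀ : Ω) : ∃ O : Set (Eu (d + 1)), IsOpen O ∧
    (extChartAt (𝓡∂ (d + 1)) x₀).target = HS d ∩ O := by
  refine ⟨(𝓡∂ (d + 1)).symm ⁻¹' (chartAt (EuclideanHalfSpace (d + 1)) x₀).target,
    (chartAt (EuclideanHalfSpace (d + 1)) x₀).open_target.preimage (𝓡∂ (d + 1)).continuous_symm, ?_⟩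
  rw [extChartAt_target, range_eq_HS, inter_comm]

theorem gram_apply_vec (g : Metric (𝓡∂ (d + 1)) Ω) (x₀ : Ω) (y a b : Eu (d + 1)) :
    ∑ i, ∑ j, a i * g.gram x₀ y i j * b j =
      g.val ((extChartAt (𝓡∂ (d + 1)) x₀).symm y) (dsymm (𝓡∂ (d + 1)) x₀ y a)
        (dsymm (𝓡∂ (d + 1)) x₀ y b) := by
  have ha : a = ∑ i, a i • (ev i : Eu (d + 1)) := by
    have := (EuclideanSpace.basisFun (Fin (d + 1)) ℝ).sum_repr a
    simpa using this.symm
  have hb : b = ∑ i, b i • (ev i : Eu (d + 1)) := by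
    have := (EuclideanSpace.basisFun (Fin (d + 1)) ℝ).sum_repr b
    simpa using this.symm
  conv_rhs => rw [ha, hb]
  simp only [map_sum, map_smul, _root_.sum_apply, _root_.smul_apply, smul_eq_mul,
    Finset.mul_sum, Metric.gram, Matrix.of_apply]
  rw [Finset.sum_comm]
  refine Finset.sum_congr rfl fun i _ => Finset.sum_congr rfl fun j _ => ?_
  ring

/-- The derivative of the inverse chart as a continuous linear equivalence. -/
def dsymmE (x₀ : Ω) {y : Eu (d + 1)} (hy : y ∈ (extChartAt (𝓡∂ (d + 1)) x₀).target) :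
    Eu (d + 1) ≃L[ℝ] Eu (d + 1) :=
  ContinuousLinearEquiv.equivOfInverse (dsymm (𝓡∂ (d + 1)) x₀ y)
    (dchart (𝓡∂ (d + 1)) x₀ ((extChartAt (𝓡∂ (d + 1)) x₀).symm y))
    (fun v => by
      have := dchart_comp_dsymm (𝓡∂ (d + 1)) hy
      exact congrArg (fun L : Eu (d + 1) →L[ℝ] Eu (d + 1) => L v) this)
    (fun v => by
      have := dsymm_comp_dchart (𝓡∂ (d + 1)) hy
      exact congrArg (fun L : Eu (d + 1) →L[ℝ] Eu (d + 1) => L v) this)

theorem dsymmE_coe (x₀ : Ω) {y : Eu (d + 1)} (hy : y ∈ (extChartAt (𝓡∂ (d + 1)) x₀).target) :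
    (dsymmE x₀ hy : Eu (d + 1) →L[ℝ] Eu (d + 1)) = dsymm (𝓡∂ (d + 1)) x₀ y := rfl

theorem gram_posDef (g : Metric (𝓡∂ (d + 1)) Ω) (x₀ : Ω) {y : Eu (d + 1)}
    (hy : y ∈ (extChartAt (𝓡∂ (d + 1)) x₀).target) : (g.gram x₀ y).PosDef := by
  refine Matrix.PosDef.of_dotProduct_mulVec_pos ?_ fun x hx => ?_
  · rw [Matrix.IsHermitian, Matrix.conjTranspose_eq_transpose_of_trivial]
    ext i j
    simp only [Matrix.transpose_apply, Metric.gram, Matrix.of_apply]
    exact g.symm' _ _ _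
  · have h1 := gram_apply_vec g x₀ y (WithLp.toLp 2 x) (WithLp.toLp 2 x)
    have h2 : star x ⬝ᵥ (g.gram x₀ y).mulVec x =
        ∑ i, ∑ j, (WithLp.toLp 2 x : Eu (d + 1)) i * g.gram x₀ y i j *
          (WithLp.toLp 2 x : Eu (d + 1)) j := by
      simp only [dotProduct, Matrix.mulVec, Finset.mul_sum]
      refine Finset.sum_congr rfl fun i _ => Finset.sum_congr rfl fun j _ => ?_
      simp [mul_assoc]
    rw [h2, h1]
    apply g.pos'
    intro h3
    apply hx
    have h4 : dsymmE x₀ hy (WithLp.toLp 2 x) = 0 := h3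
    have h5 := (dsymmE x₀ hy).map_eq_zero_iff.1 h4
    funext i
    have := congrArg (fun v : Eu (d + 1) => v i) h5
    simpa using this

theorem gram_contDiffOn (g : Metric (𝓡∂ (d + 1)) Ω) (x₀ : Ω) (i j : Fin (d + 1)) :
    ContDiffOn ℝ ∞ (fun y => g.gram x₀ y i j) (extChartAt (𝓡∂ (d + 1)) x₀).target := by
  have h := g.smooth' x₀
  have h1 := (h.clm_apply (contDiffOn_const (c := (ev i : Eu (d + 1))))).clm_apply
    (contDiffOn_const (c := (ev j : Eu (d + 1))))
  exact h1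

theorem gram_change (g : Metric (𝓡∂ (d + 1)) Ω) {x₀ x₁ : Ω} {y : Eu (d + 1)}
    (hy : y ∈ (extChartAt (𝓡∂ (d + 1)) x₁).target)
    (hz : (extChartAt (𝓡∂ (d + 1)) x₁).symm y ∈ (extChartAt (𝓡∂ (d + 1)) x₀).source) :
    g.gram x₁ y = Matrix.of fun i j => ∑ k, ∑ l,
      (fderivWithin ℝ (theta (𝓡∂ (d + 1)) x₀ x₁) (HS d) y (ev i)) k *
        g.gram x₀ (theta (𝓡∂ (d + 1)) x₀ x₁ y) k l *
      (fderivWithin ℝ (theta (𝓡∂ (d + 1)) x₀ x₁) (HS d) y (ev j)) l := by
  ext i j
  simp only [Matrix.of_apply]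
  rw [gram_apply_vec]
  have h1 : (extChartAt (𝓡∂ (d + 1)) x₀).symm (theta (𝓡∂ (d + 1)) x₀ x₁ y) =
      (extChartAt (𝓡∂ (d + 1)) x₁).symm y := (extChartAt (𝓡∂ (d + 1)) x₀).left_inv hz
  have h2 := dsymm_change (𝓡∂ (d + 1)) hy hz
  rw [range_eq_HS] at h2
  rw [h1]
  simp only [Metric.gram, Matrix.of_apply]
  rw [h2]
  rfl

/-- Pointwise inner product of forms with respect to `g`. -/
def fip (g : Metric (𝓡∂ (d + 1)) Ω) {q : ℕ} (v w : Ω → Alt (Eu (d + 1)) q) (z : Ω) : ℂ :=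
  formInner (g.gram z (extChartAt (𝓡∂ (d + 1)) z z)) (v z) (w z)

/-- The pointwise inner product may be computed in any chart. -/
theorem fip_rep (g : Metric (𝓡∂ (d + 1)) Ω) {q : ℕ} (v w : Ω → Alt (Eu (d + 1)) q) {x₀ : Ω}
    {y : Eu (d + 1)} (hy : y ∈ (extChartAt (𝓡∂ (d + 1)) x₀).target) :
    fip g v w ((extChartAt (𝓡∂ (d + 1)) x₀).symm y) =
      formInner (g.gram x₀ y) (rep (𝓡∂ (d + 1)) x₀ v y) (rep (𝓡∂ (d + 1)) x₀ w y) := by
  set z := (extChartAt (𝓡∂ (d + 1)) x₀).symm y with hz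
  have hpos : (g.gram z (extChartAt (𝓡∂ (d + 1)) z z)).PosDef :=
    gram_posDef g z (mem_extChartAt_target z)
  have h := formInner_comp (g.gram z (extChartAt (𝓡∂ (d + 1)) z z)) hpos (dsymmE x₀ hy)
    (v z) (w z)
  rw [fip, ← h]
  have h1 : (Matrix.of fun i j => ∑ k, ∑ l, (dsymmE x₀ hy (ev i)) k *
      (g.gram z (extChartAt (𝓡∂ (d + 1)) z z)) k l * (dsymmE x₀ hy (ev j)) l) =
      g.gram x₀ y := by
    ext i j
    simp only [Matrix.of_apply]
    rw [gram_apply_vec, extChartAt_to_inv, dsymm_self]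
    rfl
  rw [h1]
  rfl

theorem fip_contMDiff (g : Metric (𝓡∂ (d + 1)) Ω) {q : ℕ} (v w : SForm (𝓡∂ (d + 1)) Ω q) :
    ContMDiff (𝓡∂ (d + 1)) 𝓘(ℝ, ℂ) ∞ (fip g v.val w.val) := by
  rw [contMDiff_iff_rep]
  intro x₀
  refine (formInner_contDiffOn (fun i j => gram_contDiffOn g x₀ i j)
    (fun y hy => gram_posDef g x₀ hy) (v.smooth x₀) (w.smooth x₀)).congr fun y hy => ?_
  exact fip_rep g v.val w.val hy

/-- Pointwise inner product of smooth forms as a smooth function. -/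
def fipS (g : Metric (𝓡∂ (d + 1)) Ω) {q : ℕ} (v w : SForm (𝓡∂ (d + 1)) Ω q) :
    SFun (𝓡∂ (d + 1)) Ω := ⟨fip g v.val w.val, fip_contMDiff g v w⟩

theorem fipS_val (g : Metric (𝓡∂ (d + 1)) Ω) {q : ℕ} (v w : SForm (𝓡∂ (d + 1)) Ω q) :
    (fipS g v w).val = fip g v.val w.val := rfl


/-- The Riemannian integral of a function on `Ω`. -/
def IntM (g : Metric (𝓡∂ (d + 1)) Ω) (C : Cover (𝓡∂ (d + 1)) Ω) (h : Ω → ℂ) : ℂ :=
  ∑ i, ∫ y in (extChartAt (𝓡∂ (d + 1)) (C.c i)).target,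
    ((Real.sqrt (g.gram (C.c i) y).det * C.χ i ((extChartAt (𝓡∂ (d + 1)) (C.c i)).symm y) : ℝ) : ℂ) *
      h ((extChartAt (𝓡∂ (d + 1)) (C.c i)).symm y)

/-! ### Auxiliary facts on chart integrals -/

theorem measurableSet_HS : MeasurableSet (HS d) := by
  have : IsClosed (HS d) := isClosed_le continuous_const (by fun_prop)
  exact this.measurableSet

theorem measurableSet_target (x₀ : Ω) :
    MeasurableSet (extChartAt (𝓡∂ (d + 1)) x₀).target := by
  obtain ⟨O, hO, h⟩ := exists_open_target (d := d) x₀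
  rw [h]
  exact measurableSet_HS.inter hO.measurableSet

theorem HS_subset_closure_interior : HS d ⊆ closure (interior (HS d)) := by
  rw [← range_eq_HS]
  exact (𝓡∂ (d + 1)).range_subset_closure_interior

theorem target_subset_closure_interior (x₀ : Ω) :
    (extChartAt (𝓡∂ (d + 1)) x₀).target ⊆
      closure (interior (extChartAt (𝓡∂ (d + 1)) x₀).target) := by
  obtain ⟨O, hO, h⟩ := exists_open_target (d := d) x₀
  rw [h, interior_inter, hO.interior_eq]
  rintro y ⟨hy, hyO⟩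
  have h1 := hO.inter_closure (t := interior (HS d)) ⟨hyO, HS_subset_closure_interior hy⟩
  rwa [inter_comm] at h1

theorem rho_continuousOn (g : Metric (𝓡∂ (d + 1)) Ω) (x₀ : Ω) :
    ContinuousOn (fun y => Real.sqrt (g.gram x₀ y).det) (extChartAt (𝓡∂ (d + 1)) x₀).target := by
  refine Real.continuous_sqrt.comp_continuousOn ?_
  simp only [Matrix.det_apply]
  refine continuousOn_finsetSum _ fun σ _ => ContinuousOn.const_smul ?_ _
  exact continuousOn_finsetProd _ fun k _ => (gram_contDiffOn g x₀ _ _).continuousOn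

/-- The compact image of a compact subset of the source of a chart. -/
theorem isCompact_image_ext (x₀ : Ω) {S : Set Ω} (hS : IsClosed S)
    (hs : S ⊆ (extChartAt (𝓡∂ (d + 1)) x₀).source) :
    IsCompact (extChartAt (𝓡∂ (d + 1)) x₀ '' S) :=
  hS.isCompact.image_of_continuousOn ((continuousOn_extChartAt x₀).mono hs)

theorem image_ext_subset (x₀ : Ω) {S : Set Ω}
    (hs : S ⊆ (extChartAt (𝓡∂ (d + 1)) x₀).source) :
    extChartAt (𝓡∂ (d + 1)) x₀ '' S ⊆ (extChartAt (𝓡∂ (d + 1)) x₀).target := by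
  rintro _ ⟨z, hz, rfl⟩
  exact (extChartAt (𝓡∂ (d + 1)) x₀).map_source (hs hz)

/-- A function on a chart domain, continuous and supported in a compact set, is integrable. -/
theorem integrableOn_target {F : Type*} [NormedAddCommGroup F] [NormedSpace ℝ F] (x₀ : Ω)
    {φ : Eu (d + 1) → F} (hφ : ContinuousOn φ (extChartAt (𝓡∂ (d + 1)) x₀).target)
    {S : Set Ω} (hS : IsClosed S) (hs : S ⊆ (extChartAt (𝓡∂ (d + 1)) x₀).source)
    (h0 : ∀ y ∈ (extChartAt (𝓡∂ (d + 1)) x₀).target,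
      (extChartAt (𝓡∂ (d + 1)) x₀).symm y ∉ S → φ y = 0) :
    IntegrableOn φ (extChartAt (𝓡∂ (d + 1)) x₀).target := by
  have hK := isCompact_image_ext x₀ hS hs
  have hKt := image_ext_subset x₀ hs
  have h1 : IntegrableOn φ (extChartAt (𝓡∂ (d + 1)) x₀ '' S) :=
    (hφ.mono hKt).integrableOn_compact hK
  refine h1.of_forall_sdiff_eq_zero (measurableSet_target x₀) fun y hy => ?_
  refine h0 y hy.1 fun h2 => hy.2 ⟨_, h2, ?_⟩
  exact (extChartAt (𝓡∂ (d + 1)) x₀).right_inv hy.1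

section
variable (g : Metric (𝓡∂ (d + 1)) Ω) (C : Cover (𝓡∂ (d + 1)) Ω)

/-- The density of the `i`-th chart. -/
def dens (i : Fin C.N) (y : Eu (d + 1)) : ℝ :=
  Real.sqrt (g.gram (C.c i) y).det * C.χ i ((extChartAt (𝓡∂ (d + 1)) (C.c i)).symm y)

theorem dens_nonneg (i : Fin C.N) (y : Eu (d + 1)) : 0 ≤ dens g C i y :=
  mul_nonneg (Real.sqrt_nonneg _) (C.χ_nonneg _ _)

theorem comp_symm_continuousOn {F : Type*} [TopologicalSpace F] (x₀ : Ω) {h : Ω → F}
    (hh : Continuous h) : ContinuousOn (fun y => h ((extChartAt (𝓡∂ (d + 1)) x₀).symm y))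
      (extChartAt (𝓡∂ (d + 1)) x₀).target :=
  hh.comp_continuousOn (continuousOn_extChartAt_symm x₀)

theorem dens_continuousOn (i : Fin C.N) :
    ContinuousOn (dens g C i) (extChartAt (𝓡∂ (d + 1)) (C.c i)).target :=
  (rho_continuousOn g _).mul (comp_symm_continuousOn _ (C.χ_smooth i).continuous)

theorem dens_zero (i : Fin C.N) (y : Eu (d + 1))
    (h : (extChartAt (𝓡∂ (d + 1)) (C.c i)).symm y ∉ tsupport (C.χ i)) : dens g C i y = 0 := by
  unfold dens
  rw [image_eq_zero_of_notMem_tsupport h, mul_zero]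

theorem IntM_eq (h : Ω → ℂ) : IntM g C h =
    ∑ i, ∫ y in (extChartAt (𝓡∂ (d + 1)) (C.c i)).target,
      (dens g C i y : ℂ) * h ((extChartAt (𝓡∂ (d + 1)) (C.c i)).symm y) := rfl

theorem integrableOn_dens {h : Ω → ℂ} (hh : Continuous h) (i : Fin C.N) :
    IntegrableOn (fun y => (dens g C i y : ℂ) * h ((extChartAt (𝓡∂ (d + 1)) (C.c i)).symm y))
      (extChartAt (𝓡∂ (d + 1)) (C.c i)).target := by
  refine integrableOn_target (C.c i) ?_ (isClosed_tsupport (C.χ i)) (C.χ_supp i) ?_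
  · exact (Complex.continuous_ofReal.comp_continuousOn (dens_continuousOn g C i)).mul
      (comp_symm_continuousOn _ hh)
  · intro y _ hy
    rw [dens_zero g C i y hy]
    simp

theorem integrableOn_dens_real {h : Ω → ℝ} (hh : Continuous h) (i : Fin C.N) :
    IntegrableOn (fun y => dens g C i y * h ((extChartAt (𝓡∂ (d + 1)) (C.c i)).symm y))
      (extChartAt (𝓡∂ (d + 1)) (C.c i)).target := by
  refine integrableOn_target (C.c i) ?_ (isClosed_tsupport (C.χ i)) (C.χ_supp i) ?_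
  · exact (dens_continuousOn g C i).mul (comp_symm_continuousOn _ hh)
  · intro y _ hy
    rw [dens_zero g C i y hy]
    simp

/-- The real version of `IntM`. -/
def IntR (h : Ω → ℝ) : ℝ :=
  ∑ i, ∫ y in (extChartAt (𝓡∂ (d + 1)) (C.c i)).target,
    dens g C i y * h ((extChartAt (𝓡∂ (d + 1)) (C.c i)).symm y)

theorem IntM_ofReal (r : Ω → ℝ) : IntM g C (fun z => (r z : ℂ)) = (IntR g C r : ℂ) := by
  rw [IntM_eq, IntR]
  push_cast
  refine Finset.sum_congr rfl fun i _ => ?_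
  rw [← integral_complex_ofReal]
  refine integral_congr_ae (Filter.Eventually.of_forall fun y => ?_)
  push_cast
  rfl

theorem IntR_nonneg {r : Ω → ℝ} (h0 : ∀ z, 0 ≤ r z) : 0 ≤ IntR g C r := by
  refine Finset.sum_nonneg fun i _ => integral_nonneg fun y => ?_
  exact mul_nonneg (dens_nonneg g C i y) (h0 _)

theorem IntM_add {h k : Ω → ℂ} (hh : Continuous h) (hk : Continuous k) :
    IntM g C (h + k) = IntM g C h + IntM g C k := by
  rw [IntM_eq, IntM_eq, IntM_eq, ← Finset.sum_add_distrib]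
  refine Finset.sum_congr rfl fun i _ => ?_
  rw [← integral_add (integrableOn_dens g C hh i) (integrableOn_dens g C hk i)]
  refine integral_congr_ae (Filter.Eventually.of_forall fun y => ?_)
  simp [mul_add]

theorem IntM_smul (c : ℂ) (h : Ω → ℂ) : IntM g C (c • h) = c * IntM g C h := by
  rw [IntM_eq, IntM_eq, Finset.mul_sum]
  refine Finset.sum_congr rfl fun i _ => ?_
  rw [← integral_const_mul]
  refine integral_congr_ae (Filter.Eventually.of_forall fun y => ?_)
  simp only [Pi.smul_apply, smul_eq_mul]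
  ring

theorem IntM_conj (h : Ω → ℂ) : IntM g C (fun z => conj (h z)) = conj (IntM g C h) := by
  rw [IntM_eq, IntM_eq, map_sum]
  refine Finset.sum_congr rfl fun i _ => ?_
  rw [← integral_conj]
  refine integral_congr_ae (Filter.Eventually.of_forall fun y => ?_)
  simp

theorem IntM_nonneg {r : Ω → ℝ} (h0 : ∀ z, 0 ≤ r z) :
    0 ≤ (IntM g C (fun z => (r z : ℂ))).re := by
  rw [IntM_ofReal, Complex.ofReal_re]
  exact IntR_nonneg g C h0

theorem IntM_definite {r : Ω → ℝ} (hr : Continuous r) (h0 : ∀ z, 0 ≤ r z)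
    (h : IntM g C (fun z => (r z : ℂ)) = 0) : r = 0 := by
  rw [IntM_ofReal, Complex.ofReal_eq_zero, IntR] at h
  have hi : ∀ i, ∫ y in (extChartAt (𝓡∂ (d + 1)) (C.c i)).target,
      dens g C i y * r ((extChartAt (𝓡∂ (d + 1)) (C.c i)).symm y) = 0 := by
    intro i
    exact (Finset.sum_eq_zero_iff_of_nonneg (fun i _ => integral_nonneg fun y =>
      mul_nonneg (dens_nonneg g C i y) (h0 _))).1 h i (Finset.mem_univ i)
  funext z
  by_contra hz
  have hsum := C.χ_sum z
  obtain ⟨i, hiz⟩ : ∃ i, C.χ i z ≠ 0 := by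
    by_contra hcon
    push Not at hcon
    simp [hcon] at hsum
  have hzs : z ∈ (extChartAt (𝓡∂ (d + 1)) (C.c i)).source :=
    C.χ_supp i (subset_tsupport _ hiz)
  have hy := (extChartAt (𝓡∂ (d + 1)) (C.c i)).map_source hzs
  have h1 : (fun y => dens g C i y * r ((extChartAt (𝓡∂ (d + 1)) (C.c i)).symm y)) =ᵐ[
      volume.restrict (extChartAt (𝓡∂ (d + 1)) (C.c i)).target] 0 :=
    (integral_eq_zero_iff_of_nonneg (fun y => mul_nonneg (dens_nonneg g C i y) (h0 _))
      (integrableOn_dens_real g C hr i)).1 (hi i)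
  have h2 := Measure.eqOn_of_ae_eq h1
    ((dens_continuousOn g C i).mul (comp_symm_continuousOn _ hr)) continuousOn_const
    (target_subset_closure_interior _) hy
  simp only [Pi.zero_apply] at h2
  rw [(extChartAt (𝓡∂ (d + 1)) (C.c i)).left_inv hzs] at h2
  rcases mul_eq_zero.1 h2 with h3 | h3
  · unfold dens at h3
    rw [(extChartAt (𝓡∂ (d + 1)) (C.c i)).left_inv hzs] at h3
    rcases mul_eq_zero.1 h3 with h4 | h4
    · have h5 := (gram_posDef g (C.c i) hy).det_pos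
      rw [Real.sqrt_eq_zero h5.le] at h4
      exact h5.ne' h4
    · exact hiz h4
  · exact hz h3

theorem norm_IntM_le {h : Ω → ℂ} {r : Ω → ℝ} (hh : Continuous h) (hr : Continuous r)
    (hle : ∀ z, ‖h z‖ ≤ r z) : ‖IntM g C h‖ ≤ (IntM g C (fun z => (r z : ℂ))).re := by
  rw [IntM_ofReal, Complex.ofReal_re, IntM_eq, IntR]
  refine (norm_sum_le _ _).trans (Finset.sum_le_sum fun i _ => ?_)
  refine (norm_integral_le_integral_norm _).trans ?_
  refine integral_mono (integrableOn_dens g C hh i).norm (integrableOn_dens_real g C hr i)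
    fun y => ?_
  simp only [norm_mul, Complex.norm_real, Real.norm_of_nonneg (dens_nonneg g C i y)]
  exact mul_le_mul_of_nonneg_left (hle _) (dens_nonneg g C i y)

theorem IntR_add {h k : Ω → ℝ} (hh : Continuous h) (hk : Continuous k) :
    IntR g C (fun z => h z + k z) = IntR g C h + IntR g C k := by
  rw [IntR, IntR, IntR, ← Finset.sum_add_distrib]
  refine Finset.sum_congr rfl fun i _ => ?_
  rw [← integral_add (integrableOn_dens_real g C hh i) (integrableOn_dens_real g C hk i)]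
  refine integral_congr_ae (Filter.Eventually.of_forall fun y => ?_)
  simp [mul_add]

theorem IntR_smul (c : ℝ) (h : Ω → ℝ) : IntR g C (fun z => c * h z) = c * IntR g C h := by
  rw [IntR, IntR, Finset.mul_sum]
  refine Finset.sum_congr rfl fun i _ => ?_
  rw [← integral_const_mul]
  refine integral_congr_ae (Filter.Eventually.of_forall fun y => ?_)
  simp only
  ring

/-- Cauchy-Schwarz. -/
theorem norm_IntM_mul_le {h : Ω → ℂ} {a b : Ω → ℝ} (hh : Continuous h) (ha : Continuous a)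
    (hb : Continuous b) (ha0 : ∀ z, 0 ≤ a z) (hb0 : ∀ z, 0 ≤ b z) (hle : ∀ z, ‖h z‖ ≤ a z * b z) :
    ‖IntM g C h‖ ≤ Real.sqrt (IntM g C (fun z => ((a z ^ 2 : ℝ) : ℂ))).re *
      Real.sqrt (IntM g C (fun z => ((b z ^ 2 : ℝ) : ℂ))).re := by
  have h1 := norm_IntM_le g C hh (ha.mul hb) hle
  rw [IntM_ofReal, Complex.ofReal_re] at h1
  rw [IntM_ofReal, IntM_ofReal, Complex.ofReal_re, Complex.ofReal_re]
  refine h1.trans ?_
  set A := IntR g C (fun z => a z ^ 2) with hA
  set B := IntR g C (fun z => b z ^ 2) with hB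
  set D := IntR g C (fun z => a z * b z) with hD
  have hA0 : 0 ≤ A := IntR_nonneg g C fun z => sq_nonneg _
  have hB0 : 0 ≤ B := IntR_nonneg g C fun z => sq_nonneg _
  have hq : ∀ x : ℝ, 0 ≤ A * (x * x) + (2 * D) * x + B := by
    intro x
    have h2 : 0 ≤ IntR g C (fun z => (x * a z + b z) ^ 2) := IntR_nonneg g C fun z => sq_nonneg _
    have h3 : (fun z => (x * a z + b z) ^ 2) =
        fun z => ((x * x) * (a z ^ 2) + (2 * x) * (a z * b z)) + b z ^ 2 := by
      funext z; ring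
    rw [h3, IntR_add g C (h := fun z => (x * x) * (a z ^ 2) + (2 * x) * (a z * b z))
      (k := fun z => b z ^ 2) (by fun_prop) (by fun_prop),
      IntR_add g C (h := fun z => (x * x) * (a z ^ 2)) (k := fun z => (2 * x) * (a z * b z))
      (by fun_prop) (by fun_prop), IntR_smul, IntR_smul] at h2
    linarith
  have h4 := discrim_le_zero hq
  have h5 : D ^ 2 ≤ A * B := by
    unfold discrim at h4
    nlinarith
  rw [← Real.sqrt_mul hA0]
  exact Real.le_sqrt_of_sq_le h5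


theorem det_matL {n : ℕ} (P : Matrix (Fin n) (Fin n) ℝ) : (matL P).det = P.det := by
  have h : ((matL P : Eu n →L[ℝ] Eu n) : Eu n →ₗ[ℝ] Eu n) =
      Matrix.toLin (EuclideanSpace.basisFun (Fin n) ℝ).toBasis
        (EuclideanSpace.basisFun (Fin n) ℝ).toBasis P := by
    refine (EuclideanSpace.basisFun (Fin n) ℝ).toBasis.ext fun j => ?_
    rw [Matrix.toLin_self]
    have h1 := matL_ev P j
    simpa using h1
  rw [ContinuousLinearMap.det, h, LinearMap.det_toLin]

theorem rho_change {x₀ x₁ : Ω} {y : Eu (d + 1)}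
    (hy : y ∈ (extChartAt (𝓡∂ (d + 1)) x₁).target)
    (hz : (extChartAt (𝓡∂ (d + 1)) x₁).symm y ∈ (extChartAt (𝓡∂ (d + 1)) x₀).source) :
    Real.sqrt (g.gram x₁ y).det =
      |(fderivWithin ℝ (theta (𝓡∂ (d + 1)) x₀ x₁) (HS d) y).det| *
        Real.sqrt (g.gram x₀ (theta (𝓡∂ (d + 1)) x₀ x₁ y)).det := by
  set L := fderivWithin ℝ (theta (𝓡∂ (d + 1)) x₀ x₁) (HS d) y with hL
  set P : Matrix (Fin (d + 1)) (Fin (d + 1)) ℝ := Matrix.of fun i j => (L (ev j)) i with hP
  have h1 : L = matL P := matL_eq L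
  have h2 : g.gram x₁ y = P.transpose * g.gram x₀ (theta (𝓡∂ (d + 1)) x₀ x₁ y) * P := by
    rw [gram_change g hy hz]
    ext i j
    simp only [Matrix.mul_apply, Matrix.of_apply, Matrix.transpose_apply, hP, Finset.sum_mul]
    rw [Finset.sum_comm]
  rw [h2, Matrix.det_mul, Matrix.det_mul, Matrix.det_transpose, h1, det_matL]
  rw [show P.det * (g.gram x₀ (theta (𝓡∂ (d + 1)) x₀ x₁ y)).det * P.det =
    P.det ^ 2 * (g.gram x₀ (theta (𝓡∂ (d + 1)) x₀ x₁ y)).det by ring,
    Real.sqrt_mul (sq_nonneg _), Real.sqrt_sq_eq_abs]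

theorem measurableSet_overlap (x₀ x₁ : Ω) :
    MeasurableSet ((extChartAt (𝓡∂ (d + 1)) x₁).target ∩
      (extChartAt (𝓡∂ (d + 1)) x₁).symm ⁻¹' (extChartAt (𝓡∂ (d + 1)) x₀).source) := by
  obtain ⟨u, hu, h⟩ := (continuousOn_iff'.1 (continuousOn_extChartAt_symm (I := 𝓡∂ (d + 1)) x₁)) _
    (isOpen_extChartAt_source (I := 𝓡∂ (d + 1)) x₀)
  rw [inter_comm, h]
  exact hu.measurableSet.inter (measurableSet_target x₁)

/-- Change of charts in an integral. -/
theorem chart_change (x₀ x₁ : Ω) (k : Ω → ℂ)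
    (hk : ∀ z, z ∉ (extChartAt (𝓡∂ (d + 1)) x₀).source ∨
      z ∉ (extChartAt (𝓡∂ (d + 1)) x₁).source → k z = 0) :
    ∫ y in (extChartAt (𝓡∂ (d + 1)) x₁).target,
      (Real.sqrt (g.gram x₁ y).det : ℂ) * k ((extChartAt (𝓡∂ (d + 1)) x₁).symm y) =
    ∫ y in (extChartAt (𝓡∂ (d + 1)) x₀).target,
      (Real.sqrt (g.gram x₀ y).det : ℂ) * k ((extChartAt (𝓡∂ (d + 1)) x₀).symm y) := by
  set e₀ := extChartAt (𝓡∂ (d + 1)) x₀ with he₀
  set e₁ := extChartAt (𝓡∂ (d + 1)) x₁ with he₁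
  set T₁ : Set (Eu (d + 1)) := e₁.target ∩ e₁.symm ⁻¹' e₀.source with hT₁
  set T₀ : Set (Eu (d + 1)) := e₀.target ∩ e₀.symm ⁻¹' e₁.source with hT₀
  have hm₁ : MeasurableSet T₁ := measurableSet_overlap x₀ x₁
  have h1 : ∫ y in e₁.target, (Real.sqrt (g.gram x₁ y).det : ℂ) * k (e₁.symm y) =
      ∫ y in T₁, (Real.sqrt (g.gram x₁ y).det : ℂ) * k (e₁.symm y) := by
    refine setIntegral_eq_of_subset_of_forall_sdiff_eq_zero (measurableSet_target x₁)
      inter_subset_left fun y hy => ?_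
    rw [hk _ (Or.inl fun h => hy.2 ⟨hy.1, h⟩), mul_zero]
  have h2 : ∫ y in e₀.target, (Real.sqrt (g.gram x₀ y).det : ℂ) * k (e₀.symm y) =
      ∫ y in T₀, (Real.sqrt (g.gram x₀ y).det : ℂ) * k (e₀.symm y) := by
    refine setIntegral_eq_of_subset_of_forall_sdiff_eq_zero (measurableSet_target x₀)
      inter_subset_left fun y hy => ?_
    rw [hk _ (Or.inr fun h => hy.2 ⟨hy.1, h⟩), mul_zero]
  have himg : theta (𝓡∂ (d + 1)) x₀ x₁ '' T₁ = T₀ := by
    ext y
    constructor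
    · rintro ⟨x, ⟨hx1, hx2⟩, rfl⟩
      refine ⟨e₀.map_source hx2, ?_⟩
      show e₀.symm (e₀ (e₁.symm x)) ∈ e₁.source
      rw [e₀.left_inv hx2]
      exact e₁.map_target hx1
    · rintro ⟨hy1, hy2⟩
      refine ⟨e₁ (e₀.symm y), ⟨e₁.map_source hy2, ?_⟩, ?_⟩
      · show e₁.symm (e₁ (e₀.symm y)) ∈ e₀.source
        rw [e₁.left_inv hy2]
        exact e₀.map_target hy1
      · show e₀ (e₁.symm (e₁ (e₀.symm y))) = y
        rw [e₁.left_inv hy2, e₀.right_inv hy1]
  have hinj : InjOn (theta (𝓡∂ (d + 1)) x₀ x₁) T₁ := by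
    intro x hx x' hx' hxx
    have h3 : e₁.symm x = e₁.symm x' := e₀.injOn hx.2 hx'.2 hxx
    exact e₁.symm.injOn (by simpa using hx.1) (by simpa using hx'.1) h3
  have hder : ∀ y ∈ T₁, HasFDerivWithinAt (theta (𝓡∂ (d + 1)) x₀ x₁)
      (fderivWithin ℝ (theta (𝓡∂ (d + 1)) x₀ x₁) (HS d) y) T₁ y := by
    intro y hy
    have h3 := theta_contDiffWithinAt (𝓡∂ (d + 1)) (x₀ := x₀) (x₁ := x₁) hy.1 hy.2
    have h4 := (h3.differentiableWithinAt (by simp)).hasFDerivWithinAt
    rw [range_eq_HS] at h4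
    refine h4.mono fun x hx => ?_
    rw [← range_eq_HS]
    exact extChartAt_target_subset_range x₁ hx.1
  rw [h1, h2, ← himg, integral_image_eq_integral_abs_det_fderiv_smul _ hm₁ hder hinj]
  refine setIntegral_congr_fun hm₁ fun y hy => ?_
  have h5 : e₀.symm (theta (𝓡∂ (d + 1)) x₀ x₁ y) = e₁.symm y := e₀.left_inv hy.2
  simp only [h5]
  rw [rho_change g hy.1 hy.2, Complex.real_smul]
  push_cast
  ring

/-- The integral of a function supported in a chart. -/
theorem IntM_chart {h : Ω → ℂ} (hh : Continuous h) {x₀ : Ω}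
    (hs : tsupport h ⊆ (extChartAt (𝓡∂ (d + 1)) x₀).source) :
    IntM g C h = ∫ y in (extChartAt (𝓡∂ (d + 1)) x₀).target,
      (Real.sqrt (g.gram x₀ y).det : ℂ) * h ((extChartAt (𝓡∂ (d + 1)) x₀).symm y) := by
  have hint : ∀ i, IntegrableOn (fun y => (Real.sqrt (g.gram x₀ y).det : ℂ) *
      ((C.χ i ((extChartAt (𝓡∂ (d + 1)) x₀).symm y) : ℂ) *
        h ((extChartAt (𝓡∂ (d + 1)) x₀).symm y))) (extChartAt (𝓡∂ (d + 1)) x₀).target := by
    intro i
    refine integrableOn_target x₀ ?_ (isClosed_tsupport h) hs ?_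
    · refine (Complex.continuous_ofReal.comp_continuousOn (rho_continuousOn g x₀)).mul ?_
      exact (Complex.continuous_ofReal.comp_continuousOn
        (comp_symm_continuousOn _ (C.χ_smooth i).continuous)).mul (comp_symm_continuousOn _ hh)
    · intro y _ hy
      rw [image_eq_zero_of_notMem_tsupport hy]
      simp
  have h1 : ∫ y in (extChartAt (𝓡∂ (d + 1)) x₀).target,
      (Real.sqrt (g.gram x₀ y).det : ℂ) * h ((extChartAt (𝓡∂ (d + 1)) x₀).symm y) =
      ∑ i, ∫ y in (extChartAt (𝓡∂ (d + 1)) x₀).target, (Real.sqrt (g.gram x₀ y).det : ℂ) *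
      ((C.χ i ((extChartAt (𝓡∂ (d + 1)) x₀).symm y) : ℂ) *
        h ((extChartAt (𝓡∂ (d + 1)) x₀).symm y)) := by
    rw [← integral_finsetSum _ fun i _ => hint i]
    refine integral_congr_ae (Filter.Eventually.of_forall fun y => ?_)
    simp only
    rw [← Finset.mul_sum, ← Finset.sum_mul]
    have := C.χ_sum ((extChartAt (𝓡∂ (d + 1)) x₀).symm y)
    rw [← Complex.ofReal_sum, this]
    simp
  rw [h1, IntM_eq]
  refine Finset.sum_congr rfl fun i _ => ?_
  have h2 := chart_change g x₀ (C.c i) (fun z => (C.χ i z : ℂ) * h z) (by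
    rintro z (hz | hz)
    · have : h z = 0 := image_eq_zero_of_notMem_tsupport fun h' => hz (hs h')
      simp [this]
    · have : C.χ i z = 0 := image_eq_zero_of_notMem_tsupport fun h' => hz (C.χ_supp i h')
      simp [this])
  rw [← h2]
  refine integral_congr_ae (Filter.Eventually.of_forall fun y => ?_)
  simp only [dens]
  push_cast
  ring


/-- The `L²` inner product of smooth forms. -/
def ipM {q : ℕ} (v w : SForm (𝓡∂ (d + 1)) Ω q) : ℂ := IntM g C (fip g v.val w.val)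

theorem gram_self_posDef (z : Ω) : (g.gram z (extChartAt (𝓡∂ (d + 1)) z z)).PosDef :=
  gram_posDef g z (mem_extChartAt_target z)

theorem fip_continuous {q : ℕ} (v w : SForm (𝓡∂ (d + 1)) Ω q) :
    Continuous (fip g v.val w.val) := (fip_contMDiff g v w).continuous

theorem fip_self_eq {q : ℕ} (w : Ω → Alt (Eu (d + 1)) q) :
    fip g w w = fun z => (((fip g w w z).re : ℝ) : ℂ) := by
  funext z
  refine Complex.ext ?_ ?_
  · simp
  · rw [Complex.ofReal_im]
    exact formInner_self_im _ (gram_self_posDef g z) _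

theorem fip_self_nonneg {q : ℕ} (w : Ω → Alt (Eu (d + 1)) q) (z : Ω) :
    0 ≤ (fip g w w z).re := formInner_self_nonneg _ (gram_self_posDef g z) _

theorem ipM_self_real {q : ℕ} (w : SForm (𝓡∂ (d + 1)) Ω q) :
    ipM g C w w = (((ipM g C w w).re : ℝ) : ℂ) := by
  unfold ipM
  rw [fip_self_eq, IntM_ofReal, Complex.ofReal_re]

theorem ipM_self_nonneg {q : ℕ} (w : SForm (𝓡∂ (d + 1)) Ω q) : 0 ≤ (ipM g C w w).re := by
  unfold ipM
  rw [fip_self_eq]
  exact IntM_nonneg g C fun z => fip_self_nonneg g _ z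

theorem formInner_add_right' {n q : ℕ} (G : Matrix (Fin n) (Fin n) ℝ) (u v v' : Alt (Eu n) q) :
    formInner G u (v + v') = formInner G u v + formInner G u v' := by
  simp only [formInner, ContinuousAlternatingMap.add_apply, ← mul_add, ← Finset.sum_add_distrib,
    map_add]

theorem ipM_add_left {q : ℕ} (v v' w : SForm (𝓡∂ (d + 1)) Ω q) :
    ipM g C (v + v') w = ipM g C v w + ipM g C v' w := by
  unfold ipM
  rw [← IntM_add g C (fip_continuous g v w) (fip_continuous g v' w)]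
  congr 1
  funext z
  exact formInner_add_left _ _ _ _

theorem ipM_add_right {q : ℕ} (v w w' : SForm (𝓡∂ (d + 1)) Ω q) :
    ipM g C v (w + w') = ipM g C v w + ipM g C v w' := by
  unfold ipM
  rw [← IntM_add g C (fip_continuous g v w) (fip_continuous g v w')]
  congr 1
  funext z
  exact formInner_add_right' _ _ _ _

theorem ipM_conj {q : ℕ} (v w : SForm (𝓡∂ (d + 1)) Ω q) :
    conj (ipM g C v w) = ipM g C w v := by
  unfold ipM
  rw [← IntM_conj]
  congr 1
  funext z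
  exact formInner_conj_symm _ (gram_self_posDef g z) _ _

theorem ipM_smul_left {q : ℕ} (c : ℂ) (v w : SForm (𝓡∂ (d + 1)) Ω q) :
    ipM g C (c • v) w = c * ipM g C v w := by
  unfold ipM
  rw [← IntM_smul]
  congr 1
  funext z
  exact formInner_smul_left _ _ _ _

theorem ipM_smul_right {q : ℕ} (c : ℂ) (v w : SForm (𝓡∂ (d + 1)) Ω q) :
    ipM g C v (c • w) = conj c * ipM g C v w := by
  rw [← ipM_conj, ipM_smul_left, map_mul, ipM_conj]

/-- Auxiliary form of `norm_ipM_le`. -/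
theorem norm_ipM_le_aux {q : ℕ} (v w : SForm (𝓡∂ (d + 1)) Ω q) :
    ‖ipM g C v w‖ ≤ Real.sqrt (ipM g C v v).re * Real.sqrt (ipM g C w w).re := by
  have hcont : ∀ u : SForm (𝓡∂ (d + 1)) Ω q,
      Continuous fun z => Real.sqrt (fip g u.val u.val z).re := fun u =>
    Real.continuous_sqrt.comp (Complex.continuous_re.comp (fip_continuous g u u))
  have h := norm_IntM_mul_le g C (fip_continuous g v w) (hcont v) (hcont w)
    (fun z => Real.sqrt_nonneg _) (fun z => Real.sqrt_nonneg _)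
    (fun z => norm_formInner_le _ (gram_self_posDef g z) (v.val z) (w.val z))
  have h2 : ∀ u : SForm (𝓡∂ (d + 1)) Ω q,
      (fun z => ((Real.sqrt (fip g u.val u.val z).re ^ 2 : ℝ) : ℂ)) = fip g u.val u.val := by
    intro u
    rw [fip_self_eq]
    funext z
    rw [Complex.ofReal_re, Real.sq_sqrt (fip_self_nonneg g _ z)]
  rw [h2, h2] at h
  exact h

/-- The `L²` norm on smooth forms as a seminorm. -/
def NM (q : ℕ) : Seminorm ℂ (SForm (𝓡∂ (d + 1)) Ω q) where
  toFun w := Real.sqrt (ipM g C w w).re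
  map_zero' := by
    have h : ipM g C (0 : SForm (𝓡∂ (d + 1)) Ω q) 0 = 0 := by
      have h1 := ipM_smul_left g C 0 (0 : SForm (𝓡∂ (d + 1)) Ω q) 0
      rwa [zero_smul, zero_mul] at h1
    rw [h]
    simp
  add_le' v w := by
    have h0 := norm_ipM_le_aux g C v w
    have h1 : (ipM g C (v + w) (v + w)).re =
        (ipM g C v v).re + 2 * (ipM g C v w).re + (ipM g C w w).re := by
      rw [ipM_add_left, ipM_add_right, ipM_add_right, ← ipM_conj g C v w]
      simp only [Complex.add_re, Complex.conj_re]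
      ring
    have h2 := Complex.re_le_norm (ipM g C v w)
    apply Real.sqrt_le_iff.2
    refine ⟨by positivity, ?_⟩
    rw [h1]
    nlinarith [Real.sq_sqrt (ipM_self_nonneg g C v), Real.sq_sqrt (ipM_self_nonneg g C w)]
  neg' w := by
    have h : ipM g C (-w) (-w) = ipM g C w w := by
      have h1 : -w = (-1 : ℂ) • w := by rw [neg_one_smul]
      rw [h1, ipM_smul_left, ipM_smul_right]
      simp
    rw [h]
  smul' c w := by
    rw [ipM_smul_left, ipM_smul_right, ← mul_assoc, Complex.mul_conj, Complex.re_ofReal_mul,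
      Real.sqrt_mul (Complex.normSq_nonneg _), Complex.normSq_eq_norm_sq,
      Real.sqrt_sq (norm_nonneg _)]

theorem NM_apply {q : ℕ} (w : SForm (𝓡∂ (d + 1)) Ω q) :
    NM g C q w = Real.sqrt (ipM g C w w).re := rfl

theorem ipM_self {q : ℕ} (w : SForm (𝓡∂ (d + 1)) Ω q) :
    ipM g C w w = ((NM g C q w ^ 2 : ℝ) : ℂ) := by
  rw [NM_apply, Real.sq_sqrt (ipM_self_nonneg g C w)]
  exact ipM_self_real g C w

theorem norm_ipM_le {q : ℕ} (v w : SForm (𝓡∂ (d + 1)) Ω q) :
    ‖ipM g C v w‖ ≤ NM g C q v * NM g C q w := norm_ipM_le_aux g C v w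

theorem NM_eq_zero {q : ℕ} {w : SForm (𝓡∂ (d + 1)) Ω q} (h : NM g C q w = 0) : w = 0 := by
  have h1 : ipM g C w w = 0 := by rw [ipM_self, h]; simp
  unfold ipM at h1
  rw [fip_self_eq] at h1
  have h2 := IntM_definite g C (Complex.continuous_re.comp (fip_continuous g w w))
    (fun z => fip_self_nonneg g _ z) h1
  apply SForm.val_injective
  funext z
  have h3 : (fip g w.val w.val z).re = 0 := congrFun h2 z
  have h4 : fip g w.val w.val z = 0 := by
    rw [fip_self_eq]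
    simp [h3]
  exact formInner_definite _ (gram_self_posDef g z) _ h4

end

/-- The pointwise norm of a form. -/
def pn (g : Metric (𝓡∂ (d + 1)) Ω) {q : ℕ} (w : Ω → Alt (Eu (d + 1)) q) (z : Ω) : ℝ :=
  Real.sqrt (fip g w w z).re

/-- Comparison of the pointwise norm with the norm in a chart. -/
theorem pn_comparison (g : Metric (𝓡∂ (d + 1)) Ω) (q : ℕ) (x₀ : Ω) {K : Set (Eu (d + 1))}
    (hK : IsCompact K) (hKt : K ⊆ (extChartAt (𝓡∂ (d + 1)) x₀).target) :
    ∃ C : ℝ, 0 < C ∧ ∀ y ∈ K, ∀ w : Ω → Alt (Eu (d + 1)) q,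
      ‖rep (𝓡∂ (d + 1)) x₀ w y‖ ≤ C * pn g w ((extChartAt (𝓡∂ (d + 1)) x₀).symm y) ∧
      pn g w ((extChartAt (𝓡∂ (d + 1)) x₀).symm y) ≤ C * ‖rep (𝓡∂ (d + 1)) x₀ w y‖ := by
  have hG : ContinuousOn (fun y => g.gram x₀ y) K := by
    refine continuousOn_pi.2 fun i => continuousOn_pi.2 fun j => ?_
    exact ((gram_contDiffOn g x₀ i j).continuousOn).mono hKt
  obtain ⟨C, hC, h⟩ := formInner_comparison (q := q) K hK (fun y => g.gram x₀ y) hG
    (fun y hy => gram_posDef g x₀ (hKt hy))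
  refine ⟨Real.sqrt C, Real.sqrt_pos.2 hC, fun y hy w => ?_⟩
  have h1 := h y hy (rep (𝓡∂ (d + 1)) x₀ w y)
  rw [← fip_rep g w w (hKt hy)] at h1
  unfold pn
  constructor
  · rw [← Real.sqrt_mul hC.le]
    exact Real.le_sqrt_of_sq_le h1.1
  · rw [← Real.sqrt_sq (norm_nonneg (rep (𝓡∂ (d + 1)) x₀ w y)), ← Real.sqrt_mul hC.le]
    exact Real.sqrt_le_sqrt h1.2

end DtN
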