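import Pool.Agent.H14.DtN.HalfIBP

/-!
MODULE D3, part A : smoothness of the coefficients, the algebraic identity in the fibre.
-/

open scoped ContDiff Topology ComplexConjugate
open Set MeasureTheory

set_option linter.unusedSectionVars false

noncomputable section

namespace DtN

namespace LG

section smooth

variable {n : ℕ} {F : Type*} [NormedAddCommGroup F] [NormedSpace ℝ F] {s : Set F}
  {r : WithTop ℕ∞}

theorem det_contDiffOn {G : F → Matrix (Fin n) (Fin n) ℝ}
    (hG : ∀ i j, ContDiffOn ℝ r (fun y => G y i j) s) : ContDiffOn ℝ r (fun y => (G y).det) s := by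
  simp_rw [Matrix.det_apply]
  refine ContDiffOn.sum fun σ _ => ?_
  have h : ContDiffOn ℝ r (fun y => ∏ i, G y (σ i) i) s := contDiffOn_prod fun i _ => hG _ _
  have h2 := contDiffOn_const (c := ((Equiv.Perm.sign σ : ℤˣ) : ℝ)) (s := s) (𝕜 := ℝ) (n := r)
  refine (h2.mul h).congr fun y _ => ?_
  rw [Units.smul_def, zsmul_eq_mul]

theorem adj_contDiffOn {G : F → Matrix (Fin n) (Fin n) ℝ}
    (hG : ∀ i j, ContDiffOn ℝ r (fun y => G y i j) s) (i j : Fin n) :
    ContDiffOn ℝ r (fun y => (G y).adjugate i j) s := by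
  simp_rw [Matrix.adjugate_apply]
  refine det_contDiffOn fun a b => ?_
  by_cases h : a = j
  · subst h
    simp_rw [Matrix.updateRow_self]
    exact contDiffOn_const
  · simp_rw [Matrix.updateRow_ne h]
    exact hG a b

theorem inv_contDiffOn {G : F → Matrix (Fin n) (Fin n) ℝ}
    (hG : ∀ i j, ContDiffOn ℝ r (fun y => G y i j) s) (hpos : ∀ y ∈ s, (G y).PosDef)
    (i j : Fin n) : ContDiffOn ℝ r (fun y => (G y)⁻¹ i j) s := by
  have h1 : ContDiffOn ℝ r (fun y => ((G y).det)⁻¹ * (G y).adjugate i j) s :=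
    ((det_contDiffOn hG).inv fun y hy => (hpos y hy).det_pos.ne').mul (adj_contDiffOn hG i j)
  refine h1.congr fun y _ => ?_
  rw [Matrix.inv_def, Ring.inverse_eq_inv']
  rfl

theorem sqrt_contDiffOn {G : F → Matrix (Fin n) (Fin n) ℝ}
    (hG : ∀ i j, ContDiffOn ℝ r (fun y => G y i j) s) (hpos : ∀ y ∈ s, (G y).PosDef) :
    ContDiffOn ℝ r (fun y => Real.sqrt (G y).det) s :=
  (det_contDiffOn hG).sqrt fun y hy => (hpos y hy).det_pos.ne'

end smooth

section fibre

variable {n q : ℕ}

theorem fi_add_right (G : Matrix (Fin n) (Fin n) ℝ) (u v v' : Alt (Eu n) q) :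
    formInner G u (v + v') = formInner G u v + formInner G u v' := by
  unfold formInner
  rw [← mul_add, ← Finset.sum_add_distrib]
  congr 1
  refine Finset.sum_congr rfl fun J _ => ?_
  rw [← Finset.sum_add_distrib]
  refine Finset.sum_congr rfl fun K _ => ?_
  rw [ContinuousAlternatingMap.add_apply, map_add]
  ring

theorem fi_smul_right (G : Matrix (Fin n) (Fin n) ℝ) (c : ℝ) (u v : Alt (Eu n) q) :
    formInner G u (c • v) = c * formInner G u v := by
  simp only [formInner, ContinuousAlternatingMap.smul_apply, Complex.real_smul, map_mul,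
    Complex.conj_ofReal, Finset.mul_sum]
  refine Finset.sum_congr rfl fun J _ => Finset.sum_congr rfl fun K _ => ?_
  ring

theorem fi_smul_left (G : Matrix (Fin n) (Fin n) ℝ) (c : ℝ) (u v : Alt (Eu n) q) :
    formInner G (c • u) v = c * formInner G u v := by
  have : c • u = (c : ℂ) • u := by
    ext m
    simp
  rw [this, formInner_smul_left]

theorem fi_zero_right (G : Matrix (Fin n) (Fin n) ℝ) (u : Alt (Eu n) q) :
    formInner G u 0 = 0 := by
  unfold formInner
  simp

theorem fi_zero_left (G : Matrix (Fin n) (Fin n) ℝ) (v : Alt (Eu n) q) :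
    formInner G 0 v = 0 := by
  unfold formInner
  simp

theorem fi_sum_right {ι : Type*} (G : Matrix (Fin n) (Fin n) ℝ) (s : Finset ι)
    (u : Alt (Eu n) q) (v : ι → Alt (Eu n) q) :
    formInner G u (∑ i ∈ s, v i) = ∑ i ∈ s, formInner G u (v i) := by
  classical
  induction s using Finset.induction_on with
  | empty => rw [Finset.sum_empty, Finset.sum_empty, fi_zero_right]
  | insert a s ha ih => rw [Finset.sum_insert ha, Finset.sum_insert ha, fi_add_right, ih]

theorem fi_sum_left {ι : Type*} (G : Matrix (Fin n) (Fin n) ℝ) (s : Finset ι)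
    (u : ι → Alt (Eu n) q) (v : Alt (Eu n) q) :
    formInner G (∑ i ∈ s, u i) v = ∑ i ∈ s, formInner G (u i) v := by
  classical
  induction s using Finset.induction_on with
  | empty => rw [Finset.sum_empty, Finset.sum_empty, fi_zero_left]
  | insert a s ha ih => rw [Finset.sum_insert ha, Finset.sum_insert ha, formInner_add_left, ih]

theorem fi_sub_right (G : Matrix (Fin n) (Fin n) ℝ) (u v v' : Alt (Eu n) q) :
    formInner G u (v - v') = formInner G u v - formInner G u v' := by
  have h := fi_add_right G u (v - v') v'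
  rw [sub_add_cancel] at h
  rw [h]
  ring

/-- the full gradient term -/
def N1 (G : Matrix (Fin n) (Fin n) ℝ) (f : Fin n → Alt (Eu n) q) : ℂ :=
  ∑ k, ∑ j, ((G⁻¹ j k : ℝ) : ℂ) * formInner G (f k) (f j)

/-- the cross term -/
def cross (G : Matrix (Fin n) (Fin n) ℝ) (f : Fin n → Alt (Eu n) (q + 1)) : ℂ :=
  ∑ j, ∑ k, (formInner G ((f k).curryLeft (gv G k)) ((f j).curryLeft (gv G j)) -
    formInner G ((f k).curryLeft (gv G j)) ((f j).curryLeft (gv G k)))

/-- the divergence term -/
def del (G : Matrix (Fin n) (Fin n) ℝ) (f : Fin n → Alt (Eu n) (q + 1)) : Alt (Eu n) q :=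
  ∑ k, (f k).curryLeft (gv G k)

theorem identity (G : Matrix (Fin n) (Fin n) ℝ) (hG : G.PosDef)
    (f : Eu n →L[ℝ] Alt (Eu n) (q + 1)) :
    formInner G (alt f) (alt f) + formInner G (del G fun k => f (ev k)) (del G fun k => f (ev k)) =
      N1 G (fun k => f (ev k)) + cross G (fun k => f (ev k)) := by
  have h1 : formInner G (alt f) (alt f) = N1 G (fun k => f (ev k)) -
      ∑ j, ∑ k, formInner G ((f (ev k)).curryLeft (gv G j)) ((f (ev j)).curryLeft (gv G k)) := by
    rw [formInner_alt G hG]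
    have h2 : ∀ k, formInner G (f (ev k)) ((alt f).curryLeft (gv G k)) =
        (∑ j, ((G⁻¹ j k : ℝ) : ℂ) * formInner G (f (ev k)) (f (ev j))) -
        ∑ j, formInner G ((f (ev k)).curryLeft (gv G j)) ((f (ev j)).curryLeft (gv G k)) := by
      intro k
      rw [curryLeft_alt, fi_sub_right]
      refine congrArg₂ (fun a b : ℂ => a - b) ?_ ?_
      · have : f (gv G k) = ∑ j, G⁻¹ j k • f (ev j) := by
          unfold gv
          rw [map_sum]
          exact Finset.sum_congr rfl fun j _ => map_smul _ _ _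
        rw [this, fi_sum_right]
        exact Finset.sum_congr rfl fun j _ => fi_smul_right _ _ _ _
      · rw [← formInner_conj_symm G hG, formInner_alt G hG, map_sum]
        refine Finset.sum_congr rfl fun j _ => ?_
        rw [formInner_conj_symm G hG]
        rfl
    rw [Finset.sum_congr rfl fun k _ => h2 k, Finset.sum_sub_distrib]
    refine congrArg₂ (fun a b : ℂ => a - b) ?_ ?_
    · unfold N1
      rfl
    · rw [Finset.sum_comm]
  have h3 : formInner G (del G fun k => f (ev k)) (del G fun k => f (ev k)) =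
      ∑ j, ∑ k, formInner G ((f (ev k)).curryLeft (gv G k)) ((f (ev j)).curryLeft (gv G j)) := by
    unfold del
    rw [fi_sum_right]
    exact Finset.sum_congr rfl fun j _ => fi_sum_left _ _ _ _
  rw [h1, h3]
  unfold cross
  simp_rw [Finset.sum_sub_distrib]
  ring

theorem N1_eq {m : ℕ} (G : Matrix (Fin n) (Fin n) ℝ) (v : Fin m → Fin n → ℝ)
    (hB : ∀ j k, G⁻¹ j k = ∑ i, v i j * v i k) (f : Fin n → Alt (Eu n) q) :
    N1 G f = ∑ l, formInner G (∑ k, v l k • f k) (∑ k, v l k • f k) := by
  unfold N1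
  have h1 : ∀ l, formInner G (∑ k, v l k • f k) (∑ k, v l k • f k) =
      ∑ k, ∑ j, ((v l j : ℝ) : ℂ) * ((v l k : ℝ) : ℂ) * formInner G (f k) (f j) := by
    intro l
    rw [fi_sum_left]
    refine Finset.sum_congr rfl fun k _ => ?_
    rw [fi_sum_right]
    refine Finset.sum_congr rfl fun j _ => ?_
    rw [fi_smul_left, fi_smul_right]
    ring
  rw [Finset.sum_congr rfl fun l _ => h1 l]
  symm
  rw [Finset.sum_comm]
  refine Finset.sum_congr rfl fun k _ => ?_
  rw [Finset.sum_comm]
  refine Finset.sum_congr rfl fun j _ => ?_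
  have h2 : ((G⁻¹ j k : ℝ) : ℂ) = ∑ l, ((v l j : ℝ) : ℂ) * ((v l k : ℝ) : ℂ) := by
    rw [hB]
    push_cast
    rfl
  rw [h2, Finset.sum_mul]

theorem N1_nonneg (G : Matrix (Fin n) (Fin n) ℝ) (hG : G.PosDef) (f : Fin n → Alt (Eu n) q) :
    0 ≤ (N1 G f).re ∧ ((N1 G f).re = 0 → f = 0) := by
  obtain ⟨m, v, hv⟩ := Matrix.posSemidef_iff_eq_sum_vecMulVec.mp hG.inv.posSemidef
  have hv' : ∀ j k, G⁻¹ j k = ∑ i, v i j * v i k := by
    intro j k
    rw [hv, Matrix.sum_apply]
    exact Finset.sum_congr rfl fun i _ => by simp [Matrix.vecMulVec_apply]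
  rw [N1_eq G v hv', Complex.re_sum]
  have hnn : ∀ l ∈ Finset.univ, 0 ≤ (formInner G (∑ k, v l k • f k) (∑ k, v l k • f k)).re :=
    fun l _ => formInner_self_nonneg G hG _
  refine ⟨Finset.sum_nonneg hnn, fun h0 => ?_⟩
  have h1 := (Finset.sum_eq_zero_iff_of_nonneg hnn).mp h0
  have h2 : ∀ l, ∑ k, v l k • f k = 0 := by
    intro l
    refine formInner_definite G hG _ (Complex.ext ?_ ?_)
    · exact h1 l (Finset.mem_univ l)
    · exact formInner_self_im G hG _
  funext a
  have h4 : ∀ k, ∑ j, G a j * G⁻¹ j k = (1 : Matrix (Fin n) (Fin n) ℝ) a k := by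
    intro k
    rw [← Matrix.mul_apply, Matrix.mul_nonsing_inv G hG.det_pos.ne'.isUnit]
  have h3 : ∑ k, (1 : Matrix (Fin n) (Fin n) ℝ) a k • f k = f a := by
    rw [Finset.sum_eq_single a]
    · rw [Matrix.one_apply_eq]
      exact one_smul ℝ (f a)
    · intro k _ hk
      rw [Matrix.one_apply_ne (Ne.symm hk)]
      exact zero_smul ℝ (f k)
    · intro h; exact absurd (Finset.mem_univ a) h
  have h5 : ∑ k, (1 : Matrix (Fin n) (Fin n) ℝ) a k • f k =
      ∑ j, ∑ i, (G a j * v i j) • ∑ k, v i k • f k := by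
    have h6 : ∀ k, (1 : Matrix (Fin n) (Fin n) ℝ) a k • f k =
        ∑ j, ∑ i, (G a j * v i j) • (v i k • f k) := by
      intro k
      have h7 : (1 : Matrix (Fin n) (Fin n) ℝ) a k = ∑ j, ∑ i, G a j * v i j * v i k := by
        rw [← h4 k]
        refine Finset.sum_congr rfl fun j _ => ?_
        rw [hv', Finset.mul_sum]
        exact Finset.sum_congr rfl fun i _ => by ring
      rw [h7]
      refine (Finset.sum_smul (R := ℝ) (M := Alt (Eu n) q)).trans ?_
      refine Finset.sum_congr rfl fun j _ => ?_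
      refine (Finset.sum_smul (R := ℝ) (M := Alt (Eu n) q)).trans ?_
      exact Finset.sum_congr rfl fun i _ => mul_smul (G a j * v i j) (v i k) (f k)
    rw [Finset.sum_congr rfl fun k _ => h6 k, Finset.sum_comm]
    refine Finset.sum_congr rfl fun j _ => ?_
    rw [Finset.sum_comm]
    exact Finset.sum_congr rfl fun i _ => (Finset.smul_sum).symm
  rw [← h3, h5]
  refine Finset.sum_eq_zero fun j _ => Finset.sum_eq_zero fun i _ => ?_
  rw [h2]
  exact smul_zero (A := Alt (Eu n) q) (G a j * v i j)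

end fibre

end LG

end DtN
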