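import Pool.Agent.H14.DtN.LocGaffAuxA

/-!
MODULE D3, part B : lower bound for the gradient term, the bilinear field.
-/

open scoped ContDiff Topology ComplexConjugate
open Set MeasureTheory

set_option linter.unusedSectionVars false

noncomputable section

namespace DtN

namespace LG

section lower

variable {n q : ℕ}

theorem fi_continuousOn {X : Type*} [TopologicalSpace X] {K : Set X}
    {G : X → Matrix (Fin n) (Fin n) ℝ} (hG : ContinuousOn G K)
    (hpos : ∀ x ∈ K, (G x).det ≠ 0) {u v : X → Alt (Eu n) q} (hu : ContinuousOn u K)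
    (hv : ContinuousOn v K) : ContinuousOn (fun x => formInner (G x) (u x) (v x)) K := by
  unfold formInner
  refine continuousOn_const.mul ?_
  refine continuousOn_finsetSum _ fun J _ => continuousOn_finsetSum _ fun L _ => ?_
  refine ContinuousOn.mul ?_ (ContinuousOn.mul ?_ ?_)
  · refine Complex.continuous_ofReal.comp_continuousOn ?_
    exact continuousOn_finsetProd _ fun l _ => continuousOn_inv_entry hG hpos (J l) (L l)
  · exact (ContinuousAlternatingMap.apply ℝ (Eu n) ℂ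
      (fun l => EuclideanSpace.single (J l) (1 : ℝ))).continuous.comp_continuousOn hu
  · exact Complex.continuous_conj.comp_continuousOn ((ContinuousAlternatingMap.apply ℝ (Eu n) ℂ
      (fun l => EuclideanSpace.single (L l) (1 : ℝ))).continuous.comp_continuousOn hv)

theorem N1_rsmul (G : Matrix (Fin n) (Fin n) ℝ) (c : ℝ) (f : Fin n → Alt (Eu n) q) :
    (N1 G (c • f)).re = c ^ 2 * (N1 G f).re := by
  have h : N1 G (c • f) = ((c ^ 2 : ℝ) : ℂ) * N1 G f := by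
    unfold N1
    rw [Finset.mul_sum]
    refine Finset.sum_congr rfl fun k _ => ?_
    rw [Finset.mul_sum]
    refine Finset.sum_congr rfl fun j _ => ?_
    rw [Pi.smul_apply, Pi.smul_apply, fi_smul_left, fi_smul_right]
    push_cast
    ring
  rw [h, Complex.re_ofReal_mul]

theorem N1_lower {X : Type*} [TopologicalSpace X] {K : Set X} (hK : IsCompact K)
    (G : X → Matrix (Fin n) (Fin n) ℝ) (hG : ContinuousOn G K) (hpos : ∀ x ∈ K, (G x).PosDef) :
    ∃ C : ℝ, 0 < C ∧ ∀ x ∈ K, ∀ f : Fin n → Alt (Eu n) q,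
      ∑ k, ‖f k‖ ^ 2 ≤ C * (N1 (G x) f).re := by
  have : ProperSpace (Fin n → Alt (Eu n) q) := FiniteDimensional.proper_real _
  set S : Set (Fin n → Alt (Eu n) q) := Metric.sphere 0 1 with hS
  have hScomp : IsCompact S := isCompact_sphere _ _
  have hKS : IsCompact (K ×ˢ S) := hK.prod hScomp
  set F : X × (Fin n → Alt (Eu n) q) → ℝ := fun p => (N1 (G p.1) p.2).re with hF
  have hFc : ContinuousOn F (K ×ˢ S) := by
    rw [hF]
    refine Complex.continuous_re.comp_continuousOn ?_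
    unfold N1
    refine continuousOn_finsetSum _ fun k _ => continuousOn_finsetSum _ fun j _ => ?_
    have hG1 : ContinuousOn (fun p : X × (Fin n → Alt (Eu n) q) => G p.1) (K ×ˢ S) :=
      hG.comp continuousOn_fst fun p hp => hp.1
    have hd1 : ∀ p ∈ K ×ˢ S, (G p.1).det ≠ 0 := fun p hp => (hpos p.1 hp.1).det_pos.ne'
    refine ContinuousOn.mul ?_ ?_
    · refine Complex.continuous_ofReal.comp_continuousOn ?_
      exact continuousOn_inv_entry hG1 hd1 j k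
    · refine fi_continuousOn hG1 hd1 ?_ ?_
      · exact ((continuous_apply k).comp continuous_snd).continuousOn
      · exact ((continuous_apply j).comp continuous_snd).continuousOn
  have hFpos : ∀ p ∈ K ×ˢ S, 0 < F p := by
    rintro ⟨x, f⟩ ⟨hx, hf⟩
    obtain ⟨h0, h1⟩ := N1_nonneg (G x) (hpos x hx) f
    refine lt_of_le_of_ne h0 fun h2 => ?_
    have h3 := h1 h2.symm
    have h4 : ‖f‖ = 1 := by simpa [hS] using hf
    rw [h3] at h4
    simp at h4
  obtain ⟨m, hm, hmin⟩ := hKS.exists_forall_le' hFc hFpos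
  refine ⟨(n + 1) / m, by positivity, fun x hx f => ?_⟩
  by_cases hf : f = 0
  · subst hf
    have h1 := (N1_nonneg (G x) (hpos x hx) (0 : Fin n → Alt (Eu n) q)).1
    have h2 : ∑ k, ‖(0 : Fin n → Alt (Eu n) q) k‖ ^ 2 = 0 := by
      refine Finset.sum_eq_zero fun k _ => ?_
      rw [Pi.zero_apply, norm_zero]
      norm_num
    rw [h2]
    positivity
  have hnf : 0 < ‖f‖ := norm_pos_iff.2 hf
  set e : Fin n → Alt (Eu n) q := ‖f‖⁻¹ • f with he
  have heS : (x, e) ∈ K ×ˢ S := ⟨hx, by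
    show e ∈ Metric.sphere 0 1
    rw [mem_sphere_zero_iff_norm, he, norm_smul, norm_inv, norm_norm, inv_mul_cancel₀ hnf.ne']⟩
  have hfe : f = ‖f‖ • e := by rw [he, smul_smul, mul_inv_cancel₀ hnf.ne', one_smul]
  have h1 : (N1 (G x) f).re = ‖f‖ ^ 2 * F (x, e) := by
    conv_lhs => rw [hfe]
    rw [N1_rsmul]
  have h2 : m ≤ F (x, e) := hmin _ heS
  have h3 : ∑ k, ‖f k‖ ^ 2 ≤ n * ‖f‖ ^ 2 := by
    calc ∑ k, ‖f k‖ ^ 2 ≤ ∑ k : Fin n, ‖f‖ ^ 2 :=
          Finset.sum_le_sum fun k _ => pow_le_pow_left₀ (norm_nonneg _) (norm_le_pi_norm f k) 2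
      _ = n * ‖f‖ ^ 2 := by simp
  rw [h1]
  have h4 : (n : ℝ) * ‖f‖ ^ 2 ≤ (n + 1) * ‖f‖ ^ 2 := by nlinarith [sq_nonneg ‖f‖]
  have h5 : ((n : ℝ) + 1) * ‖f‖ ^ 2 = (n + 1) / m * (‖f‖ ^ 2 * m) := by field_simp
  calc ∑ k, ‖f k‖ ^ 2 ≤ (n + 1) / m * (‖f‖ ^ 2 * m) := by rw [← h5]; exact h3.trans h4
    _ ≤ (n + 1) / m * (‖f‖ ^ 2 * F (x, e)) := by
        apply mul_le_mul_of_nonneg_left _ (by positivity)
        exact mul_le_mul_of_nonneg_left h2 (by positivity)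

end lower

section field

variable {n q : ℕ}

/-- vector (e_a, e_J) -/
def av (a : Fin n) (J : Fin q → Fin n) : Fin (q + 1) → Eu n :=
  Matrix.vecCons (ev a) fun l => ev (J l)

/-- index type -/
abbrev TH (n q : ℕ) := Fin n × Fin n × (Fin q → Fin n) × (Fin q → Fin n)

/-- `u ↦ u (e_a, e_J)` -/
def LL (θ : TH n q) : Alt (Eu n) (q + 1) →L[ℝ] ℂ :=
  ContinuousAlternatingMap.apply ℝ (Eu n) ℂ (av θ.1 θ.2.2.1)

/-- `v ↦ conj (v (e_b, e_K))` -/
def MM (θ : TH n q) : Alt (Eu n) (q + 1) →L[ℝ] ℂ :=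
  (Complex.conjCLE : ℂ →L[ℝ] ℂ).comp
    (ContinuousAlternatingMap.apply ℝ (Eu n) ℂ (av θ.2.1 θ.2.2.2))

theorem LL_apply (θ : TH n q) (u : Alt (Eu n) (q + 1)) : LL θ u = u (av θ.1 θ.2.2.1) := rfl

theorem MM_apply (θ : TH n q) (u : Alt (Eu n) (q + 1)) :
    MM θ u = conj (u (av θ.2.1 θ.2.2.2)) := rfl

/-- coefficients -/
def cc (G : Matrix (Fin n) (Fin n) ℝ) (j k : Fin n) (θ : TH n q) : ℝ :=
  Real.sqrt G.det * ((Nat.factorial q : ℝ)⁻¹ * (∏ l, G⁻¹ (θ.2.2.1 l) (θ.2.2.2 l)) *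
    (G⁻¹ θ.1 k * G⁻¹ θ.2.1 j) - (Nat.factorial q : ℝ)⁻¹ * (∏ l, G⁻¹ (θ.2.2.1 l) (θ.2.2.2 l)) *
    (G⁻¹ θ.1 j * G⁻¹ θ.2.1 k))

theorem cc_anti (G : Matrix (Fin n) (Fin n) ℝ) (j k : Fin n) (θ : TH n q) :
    cc G k j θ = - cc G j k θ := by
  unfold cc
  ring

theorem cc_contDiffOn {F : Type*} [NormedAddCommGroup F] [NormedSpace ℝ F] {s : Set F}
    {r : WithTop ℕ∞} {G : F → Matrix (Fin n) (Fin n) ℝ}
    (hG : ∀ i j, ContDiffOn ℝ r (fun y => G y i j) s) (hpos : ∀ y ∈ s, (G y).PosDef)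
    (j k : Fin n) (θ : TH n q) : ContDiffOn ℝ r (fun y => cc (G y) j k θ) s := by
  unfold cc
  have h1 : ∀ a b, ContDiffOn ℝ r (fun y => (G y)⁻¹ a b) s := fun a b =>
    inv_contDiffOn hG hpos a b
  have h2 : ContDiffOn ℝ r (fun y => (Nat.factorial q : ℝ)⁻¹ *
      (∏ l, (G y)⁻¹ (θ.2.2.1 l) (θ.2.2.2 l))) s :=
    contDiffOn_const.mul (contDiffOn_prod fun l _ => h1 _ _)
  exact (sqrt_contDiffOn hG hpos).mul ((h2.mul ((h1 _ _).mul (h1 _ _))).sub
    (h2.mul ((h1 _ _).mul (h1 _ _))))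

theorem curry_gv (G : Matrix (Fin n) (Fin n) ℝ) (k : Fin n) (u : Alt (Eu n) (q + 1))
    (J : Fin q → Fin n) : (u.curryLeft (gv G k)) (fun l => ev (J l)) =
      ∑ a, ((G⁻¹ a k : ℝ) : ℂ) * u (av a J) := by
  have h1 : u.curryLeft (gv G k) = ∑ a, G⁻¹ a k • u.curryLeft (ev a) := by
    unfold gv
    rw [map_sum]
    exact Finset.sum_congr rfl fun a _ => map_smul _ _ _
  rw [h1, ContinuousAlternatingMap.sum_apply]
  refine Finset.sum_congr rfl fun a _ => ?_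
  rw [ContinuousAlternatingMap.smul_apply, Complex.real_smul]
  rfl

theorem sum4 {α β γ δ : Type*} [Fintype α] [Fintype β] [Fintype γ] [Fintype δ]
    (g : α → β → γ → δ → ℂ) : ∑ J, ∑ K, ∑ a, ∑ b, g a b J K = ∑ a, ∑ b, ∑ J, ∑ K, g a b J K := by
  calc ∑ J, ∑ K, ∑ a, ∑ b, g a b J K = ∑ J, ∑ a, ∑ K, ∑ b, g a b J K :=
        Finset.sum_congr rfl fun J _ => Finset.sum_comm
    _ = ∑ a, ∑ J, ∑ K, ∑ b, g a b J K := Finset.sum_comm
    _ = ∑ a, ∑ J, ∑ b, ∑ K, g a b J K :=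
        Finset.sum_congr rfl fun a _ => Finset.sum_congr rfl fun J _ => Finset.sum_comm
    _ = ∑ a, ∑ b, ∑ J, ∑ K, g a b J K :=
        Finset.sum_congr rfl fun a _ => Finset.sum_comm

theorem fi_expand (G : Matrix (Fin n) (Fin n) ℝ) (j k : Fin n) (u v : Alt (Eu n) (q + 1)) :
    formInner G (u.curryLeft (gv G k)) (v.curryLeft (gv G j)) =
      ∑ θ : TH n q, (((Nat.factorial q : ℝ)⁻¹ * (∏ l, G⁻¹ (θ.2.2.1 l) (θ.2.2.2 l)) *
        (G⁻¹ θ.1 k * G⁻¹ θ.2.1 j) : ℝ) : ℂ) * (LL θ u * MM θ v) := by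
  rw [Fintype.sum_prod_type]
  simp_rw [Fintype.sum_prod_type]
  unfold formInner
  rw [Finset.mul_sum]
  simp_rw [Finset.mul_sum (a := (((Nat.factorial q : ℝ)⁻¹ : ℝ) : ℂ))]
  rw [← sum4]
  refine Finset.sum_congr rfl fun J _ => Finset.sum_congr rfl fun K _ => ?_
  rw [curry_gv, curry_gv, map_sum, Finset.sum_mul_sum, Finset.mul_sum, Finset.mul_sum]
  refine Finset.sum_congr rfl fun a _ => ?_
  rw [Finset.mul_sum, Finset.mul_sum]
  refine Finset.sum_congr rfl fun b _ => ?_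
  rw [LL_apply, MM_apply, map_mul, Complex.conj_ofReal]
  push_cast
  ring

theorem sum_cc (G : Matrix (Fin n) (Fin n) ℝ) (j k : Fin n) (u v : Alt (Eu n) (q + 1)) :
    ∑ θ, cc G j k θ • (LL θ u * MM θ v) = (Real.sqrt G.det : ℂ) *
      (formInner G (u.curryLeft (gv G k)) (v.curryLeft (gv G j)) -
        formInner G (u.curryLeft (gv G j)) (v.curryLeft (gv G k))) := by
  rw [fi_expand, fi_expand, ← Finset.sum_sub_distrib, Finset.mul_sum]
  refine Finset.sum_congr rfl fun θ _ => ?_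
  rw [Complex.real_smul]
  unfold cc
  push_cast
  ring

end field

end LG

end DtN
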