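import Pool.Agent.H14.DtN.HalfIBP

/-!
MODULE D3, part C : the divergence of the field, abstractly.
-/

open scoped ContDiff Topology ComplexConjugate
open Set MeasureTheory

set_option linter.unusedSectionVars false

noncomputable section

namespace DtN

namespace LG

section abs

variable {d : ℕ} {A : Type*} [NormedAddCommGroup A] [NormedSpace ℝ A] {Θ : Type*} [Fintype Θ]
  {B : Type*} [NormedAddCommGroup B] [NormedSpace ℝ B]

theorem isClosed_HS : IsClosed (HS d) := by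
  have : HS d = (fun y : Eu (d + 1) => y 0) ⁻¹' Ici 0 := rfl
  rw [this]
  exact isClosed_Ici.preimage (by fun_prop)

theorem mem_closure_interior_HS {x : Eu (d + 1)} (hx : x ∈ HS d) :
    x ∈ closure (interior (HS d)) := by
  have hconv : Convex ℝ (HS d) := by
    have h := convex_halfSpace_ge (𝕜 := ℝ) (f := fun y : Eu (d + 1) => y 0)
      ⟨fun _ _ => rfl, fun _ _ => rfl⟩ 0
    exact h
  have hop : IsOpen {y : Eu (d + 1) | 0 < y 0} := by
    have : {y : Eu (d + 1) | 0 < y 0} = (fun y : Eu (d + 1) => y 0) ⁻¹' Ioi 0 := rfl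
    rw [this]
    exact isOpen_Ioi.preimage (by fun_prop)
  have hne : (interior (HS d)).Nonempty := by
    refine ⟨ev 0, ?_⟩
    have hsub : {y : Eu (d + 1) | 0 < y 0} ⊆ HS d := by
      intro y hy
      have hy' : 0 < y 0 := hy
      exact hy'.le
    refine (interior_maximal hsub hop) ?_
    show 0 < (ev 0 : Eu (d + 1)) 0
    simp
  rw [hconv.closure_interior_eq_closure_of_nonempty_interior hne]
  exact subset_closure hx

theorem cdw {O : Set (Eu (d + 1))} (hO : IsOpen O) {f : Eu (d + 1) → B} {r : WithTop ℕ∞}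
    (hf : ContDiffOn ℝ r f (HS d ∩ O)) {y : Eu (d + 1)} (hy : y ∈ HS d ∩ O) :
    ContDiffWithinAt ℝ r f (HS d) y :=
  (contDiffWithinAt_inter (hO.mem_nhds hy.2)).mp (hf y hy)

theorem cd_fd {O : Set (Eu (d + 1))} (hO : IsOpen O) {f : Eu (d + 1) → B}
    (hf : ContDiffOn ℝ ∞ f (HS d ∩ O)) :
    ContDiffOn ℝ ∞ (fderivWithin ℝ f (HS d)) (HS d ∩ O) := by
  intro y hy
  exact ((cdw hO hf hy).fderivWithin_right uniqueDiffOn_HS (by norm_cast) hy.1).mono
    inter_subset_left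

/-- the vector field -/
def VV (c : Fin (d + 1) → Fin (d + 1) → Θ → Eu (d + 1) → ℝ) (L M : Θ → A →L[ℝ] ℂ)
    (w : Eu (d + 1) → A) (j : Fin (d + 1)) (y : Eu (d + 1)) : ℂ :=
  ∑ k, ∑ θ, c j k θ y • (L θ (fderivWithin ℝ w (HS d) y (ev k)) * M θ (w y))

theorem VV_contDiffOn {O : Set (Eu (d + 1))} (hO : IsOpen O)
    {c : Fin (d + 1) → Fin (d + 1) → Θ → Eu (d + 1) → ℝ} (L M : Θ → A →L[ℝ] ℂ)
    {w : Eu (d + 1) → A} (hc : ∀ j k θ, ContDiffOn ℝ ∞ (c j k θ) (HS d ∩ O))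
    (hw : ContDiffOn ℝ ∞ w (HS d ∩ O)) (j : Fin (d + 1)) :
    ContDiffOn ℝ ∞ (VV c L M w j) (HS d ∩ O) := by
  unfold VV
  refine ContDiffOn.sum fun k _ => ContDiffOn.sum fun θ _ => ?_
  refine (hc j k θ).smul (ContDiffOn.mul ?_ ?_)
  · exact (L θ).contDiff.comp_contDiffOn ((cd_fd hO hw).clm_apply contDiffOn_const)
  · exact (M θ).contDiff.comp_contDiffOn hw

theorem term_fderiv {c : Eu (d + 1) → ℝ} {L M : A →L[ℝ] ℂ} {w : Eu (d + 1) → A}
    {y : Eu (d + 1)} (hc : DifferentiableWithinAt ℝ c (HS d) y)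
    (hw : DifferentiableWithinAt ℝ w (HS d) y)
    (hw1 : DifferentiableWithinAt ℝ (fderivWithin ℝ w (HS d)) (HS d) y) (k : Fin (d + 1)) :
    ∃ f' : Eu (d + 1) →L[ℝ] ℂ, HasFDerivWithinAt
      (fun y => c y • (L (fderivWithin ℝ w (HS d) y (ev k)) * M (w y))) f' (HS d) y ∧
      ∀ v, f' v = c y • (L (fderivWithin ℝ w (HS d) y (ev k)) * M (fderivWithin ℝ w (HS d) y v)) +
        c y • (M (w y) * L (fderivWithin ℝ (fderivWithin ℝ w (HS d)) (HS d) y v (ev k))) +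
        (fderivWithin ℝ c (HS d) y v) • (L (fderivWithin ℝ w (HS d) y (ev k)) * M (w y)) := by
  have h1 := hc.hasFDerivWithinAt
  have h2 := M.hasFDerivAt.comp_hasFDerivWithinAt y hw.hasFDerivWithinAt
  have h3 : HasFDerivWithinAt (fun y => L (fderivWithin ℝ w (HS d) y (ev k)))
      (L.comp ((fderivWithin ℝ (fderivWithin ℝ w (HS d)) (HS d) y).flip (ev k))) (HS d) y := by
    have h4 := hw1.hasFDerivWithinAt.clm_apply (hasFDerivWithinAt_const (ev k) y (HS d))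
    have h5 := L.hasFDerivAt.comp_hasFDerivWithinAt y h4
    refine h5.congr_fderiv ?_
    ext v
    simp
  have h6 := h1.smul (h3.mul h2)
  refine ⟨_, h6, fun v => ?_⟩
  simp only [add_apply, smul_apply,
    ContinuousLinearMap.smulRight_apply, ContinuousLinearMap.comp_apply,
    ContinuousLinearMap.flip_apply, smul_eq_mul, Function.comp_apply, Complex.real_smul,
    Pi.mul_apply]
  ring

theorem div_field {O : Set (Eu (d + 1))} (hO : IsOpen O)
    {c : Fin (d + 1) → Fin (d + 1) → Θ → Eu (d + 1) → ℝ} (L M : Θ → A →L[ℝ] ℂ)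
    (hanti : ∀ j k θ y, c k j θ y = - c j k θ y)
    {w : Eu (d + 1) → A} (hc : ∀ j k θ, ContDiffOn ℝ ∞ (c j k θ) (HS d ∩ O))
    (hw : ContDiffOn ℝ ∞ w (HS d ∩ O)) {y : Eu (d + 1)} (hy : y ∈ HS d ∩ O) :
    ∑ j, fderivWithin ℝ (VV c L M w j) (HS d) y (ev j) =
      (∑ j, ∑ k, ∑ θ, c j k θ y • (L θ (fderivWithin ℝ w (HS d) y (ev k)) *
        M θ (fderivWithin ℝ w (HS d) y (ev j)))) +
      ∑ j, ∑ k, ∑ θ, (fderivWithin ℝ (c j k θ) (HS d) y (ev j)) •
        (L θ (fderivWithin ℝ w (HS d) y (ev k)) * M θ (w y)) := by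
  have hw0 := (cdw hO hw hy).differentiableWithinAt (by norm_num)
  have hw1 := (cdw hO (cd_fd hO hw) hy).differentiableWithinAt (by norm_num)
  have hsymm : IsSymmSndFDerivWithinAt ℝ w (HS d) y :=
    (cdw hO hw hy).isSymmSndFDerivWithinAt
      (by simp only [minSmoothness_of_isRCLikeNormedField]; norm_cast) uniqueDiffOn_HS
      (mem_closure_interior_HS hy.1) hy.1
  have h1 : ∀ j, fderivWithin ℝ (VV c L M w j) (HS d) y (ev j) =
      ∑ k, ∑ θ, (c j k θ y • (L θ (fderivWithin ℝ w (HS d) y (ev k)) *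
          M θ (fderivWithin ℝ w (HS d) y (ev j))) +
        c j k θ y • (M θ (w y) * L θ (fderivWithin ℝ (fderivWithin ℝ w (HS d)) (HS d) y (ev j)
          (ev k))) +
        (fderivWithin ℝ (c j k θ) (HS d) y (ev j)) •
          (L θ (fderivWithin ℝ w (HS d) y (ev k)) * M θ (w y))) := by
    intro j
    choose f' hf' hf'' using fun k θ => term_fderiv (L := L θ) (M := M θ)
      ((cdw hO (hc j k θ) hy).differentiableWithinAt (by norm_num)) hw0 hw1 k
    have h2 : HasFDerivWithinAt (VV c L M w j) (∑ k, ∑ θ, f' k θ) (HS d) y := by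
      unfold VV
      exact HasFDerivWithinAt.fun_sum fun k _ => HasFDerivWithinAt.fun_sum fun θ _ => hf' k θ
    rw [h2.fderivWithin (uniqueDiffOn_HS y hy.1)]
    rw [sum_apply]
    refine Finset.sum_congr rfl fun k _ => ?_
    rw [sum_apply]
    refine Finset.sum_congr rfl fun θ _ => ?_
    exact hf'' k θ (ev j)
  rw [Finset.sum_congr rfl fun j _ => h1 j]
  simp_rw [Finset.sum_add_distrib]
  have h3 : ∑ j, ∑ k, ∑ θ, c j k θ y • (M θ (w y) *
      L θ (fderivWithin ℝ (fderivWithin ℝ w (HS d)) (HS d) y (ev j) (ev k))) = 0 := by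
    set S := ∑ j, ∑ k, ∑ θ, c j k θ y • (M θ (w y) *
      L θ (fderivWithin ℝ (fderivWithin ℝ w (HS d)) (HS d) y (ev j) (ev k))) with hS
    have h4 : S = - S := by
      conv_lhs => rw [hS, Finset.sum_comm]
      rw [hS, ← Finset.sum_neg_distrib]
      refine Finset.sum_congr rfl fun j _ => ?_
      rw [← Finset.sum_neg_distrib]
      refine Finset.sum_congr rfl fun k _ => ?_
      rw [← Finset.sum_neg_distrib]
      refine Finset.sum_congr rfl fun θ _ => ?_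
      rw [hanti j k θ y, hsymm (ev k) (ev j), neg_smul]
    exact self_eq_neg.mp h4
  rw [h3, add_zero]

theorem err_bound {O K : Set (Eu (d + 1))} (hO : IsOpen O) (hK : IsCompact K) (hKO : K ⊆ O)
    {c : Fin (d + 1) → Fin (d + 1) → Θ → Eu (d + 1) → ℝ} (L M : Θ → A →L[ℝ] ℂ)
    (hc : ∀ j k θ, ContDiffOn ℝ ∞ (c j k θ) (HS d ∩ O)) :
    ∃ C : ℝ, 0 < C ∧ ∀ y ∈ HS d ∩ K, ∀ (f : Fin (d + 1) → A) (a : A),
      ‖∑ j, ∑ k, ∑ θ, (fderivWithin ℝ (c j k θ) (HS d) y (ev j)) • (L θ (f k) * M θ a)‖ ≤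
        C * (∑ k, ‖f k‖) * ‖a‖ := by
  have hcomp : IsCompact (HS d ∩ K) := hK.inter_left isClosed_HS
  have h1 : ∀ j k θ, ∃ b, ∀ y ∈ HS d ∩ K,
      ‖fderivWithin ℝ (c j k θ) (HS d) y (ev j)‖ ≤ b := by
    intro j k θ
    refine hcomp.exists_bound_of_continuousOn ?_
    have h2 := ((cd_fd hO (hc j k θ)).clm_apply
      (contDiffOn_const (c := ev j))).continuousOn
    exact h2.mono (inter_subset_inter_right _ hKO)
  choose b hb using h1
  set C : ℝ := ∑ j, ∑ k, ∑ θ, |b j k θ| * (‖L θ‖ * ‖M θ‖) with hC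
  have hC0 : 0 ≤ C := Finset.sum_nonneg fun j _ => Finset.sum_nonneg fun k _ =>
    Finset.sum_nonneg fun θ _ => by positivity
  refine ⟨C + 1, by linarith, fun y hy f a => ?_⟩
  have hT : 0 ≤ ∑ k, ‖f k‖ := Finset.sum_nonneg fun k _ => norm_nonneg _
  have h3 : ‖∑ j, ∑ k, ∑ θ, (fderivWithin ℝ (c j k θ) (HS d) y (ev j)) •
      (L θ (f k) * M θ a)‖ ≤ ∑ j, ∑ k, ∑ θ, |b j k θ| * (‖L θ‖ * ‖M θ‖) *
        ((∑ k, ‖f k‖) * ‖a‖) := by
    refine (norm_sum_le _ _).trans (Finset.sum_le_sum fun j _ => ?_)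
    refine (norm_sum_le _ _).trans (Finset.sum_le_sum fun k _ => ?_)
    refine (norm_sum_le _ _).trans (Finset.sum_le_sum fun θ _ => ?_)
    rw [norm_smul, norm_mul]
    have h4 : ‖L θ (f k)‖ ≤ ‖L θ‖ * ∑ k, ‖f k‖ :=
      ((L θ).le_opNorm _).trans (mul_le_mul_of_nonneg_left
        (Finset.single_le_sum (f := fun k => ‖f k‖) (fun k _ => norm_nonneg _)
          (Finset.mem_univ k)) (norm_nonneg _))
    have h5 : ‖M θ a‖ ≤ ‖M θ‖ * ‖a‖ := (M θ).le_opNorm _
    have h6 : ‖fderivWithin ℝ (c j k θ) (HS d) y (ev j)‖ ≤ |b j k θ| :=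
      (hb j k θ y hy).trans (le_abs_self _)
    calc ‖fderivWithin ℝ (c j k θ) (HS d) y (ev j)‖ * (‖L θ (f k)‖ * ‖M θ a‖) ≤
        |b j k θ| * ((‖L θ‖ * ∑ k, ‖f k‖) * (‖M θ‖ * ‖a‖)) := by
          apply mul_le_mul h6 _ (by positivity) (abs_nonneg _)
          exact mul_le_mul h4 h5 (norm_nonneg _) (by positivity)
      _ = _ := by ring
  refine h3.trans ?_
  simp_rw [← Finset.sum_mul]
  rw [← hC, mul_assoc]
  exact mul_le_mul_of_nonneg_right (by linarith) (by positivity)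

end abs

end LG

end DtN
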