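import Pool.Agent.H14.DtN.LocGaffAuxB
import Pool.Agent.H14.DtN.LocGaffAuxC

/-!
MODULE D3, part D : boundary terms, supports.
-/

open scoped ContDiff Topology ComplexConjugate
open Set MeasureTheory

set_option linter.unusedSectionVars false

noncomputable section

namespace DtN

namespace LG

section bdry

variable {n q : ℕ}

theorem dx_gv (G : Matrix (Fin n) (Fin n) ℝ) (i k : Fin n) :
    dx i (gv G k) = ((G⁻¹ i k : ℝ) : ℂ) := by
  have h : (gv G k) i = G⁻¹ i k := by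
    unfold gv
    rw [WithLp.ofLp_sum, Finset.sum_apply, Finset.sum_eq_single i]
    · simp
    · intro b _ hb
      simp [Ne.symm hb]
    · intro h; exact absurd (Finset.mem_univ i) h
  show ((gv G k) i : ℂ) = _
  rw [h]

theorem half (G : Matrix (Fin n) (Fin n) ℝ) (hG : G.PosDef) (i k : Fin n)
    (u v : Alt (Eu n) (q + 1)) (hu : wedge1 (dx i) u = 0) :
    formInner G (u.curryLeft (gv G k)) (v.curryLeft (gv G i)) =
      ((G⁻¹ i k : ℝ) : ℂ) * formInner G u v := by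
  rw [← formInner_wedge1_dx G hG]
  have h1 := curryLeft_wedge1 (dx i) u (gv G k)
  have h2 : (wedge1 (dx i) u).curryLeft (gv G k) = 0 := by
    rw [hu]
    rfl
  rw [h2, zero_add, dx_gv] at h1
  rw [h1, formInner_smul_left]

theorem cross_zero (G : Matrix (Fin n) (Fin n) ℝ) (hG : G.PosDef) (i k : Fin n)
    (u v : Alt (Eu n) (q + 1)) (hu : wedge1 (dx i) u = 0) (hv : wedge1 (dx i) v = 0) :
    formInner G (u.curryLeft (gv G k)) (v.curryLeft (gv G i)) -
    formInner G (u.curryLeft (gv G i)) (v.curryLeft (gv G k)) = 0 := by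
  have h1 := half G hG i k u v hu
  have h2 := half G hG i k v u hv
  have h3 := formInner_conj_symm G hG (u.curryLeft (gv G i)) (v.curryLeft (gv G k))
  rw [h2, map_mul, Complex.conj_ofReal, formInner_conj_symm G hG] at h3
  rw [h1, ← h3, sub_self]

/-- evaluation of `dx_i ∧ u` -/
def Ph (i : Fin n) (m : Fin (q + 1) → Eu n) : Alt (Eu n) q →L[ℝ] ℂ :=
  ∑ j : Fin (q + 1), ((-1 : ℝ) ^ (j : ℕ) * (m j) i) •
    ContinuousAlternatingMap.apply ℝ (Eu n) ℂ (j.removeNth m)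

theorem Ph_apply (i : Fin n) (m : Fin (q + 1) → Eu n) (u : Alt (Eu n) q) :
    Ph i m u = wedge1 (dx i) u m := by
  unfold Ph wedge1 alt
  rw [ContinuousAlternatingMap.alternatizeUncurryFin_apply, sum_apply]
  refine Finset.sum_congr rfl fun j _ => ?_
  rw [smul_apply, zsmul_eq_mul, Complex.real_smul]
  show _ = _ * (((m j) i : ℂ) • u (j.removeNth m))
  rw [smul_eq_mul]
  push_cast
  rw [mul_assoc]
  rfl

end bdry

section tang

variable {d q : ℕ}

theorem tangential {O : Set (Eu (d + 1))} (hO : IsOpen O)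
    {w : Eu (d + 1) → Alt (Eu (d + 1)) q} (hw : ContDiffOn ℝ ∞ w (HS d ∩ O))
    (h0 : ∀ y ∈ HS d ∩ O, y 0 = 0 → wedge1 (dx 0) (w y) = 0) {y : Eu (d + 1)}
    (hy : y ∈ HS d ∩ O) (hy0 : y 0 = 0) {k : Fin (d + 1)} (hk : k ≠ 0) :
    wedge1 (dx 0) (fderivWithin ℝ w (HS d) y (ev k)) = 0 := by
  ext m
  rw [← Ph_apply]
  have h1 : HasFDerivWithinAt w (fderivWithin ℝ w (HS d) y) (HS d) y :=
    ((cdw hO hw hy).differentiableWithinAt (by norm_num)).hasFDerivWithinAt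
  have h2 := (Ph 0 m).hasFDerivAt.comp_hasFDerivWithinAt y h1
  set γ : ℝ → Eu (d + 1) := fun t => y + t • ev k with hγ
  have hγ0 : γ 0 = y := by simp [hγ]
  have hγz : ∀ t, (γ t) 0 = 0 := by
    intro t
    simp [hγ, hy0, Ne.symm hk]
  have hγm : ∀ t, γ t ∈ HS d := fun t => (hγz t).ge
  have hγd : HasDerivWithinAt γ (ev k) univ 0 := by
    have h3 := ((hasDerivAt_id (0 : ℝ)).smul_const (ev k : Eu (d + 1))).const_add y
    rw [one_smul] at h3
    exact h3.hasDerivWithinAt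
  rw [← hγ0] at h2
  have h4 := h2.comp_hasDerivWithinAt (0 : ℝ) hγd fun t _ => hγm t
  rw [hasDerivWithinAt_univ, hγ0] at h4
  have h5 : (fun _ : ℝ => (0 : ℂ)) =ᶠ[𝓝 0] ((Ph 0 m) ∘ w) ∘ γ := by
    have h6 : ∀ᶠ t in 𝓝 (0 : ℝ), γ t ∈ O := by
      have h7 : ContinuousAt γ 0 := by
        have := hγd.continuousWithinAt
        rwa [continuousWithinAt_univ] at this
      exact h7.eventually (by rw [hγ0]; exact hO.mem_nhds hy.2)
    filter_upwards [h6] with t ht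
    show (0 : ℂ) = Ph 0 m (w (γ t))
    rw [Ph_apply, h0 _ ⟨hγm t, ht⟩ (hγz t)]
    rfl
  have h8 := h4.congr_of_eventuallyEq h5
  exact h8.unique (hasDerivAt_const (0 : ℝ) (0 : ℂ))

theorem ev_zero {O K : Set (Eu (d + 1))} (hO : IsOpen O) (hK : IsCompact K)
    {B : Type*} [Zero B] {f : Eu (d + 1) → B} (hz : ∀ y ∈ HS d ∩ O, y ∉ K → f y = 0)
    {y : Eu (d + 1)} (hy : y ∈ HS d ∩ O) (hyK : y ∉ K) :
    f =ᶠ[𝓝[HS d] y] fun _ => 0 := by
  have h1 : O ∩ Kᶜ ∈ 𝓝 y := (hO.inter hK.isClosed.isOpen_compl).mem_nhds ⟨hy.2, hyK⟩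
  filter_upwards [mem_nhdsWithin_of_mem_nhds h1, self_mem_nhdsWithin] with z hz1 hz2
  exact hz z ⟨hz2, hz1.1⟩ hz1.2

theorem fd_zero {O K : Set (Eu (d + 1))} (hO : IsOpen O) (hK : IsCompact K)
    {B : Type*} [NormedAddCommGroup B] [NormedSpace ℝ B] {f : Eu (d + 1) → B}
    (hz : ∀ y ∈ HS d ∩ O, y ∉ K → f y = 0)
    {y : Eu (d + 1)} (hy : y ∈ HS d ∩ O) (hyK : y ∉ K) :
    fderivWithin ℝ f (HS d) y = 0 := by
  rw [(ev_zero hO hK hz hy hyK).fderivWithin_eq (hz y hy hyK)]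
  simp

theorem integrableOn_supp {O K : Set (Eu (d + 1))} (hO : IsOpen O) (hK : IsCompact K)
    (hKO : K ⊆ O) {B : Type*} [NormedAddCommGroup B] {f : Eu (d + 1) → B}
    (hf : ContinuousOn f (HS d ∩ O)) (hz : ∀ y ∈ HS d ∩ O, y ∉ K → f y = 0) :
    IntegrableOn f (HS d ∩ O) := by
  have h1 : IntegrableOn f (HS d ∩ K) :=
    (hf.mono (inter_subset_inter_right _ hKO)).integrableOn_compact (hK.inter_left isClosed_HS)
  have h2 : IntegrableOn f ((HS d ∩ O) \ K) := by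
    have hm : MeasurableSet ((HS d ∩ O) \ K) :=
      (isClosed_HS.measurableSet.inter hO.measurableSet).diff hK.measurableSet
    refine (integrableOn_zero (s := (HS d ∩ O) \ K)).congr_fun ?_ hm
    intro y hy
    exact (hz y hy.1 hy.2).symm
  refine (h1.union h2).mono_set ?_
  intro y hy
  by_cases h : y ∈ K
  · exact Or.inl ⟨hy.1, h⟩
  · exact Or.inr ⟨hy, h⟩

end tang

end LG

end DtN
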