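import Mathlib

/-!
Auxiliary file for module L1: closed families are smooth.
-/

set_option linter.unusedSectionVars false

open Set MeasureTheory Filter Topology
open scoped ContDiff

namespace DtN

section Partials

variable {E W ι : Type*} [NormedAddCommGroup E] [NormedSpace ℝ E] [NormedAddCommGroup W]
  [NormedSpace ℝ W] [Fintype ι]

/-- Path lemma. -/
lemma path_bound {f : E → W} {b : ι → E} {g : ι → E → W}
    (hf : ∀ p i, HasDerivAt (fun t : ℝ => f (p + t • b i)) (g i p) 0)
    {p : E} {δ ε : ℝ} {v : ι → W}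
    (hg : ∀ q, ‖q - p‖ < δ → ∀ i, ‖g i q - v i‖ ≤ ε) (c : ι → ℝ) (s : Finset ι) (p' : E)
    (hp' : ‖p' - p‖ + ∑ i ∈ s, |c i| * ‖b i‖ < δ) :
    ‖f (p' + ∑ i ∈ s, c i • b i) - f p' - ∑ i ∈ s, c i • v i‖ ≤ ε * ∑ i ∈ s, |c i| := by
  classical
  induction s using Finset.induction_on generalizing p' with
  | empty => simp
  | insert j s hj ih =>
    rw [Finset.sum_insert hj] at hp'
    rw [Finset.sum_insert hj, Finset.sum_insert hj, Finset.sum_insert hj]
    have hs0 : 0 ≤ ∑ i ∈ s, |c i| * ‖b i‖ := Finset.sum_nonneg fun i _ => by positivity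
    -- second piece
    have h2 := ih (p' + c j • b j) (by
      have : ‖p' + c j • b j - p‖ ≤ ‖p' - p‖ + |c j| * ‖b j‖ := by
        calc ‖p' + c j • b j - p‖ = ‖(p' - p) + c j • b j‖ := by congr 1; abel
          _ ≤ ‖p' - p‖ + ‖c j • b j‖ := norm_add_le _ _
          _ = _ := by rw [norm_smul, Real.norm_eq_abs]
      linarith)
    -- first piece
    have h1 : ‖f (p' + c j • b j) - f p' - c j • v j‖ ≤ ε * |c j| := by
      have hd : ∀ t ∈ uIcc 0 (c j), HasDerivWithinAt (fun t : ℝ => f (p' + t • b j) - t • v j)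
          (g j (p' + t • b j) - v j) (uIcc 0 (c j)) t := by
        intro t _
        have e1 : HasDerivAt (fun t : ℝ => f (p' + t • b j)) (g j (p' + t • b j)) t := by
          have := hf (p' + t • b j) j
          have h3 : HasDerivAt (fun s : ℝ => s - t) 1 t := by
            simpa using (hasDerivAt_id t).sub_const t
          have h4 : HasDerivAt (fun s : ℝ => f ((p' + t • b j) + s • b j)) (g j (p' + t • b j))
              (t - t) := by rw [sub_self]; exact this
          have h5 := HasDerivAt.scomp (h := fun s : ℝ => s - t) t h4 h3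
          simp only [one_smul] at h5
          refine h5.congr_of_eventuallyEq (Eventually.of_forall fun s => ?_)
          simp only [Function.comp]
          congr 1
          rw [add_assoc, ← add_smul]; congr 2; ring
        have e2 : HasDerivAt (fun t : ℝ => t • v j) (v j) t := by
          simpa using (hasDerivAt_id t).smul_const (v j)
        exact (e1.sub e2).hasDerivWithinAt
      have hb : ∀ t ∈ uIcc 0 (c j), ‖g j (p' + t • b j) - v j‖ ≤ ε := by
        intro t ht
        refine hg _ ?_ j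
        have ht' : |t| ≤ |c j| := by
          have := abs_sub_left_of_mem_uIcc ht
          simpa using this
        calc ‖p' + t • b j - p‖ = ‖(p' - p) + t • b j‖ := by congr 1; abel
          _ ≤ ‖p' - p‖ + ‖t • b j‖ := norm_add_le _ _
          _ = ‖p' - p‖ + |t| * ‖b j‖ := by rw [norm_smul, Real.norm_eq_abs]
          _ ≤ ‖p' - p‖ + |c j| * ‖b j‖ := by gcongr
          _ < δ := by linarith
      have := Convex.norm_image_sub_le_of_norm_hasDerivWithin_le hd hb (convex_uIcc 0 (c j))
        left_mem_uIcc right_mem_uIcc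
      simp only [zero_smul, add_zero, sub_zero, Real.norm_eq_abs] at this
      calc ‖f (p' + c j • b j) - f p' - c j • v j‖
          = ‖f (p' + c j • b j) - c j • v j - f p'‖ := by congr 1; abel
        _ ≤ _ := this
    calc ‖f (p' + (c j • b j + ∑ i ∈ s, c i • b i)) - f p' - (c j • v j + ∑ i ∈ s, c i • v i)‖
        = ‖(f (p' + c j • b j + ∑ i ∈ s, c i • b i) - f (p' + c j • b j) - ∑ i ∈ s, c i • v i) +
          (f (p' + c j • b j) - f p' - c j • v j)‖ := by
          rw [← add_assoc]; congr 1; abel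
      _ ≤ ε * ∑ i ∈ s, |c i| + ε * |c j| := (norm_add_le _ _).trans (add_le_add h2 h1)
      _ = _ := by ring

variable [FiniteDimensional ℝ E] (b : Module.Basis ι ℝ E)

lemma exists_coord_bound : ∃ C : ℝ, 0 < C ∧ ∀ h : E, ∑ i, |b.repr h i| ≤ C * ‖h‖ ∧
    ∑ i, |b.repr h i| * ‖b i‖ ≤ C * ‖h‖ := by
  have hL : ∀ i, ∃ D : ℝ, 0 ≤ D ∧ ∀ h : E, |b.repr h i| ≤ D * ‖h‖ := by
    intro i
    obtain ⟨L, hL⟩ : ∃ L : E →L[ℝ] ℝ, ∀ h, L h = b.repr h i :=
      ⟨LinearMap.toContinuousLinearMap (b.coord i), fun h => rfl⟩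
    exact ⟨‖L‖, norm_nonneg _, fun h => by rw [← hL]; exact L.le_opNorm h⟩
  choose D hD0 hD using hL
  refine ⟨1 + ∑ i, D i + ∑ i, D i * ‖b i‖, ?_, fun h => ⟨?_, ?_⟩⟩
  · have h1 : 0 ≤ ∑ i, D i := Finset.sum_nonneg fun i _ => hD0 i
    have h2 : 0 ≤ ∑ i, D i * ‖b i‖ := Finset.sum_nonneg fun i _ => by have := hD0 i; positivity
    linarith
  · have h1 : ∑ i, |b.repr h i| ≤ (∑ i, D i) * ‖h‖ := by
      rw [Finset.sum_mul]; exact Finset.sum_le_sum fun i _ => hD i h
    have h2 : 0 ≤ ∑ i, D i * ‖b i‖ := Finset.sum_nonneg fun i _ => by have := hD0 i; positivity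
    nlinarith [norm_nonneg h]
  · have h1 : ∑ i, |b.repr h i| * ‖b i‖ ≤ (∑ i, D i * ‖b i‖) * ‖h‖ := by
      rw [Finset.sum_mul]
      refine Finset.sum_le_sum fun i _ => ?_
      have := mul_le_mul_of_nonneg_right (hD i h) (norm_nonneg (b i))
      nlinarith
    have h2 : 0 ≤ ∑ i, D i := Finset.sum_nonneg fun i _ => hD0 i
    nlinarith [norm_nonneg h]

/-- locally bounded partial derivatives imply continuity -/
lemma continuous_of_partials {f : E → W} {g : ι → E → W}
    (hf : ∀ p i, HasDerivAt (fun t : ℝ => f (p + t • b i)) (g i p) 0)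
    (hg : ∀ p, ∃ δ > 0, ∃ C : ℝ, ∀ q, ‖q - p‖ < δ → ∀ i, ‖g i q‖ ≤ C) : Continuous f := by
  obtain ⟨D, hD, hDb⟩ := exists_coord_bound b
  rw [continuous_iff_continuousAt]
  intro p
  obtain ⟨δ, hδ, C, hC⟩ := hg p
  rw [Metric.continuousAt_iff]
  intro ε hε
  refine ⟨min (δ / D) (ε / (D * (|C| + 1))), lt_min (by positivity) (by positivity), ?_⟩
  intro q hq
  rw [dist_eq_norm] at hq ⊢
  have h0 := path_bound (b := b) hf (p := p) (δ := δ) (ε := |C|) (v := 0) (fun q hq i => by
    simp only [Pi.zero_apply, sub_zero]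
    exact (hC q hq i).trans (le_abs_self C)) (fun i => b.repr (q - p) i) Finset.univ p (by
    rw [sub_self, norm_zero, zero_add]
    calc _ ≤ D * ‖q - p‖ := (hDb _).2
      _ < D * (δ / D) := mul_lt_mul_of_pos_left (hq.trans_le (min_le_left _ _)) hD
      _ = δ := by field_simp)
  rw [b.sum_repr] at h0
  simp only [Pi.zero_apply, smul_zero, Finset.sum_const_zero, sub_zero, add_sub_cancel] at h0
  calc ‖f q - f p‖ ≤ |C| * ∑ i, |b.repr (q - p) i| := h0
    _ ≤ |C| * (D * ‖q - p‖) := mul_le_mul_of_nonneg_left (hDb _).1 (abs_nonneg _)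
    _ ≤ (|C| + 1) * (D * ‖q - p‖) := by
        have : 0 ≤ D * ‖q - p‖ := by positivity
        nlinarith
    _ < (|C| + 1) * (D * (ε / (D * (|C| + 1)))) := by
        have h1 : ‖q - p‖ < ε / (D * (|C| + 1)) := hq.trans_le (min_le_right _ _)
        gcongr
    _ = ε := by field_simp

/-- continuous partial derivatives imply differentiability -/
lemma hasFDerivAt_of_partials {f : E → W} {g : ι → E → W}
    (hf : ∀ p i, HasDerivAt (fun t : ℝ => f (p + t • b i)) (g i p) 0)
    (hg : ∀ i, Continuous (g i)) (p : E) :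
    HasFDerivAt f (∑ i, (LinearMap.toContinuousLinearMap (b.coord i)).smulRight (g i p)) p := by
  obtain ⟨D, hD, hDb⟩ := exists_coord_bound b
  rw [hasFDerivAt_iff_isLittleO, Asymptotics.isLittleO_iff]
  intro ε hε
  have hev : ∀ᶠ q in 𝓝 p, ∀ i, ‖g i q - g i p‖ ≤ ε / D := by
    rw [eventually_all]
    intro i
    have := (hg i).continuousAt (x := p)
    have h2 := Metric.continuousAt_iff.1 this (ε / D) (by positivity)
    obtain ⟨δ, hδ, h⟩ := h2
    filter_upwards [Metric.ball_mem_nhds p hδ] with q hq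
    have := h hq
    rw [dist_eq_norm] at this
    exact this.le
  obtain ⟨δ, hδ, hball⟩ := Metric.eventually_nhds_iff.1 hev
  filter_upwards [Metric.ball_mem_nhds p (ε := δ / D) (by positivity)] with q hq
  rw [Metric.mem_ball, dist_eq_norm] at hq
  have h0 := path_bound (b := b) hf (p := p) (δ := δ) (ε := ε / D) (v := fun i => g i p)
    (fun q hq i => hball (by rw [dist_eq_norm]; exact hq) i)
    (fun i => b.repr (q - p) i) Finset.univ p (by
    rw [sub_self, norm_zero, zero_add]
    calc _ ≤ D * ‖q - p‖ := (hDb _).2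
      _ < D * (δ / D) := mul_lt_mul_of_pos_left hq hD
      _ = δ := by field_simp)
  rw [b.sum_repr, add_sub_cancel] at h0
  have e : (∑ i, (LinearMap.toContinuousLinearMap (b.coord i)).smulRight (g i p)) (q - p) =
      ∑ i, b.repr (q - p) i • g i p := by
    rw [_root_.sum_apply]
    rfl
  rw [e]
  calc _ ≤ ε / D * ∑ i, |b.repr (q - p) i| := h0
    _ ≤ ε / D * (D * ‖q - p‖) := mul_le_mul_of_nonneg_left (hDb _).1 (by positivity)
    _ = ε * ‖q - p‖ := by field_simp

/-- A family closed under partial derivatives and locally bounded consists of smooth functions. -/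
lemma contDiff_of_family (F : Set (E → W))
    (hbd : ∀ f ∈ F, ∀ p, ∃ δ > 0, ∃ C : ℝ, ∀ q, ‖q - p‖ < δ → ‖f q‖ ≤ C)
    (hd : ∀ f ∈ F, ∀ i, ∃ g ∈ F, ∀ p, HasDerivAt (fun t : ℝ => f (p + t • b i)) (g p) 0)
    {f : E → W} (hf : f ∈ F) : ContDiff ℝ ∞ f := by
  have hcont : ∀ f ∈ F, Continuous f := by
    intro f hf
    choose g hgF hg using hd f hf
    refine continuous_of_partials b (g := g) (fun p i => hg i p) fun p => ?_
    choose δ hδ C hC using fun i => hbd (g i) (hgF i) p
    by_cases hι : Nonempty ι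
    · obtain ⟨i0, hi0⟩ := Finite.exists_min δ
      refine ⟨δ i0, hδ i0, ∑ i, |C i|, fun q hq i => ?_⟩
      refine (hC i q (hq.trans_le (hi0 i))).trans ((le_abs_self _).trans ?_)
      exact Finset.single_le_sum (f := fun i => |C i|) (fun i _ => abs_nonneg _) (Finset.mem_univ i)
    · exact ⟨1, one_pos, 0, fun q _ i => absurd ⟨i⟩ hι⟩
  rw [contDiff_infty]
  intro n
  induction n generalizing f with
  | zero => exact contDiff_zero.2 (hcont f hf)
  | succ n ih =>
    choose g hgF hg using hd f hf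
    have h1 : ∀ p, HasFDerivAt f
        (∑ i, (LinearMap.toContinuousLinearMap (b.coord i)).smulRight (g i p)) p :=
      fun p => hasFDerivAt_of_partials b (fun p i => hg i p) (fun i => hcont _ (hgF i)) p
    have h2 : ContDiff ℝ ((n : ℕ∞ω) + 1) f := by
      rw [contDiff_succ_iff_hasFDerivAt]
      refine ⟨fun p => ∑ i, (LinearMap.toContinuousLinearMap (b.coord i)).smulRight (g i p), ?_, h1⟩
      refine ContDiff.sum fun i _ => ?_
      exact (ContinuousLinearMap.smulRightL ℝ E W
        (LinearMap.toContinuousLinearMap (b.coord i))).contDiff.comp (ih (hgF i))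
    exact_mod_cast h2

end Partials

end DtN
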