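import Pool.Agent.H14.DtN.Defs
import Pool.Agent.H14.DtN.SymAux1

/-!
Auxiliary file for module L1: mixed derivatives of members of a closed family.
-/

open Set MeasureTheory Filter Topology
open scoped ContDiff

set_option linter.unusedSectionVars false

noncomputable section

namespace DtN

variable {d : ℕ} {W : Type*} [NormedAddCommGroup W] [NormedSpace ℝ W]

/-- standard basis -/
def bE (d : ℕ) : Module.Basis (Fin d) ℝ (Eu d) := (EuclideanSpace.basisFun (Fin d) ℝ).toBasis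

lemma bE_apply (j : Fin d) : bE d j = EuclideanSpace.single j 1 := by
  unfold bE
  rw [OrthonormalBasis.coe_toBasis, EuclideanSpace.basisFun_apply]

/-- `w ↦ (coord j) ⊗ w` -/
def cL (W : Type*) [NormedAddCommGroup W] [NormedSpace ℝ W] (j : Fin d) : W →L[ℝ] (Eu d →L[ℝ] W) :=
  ContinuousLinearMap.smulRightL ℝ (Eu d) W (LinearMap.toContinuousLinearMap ((bE d).coord j))

/-- iterated derivative of a sum of compositions with linear maps -/
lemma iteratedFDeriv_sum_clm {E F G ι : Type*} [NormedAddCommGroup E] [NormedSpace ℝ E]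
    [NormedAddCommGroup F] [NormedSpace ℝ F] [NormedAddCommGroup G] [NormedSpace ℝ G]
    [Fintype ι] (L : ι → F →L[ℝ] G) (f : ι → E → F) (hf : ∀ i, ContDiff ℝ ∞ (f i)) (k : ℕ) (x : E) :
    iteratedFDeriv ℝ k (fun y => ∑ i, L i (f i y)) x =
      ∑ i, (L i).compContinuousMultilinearMap (iteratedFDeriv ℝ k (f i) x) := by
  have h1 := iteratedFDeriv_fun_sum_apply (𝕜 := ℝ) (f := fun i y => L i (f i y))
    (u := Finset.univ) (n := k) (x := x) (fun i _ =>
    ((((L i).contDiff (n := ∞)).comp (hf i)).of_le (by exact_mod_cast le_top)).contDiffAt)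
  rw [h1]
  refine Finset.sum_congr rfl fun i _ => ?_
  exact (L i).iteratedFDeriv_comp_left (n := ∞) (hf i).contDiffAt (by exact_mod_cast le_top)

lemma norm_iteratedFDeriv_sum_clm_le {E F G ι : Type*} [NormedAddCommGroup E] [NormedSpace ℝ E]
    [NormedAddCommGroup F] [NormedSpace ℝ F] [NormedAddCommGroup G] [NormedSpace ℝ G]
    [Fintype ι] (L : ι → F →L[ℝ] G) (f : ι → E → F) (hf : ∀ i, ContDiff ℝ ∞ (f i)) (k : ℕ) (x : E) :
    ‖iteratedFDeriv ℝ k (fun y => ∑ i, L i (f i y)) x‖ ≤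
      ∑ i, ‖L i‖ * ‖iteratedFDeriv ℝ k (f i) x‖ := by
  rw [iteratedFDeriv_sum_clm L f hf]
  refine (norm_sum_le _ _).trans (Finset.sum_le_sum fun i _ => ?_)
  exact (L i).norm_compContinuousMultilinearMap_le _

lemma sum_clm_facts {E F G ι : Type*} [NormedAddCommGroup E] [NormedSpace ℝ E]
    [NormedAddCommGroup F] [NormedSpace ℝ F] [NormedAddCommGroup G] [NormedSpace ℝ G]
    [Fintype ι] (L : ι → F →L[ℝ] G) :
    (∀ f : ι → E → F, (∀ i, ContDiff ℝ ∞ (f i)) → ContDiff ℝ ∞ (fun y => ∑ i, L i (f i y))) ∧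
    ∃ C : ι → ℝ, (∀ i, 0 ≤ C i) ∧ ∀ f : ι → E → F, (∀ i, ContDiff ℝ ∞ (f i)) → ∀ k x,
      ‖iteratedFDeriv ℝ k (fun y => ∑ i, L i (f i y)) x‖ ≤
      ∑ i, C i * ‖iteratedFDeriv ℝ k (f i) x‖ :=
  ⟨fun _ hf => ContDiff.sum fun i _ => (L i).contDiff.comp (hf i),
    fun i => ‖L i‖, fun _ => norm_nonneg _, fun f hf k x => norm_iteratedFDeriv_sum_clm_le L f hf k x⟩

lemma exists_curry (j : ℕ) (c : W →L[ℝ] (Eu d →L[ℝ] W)) :
    ∃ Λ : ((Eu d) [×j]→L[ℝ] W) →L[ℝ] ((Eu d) [×(j + 1)]→L[ℝ] W),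
      ∀ M, Λ M = (continuousMultilinearCurryRightEquiv' ℝ j (Eu d) W).symm
        (c.compContinuousMultilinearMap M) := by
  refine ⟨((continuousMultilinearCurryRightEquiv' ℝ j (Eu d)
    W).symm.toContinuousLinearEquiv : _ →L[ℝ] _).comp
    (ContinuousLinearMap.compContinuousMultilinearMapL ℝ (fun _ : Fin j => Eu d) W
        (Eu d →L[ℝ] W) c), fun M => ?_⟩
  rfl

lemma curry_sum (j : ℕ) (M : Fin d → ((Eu d) [×j]→L[ℝ] (Eu d →L[ℝ] W))) :
    ∑ i, (continuousMultilinearCurryRightEquiv' ℝ j (Eu d) W).symm (M i) =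
    (continuousMultilinearCurryRightEquiv' ℝ j (Eu d) W).symm (∑ i, M i) := by
  ext m
  simp only [_root_.sum_apply, continuousMultilinearCurryRightEquiv_symm_apply']

section Fam

variable (S : ℤ → AddSubgroup (Eu d → Eu d → W))
    (hbd : ∀ m, ∀ a ∈ S m, ∃ C : ℝ, ∀ x ξ, ‖a x ξ‖ ≤ C * (1 + ‖ξ‖) ^ m)
    (hx : ∀ m, ∀ a ∈ S m, ∀ j : Fin d, ∃ a' ∈ S m, ∀ x ξ,
      HasDerivAt (fun t : ℝ => a (x + t • EuclideanSpace.single j 1) ξ) (a' x ξ) 0)
    (hξ : ∀ m, ∀ a ∈ S m, ∀ j : Fin d, ∃ a' ∈ S (m - 1), ∀ x ξ,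
      HasDerivAt (fun t : ℝ => a x (ξ + t • EuclideanSpace.single j 1)) (a' x ξ) 0)

include hbd hx hξ

lemma fam_contDiff {m : ℤ} {a : Eu d → Eu d → W} (ha : a ∈ S m) :
    ContDiff ℝ ∞ (fun p : Eu d × Eu d => a p.1 p.2) := by
  refine contDiff_of_family ((bE d).prod (bE d))
    {h : Eu d × Eu d → W | ∃ m, ∃ a ∈ S m, h = fun p => a p.1 p.2} ?_ ?_ ⟨m, a, ha, rfl⟩
  · rintro _ ⟨m, a, ha, rfl⟩ p
    obtain ⟨C, hC⟩ := hbd m a ha
    have hc : Continuous fun q : Eu d × Eu d => |C| * (1 + ‖q.2‖) ^ m := by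
      refine continuous_const.mul (Continuous.zpow₀ (by fun_prop) m fun q => Or.inl ?_)
      positivity
    have h1 := (hc.continuousAt (x := p)).eventually_lt_const
      (show |C| * (1 + ‖p.2‖) ^ m < |C| * (1 + ‖p.2‖) ^ m + 1 by linarith)
    obtain ⟨δ, hδ, h⟩ := Metric.eventually_nhds_iff.1 h1
    refine ⟨δ, hδ, |C| * (1 + ‖p.2‖) ^ m + 1, fun q hq => ?_⟩
    refine (hC q.1 q.2).trans (le_trans ?_ (h (by rw [dist_eq_norm]; exact hq)).le)
    exact mul_le_mul_of_nonneg_right (le_abs_self C) (by positivity)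
  · rintro _ ⟨m, a, ha, rfl⟩ (j | j)
    · obtain ⟨a', ha', h⟩ := hx m a ha j
      refine ⟨fun p => a' p.1 p.2, ⟨m, a', ha', rfl⟩, fun p => ?_⟩
      have e1 : (((bE d).prod (bE d)) (Sum.inl j)).1 = EuclideanSpace.single j 1 := by
        rw [Module.Basis.prod_apply_inl_fst, bE_apply]
      have e2 : (((bE d).prod (bE d)) (Sum.inl j)).2 = 0 := by
        rw [Module.Basis.prod_apply_inl_snd]
      simp only [Prod.fst_add, Prod.snd_add, Prod.smul_fst, Prod.smul_snd, e1, e2, smul_zero,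
        add_zero]
      exact h p.1 p.2
    · obtain ⟨a', ha', h⟩ := hξ m a ha j
      refine ⟨fun p => a' p.1 p.2, ⟨m - 1, a', ha', rfl⟩, fun p => ?_⟩
      have e1 : (((bE d).prod (bE d)) (Sum.inr j)).2 = EuclideanSpace.single j 1 := by
        rw [Module.Basis.prod_apply_inr_snd, bE_apply]
      have e2 : (((bE d).prod (bE d)) (Sum.inr j)).1 = 0 := by
        rw [Module.Basis.prod_apply_inr_fst]
      simp only [Prod.fst_add, Prod.snd_add, Prod.smul_fst, Prod.smul_snd, e1, e2, smul_zero,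
        add_zero]
      exact h p.1 p.2

lemma fam_contDiff_left {m : ℤ} {a : Eu d → Eu d → W} (ha : a ∈ S m) (ξ : Eu d) :
    ContDiff ℝ ∞ (fun x => a x ξ) :=
  (fam_contDiff S hbd hx hξ ha).comp (contDiff_id.prodMk contDiff_const)

lemma fam_contDiff_right {m : ℤ} {a : Eu d → Eu d → W} (ha : a ∈ S m) (x : Eu d) :
    ContDiff ℝ ∞ (a x) :=
  (fam_contDiff S hbd hx hξ ha).comp (contDiff_const.prodMk contDiff_id)

lemma fam_fderiv_left {m : ℤ} {a : Eu d → Eu d → W} (ha : a ∈ S m) :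
    ∃ a' : Fin d → Eu d → Eu d → W, (∀ j, a' j ∈ S m) ∧ ∀ ξ,
      fderiv ℝ (fun x => a x ξ) = fun x => ∑ j, cL W j (a' j x ξ) := by
  choose a' ha' h using fun j => hx m a ha j
  refine ⟨a', ha', fun ξ => ?_⟩
  funext x
  refine (hasFDerivAt_of_partials (bE d) (g := fun j x => a' j x ξ) (fun p i => ?_)
    (fun i => (fam_contDiff_left S hbd hx hξ (ha' i) ξ).continuous) x).fderiv
  rw [bE_apply]
  exact h i p ξ

lemma fam_fderiv_right {m : ℤ} {a : Eu d → Eu d → W} (ha : a ∈ S m) :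
    ∃ a' : Fin d → Eu d → Eu d → W, (∀ j, a' j ∈ S (m - 1)) ∧ ∀ x,
      fderiv ℝ (a x) = fun ξ => ∑ j, cL W j (a' j x ξ) := by
  choose a' ha' h using fun j => hξ m a ha j
  refine ⟨a', ha', fun x => ?_⟩
  funext ξ
  refine (hasFDerivAt_of_partials (bE d) (g := fun j ξ => a' j x ξ) (fun p i => ?_)
    (fun i => (fam_contDiff_right S hbd hx hξ (ha' i) x).continuous) ξ).fderiv
  rw [bE_apply]
  exact h i x p

lemma fam_bound_left (k : ℕ) {m : ℤ} {a : Eu d → Eu d → W} (ha : a ∈ S m) :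
    ∃ C : ℝ, ∀ x ξ, ‖iteratedFDeriv ℝ k (fun x' => a x' ξ) x‖ ≤ C * (1 + ‖ξ‖) ^ m := by
  induction k generalizing a with
  | zero =>
    obtain ⟨C, hC⟩ := hbd m a ha
    exact ⟨C, fun x ξ => by rw [norm_iteratedFDeriv_zero]; exact hC x ξ⟩
  | succ k ih =>
    obtain ⟨a', ha', h⟩ := fam_fderiv_left S hbd hx hξ ha
    choose C hC using fun j => ih (ha' j)
    refine ⟨∑ j, ‖cL (d := d) W j‖ * C j, fun x ξ => ?_⟩
    rw [← norm_iteratedFDeriv_fderiv, h ξ]
    have hs : ∀ j : Fin d, ContDiff ℝ ∞ (fun x => a' j x ξ) := fun j =>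
      fam_contDiff_left S hbd hx hξ (ha' j) ξ
    refine (norm_iteratedFDeriv_sum_clm_le (fun j => cL W j) (fun j x => a' j x ξ) hs k x).trans ?_
    rw [Finset.sum_mul]
    refine Finset.sum_le_sum fun j _ => ?_
    rw [mul_assoc]
    exact mul_le_mul_of_nonneg_left (hC j x ξ) (norm_nonneg _)

lemma fam_mixed (j : ℕ) {m : ℤ} {a : Eu d → Eu d → W} (ha : a ∈ S m) :
    (∀ ξ, ContDiff ℝ ∞ (fun x' => iteratedFDeriv ℝ j (a x') ξ)) ∧
    ∀ k : ℕ, ∃ C : ℝ, ∀ x ξ,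
      ‖iteratedFDeriv ℝ k (fun x' => iteratedFDeriv ℝ j (a x') ξ) x‖ ≤ C * (1 + ‖ξ‖) ^ (m - j) := by
  induction j generalizing m a with
  | zero =>
    have e : ∀ ξ, (fun x' => iteratedFDeriv ℝ 0 (a x') ξ) =
        (continuousMultilinearCurryFin0 ℝ (Eu d) W).symm ∘ (fun x' => a x' ξ) := by
      intro ξ; funext x'
      rw [iteratedFDeriv_zero_eq_comp]; rfl
    constructor
    · intro ξ
      rw [e ξ]
      exact (LinearIsometryEquiv.contDiff _).comp (fam_contDiff_left S hbd hx hξ ha ξ)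
    · intro k
      obtain ⟨C, hC⟩ := fam_bound_left S hbd hx hξ k ha
      refine ⟨C, fun x ξ => ?_⟩
      rw [e ξ, LinearIsometryEquiv.norm_iteratedFDeriv_comp_left]
      simpa using hC x ξ
  | succ j ih =>
    obtain ⟨a', ha', h⟩ := fam_fderiv_right S hbd hx hξ ha
    choose Λ hΛ using fun i : Fin d => exists_curry j (cL (d := d) W i)
    have e : ∀ ξ, (fun x' => iteratedFDeriv ℝ (j + 1) (a x') ξ) =
        (fun x' => ∑ i, Λ i (iteratedFDeriv ℝ j (a' i x') ξ)) := by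
      intro ξ; funext x'
      rw [iteratedFDeriv_succ_eq_comp_right]
      simp only [Function.comp_apply, hΛ]
      refine Eq.trans ?_ (curry_sum j _).symm
      congr 1
      have e2 : (fun y => fderiv ℝ (a x') y) = fun ξ => ∑ i, cL W i (a' i x' ξ) := h x'
      rw [e2]
      exact iteratedFDeriv_sum_clm (fun i => cL W i) (fun i => a' i x')
        (fun i => fam_contDiff_right S hbd hx hξ (ha' i) x') j ξ
    obtain ⟨hΛ1, D, hD0, hDΛ⟩ := sum_clm_facts (E := Eu d) (F := (Eu d) [×j]→L[ℝ] W)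
      (G := (Eu d) [×(j + 1)]→L[ℝ] W) Λ
    have hsm : ∀ i ξ, ContDiff ℝ ∞ (fun x' => iteratedFDeriv ℝ j (a' i x') ξ) := fun i ξ =>
      (ih (ha' i)).1 ξ
    constructor
    · intro ξ
      rw [e ξ]
      exact hΛ1 (fun i x' => iteratedFDeriv ℝ j (a' i x') ξ) (fun i => hsm i ξ)
    · intro k
      choose C hC using fun i => (ih (ha' i)).2 k
      refine ⟨∑ i, D i * C i, fun x ξ => ?_⟩
      rw [e ξ]
      refine (hDΛ (fun i x' => iteratedFDeriv ℝ j (a' i x') ξ) (fun i => hsm i ξ) k x).trans ?_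
      rw [Finset.sum_mul]
      refine Finset.sum_le_sum fun i _ => ?_
      rw [mul_assoc]
      refine mul_le_mul_of_nonneg_left ?_ (hD0 i)
      have := hC i x ξ
      rwa [show m - 1 - (j : ℤ) = m - ((j + 1 : ℕ) : ℤ) by push_cast; ring] at this

end Fam

end DtN
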