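import Pool.Agent.H14.DtN.Defs

/-!
Auxiliary file for module L2: an abstract representation lemma.
-/

open Set MeasureTheory Filter Topology
open scoped ContDiff FourierTransform

noncomputable section

namespace DtN

/-- factorisation of a functional through a jet map -/
lemma exists_factor_sym {P X W : Type*} [AddCommGroup P] [Module ℝ P] [NormedAddCommGroup X]
    [NormedSpace ℝ X] [NormedAddCommGroup W] [NormedSpace ℝ W] [FiniteDimensional ℝ W]
    (J : P →ₗ[ℝ] X) (l : P →ₗ[ℝ] W) (C : ℝ) (hl : ∀ f, ‖l f‖ ≤ C * ‖J f‖) :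
    ∃ Λ : X →L[ℝ] W, ∀ f, Λ (J f) = l f := by
  obtain ⟨s, hs⟩ := J.rangeRestrict.exists_rightInverse_of_surjective
    (LinearMap.range_rangeRestrict J)
  have hJs : ∀ y, J (s y) = y := fun y => by
    have := LinearMap.congr_fun hs y
    simpa using congrArg Subtype.val this
  have h1 : ∀ f, l (s (J.rangeRestrict f)) = l f := by
    intro f
    have h0 : J (s (J.rangeRestrict f) - f) = 0 := by
      rw [map_sub, hJs]; simp
    have h2 := hl (s (J.rangeRestrict f) - f)
    rw [h0, norm_zero, mul_zero, map_sub] at h2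
    exact sub_eq_zero.1 (norm_le_zero_iff.1 h2)
  let Λ₀ : (LinearMap.range J) →L[ℝ] W := LinearMap.mkContinuous (l ∘ₗ s) C (fun y => by
    have := hl (s y)
    rwa [hJs] at this)
  obtain ⟨Λ, hΛ⟩ := ContinuousLinearMap.exist_extension_of_finiteDimensional_range Λ₀
  refine ⟨Λ, fun f => ?_⟩
  have h2 := DFunLike.congr_fun hΛ (J.rangeRestrict f)
  have h3 : Λ₀ (J.rangeRestrict f) = l (s (J.rangeRestrict f)) := rfl
  rw [h3, h1] at h2
  exact h2.symm

lemma abs_rep {P X W T : Type*} [AddCommGroup P] [Module ℝ P] [NormedAddCommGroup X]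
    [NormedSpace ℝ X] [CompleteSpace X] [NormedAddCommGroup W] [NormedSpace ℝ W]
    [FiniteDimensional ℝ W] [MeasurableSpace T] (μ : Measure T)
    (J : P →ₗ[ℝ] X) (l : P →ₗ[ℝ] W) (C : ℝ) (hl : ∀ f, ‖l f‖ ≤ C * ‖J f‖)
    (Φ : T → P) (hΦ : Integrable (fun t => J (Φ t)) μ) (g : P) (hg : J g = ∫ t, J (Φ t) ∂μ) :
    l g = ∫ t, l (Φ t) ∂μ := by
  obtain ⟨Λ, hΛ⟩ := exists_factor_sym J l C hl
  have : CompleteSpace W := FiniteDimensional.complete ℝ W
  rw [← hΛ g, hg, ← Λ.integral_comp_comm hΦ]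
  simp only [hΛ]

lemma jet_rep {P W : Type*} [AddCommGroup P] [Module ℝ P] [NormedAddCommGroup W] [NormedSpace ℝ W]
    [FiniteDimensional ℝ W] {ι K : Type*} [Fintype ι] [TopologicalSpace K] [CompactSpace K]
    {F : ι → Type*} [∀ j, NormedAddCommGroup (F j)] [∀ j, NormedSpace ℝ (F j)]
    [∀ j, CompleteSpace (F j)]
    (D : ∀ j, P → K → F j) (hDc : ∀ j f, Continuous (D j f))
    (hDadd : ∀ j f g x, D j (f + g) x = D j f x + D j g x)
    (hDsmul : ∀ j (c : ℝ) f x, D j (c • f) x = c • D j f x)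
    (l : P →ₗ[ℝ] W) (C : ℝ) (hl : ∀ f B, (∀ j x, ‖D j f x‖ ≤ B) → ‖l f‖ ≤ C * B)
    {T : Type*} [TopologicalSpace T] [SecondCountableTopology T] [MeasurableSpace T] [BorelSpace T]
    (μ : Measure T) (Φ : T → P)
    (hΦc : ∀ j, Continuous (fun p : T × K => D j (Φ p.1) p.2))
    (b : ι → T → ℝ) (hb : ∀ j, Integrable (b j) μ) (hbb : ∀ j t x, ‖D j (Φ t) x‖ ≤ b j t)
    (g : P) (hg : ∀ j x, D j g x = ∫ t, D j (Φ t) x ∂μ) : l g = ∫ t, l (Φ t) ∂μ := by
  let J : P →ₗ[ℝ] (∀ j, C(K, F j)) :=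
    { toFun := fun f j => ⟨D j f, hDc j f⟩
      map_add' := fun f g => by
        funext j; ext x; exact hDadd j f g x
      map_smul' := fun c f => by
        funext j; ext x; exact hDsmul j c f x }
  have hJ : ∀ f j x, J f j x = D j f x := fun f j x => rfl
  have hint : Integrable (fun t => J (Φ t)) μ := by
    have hcont : Continuous (fun t => J (Φ t)) := by
      refine continuous_pi fun j => ?_
      exact ContinuousMap.continuous_of_continuous_uncurry _ (hΦc j)
    have hbI : Integrable (fun t => ∑ j, |b j t|) μ := integrable_finsetSum _ fun j _ => (hb j).abs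
    refine hbI.mono' hcont.aestronglyMeasurable (Eventually.of_forall fun t => ?_)
    refine (pi_norm_le_iff_of_nonneg (Finset.sum_nonneg fun j _ => abs_nonneg _)).2 fun j => ?_
    refine (ContinuousMap.norm_le _ (Finset.sum_nonneg fun j _ => abs_nonneg _)).2 fun x => ?_
    refine ((hbb j t x).trans (le_abs_self _)).trans ?_
    exact Finset.single_le_sum (f := fun j => |b j t|) (fun i _ => abs_nonneg _) (Finset.mem_univ j)
  refine abs_rep μ J l C (fun f => hl f _ fun j x => ?_) Φ hint g ?_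
  · exact (ContinuousMap.norm_coe_le_norm (J f j) x).trans (norm_le_pi_norm (J f) j)
  · funext j
    ext x
    have h1 : (∫ t, J (Φ t) ∂μ) j = ∫ t, J (Φ t) j ∂μ :=
      ((ContinuousLinearMap.proj (R := ℝ) (φ := fun j => C(K, F j)) j).integral_comp_comm hint).symm
    have hint2 : Integrable (fun t => J (Φ t) j) μ :=
      (ContinuousLinearMap.proj (R := ℝ) (φ := fun j => C(K, F j)) j).integrable_comp hint
    have h2 : (∫ t, J (Φ t) j ∂μ) x = ∫ t, J (Φ t) j x ∂μ :=
      ((ContinuousMap.evalCLM ℝ x).integral_comp_comm hint2).symm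
    rw [h1, h2, hJ, hg]
    rfl

end DtN
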