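import Pool.Agent.H14.DtN.Defs
import Pool.Agent.H14.DtN.SymAux3

/-!
Auxiliary file for module L2: the Fourier representation.
-/

open Set MeasureTheory Filter Topology
open scoped ContDiff FourierTransform ComplexConjugate Manifold

noncomputable section

namespace DtN

variable {d : ℕ}

/-- The exponential `x ↦ exp (2 π i ⟨x, ξ⟩)`. -/
def sexp (ξ : Eu d) (x : Eu d) : ℂ := Complex.exp (2 * Real.pi * (inner ℝ x ξ : ℝ) * Complex.I)

/-- minus the inner product -/
def nin (d : ℕ) : Eu d →L[ℝ] Eu d →L[ℝ] ℝ := -innerSL ℝ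

lemma nin_apply (ξ x : Eu d) : nin d ξ x = - (inner ℝ x ξ : ℝ) := by
  unfold nin
  rw [neg_apply, neg_apply, innerSL_apply_apply,
    real_inner_comm]

lemma fourierChar_nin (ξ x : Eu d) : ((Real.fourierChar (-nin d ξ x) : Circle) : ℂ) = sexp ξ x := by
  rw [nin_apply, neg_neg, Real.fourierChar_apply, sexp]
  push_cast
  ring_nf

section Rep

variable {V : Type*} [NormedAddCommGroup V] [NormedSpace ℂ V]

lemma contDiff_sexp (ξ : Eu d) : ContDiff ℝ ∞ (sexp ξ) := by
  unfold sexp
  refine ContDiff.cexp ?_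
  refine ContDiff.mul (ContDiff.mul contDiff_const ?_) contDiff_const
  exact Complex.ofRealCLM.contDiff.comp (contDiff_id.inner ℝ contDiff_const)

lemma contDiff_sexp_smul (ξ : Eu d) (v : V) : ContDiff ℝ ∞ (fun x => sexp ξ x • v) :=
  (contDiff_sexp ξ).smul contDiff_const

lemma fourierIntegral_dirac [CompleteSpace V] (f : Eu d → V) (ξ w : Eu d) :
    VectorFourier.fourierIntegral 𝐞 (Measure.dirac ξ) (nin d).toLinearMap₁₂ f w =
      sexp ξ w • f ξ := by
  rw [VectorFourier.fourierIntegral, integral_dirac]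
  have := fourierChar_nin ξ w
  rw [Circle.smul_def, ← this]
  rfl

lemma iteratedFDeriv_sexp_smul [CompleteSpace V] (f : Eu d → V) (ξ x : Eu d) (n : ℕ) :
    iteratedFDeriv ℝ n (fun x => sexp ξ x • f ξ) x =
      Real.fourierChar (-nin d ξ x) • VectorFourier.fourierPowSMulRight (nin d) f ξ n := by
  have h0 : (fun x => sexp ξ x • f ξ) =
      VectorFourier.fourierIntegral 𝐞 (Measure.dirac ξ) (nin d).toLinearMap₁₂ f := by
    funext w
    rw [fourierIntegral_dirac]
  have h1 : ∀ m : ℕ, (m : ℕ∞) ≤ ⊤ → Integrable (fun v => ‖v‖ ^ m * ‖f v‖) (Measure.dirac ξ) :=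
    fun m _ => integrable_dirac (by exact enorm_lt_top)
  rw [h0, VectorFourier.iteratedFDeriv_fourierIntegral (N := ⊤) (nin d) h1
    aestronglyMeasurable_dirac le_top, VectorFourier.fourierIntegral, integral_dirac]
  rfl

/-- smooth functions -/
def smoothSub (d : ℕ) (V : Type*) [NormedAddCommGroup V] [NormedSpace ℂ V] :
    Submodule ℝ (Eu d → V) where
  carrier := {f | ContDiff ℝ ∞ f}
  add_mem' := fun {f g} (hf : ContDiff ℝ ∞ f) (hg : ContDiff ℝ ∞ g) => hf.add hg
  zero_mem' := (contDiff_const (c := (0 : V)) : ContDiff ℝ ∞ (fun _ : Eu d => (0 : V)))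
  smul_mem' := fun c f (hf : ContDiff ℝ ∞ f) => (contDiff_const (c := c)).smul hf

theorem fourier_rep_aux [FiniteDimensional ℂ V]
    {W : Type*} [NormedAddCommGroup W] [NormedSpace ℂ W] [FiniteDimensional ℂ W]
    (l : (Eu d → V) → W)
    (hadd : ∀ f g : Eu d → V, ContDiff ℝ ∞ f → ContDiff ℝ ∞ g → l (f + g) = l f + l g)
    (hsmul : ∀ (c : ℂ) (f : Eu d → V), ContDiff ℝ ∞ f → l (c • f) = c • l f)
    (K : Set (Eu d)) (hK : IsCompact K) (r : ℕ) (C : ℝ)
    (hbd : ∀ f : Eu d → V, ContDiff ℝ ∞ f → ∀ B : ℝ,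
      (∀ j ≤ r, ∀ x ∈ K, ‖iteratedFDeriv ℝ j f x‖ ≤ B) → ‖l f‖ ≤ C * B)
    (u : SchwartzMap (Eu d) V) :
    l u = ∫ ξ, l (fun x => sexp ξ x • 𝓕 (u : Eu d → V) ξ) := by
  have : CompleteSpace V := FiniteDimensional.complete ℂ V
  have : CompactSpace K := isCompact_iff_compactSpace.1 hK
  have : FiniteDimensional ℝ W := FiniteDimensional.complexToReal W
  let û : SchwartzMap (Eu d) V := 𝓕 u
  have hû : ∀ ξ, 𝓕 (u : Eu d → V) ξ = û ξ := fun ξ => rfl
  -- Fourier inversion
  have hinv : (u : Eu d → V) = VectorFourier.fourierIntegral 𝐞 volume (nin d).toLinearMap₁₂ û := by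
    have h1 : (𝓕⁻ û : SchwartzMap (Eu d) V) = u := FourierTransform.fourierInv_fourier_eq u
    have h2 : (u : Eu d → V) = 𝓕⁻ (û : Eu d → V) := by
      rw [← SchwartzMap.fourierInv_coe, h1]
    rw [h2]
    funext x
    rw [Real.fourierInv_eq, VectorFourier.fourierIntegral]
    refine integral_congr_ae (Eventually.of_forall fun ξ => ?_)
    have : (nin d).toLinearMap₁₂ ξ x = nin d ξ x := rfl
    simp only [this, nin_apply, neg_neg]
    rw [real_inner_comm]
  let lP : smoothSub d V →ₗ[ℝ] W :=
    { toFun := fun f => l f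
      map_add' := fun f g => hadd f g f.2 g.2
      map_smul' := fun c f => by
        have := hsmul c f f.2
        rwa [Complex.coe_smul, Complex.coe_smul] at this }
  have key := jet_rep (ι := Fin (r + 1)) (K := K) (F := fun j => (Eu d) [×(j : ℕ)]→L[ℝ] V)
    (fun j (f : smoothSub d V) (x : K) => iteratedFDeriv ℝ j (f : Eu d → V) x)
    ?_ ?_ ?_ lP C ?_ volume (fun ξ => ⟨fun x => sexp ξ x • û ξ, contDiff_sexp_smul ξ (û ξ)⟩)
    ?_ (fun j ξ => (2 * Real.pi * ‖nin d‖) ^ (j : ℕ) * (‖ξ‖ ^ (j : ℕ) * ‖û ξ‖)) ?_ ?_ ⟨u, u.smooth ⊤⟩ ?_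
  · exact key
  · intro j f
    have hf : ContDiff ℝ ∞ (f : Eu d → V) := f.2
    exact (hf.continuous_iteratedFDeriv (m := (j : ℕ)) (by exact_mod_cast le_top)).comp
      continuous_subtype_val
  · intro j f g x
    have hf : ContDiff ℝ ∞ (f : Eu d → V) := f.2
    have hg : ContDiff ℝ ∞ (g : Eu d → V) := g.2
    exact iteratedFDeriv_add_apply (hf.of_le (by exact_mod_cast le_top)).contDiffAt
      (hg.of_le (by exact_mod_cast le_top)).contDiffAt
  · intro j c f x
    have hf : ContDiff ℝ ∞ (f : Eu d → V) := f.2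
    exact iteratedFDeriv_const_smul_apply (hf.of_le (by exact_mod_cast le_top)).contDiffAt
  · intro f B hB
    exact hbd f f.2 B fun j hj x hx => hB ⟨j, Nat.lt_succ_of_le hj⟩ ⟨x, hx⟩
  · intro j
    have h1 : Continuous fun p : Eu d × K => Real.fourierChar (-nin d p.1 p.2) •
        VectorFourier.fourierPowSMulRight (nin d) û p.1 j := by
      have h2 : Continuous fun p : Eu d × K =>
          VectorFourier.fourierPowSMulRight (nin d) û p.1 j :=
        (Continuous.fourierPowSMulRight (nin d) û.continuous j).comp continuous_fst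
      have h3 : Continuous fun p : Eu d × K =>
          ((Real.fourierChar (-nin d p.1 p.2) : Circle) : ℂ) := by
        refine continuous_subtype_val.comp (Real.continuous_fourierChar.comp ?_)
        refine Continuous.neg ?_
        exact ((nin d).continuous.comp continuous_fst).clm_apply
          (continuous_subtype_val.comp continuous_snd)
      exact h3.smul h2
    refine h1.congr fun p => ?_
    exact (iteratedFDeriv_sexp_smul û p.1 p.2 j).symm
  · intro j
    exact (û.integrable_pow_mul volume j).const_mul _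
  · intro j ξ x
    have h1 := iteratedFDeriv_sexp_smul û ξ x j
    have h2 := VectorFourier.norm_fourierPowSMulRight_le (nin d) û ξ j
    refine (le_of_eq (congrArg norm h1)).trans ?_
    rw [Circle.norm_smul]
    refine h2.trans (le_of_eq (by ring))
  · intro j x
    have h1 := VectorFourier.iteratedFDeriv_fourierIntegral (N := ⊤) (nin d)
      (fun m _ => û.integrable_pow_mul volume m) û.continuous.aestronglyMeasurable
      (n := (j : ℕ)) le_top
    rw [← hinv] at h1
    have h2 := congrFun h1 x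
    rw [VectorFourier.fourierIntegral] at h2
    refine h2.trans (integral_congr_ae (Eventually.of_forall fun ξ => ?_))
    exact (iteratedFDeriv_sexp_smul û ξ x j).symm

end Rep

end DtN
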