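import Pool.Agent.H14.DtN.Defs
import Pool.Agent.H14.DtN.SymAux4

/-!
Auxiliary file for module L2: differentiating a functional along exponentials.
-/

open Set MeasureTheory Filter Topology
open scoped ContDiff FourierTransform ComplexConjugate Manifold

noncomputable section

namespace DtN

variable {d : ℕ}

/-- `exp (2 π i s) - 1 - 2 π i s` -/
def psi (s : ℝ) : ℂ := Complex.exp (2 * Real.pi * s * Complex.I) - 1 - 2 * Real.pi * s * Complex.I

lemma contDiff_psi : ContDiff ℝ ∞ psi := by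
  unfold psi
  have h : ContDiff ℝ ∞ (fun s : ℝ => (2 * Real.pi * s * Complex.I : ℂ)) :=
    (contDiff_const.mul Complex.ofRealCLM.contDiff).mul contDiff_const
  exact (h.cexp.sub contDiff_const).sub h

lemma hasDerivAt_psi (s : ℝ) : HasDerivAt psi
    (2 * Real.pi * Complex.I * (Complex.exp (2 * Real.pi * s * Complex.I) - 1)) s := by
  have h : HasDerivAt (fun s : ℝ => (2 * Real.pi * s * Complex.I : ℂ))
      (2 * Real.pi * Complex.I) s := by
    have h1 : HasDerivAt (fun s : ℝ => (s : ℂ)) 1 s := Complex.ofRealCLM.hasDerivAt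
    have := (h1.const_mul (2 * Real.pi : ℂ)).mul_const Complex.I
    simpa using this
  have := (h.cexp.sub_const 1).sub h
  refine this.congr_deriv ?_
  ring

lemma hle (m : ℕ) : (m : ℕ∞ω) ≤ ∞ := by exact_mod_cast le_top

lemma psi_bound (i : ℕ) : ∃ M : ℝ, 0 ≤ M ∧ ∀ s : ℝ, 2 * Real.pi * |s| ≤ 1 →
    ‖iteratedFDeriv ℝ i psi s‖ ≤ M * |s| ^ (2 - i) := by
  have hn : ∀ s : ℝ, ‖(2 * Real.pi * s * Complex.I : ℂ)‖ = 2 * Real.pi * |s| := by
    intro s
    rw [norm_mul, Complex.norm_I, mul_one, norm_mul, norm_mul, Complex.norm_real, Complex.norm_real,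
      Real.norm_eq_abs, Real.norm_eq_abs, abs_of_pos Real.pi_pos]
    simp
  match i with
  | 0 =>
    refine ⟨(2 * Real.pi) ^ 2, by positivity, fun s hs => ?_⟩
    rw [norm_iteratedFDeriv_zero]
    have := Complex.norm_exp_sub_one_sub_id_le (x := 2 * Real.pi * s * Complex.I)
      (by rw [hn]; exact hs)
    rw [hn] at this
    calc ‖psi s‖ ≤ (2 * Real.pi * |s|) ^ 2 := this
      _ = _ := by ring
  | 1 =>
    refine ⟨2 * Real.pi * (2 * (2 * Real.pi)), by positivity, fun s hs => ?_⟩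
    rw [norm_iteratedFDeriv_one, ← norm_deriv_eq_norm_fderiv, (hasDerivAt_psi s).deriv]
    have := Complex.norm_exp_sub_one_le (x := 2 * Real.pi * s * Complex.I)
      (by rw [hn]; exact hs)
    rw [hn] at this
    rw [norm_mul]
    have h1 : ‖(2 * Real.pi * Complex.I : ℂ)‖ = 2 * Real.pi := by
      have := hn 1
      simpa using this
    rw [h1]
    calc 2 * Real.pi * ‖Complex.exp (2 * Real.pi * s * Complex.I) - 1‖ ≤
        2 * Real.pi * (2 * (2 * Real.pi * |s|)) := by gcongr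
      _ = _ := by ring
  | (i + 2) =>
    obtain ⟨M, hM⟩ := (isCompact_Icc (a := (-1 : ℝ)) (b := 1)).exists_bound_of_continuousOn
      (f := fun s => iteratedFDeriv ℝ (i + 2) psi s)
      (contDiff_psi.continuous_iteratedFDeriv (m := i + 2)
        (hle (i + 2))).continuousOn
    refine ⟨|M|, abs_nonneg _, fun s hs => ?_⟩
    have h1 : |s| ≤ 1 := by
      have := Real.pi_gt_three
      nlinarith [abs_nonneg s]
    have := hM s ⟨(abs_le.1 h1).1, (abs_le.1 h1).2⟩
    simp only [Nat.sub_eq_zero_of_le (show 2 ≤ i + 2 by omega), pow_zero, mul_one]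
    exact this.trans (le_abs_self M)

lemma psi_comp_bound (c : Eu d →L[ℝ] ℝ) (ρ : ℝ) (hρ : 0 ≤ ρ) (i : ℕ) : ∃ M : ℝ, 0 ≤ M ∧
    ∀ t : ℝ, |t| ≤ 1 → 2 * Real.pi * (|t| * ρ) ≤ 1 → ∀ x : Eu d, |c x| ≤ ρ →
    ‖iteratedFDeriv ℝ i (fun x => psi (t * c x)) x‖ ≤ M * t ^ 2 := by
  obtain ⟨M, hM0, hM⟩ := psi_bound i
  refine ⟨M * ρ ^ (2 - i) * ‖c‖ ^ i, by positivity, fun t ht htρ x hx => ?_⟩
  have e : (fun x => psi (t * c x)) = psi ∘ (t • c) := rfl
  rw [e, ContinuousLinearMap.iteratedFDeriv_comp_right (n := ∞) _ contDiff_psi _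
    (by exact_mod_cast le_top)]
  refine (ContinuousMultilinearMap.norm_compContinuousLinearMap_le _ _).trans ?_
  rw [Finset.prod_const, Finset.card_univ, Fintype.card_fin]
  have h1 : |(t • c) x| ≤ |t| * ρ := by
    rw [smul_apply, smul_eq_mul, abs_mul]
    exact mul_le_mul_of_nonneg_left hx (abs_nonneg _)
  have h2 := hM ((t • c) x) (le_trans (by gcongr) htρ)
  have h3 : ‖t • c‖ ^ i = |t| ^ i * ‖c‖ ^ i := by rw [norm_smul, Real.norm_eq_abs, mul_pow]
  rw [h3]
  have h4 : |t| ^ ((2 - i) + i) ≤ |t| ^ 2 := pow_le_pow_of_le_one (abs_nonneg _) ht (by omega)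
  calc _ ≤ (M * |(t • c) x| ^ (2 - i)) * (|t| ^ i * ‖c‖ ^ i) := by gcongr
    _ ≤ (M * (|t| * ρ) ^ (2 - i)) * (|t| ^ i * ‖c‖ ^ i) := by gcongr
    _ = (M * ρ ^ (2 - i) * ‖c‖ ^ i) * |t| ^ ((2 - i) + i) := by rw [mul_pow, pow_add]; ring
    _ ≤ (M * ρ ^ (2 - i) * ‖c‖ ^ i) * |t| ^ 2 := by gcongr
    _ = _ := by rw [sq_abs]

theorem hasDerivAt_functional_aux {V : Type*} [NormedAddCommGroup V] [NormedSpace ℂ V]
    {W : Type*} [NormedAddCommGroup W] [NormedSpace ℂ W]
    (l : (Eu d → V) → W)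
    (hadd : ∀ f g : Eu d → V, ContDiff ℝ ∞ f → ContDiff ℝ ∞ g → l (f + g) = l f + l g)
    (hsmul : ∀ (c : ℂ) (f : Eu d → V), ContDiff ℝ ∞ f → l (c • f) = c • l f)
    (K : Set (Eu d)) (hK : IsCompact K) (r : ℕ) (C : ℝ)
    (hbd : ∀ f : Eu d → V, ContDiff ℝ ∞ f → ∀ B : ℝ,
      (∀ j ≤ r, ∀ x ∈ K, ‖iteratedFDeriv ℝ j f x‖ ≤ B) → ‖l f‖ ≤ C * B)
    (v : V) (ξ : Eu d) (j : Fin d) :
    HasDerivAt (fun t : ℝ => l (fun x => sexp (ξ + t • EuclideanSpace.single j 1) x • v))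
      (l (fun x => (2 * Real.pi * (x j : ℝ) * Complex.I * sexp ξ x : ℂ) • v)) 0 := by
  classical
  -- the coordinate
  obtain ⟨c, hc⟩ : ∃ c : Eu d →L[ℝ] ℝ, ∀ x, c x = x j := ⟨EuclideanSpace.proj j, fun x => rfl⟩
  obtain ⟨ρ, hρ0, hρ⟩ : ∃ ρ : ℝ, 0 ≤ ρ ∧ ∀ x ∈ K, |c x| ≤ ρ := by
    obtain ⟨ρ, hρ⟩ := hK.exists_bound_of_continuousOn (f := c) c.continuous.continuousOn
    exact ⟨|ρ|, abs_nonneg _, fun x hx => by
      rw [← Real.norm_eq_abs]; exact (hρ x hx).trans (le_abs_self _)⟩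
  have hsplit : ∀ (t : ℝ) (x : Eu d), sexp (ξ + t • EuclideanSpace.single j 1) x =
      Complex.exp (2 * Real.pi * ((t * c x : ℝ) : ℂ) * Complex.I) * sexp ξ x := by
    intro t x
    have h1 : (inner ℝ x (ξ + t • EuclideanSpace.single j 1) : ℝ) = t * c x + inner ℝ x ξ := by
      rw [inner_add_right, inner_smul_right, EuclideanSpace.inner_single_right, hc]
      simp
      ring
    unfold sexp
    rw [← Complex.exp_add, h1]
    congr 1
    push_cast
    ring
  set f0 : Eu d → V := fun x => sexp ξ x • v with hf0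
  set f1 : Eu d → V := fun x => (2 * Real.pi * (x j : ℝ) * Complex.I * sexp ξ x : ℂ) • v with hf1
  have hf0s : ContDiff ℝ ∞ f0 := contDiff_sexp_smul ξ v
  have hf1s : ContDiff ℝ ∞ f1 := by
    refine ContDiff.smul (ContDiff.mul ?_ (contDiff_sexp ξ)) contDiff_const
    refine ContDiff.mul (ContDiff.mul contDiff_const ?_) contDiff_const
    have : (fun x : Eu d => ((x j : ℝ) : ℂ)) = fun x => ((c x : ℝ) : ℂ) := by
      funext x; rw [hc]
    rw [this]
    exact Complex.ofRealCLM.contDiff.comp c.contDiff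
  -- the remainder
  have hps : ∀ t : ℝ, ContDiff ℝ ∞ (fun x => psi (t * c x)) := fun t =>
    contDiff_psi.comp (contDiff_const.mul c.contDiff)
  have hrem : ∀ t : ℝ, l (fun x => sexp (ξ + t • EuclideanSpace.single j 1) x • v) - l f0 -
      t • l f1 = l (fun x => psi (t * c x) • f0 x) := by
    intro t
    have h1 : (fun x => sexp (ξ + t • EuclideanSpace.single j 1) x • v) =
        ((fun x => psi (t * c x) • f0 x) + f0) + (t : ℂ) • f1 := by
      funext x
      simp only [Pi.add_apply, Pi.smul_apply, hf0, hf1, hsplit, ← smul_assoc, ← add_smul]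
      congr 1
      unfold psi
      rw [← hc x]
      simp only [smul_eq_mul]
      push_cast
      ring
    have h2 : ContDiff ℝ ∞ (fun x => psi (t * c x) • f0 x) := (hps t).smul hf0s
    have h3 : ContDiff ℝ ∞ ((t : ℂ) • f1) := (contDiff_const (c := (t : ℂ))).smul hf1s
    have h4 : ContDiff ℝ ∞ ((fun x => psi (t * c x) • f0 x) + f0) := h2.add hf0s
    rw [h1, hadd _ _ h4 h3, hadd _ _ h2 hf0s, hsmul _ _ hf1s, Complex.coe_smul]
    abel
  -- bounds
  choose M hM0 hM using fun i => psi_comp_bound c ρ hρ0 i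
  obtain ⟨D, hD⟩ : ∃ D : ℕ → ℝ, ∀ i, ∀ x ∈ K, ‖iteratedFDeriv ℝ i f0 x‖ ≤ D i := by
    have : ∀ i, ∃ D : ℝ, ∀ x ∈ K, ‖iteratedFDeriv ℝ i f0 x‖ ≤ D := fun i =>
      hK.exists_bound_of_continuousOn (hf0s.continuous_iteratedFDeriv (hle i)).continuousOn
    choose D hD using this
    exact ⟨D, hD⟩
  set N : ℝ := ∑ n ∈ Finset.range (r + 1), ∑ i ∈ Finset.range (n + 1),
    (n.choose i : ℝ) * M i * |D (n - i)| with hN
  have hN0 : 0 ≤ N := Finset.sum_nonneg fun n _ => Finset.sum_nonneg fun i _ => by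
    have := hM0 i; positivity
  have hbound : ∀ t : ℝ, |t| ≤ 1 → 2 * Real.pi * (|t| * ρ) ≤ 1 →
      ‖l (fun x => psi (t * c x) • f0 x)‖ ≤ |C| * N * t ^ 2 := by
    intro t ht htρ
    have h1 : ‖l (fun x => psi (t * c x) • f0 x)‖ ≤ C * (N * t ^ 2) := by
      refine hbd _ ((hps t).smul hf0s) _ fun n hn x hx => ?_
      refine (norm_iteratedFDeriv_smul_le (hps t) hf0s x (hle n)).trans ?_
      calc _ ≤ ∑ i ∈ Finset.range (n + 1), (n.choose i : ℝ) * M i * |D (n - i)| * t ^ 2 := by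
            refine Finset.sum_le_sum fun i _ => ?_
            have h2 := hM i t ht htρ x (hρ x hx)
            have h3 := (hD (n - i) x hx).trans (le_abs_self _)
            have h4 := hM0 i
            calc _ ≤ (n.choose i : ℝ) * (M i * t ^ 2) * |D (n - i)| := by gcongr
              _ = _ := by ring
        _ = (∑ i ∈ Finset.range (n + 1), (n.choose i : ℝ) * M i * |D (n - i)|) * t ^ 2 := by
            rw [Finset.sum_mul]
        _ ≤ N * t ^ 2 := by
            refine mul_le_mul_of_nonneg_right ?_ (sq_nonneg t)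
            exact Finset.single_le_sum (f := fun n => ∑ i ∈ Finset.range (n + 1),
              (n.choose i : ℝ) * M i * |D (n - i)|) (fun n _ => Finset.sum_nonneg fun i _ => by
                have := hM0 i; positivity) (Finset.mem_range.2 (by omega))
    calc _ ≤ C * (N * t ^ 2) := h1
      _ ≤ |C| * (N * t ^ 2) := by gcongr; exact le_abs_self C
      _ = _ := by ring
  rw [hasDerivAt_iff_isLittleO, Asymptotics.isLittleO_iff]
  intro ε hε
  have hz : (fun x => sexp (ξ + (0 : ℝ) • EuclideanSpace.single j 1) x • v) = f0 := by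
    rw [zero_smul, add_zero]
  have e1 : ∀ᶠ t : ℝ in 𝓝 0, |t| ≤ 1 ∧ 2 * Real.pi * (|t| * ρ) ≤ 1 ∧ |C| * N * |t| ≤ ε := by
    have c1 : Tendsto (fun t : ℝ => |t|) (𝓝 0) (𝓝 0) := by
      simpa using (continuous_abs (G := ℝ)).tendsto 0
    have c2 : Tendsto (fun t : ℝ => 2 * Real.pi * (|t| * ρ)) (𝓝 0) (𝓝 0) := by
      simpa using (c1.mul_const ρ).const_mul (2 * Real.pi)
    have c3 : Tendsto (fun t : ℝ => |C| * N * |t|) (𝓝 0) (𝓝 0) := by
      simpa using c1.const_mul (|C| * N)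
    filter_upwards [c1.eventually_le_const one_pos, c2.eventually_le_const one_pos,
      c3.eventually_le_const hε] with t h1 h2 h3
    exact ⟨h1, h2, h3⟩
  filter_upwards [e1] with t ht
  rw [hz, sub_zero, hrem]
  calc _ ≤ |C| * N * t ^ 2 := hbound t ht.1 ht.2.1
    _ = (|C| * N * |t|) * |t| := by rw [← sq_abs]; ring
    _ ≤ ε * |t| := mul_le_mul_of_nonneg_right ht.2.2 (abs_nonneg _)
    _ = ε * ‖t‖ := by rw [Real.norm_eq_abs]

end DtN
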