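import Pool.Agent.H14.DtN.Defs
import Pool.Agent.H14.DtN.SymAux2
import Pool.Agent.H14.DtN.SymAux5

/-!
MODULE L1 : symbols from closed families; MODULE L2 : Fourier representation of a functional of
finite order.
-/

open scoped Manifold ContDiff Topology ComplexConjugate FourierTransform
open Set MeasureTheory

set_option linter.unusedSectionVars false

noncomputable section

namespace DtN

variable {d : ℕ} {W : Type*} [NormedAddCommGroup W] [NormedSpace ℝ W]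

/-- L1: a family of functions `S m` (`m : ℤ` the order) which is closed under partial derivatives and
satisfies sup bounds consists of symbols. -/
theorem isSymbol_of_family (S : ℤ → AddSubgroup (Eu d → Eu d → W))
    (hbd : ∀ m, ∀ a ∈ S m, ∃ C : ℝ, ∀ x ξ, ‖a x ξ‖ ≤ C * (1 + ‖ξ‖) ^ m)
    (hx : ∀ m, ∀ a ∈ S m, ∀ j : Fin d, ∃ a' ∈ S m, ∀ x ξ,
      HasDerivAt (fun t : ℝ => a (x + t • EuclideanSpace.single j 1) ξ) (a' x ξ) 0)
    (hξ : ∀ m, ∀ a ∈ S m, ∀ j : Fin d, ∃ a' ∈ S (m - 1), ∀ x ξ,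
      HasDerivAt (fun t : ℝ => a x (ξ + t • EuclideanSpace.single j 1)) (a' x ξ) 0)
    {m : ℤ} {a : Eu d → Eu d → W} (ha : a ∈ S m) : IsSymbol (m : ℝ) a := by
  refine ⟨fam_contDiff S hbd hx hξ ha, fun j k => ?_⟩
  obtain ⟨C, hC⟩ := (fam_mixed S hbd hx hξ j ha).2 k
  refine ⟨C, fun x ξ => ?_⟩
  have := hC x ξ
  rwa [← Real.rpow_intCast, Int.cast_sub, Int.cast_natCast] at this

/-- The exponential `x ↦ exp (2 π i ⟨x, ξ⟩)`. -/
def eexp (ξ : Eu d) (x : Eu d) : ℂ := Complex.exp (2 * Real.pi * (inner ℝ x ξ : ℝ) * Complex.I)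

/-- L2: a linear functional of finite order with compact support on smooth functions is computed
from its values on exponentials. -/
theorem fourier_rep {V : Type*} [NormedAddCommGroup V] [NormedSpace ℂ V] [FiniteDimensional ℂ V]
    {W : Type*} [NormedAddCommGroup W] [NormedSpace ℂ W] [FiniteDimensional ℂ W]
    (l : (Eu d → V) → W)
    (hadd : ∀ f g : Eu d → V, ContDiff ℝ ∞ f → ContDiff ℝ ∞ g → l (f + g) = l f + l g)
    (hsmul : ∀ (c : ℂ) (f : Eu d → V), ContDiff ℝ ∞ f → l (c • f) = c • l f)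
    (K : Set (Eu d)) (hK : IsCompact K) (r : ℕ) (C : ℝ)
    (hbd : ∀ f : Eu d → V, ContDiff ℝ ∞ f → ∀ B : ℝ,
      (∀ j ≤ r, ∀ x ∈ K, ‖iteratedFDeriv ℝ j f x‖ ≤ B) → ‖l f‖ ≤ C * B)
    (u : SchwartzMap (Eu d) V) :
    l u = ∫ ξ, l (fun x => eexp ξ x • 𝓕 (u : Eu d → V) ξ) := by
  exact fourier_rep_aux l hadd hsmul K hK r C hbd u

/-- L2 bis: differentiating such a functional along the exponentials. -/
theorem hasDerivAt_functional_eexp {V : Type*} [NormedAddCommGroup V] [NormedSpace ℂ V]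
    {W : Type*} [NormedAddCommGroup W] [NormedSpace ℂ W]
    (l : (Eu d → V) → W)
    (hadd : ∀ f g : Eu d → V, ContDiff ℝ ∞ f → ContDiff ℝ ∞ g → l (f + g) = l f + l g)
    (hsmul : ∀ (c : ℂ) (f : Eu d → V), ContDiff ℝ ∞ f → l (c • f) = c • l f)
    (K : Set (Eu d)) (hK : IsCompact K) (r : ℕ) (C : ℝ)
    (hbd : ∀ f : Eu d → V, ContDiff ℝ ∞ f → ∀ B : ℝ,
      (∀ j ≤ r, ∀ x ∈ K, ‖iteratedFDeriv ℝ j f x‖ ≤ B) → ‖l f‖ ≤ C * B)
    (v : V) (ξ : Eu d) (j : Fin d) :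
    HasDerivAt (fun t : ℝ => l (fun x => eexp (ξ + t • EuclideanSpace.single j 1) x • v))
      (l (fun x => (2 * Real.pi * (x j : ℝ) * Complex.I * eexp ξ x : ℂ) • v)) 0 := by
  exact hasDerivAt_functional_aux l hadd hsmul K hK r C hbd v ξ j

end DtN
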