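import Pool.Agent.H14.DtN.FMap
import Pool.Agent.H14.DtN.Sym

/-!
MODULE M2 : test functions pulled back from Euclidean space.
-/

open scoped Manifold ContDiff Topology ComplexConjugate
open Set MeasureTheory

set_option linter.unusedSectionVars false

noncomputable section

namespace DtN

section Euclid

variable {d : ℕ}

/-- Smooth complex functions on `ℝ ^ d`. -/
abbrev Sm (d : ℕ) := {s : Eu d → ℂ // ContDiff ℝ ∞ s}

/-- Partial derivative. -/
def Sm.par (j : Fin d) (s : Sm d) : Sm d :=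
  ⟨fun y => fderiv ℝ s.1 y (ev j), by
    have h := s.2.fderiv_right (m := ∞) (by simp)
    exact h.clm_apply contDiff_const⟩

/-- The linear phase of `eexp`. -/
def phase (ξ : Eu d) : Eu d →L[ℝ] ℂ :=
  (2 * Real.pi * Complex.I : ℂ) • (Complex.ofRealCLM.comp (innerSL ℝ ξ : Eu d →L[ℝ] ℝ))

theorem phase_apply (ξ x : Eu d) : phase ξ x = 2 * Real.pi * (inner ℝ x ξ : ℝ) * Complex.I := by
  simp only [phase, smul_apply, ContinuousLinearMap.comp_apply,
    innerSL_apply_apply, Complex.ofRealCLM_apply, smul_eq_mul]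
  rw [real_inner_comm]
  ring

theorem eexp_eq (ξ : Eu d) : eexp ξ = fun x => Complex.exp (phase ξ x) := by
  funext x
  rw [phase_apply, eexp]

theorem eexp_hasFDerivAt (ξ x : Eu d) : HasFDerivAt (eexp ξ) (eexp ξ x • phase ξ) x := by
  rw [eexp_eq]
  exact (phase ξ).hasFDerivAt.cexp

theorem eexp_contDiff (ξ : Eu d) : ContDiff ℝ ∞ (eexp ξ) := by
  rw [eexp_eq]
  exact (phase ξ).contDiff.cexp

theorem norm_eexp (ξ x : Eu d) : ‖eexp ξ x‖ = 1 := by
  rw [eexp_eq]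
  show ‖Complex.exp (phase ξ x)‖ = 1
  rw [phase_apply]
  have : (2 * Real.pi * (inner ℝ x ξ : ℝ) * Complex.I : ℂ) =
      ((2 * Real.pi * (inner ℝ x ξ : ℝ) : ℝ) : ℂ) * Complex.I := by push_cast; ring
  rw [this, Complex.norm_exp_ofReal_mul_I]

theorem norm_phase_le (ξ : Eu d) : ‖phase ξ‖ ≤ 2 * Real.pi * ‖ξ‖ := by
  refine ContinuousLinearMap.opNorm_le_bound _ (by positivity) fun x => ?_
  rw [phase_apply]
  have : (2 * Real.pi * (inner ℝ x ξ : ℝ) * Complex.I : ℂ) =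
      ((2 * Real.pi * (inner ℝ x ξ : ℝ) : ℝ) : ℂ) * Complex.I := by push_cast; ring
  rw [this, norm_mul, Complex.norm_I, mul_one, Complex.norm_real, norm_mul, norm_mul,
    Real.norm_of_nonneg Real.pi_pos.le, Real.norm_of_nonneg zero_le_two]
  have h := abs_real_inner_le_norm x ξ
  rw [Real.norm_eq_abs]
  have hp := Real.pi_pos
  nlinarith [norm_nonneg x, norm_nonneg ξ]

theorem norm_iteratedFDeriv_eexp (ξ x : Eu d) (j : ℕ) :
    ‖iteratedFDeriv ℝ j (eexp ξ) x‖ ≤ (2 * Real.pi * ‖ξ‖) ^ j := by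
  induction j with
  | zero => rw [norm_iteratedFDeriv_zero, norm_eexp, pow_zero]
  | succ j ih =>
    have h1 : fderiv ℝ (eexp ξ) = fun x => eexp ξ x • phase ξ := by
      funext x
      exact (eexp_hasFDerivAt ξ x).fderiv
    rw [← norm_iteratedFDeriv_fderiv, h1]
    let L : ℂ →L[ℝ] (Eu d →L[ℝ] ℂ) :=
      (ContinuousLinearMap.toSpanSingleton ℂ (phase ξ)).restrictScalars ℝ
    have h2 : ‖L‖ ≤ ‖phase ξ‖ := by
      refine ContinuousLinearMap.opNorm_le_bound _ (norm_nonneg _) fun c => ?_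
      show ‖c • phase ξ‖ ≤ _
      rw [norm_smul, mul_comm]
    have h3 := L.norm_iteratedFDeriv_comp_left (f := eexp ξ) (x := x) (N := ∞) (n := j)
      (eexp_contDiff ξ).contDiffAt (by exact_mod_cast le_top)
    refine (le_of_eq_of_le rfl h3).trans ?_
    rw [pow_succ, mul_comm ((2 * Real.pi * ‖ξ‖) ^ j)]
    exact mul_le_mul (h2.trans (norm_phase_le ξ)) ih (norm_nonneg _) (by positivity)

/-- The derivative of a product of the form `s • (b ∘ ..)`: sup norms of derivatives over a set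
parametrized by `bm`. -/
def csup {X : Type*} (bm : X → Eu d) (r : ℕ) (s : Sm d) : ℝ :=
  ∑ j ∈ Finset.range (r + 1), ⨆ z : X, ‖iteratedFDeriv ℝ j s.1 (bm z)‖

variable {X : Type*} [TopologicalSpace X] [CompactSpace X] {bm : X → Eu d}

theorem csup_bdd (hb : Continuous bm) (s : Sm d) (j : ℕ) :
    BddAbove (range fun z : X => ‖iteratedFDeriv ℝ j s.1 (bm z)‖) := by
  have hc : Continuous fun z : X => ‖iteratedFDeriv ℝ j s.1 (bm z)‖ :=
    ((s.2.continuous_iteratedFDeriv (by exact_mod_cast le_top)).comp hb).norm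
  exact (isCompact_range hc).bddAbove

theorem le_csup (hb : Continuous bm) (s : Sm d) {j r : ℕ} (hj : j ≤ r) (z : X) :
    ‖iteratedFDeriv ℝ j s.1 (bm z)‖ ≤ csup bm r s := by
  refine (le_ciSup (csup_bdd hb s j) z).trans ?_
  unfold csup
  exact Finset.single_le_sum (f := fun j => ⨆ z : X, ‖iteratedFDeriv ℝ j s.1 (bm z)‖)
    (fun i _ => Real.iSup_nonneg fun z => norm_nonneg _) (Finset.mem_range.mpr (by omega))

theorem csup_nonneg (r : ℕ) (s : Sm d) : 0 ≤ csup bm r s :=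
  Finset.sum_nonneg fun _ _ => Real.iSup_nonneg fun _ => norm_nonneg _

theorem csup_mono (r : ℕ) (s : Sm d) : csup bm r s ≤ csup bm (r + 1) s := by
  unfold csup
  rw [Finset.sum_range_succ _ (r + 1)]
  exact le_add_of_nonneg_right (Real.iSup_nonneg fun _ => norm_nonneg _)

theorem csup_le {r : ℕ} {s : Sm d} {B : ℝ} (hB : 0 ≤ B)
    (h : ∀ j ≤ r, ∀ z : X, ‖iteratedFDeriv ℝ j s.1 (bm z)‖ ≤ B) :
    csup bm r s ≤ (r + 1) * B := by
  unfold csup
  have : ∀ j ∈ Finset.range (r + 1), (⨆ z : X, ‖iteratedFDeriv ℝ j s.1 (bm z)‖) ≤ B := by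
    intro j hj
    exact Real.iSup_le (h j (by have := Finset.mem_range.mp hj; omega)) hB
  refine (Finset.sum_le_card_nsmul _ _ _ this).trans ?_
  rw [Finset.card_range, nsmul_eq_mul]
  push_cast
  exact le_rfl

theorem norm_iteratedFDeriv_par (s : Sm d) (l : Fin d) (j : ℕ) (x : Eu d) :
    ‖iteratedFDeriv ℝ j (s.par l).1 x‖ ≤ ‖iteratedFDeriv ℝ (j + 1) s.1 x‖ := by
  rw [← norm_iteratedFDeriv_fderiv]
  let L : (Eu d →L[ℝ] ℂ) →L[ℝ] ℂ := ContinuousLinearMap.apply ℝ ℂ (ev l)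
  have hL : ‖L‖ ≤ 1 := by
    refine ContinuousLinearMap.opNorm_le_bound _ zero_le_one fun f => ?_
    show ‖f (ev l)‖ ≤ _
    refine (f.le_opNorm _).trans ?_
    rw [PiLp.norm_single, norm_one, mul_one, one_mul]
  have h3 := L.norm_iteratedFDeriv_comp_left (f := fderiv ℝ s.1) (x := x) (N := ∞) (n := j)
      ((s.2.fderiv_right (m := ∞) (by simp)).contDiffAt) (by exact_mod_cast le_top)
  refine (le_of_eq_of_le rfl h3).trans ?_
  exact mul_le_of_le_one_left (norm_nonneg _) hL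

theorem csup_par (hb : Continuous bm) (r : ℕ) (l : Fin d) (s : Sm d) :
    csup bm r (s.par l) ≤ csup bm (r + 1) s := by
  have h : csup bm r (s.par l) ≤ ∑ j ∈ Finset.range (r + 1),
      ⨆ z : X, ‖iteratedFDeriv ℝ (j + 1) s.1 (bm z)‖ := by
    unfold csup
    refine Finset.sum_le_sum fun j _ => ?_
    refine Real.iSup_le (fun z => ?_) (Real.iSup_nonneg fun _ => norm_nonneg _)
    exact (norm_iteratedFDeriv_par s l j (bm z)).trans (le_ciSup (csup_bdd hb s (j + 1)) z)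
  refine h.trans ?_
  unfold csup
  rw [Finset.sum_range_succ' _ (r + 1)]
  exact le_add_of_nonneg_right (Real.iSup_nonneg fun _ => norm_nonneg _)

end Euclid

section

variable {d : ℕ} {Ω : Type*} [TopologicalSpace Ω] [ChartedSpace (EuclideanHalfSpace (d + 1)) Ω]
  [IsManifold (𝓡∂ (d + 1)) ∞ Ω] [CompactSpace Ω] [T2Space Ω]
  (g : Metric (𝓡∂ (d + 1)) Ω) (C : Cover (𝓡∂ (d + 1)) Ω)
  {bm : Ω → Eu d} (hbm : ContMDiff (𝓡∂ (d + 1)) 𝓘(ℝ, Eu d) ∞ bm)

/-- composition of a smooth function on `ℝ ^ d` with `bm` -/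
def compS (s : Sm d) : SFun (𝓡∂ (d + 1)) Ω := ⟨s.1 ∘ bm, s.2.contMDiff.comp hbm⟩

theorem compS_val (s : Sm d) (z : Ω) : (compS hbm s).val z = s.1 (bm z) := rfl

/-- the coordinate functions of `bm` -/
def bS (j : Fin d) : SFun (𝓡∂ (d + 1)) Ω :=
  compS hbm ⟨fun y => ((y j : ℝ) : ℂ),
    (Complex.ofRealCLM.comp (EuclideanSpace.proj j : Eu d →L[ℝ] ℝ)).contDiff⟩

theorem bS_val (j : Fin d) (z : Ω) : (bS hbm j).val z = ((bm z j : ℝ) : ℂ) := rfl

theorem compS_dF (s : Sm d) (z : Ω) (v : Eu (d + 1)) :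
    (compS hbm s).dF z v = fderiv ℝ s.1 (bm z) (mfderiv (𝓡∂ (d + 1)) 𝓘(ℝ, Eu d) bm z v) := by
  have h : HasMFDerivAt 𝓘(ℝ, Eu d) 𝓘(ℝ, ℂ) s.1 (bm z) (fderiv ℝ s.1 (bm z)) :=
    (s.2.differentiable (by simp) (bm z)).hasFDerivAt.hasMFDerivAt
  have hb : HasMFDerivAt (𝓡∂ (d + 1)) 𝓘(ℝ, Eu d) bm z (mfderiv (𝓡∂ (d + 1)) 𝓘(ℝ, Eu d) bm z) :=
    (hbm.mdifferentiable (by simp) z).hasMFDerivAt
  have h2 := (h.comp z hb).mfderiv
  have h3 : (compS hbm s).dF z = (fderiv ℝ s.1 (bm z)).comp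
    (mfderiv (𝓡∂ (d + 1)) 𝓘(ℝ, Eu d) bm z) := h2
  rw [h3]; rfl

theorem bS_dF (j : Fin d) (z : Ω) (v : Eu (d + 1)) :
    (bS hbm j).dF z v =
      (((show Eu d from mfderiv (𝓡∂ (d + 1)) 𝓘(ℝ, Eu d) bm z v) j : ℝ) : ℂ) := by
  have h := compS_dF hbm ⟨fun y => ((y j : ℝ) : ℂ),
    (Complex.ofRealCLM.comp (EuclideanSpace.proj j : Eu d →L[ℝ] ℝ)).contDiff⟩ z v
  rw [bS, h]
  have h2 : fderiv ℝ (fun y : Eu d => ((y j : ℝ) : ℂ)) (bm z) =
      Complex.ofRealCLM.comp (EuclideanSpace.proj j : Eu d →L[ℝ] ℝ) :=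
    (Complex.ofRealCLM.comp (EuclideanSpace.proj j : Eu d →L[ℝ] ℝ)).fderiv
  show fderiv ℝ (fun y : Eu d => ((y j : ℝ) : ℂ)) (bm z) _ = _
  rw [h2]; rfl

theorem der_compS (V : VF (𝓡∂ (d + 1)) Ω) (s : Sm d) :
    der V (compS hbm s) = ∑ j, der V (bS hbm j) * compS hbm (s.par j) := by
  ext z
  rw [SFun.sum_val, der_apply, compS_dF]
  have h : ∀ u : Eu d, fderiv ℝ s.1 (bm z) u = ∑ j, ((u j : ℝ) : ℂ) * fderiv ℝ s.1 (bm z) (ev j) := by
    intro u
    have hu : u = ∑ j, u j • ev j := by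
      have := (EuclideanSpace.basisFun (Fin d) ℝ).sum_repr u
      simpa using this.symm
    conv_lhs => rw [hu]
    rw [map_sum]
    refine Finset.sum_congr rfl fun j _ => ?_
    rw [map_smul]; exact Complex.real_smul
  refine (h _).trans ?_
  refine Finset.sum_congr rfl fun j _ => ?_
  rw [SFun.mul_apply, der_apply, bS_dF]
  rfl

section
variable {S : Type*} [TopologicalSpace S] [ChartedSpace (Eu d) S] [IsManifold (𝓡 d) ∞ S]
    [CompactSpace S] [T2Space S] {f : S → Ω}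
    (hf : ContMDiff (𝓡 d) (𝓡∂ (d + 1)) ∞ f) (hinj : Function.Injective f)
    (himm : ∀ s, Function.Injective (mfderiv (𝓡 d) (𝓡∂ (d + 1)) f s))
    (hrange : range f = (𝓡∂ (d + 1)).boundary Ω) (sp : Spanning d Ω)

/-- The exponential with frequency `ξ`, as a test function. -/
def eS' (ξ : Fin d → ℝ) : Sm d := ⟨eexp (WithLp.toLp 2 ξ), eexp_contDiff _⟩

theorem norm_toLp_le (ξ : Fin d → ℝ) : ‖(WithLp.toLp 2 ξ : Eu d)‖ ≤ (d + 1) * ‖ξ‖ := by
  rw [EuclideanSpace.norm_eq]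
  refine Real.sqrt_le_iff.mpr ⟨by positivity, ?_⟩
  have h : ∑ i, ‖(WithLp.toLp 2 ξ : Eu d) i‖ ^ 2 ≤ ∑ _i : Fin d, ‖ξ‖ ^ 2 :=
    Finset.sum_le_sum fun i _ => pow_le_pow_left₀ (norm_nonneg _) (norm_le_pi_norm ξ i) 2
  refine h.trans ?_
  rw [Finset.sum_const, Finset.card_univ, Fintype.card_fin, nsmul_eq_mul]
  have h0 : (0 : ℝ) ≤ ‖ξ‖ ^ 2 := by positivity
  have h1 : (0 : ℝ) ≤ d := Nat.cast_nonneg d
  nlinarith

/-- The test functions. -/
def testI : (coreData g C hf hinj himm hrange sp).Test (Sm d) d where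
  E := compS hbm
  par := Sm.par
  b := bS hbm
  p := csup bm
  derT_E V s := der_compS hbm V.1 s
  derX_E a s := der_compS hbm (sp.X a) s
  N_E i s w := NM_smul_le g C (compS hbm s) w fun z => by
    have h := le_csup (bm := bm) hbm.continuous s (le_refl 0) z
    rwa [norm_iteratedFDeriv_zero] at h
  p_par r j s := csup_par hbm.continuous r j s
  p_mono r s := csup_mono r s
  p_nonneg r s := csup_nonneg r s
  e := eS'
  E_par_e j ξ := by
    ext z
    rw [SFun.smul_apply, compS_val, compS_val]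
    show fderiv ℝ (eexp (WithLp.toLp 2 ξ)) (bm z) (ev j) = _
    rw [(eexp_hasFDerivAt _ _).fderiv]
    show eexp _ (bm z) * phase _ (ev j) = _
    rw [phase_apply, mul_comm]
    congr 3
    rw [real_inner_comm, EuclideanSpace.inner_single_right]
    simp
  p_e r := by
    refine ⟨∑ j ∈ Finset.range (r + 1), (2 * Real.pi * (d + 1)) ^ j, fun ξ => ?_⟩
    unfold csup
    rw [Finset.sum_mul]
    refine Finset.sum_le_sum fun j hj => ?_
    have h1 : (1 : ℝ) ≤ 1 + ‖ξ‖ := le_add_of_nonneg_right (norm_nonneg _)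
    refine Real.iSup_le (fun z => ?_) (by positivity)
    refine (norm_iteratedFDeriv_eexp _ _ j).trans ?_
    have h2 : (2 * Real.pi * ‖(WithLp.toLp 2 ξ : Eu d)‖) ^ j ≤
        (2 * Real.pi * ((d + 1) * (1 + ‖ξ‖))) ^ j := by
      refine pow_le_pow_left₀ (by positivity) ?_ j
      refine mul_le_mul_of_nonneg_left ((norm_toLp_le ξ).trans ?_) (by positivity)
      refine mul_le_mul_of_nonneg_left ?_ (by positivity)
      linarith
    refine h2.trans ?_
    rw [← mul_assoc, mul_pow]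
    refine mul_le_mul_of_nonneg_left ?_ (by positivity)
    exact pow_le_pow_right₀ h1 (by have := Finset.mem_range.mp hj; omega)

end

end

end DtN
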